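import Mathlib

namespace Pool.Agent.X197.AbsTree

open Filter Topology Set

/-- Every isometry between subsets extends to an isometry of the space. -/
def AbsHomogeneous (X : Type) [MetricSpace X] : Prop :=
  ∀ (A B : Set X) (f : A ≃ᵢ B), ∃ g : X ≃ᵢ X, ∀ a : A, g a = f a

section Abstract

variable {X : Type} [MetricSpace X]

/-- partial isometries as relations -/
def PI (R : Set (X × X)) : Prop := ∀ p ∈ R, ∀ q ∈ R, dist p.1 q.1 = dist p.2 q.2

def FourPoint (X : Type) [MetricSpace X] : Prop := ∀ x y z w : X,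
  dist x y + dist z w ≤ max (dist x z + dist y w) (dist x w + dist y z)

def Geod (X : Type) [MetricSpace X] : Prop := ∀ x y : X, ∃ γ : ℝ → X, γ 0 = x ∧ γ (dist x y) = y ∧
  ∀ s ∈ Icc 0 (dist x y), ∀ t ∈ Icc 0 (dist x y), dist (γ s) (γ t) = |s - t|

def Val3 (X : Type) [MetricSpace X] : Prop := ∀ b : X, ∃ y : Fin 3 → X, (∀ i, y i ≠ b) ∧
  (∀ i j, i ≠ j → dist (y i) (y j) = dist (y i) b + dist b (y j)) ∧
  ∀ z, z ≠ b → ∃ i, dist z (y i) < dist z b + dist b (y i)

lemma near_trans (h4 : FourPoint X) {o u v w : X} (h1 : dist u v < dist u o + dist o v)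
    (h2 : dist v w < dist v o + dist o w) : dist u w < dist u o + dist o w := by
  have h := h4 u w v o
  rcases le_max_iff.mp h with h | h
  · have e1 := dist_comm w o
    have e2 := dist_comm v o
    linarith
  · have e1 := dist_comm w v
    linarith

lemma near_symm {o u v : X} (h1 : dist u v < dist u o + dist o v) :
    dist v u < dist v o + dist o u := by
  rw [dist_comm v u, dist_comm v o, dist_comm o u]; linarith

lemma opp_of_not_near {o u v : X} (h : ¬ dist u v < dist u o + dist o v) :
    dist u v = dist u o + dist o v :=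
  le_antisymm (dist_triangle _ _ _) (not_lt.mp h)

/-- distance to a point of a segment -/
lemma seg_formula (h4 : FourPoint X) {a p a' : X} (h : dist a p + dist p a' = dist a a') (c : X) :
    dist c p = max (dist c a - dist a p) (dist c a' - dist p a') := by
  apply le_antisymm
  · have h1 := h4 c p a a'
    rcases le_max_iff.mp h1 with h1 | h1
    · apply le_max_of_le_left; linarith
    · apply le_max_of_le_right
      have := dist_comm p a
      linarith
  · apply max_le
    · have := dist_triangle c p a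
      have := dist_comm p a
      linarith
    · have := dist_triangle c p a'
      linarith

variable [CompleteSpace X]

section MaxR

variable {R : Set (X × X)} (hR : PI R) (hmax : ∀ R', PI R' → R ⊆ R' → R' ⊆ R)

include hR hmax in
lemma ext_pt {x y : X} (h : ∀ p ∈ R, dist x p.1 = dist y p.2) : (x, y) ∈ R := by
  refine hmax (insert (x, y) R) ?_ (subset_insert _ _) (mem_insert _ _)
  intro p hp q hq
  rcases mem_insert_iff.mp hp with rfl | hp
  · rcases mem_insert_iff.mp hq with rfl | hq
    · simp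
    · exact h q hq
  · rcases mem_insert_iff.mp hq with rfl | hq
    · have := h p hp
      rw [dist_comm p.1, dist_comm p.2]; exact this
    · exact hR p hp q hq

include hR hmax in
lemma conv_pt (h4 : FourPoint X) (hg : Geod X) {a b a' b' p : X} (h1 : (a, b) ∈ R)
    (h2 : (a', b') ∈ R) (h : dist a p + dist p a' = dist a a') : ∃ q, (p, q) ∈ R := by
  obtain ⟨γ, g0, g1, hγ⟩ := hg b b'
  have hbb : dist b b' = dist a a' := (hR _ h1 _ h2).symm
  have hp0 : 0 ≤ dist a p := dist_nonneg
  have hp1 : 0 ≤ dist p a' := dist_nonneg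
  have hs : dist a p ∈ Icc 0 (dist b b') := ⟨hp0, by linarith⟩
  have hb0 : dist b (γ (dist a p)) = dist a p := by
    conv_lhs => rw [← g0]
    rw [hγ 0 ⟨le_rfl, dist_nonneg⟩ _ hs, zero_sub, abs_neg, abs_of_nonneg hp0]
  have hb1 : dist (γ (dist a p)) b' = dist p a' := by
    conv_lhs => rw [← g1]
    rw [hγ _ hs _ ⟨dist_nonneg, le_rfl⟩, abs_sub_comm, abs_of_nonneg (by linarith)]
    linarith
  refine ⟨γ (dist a p), ext_pt hR hmax ?_⟩
  intro r hr
  rw [dist_comm p, dist_comm (γ _), seg_formula h4 h r.1,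
    seg_formula h4 (a := b) (a' := b') (by rw [hb0, hb1, hbb, h]) r.2, hb0, hb1,
    hR r hr _ h1, hR r hr _ h2]

include hR hmax in
lemma closed_dom : IsClosed {a : X | ∃ b, (a, b) ∈ R} := by
  apply IsSeqClosed.isClosed
  intro u a hu hua
  choose v hv using hu
  have hcau : CauchySeq v := by
    have h1 := hua.cauchySeq
    rw [Metric.cauchySeq_iff] at h1 ⊢
    intro ε hε
    obtain ⟨N, hN⟩ := h1 ε hε
    refine ⟨N, fun m hm n hn => ?_⟩
    rw [← hR _ (hv m) _ (hv n)]
    exact hN m hm n hn
  obtain ⟨b, hb⟩ := cauchySeq_tendsto_of_complete hcau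
  refine ⟨b, ext_pt hR hmax ?_⟩
  intro p hp
  have h1 : Tendsto (fun n => dist (u n) p.1) atTop (𝓝 (dist a p.1)) := hua.dist tendsto_const_nhds
  have h2 : Tendsto (fun n => dist (v n) p.2) atTop (𝓝 (dist b p.2)) := hb.dist tendsto_const_nhds
  have h3 : (fun n => dist (u n) p.1) = fun n => dist (v n) p.2 := by
    funext n
    exact hR _ (hv n) _ hp
  rw [h3] at h1
  exact tendsto_nhds_unique h1 h2

include hR hmax in
lemma total (h4 : FourPoint X) (hg : Geod X) (hv : Val3 X) (x : X) : ∃ y, (x, y) ∈ R := by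
  by_contra hx
  have hne : R.Nonempty := by
    rw [nonempty_iff_ne_empty]
    intro h0
    apply hx
    exact ⟨x, ext_pt hR hmax (by rw [h0]; simp)⟩
  obtain ⟨⟨a0, b0⟩, hab0⟩ := hne
  obtain ⟨γ, g0, g1, hγ⟩ := hg a0 x
  set L := dist a0 x with hL
  have hL0 : 0 ≤ L := dist_nonneg
  have hcont : ContinuousOn γ (Icc 0 L) := by
    rw [Metric.continuousOn_iff]
    intro s hs ε hε
    refine ⟨ε, hε, fun t ht hst => ?_⟩
    rw [hγ t ht s hs]
    exact hst
  set T : Set ℝ := Icc 0 L ∩ γ ⁻¹' {a : X | ∃ b, (a, b) ∈ R} with hT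
  have hTc : IsClosed T := hcont.preimage_isClosed_of_isClosed isClosed_Icc (closed_dom hR hmax)
  have hTne : T.Nonempty := ⟨0, ⟨le_rfl, hL0⟩, by
    simp only [mem_preimage, mem_ofPred_eq, g0]; exact ⟨b0, hab0⟩⟩
  have hTb : BddAbove T := ⟨L, fun t ht => ht.1.2⟩
  set ts := sSup T with hts
  have htsT : ts ∈ T := hTc.csSup_mem hTne hTb
  have hle : ∀ t ∈ T, t ≤ ts := fun t ht => le_csSup hTb ht
  obtain ⟨hts01, b, hab⟩ := htsT
  set a := γ ts with ha
  have hγx : γ L = x := g1
  have hdax : dist a x = L - ts := by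
    rw [← hγx, ha, hγ _ hts01 _ ⟨hL0, le_rfl⟩, abs_sub_comm, abs_of_nonneg (by linarith [hts01.2])]
  have hax : a ≠ x := by
    intro h
    apply hx
    rw [← h]
    exact ⟨b, hab⟩
  have hdpos : 0 < dist a x := dist_pos.mpr hax
  have key : ∀ a' b', (a', b') ∈ R → dist a' x = dist a' a + dist a x := by
    intro a' b' h'
    set g := (dist a a' + dist a x - dist a' x) / 2 with hgdef
    have hg0 : 0 ≤ g := by
      have := dist_triangle a' a x
      rw [dist_comm a' a] at this
      linarith
    have hg1 : g ≤ dist a x := by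
      have := dist_triangle a x a'
      rw [dist_comm x a'] at this
      linarith
    have hmem : ts + g ∈ Icc 0 L := ⟨by linarith [hts01.1], by linarith⟩
    have h1 : dist a (γ (ts + g)) = g := by
      rw [ha, hγ _ hts01 _ hmem, show ts - (ts + g) = -g by ring, abs_neg, abs_of_nonneg hg0]
    have h2 : dist (γ (ts + g)) x = dist a x - g := by
      conv_lhs => rw [← hγx]
      rw [hγ _ hmem _ ⟨hL0, le_rfl⟩, abs_sub_comm, abs_of_nonneg (by linarith [hmem.2])]
      linarith
    have h3 := seg_formula h4 (a := a) (p := γ (ts + g)) (a' := x) (by rw [h1, h2]; ring) a'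
    rw [h1, h2] at h3
    have h4' : dist a' a - g = dist a' x - (dist a x - g) := by
      rw [dist_comm a' a]; linarith
    rw [← h4', max_self] at h3
    obtain ⟨q, hq⟩ := conv_pt hR hmax h4 hg hab h' (p := γ (ts + g)) (by
      rw [h1, dist_comm, h3, dist_comm a' a]; ring)
    have h5 : ts + g ≤ ts := hle _ ⟨hmem, q, hq⟩
    have h6 : g = 0 := by linarith
    rw [dist_comm a' a]
    linarith
  obtain ⟨y, hy1, hy2, hy3⟩ := hv b
  obtain ⟨y', hy1', hy2', hy3'⟩ := hv a
  have hdir : ∃ i, ∀ a' b', (a', b') ∈ R → dist b' (y i) = dist b' b + dist b (y i) := by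
    by_contra hcon
    push Not at hcon
    choose α β hαβ hne using hcon
    have hnear : ∀ i, dist (β i) (y i) < dist (β i) b + dist b (y i) := fun i =>
      lt_of_le_of_ne (dist_triangle _ _ _) (hne i)
    have hopp : ∀ i j, i ≠ j → dist (β i) (β j) = dist (β i) b + dist b (β j) := by
      intro i j hij
      apply opp_of_not_near
      intro h
      have h1 := near_trans h4 (near_trans h4 (near_symm (hnear i)) h) (hnear j)
      rw [hy2 i j hij] at h1
      exact lt_irrefl _ h1
    have hαa : ∀ i, α i ≠ a := by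
      intro i h
      have h1 := hR _ (hαβ i) _ hab
      simp only [h, dist_self] at h1
      have h2 : β i = b := dist_eq_zero.mp h1.symm
      have h3 := hnear i
      rw [h2, dist_self, zero_add] at h3
      exact lt_irrefl _ h3
    choose κ hκ using fun i => hy3' (α i) (hαa i)
    obtain ⟨κx, hκx⟩ := hy3' x hax.symm
    have hκinj : Function.Injective κ := by
      intro i j hij
      by_contra hne'
      have h1 := hκ i
      have h2 := hκ j
      rw [← hij] at h2
      have h3 := near_trans h4 h1 (near_symm h2)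
      have h4' := hopp i j hne'
      rw [← hR _ (hαβ i) _ (hαβ j), ← hR _ (hαβ i) _ hab, ← hR _ hab _ (hαβ j)] at h4'
      simp only at h4'
      linarith
    have hκsurj : Function.Surjective κ := Finite.injective_iff_surjective.mp hκinj
    obtain ⟨i, hi⟩ := hκsurj κx
    have h1 := hκ i
    rw [hi] at h1
    have h3 := near_trans h4 h1 (near_symm hκx)
    have h5 := key _ _ (hαβ i)
    linarith
  obtain ⟨i, hi⟩ := hdir
  set r := min (dist a x) (dist b (y i)) with hr
  have hrpos : 0 < r := lt_min hdpos (dist_pos.mpr (hy1 i).symm)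
  have hr1 : r ≤ dist a x := min_le_left _ _
  have hr2 : r ≤ dist b (y i) := min_le_right _ _
  obtain ⟨δ, d0, d1, hδ⟩ := hg b (y i)
  have hmem : ts + r ∈ Icc 0 L := ⟨by linarith [hts01.1], by linarith⟩
  have hrmem : r ∈ Icc 0 (dist b (y i)) := ⟨hrpos.le, hr2⟩
  have e1 : dist a (γ (ts + r)) = r := by
    rw [ha, hγ _ hts01 _ hmem, show ts - (ts + r) = -r by ring, abs_neg, abs_of_nonneg hrpos.le]
  have e2 : dist (γ (ts + r)) x = dist a x - r := by
    conv_lhs => rw [← hγx]
    rw [hγ _ hmem _ ⟨hL0, le_rfl⟩, abs_sub_comm, abs_of_nonneg (by linarith [hmem.2])]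
    linarith
  have e3 : dist b (δ r) = r := by
    conv_lhs => rw [← d0]
    rw [hδ 0 ⟨le_rfl, dist_nonneg⟩ _ hrmem, zero_sub, abs_neg, abs_of_nonneg hrpos.le]
  have e4 : dist (δ r) (y i) = dist b (y i) - r := by
    conv_lhs => rw [← d1]
    rw [hδ _ hrmem _ ⟨dist_nonneg, le_rfl⟩, abs_sub_comm, abs_of_nonneg (by linarith)]
  have hnew : (γ (ts + r), δ r) ∈ R := by
    apply ext_pt hR hmax
    rintro ⟨a', b'⟩ h'
    simp only
    have k1 := key a' b' h'
    have k2 := hi a' b' h'
    have k3 := hR _ h' _ hab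
    simp only at k3
    have f1 : dist a' (γ (ts + r)) = dist a' a + r := by
      apply le_antisymm
      · have := dist_triangle a' a (γ (ts + r)); linarith
      · have := dist_triangle a' (γ (ts + r)) x; linarith
    have f2 : dist b' (δ r) = dist b' b + r := by
      apply le_antisymm
      · have := dist_triangle b' b (δ r); linarith
      · have := dist_triangle b' (δ r) (y i); linarith
    rw [dist_comm, f1, dist_comm (δ r), f2, k3]
  have := hle _ ⟨hmem, δ r, hnew⟩
  linarith

end MaxR

theorem absHomogeneous_of (h4 : FourPoint X) (hg : Geod X) (hv : Val3 X) : AbsHomogeneous X := by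
  intro A B f
  set R0 : Set (X × X) := {p | ∃ a : A, p = ((a : X), ((f a : B) : X))} with hR0
  have hR0' : PI R0 := by
    rintro _ ⟨a, rfl⟩ _ ⟨a', rfl⟩
    exact (f.isometry.dist_eq a a').symm
  obtain ⟨R, hsub, hRmax⟩ := zorn_subset_nonempty {R : Set (X × X) | PI R} (fun c hc hchain hne => by
    refine ⟨⋃₀ c, ?_, fun s hs => subset_sUnion_of_mem hs⟩
    rintro p ⟨s, hs, hp⟩ q ⟨t, ht, hq⟩
    rcases hchain.total hs ht with h | h
    · exact hc ht p (h hp) q hq
    · exact hc hs p hp q (h hq)) R0 hR0'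
  have hR : PI R := hRmax.prop
  have hmax : ∀ R', PI R' → R ⊆ R' → R' ⊆ R := fun R' h1 h2 => hRmax.le_of_ge h1 h2
  have htot := total hR hmax h4 hg hv
  have hRs : PI (Prod.swap ⁻¹' R) := fun p hp q hq => (hR _ hp _ hq).symm
  have hmaxs : ∀ R', PI R' → Prod.swap ⁻¹' R ⊆ R' → R' ⊆ Prod.swap ⁻¹' R := by
    intro R' h1 h2 p hp
    have h3 : PI (Prod.swap ⁻¹' R') := fun p hp q hq => (h1 _ hp _ hq).symm
    have h4 : R ⊆ Prod.swap ⁻¹' R' := by
      intro q hq
      exact h2 (by simpa using hq)
    exact hmax _ h3 h4 (by simpa using hp)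
  have htots := total hRs hmaxs h4 hg hv
  choose g hgR using htot
  have hiso : Isometry g := Isometry.of_dist_eq (fun x y => (hR _ (hgR x) _ (hgR y)).symm)
  have hsurj : Function.Surjective g := by
    intro y
    obtain ⟨x, hx⟩ := htots y
    refine ⟨x, ?_⟩
    have h1 := hR _ (hgR x) _ hx
    simp only [Prod.fst_swap, Prod.snd_swap, dist_self] at h1
    exact dist_eq_zero.mp h1.symm
  refine ⟨IsometryEquiv.mk (Equiv.ofBijective g ⟨hiso.injective, hsurj⟩) hiso, ?_⟩
  intro a
  have h1 := hR _ (hgR (a : X)) _ (hsub ⟨a, rfl⟩)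
  simp only [dist_self] at h1
  exact dist_eq_zero.mp h1.symm

end Abstract

end Pool.Agent.X197.AbsTree
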