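import Mathlib
import Pool.Agent.X197.AbsTree

namespace Pool.Agent.X197.AbsTree

open Filter Topology Set

/-- Points of the three-valent tree: a height and the set of turning levels below it. -/
@[ext]
structure Pt where
  h : ℝ
  D : Set ℝ
  lt : ∀ t ∈ D, t < h
  bdd : ∃ c, ∀ t ∈ D, c ≤ t
  gap : ∀ t : ℝ, ∃ t', t < t' ∧ ∀ s ∈ D, t < s → t' ≤ s

namespace Pt

def Ag (x y : Pt) : Set ℝ := {t | t ≤ x.h ∧ t ≤ y.h ∧ ∀ s, s < t → (s ∈ x.D ↔ s ∈ y.D)}

noncomputable def m (x y : Pt) : ℝ := sSup (Ag x y)

lemma Ag_comm (x y : Pt) : Ag x y = Ag y x := by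
  ext t
  constructor
  · rintro ⟨h1, h2, h3⟩; exact ⟨h2, h1, fun s hs => (h3 s hs).symm⟩
  · rintro ⟨h1, h2, h3⟩; exact ⟨h2, h1, fun s hs => (h3 s hs).symm⟩

lemma m_comm (x y : Pt) : m x y = m y x := by rw [m, m, Ag_comm]

lemma Ag_bdd (x y : Pt) : BddAbove (Ag x y) := ⟨x.h, fun _ ht => ht.1⟩

lemma Ag_nonempty (x y : Pt) : (Ag x y).Nonempty := by
  obtain ⟨c, hc⟩ := x.bdd
  obtain ⟨d, hd⟩ := y.bdd
  refine ⟨min (min c d) (min x.h y.h), ?_, ?_, ?_⟩
  · exact (min_le_right _ _).trans (min_le_left _ _)
  · exact (min_le_right _ _).trans (min_le_right _ _)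
  · intro s hs
    have h1 : s < c := hs.trans_le ((min_le_left _ _).trans (min_le_left _ _))
    have h2 : s < d := hs.trans_le ((min_le_left _ _).trans (min_le_right _ _))
    constructor
    · intro h; exact absurd (hc s h) (not_le.mpr h1)
    · intro h; exact absurd (hd s h) (not_le.mpr h2)

lemma mem_Ag_iff (x y : Pt) (t : ℝ) : t ∈ Ag x y ↔ t ≤ m x y := by
  constructor
  · intro h; exact le_csSup (Ag_bdd x y) h
  · intro h
    refine ⟨h.trans (csSup_le (Ag_nonempty x y) (fun _ ht => ht.1)),
      h.trans (csSup_le (Ag_nonempty x y) (fun _ ht => ht.2.1)), fun s hs => ?_⟩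
    obtain ⟨t', ht', hst⟩ := exists_lt_of_lt_csSup (Ag_nonempty x y) (hs.trans_le h)
    exact ht'.2.2 s hst

lemma m_mem (x y : Pt) : m x y ∈ Ag x y := (mem_Ag_iff x y _).mpr le_rfl

lemma m_le_left (x y : Pt) : m x y ≤ x.h := (m_mem x y).1

lemma m_le_right (x y : Pt) : m x y ≤ y.h := (m_mem x y).2.1

lemma mem_iff {x y : Pt} {s : ℝ} (h : s < m x y) : s ∈ x.D ↔ s ∈ y.D := (m_mem x y).2.2 s h

lemma m_self (x : Pt) : m x x = x.h := by
  apply le_antisymm (m_le_left x x)
  rw [← mem_Ag_iff]
  exact ⟨le_rfl, le_rfl, fun _ _ => Iff.rfl⟩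

lemma m_ultra (x y z : Pt) : m x y ≤ m x z ∨ m y z ≤ m x z := by
  rcases le_total (m x y) (m y z) with h | h
  · left
    rw [← mem_Ag_iff]
    refine ⟨m_le_left _ _, h.trans (m_le_right _ _), fun s hs => ?_⟩
    rw [mem_iff hs, mem_iff (hs.trans_le h)]
  · right
    rw [← mem_Ag_iff]
    refine ⟨h.trans (m_le_left _ _), m_le_right _ _, fun s hs => ?_⟩
    rw [mem_iff (hs.trans_le h), mem_iff hs]

lemma eq_of_m {x y : Pt} (h1 : m x y = x.h) (h2 : m x y = y.h) : x = y := by
  apply Pt.ext
  · rw [← h1, h2]
  · ext s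
    constructor
    · intro hs
      have := x.lt s hs
      rwa [← mem_iff (by rw [h1]; exact this)]
    · intro hs
      have := y.lt s hs
      rwa [mem_iff (by rw [h2]; exact this)]

noncomputable instance : MetricSpace Pt where
  dist x y := x.h + y.h - 2 * m x y
  dist_self x := by show x.h + x.h - 2 * m x x = 0; rw [m_self]; ring
  dist_comm x y := by show x.h + y.h - 2 * m x y = y.h + x.h - 2 * m y x; rw [m_comm x y]; ring
  dist_triangle x y z := by
    show x.h + z.h - 2 * m x z ≤ (x.h + y.h - 2 * m x y) + (y.h + z.h - 2 * m y z)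
    have h1 := m_le_right x y
    have h2 := m_le_left y z
    rcases m_ultra x y z with h | h <;> linarith
  eq_of_dist_eq_zero := by
    intro x y h
    have h' : x.h + y.h - 2 * m x y = 0 := h
    have h1 := m_le_left x y
    have h2 := m_le_right x y
    exact eq_of_m (by linarith) (by linarith)

lemma dist_def (x y : Pt) : dist x y = x.h + y.h - 2 * m x y := rfl

lemma fourPoint : FourPoint Pt := by
  intro x y z w
  simp only [dist_def]
  have c1 := m_comm x y
  have c2 := m_comm x z
  have c3 := m_comm x w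
  have c4 := m_comm y z
  have c5 := m_comm y w
  have c6 := m_comm z w
  by_contra hcon
  rw [le_max_iff] at hcon
  push Not at hcon
  obtain ⟨h1, h2⟩ := hcon
  have k1 := m_ultra x z y
  have k2 := m_ultra x w y
  have k3 := m_ultra z x w
  have k4 := m_ultra z y w
  have k5 := m_ultra x y z
  have k6 := m_ultra x w z
  have k7 := m_ultra x y w
  have k8 := m_ultra x z w
  have k9 := m_ultra y x z
  have k10 := m_ultra y w z
  have k11 := m_ultra y x w
  have k12 := m_ultra y z w
  rcases k1 with k1 | k1 <;> rcases k2 with k2 | k2 <;> rcases k3 with k3 | k3 <;>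
    rcases k4 with k4 | k4 <;> first | linarith | (
    rcases k5 with k5 | k5 <;> rcases k6 with k6 | k6 <;> rcases k7 with k7 | k7 <;>
    rcases k8 with k8 | k8 <;> first | linarith | (
    rcases k9 with k9 | k9 <;> rcases k10 with k10 | k10 <;> rcases k11 with k11 | k11 <;>
    rcases k12 with k12 | k12 <;> linarith))

/-- truncation -/
def tr (x : Pt) (k : ℝ) : Pt where
  h := min k x.h
  D := {t | t ∈ x.D ∧ t < k}
  lt := fun t ht => lt_min ht.2 (x.lt t ht.1)
  bdd := by
    obtain ⟨c, hc⟩ := x.bdd
    exact ⟨c, fun t ht => hc t ht.1⟩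
  gap := fun t => by
    obtain ⟨t', h1, h2⟩ := x.gap t
    exact ⟨t', h1, fun s hs hts => h2 s hs.1 hts⟩

lemma m_tr (x y : Pt) (k : ℝ) : m (tr x k) y = min k (m x y) := by
  apply eq_of_forall_le_iff
  intro t
  rw [← mem_Ag_iff, le_min_iff, ← mem_Ag_iff]
  constructor
  · rintro ⟨h1, h2, h3⟩
    have h1' : t ≤ min k x.h := h1
    refine ⟨h1'.trans (min_le_left _ _), h1'.trans (min_le_right _ _), h2, fun s hs => ?_⟩
    rw [← h3 s hs]
    constructor
    · intro h; exact ⟨h, hs.trans_le (h1'.trans (min_le_left _ _))⟩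
    · intro h; exact h.1
  · rintro ⟨h0, h1, h2, h3⟩
    refine ⟨le_min h0 h1, h2, fun s hs => ?_⟩
    rw [← h3 s hs]
    constructor
    · intro h; exact h.1
    · intro h; exact ⟨h, hs.trans_le h0⟩

lemma tr_h (x : Pt) {k : ℝ} (hk : k ≤ x.h) : (tr x k).h = k := min_eq_left hk

lemma tr_self (x : Pt) : tr x x.h = x := by
  apply Pt.ext
  · exact min_self _
  · ext s
    constructor
    · intro h; exact h.1
    · intro h; exact ⟨h, x.lt s h⟩

lemma dist_tr (x y : Pt) {k l : ℝ} (hk : k ≤ x.h) (hl : l ≤ y.h) :
    dist (tr x k) (tr y l) = k + l - 2 * min k (min l (m x y)) := by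
  rw [dist_def, tr_h x hk, tr_h y hl, m_tr, m_comm x, m_tr, m_comm y]

lemma geod : Geod Pt := by
  intro x y
  have hx := m_le_left x y
  have hy := m_le_right x y
  set M := m x y with hM
  refine ⟨fun t => if t ≤ x.h - M then tr x (x.h - t) else tr y (t - x.h + 2 * M), ?_, ?_, ?_⟩
  · simp only
    rw [if_pos (by linarith), sub_zero, tr_self]
  · simp only
    split_ifs with h
    · rw [dist_def, ← hM] at h ⊢
      have h1 : y.h = M := by linarith
      have e : x.h - (x.h + y.h - 2 * M) = M := by linarith
      rw [e]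
      apply dist_eq_zero.mp
      conv_lhs => rw [← tr_self y]
      rw [dist_tr x y hx le_rfl, ← hM, h1]
      simp
      ring
    · rw [dist_def, ← hM]
      have e : x.h + y.h - 2 * M - x.h + 2 * M = y.h := by ring
      rw [e, tr_self]
  · intro s hs t ht
    rw [dist_def, ← hM] at hs ht
    simp only
    obtain ⟨hs0, hs1⟩ := hs
    obtain ⟨ht0, ht1⟩ := ht
    split_ifs with h1 h2 h2
    · rw [dist_tr x x (by linarith) (by linarith), m_self]
      rcases le_total s t with h | h
      · rw [min_eq_left (by linarith : x.h - t ≤ x.h), min_eq_right (by linarith), abs_of_nonpos (by linarith)]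
        ring
      · rw [min_eq_left (by linarith : x.h - t ≤ x.h), min_eq_left (by linarith), abs_of_nonneg (by linarith)]
        ring
    · rw [dist_tr x y (by linarith) (by linarith), ← hM, min_eq_right (by linarith : M ≤ t - x.h + 2 * M),
        min_eq_right (by linarith), abs_of_nonpos (by linarith)]
      ring
    · rw [dist_comm, dist_tr x y (by linarith) (by linarith), ← hM,
        min_eq_right (by linarith : M ≤ s - x.h + 2 * M), min_eq_right (by linarith),
        abs_of_nonneg (by linarith)]
      ring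
    · rw [dist_tr y y (by linarith) (by linarith), m_self]
      rcases le_total s t with h | h
      · rw [min_eq_left (by linarith : t - x.h + 2 * M ≤ y.h), min_eq_left (by linarith),
          abs_of_nonpos (by linarith)]
        ring
      · rw [min_eq_left (by linarith : t - x.h + 2 * M ≤ y.h), min_eq_right (by linarith),
          abs_of_nonneg (by linarith)]
        ring

def up0 (b : Pt) : Pt where
  h := b.h + 1
  D := b.D
  lt := fun t ht => by have := b.lt t ht; linarith
  bdd := b.bdd
  gap := b.gap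

def up1 (b : Pt) : Pt where
  h := b.h + 1
  D := insert b.h b.D
  lt := fun t ht => by
    rcases mem_insert_iff.mp ht with rfl | ht
    · linarith
    · have := b.lt t ht; linarith
  bdd := by
    obtain ⟨c, hc⟩ := b.bdd
    refine ⟨min c b.h, fun t ht => ?_⟩
    rcases mem_insert_iff.mp ht with rfl | ht
    · exact min_le_right _ _
    · exact (min_le_left _ _).trans (hc t ht)
  gap := fun t => by
    obtain ⟨t', h1, h2⟩ := b.gap t
    by_cases ht : t < b.h
    · refine ⟨min t' b.h, lt_min h1 ht, fun s hs hts => ?_⟩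
      rcases mem_insert_iff.mp hs with rfl | hs
      · exact min_le_right _ _
      · exact (min_le_left _ _).trans (h2 s hs hts)
    · refine ⟨t', h1, fun s hs hts => ?_⟩
      rcases mem_insert_iff.mp hs with rfl | hs
      · exact absurd hts ht
      · exact h2 s hs hts

lemma m_up0 (b : Pt) : m (up0 b) b = b.h := by
  apply le_antisymm (m_le_right _ _)
  rw [← mem_Ag_iff]
  exact ⟨by simp [up0], le_rfl, fun _ _ => Iff.rfl⟩

lemma m_up1 (b : Pt) : m (up1 b) b = b.h := by
  apply le_antisymm (m_le_right _ _)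
  rw [← mem_Ag_iff]
  refine ⟨by simp [up1], le_rfl, fun s hs => ?_⟩
  simp only [up1, mem_insert_iff]
  constructor
  · rintro (h | h)
    · exact absurd h hs.ne
    · exact h
  · exact Or.inr

lemma m_up01 (b : Pt) : m (up0 b) (up1 b) = b.h := by
  apply le_antisymm
  · by_contra h
    push Not at h
    have h1 := (mem_iff h).mpr (by simp [up1])
    exact lt_irrefl _ (b.lt _ h1)
  · rw [← mem_Ag_iff]
    refine ⟨by simp [up0], by simp [up1], fun s hs => ?_⟩
    simp only [up0, up1, mem_insert_iff]
    constructor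
    · exact Or.inr
    · rintro (h | h)
      · exact absurd h hs.ne
      · exact h

lemma val3 : Val3 Pt := by
  intro b
  have d0 : dist (tr b (b.h - 1)) b = 1 := by
    rw [dist_def, tr_h b (by linarith), m_tr, m_self, min_eq_left (by linarith)]; ring
  have d1 : dist (up0 b) b = 1 := by
    rw [dist_def, m_up0]; simp only [up0]; ring
  have d2 : dist (up1 b) b = 1 := by
    rw [dist_def, m_up1]; simp only [up1]; ring
  have d01 : dist (tr b (b.h - 1)) (up0 b) = 2 := by
    rw [dist_def, tr_h b (by linarith), m_tr, m_comm b, m_up0, min_eq_left (by linarith)]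
    simp only [up0]; ring
  have d02 : dist (tr b (b.h - 1)) (up1 b) = 2 := by
    rw [dist_def, tr_h b (by linarith), m_tr, m_comm b, m_up1, min_eq_left (by linarith)]
    simp only [up1]; ring
  have d12 : dist (up0 b) (up1 b) = 2 := by
    rw [dist_def, m_up01]
    simp only [up0, up1]; ring
  have d0' := dist_comm b (tr b (b.h - 1))
  have d1' := dist_comm b (up0 b)
  have d2' := dist_comm b (up1 b)
  refine ⟨![tr b (b.h - 1), up0 b, up1 b], ?_, ?_, ?_⟩
  · intro i
    have key : ∀ z : Pt, dist z b = 1 → z ≠ b := by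
      rintro z h rfl
      simp at h
    fin_cases i
    · exact key _ d0
    · exact key _ d1
    · exact key _ d2
  · intro i j hij
    fin_cases i <;> fin_cases j
    · exact absurd rfl hij
    · show dist (tr b (b.h - 1)) (up0 b) = dist (tr b (b.h - 1)) b + dist b (up0 b)
      linarith
    · show dist (tr b (b.h - 1)) (up1 b) = dist (tr b (b.h - 1)) b + dist b (up1 b)
      linarith
    · show dist (up0 b) (tr b (b.h - 1)) = dist (up0 b) b + dist b (tr b (b.h - 1))
      rw [dist_comm (up0 b) (tr b _)]; linarith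
    · exact absurd rfl hij
    · show dist (up0 b) (up1 b) = dist (up0 b) b + dist b (up1 b)
      linarith
    · show dist (up1 b) (tr b (b.h - 1)) = dist (up1 b) b + dist b (tr b (b.h - 1))
      rw [dist_comm (up1 b) (tr b _)]; linarith
    · show dist (up1 b) (up0 b) = dist (up1 b) b + dist b (up0 b)
      rw [dist_comm (up1 b) (up0 b)]; linarith
    · exact absurd rfl hij
  · intro z hz
    have hzb := m_le_right z b
    have hzz := m_le_left z b
    rcases hzb.lt_or_eq with hlt | heq
    · refine ⟨0, ?_⟩
      show dist z (tr b (b.h - 1)) < dist z b + dist b (tr b (b.h - 1))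
      rw [d0', d0, dist_def, dist_def, tr_h b (by linarith), m_comm z (tr b _), m_tr, m_comm b z]
      rcases le_total (b.h - 1) (m z b) with h | h
      · rw [min_eq_left h]; linarith
      · rw [min_eq_right h]; linarith
    · have hzh : b.h < z.h := by
        rcases hzz.lt_or_eq with h | h
        · linarith
        · exact absurd (eq_of_m h heq) hz
      obtain ⟨t', ht', hgap⟩ := z.gap b.h
      by_cases hbz : b.h ∈ z.D
      · refine ⟨2, ?_⟩
        show dist z (up1 b) < dist z b + dist b (up1 b)
        rw [d2', d2, dist_def, dist_def, heq]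
        have hk : min t' (min z.h (b.h + 1)) ≤ m z (up1 b) := by
          rw [← mem_Ag_iff]
          refine ⟨(min_le_right _ _).trans (min_le_left _ _),
            (min_le_right _ _).trans (min_le_right _ _), fun s hs => ?_⟩
          have hs1 : s < t' := hs.trans_le (min_le_left _ _)
          simp only [up1, mem_insert_iff]
          rcases lt_trichotomy s b.h with h | h | h
          · rw [mem_iff (y := b) (by rw [heq]; exact h)]
            constructor
            · exact Or.inr
            · rintro (h' | h')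
              · exact absurd h' h.ne
              · exact h'
          · subst h
            simp [hbz]
          · constructor
            · intro h'
              exact absurd (hgap s h' h) (not_le.mpr hs1)
            · rintro (h' | h')
              · exact absurd h' h.ne'
              · exact absurd (b.lt s h') (not_lt.mpr h.le)
        have hk2 : b.h < min t' (min z.h (b.h + 1)) := lt_min ht' (lt_min hzh (by linarith))
        simp only [up1] at hk ⊢
        linarith
      · refine ⟨1, ?_⟩
        show dist z (up0 b) < dist z b + dist b (up0 b)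
        rw [d1', d1, dist_def, dist_def, heq]
        have hk : min t' (min z.h (b.h + 1)) ≤ m z (up0 b) := by
          rw [← mem_Ag_iff]
          refine ⟨(min_le_right _ _).trans (min_le_left _ _),
            (min_le_right _ _).trans (min_le_right _ _), fun s hs => ?_⟩
          have hs1 : s < t' := hs.trans_le (min_le_left _ _)
          simp only [up0]
          rcases lt_trichotomy s b.h with h | h | h
          · rw [mem_iff (y := b) (by rw [heq]; exact h)]
          · subst h
            constructor
            · intro h'; exact absurd h' hbz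
            · intro h'; exact absurd (b.lt _ h') (lt_irrefl _)
          · constructor
            · intro h'
              exact absurd (hgap s h' h) (not_le.mpr hs1)
            · intro h'
              exact absurd (b.lt s h') (not_lt.mpr h.le)
        have hk2 : b.h < min t' (min z.h (b.h + 1)) := lt_min ht' (lt_min hzh (by linarith))
        simp only [up0] at hk ⊢
        linarith

lemma abs_h_le (x y : Pt) : |x.h - y.h| ≤ dist x y := by
  rw [dist_def, abs_le]
  have h1 := m_le_left x y
  have h2 := m_le_right x y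
  constructor <;> linarith

instance : CompleteSpace Pt := by
  apply Metric.complete_of_cauchySeq_tendsto
  intro u hu
  have hcau : CauchySeq (fun n => (u n).h) := by
    rw [Metric.cauchySeq_iff] at hu ⊢
    intro ε hε
    obtain ⟨N, hN⟩ := hu ε hε
    refine ⟨N, fun n hn k hk => ?_⟩
    rw [Real.dist_eq]
    exact (abs_h_le _ _).trans_lt (hN n hn k hk)
  obtain ⟨H, hH⟩ := cauchySeq_tendsto_of_complete hcau
  have key : ∀ t, t < H → ∃ N, ∀ n, N ≤ n → ∀ k, N ≤ k → t ≤ m (u n) (u k) := by
    intro t ht
    have hε : 0 < (H - t) / 2 := by linarith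
    obtain ⟨N1, hN1⟩ := (Metric.cauchySeq_iff.mp hu) _ hε
    obtain ⟨N2, hN2⟩ := (Metric.tendsto_atTop.mp hH) _ hε
    refine ⟨max N1 N2, fun n hn k hk => ?_⟩
    have h1 := hN1 n (le_trans (le_max_left _ _) hn) k (le_trans (le_max_left _ _) hk)
    have h2 := hN2 n (le_trans (le_max_right _ _) hn)
    have h3 := hN2 k (le_trans (le_max_right _ _) hk)
    rw [Real.dist_eq, abs_lt] at h2 h3
    rw [dist_def] at h1
    linarith [h2.1, h3.1]
  have hD : ∀ t, t < H → ∃ N, ∀ n, N ≤ n → ∀ s, s < t →
      (s ∈ (u n).D ↔ (s < H ∧ ∀ᶠ k in atTop, s ∈ (u k).D)) := by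
    intro t ht
    obtain ⟨N, hN⟩ := key t ht
    refine ⟨N, fun n hn s hs => ⟨fun h => ⟨hs.trans ht, ?_⟩, fun h => ?_⟩⟩
    · filter_upwards [eventually_ge_atTop N] with k hk
      exact (mem_iff (hs.trans_le (hN n hn k hk))).mp h
    · obtain ⟨k, hk1, hk2⟩ := (h.2.and (eventually_ge_atTop N)).exists
      exact (mem_iff (hs.trans_le (hN n hn k hk2))).mpr hk1
  let p : Pt :=
    { h := H
      D := {s | s < H ∧ ∀ᶠ k in atTop, s ∈ (u k).D}
      lt := fun t ht => ht.1
      bdd := by
        obtain ⟨N, hN⟩ := hD (H - 1) (by linarith)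
        obtain ⟨c, hc⟩ := (u N).bdd
        refine ⟨min c (H - 1), fun s hs => ?_⟩
        by_cases h : s < H - 1
        · exact (min_le_left _ _).trans (hc s ((hN N le_rfl s h).mpr hs))
        · exact (min_le_right _ _).trans (not_lt.mp h)
      gap := fun t => by
        by_cases ht : t < H
        · obtain ⟨t2, h1, h2⟩ := exists_between ht
          obtain ⟨N, hN⟩ := hD t2 h2
          obtain ⟨t', h3, h4⟩ := (u N).gap t
          refine ⟨min t' t2, lt_min h3 h1, fun s hs hts => ?_⟩
          by_cases h : s < t2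
          · exact (min_le_left _ _).trans (h4 s ((hN N le_rfl s h).mpr hs) hts)
          · exact (min_le_right _ _).trans (not_lt.mp h)
        · exact ⟨t + 1, by linarith, fun s hs hts => absurd (hts.trans hs.1) ht⟩ }
  refine ⟨p, ?_⟩
  rw [Metric.tendsto_atTop]
  intro ε hε
  have hlt : H - ε / 4 < H := by linarith
  obtain ⟨N1, hN1⟩ := key _ hlt
  obtain ⟨N2, hN2⟩ := hD _ hlt
  obtain ⟨N3, hN3⟩ := (Metric.tendsto_atTop.mp hH) (ε / 4) (by positivity)
  refine ⟨max N1 (max N2 N3), fun n hn => ?_⟩
  have h1 : H - ε / 4 ≤ m (u n) p := by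
    rw [← mem_Ag_iff]
    refine ⟨?_, hlt.le, fun s hs => ?_⟩
    · exact (hN1 n (le_trans (le_max_left _ _) hn) n (le_trans (le_max_left _ _) hn)).trans
        (m_le_left _ _)
    · exact hN2 n (le_trans ((le_max_left _ _).trans (le_max_right _ _)) hn) s hs
  have h2 := hN3 n (le_trans ((le_max_right _ _).trans (le_max_right _ _)) hn)
  rw [Real.dist_eq, abs_lt] at h2
  rw [dist_def]
  have h3 : p.h = H := rfl
  rw [h3]
  linarith [h2.2]

end Pt

lemma ball_preconnected {X : Type} [MetricSpace X] (hg : Geod X) (x : X) (r : ℝ) :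
    IsPreconnected (Metric.ball x r) := by
  rcases le_or_gt r 0 with hr | hr
  · rw [Metric.ball_eq_empty.mpr hr]; exact isPreconnected_empty
  apply isPreconnected_of_forall x
  intro y hy
  obtain ⟨γ, g0, g1, hγ⟩ := hg x y
  have hcont : ContinuousOn γ (Icc 0 (dist x y)) := by
    rw [Metric.continuousOn_iff]
    intro s hs ε hε
    refine ⟨ε, hε, fun t ht hst => ?_⟩
    rw [hγ t ht s hs]
    exact hst
  refine ⟨γ '' Icc 0 (dist x y), ?_, ⟨0, ⟨le_rfl, dist_nonneg⟩, g0⟩,
    ⟨dist x y, ⟨dist_nonneg, le_rfl⟩, g1⟩, isPreconnected_Icc.image _ hcont⟩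
  rintro _ ⟨t, ht, rfl⟩
  rw [Metric.mem_ball, dist_comm]
  conv_lhs => rw [← g0]
  rw [hγ 0 ⟨le_rfl, dist_nonneg⟩ t ht, zero_sub, abs_neg, abs_of_nonneg ht.1]
  rw [Metric.mem_ball, dist_comm] at hy
  exact ht.2.trans_lt hy

def base : Pt := ⟨0, ∅, by simp, ⟨0, by simp⟩, fun t => ⟨t + 1, by linarith, by simp⟩⟩

instance : ConnectedSpace Pt where
  isPreconnected_univ := by
    apply isPreconnected_of_forall base
    intro y _
    refine ⟨Metric.ball base (dist y base + 1), subset_univ _, ?_, ?_, ball_preconnected Pt.geod _ _⟩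
    · apply Metric.mem_ball_self; positivity
    · rw [Metric.mem_ball]; linarith
  toNonempty := ⟨base⟩

instance : LocallyConnectedSpace Pt :=
  locallyConnectedSpace_of_connected_bases (fun x r => Metric.ball x r) (fun _ r => 0 < r)
    (fun _ => Metric.nhds_basis_ball) (fun x r _ => ball_preconnected Pt.geod x r)

/-- many branches near the base point -/
def br (r a : ℝ) (h : a < r) : Pt :=
  ⟨r, {a}, by rintro t rfl; exact h, ⟨a, by rintro t rfl; exact le_rfl⟩, fun t => by
    by_cases ht : t < a
    · exact ⟨a, ht, by rintro s rfl _; exact le_rfl⟩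
    · exact ⟨t + 1, by linarith, by rintro s rfl hs; exact absurd hs ht⟩⟩

theorem not_locallyCompact : ¬ LocallyCompactSpace Pt := by
  intro hlc
  obtain ⟨K, hK, hKn⟩ := exists_compact_mem_nhds base
  obtain ⟨r, hr, hball⟩ := Metric.mem_nhds_iff.mp hKn
  have ha : ∀ n : ℕ, r / (4 * (n + 1)) < r / 2 := by
    intro n
    rw [div_lt_div_iff₀ (by positivity) (by positivity)]
    have : (0 : ℝ) ≤ n := Nat.cast_nonneg n
    nlinarith
  have ha0 : ∀ n : ℕ, 0 < r / (4 * ((n : ℝ) + 1)) := fun n => by positivity
  have ha4 : ∀ n : ℕ, r / (4 * ((n : ℝ) + 1)) ≤ r / 4 := by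
    intro n
    rw [div_le_div_iff₀ (by positivity) (by positivity)]
    have : (0 : ℝ) ≤ n := Nat.cast_nonneg n
    nlinarith
  set p : ℕ → Pt := fun n => br (r / 2) (r / (4 * (n + 1))) (ha n) with hp
  have hpK : ∀ n, p n ∈ K := by
    intro n
    apply hball
    rw [Metric.mem_ball, Pt.dist_def]
    have h1 : (0 : ℝ) ≤ Pt.m (p n) base := by
      rw [← Pt.mem_Ag_iff]
      refine ⟨by simp only [hp, br]; positivity, by simp [base], fun s hs => ?_⟩
      have := ha0 n
      simp only [hp, br, base, mem_singleton_iff, mem_empty_iff_false, iff_false]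
      intro h; linarith
    simp only [hp, br, base] at h1 ⊢
    linarith
  have hsep : ∀ n k, n ≠ k → r / 2 ≤ dist (p n) (p k) := by
    intro n k hnk
    have h1 : Pt.m (p n) (p k) ≤ r / 4 := by
      by_contra h
      push Not at h
      have h2 : r / (4 * ((n : ℝ) + 1)) < Pt.m (p n) (p k) := (ha4 n).trans_lt h
      have h3 := (Pt.mem_iff h2).mp (by simp [hp, br])
      simp only [hp, br, mem_singleton_iff] at h3
      apply hnk
      have h4 : (4 * ((n : ℝ) + 1)) = 4 * ((k : ℝ) + 1) := by
        rw [div_eq_div_iff (by positivity) (by positivity)] at h3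
        have := mul_left_cancel₀ hr.ne' h3
        linarith
      have h5 : (n : ℝ) = k := by linarith
      exact_mod_cast h5
    rw [Pt.dist_def]
    simp only [hp, br] at h1 ⊢
    linarith
  obtain ⟨a, -, φ, hφ, hlim⟩ := hK.tendsto_subseq hpK
  have hc := hlim.cauchySeq
  obtain ⟨N, hN⟩ := (Metric.cauchySeq_iff.mp hc) (r / 2) (by positivity)
  have h1 := hN N le_rfl (N + 1) (Nat.le_succ N)
  have h2 := hsep (φ N) (φ (N + 1)) (hφ (Nat.lt_succ_self N)).ne
  simp only [Function.comp] at h1
  linarith

end Pool.Agent.X197.AbsTree
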