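import Mathlib

namespace Pool.Agent.X197.Warp

open Filter Topology Set

/-! ### One variable: derivatives bounded by powers -/

section OneVar

variable {g : ℕ → ℝ → ℂ} {c : ℝ}

lemma taylor_bound (hc : 0 ≤ c) (hder : ∀ n t, HasDerivAt (g n) (g (n + 1) t) t)
    (hb : ∀ n t, ‖g n t‖ ≤ c ^ n) (n : ℕ) :
    ∀ m : ℕ, ∀ t : ℝ, 0 ≤ t →
      ‖g m t - ∑ k ∈ Finset.range n, g (m + k) 0 * (t : ℂ) ^ k / (k.factorial : ℂ)‖
        ≤ c ^ (m + n) * t ^ n / n.factorial := by
  induction n with
  | zero =>
    intro m t _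
    simpa using hb m t
  | succ n ih =>
    intro m t ht
    set D : ℝ → ℂ := fun s => g m s - ∑ k ∈ Finset.range (n + 1), g (m + k) 0 * (s : ℂ) ^ k / (k.factorial : ℂ) with hD
    set D' : ℝ → ℂ := fun s => g (m + 1) s - ∑ k ∈ Finset.range n, g (m + 1 + k) 0 * (s : ℂ) ^ k / (k.factorial : ℂ) with hD'
    have hDd : ∀ s, HasDerivAt D (D' s) s := by
      intro s
      refine (hder m s).sub ?_
      have h1 : HasDerivAt (fun s : ℝ => ∑ k ∈ Finset.range (n + 1), g (m + k) 0 * (s : ℂ) ^ k / (k.factorial : ℂ))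
          (∑ k ∈ Finset.range (n + 1), g (m + k) 0 * ((k : ℂ) * (s : ℂ) ^ (k - 1)) / (k.factorial : ℂ)) s := by
        apply HasDerivAt.fun_sum
        intro k _
        apply HasDerivAt.div_const
        apply HasDerivAt.const_mul
        have h2 := (Complex.ofRealCLM.hasDerivAt (x := s)).fun_pow k
        simpa using h2
      refine h1.congr_deriv ?_
      rw [Finset.sum_range_succ']
      simp only [Nat.cast_zero, zero_mul, mul_zero, zero_div, add_zero, Nat.add_sub_cancel]
      apply Finset.sum_congr rfl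
      intro k _
      have hk : ((k.factorial : ℕ) : ℂ) ≠ 0 := Nat.cast_ne_zero.mpr (Nat.factorial_ne_zero k)
      have hk1 : ((k : ℂ) + 1) ≠ 0 := Nat.cast_add_one_ne_zero k
      rw [Nat.factorial_succ, show m + (k + 1) = m + 1 + k by ring]
      push_cast
      field_simp
    have hbnd : ∀ s ∈ Ico 0 t, ‖D' s‖ ≤ c ^ (m + (n + 1)) * s ^ n / n.factorial := by
      intro s hs
      have := ih (m + 1) s hs.1
      rw [show m + 1 + n = m + (n + 1) by ring] at this
      exact this
    have hB : ∀ s : ℝ, HasDerivAt (fun s : ℝ => c ^ (m + (n + 1)) * s ^ (n + 1) / (n + 1).factorial)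
        (c ^ (m + (n + 1)) * s ^ n / n.factorial) s := by
      intro s
      have h1 := ((hasDerivAt_pow (n + 1) s).const_mul (c ^ (m + (n + 1)))).div_const ((n + 1).factorial : ℝ)
      refine h1.congr_deriv ?_
      rw [Nat.factorial_succ]
      have hk : ((n.factorial : ℕ) : ℝ) ≠ 0 := Nat.cast_ne_zero.mpr (Nat.factorial_ne_zero n)
      push_cast
      field_simp
    have hD0 : D 0 = 0 := by
      simp only [hD]
      rw [Finset.sum_range_succ']
      simp
    have := image_norm_le_of_norm_deriv_right_le_deriv_boundary (f := D) (f' := D') (a := 0) (b := t)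
      (fun s _ => (hDd s).continuousAt.continuousWithinAt)
      (fun s _ => (hDd s).hasDerivWithinAt)
      (B := fun s : ℝ => c ^ (m + (n + 1)) * s ^ (n + 1) / (n + 1).factorial)
      (B' := fun s : ℝ => c ^ (m + (n + 1)) * s ^ n / n.factorial)
      (by rw [hD0]; simp) hB hbnd (right_mem_Icc.mpr ht)
    exact this

lemma exists_entire (hc : 0 ≤ c) (hder : ∀ n t, HasDerivAt (g n) (g (n + 1) t) t)
    (hb : ∀ n t, ‖g n t‖ ≤ c ^ n) : ∃ G : ℂ → ℂ, Differentiable ℂ G ∧
      (∀ z, ‖G z‖ ≤ Real.exp (c * ‖z‖)) ∧ ∀ t : ℝ, 0 ≤ t → G t = g 0 t := by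
  set F : ℕ → ℂ → ℂ := fun n z => g n 0 * z ^ n / (n.factorial : ℂ) with hF
  have hFle : ∀ n z, ‖F n z‖ ≤ (c * ‖z‖) ^ n / n.factorial := by
    intro n z
    simp only [hF]
    rw [norm_div, norm_mul, norm_pow, Complex.norm_natCast, mul_pow]
    apply div_le_div_of_nonneg_right _ (by positivity)
    exact mul_le_mul_of_nonneg_right (hb n 0) (by positivity)
  have hsum : ∀ R : ℝ, Summable (fun n : ℕ => R ^ n / (n.factorial : ℝ)) :=
    fun R => Real.summable_pow_div_factorial R
  refine ⟨fun z => ∑' n, F n z, ?_, ?_, ?_⟩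
  · intro z
    have h1 : DifferentiableOn ℂ (fun w => ∑' n, F n w) (Metric.ball 0 (‖z‖ + 1)) := by
      refine Complex.differentiableOn_tsum_of_summable_norm
        (u := fun n => (c * (‖z‖ + 1)) ^ n / (n.factorial : ℝ)) (hsum _) ?_ Metric.isOpen_ball ?_
      · intro n
        simp only [hF]
        fun_prop
      · intro n w hw
        rw [mem_ball_zero_iff] at hw
        refine (hFle n w).trans ?_
        apply div_le_div_of_nonneg_right _ (by positivity)
        exact pow_le_pow_left₀ (by positivity) (mul_le_mul_of_nonneg_left hw.le hc) n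
    exact h1.differentiableAt (Metric.isOpen_ball.mem_nhds (by
      rw [mem_ball_zero_iff]; linarith))
  · intro z
    have h1 : HasSum (fun n : ℕ => (c * ‖z‖) ^ n / (n.factorial : ℝ)) (Real.exp (c * ‖z‖)) := by
      rw [Real.exp_eq_exp_ℝ]
      exact NormedSpace.expSeries_div_hasSum_exp (c * ‖z‖)
    exact tsum_of_norm_bounded h1 (fun n => hFle n z)
  · intro t ht
    have hs : Summable (fun n => F n (t : ℂ)) :=
      Summable.of_norm_bounded (hsum (c * ‖(t : ℂ)‖)) (fun n => hFle n t)
    have h1 := hs.hasSum.tendsto_sum_nat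
    have h2 : Tendsto (fun n => ∑ k ∈ Finset.range n, F k (t : ℂ)) atTop (𝓝 (g 0 t)) := by
      rw [tendsto_iff_norm_sub_tendsto_zero]
      have h3 : Tendsto (fun n : ℕ => c ^ n * t ^ n / n.factorial) atTop (𝓝 0) := by
        have := (hsum (c * t)).tendsto_atTop_zero
        refine this.congr (fun n => ?_)
        rw [mul_pow]
      refine squeeze_zero (fun _ => norm_nonneg _) (fun n => ?_) h3
      have h4 := taylor_bound hc hder hb n 0 t ht
      simp only [zero_add] at h4
      rw [norm_sub_rev]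
      exact h4
    exact tendsto_nhds_unique h1 h2

end OneVar

/-- a zero-free entire function of exponential type is an exponential -/
lemma exp_type {G H : ℂ → ℂ} (hG : Differentiable ℂ G) (hGH : ∀ z, G z * H z = 1) {c : ℝ}
    (hc : 0 ≤ c) (hb : ∀ z, ‖G z‖ ≤ Real.exp (c * ‖z‖)) :
    ∃ a b : ℂ, ∀ z, G z = Complex.exp (a * z + b) := by
  have hne : ∀ z, G z ≠ 0 := fun z h => by
    have := hGH z
    rw [h, zero_mul] at this
    exact zero_ne_one this
  have hq : Differentiable ℂ (fun z => deriv G z / G z) := by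
    have h1 : Differentiable ℂ (deriv G) := by
      intro z
      exact (hG.analyticAt z).deriv.differentiableAt
    exact h1.div hG hne
  obtain ⟨h0, hh0⟩ := hq.isExactOn_univ
  have hh0' : ∀ z, HasDerivAt h0 (deriv G z / G z) z := fun z => hh0 z (mem_univ z)
  set h : ℂ → ℂ := fun z => h0 z - h0 0 + Complex.log (G 0) with hh
  have hhd : ∀ z, HasDerivAt h (deriv G z / G z) z := fun z =>
    ((hh0' z).sub_const _).add_const _
  have hdiff : Differentiable ℂ h := fun z => (hhd z).differentiableAt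
  have hexp : ∀ z, Complex.exp (h z) = G z := by
    have hk : ∀ z, HasDerivAt (fun z => Complex.exp (-h z) * G z) 0 z := by
      intro z
      have h1 := (hhd z).neg.cexp.mul (hG z).hasDerivAt
      refine h1.congr_deriv ?_
      have := hne z
      simp only [Pi.neg_apply]
      field_simp
      ring
    have hconst : ∀ z, Complex.exp (-h z) * G z = Complex.exp (-h 0) * G 0 := by
      intro z
      exact is_const_of_deriv_eq_zero (fun z => (hk z).differentiableAt) (fun z => (hk z).deriv) z 0
    intro z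
    have h1 := hconst z
    have h2 : h 0 = Complex.log (G 0) := by simp [hh]
    rw [h2, Complex.exp_neg (h z), Complex.exp_neg (Complex.log (G 0)), Complex.exp_log (hne 0),
      inv_mul_cancel₀ (hne 0)] at h1
    have h3 := Complex.exp_ne_zero (h z)
    rw [inv_mul_eq_one₀ h3] at h1
    exact h1
  have hre : ∀ z, (h z).re ≤ c * ‖z‖ := by
    intro z
    have h1 := hb z
    rw [← hexp z, Complex.norm_exp] at h1
    exact Real.exp_le_exp.mp h1
  -- growth of h
  have hgrow : ∀ z, ‖h z‖ ≤ (4 * c + 3 * ‖h 0‖ + 2) * (‖z‖ + 1) := by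
    intro z
    set R := 2 * ‖z‖ + 1 with hR
    have hRpos : 0 < R := by positivity
    have h1 := Complex.borelCaratheodory (M := c * R + 1) (f := h) (z := z) (R := R)
      (by positivity) hdiff.differentiableOn (by
        intro w hw
        rw [mem_ball_zero_iff] at hw
        show (h w).re ≤ c * R + 1
        have := hre w
        have := mul_le_mul_of_nonneg_left hw.le hc
        linarith) hRpos (by rw [mem_ball_zero_iff]; linarith [norm_nonneg z])
    have hden : R - ‖z‖ = ‖z‖ + 1 := by rw [hR]; ring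
    rw [hden] at h1
    have hz0 := norm_nonneg z
    have hh00 := norm_nonneg (h 0)
    have h2 : 2 * (c * R + 1) * ‖z‖ / (‖z‖ + 1) ≤ 2 * (c * R + 1) := by
      rw [div_le_iff₀ (by positivity)]
      have : 0 ≤ 2 * (c * R + 1) := by positivity
      nlinarith
    have h3 : ‖h 0‖ * (R + ‖z‖) / (‖z‖ + 1) ≤ 3 * ‖h 0‖ := by
      rw [div_le_iff₀ (by positivity), hR]
      nlinarith
    refine h1.trans ((add_le_add h2 h3).trans ?_)
    rw [hR]
    nlinarith [mul_nonneg hc hz0, mul_nonneg hh00 hz0]
  set K := 4 * c + 3 * ‖h 0‖ + 2 with hK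
  have hK0 : 0 ≤ K := by positivity
  have hderivbd : ∀ z, ‖deriv h z‖ ≤ K := by
    intro z
    have key : ∀ R : ℝ, 0 < R → ‖deriv h z‖ ≤ K * (‖z‖ + 1) / R + K := by
      intro R hR
      have h1 := Complex.norm_deriv_le_of_forall_mem_sphere_norm_le (c := z) (f := h)
        (C := K * (‖z‖ + R + 1)) hR hdiff.diffContOnCl (by
          intro w hw
          refine (hgrow w).trans ?_
          apply mul_le_mul_of_nonneg_left _ hK0
          rw [mem_sphere_iff_norm] at hw
          have := norm_add_le (w - z) z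
          rw [sub_add_cancel, hw] at this
          linarith)
      refine h1.trans (le_of_eq ?_)
      field_simp
      ring
    have hlim : Tendsto (fun R : ℝ => K * (‖z‖ + 1) / R + K) atTop (𝓝 (0 + K)) :=
      (tendsto_const_nhds.div_atTop tendsto_id).add_const K
    rw [zero_add] at hlim
    exact ge_of_tendsto hlim (by
      filter_upwards [eventually_gt_atTop 0] with R hR using key R hR)
  have hderivconst : ∀ z w, deriv h z = deriv h w := by
    have h1 : Differentiable ℂ (deriv h) := fun z => (hdiff.analyticAt z).deriv.differentiableAt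
    intro z w
    apply h1.apply_eq_apply_of_bounded
    rw [isBounded_iff_forall_norm_le]
    exact ⟨K, by rintro _ ⟨y, rfl⟩; exact hderivbd y⟩
  refine ⟨deriv h 0, h 0, fun z => ?_⟩
  rw [← hexp z]
  congr 1
  have h1 : ∀ z, HasDerivAt (fun z => h z - deriv h 0 * z) 0 z := by
    intro z
    have h2 := (hdiff z).hasDerivAt.sub ((hasDerivAt_id z).const_mul (deriv h 0))
    refine h2.congr_deriv ?_
    rw [hderivconst z 0]; ring
  have h3 := is_const_of_deriv_eq_zero (fun z => (h1 z).differentiableAt) (fun z => (h1 z).deriv) z 0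
  simp only [mul_zero, sub_zero] at h3
  linear_combination h3

/-- the phase is affine on the half line -/
theorem phase_affine {p : ℝ → ℝ} (hp : Continuous p) {c : ℝ} (hc : 0 ≤ c) {g g' : ℕ → ℝ → ℂ}
    (hder : ∀ n t, HasDerivAt (g n) (g (n + 1) t) t) (hb : ∀ n t, ‖g n t‖ ≤ c ^ n)
    (hder' : ∀ n t, HasDerivAt (g' n) (g' (n + 1) t) t) (hb' : ∀ n t, ‖g' n t‖ ≤ c ^ n)
    (hg : ∀ t, g 0 t = Complex.exp (2 * Real.pi * p t * Complex.I))
    (hg' : ∀ t, g' 0 t = Complex.exp (-(2 * Real.pi * p t * Complex.I))) :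
    p 0 + p 2 = 2 * p 1 := by
  obtain ⟨G, hG, hGb, hGt⟩ := exists_entire hc hder hb
  obtain ⟨H, hH, hHb, hHt⟩ := exists_entire hc hder' hb'
  have hGH : ∀ z, G z * H z = 1 := by
    have h1 : AnalyticOnNhd ℂ (fun z => G z * H z) univ := fun z _ => (hG.mul hH).analyticAt z
    have h2 : AnalyticOnNhd ℂ (fun _ : ℂ => (1 : ℂ)) univ := fun z _ => analyticAt_const
    have h3 : ∃ᶠ z in 𝓝[≠] (1 : ℂ), G z * H z = 1 := by
      have h4 : Tendsto (fun n : ℕ => ((1 + 1 / ((n : ℝ) + 1) : ℝ) : ℂ)) atTop (𝓝[≠] (1 : ℂ)) := by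
        apply tendsto_nhdsWithin_iff.mpr
        constructor
        · have h5 : Tendsto (fun n : ℕ => (1 + 1 / ((n : ℝ) + 1) : ℝ)) atTop (𝓝 (1 + 0)) :=
            tendsto_const_nhds.add tendsto_one_div_add_atTop_nhds_zero_nat
          rw [add_zero] at h5
          have h6 := (Complex.continuous_ofReal.tendsto 1).comp h5
          rw [Complex.ofReal_one] at h6
          exact h6
        · filter_upwards with n
          rw [mem_compl_iff, mem_singleton_iff, ← Complex.ofReal_one, Complex.ofReal_inj]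
          have : 0 < 1 / ((n : ℝ) + 1) := by positivity
          linarith
      refine h4.frequently (Frequently.of_forall fun n => ?_)
      have hn : (0 : ℝ) ≤ 1 + 1 / ((n : ℝ) + 1) := by positivity
      rw [hGt _ hn, hHt _ hn, hg, hg', ← Complex.exp_add, add_neg_cancel, Complex.exp_zero]
    intro z
    exact h1.eqOn_of_preconnected_of_frequently_eq h2 isPreconnected_univ (mem_univ (1 : ℂ)) h3
      (mem_univ z)
  obtain ⟨a, b, hab⟩ := exp_type hG hGH hc hGb
  -- compare phases
  have hph : ∀ t : ℝ, 0 ≤ t → ∃ n : ℤ, p t = (a * t + b).im / (2 * Real.pi) + n := by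
    intro t ht
    have h1 := hGt t ht
    rw [hab, hg, Complex.exp_eq_exp_iff_exists_int] at h1
    obtain ⟨n, hn⟩ := h1
    have h2 := congrArg Complex.im hn
    have e1 : (2 * (Real.pi : ℂ) * (p t : ℂ) * Complex.I).im = 2 * Real.pi * p t := by
      have : (2 * (Real.pi : ℂ) * (p t : ℂ) * Complex.I) = ((2 * Real.pi * p t : ℝ) : ℂ) * Complex.I := by
        push_cast; ring
      rw [this, Complex.im_ofReal_mul]
      simp
    have e2 : ((n : ℂ) * (2 * (Real.pi : ℂ) * Complex.I)).im = 2 * Real.pi * n := by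
      have : ((n : ℂ) * (2 * (Real.pi : ℂ) * Complex.I)) = ((2 * Real.pi * n : ℝ) : ℂ) * Complex.I := by
        push_cast; ring
      rw [this, Complex.im_ofReal_mul]
      simp
    rw [Complex.add_im (2 * (Real.pi : ℂ) * (p t : ℂ) * Complex.I), e1, e2] at h2
    refine ⟨-n, ?_⟩
    have hpi := Real.pi_pos
    push_cast
    field_simp
    linarith
  set q : ℝ → ℝ := fun t => p t - (a * t + b).im / (2 * Real.pi) with hq
  have hqc : Continuous q := by
    refine hp.sub (Continuous.div_const ?_ _)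
    exact Complex.continuous_im.comp ((continuous_const.mul Complex.continuous_ofReal).add
      continuous_const)
  have hqint : ∀ t ∈ Ici (0 : ℝ), q t ∈ range (fun n : ℤ => (n : ℝ)) := by
    intro t ht
    obtain ⟨n, hn⟩ := hph t ht
    exact ⟨n, by simp only [hq]; rw [hn]; ring⟩
  have hqconst : ∀ t ∈ Ici (0 : ℝ), q t = q 0 := by
    intro t ht
    have hpre : IsPreconnected (q '' Ici 0) := isPreconnected_Ici.image q hqc.continuousOn
    by_contra hne
    have h1 := hpre.ordConnected
    have h0m : q 0 ∈ q '' Ici 0 := ⟨0, mem_Ici.mpr le_rfl, rfl⟩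
    have htm : q t ∈ q '' Ici 0 := ⟨t, ht, rfl⟩
    obtain ⟨n0, hn0⟩ := hqint 0 (mem_Ici.mpr le_rfl)
    obtain ⟨n1, hn1⟩ := hqint t ht
    simp only at hn0 hn1
    have key : ∀ n m : ℤ, n < m → (n : ℝ) ∈ q '' Ici 0 → (m : ℝ) ∈ q '' Ici 0 → False := by
      intro n m hnm hn hm
      have h2 : ((n : ℝ) + 1 / 2) ∈ q '' Ici 0 := h1.out hn hm ⟨by linarith, by
        have : (n : ℝ) + 1 ≤ m := by exact_mod_cast hnm
        linarith⟩
      obtain ⟨s, hs, hs2⟩ := h2
      obtain ⟨k, hk⟩ := hqint s hs
      simp only at hk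
      rw [hs2] at hk
      have h3 : (2 * k : ℝ) = 2 * n + 1 := by linarith
      have h4 : 2 * k = 2 * n + 1 := by exact_mod_cast h3
      omega
    rw [← hn0] at h0m hne
    rw [← hn1] at htm hne
    rcases lt_trichotomy n0 n1 with h | h | h
    · exact key n0 n1 h h0m htm
    · exact hne (by rw [h])
    · exact key n1 n0 h htm h0m
  have k1 := hqconst 1 (mem_Ici.mpr zero_le_one)
  have k2 := hqconst 2 (mem_Ici.mpr zero_le_two)
  simp only [hq] at k1 k2
  have e1 : (a * ((1 : ℝ) : ℂ) + b).im = a.im + b.im := by simp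
  have e2 : (a * ((2 : ℝ) : ℂ) + b).im = 2 * a.im + b.im := by
    rw [Complex.add_im, Complex.im_mul_ofReal]; ring
  have e0 : (a * ((0 : ℝ) : ℂ) + b).im = b.im := by simp
  rw [e1, e0] at k1
  rw [e2, e0] at k2
  have hpi := Real.pi_pos
  have k1' : p 1 = p 0 + a.im / (2 * Real.pi) := by
    have : (a.im + b.im) / (2 * Real.pi) = a.im / (2 * Real.pi) + b.im / (2 * Real.pi) := by ring
    rw [this] at k1
    linarith
  have k2' : p 2 = p 0 + 2 * (a.im / (2 * Real.pi)) := by
    have : (2 * a.im + b.im) / (2 * Real.pi) = 2 * (a.im / (2 * Real.pi)) + b.im / (2 * Real.pi) := by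
      ring
    rw [this] at k2
    linarith
  rw [k1', k2']; ring

end Pool.Agent.X197.Warp
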