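import Mathlib
import Pool.Agent.X197.WarpA

namespace Pool.Agent.X197.Warp

open Filter Topology Set MeasureTheory SchwartzMap LineDeriv
open scoped SchwartzMap

variable {V : Type} [NormedAddCommGroup V] [InnerProductSpace ℝ V] [FiniteDimensional ℝ V]
  [MeasurableSpace V] [BorelSpace V]

/-- convolution of a bounded continuous function with a Schwartz function -/
noncomputable def T (ρ : 𝓢(V, ℂ)) (f : V → ℂ) (x : V) : ℂ := ∫ w, f (x - w) * ρ w

lemma schwartz_int (ρ : 𝓢(V, ℂ)) : Integrable (fun w => ρ w) := ρ.integrable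

lemma T_int (ρ : 𝓢(V, ℂ)) {f : V → ℂ} (hf : Continuous f) {M : ℝ} (hM : ∀ x, ‖f x‖ ≤ M) (x : V) :
    Integrable (fun w => f (x - w) * ρ w) := by
  refine Integrable.bdd_mul (c := M) (schwartz_int ρ)
    (hf.comp (continuous_const.sub continuous_id)).aestronglyMeasurable
    (Eventually.of_forall fun w => hM _)

lemma T_bound (ρ : 𝓢(V, ℂ)) {f : V → ℂ} {M : ℝ} (hM : ∀ x, ‖f x‖ ≤ M) (x : V) :
    ‖T ρ f x‖ ≤ M * ∫ w, ‖ρ w‖ := by
  unfold T
  rw [← integral_const_mul]
  refine norm_integral_le_of_norm_le ((schwartz_int ρ).norm.const_mul M)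
    (Eventually.of_forall fun w => ?_)
  rw [norm_mul]
  exact mul_le_mul_of_nonneg_right (hM _) (norm_nonneg _)

lemma T_cont (ρ : 𝓢(V, ℂ)) {f : V → ℂ} (hf : Continuous f) {M : ℝ} (hM : ∀ x, ‖f x‖ ≤ M) :
    Continuous (T ρ f) := by
  unfold T
  refine continuous_of_dominated (bound := fun w => M * ‖ρ w‖) ?_ ?_
    ((schwartz_int ρ).norm.const_mul M) ?_
  · intro x
    exact (T_int ρ hf hM x).aestronglyMeasurable
  · intro x
    refine Eventually.of_forall fun w => ?_
    rw [norm_mul]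
    exact mul_le_mul_of_nonneg_right (hM _) (norm_nonneg _)
  · refine Eventually.of_forall fun w => ?_
    exact (hf.comp (continuous_id.sub continuous_const)).mul continuous_const

lemma T_comm (ρ σ : 𝓢(V, ℂ)) {f : V → ℂ} (hf : Continuous f) {M : ℝ} (hM : ∀ x, ‖f x‖ ≤ M)
    (x : V) : T ρ (T σ f) x = T σ (T ρ f) x := by
  unfold T
  have h1 : ∀ (ρ σ : 𝓢(V, ℂ)), ∫ w, (∫ w', f (x - w - w') * σ w') * ρ w
      = ∫ w, ∫ w', f (x - w - w') * σ w' * ρ w := by
    intro ρ σ
    congr 1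
    funext w
    rw [integral_mul_const]
  rw [h1, h1]
  have hint : Integrable (fun p : V × V => f (x - p.1 - p.2) * σ p.2 * ρ p.1) (volume.prod volume) := by
    have h2 : Integrable (fun p : V × V => ρ p.1 * σ p.2) (volume.prod volume) :=
      (schwartz_int ρ).mul_prod (schwartz_int σ)
    have h3 := Integrable.bdd_mul (c := M) (f := fun p : V × V => f (x - p.1 - p.2)) h2
      (hf.comp ((continuous_const.sub continuous_fst).sub continuous_snd)).aestronglyMeasurable
      (Eventually.of_forall fun p => hM _)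
    refine h3.congr (Eventually.of_forall fun p => ?_)
    beta_reduce
    ring
  rw [integral_integral_swap hint]
  congr 1
  funext w
  congr 1
  funext w'
  rw [sub_right_comm]; ring

lemma T_eq (ρ : 𝓢(V, ℂ)) (f : V → ℂ) (x : V) : T ρ f x = ∫ y, f y * ρ (x - y) := by
  unfold T
  have := integral_sub_left_eq_self (fun w => f w * ρ (x - w)) volume x
  rw [← this]
  congr 1
  funext w
  rw [sub_sub_cancel]

lemma decay (ρ : 𝓢(V, ℂ)) (k : ℕ) : ∃ C : ℝ, 0 ≤ C ∧ ∀ w, (1 + ‖w‖) ^ k * ‖ρ w‖ ≤ C := by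
  have h := SchwartzMap.one_add_le_sup_seminorm_apply (𝕜 := ℝ) (m := (k, 0)) (k := k) (n := 0)
    le_rfl le_rfl ρ
  refine ⟨_, ?_, fun w => by simpa using h w⟩
  have := h 0
  exact le_trans (by positivity) this

lemma T_deriv (θ : 𝓢(V, ℂ)) {f : V → ℂ} (hf : Continuous f) {M : ℝ} (hM : ∀ x, ‖f x‖ ≤ M)
    (x v : V) (t : ℝ) :
    HasDerivAt (fun s : ℝ => T θ f (x + s • v)) (T (∂_{v} θ) f (x + t • v)) t := by
  set ρ : 𝓢(V, ℂ) := ∂_{v} θ with hρ
  simp_rw [T_eq]
  set k := Module.finrank ℝ V + 1 with hk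
  obtain ⟨C, hC0, hC⟩ := decay ρ k
  have hM0 : 0 ≤ M := (norm_nonneg _).trans (hM 0)
  have hbase : Integrable (fun w : V => (1 + ‖w‖) ^ (-((k : ℕ) : ℝ))) :=
    integrable_one_add_norm (by rw [hk]; push_cast; linarith)
  have hbase2 : Integrable (fun y : V => (1 + ‖x + t • v - y‖) ^ (-((k : ℕ) : ℝ))) :=
    hbase.comp_sub_left (x + t • v)
  have key := hasDerivAt_integral_of_dominated_loc_of_deriv_le (μ := (volume : Measure V))
    (F := fun (s : ℝ) (y : V) => f y * θ (x + s • v - y))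
    (F' := fun (s : ℝ) (y : V) => f y * ρ (x + s • v - y)) (x₀ := t)
    (bound := fun y => M * (C * (1 + ‖v‖) ^ k) * (1 + ‖x + t • v - y‖) ^ (-((k : ℕ) : ℝ)))
    (s := Metric.ball t 1) (Metric.ball_mem_nhds t one_pos)
    (Eventually.of_forall fun s => (hf.mul (θ.continuous.comp
      (continuous_const.sub continuous_id))).aestronglyMeasurable)
    (by
      have h1 := T_int θ hf hM (x + t • v)
      have h2 := h1.comp_sub_left (x + t • v)
      refine h2.congr (Eventually.of_forall fun y => ?_)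
      beta_reduce
      rw [sub_sub_cancel])
    ((hf.mul (ρ.continuous.comp (continuous_const.sub continuous_id))).aestronglyMeasurable)
    (Eventually.of_forall fun y s hs => by
      rw [Metric.mem_ball, Real.dist_eq] at hs
      rw [norm_mul]
      have h1 := hC (x + s • v - y)
      have h2 : 1 + ‖x + t • v - y‖ ≤ (1 + ‖v‖) * (1 + ‖x + s • v - y‖) := by
        have h3 : x + t • v - y = (x + s • v - y) + (t - s) • v := by
          rw [sub_smul]; abel
        have h4 : ‖x + t • v - y‖ ≤ ‖x + s • v - y‖ + ‖v‖ := by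
          rw [h3]
          refine (norm_add_le _ _).trans ?_
          rw [norm_smul, Real.norm_eq_abs, abs_sub_comm]
          nlinarith [norm_nonneg v]
        nlinarith [norm_nonneg v, norm_nonneg (x + s • v - y)]
      have h5 : (1 + ‖x + t • v - y‖) ^ k ≤ (1 + ‖v‖) ^ k * (1 + ‖x + s • v - y‖) ^ k := by
        rw [← mul_pow]
        exact pow_le_pow_left₀ (by positivity) h2 k
      have h6 : ‖ρ (x + s • v - y)‖ ≤ C * (1 + ‖v‖) ^ k * (1 + ‖x + t • v - y‖) ^ (-((k : ℕ) : ℝ)) := by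
        rw [Real.rpow_neg (by positivity), Real.rpow_natCast, ← div_eq_mul_inv,
          le_div_iff₀ (by positivity)]
        calc ‖ρ (x + s • v - y)‖ * (1 + ‖x + t • v - y‖) ^ k
            ≤ ‖ρ (x + s • v - y)‖ * ((1 + ‖v‖) ^ k * (1 + ‖x + s • v - y‖) ^ k) :=
              mul_le_mul_of_nonneg_left h5 (norm_nonneg _)
          _ = ((1 + ‖x + s • v - y‖) ^ k * ‖ρ (x + s • v - y)‖) * (1 + ‖v‖) ^ k := by ring
          _ ≤ C * (1 + ‖v‖) ^ k := mul_le_mul_of_nonneg_right h1 (by positivity)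
      calc ‖f y‖ * ‖ρ (x + s • v - y)‖ ≤ M * (C * (1 + ‖v‖) ^ k * (1 + ‖x + t • v - y‖) ^ (-((k : ℕ) : ℝ))) :=
            mul_le_mul (hM y) h6 (norm_nonneg _) hM0
        _ = _ := by ring)
    (hbase2.const_mul _)
    (Eventually.of_forall fun y s _ => by
      have h1 : HasFDerivAt θ (fderiv ℝ θ (x + s • v - y)) (x + s • v - y) :=
        θ.differentiableAt.hasFDerivAt
      have h2 : HasDerivAt (fun s : ℝ => x + s • v - y) v s := by
        have := (((hasDerivAt_id s).smul_const v).const_add x).sub_const y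
        simpa using this
      have h3 := (h1.comp_hasDerivAt s h2).const_mul (f y)
      refine h3.congr_deriv ?_
      rw [hρ, lineDerivOp_apply_eq_fderiv])
  exact key.2

theorem exists_family (θ : 𝓢(V, ℂ)) {u : V → ℂ} (hu : Continuous u) (hu1 : ∀ x, ‖u x‖ ≤ 1)
    (hT : ∀ x, T θ u x = u x) (x v : V) : ∃ (g : ℕ → ℝ → ℂ),
      (∀ t, g 0 t = u (x + t • v)) ∧ (∀ n t, HasDerivAt (g n) (g (n + 1) t) t) ∧
      ∀ n t, ‖g n t‖ ≤ (∫ w, ‖(∂_{v} θ : 𝓢(V, ℂ)) w‖) ^ n := by
  set ρ : 𝓢(V, ℂ) := ∂_{v} θ with hρ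
  set c := ∫ w, ‖ρ w‖ with hc
  have hc0 : 0 ≤ c := integral_nonneg fun w => norm_nonneg _
  have key : ∀ n, Continuous ((T ρ)^[n] u) ∧ (∀ x, ‖(T ρ)^[n] u x‖ ≤ c ^ n) ∧
      ∀ x, T θ ((T ρ)^[n] u) x = (T ρ)^[n] u x := by
    intro n
    induction n with
    | zero => exact ⟨hu, by simpa using hu1, hT⟩
    | succ n ih =>
      obtain ⟨h1, h2, h3⟩ := ih
      rw [Function.iterate_succ_apply']
      refine ⟨T_cont ρ h1 h2, fun x => ?_, fun x => ?_⟩
      · rw [pow_succ]; exact T_bound ρ h2 x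
      · rw [T_comm θ ρ h1 h2 x]
        congr 1
        funext y
        exact h3 y
  refine ⟨fun n t => (T ρ)^[n] u (x + t • v), fun t => rfl, fun n t => ?_, fun n t => (key n).2.1 _⟩
  have h1 := T_deriv θ (key n).1 (key n).2.1 x v t
  have e : (fun s : ℝ => T θ ((T ρ)^[n] u) (x + s • v)) = fun s : ℝ => (T ρ)^[n] u (x + s • v) := by
    funext s
    exact (key n).2.2 _
  rw [e] at h1
  beta_reduce
  rw [Function.iterate_succ_apply']
  exact h1

end Pool.Agent.X197.Warp
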