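import Mathlib
import Pool.Agent.X197.WarpB

namespace Pool.Agent.X197.Warp

open Filter Topology Set MeasureTheory SchwartzMap LineDeriv
open scoped SchwartzMap FourierTransform ContDiff RealInnerProductSpace

variable {V : Type} [NormedAddCommGroup V] [InnerProductSpace ℝ V] [FiniteDimensional ℝ V]
  [MeasurableSpace V] [BorelSpace V]

/-- the product of two Schwartz functions, as a Schwartz function -/
noncomputable def mulS (χ ψ : 𝓢(V, ℂ)) : 𝓢(V, ℂ) := SchwartzMap.smulLeftCLM ℂ (χ : V → ℂ) ψ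

lemma mulS_apply (χ ψ : 𝓢(V, ℂ)) (x : V) : mulS χ ψ x = χ x * ψ x := by
  rw [mulS, SchwartzMap.smulLeftCLM_apply_apply χ.hasTemperateGrowth, smul_eq_mul]

lemma fourier_mulS (χ ψ : 𝓢(V, ℂ)) (y : V) :
    (𝓕 (mulS χ (𝓕⁻ ψ)) : 𝓢(V, ℂ)) y = ∫ x, ψ x * (𝓕⁻ χ : 𝓢(V, ℂ)) (x - y) := by
  rw [SchwartzMap.fourier_coe, Real.fourier_eq']
  have h1 : ∀ v : V, Complex.exp ((↑(-2 * Real.pi * ⟪v, y⟫) * Complex.I)) • (mulS χ (𝓕⁻ ψ)) v
      = ∫ x, Complex.exp ((↑(-2 * Real.pi * ⟪v, y⟫) * Complex.I)) *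
        Complex.exp ((↑(2 * Real.pi * ⟪x, v⟫) * Complex.I)) * (χ v * ψ x) := by
    intro v
    rw [mulS_apply, SchwartzMap.fourierInv_coe, Real.fourierInv_eq', smul_eq_mul,
      ← integral_const_mul, ← integral_const_mul]
    congr 1
    funext x
    rw [smul_eq_mul]
    ring
  have h2 : ∀ x : V, ψ x * (𝓕⁻ χ : 𝓢(V, ℂ)) (x - y)
      = ∫ v, Complex.exp ((↑(-2 * Real.pi * ⟪v, y⟫) * Complex.I)) *
        Complex.exp ((↑(2 * Real.pi * ⟪x, v⟫) * Complex.I)) * (χ v * ψ x) := by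
    intro x
    rw [SchwartzMap.fourierInv_coe, Real.fourierInv_eq', ← integral_const_mul]
    congr 1
    funext v
    rw [smul_eq_mul, ← Complex.exp_add]
    have : (↑(2 * Real.pi * ⟪v, x - y⟫) * Complex.I : ℂ) = ↑(-2 * Real.pi * ⟪v, y⟫) * Complex.I
        + ↑(2 * Real.pi * ⟪x, v⟫) * Complex.I := by
      rw [inner_sub_right, real_inner_comm x v]
      push_cast
      ring
    rw [this]
    ring
  simp_rw [h1, h2]
  apply integral_integral_swap
  have h3 : Integrable (fun p : V × V => χ p.1 * ψ p.2) (volume.prod volume) :=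
    (schwartz_int χ).mul_prod (schwartz_int ψ)
  refine Integrable.bdd_mul (c := 1) (f := fun p : V × V =>
    Complex.exp ((↑(-2 * Real.pi * ⟪p.1, y⟫) * Complex.I)) *
        Complex.exp ((↑(2 * Real.pi * ⟪p.2, p.1⟫) * Complex.I))) h3 ?_ ?_
  · apply Continuous.aestronglyMeasurable
    fun_prop
  · refine Eventually.of_forall fun p => ?_
    rw [norm_mul, Complex.norm_exp_ofReal_mul_I, Complex.norm_exp_ofReal_mul_I, mul_one]

/-- the spectral condition implies reproduction by convolution with a Schwartz kernel -/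
theorem reproduce {u : V → ℂ} (hu : Continuous u) (hu1 : ∀ x, ‖u x‖ ≤ 1) {N : ℝ}
    (hN : ∀ φ : 𝓢(V, ℂ), (∀ ξ, ‖ξ‖ ≤ N → φ ξ = 0) → ∫ x, u x * (𝓕 φ : 𝓢(V, ℂ)) x = 0)
    (χ : 𝓢(V, ℂ)) (hχ : ∀ ξ, ‖ξ‖ ≤ N → χ ξ = 1) (x : V) : T (𝓕⁻ χ) u x = u x := by
  set θ : 𝓢(V, ℂ) := 𝓕⁻ χ with hθ
  have hTc : Continuous (T θ u) := T_cont θ hu hu1
  have key : ∀ ψ : 𝓢(V, ℂ), ∫ x, ψ x * T θ u x = ∫ x, ψ x * u x := by
    intro ψ
    have h1 := hN (𝓕⁻ ψ - mulS χ (𝓕⁻ ψ)) (by
      intro ξ hξ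
      rw [SchwartzMap.sub_apply, mulS_apply, hχ ξ hξ, one_mul, sub_self])
    have h2 : (𝓕 (𝓕⁻ ψ - mulS χ (𝓕⁻ ψ)) : 𝓢(V, ℂ)) = ψ - 𝓕 (mulS χ (𝓕⁻ ψ)) := by
      rw [sub_eq_add_neg, FourierTransform.fourier_add, FourierTransform.fourier_neg]
      rw [FourierTransform.fourier_fourierInv_eq, ← sub_eq_add_neg]
    rw [h2] at h1
    have h3 : ∀ x, u x * (ψ - 𝓕 (mulS χ (𝓕⁻ ψ)) : 𝓢(V, ℂ)) x
        = ψ x * u x - u x * (𝓕 (mulS χ (𝓕⁻ ψ)) : 𝓢(V, ℂ)) x := by
      intro x
      rw [SchwartzMap.sub_apply]; ring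
    simp_rw [h3] at h1
    have hi1 : Integrable (fun x => ψ x * u x) := by
      have := Integrable.bdd_mul (c := 1) (schwartz_int ψ) hu.aestronglyMeasurable
        (Eventually.of_forall hu1)
      refine this.congr (Eventually.of_forall fun x => ?_)
      beta_reduce
      ring
    have hi2 : Integrable (fun x => u x * (𝓕 (mulS χ (𝓕⁻ ψ)) : 𝓢(V, ℂ)) x) :=
      Integrable.bdd_mul (c := 1) (schwartz_int _) hu.aestronglyMeasurable
        (Eventually.of_forall hu1)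
    rw [integral_sub hi1 hi2, sub_eq_zero] at h1
    rw [h1]
    simp_rw [fourier_mulS]
    have h4 : ∀ x, ψ x * T θ u x = ∫ y, u y * (ψ x * θ (x - y)) := by
      intro x
      rw [T_eq, ← integral_const_mul]
      congr 1
      funext y
      ring
    have h5 : ∀ y, u y * ∫ x, ψ x * θ (x - y) = ∫ x, u y * (ψ x * θ (x - y)) := by
      intro y
      rw [← integral_const_mul]
    simp_rw [h4]
    rw [← hθ]
    simp_rw [h5]
    symm
    apply integral_integral_swap
    have h6 : Integrable (fun p : V × V => ψ p.2 * θ (p.2 - p.1)) (volume.prod volume) := by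
      have h7 : Integrable (fun w : V => θ (-w)) := (schwartz_int θ).comp_neg
      have h8 := (schwartz_int ψ).convolution_integrand (ContinuousLinearMap.mul ℝ ℂ) h7
      refine h8.congr (Eventually.of_forall fun p => ?_)
      simp only [ContinuousLinearMap.mul_apply', neg_sub]
    exact Integrable.bdd_mul (c := 1) h6 (hu.comp continuous_fst).aestronglyMeasurable
      (Eventually.of_forall fun p => hu1 _)
  have hae : ∀ᵐ x ∂(volume : Measure V), T θ u x = u x := by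
    apply ae_eq_of_integral_contDiff_smul_eq hTc.locallyIntegrable hu.locallyIntegrable
    intro g hg hgc
    have hg' : ContDiff ℝ ∞ (fun x => (g x : ℂ)) := Complex.ofRealCLM.contDiff.comp hg
    have hgc' : HasCompactSupport (fun x => (g x : ℂ)) := hgc.comp_left (g := fun r : ℝ => (r : ℂ)) (by simp)
    have := key (hgc'.toSchwartzMap hg')
    simpa using this
  have : T θ u = u := by
    apply (Continuous.ae_eq_iff_eq (μ := (volume : Measure V)) hTc hu).mp
    exact hae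
  rw [this]

end Pool.Agent.X197.Warp
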