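import Mathlib
import Pool.Agent.X197.WarpC

namespace Pool.Agent.X197.Warp

open Filter Topology Set MeasureTheory SchwartzMap LineDeriv
open scoped SchwartzMap FourierTransform ContDiff RealInnerProductSpace BoundedContinuousFunction

variable {V : Type} [NormedAddCommGroup V] [InnerProductSpace ℝ V] [FiniteDimensional ℝ V]
  [MeasurableSpace V] [BorelSpace V]

/-- A continuous representative of a bandlimited square-integrable function: the inverse Fourier
transform of a square-integrable function which vanishes outside a compact set. -/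
def Bandlimited (f : V → ℂ) : Prop :=
  ∃ F : V → ℂ, MemLp F 2 volume ∧ (∃ K : Set V, IsCompact K ∧ ∀ ξ ∉ K, F ξ = 0) ∧ f = 𝓕⁻ F

/-- The distributional Fourier transform `φ ↦ ∫ g (𝓕 φ)` of the bounded function `g` has compact
support: it kills every Schwartz function whose support misses some fixed compact set. -/
def HasCompactSpectrum (g : V → ℂ) : Prop :=
  ∃ K : Set V, IsCompact K ∧ ∀ φ : 𝓢(V, ℂ), Disjoint (tsupport (φ : V → ℂ)) K →
    ∫ x, g x * (𝓕 φ : 𝓢(V, ℂ)) x = 0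

lemma HasCompactSpectrum.exists_radius {g : V → ℂ} (h : HasCompactSpectrum g) :
    ∃ R : ℝ, ∀ φ : 𝓢(V, ℂ), (∀ ξ, ‖ξ‖ ≤ R → φ ξ = 0) → ∫ x, g x * (𝓕 φ : 𝓢(V, ℂ)) x = 0 := by
  obtain ⟨K, hK, h⟩ := h
  obtain ⟨R, hR⟩ := hK.isBounded.subset_ball 0
  refine ⟨R, fun φ hφ => h φ ?_⟩
  rw [Set.disjoint_left]
  intro ξ hξ hξK
  have h1 := hR hξK
  have h2 : tsupport (φ : V → ℂ) ⊆ (Metric.ball (0 : V) R)ᶜ := by
    apply closure_minimal _ Metric.isOpen_ball.isClosed_compl
    intro η hη hηb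
    rw [mem_ball_zero_iff] at hηb
    exact hη (hφ η hηb.le)
  exact h2 hξ h1

/-- the character `e^{2πi⟨ξ,y⟩}` -/
noncomputable def ch (ξ y : V) : ℂ := Complex.exp ((↑(2 * Real.pi * ⟪ξ, y⟫) * Complex.I))

lemma ch_norm (ξ y : V) : ‖ch ξ y‖ = 1 := by
  rw [ch, Complex.norm_exp_ofReal_mul_I]

lemma ch_cont : Continuous (fun p : V × V => ch p.1 p.2) := by
  unfold ch
  fun_prop

/-- evaluation of the inverse Fourier transform of the restriction of `F` to the unit ball -/
noncomputable def ev (F : V →ᵇ ℂ) (y : V) : ℂ := ∫ ξ in Metric.closedBall (0 : V) 1, ch ξ y * F ξ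

lemma ev_int (F : V →ᵇ ℂ) (y : V) :
    Integrable (fun ξ => ch ξ y * F ξ) (volume.restrict (Metric.closedBall (0 : V) 1)) := by
  have hc : Continuous (fun ξ => ch ξ y * F ξ) :=
    (ch_cont.comp (continuous_id.prodMk continuous_const)).mul F.continuous
  exact hc.continuousOn.integrableOn_compact (isCompact_closedBall 0 1)

lemma ev_bound (F : V →ᵇ ℂ) (y : V) :
    ‖ev F y‖ ≤ volume.real (Metric.closedBall (0 : V) 1) * ‖F‖ := by
  unfold ev
  have h := norm_setIntegral_le_of_norm_le_const (μ := (volume : Measure V))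
    (s := Metric.closedBall (0 : V) 1) (f := fun ξ => ch ξ y * F ξ) (C := ‖F‖)
    (isCompact_closedBall (0 : V) 1).measure_lt_top (fun ξ _ => by
      rw [norm_mul, ch_norm, one_mul]
      exact F.norm_coe_le_norm ξ)
  rw [mul_comm]
  exact h

lemma ev_cont (F : V →ᵇ ℂ) : Continuous (ev F) := by
  unfold ev
  refine continuous_of_dominated (bound := fun _ => ‖F‖) ?_ ?_ ?_ ?_
  · intro y
    exact (ev_int F y).aestronglyMeasurable
  · intro y
    refine Eventually.of_forall fun ξ => ?_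
    rw [norm_mul, ch_norm, one_mul]
    exact F.norm_coe_le_norm ξ
  · exact integrableOn_const (isCompact_closedBall (0 : V) 1).measure_lt_top.ne
  · refine Eventually.of_forall fun ξ => ?_
    exact (ch_cont.comp (continuous_const.prodMk continuous_id)).mul continuous_const

lemma ev_add (F G : V →ᵇ ℂ) (y : V) : ev (F + G) y = ev F y + ev G y := by
  unfold ev
  rw [← integral_add (ev_int F y) (ev_int G y)]
  congr 1
  funext ξ
  rw [BoundedContinuousFunction.coe_add, Pi.add_apply]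
  ring

lemma ev_smul (c : ℂ) (F : V →ᵇ ℂ) (y : V) : ev (c • F) y = c * ev F y := by
  unfold ev
  rw [← integral_const_mul]
  congr 1
  funext ξ
  rw [BoundedContinuousFunction.coe_smul]
  change ch ξ y * (c * F ξ) = c * (ch ξ y * F ξ)
  ring

/-- every `ev F` is bandlimited -/
lemma ev_bandlimited (F : V →ᵇ ℂ) : Bandlimited (ev F) := by
  refine ⟨(Metric.closedBall (0 : V) 1).indicator F, ?_, ⟨Metric.closedBall 0 1,
    isCompact_closedBall 0 1, fun ξ hξ => indicator_of_notMem hξ _⟩, ?_⟩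
  · rw [memLp_indicator_iff_restrict measurableSet_closedBall]
    have : IsFiniteMeasure (volume.restrict (Metric.closedBall (0 : V) 1)) :=
      ⟨by rw [Measure.restrict_apply_univ]; exact (isCompact_closedBall (0 : V) 1).measure_lt_top⟩
    exact MemLp.of_bound F.continuous.aestronglyMeasurable ‖F‖
      (Eventually.of_forall fun ξ => F.norm_coe_le_norm ξ)
  · funext y
    rw [Real.fourierInv_eq', ev, ← integral_indicator measurableSet_closedBall]
    congr 1
    funext ξ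
    by_cases h : ξ ∈ Metric.closedBall (0 : V) 1
    · rw [indicator_of_mem h, indicator_of_mem h, smul_eq_mul]
      rfl
    · rw [indicator_of_notMem h, indicator_of_notMem h, smul_zero]

/-- the functional `F ↦ ∫ (ev F)(γ x) 𝓕φ(x) dx` -/
noncomputable def Lam {γ : V → V} (hγ : Continuous γ) (φ : 𝓢(V, ℂ)) : (V →ᵇ ℂ) →L[ℂ] ℂ :=
  LinearMap.mkContinuous
    { toFun := fun F => ∫ x, ev F (γ x) * (𝓕 φ : 𝓢(V, ℂ)) x
      map_add' := by
        intro F G
        have hi : ∀ F : V →ᵇ ℂ, Integrable (fun x => ev F (γ x) * (𝓕 φ : 𝓢(V, ℂ)) x) := fun F =>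
          Integrable.bdd_mul (schwartz_int _) ((ev_cont F).comp hγ).aestronglyMeasurable
            (Eventually.of_forall fun x => ev_bound F _)
        rw [← integral_add (hi F) (hi G)]
        congr 1
        funext x
        rw [ev_add]; ring
      map_smul' := by
        intro c F
        rw [RingHom.id_apply, smul_eq_mul, ← integral_const_mul]
        congr 1
        funext x
        rw [ev_smul]; ring }
    (volume.real (Metric.closedBall (0 : V) 1) * ∫ x, ‖(𝓕 φ : 𝓢(V, ℂ)) x‖) (by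
      intro F
      change ‖∫ x, ev F (γ x) * (𝓕 φ : 𝓢(V, ℂ)) x‖ ≤ _
      have h : ‖∫ x, ev F (γ x) * (𝓕 φ : 𝓢(V, ℂ)) x‖
          ≤ ∫ x, (volume.real (Metric.closedBall (0 : V) 1) * ‖F‖) * ‖(𝓕 φ : 𝓢(V, ℂ)) x‖ := by
        refine norm_integral_le_of_norm_le ((schwartz_int _).norm.const_mul _)
          (Eventually.of_forall fun x => ?_)
        rw [norm_mul]
        exact mul_le_mul_of_nonneg_right (ev_bound F _) (norm_nonneg _)
      rw [integral_const_mul] at h
      linarith)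

lemma Lam_apply {γ : V → V} (hγ : Continuous γ) (φ : 𝓢(V, ℂ)) (F : V →ᵇ ℂ) :
    Lam hγ φ F = ∫ x, ev F (γ x) * (𝓕 φ : 𝓢(V, ℂ)) x := rfl

/-- the closed subspaces of the Baire argument -/
noncomputable def E {γ : V → V} (hγ : Continuous γ) (N : ℕ) : Submodule ℂ (V →ᵇ ℂ) :=
  ⨅ φ : {φ : 𝓢(V, ℂ) // ∀ ξ, ‖ξ‖ ≤ N → φ ξ = 0}, LinearMap.ker (Lam hγ φ.1).toLinearMap

lemma mem_E {γ : V → V} (hγ : Continuous γ) (N : ℕ) (F : V →ᵇ ℂ) :
    F ∈ E hγ N ↔ ∀ φ : 𝓢(V, ℂ), (∀ ξ, ‖ξ‖ ≤ N → φ ξ = 0) →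
      ∫ x, ev F (γ x) * (𝓕 φ : 𝓢(V, ℂ)) x = 0 := by
  unfold E
  rw [Submodule.mem_iInf]
  constructor
  · intro h φ hφ
    exact h ⟨φ, hφ⟩
  · intro h φ
    exact h φ.1 φ.2

lemma E_closed {γ : V → V} (hγ : Continuous γ) (N : ℕ) : IsClosed (E hγ N : Set (V →ᵇ ℂ)) := by
  unfold E
  rw [Submodule.coe_iInf]
  apply isClosed_iInter
  intro φ
  exact (Lam hγ φ.1).isClosed_ker

theorem uniform {γ : V → V} (hγ : Continuous γ)
    (h : ∀ f : V → ℂ, Bandlimited f → HasCompactSpectrum (f ∘ γ)) :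
    ∃ N : ℕ, ∀ F : V →ᵇ ℂ, ∀ φ : 𝓢(V, ℂ), (∀ ξ, ‖ξ‖ ≤ N → φ ξ = 0) →
      ∫ x, ev F (γ x) * (𝓕 φ : 𝓢(V, ℂ)) x = 0 := by
  have hU : ⋃ N : ℕ, (E hγ N : Set (V →ᵇ ℂ)) = univ := by
    rw [eq_univ_iff_forall]
    intro F
    obtain ⟨R, hR⟩ := (h _ (ev_bandlimited F)).exists_radius
    obtain ⟨N, hN⟩ := exists_nat_ge R
    refine mem_iUnion.mpr ⟨N, ?_⟩
    rw [SetLike.mem_coe, mem_E]
    intro φ hφ
    exact hR φ (fun ξ hξ => hφ ξ (hξ.trans hN))
  obtain ⟨N, hN⟩ := nonempty_interior_of_iUnion_of_closed (fun N => E_closed hγ N) hU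
  have : E hγ N = ⊤ := Submodule.eq_top_of_nonempty_interior' (E hγ N) hN
  refine ⟨N, fun F φ hφ => ?_⟩
  have hF : F ∈ E hγ N := by rw [this]; trivial
  exact (mem_E hγ N F).mp hF φ hφ

end Pool.Agent.X197.Warp
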