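import Mathlib
import Pool.Agent.X197.WarpD

namespace Pool.Agent.X197.Warp

open Filter Topology Set MeasureTheory SchwartzMap LineDeriv
open scoped SchwartzMap FourierTransform ContDiff RealInnerProductSpace BoundedContinuousFunction

variable {V : Type} [NormedAddCommGroup V] [InnerProductSpace ℝ V] [FiniteDimensional ℝ V]
  [MeasurableSpace V] [BorelSpace V]

lemma ch_neg (ξ y : V) : ch (-ξ) y = Complex.exp (-(2 * Real.pi * (⟪ξ, y⟫ : ℝ) * Complex.I)) := by
  unfold ch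
  rw [inner_neg_left]
  congr 1
  push_cast
  ring

lemma ch_eq (ξ y : V) : ch ξ y = Complex.exp (2 * Real.pi * (⟪ξ, y⟫ : ℝ) * Complex.I) := by
  unfold ch
  congr 1
  push_cast
  ring

/-- normalized bump around `s` as a bounded continuous function -/
noncomputable def bmp {s : V} (b : ContDiffBump s) : V →ᵇ ℂ :=
  ofCompactSupport (fun ξ => ((b.normed volume ξ : ℝ) : ℂ))
    (Complex.continuous_ofReal.comp b.continuous_normed)
    (b.hasCompactSupport_normed.comp_left (g := fun r : ℝ => (r : ℂ)) (by simp))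

lemma bmp_apply {s : V} (b : ContDiffBump s) (ξ : V) : bmp b ξ = ((b.normed volume ξ : ℝ) : ℂ) := rfl

lemma ev_bmp {s : V} (b : ContDiffBump s) (hb : ‖s‖ + b.rOut ≤ 1) (y : V) :
    ev (bmp b) y = ∫ ξ, ch ξ y * ((b.normed volume ξ : ℝ) : ℂ) := by
  unfold ev
  apply setIntegral_eq_integral_of_forall_compl_eq_zero
  intro ξ hξ
  have h1 : ξ ∉ Function.support (b.normed (volume : Measure V)) := by
    rw [b.support_normed_eq]
    intro h2
    rw [mem_ball_iff_norm] at h2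
    apply hξ
    rw [mem_closedBall_zero_iff]
    have : ‖ξ‖ ≤ ‖ξ - s‖ + ‖s‖ := by
      have := norm_add_le (ξ - s) s
      rwa [sub_add_cancel] at this
    linarith
  rw [bmp_apply, Function.notMem_support.mp h1, Complex.ofReal_zero, mul_zero]

lemma ev_bmp_norm {s : V} (b : ContDiffBump s) (hb : ‖s‖ + b.rOut ≤ 1) (y : V) :
    ‖ev (bmp b) y‖ ≤ 1 := by
  rw [ev_bmp b hb]
  have h := b.integral_normed (μ := (volume : Measure V))
  rw [← h]
  refine norm_integral_le_of_norm_le b.integrable_normed (Eventually.of_forall fun ξ => ?_)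
  rw [norm_mul, ch_norm, one_mul, Complex.norm_real, Real.norm_of_nonneg (b.nonneg_normed ξ)]

lemma ev_bmp_sub {s : V} (b : ContDiffBump s) (hb : ‖s‖ + b.rOut ≤ 1) (y : V) {ε : ℝ}
    (hε : ∀ ξ ∈ Metric.ball s b.rOut, ‖ch ξ y - ch s y‖ ≤ ε) :
    ‖ev (bmp b) y - ch s y‖ ≤ ε := by
  have h0 := b.integral_normed (μ := (volume : Measure V))
  have h1 : ∫ ξ, ((b.normed volume ξ : ℝ) : ℂ) = 1 := by
    rw [integral_complex_ofReal, h0, Complex.ofReal_one]
  have hint : Integrable (fun ξ => ((b.normed (volume : Measure V) ξ : ℝ) : ℂ)) :=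
    b.integrable_normed.ofReal
  have hint2 : Integrable (fun ξ => ch ξ y * ((b.normed (volume : Measure V) ξ : ℝ) : ℂ)) :=
    Integrable.bdd_mul (c := 1) hint
      (ch_cont.comp (continuous_id.prodMk continuous_const)).aestronglyMeasurable
      (Eventually.of_forall fun ξ => (ch_norm _ _).le)
  have h2 : ev (bmp b) y - ch s y = ∫ ξ, (ch ξ y - ch s y) * ((b.normed volume ξ : ℝ) : ℂ) := by
    rw [ev_bmp b hb]
    simp_rw [sub_mul]
    rw [integral_sub hint2 (hint.const_mul _), integral_const_mul, h1, mul_one]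
  rw [h2]
  have h3 : ∫ ξ, ε * b.normed (volume : Measure V) ξ = ε := by
    rw [integral_const_mul, h0, mul_one]
  rw [← h3]
  refine norm_integral_le_of_norm_le (b.integrable_normed.const_mul ε)
    (Eventually.of_forall fun ξ => ?_)
  rw [norm_mul, Complex.norm_real, Real.norm_of_nonneg (b.nonneg_normed ξ)]
  by_cases h4 : ξ ∈ Metric.ball s b.rOut
  · exact mul_le_mul_of_nonneg_right (hε ξ h4) (b.nonneg_normed ξ)
  · rw [← b.support_normed_eq (μ := (volume : Measure V))] at h4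
    rw [Function.notMem_support.mp h4, mul_zero, mul_zero]

/-- characters composed with `γ` satisfy the same spectral condition -/
theorem char_spec {γ : V → V} (hγ : Continuous γ) {N : ℝ}
    (hN : ∀ F : V →ᵇ ℂ, ∀ φ : 𝓢(V, ℂ), (∀ ξ, ‖ξ‖ ≤ N → φ ξ = 0) →
      ∫ x, ev F (γ x) * (𝓕 φ : 𝓢(V, ℂ)) x = 0) {s : V} (hs : ‖s‖ < 1)
    (φ : 𝓢(V, ℂ)) (hφ : ∀ ξ, ‖ξ‖ ≤ N → φ ξ = 0) :
    ∫ x, ch s (γ x) * (𝓕 φ : 𝓢(V, ℂ)) x = 0 := by
  have hpos : ∀ n : ℕ, 0 < (1 - ‖s‖) / ((n : ℝ) + 2) := fun n =>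
    div_pos (by linarith) (by positivity)
  set b : ℕ → ContDiffBump s := fun n => ⟨(1 - ‖s‖) / ((n : ℝ) + 2) / 2, (1 - ‖s‖) / ((n : ℝ) + 2),
    by have := hpos n; linarith, by have := hpos n; linarith⟩ with hbdef
  have hr : ∀ n, (b n).rOut = (1 - ‖s‖) / ((n : ℝ) + 2) := fun n => rfl
  have hb : ∀ n, ‖s‖ + (b n).rOut ≤ 1 := by
    intro n
    rw [hr]
    have : (1 - ‖s‖) / ((n : ℝ) + 2) ≤ (1 - ‖s‖) / 1 :=
      div_le_div_of_nonneg_left (by linarith) one_pos (by linarith [Nat.cast_nonneg (α := ℝ) n])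
    rw [div_one] at this
    linarith
  have hrt : Tendsto (fun n => (b n).rOut) atTop (𝓝 0) := by
    simp_rw [hr]
    have h1 : Tendsto (fun n : ℕ => (n : ℝ) + 2) atTop atTop :=
      tendsto_atTop_add_const_right _ _ tendsto_natCast_atTop_atTop
    exact h1.const_div_atTop _
  have hlim : ∀ y, Tendsto (fun n => ev (bmp (b n)) y) atTop (𝓝 (ch s y)) := by
    intro y
    rw [Metric.tendsto_atTop]
    intro ε hε
    have hc : Continuous (fun ξ : V => ch ξ y) := ch_cont.comp (continuous_id.prodMk continuous_const)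
    obtain ⟨δ, hδ, hδ'⟩ := Metric.continuous_iff.mp hc s (ε / 2) (by linarith)
    obtain ⟨n0, hn0⟩ := Metric.tendsto_atTop.mp hrt δ hδ
    refine ⟨n0, fun n hn => ?_⟩
    have h1 := hn0 n hn
    rw [Real.dist_eq, sub_zero, abs_of_pos (by rw [hr]; exact hpos n)] at h1
    rw [dist_eq_norm]
    have h2 := ev_bmp_sub (b n) (hb n) y (ε := ε / 2) (fun ξ hξ => by
      have h3 := hδ' ξ (lt_trans (Metric.mem_ball.mp hξ) h1)
      rw [dist_eq_norm] at h3
      exact h3.le)
    linarith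
  have hdom := tendsto_integral_of_dominated_convergence (μ := (volume : Measure V))
    (F := fun (n : ℕ) x => ev (bmp (b n)) (γ x) * (𝓕 φ : 𝓢(V, ℂ)) x)
    (f := fun x => ch s (γ x) * (𝓕 φ : 𝓢(V, ℂ)) x)
    (fun x => ‖(𝓕 φ : 𝓢(V, ℂ)) x‖)
    (fun n => (((ev_cont _).comp hγ).mul (𝓕 φ : 𝓢(V, ℂ)).continuous).aestronglyMeasurable)
    (schwartz_int _).norm
    (fun n => Eventually.of_forall fun x => by
      rw [norm_mul]
      exact mul_le_of_le_one_left (norm_nonneg _) (ev_bmp_norm _ (hb n) _))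
    (Eventually.of_forall fun x => (hlim (γ x)).mul tendsto_const_nhds)
  have hz : ∀ n, ∫ x, ev (bmp (b n)) (γ x) * (𝓕 φ : 𝓢(V, ℂ)) x = 0 := fun n => hN _ φ hφ
  simp_rw [hz] at hdom
  exact tendsto_nhds_unique hdom tendsto_const_nhds

theorem midpoint {γ : V → V} (hγ : Continuous γ)
    (h : ∀ f : V → ℂ, Bandlimited f → HasCompactSpectrum (f ∘ γ)) (x v : V) :
    γ x + γ (x + (2 : ℝ) • v) = (2 : ℝ) • γ (x + v) := by
  obtain ⟨N, hN⟩ := uniform hγ h
  let B : ContDiffBump (0 : V) := ⟨(N : ℝ) + 1, (N : ℝ) + 2, by positivity, by linarith⟩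
  have hχ1 : ContDiff ℝ ∞ (fun x => ((B x : ℝ) : ℂ)) := Complex.ofRealCLM.contDiff.comp B.contDiff
  have hχ2 : HasCompactSupport (fun x => ((B x : ℝ) : ℂ)) :=
    B.hasCompactSupport.comp_left (g := fun r : ℝ => (r : ℂ)) (by simp)
  let χ : 𝓢(V, ℂ) := hχ2.toSchwartzMap hχ1
  have hχ : ∀ ξ, ‖ξ‖ ≤ (N : ℝ) → χ ξ = 1 := by
    intro ξ hξ
    change ((B ξ : ℝ) : ℂ) = 1
    rw [B.one_of_mem_closedBall (by
      rw [mem_closedBall_zero_iff]
      change ‖ξ‖ ≤ (N : ℝ) + 1
      linarith), Complex.ofReal_one]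
  set θ : 𝓢(V, ℂ) := 𝓕⁻ χ with hθ
  have hrep : ∀ s : V, ‖s‖ < 1 → ∀ x, T θ (fun x => ch s (γ x)) x = ch s (γ x) := by
    intro s hs x
    exact reproduce (u := fun x => ch s (γ x)) (ch_cont.comp (continuous_const.prodMk hγ))
      (fun x => (ch_norm _ _).le) (fun φ hφ => char_spec hγ hN hs φ hφ) χ hχ x
  have key : ∀ s : V, ‖s‖ < 1 → ⟪s, γ x⟫ + ⟪s, γ (x + (2 : ℝ) • v)⟫ = 2 * ⟪s, γ (x + v)⟫ := by
    intro s hs
    obtain ⟨g, hg0, hg1, hg2⟩ := exists_family θ (u := fun x => ch s (γ x))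
      (ch_cont.comp (continuous_const.prodMk hγ)) (fun x => (ch_norm _ _).le) (hrep s hs) x v
    obtain ⟨g', hg0', hg1', hg2'⟩ := exists_family θ (u := fun x => ch (-s) (γ x))
      (ch_cont.comp (continuous_const.prodMk hγ)) (fun x => (ch_norm _ _).le)
      (hrep (-s) (by rwa [norm_neg])) x v
    have hp : Continuous (fun t : ℝ => ⟪s, γ (x + t • v)⟫) := by
      have : Continuous (fun t : ℝ => γ (x + t • v)) := hγ.comp (by fun_prop)
      exact continuous_const.inner this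
    have := phase_affine hp (integral_nonneg fun w => norm_nonneg _) hg1 hg2 hg1' hg2'
      (fun t => by rw [hg0, ch_eq]) (fun t => by rw [hg0', ch_neg])
    simpa using this
  have hz : ∀ w : V, ⟪w, γ x + γ (x + (2 : ℝ) • v) - (2 : ℝ) • γ (x + v)⟫ = 0 := by
    intro w
    have hpos : 0 < 1 / (1 + ‖w‖) := by positivity
    have h1 := key ((1 / (1 + ‖w‖)) • w) (by
      rw [norm_smul, Real.norm_of_nonneg hpos.le, one_div, inv_mul_lt_iff₀ (by positivity)]
      linarith [norm_nonneg w])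
    simp only [inner_smul_left, RCLike.conj_to_real] at h1
    rw [inner_sub_right, inner_add_right, inner_smul_right]
    have h2 : (1 / (1 + ‖w‖)) * (⟪w, γ x⟫ + ⟪w, γ (x + (2 : ℝ) • v)⟫ - 2 * ⟪w, γ (x + v)⟫) = 0 := by
      linarith
    rcases mul_eq_zero.mp h2 with h3 | h3
    · exact absurd h3 hpos.ne'
    · exact h3
  have := hz (γ x + γ (x + (2 : ℝ) • v) - (2 : ℝ) • γ (x + v))
  rw [inner_self_eq_zero] at this
  exact sub_eq_zero.mp this

theorem affine {γ : V → V} (hγ : Continuous γ) (hbij : Function.Bijective γ)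
    (h : ∀ f : V → ℂ, Bandlimited f → HasCompactSpectrum (f ∘ γ)) :
    ∃ (A : V ≃L[ℝ] V) (b : V), ∀ x, γ x = A x + b := by
  have hm := midpoint hγ h
  have hdouble : ∀ v, γ ((2 : ℝ) • v) - γ 0 = (2 : ℝ) • (γ v - γ 0) := by
    intro v
    have h1 := hm 0 v
    rw [zero_add, zero_add] at h1
    rw [smul_sub, ← h1, two_smul ℝ (γ 0)]
    abel
  have hadd : ∀ a b, γ (a + b) - γ 0 = (γ a - γ 0) + (γ b - γ 0) := by
    intro a b
    have h1 := hm ((2 : ℝ) • a) (b - a)
    have e1 : (2 : ℝ) • a + (2 : ℝ) • (b - a) = (2 : ℝ) • b := by rw [smul_sub]; abel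
    have e2 : (2 : ℝ) • a + (b - a) = a + b := by rw [two_smul]; abel
    rw [e1, e2] at h1
    have h2 := hdouble a
    have h3 := hdouble b
    have h4 : (2 : ℝ) • (γ (a + b) - γ 0) = (2 : ℝ) • ((γ a - γ 0) + (γ b - γ 0)) := by
      rw [smul_add, ← h2, ← h3, smul_sub, ← h1, two_smul ℝ (γ 0)]
      abel
    exact smul_right_injective V (two_ne_zero (α := ℝ)) h4
  let L0 : V →+ V := AddMonoidHom.mk' (fun x => γ x - γ 0) hadd
  let L : V →L[ℝ] V := L0.toRealLinearMap (hγ.sub continuous_const)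
  have hL : ∀ x, L x = γ x - γ 0 := fun x => rfl
  have hLb : Function.Bijective L := by
    constructor
    · intro x y hxy
      rw [hL, hL] at hxy
      exact hbij.1 (sub_left_inj.mp hxy)
    · intro y
      obtain ⟨x, hx⟩ := hbij.2 (y + γ 0)
      exact ⟨x, by rw [hL, hx, add_sub_cancel_right]⟩
  refine ⟨(LinearEquiv.ofBijective L.toLinearMap hLb).toContinuousLinearEquiv, γ 0, fun x => ?_⟩
  change γ x = L x + γ 0
  rw [hL, sub_add_cancel]

end Pool.Agent.X197.Warp
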