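import Mathlib
import Pool.Agent.X197.WarpE

namespace Pool.Agent.X197.Warp

open Filter Topology Set MeasureTheory SchwartzMap LineDeriv
open scoped SchwartzMap FourierTransform ContDiff RealInnerProductSpace BoundedContinuousFunction

variable {V : Type} [NormedAddCommGroup V] [InnerProductSpace ℝ V] [FiniteDimensional ℝ V]
  [MeasurableSpace V] [BorelSpace V]

theorem preserves_of_affine (A : V ≃L[ℝ] V) (b : V) {f : V → ℂ} (hf : Bandlimited f) :
    HasCompactSpectrum (f ∘ fun x => A x + b) := by
  obtain ⟨F, hF, ⟨K, hK, hFK⟩, rfl⟩ := hf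
  have hFint : Integrable F := by
    have h1 : IsFiniteMeasure (volume.restrict K) :=
      ⟨by rw [Measure.restrict_apply_univ]; exact hK.measure_lt_top⟩
    have h2 : Integrable F (volume.restrict K) := (hF.restrict K).integrable one_le_two
    have h3 : IntegrableOn F K := h2
    refine (integrableOn_iff_integrable_of_support_subset ?_).mp h3
    intro ξ hξ
    by_contra hn
    exact hξ (hFK ξ hn)
  set A' : V →L[ℝ] V := ContinuousLinearMap.adjoint (A : V →L[ℝ] V) with hA'
  refine ⟨A' '' K, hK.image A'.continuous, fun φ hφ => ?_⟩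
  have e1 : ∀ x, ((𝓕⁻ F : V → ℂ) ∘ fun x => A x + b) x * (𝓕 φ : 𝓢(V, ℂ)) x
      = ∫ ξ, ch ξ (A x + b) * (F ξ * (𝓕 φ : 𝓢(V, ℂ)) x) := by
    intro x
    rw [Function.comp_apply, Real.fourierInv_eq', ← integral_mul_const]
    congr 1
    funext ξ
    rw [smul_eq_mul, ch, mul_assoc]
  simp_rw [e1]
  have hint : Integrable (fun p : V × V => ch p.2 (A p.1 + b) * (F p.2 * (𝓕 φ : 𝓢(V, ℂ)) p.1))
      (volume.prod volume) := by
    have h1 : Integrable (fun p : V × V => F p.2 * (𝓕 φ : 𝓢(V, ℂ)) p.1) (volume.prod volume) := by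
      have := (schwartz_int (𝓕 φ : 𝓢(V, ℂ))).mul_prod hFint
      refine this.congr (Eventually.of_forall fun p => ?_)
      beta_reduce
      ring
    refine Integrable.bdd_mul (c := 1) (f := fun p : V × V => ch p.2 (A p.1 + b)) h1 ?_
      (Eventually.of_forall fun p => (ch_norm _ _).le)
    apply Continuous.aestronglyMeasurable
    exact ch_cont.comp (continuous_snd.prodMk ((A.continuous.comp continuous_fst).add continuous_const))
  rw [integral_integral_swap hint]
  have e2 : ∀ ξ, ∫ x, ch ξ (A x + b) * (F ξ * (𝓕 φ : 𝓢(V, ℂ)) x) = 0 := by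
    intro ξ
    by_cases hξ : ξ ∈ K
    · have h1 : ∀ x, ch ξ (A x + b) * (F ξ * (𝓕 φ : 𝓢(V, ℂ)) x)
          = (ch ξ b * F ξ) * (Complex.exp ((↑(2 * Real.pi * ⟪x, A' ξ⟫) * Complex.I)) •
            (𝓕 φ : 𝓢(V, ℂ)) x) := by
        intro x
        have h2 : ch ξ (A x + b) = ch ξ b * Complex.exp ((↑(2 * Real.pi * ⟪x, A' ξ⟫) * Complex.I)) := by
          rw [ch, ch, ← Complex.exp_add]
          congr 1
          rw [inner_add_right, hA', ContinuousLinearMap.adjoint_inner_right,
            real_inner_comm ξ]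
          simp only [ContinuousLinearEquiv.coe_coe]
          rw [real_inner_comm (A x) ξ]
          push_cast
          ring
        rw [h2, smul_eq_mul]
        ring
      simp_rw [h1]
      rw [integral_const_mul, ← Real.fourierInv_eq', ← SchwartzMap.fourierInv_coe,
        FourierTransform.fourierInv_fourier_eq]
      have h3 : φ (A' ξ) = 0 := by
        by_contra hne
        have h4 : A' ξ ∈ tsupport (φ : V → ℂ) := subset_tsupport _ hne
        exact Set.disjoint_left.mp hφ h4 (mem_image_of_mem _ hξ)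
      rw [h3, mul_zero]
    · simp_rw [hFK ξ hξ, zero_mul, mul_zero]
      exact integral_zero _ _
  simp_rw [e2]
  exact integral_zero _ _

theorem warp_iff {γ : V → V} (hγ : Continuous γ) (hbij : Function.Bijective γ) :
    (∀ f : V → ℂ, Bandlimited f → HasCompactSpectrum (f ∘ γ)) ↔
    ∃ (A : V ≃L[ℝ] V) (b : V), ∀ x, γ x = A x + b := by
  constructor
  · exact affine hγ hbij
  · rintro ⟨A, b, h⟩ f hf
    have : γ = fun x => A x + b := funext h
    rw [this]
    exact preserves_of_affine A b hf

end Pool.Agent.X197.Warp
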