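import Mathlib

namespace Pool.Agent.X197.LipTree

/-- A rooted, locally finite tree in which every vertex has a child, given by its parent map. -/
structure RTree (V : Type) where
  root : V
  par : V → V
  par_root : par root = root
  reach : ∀ v, ∃ n, par^[n] v = root
  finite_children : ∀ v, {w | par w = v}.Finite
  exists_child : ∀ v, ∃ w, w ≠ root ∧ par w = v

namespace RTree
variable {V : Type} (T : RTree V)

/-- The number of edges between a vertex and the root. -/
noncomputable def depth (v : V) : ℕ := sInf {n : ℕ | T.par^[n] v = T.root}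

/-- Membership in the little Lipschitz space. -/
def L0 (f : V → ℂ) : Prop :=
  ∀ ε : ℝ, 0 < ε → ∃ N : ℕ, ∀ v, N ≤ T.depth v → ‖f v - f (T.par v)‖ < ε

/-- The norm of the little Lipschitz space. -/
noncomputable def norm (f : V → ℂ) : ℝ :=
  max ‖f T.root‖ (⨆ v : {v : V // v ≠ T.root}, ‖f v.1 - f (T.par v.1)‖)

/-- `A` maps the little Lipschitz space into itself and is bounded there. -/
def BoundedOn (A : (V → ℂ) → (V → ℂ)) : Prop :=
  (∀ f, T.L0 f → T.L0 (A f)) ∧ ∃ C : ℝ, ∀ f, T.L0 f → T.norm (A f) ≤ C * T.norm f

/-- `A` has a dense orbit in the little Lipschitz space. -/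
def Hypercyclic (A : (V → ℂ) → (V → ℂ)) : Prop :=
  ∃ f, T.L0 f ∧ ∀ g, T.L0 g → ∀ ε : ℝ, 0 < ε → ∃ n : ℕ, T.norm (A^[n] f - g) < ε

end RTree

/-! ### The concrete tree -/

abbrev Vt := ℕ × List (Fin 3)

def par (v : Vt) : Vt := if v.2 = [] then (v.1 - 1, []) else (v.1, v.2.dropLast)

def size (v : Vt) : ℕ := v.1 + v.2.length

lemma par_nil (j : ℕ) : par (j, []) = (j - 1, []) := by simp [par]

lemma par_concat (j : ℕ) (W : List (Fin 3)) (s : Fin 3) : par (j, W ++ [s]) = (j, W) := by
  simp [par]

lemma size_par (v : Vt) : size (par v) = size v - 1 := by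
  obtain ⟨j, W⟩ := v
  rcases List.eq_nil_or_concat W with rfl | ⟨W', s, rfl⟩
  · simp [par_nil, size]
  · rw [List.concat_eq_append, par_concat]
    simp only [size, List.length_append, List.length_singleton]
    omega

lemma size_eq_zero {v : Vt} : size v = 0 ↔ v = (0, []) := by
  obtain ⟨j, W⟩ := v
  simp [size]

lemma size_iter (n : ℕ) (v : Vt) : size (par^[n] v) = size v - n := by
  induction n with
  | zero => simp
  | succ n ih => rw [Function.iterate_succ_apply', size_par, ih]; omega

lemma iter_size (v : Vt) : par^[size v] v = (0, []) := by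
  rw [← size_eq_zero, size_iter]; omega

lemma finite_size (N : ℕ) : {v : Vt | size v ≤ N}.Finite := by
  refine ((Set.finite_Iic N).prod (List.finite_length_le (Fin 3) N)).subset ?_
  rintro ⟨j, W⟩ h
  simp only [size, Set.mem_ofPred_eq] at h
  constructor
  · simp; omega
  · simp; omega

noncomputable def T0 : RTree Vt where
  root := (0, [])
  par := par
  par_root := by simp [par]
  reach := fun v => ⟨size v, iter_size v⟩
  finite_children := fun v => by
    refine (finite_size (size v + 1)).subset ?_
    intro w hw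
    simp only [Set.mem_ofPred_eq] at hw ⊢
    rw [← hw, size_par]; omega
  exists_child := fun v => ⟨(v.1, v.2 ++ [0]), by simp, by rw [par_concat]⟩

lemma depth_eq (v : Vt) : T0.depth v = size v := by
  unfold RTree.depth
  apply le_antisymm
  · exact Nat.sInf_le (iter_size v)
  · have h1 : par^[sInf {n : ℕ | T0.par^[n] v = T0.root}] v = (0, []) :=
      Nat.sInf_mem (s := {n : ℕ | T0.par^[n] v = T0.root}) ⟨size v, iter_size v⟩
    rw [← size_eq_zero, size_iter] at h1
    omega

/-! ### The symbol -/

def S (i : ℕ) : Prop := ∃ n, i = 3 * 2 ^ n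

lemma not_S_succ {i : ℕ} (h : S i) : ¬ S (i + 1) := by
  rintro ⟨m, hm⟩
  obtain ⟨n, hn⟩ := h
  omega

open Classical in
noncomputable def q (j : ℕ) : Vt :=
  if S (j / 2) then (if j % 2 = 0 then (j / 2, []) else (j / 2 + 1, [2]))
  else (j / 2, [if j % 2 = 0 then 0 else 1])

def tau : List (Fin 3) → List (Fin 3)
  | [] => []
  | s :: W => s :: s :: tau W

noncomputable def phi (v : Vt) : Vt := ((q v.1).1, (q v.1).2 ++ tau v.2)

lemma q_sep {j k : ℕ} (hjk : j ≠ k) (h : (q j).1 = (q k).1) :
    ∃ s t : Fin 3, s ≠ t ∧ (q j).2 = [s] ∧ (q k).2 = [t] := by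
  unfold q at h ⊢
  by_cases h1 : S (j / 2)
  · by_cases h2 : j % 2 = 0
    · exfalso
      by_cases h3 : S (k / 2)
      · by_cases h4 : k % 2 = 0
        · simp only [h1, h2, h3, h4, if_true] at h
          omega
        · simp only [h1, h2, h3, h4, if_true, if_false] at h
          rw [h] at h1
          exact not_S_succ h3 h1
      · simp only [h1, h2, h3, if_true, if_false] at h
        rw [h] at h1
        exact h3 h1
    · by_cases h3 : S (k / 2)
      · by_cases h4 : k % 2 = 0
        · exfalso
          simp only [h1, h2, h3, h4, if_true, if_false] at h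
          rw [← h] at h3
          exact not_S_succ h1 h3
        · exfalso
          simp only [h1, h2, h3, h4, if_true, if_false] at h
          omega
      · refine ⟨2, if k % 2 = 0 then 0 else 1, ?_, ?_, ?_⟩
        · split_ifs <;> decide
        · simp [h1, h2]
        · simp [h3]
  · by_cases h3 : S (k / 2)
    · by_cases h4 : k % 2 = 0
      · exfalso
        simp only [h1, h3, h4, if_true, if_false] at h
        rw [← h] at h3
        exact h1 h3
      · refine ⟨if j % 2 = 0 then 0 else 1, 2, ?_, ?_, ?_⟩
        · split_ifs <;> decide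
        · simp [h1]
        · simp [h3, h4]
    · simp only [h1, h3, if_false] at h
      refine ⟨if j % 2 = 0 then 0 else 1, if k % 2 = 0 then 0 else 1, ?_, ?_, ?_⟩
      · by_cases h5 : j % 2 = 0 <;> by_cases h6 : k % 2 = 0
        · omega
        · simp [h5, h6]
        · simp [h5, h6]
        · omega
      · simp [h1]
      · simp [h3]

lemma length_tau (W : List (Fin 3)) : (tau W).length = 2 * W.length := by
  induction W with
  | nil => simp [tau]
  | cons s W ih => simp [tau, ih]; omega

lemma tau_append (A B : List (Fin 3)) : tau (A ++ B) = tau A ++ tau B := by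
  induction A with
  | nil => simp [tau]
  | cons s A ih => simp [tau, ih]

/-! ### Distance of words -/

def ld : List (Fin 3) → List (Fin 3) → ℕ
  | [], w => w.length
  | a :: v, [] => (a :: v).length
  | a :: v, b :: w => if a = b then ld v w else v.length + w.length + 2

lemma ld_self (v : List (Fin 3)) : ld v v = 0 := by
  induction v with
  | nil => simp [ld]
  | cons a v ih => simp [ld, ih]

lemma ld_nil_left (w : List (Fin 3)) : ld [] w = w.length := by simp [ld]

lemma one_le_ld {v w : List (Fin 3)} (h : v ≠ w) : 1 ≤ ld v w := by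
  induction v generalizing w with
  | nil =>
    cases w with
    | nil => exact absurd rfl h
    | cons b w => simp [ld]
  | cons a v ih =>
    cases w with
    | nil => simp [ld]
    | cons b w =>
      by_cases hab : a = b
      · subst hab
        simp only [ld, if_true]
        exact ih (fun h' => h (by rw [h']))
      · simp only [ld, hab, if_false]; omega

lemma ld_append (c v w : List (Fin 3)) : ld (c ++ v) (c ++ w) = ld v w := by
  induction c with
  | nil => simp
  | cons a c ih => simp [ld, ih]

lemma ld_tau (v w : List (Fin 3)) : ld (tau v) (tau w) = 2 * ld v w := by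
  induction v generalizing w with
  | nil => simp [tau, ld, length_tau]
  | cons a v ih =>
    cases w with
    | nil => simp [tau, ld, length_tau]; omega
    | cons b w =>
      by_cases hab : a = b
      · subst hab
        simp [tau, ld, ih]
      · simp [tau, ld, hab, length_tau]; omega

lemma ld_concat (v w : List (Fin 3)) (s : Fin 3) :
    ld v w ≤ ld (v ++ [s]) w + 1 ∧ ld (v ++ [s]) w ≤ ld v w + 1 := by
  induction v generalizing w with
  | nil =>
    cases w with
    | nil => simp [ld]
    | cons b w =>
      by_cases hab : s = b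
      · subst hab
        simp only [ld, List.nil_append, if_true, List.length_cons]; omega
      · simp only [ld, List.nil_append, hab, if_false, List.length_cons, List.length_nil]
        omega
  | cons a v ih =>
    cases w with
    | nil => simp [ld]
    | cons b w =>
      by_cases hab : a = b
      · subst hab
        simpa [ld] using ih w
      · simp [ld, hab]; omega

lemma length_le_ld (v w : List (Fin 3)) : v.length ≤ ld v w + w.length := by
  induction v generalizing w with
  | nil => simp
  | cons a v ih =>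
    cases w with
    | nil => simp [ld]
    | cons b w =>
      by_cases hab : a = b
      · subst hab
        have := ih w
        simp only [ld, if_true, List.length_cons]; omega
      · simp [ld, hab]; omega

/-! ### Separation -/

lemma sep_step {X Y : Vt} {K : ℕ} (hK : K ≤ X.2.length) (h : Y.1 = X.1 → K ≤ ld Y.2 X.2)
    (h1 : (phi Y).1 = (phi X).1) : 2 * K ≤ ld (phi Y).2 (phi X).2 := by
  by_cases hne : Y.1 = X.1
  · have := h hne
    simp only [phi, hne, ld_append, ld_tau]
    omega
  · obtain ⟨s, t, hst, hs, ht⟩ := q_sep hne h1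
    simp only [phi, hs, ht, List.cons_append, List.nil_append, ld, hst, if_false, length_tau]
    omega

lemma phi_injective : Function.Injective phi := by
  intro X Y h
  by_contra hne
  have h1 : (phi Y).1 = (phi X).1 := by rw [h]
  have h2 : ld (phi Y).2 (phi X).2 = 0 := by rw [h, ld_self]
  by_cases hj : Y.1 = X.1
  · have hW : Y.2 ≠ X.2 := by
      intro hW
      exact hne (Prod.ext hj.symm hW.symm)
    have h3 := one_le_ld hW
    simp only [phi, hj, ld_append, ld_tau] at h2
    omega
  · obtain ⟨s, t, hst, hs, ht⟩ := q_sep hj h1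
    simp [phi, hs, ht, ld, hst, length_tau] at h2

lemma length_phi (X : Vt) : 2 * X.2.length ≤ (phi X).2.length := by
  simp [phi, length_tau]

lemma length_iter (i : ℕ) (X : Vt) : 2 ^ i * X.2.length ≤ (phi^[i] X).2.length := by
  induction i with
  | zero => simp
  | succ i ih =>
    rw [Function.iterate_succ_apply']
    have := length_phi (phi^[i] X)
    rw [pow_succ]
    nlinarith

lemma sep_iter {X Y : Vt} (hX : 1 ≤ X.2.length) (hne : Y ≠ X) (i : ℕ) :
    (phi^[i] Y).1 = (phi^[i] X).1 → 2 ^ i ≤ ld (phi^[i] Y).2 (phi^[i] X).2 := by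
  induction i with
  | zero =>
    intro h
    simp only [Function.iterate_zero, id_eq] at h ⊢
    simp only [pow_zero]
    exact one_le_ld (fun hW => hne (Prod.ext h hW))
  | succ i ih =>
    intro h
    rw [Function.iterate_succ_apply', Function.iterate_succ_apply'] at h ⊢
    have h1 := length_iter i X
    have h2 : 2 ^ i ≤ (phi^[i] X).2.length := by nlinarith [Nat.one_le_two_pow (n := i)]
    have := sep_step h2 ih h
    rw [pow_succ]; omega

def Good (n N : ℕ) (x : Vt) : Prop :=
  N ≤ (phi^[n] x).2.length ∧
    ∀ y, y ≠ x → (phi^[n] y).1 = (phi^[n] x).1 → N ≤ ld (phi^[n] y).2 (phi^[n] x).2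

lemma good_of {k : ℕ} {x : Vt} (h : 1 ≤ (phi^[k] x).2.length) (i : ℕ) : Good (i + k) (2 ^ i) x := by
  constructor
  · rw [Function.iterate_add_apply]
    have := length_iter i (phi^[k] x)
    nlinarith [Nat.one_le_two_pow (n := i)]
  · intro y hy
    rw [Function.iterate_add_apply, Function.iterate_add_apply]
    exact sep_iter h (fun h' => hy ((phi_injective.iterate k) h')) i

/-! ### Bumps -/

noncomputable def bump (c : Vt) (N : ℕ) (x : Vt) : ℝ :=
  if x.1 = c.1 then max 0 (1 - (ld x.2 c.2 : ℝ) / N) else 0

lemma bump_self (c : Vt) (N : ℕ) : bump c N c = 1 := by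
  simp [bump, ld_self]

lemma bump_zero {c : Vt} {N : ℕ} {x : Vt} (hN : 1 ≤ N) (h : x.1 = c.1 → N ≤ ld x.2 c.2) :
    bump c N x = 0 := by
  unfold bump
  split_ifs with hx
  · have h1 := h hx
    apply max_eq_left
    have hN' : (0 : ℝ) < N := by exact_mod_cast hN
    have h2 : (N : ℝ) ≤ ld x.2 c.2 := by exact_mod_cast h1
    have : 1 ≤ (ld x.2 c.2 : ℝ) / N := by rw [le_div_iff₀ hN']; linarith
    linarith
  · rfl

lemma bump_lip {c : Vt} {N : ℕ} (hN : 1 ≤ N) (hc : N ≤ c.2.length) (v : Vt) :
    |bump c N v - bump c N (par v)| ≤ 1 / N := by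
  have hN' : (0 : ℝ) < N := by exact_mod_cast hN
  obtain ⟨j, W⟩ := v
  rcases List.eq_nil_or_concat W with rfl | ⟨W', s, rfl⟩
  · rw [par_nil, bump_zero hN (fun _ => by simpa [ld_nil_left] using hc),
      bump_zero hN (fun _ => by simpa [ld_nil_left] using hc)]
    simp
  · rw [List.concat_eq_append, par_concat]
    unfold bump
    simp only
    split_ifs with hj
    · obtain ⟨h1, h2⟩ := ld_concat W' c.2 s
      have h1' : (ld W' c.2 : ℝ) ≤ ld (W' ++ [s]) c.2 + 1 := by exact_mod_cast h1
      have h2' : (ld (W' ++ [s]) c.2 : ℝ) ≤ ld W' c.2 + 1 := by exact_mod_cast h2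
      rw [max_comm 0, max_comm 0]
      refine (abs_max_sub_max_le_abs _ _ _).trans ?_
      rw [show (1 - (ld (W' ++ [s]) c.2 : ℝ) / N) - (1 - (ld W' c.2 : ℝ) / N)
        = ((ld W' c.2 : ℝ) - ld (W' ++ [s]) c.2) / N by ring, abs_div, abs_of_pos hN']
      apply div_le_div_of_nonneg_right _ hN'.le
      rw [abs_le]; constructor <;> linarith
    · simp

/-- finitely supported functions -/
def FS (f : Vt → ℂ) : Prop := (Function.support f).Finite

lemma FS.add {f g : Vt → ℂ} (hf : FS f) (hg : FS g) : FS (f + g) :=
  (hf.union hg).subset (Function.support_add f g)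

lemma FS.of_zero {f : Vt → ℂ} {s : Set Vt} (hs : s.Finite) (h : ∀ v, v ∉ s → f v = 0) : FS f :=
  hs.subset (fun v hv => by
    by_contra hvs
    exact hv (h v hvs))

lemma finite_bump (c : Vt) {N : ℕ} (hN : 1 ≤ N) : {v : Vt | bump c N v ≠ 0}.Finite := by
  refine ((Set.finite_singleton c.1).prod (List.finite_length_le (Fin 3) (N + c.2.length))).subset ?_
  rintro ⟨j, W⟩ h
  simp only [Set.mem_ofPred_eq] at h
  have hj : j = c.1 := by
    by_contra hj
    exact h (by simp [bump, hj])
  constructor
  · simpa using hj
  · simp only [Set.mem_ofPred_eq]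
    by_contra hlt
    push Not at hlt
    apply h
    apply bump_zero hN
    intro _
    have := length_le_ld W c.2
    simp only
    omega

/-- size bound predicate -/
def NB (f : Vt → ℂ) (C : ℝ) : Prop := ‖f (0, [])‖ ≤ C ∧ ∀ v, ‖f v - f (par v)‖ ≤ C

lemma FS.sum {ι : Type} (s : Finset ι) (f : ι → Vt → ℂ) (h : ∀ i ∈ s, FS (f i)) :
    FS (fun v => ∑ i ∈ s, f i v) := by
  classical
  refine FS.of_zero (s := ⋃ i ∈ s, Function.support (f i)) ?_ ?_
  · exact Set.Finite.biUnion s.finite_toSet (fun i hi => h i hi)
  · intro v hv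
    apply Finset.sum_eq_zero
    intro i hi
    by_contra hne
    exact hv (Set.mem_biUnion hi hne)

lemma lift (P : Finset Vt) (n N : ℕ) (hN : 1 ≤ N) (hP : ∀ x ∈ P, Good n N x) (g : Vt → ℂ) :
    ∃ h : Vt → ℂ, FS h ∧ (∀ y, h (phi^[n] y) = if y ∈ P then g y else 0) ∧
      NB h ((∑ x ∈ P, ‖g x‖) / N) := by
  classical
  have hN' : (0 : ℝ) < N := by exact_mod_cast hN
  refine ⟨fun v => ∑ x ∈ P, g x * (bump (phi^[n] x) N v : ℂ), ?_, ?_, ?_, ?_⟩
  · apply FS.sum
    intro x _
    refine FS.of_zero (finite_bump (phi^[n] x) hN) ?_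
    intro v hv
    simp only [Set.mem_ofPred_eq, not_not] at hv
    simp [hv]
  · intro y
    have h1 : ∀ x ∈ P, g x * (bump (phi^[n] x) N (phi^[n] y) : ℂ) = if y = x then g x else 0 := by
      intro x hx
      split_ifs with hyx
      · rw [hyx, bump_self]; simp
      · rw [bump_zero hN ((hP x hx).2 y hyx)]; simp
    simp only
    rw [Finset.sum_congr rfl h1, Finset.sum_ite_eq]
  · have h1 : ∀ x ∈ P, g x * (bump (phi^[n] x) N (0, []) : ℂ) = 0 := by
      intro x hx
      rw [bump_zero hN (fun _ => by rw [ld_nil_left]; exact (hP x hx).1)]; simp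
    simp only
    rw [Finset.sum_eq_zero h1, norm_zero]
    positivity
  · intro v
    simp only
    rw [← Finset.sum_sub_distrib, Finset.sum_div]
    refine (norm_sum_le _ _).trans (Finset.sum_le_sum ?_)
    intro x hx
    rw [← mul_sub, norm_mul, ← Complex.ofReal_sub, Complex.norm_real, Real.norm_eq_abs,
      div_eq_mul_one_div]
    exact mul_le_mul_of_nonneg_left (bump_lip hN (hP x hx).1 v) (norm_nonneg _)

end Pool.Agent.X197.LipTree
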