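import Mathlib
import Pool.Agent.X197.LipTree

namespace Pool.Agent.X197.LipTree

open Filter Topology

/-! ### Norm bound predicate -/

lemma NB.add {f g : Vt → ℂ} {A B : ℝ} (hf : NB f A) (hg : NB g B) : NB (f + g) (A + B) := by
  refine ⟨(norm_add_le _ _).trans (add_le_add hf.1 hg.1), fun v => ?_⟩
  have h : (f + g) v - (f + g) (par v) = (f v - f (par v)) + (g v - g (par v)) := by
    simp only [Pi.add_apply]; ring
  rw [h]
  exact (norm_add_le _ _).trans (add_le_add (hf.2 v) (hg.2 v))

lemma NB.mono {f : Vt → ℂ} {A B : ℝ} (hf : NB f A) (h : A ≤ B) : NB f B :=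
  ⟨hf.1.trans h, fun v => (hf.2 v).trans h⟩

lemma NB.smul {f : Vt → ℂ} {A : ℝ} (hf : NB f A) (c : ℂ) : NB (c • f) (‖c‖ * A) := by
  refine ⟨?_, fun v => ?_⟩
  · simp only [Pi.smul_apply, smul_eq_mul, norm_mul]
    exact mul_le_mul_of_nonneg_left hf.1 (norm_nonneg _)
  · simp only [Pi.smul_apply, smul_eq_mul]
    rw [← mul_sub, norm_mul]
    exact mul_le_mul_of_nonneg_left (hf.2 v) (norm_nonneg _)

lemma NB.nonneg {f : Vt → ℂ} {A : ℝ} (hf : NB f A) : 0 ≤ A := (norm_nonneg _).trans hf.1

lemma NB_zero {A : ℝ} (hA : 0 ≤ A) : NB (0 : Vt → ℂ) A := by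
  refine ⟨by simpa using hA, fun v => by simpa using hA⟩

lemma NB.value {f : Vt → ℂ} {A : ℝ} (hf : NB f A) (v : Vt) : ‖f v‖ ≤ (size v + 1) * A := by
  have key : ∀ n : ℕ, ∀ v, size v = n → ‖f v‖ ≤ (n + 1) * A := by
    intro n
    induction n with
    | zero =>
      intro v hv
      rw [size_eq_zero] at hv
      rw [hv]; simpa using hf.1
    | succ n ih =>
      intro v hv
      have h1 : size (par v) = n := by rw [size_par, hv]; omega
      have h2 := ih (par v) h1
      have h3 : ‖f v‖ ≤ ‖f v - f (par v)‖ + ‖f (par v)‖ := by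
        have := norm_add_le (f v - f (par v)) (f (par v))
        simpa using this
      have h4 := hf.2 v
      push_cast
      linarith
  exact key _ v rfl

lemma not_S_of_lt {i : ℕ} (h : i < 3) : ¬ S i := by
  rintro ⟨n, hn⟩
  have := Nat.one_le_two_pow (n := n)
  omega

lemma q_zero : q 0 = (0, [0]) := by
  unfold q
  simp [not_S_of_lt]

lemma step_local {f : Vt → ℂ} {B : ℝ} (hB : 0 ≤ B) (v : Vt)
    (h : ∀ u, size v ≤ 2 * size u + 2 → ‖f u - f (par u)‖ ≤ B) :
    ‖f (phi v) - f (phi (par v))‖ ≤ 3 * B := by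
  obtain ⟨j, W⟩ := v
  rcases List.eq_nil_or_concat W with rfl | ⟨W', s, rfl⟩
  · rw [par_nil]
    rcases Nat.eq_zero_or_pos j with rfl | hj
    · simp; exact hB
    · obtain ⟨i, rfl⟩ : ∃ i, j = i + 1 := ⟨j - 1, by omega⟩
      simp only [Nat.add_sub_cancel]
      have e1 : phi (i + 1, []) = q (i + 1) := by simp [phi, tau]
      have e2 : phi (i, []) = q i := by simp [phi, tau]
      rw [e1, e2]
      -- vertices (m,[s])
      have hs : ∀ m : ℕ, ∀ s : Fin 3, i ≤ 2 * m + 3 → ‖f (m, [s]) - f (m, [])‖ ≤ B := by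
        intro m s hm
        have := h (m, [s]) (by simp [size]; omega)
        rwa [show par (m, [s]) = (m, []) from par_concat m [] s] at this
      have hm : ∀ m : ℕ, i ≤ 2 * m + 3 → ‖f (m + 1, []) - f (m, [])‖ ≤ B := by
        intro m hm
        have := h (m + 1, []) (by simp [size]; omega)
        rwa [par_nil, Nat.add_sub_cancel] at this
      have tri : ∀ a b c : ℂ, ‖a - b‖ ≤ B → ‖c - b‖ ≤ B → ‖a - c‖ ≤ 2 * B := by
        intro a b c h1 h2
        have := norm_sub_le (a - b) (c - b)
        rw [sub_sub_sub_cancel_right] at this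
        linarith
      have tri3 : ∀ a b c d : ℂ, ‖a - b‖ ≤ B → ‖b - c‖ ≤ B → ‖d - c‖ ≤ B → ‖a - d‖ ≤ 3 * B := by
        intro a b c d h1 h2 h3
        have e : a - d = (a - b) + ((b - c) - (d - c)) := by ring
        rw [e]
        have h4 := norm_add_le (a - b) ((b - c) - (d - c))
        have h5 := norm_sub_le (b - c) (d - c)
        linarith
      rcases Nat.even_or_odd' i with ⟨k, rfl | rfl⟩
      · -- i = 2k
        by_cases hS : S k
        · have q1 : q (2 * k + 1) = (k + 1, [2]) := by
            unfold q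
            rw [show (2 * k + 1) / 2 = k by omega]
            simp [hS]
          have q2 : q (2 * k) = (k, []) := by
            unfold q
            rw [show (2 * k) / 2 = k by omega]
            simp [hS]
          rw [q1, q2]
          have := tri3 (f (k + 1, [2])) (f (k + 1, [])) (f (k, [])) (f (k, [])) (hs _ _ (by omega))
            (hm _ (by omega)) (by simpa using hB)
          exact this
        · have q1 : q (2 * k + 1) = (k, [1]) := by
            unfold q
            rw [show (2 * k + 1) / 2 = k by omega]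
            simp [hS]
          have q2 : q (2 * k) = (k, [0]) := by
            unfold q
            rw [show (2 * k) / 2 = k by omega]
            simp [hS]
          rw [q1, q2]
          have := tri (f (k, [1])) (f (k, [])) (f (k, [0])) (hs _ _ (by omega)) (hs _ _ (by omega))
          linarith
      · -- i = 2k+1
        by_cases hS : S k
        · have hS' : ¬ S (k + 1) := not_S_succ hS
          have q1 : q (2 * k + 1 + 1) = (k + 1, [0]) := by
            unfold q
            rw [show (2 * k + 1 + 1) / 2 = k + 1 by omega]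
            have : (2 * k + 1 + 1) % 2 = 0 := by omega
            simp [hS', this]
          have q2 : q (2 * k + 1) = (k + 1, [2]) := by
            unfold q
            rw [show (2 * k + 1) / 2 = k by omega]
            simp [hS]
          rw [q1, q2]
          have := tri (f (k + 1, [0])) (f (k + 1, [])) (f (k + 1, [2])) (hs _ _ (by omega))
            (hs _ _ (by omega))
          linarith
        · have q2 : q (2 * k + 1) = (k, [1]) := by
            unfold q
            rw [show (2 * k + 1) / 2 = k by omega]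
            simp [hS]
          by_cases hS' : S (k + 1)
          · have q1 : q (2 * k + 1 + 1) = (k + 1, []) := by
              unfold q
              rw [show (2 * k + 1 + 1) / 2 = k + 1 by omega]
              have : (2 * k + 1 + 1) % 2 = 0 := by omega
              simp [hS', this]
            rw [q1, q2]
            exact tri3 (f (k + 1, [])) (f (k + 1, [])) (f (k, [])) (f (k, [1]))
              (by simpa using hB) (hm _ (by omega)) (hs _ _ (by omega))
          · have q1 : q (2 * k + 1 + 1) = (k + 1, [0]) := by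
              unfold q
              rw [show (2 * k + 1 + 1) / 2 = k + 1 by omega]
              have : (2 * k + 1 + 1) % 2 = 0 := by omega
              simp [hS', this]
            rw [q1, q2]
            exact tri3 (f (k + 1, [0])) (f (k + 1, [])) (f (k, [])) (f (k, [1]))
              (hs _ _ (by omega)) (hm _ (by omega)) (hs _ _ (by omega))
  · rw [List.concat_eq_append, par_concat]
    have hq : j ≤ 2 * (q j).1 + 1 := by
      unfold q
      split_ifs <;> simp only <;> omega
    set c := (q j).2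
    set m := (q j).1
    have e1 : phi (j, W' ++ [s]) = (m, (c ++ tau W' ++ [s]) ++ [s]) := by
      simp [phi, tau_append, tau, m, c]
    have e2 : phi (j, W') = (m, c ++ tau W') := rfl
    rw [e1, e2]
    have h1 := h (m, (c ++ tau W' ++ [s]) ++ [s]) (by
      simp only [size, List.concat_eq_append, List.length_append, List.length_singleton,
        length_tau]
      omega)
    have h2 := h (m, (c ++ tau W') ++ [s]) (by
      simp only [size, List.concat_eq_append, List.length_append, List.length_singleton,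
        length_tau]
      omega)
    rw [par_concat] at h1 h2
    have h3 := norm_add_le (f (m, (c ++ tau W' ++ [s]) ++ [s]) - f (m, c ++ tau W' ++ [s]))
      (f (m, c ++ tau W' ++ [s]) - f (m, c ++ tau W'))
    rw [sub_add_sub_cancel] at h3
    linarith

lemma NB.comp {f : Vt → ℂ} {B : ℝ} (hf : NB f B) : NB (fun v => f (phi v)) (3 * B) := by
  refine ⟨?_, fun v => step_local hf.nonneg v (fun u _ => hf.2 u)⟩
  have e : phi (0, []) = (0, [0]) := by simp [phi, q_zero, tau]
  simp only [e]
  have h1 := hf.2 (0, [0])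
  rw [show par (0, [0]) = (0, []) from par_concat 0 [] 0] at h1
  have h2 := norm_add_le (f (0, [0]) - f (0, [])) (f (0, []))
  rw [sub_add_cancel] at h2
  have := hf.1
  have := hf.nonneg
  linarith

lemma NB.iter {f : Vt → ℂ} {B : ℝ} (hf : NB f B) (n : ℕ) :
    NB (fun v => f (phi^[n] v)) (3 ^ n * B) := by
  induction n generalizing f B with
  | zero => simpa using hf
  | succ n ih =>
    have h1 := ih hf.comp
    have e : (fun v => f (phi^[n + 1] v)) = fun v => (fun v => f (phi v)) (phi^[n] v) := by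
      funext v
      simp only [Function.iterate_succ_apply']
    rw [e]
    refine h1.mono (le_of_eq ?_)
    ring

/-! ### Special orbit -/

def z (p : ℕ) : Vt := (3 * 2 ^ p, [])

lemma q_nil {j : ℕ} (h : (q j).2 = []) : ∃ a, j = 3 * 2 ^ (a + 1) ∧ q j = (3 * 2 ^ a, []) := by
  unfold q at h ⊢
  split_ifs at h with h1 h2
  · obtain ⟨a, ha⟩ := h1
    refine ⟨a, ?_, ?_⟩
    · rw [pow_succ]; omega
    · have hS : S (j / 2) := ⟨a, ha⟩
      rw [if_pos hS, if_pos h2, ha]

lemma phi_z (p : ℕ) : phi (z (p + 1)) = z p := by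
  have h1 : (3 * 2 ^ (p + 1)) / 2 = 3 * 2 ^ p := by rw [pow_succ]; omega
  have h2 : (3 * 2 ^ (p + 1)) % 2 = 0 := by rw [pow_succ]; omega
  have hS : S (3 * 2 ^ p) := ⟨p, rfl⟩
  simp [phi, z, q, h1, h2, hS, tau]

lemma iter_z (n p : ℕ) : phi^[n] (z (p + n)) = z p := by
  induction n with
  | zero => simp
  | succ n ih =>
    rw [Function.iterate_succ_apply, ← add_assoc, phi_z, ih]

lemma exists_level (x : Vt) : ∃ k, 1 ≤ (phi^[k] x).2.length := by
  obtain ⟨j, W⟩ := x
  by_cases hW : W = []
  · subst hW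
    by_cases hq : (q j).2 = []
    · obtain ⟨a, rfl, -⟩ := q_nil hq
      refine ⟨(a + 1) + 1, ?_⟩
      rw [Function.iterate_succ_apply']
      have h1 := iter_z (a + 1) 0
      rw [zero_add] at h1
      have h2 : phi^[a + 1] (3 * 2 ^ (a + 1), []) = z 0 := h1
      rw [h2]
      simp [phi, z, q, not_S_of_lt, tau]
    · refine ⟨1, ?_⟩
      simp only [Function.iterate_one, phi, List.length_append]
      have := List.length_pos_iff.mpr hq
      omega
  · exact ⟨0, List.length_pos_iff.mpr hW⟩

lemma level_mono {x : Vt} {k l : ℕ} (hkl : k ≤ l) (h : 1 ≤ (phi^[k] x).2.length) :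
    1 ≤ (phi^[l] x).2.length := by
  obtain ⟨i, rfl⟩ : ∃ i, l = i + k := ⟨l - k, by omega⟩
  rw [Function.iterate_add_apply]
  have := length_iter i (phi^[k] x)
  nlinarith [Nat.one_le_two_pow (n := i)]

/-- Lemma A -/
lemma lemmaA {G : Vt → ℂ} (hG : FS G) {ε : ℝ} (hε : 0 < ε) :
    ∃ n₀, ∀ n, n₀ ≤ n → ∃ h : Vt → ℂ, FS h ∧ (∀ y, h (phi^[n] y) = G y) ∧ NB h ε := by
  classical
  choose k hk using exists_level
  set P : Finset Vt := hG.toFinset with hP
  set K := P.sup k with hK
  set A : ℝ := ∑ x ∈ P, ‖G x‖ with hA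
  obtain ⟨m, hm⟩ := pow_unbounded_of_one_lt (A / ε) (one_lt_two)
  refine ⟨m + K, fun n hn => ?_⟩
  obtain ⟨i, rfl⟩ : ∃ i, n = i + K := ⟨n - K, by omega⟩
  have hi : m ≤ i := by omega
  obtain ⟨h, h1, h2, h3⟩ := lift P (i + K) (2 ^ i) Nat.one_le_two_pow (fun x hx =>
    good_of (level_mono (Finset.le_sup (f := k) hx) (hk x)) i) G
  refine ⟨h, h1, ?_, h3.mono ?_⟩
  · intro y
    rw [h2]
    split_ifs with hy
    · rfl
    · rw [hP, Set.Finite.mem_toFinset, Function.mem_support, not_not] at hy
      exact hy.symm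
  · have h4 : (2 : ℝ) ^ m ≤ 2 ^ i := pow_le_pow_right₀ (by norm_num) hi
    have h5 : A / ε < 2 ^ i := hm.trans_le h4
    rw [div_lt_iff₀ hε] at h5
    push_cast
    rw [div_le_iff₀ (by positivity)]
    linarith

/-! ### Tents on the spine -/

def dst (J : ℕ) (v : Vt) : ℕ := (v.1 - J) + (J - v.1) + v.2.length

noncomputable def tent (J R : ℕ) (v : Vt) : ℂ := ((max 0 (1 - (dst J v : ℝ) / R) : ℝ) : ℂ)

lemma dst_par (J : ℕ) (v : Vt) : dst J v ≤ dst J (par v) + 1 ∧ dst J (par v) ≤ dst J v + 1 := by
  obtain ⟨j, W⟩ := v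
  rcases List.eq_nil_or_concat W with rfl | ⟨W', s, rfl⟩
  · rw [par_nil]; simp only [dst, List.length_nil]; omega
  · rw [List.concat_eq_append, par_concat]
    simp only [dst, List.length_append, List.length_singleton]; omega

lemma tent_zero {J R : ℕ} (hR : 1 ≤ R) {v : Vt} (h : R ≤ dst J v) : tent J R v = 0 := by
  have hR' : (0 : ℝ) < R := by exact_mod_cast hR
  unfold tent
  rw [Complex.ofReal_eq_zero]
  apply max_eq_left
  have h2 : (R : ℝ) ≤ dst J v := by exact_mod_cast h
  have : 1 ≤ (dst J v : ℝ) / R := by rw [le_div_iff₀ hR']; linarith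
  linarith

lemma norm_tent_le {J R : ℕ} (v : Vt) : ‖tent J R v‖ ≤ 1 := by
  unfold tent
  rw [Complex.norm_real, Real.norm_eq_abs, abs_of_nonneg (le_max_left _ _)]
  apply max_le zero_le_one
  have : 0 ≤ (dst J v : ℝ) / R := by positivity
  linarith

lemma NB_tent {J R : ℕ} (hR : 1 ≤ R) (hJ : R ≤ J) : NB (tent J R) (1 / R) := by
  have hR' : (0 : ℝ) < R := by exact_mod_cast hR
  refine ⟨?_, fun v => ?_⟩
  · rw [tent_zero hR (by simp [dst, hJ]), norm_zero]; positivity
  · unfold tent
    rw [← Complex.ofReal_sub, Complex.norm_real, Real.norm_eq_abs, max_comm 0, max_comm 0]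
    refine (abs_max_sub_max_le_abs _ _ _).trans ?_
    obtain ⟨h1, h2⟩ := dst_par J v
    have h1' : (dst J v : ℝ) ≤ dst J (par v) + 1 := by exact_mod_cast h1
    have h2' : (dst J (par v) : ℝ) ≤ dst J v + 1 := by exact_mod_cast h2
    rw [show (1 - (dst J v : ℝ) / R) - (1 - (dst J (par v) : ℝ) / R)
        = ((dst J (par v) : ℝ) - dst J v) / R by ring, abs_div, abs_of_pos hR']
    apply div_le_div_of_nonneg_right _ hR'.le
    rw [abs_le]; constructor <;> linarith

lemma ring_good {b R : ℕ} (hR : R ≤ 2 ^ b) {x : Vt} (h1 : 3 * 2 ^ (b + 1) - R < x.1)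
    (h2 : x.1 < 3 * 2 ^ (b + 1) + R) (hx : x ≠ z (b + 1)) : 1 ≤ (phi x).2.length := by
  by_contra hlt
  have h0 : (phi x).2.length = 0 := by omega
  simp only [phi, List.length_append, length_tau] at h0
  have hq : (q x.1).2 = [] := List.length_eq_zero_iff.mp (by omega)
  have hW : x.2 = [] := List.length_eq_zero_iff.mp (by omega)
  obtain ⟨a, ha, -⟩ := q_nil hq
  have hab : a ≠ b := by
    intro hab
    apply hx
    rw [z, ← hW, ← hab, ← ha]
  rcases lt_or_gt_of_ne hab with h | h
  · have h3 : 2 ^ (a + 1) ≤ 2 ^ b := Nat.pow_le_pow_right (by norm_num) h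
    have h4 : 2 ^ (b + 1) = 2 * 2 ^ b := by rw [pow_succ]; ring
    omega
  · have h3 : 2 ^ (b + 2) ≤ 2 ^ (a + 1) := Nat.pow_le_pow_right (by norm_num) (by omega)
    have h4 : 2 ^ (b + 1) = 2 * 2 ^ b := by rw [pow_succ]; ring
    have h5 : 2 ^ (b + 2) = 4 * 2 ^ b := by rw [pow_succ, pow_succ]; ring
    omega

/-! ### Lemma B -/

def PB (F : Vt → ℂ) : Prop :=
  ∀ ε : ℝ, 0 < ε → ∃ n₀, ∀ n, n₀ ≤ n →
    ∃ F' : Vt → ℂ, FS F' ∧ NB (F' - F) ε ∧ NB (fun v => F' (phi^[n] v)) ε

lemma FS_zero : FS (0 : Vt → ℂ) := FS.of_zero Set.finite_empty (fun _ _ => rfl)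

lemma FS.smul {f : Vt → ℂ} (hf : FS f) (c : ℂ) : FS (c • f) :=
  FS.of_zero hf (fun v hv => by
    rw [Function.notMem_support] at hv
    simp [hv])

lemma PB_zero : PB 0 := by
  intro ε hε
  refine ⟨0, fun n _ => ⟨0, FS_zero, ?_, ?_⟩⟩
  · rw [sub_self]; exact NB_zero hε.le
  · exact NB_zero hε.le

lemma PB.add {F G : Vt → ℂ} (hF : PB F) (hG : PB G) : PB (F + G) := by
  intro ε hε
  obtain ⟨n₁, h₁⟩ := hF (ε / 2) (by positivity)
  obtain ⟨n₂, h₂⟩ := hG (ε / 2) (by positivity)
  refine ⟨max n₁ n₂, fun n hn => ?_⟩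
  obtain ⟨F', a1, a2, a3⟩ := h₁ n (le_trans (le_max_left _ _) hn)
  obtain ⟨G', b1, b2, b3⟩ := h₂ n (le_trans (le_max_right _ _) hn)
  refine ⟨F' + G', a1.add b1, ?_, ?_⟩
  · have := a2.add b2
    rw [add_halves] at this
    rwa [add_sub_add_comm]
  · have := a3.add b3
    rw [add_halves] at this
    exact this

lemma PB.smul {F : Vt → ℂ} (hF : PB F) (c : ℂ) : PB (c • F) := by
  intro ε hε
  obtain ⟨n₁, h₁⟩ := hF (ε / (‖c‖ + 1)) (by positivity)
  refine ⟨n₁, fun n hn => ?_⟩
  obtain ⟨F', a1, a2, a3⟩ := h₁ n hn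
  have hle : ‖c‖ * (ε / (‖c‖ + 1)) ≤ ε := by
    rw [mul_div_assoc', div_le_iff₀ (by positivity)]
    nlinarith [norm_nonneg c]
  refine ⟨c • F', a1.smul c, ?_, ?_⟩
  · rw [← smul_sub]
    exact (a2.smul c).mono hle
  · exact (a3.smul c).mono hle

def dl (u : Vt) : Vt → ℂ := fun v => by classical exact if v = u then 1 else 0

lemma FS_dl (u : Vt) : FS (dl u) :=
  FS.of_zero (Set.finite_singleton u) (fun v hv => by
    have : v ≠ u := hv
    simp [dl, this])

lemma exists_z {u : Vt} (h : ∀ n, ∃ w, phi^[n] w = u) : ∃ i p, phi^[i] (z p) = u := by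
  obtain ⟨i, hi⟩ : ∃ i, u.2.length < 2 ^ i := ⟨u.2.length, Nat.lt_two_pow_self⟩
  obtain ⟨w, hw⟩ := h (i + 1)
  rw [Function.iterate_succ_apply] at hw
  have h1 := length_iter i (phi w)
  rw [hw] at h1
  have h2 : (phi w).2.length = 0 := by
    by_contra hne
    have : 1 ≤ (phi w).2.length := by omega
    nlinarith
  have h3 : (phi w).2 = [] := List.length_eq_zero_iff.mp h2
  have h4 : (q w.1).2 = [] := by
    simp only [phi, List.append_eq_nil_iff] at h3
    exact h3.1
  obtain ⟨a, -, ha⟩ := q_nil h4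
  refine ⟨i, a, ?_⟩
  rw [← hw]
  congr 1
  apply Prod.ext
  · simp [z, phi, ha]
  · rw [h3]; rfl

lemma PB_dl (u : Vt) : PB (dl u) := by
  classical
  intro ε hε
  by_cases hu : ∃ n₁, ∀ w, phi^[n₁] w ≠ u
  · obtain ⟨n₁, h₁⟩ := hu
    refine ⟨n₁, fun n hn => ⟨dl u, FS_dl u, ?_, ?_⟩⟩
    · rw [sub_self]; exact NB_zero hε.le
    · have e : (fun v => dl u (phi^[n] v)) = 0 := by
        funext v
        obtain ⟨i, rfl⟩ : ∃ i, n = n₁ + i := ⟨n - n₁, by omega⟩
        rw [Function.iterate_add_apply]
        simp [dl, h₁]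
      rw [e]; exact NB_zero hε.le
  · push Not at hu
    obtain ⟨i, p, hip⟩ := exists_z hu
    obtain ⟨R', hR'⟩ := exists_nat_one_div_lt hε
    set R := R' + 1 with hRdef
    have hR : 1 ≤ R := by omega
    have hRε : (1 : ℝ) / R ≤ ε := by rw [hRdef]; push_cast; exact hR'.le
    set WR : Finset (List (Fin 3)) := (List.finite_length_le (Fin 3) R).toFinset with hWR
    set K : ℝ := 2 * R * WR.card with hK
    obtain ⟨m, hm⟩ := pow_unbounded_of_one_lt (K / ε) (one_lt_two)
    refine ⟨i + R + m + 2, fun n hn => ?_⟩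
    obtain ⟨b, hb⟩ : ∃ b, p + (n - i) = b + 1 := ⟨p + (n - i) - 1, by omega⟩
    have hbR : R ≤ b := by omega
    have hb2 : R ≤ 2 ^ b := hbR.trans Nat.lt_two_pow_self.le
    set J := 3 * 2 ^ (b + 1) with hJ
    have hJR : R ≤ J := by rw [hJ, pow_succ]; omega
    have hz : phi^[n] (z (b + 1)) = u := by
      have e : n = i + (n - i) := by omega
      have e2 : phi^[n] (z (b + 1)) = phi^[i + (n - i)] (z (p + (n - i))) := by rw [← e, hb]
      rw [e2, Function.iterate_add_apply, iter_z, hip]
    set P : Finset Vt := (Finset.Ioo (J - R) (J + R) ×ˢ WR).erase (z (b + 1)) with hP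
    have hPcard : (P.card : ℝ) ≤ K := by
      have h1 : P.card ≤ (2 * R) * WR.card := by
        refine (Finset.card_erase_le).trans ?_
        rw [Finset.card_product, Nat.card_Ioo]
        exact Nat.mul_le_mul_right _ (by omega)
      rw [hK]
      exact_mod_cast h1
    obtain ⟨h, h1, h2, h3⟩ := lift P n (2 ^ (n - 1)) Nat.one_le_two_pow (fun x hx => by
      rw [hP, Finset.mem_erase, Finset.mem_product, Finset.mem_Ioo] at hx
      have e : n = (n - 1) + 1 := by omega
      have h4 : 1 ≤ (phi^[1] x).2.length := by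
        rw [Function.iterate_one]
        exact ring_good hb2 hx.2.1.1 hx.2.1.2 hx.1
      have := good_of h4 (n - 1)
      rwa [← e] at this) (tent J R)
    refine ⟨dl u + h, (FS_dl u).add h1, ?_, ?_⟩
    · rw [add_sub_cancel_left]
      refine h3.mono ?_
      have h4 : (2 : ℝ) ^ m ≤ 2 ^ (n - 1) := pow_le_pow_right₀ (by norm_num) (by omega)
      have h5 : K / ε < 2 ^ (n - 1) := hm.trans_le h4
      rw [div_lt_iff₀ hε] at h5
      push_cast
      rw [div_le_iff₀ (by positivity)]
      have h6 : ∑ x ∈ P, ‖tent J R x‖ ≤ P.card := by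
        refine (Finset.sum_le_sum (fun x _ => norm_tent_le x)).trans ?_
        simp
      linarith
    · have e : (fun v => (dl u + h) (phi^[n] v)) = tent J R := by
        funext y
        simp only [Pi.add_apply, h2]
        by_cases hy : y = z (b + 1)
        · subst hy
          have : z (b + 1) ∉ P := by simp [hP]
          simp only [this, if_false, hz]
          simp [dl, tent, dst, z, hJ]
        · have h4 : phi^[n] y ≠ u := by
            intro h4
            rw [← hz] at h4
            exact hy ((phi_injective.iterate n) h4)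
          simp only [dl, h4, if_false, zero_add]
          split_ifs with hyP
          · rfl
          · symm
            apply tent_zero hR
            rw [hP, Finset.mem_erase, Finset.mem_product, Finset.mem_Ioo, hWR,
              Set.Finite.mem_toFinset] at hyP
            by_contra hlt
            push Not at hlt
            simp only [dst] at hlt
            apply hyP
            refine ⟨hy, ⟨by omega, by omega⟩, ?_⟩
            simp only [Set.mem_ofPred_eq]
            omega
      rw [e]
      exact (NB_tent hR hJR).mono hRε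

lemma PB_finsupp (G : Vt →₀ ℂ) : PB (G : Vt → ℂ) := by
  classical
  induction G using Finsupp.induction_linear with
  | zero => simpa using PB_zero
  | add f g hf hg =>
    rw [Finsupp.coe_add]
    exact hf.add hg
  | single a b =>
    have e : ((Finsupp.single a b : Vt →₀ ℂ) : Vt → ℂ) = b • dl a := by
      funext v
      simp only [Pi.smul_apply, dl, smul_eq_mul, Finsupp.single_apply]
      by_cases h : a = v
      · subst h; simp
      · have h' : v ≠ a := fun h' => h h'.symm
        simp [h, h']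
    rw [e]
    exact (PB_dl a).smul b

lemma FS.PB {F : Vt → ℂ} (hF : FS F) : PB F :=
  PB_finsupp (Finsupp.ofSupportFinite F hF)

lemma trans_lemma {F G : Vt → ℂ} (hF : FS F) (hG : FS G) {ε δ : ℝ} (hε : 0 < ε) (hδ : 0 < δ) :
    ∃ (n : ℕ) (H : Vt → ℂ), FS H ∧ NB (H - F) δ ∧ NB (fun v => H (phi^[n] v) - G v) ε := by
  obtain ⟨n₁, h₁⟩ := hF.PB (min ε (δ / 2)) (lt_min hε (by positivity))
  obtain ⟨n₂, h₂⟩ := lemmaA hG (ε := δ / 2) (by positivity)
  obtain ⟨F', a1, a2, a3⟩ := h₁ (max n₁ n₂) (le_max_left _ _)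
  obtain ⟨h, b1, b2, b3⟩ := h₂ (max n₁ n₂) (le_max_right _ _)
  refine ⟨max n₁ n₂, F' + h, a1.add b1, ?_, ?_⟩
  · have e : F' + h - F = (F' - F) + h := by ring
    rw [e]
    have := (a2.mono (min_le_right _ _)).add b3
    rwa [add_halves] at this
  · have e : (fun v => (F' + h) (phi^[max n₁ n₂] v) - G v) = fun v => F' (phi^[max n₁ n₂] v) := by
      funext v
      simp only [Pi.add_apply, b2]; ring
    rw [e]
    exact a3.mono (min_le_left _ _)

end Pool.Agent.X197.LipTree
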