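import Mathlib
import Pool.Agent.X197.LipTree2

namespace Pool.Agent.X197.LipTree

open Filter Topology

/-! ### Countable family of finitely supported targets -/

noncomputable def val (n : ℕ) : ℂ := if n = 0 then 0 else TopologicalSpace.denseSeq ℂ (n - 1)

lemma exists_val (z : ℂ) {ε : ℝ} (hε : 0 < ε) : ∃ n, ‖val n - z‖ < ε := by
  obtain ⟨n, hn⟩ := (TopologicalSpace.denseRange_denseSeq ℂ).exists_dist_lt z hε
  refine ⟨n + 1, ?_⟩
  simp only [val, Nat.add_eq_zero_iff, one_ne_zero, and_false, if_false, Nat.add_sub_cancel]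
  rwa [dist_comm, dist_eq_norm] at hn

noncomputable def tgt (a : Vt →₀ ℕ) : Vt → ℂ := fun v => val (a v)

lemma FS_tgt (a : Vt →₀ ℕ) : FS (tgt a) :=
  FS.of_zero a.hasFiniteSupport (fun v hv => by
    rw [Function.notMem_support] at hv
    simp [tgt, hv, val])

lemma NB_of_le {f : Vt → ℂ} {ε : ℝ} (hε : 0 ≤ ε) (h : ∀ v, ‖f v‖ ≤ ε / 2) : NB f ε := by
  refine ⟨(h _).trans (by linarith), fun v => (norm_sub_le _ _).trans ?_⟩
  have := h v
  have := h (par v)
  linarith

lemma approx_FS {H : Vt → ℂ} (hH : FS H) {ε : ℝ} (hε : 0 < ε) :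
    ∃ a : Vt →₀ ℕ, NB (tgt a - H) ε := by
  classical
  choose c hc using fun v => exists_val (H v) (half_pos hε)
  have hfin : (Function.support (fun v => if H v = 0 then 0 else c v)).Finite := by
    refine hH.subset (fun v hv => ?_)
    rw [Function.mem_support] at hv ⊢
    intro h0
    exact hv (by simp [h0])
  refine ⟨Finsupp.ofSupportFinite _ hfin, NB_of_le hε.le (fun v => ?_)⟩
  have e : (Finsupp.ofSupportFinite _ hfin : Vt →₀ ℕ) v = if H v = 0 then 0 else c v := rfl
  simp only [Pi.sub_apply, tgt, e]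
  split_ifs with h0
  · simp [val, h0]; positivity
  · exact (hc v).le

/-! ### Truncation -/

def tr (M : ℕ) (v : Vt) : Vt := par^[size v - M] v

lemma tr_small {M : ℕ} {v : Vt} (h : size v ≤ M) : tr M v = v := by
  unfold tr
  rw [Nat.sub_eq_zero_of_le h]; rfl

lemma tr_par {M : ℕ} {v : Vt} (h : M < size v) : tr M (par v) = tr M v := by
  unfold tr
  rw [size_par]
  have e : size v - M = (size v - 1 - M) + 1 := by omega
  rw [e, Function.iterate_succ_apply]

lemma size_tr (M : ℕ) (v : Vt) : size (tr M v) ≤ M := by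
  unfold tr
  rw [size_iter]; omega

lemma approx_L0 {g : Vt → ℂ} (hg : T0.L0 g) {ε : ℝ} (hε : 0 < ε) : ∃ H, FS H ∧ NB (H - g) ε := by
  obtain ⟨M, hM⟩ := hg (ε / 2) (by positivity)
  simp only [depth_eq] at hM
  obtain ⟨B, hB⟩ : ∃ B : ℝ, ∀ v, size v ≤ M → ‖g v‖ ≤ B := by
    obtain ⟨B, hB⟩ := ((finite_size M).image (fun v => ‖g v‖)).bddAbove
    exact ⟨B, fun v hv => hB ⟨v, hv, rfl⟩⟩
  have hB0 : 0 ≤ B := (norm_nonneg _).trans (hB (0, []) (by simp [size]))
  obtain ⟨R', hR'⟩ := exists_nat_gt (2 * B / ε)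
  set R := R' + 1 with hR
  have hRpos : (0 : ℝ) < R := by rw [hR]; positivity
  have hRB : B * (1 / R) ≤ ε / 2 := by
    rw [div_lt_iff₀ hε] at hR'
    rw [mul_one_div, div_le_iff₀ hRpos]
    have : (R : ℝ) = R' + 1 := by rw [hR]; push_cast; ring
    rw [this]
    nlinarith
  set ψ : Vt → ℝ := fun v => max 0 (1 - ((size v - M : ℕ) : ℝ) / R) with hψ
  have hψ1 : ∀ v, size v ≤ M → ψ v = 1 := by
    intro v hv
    simp only [hψ]
    rw [Nat.sub_eq_zero_of_le hv]; simp
  have hψlip : ∀ v, |ψ v - ψ (par v)| ≤ 1 / R := by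
    intro v
    simp only [hψ]
    rw [max_comm 0, max_comm 0]
    refine (abs_max_sub_max_le_abs _ _ _).trans ?_
    have h1 : size v - M ≤ (size (par v) - M) + 1 := by rw [size_par]; omega
    have h2 : size (par v) - M ≤ (size v - M) + 1 := by rw [size_par]; omega
    have h1' : ((size v - M : ℕ) : ℝ) ≤ ((size (par v) - M : ℕ) : ℝ) + 1 := by exact_mod_cast h1
    have h2' : ((size (par v) - M : ℕ) : ℝ) ≤ ((size v - M : ℕ) : ℝ) + 1 := by exact_mod_cast h2
    rw [show (1 - ((size v - M : ℕ) : ℝ) / R) - (1 - ((size (par v) - M : ℕ) : ℝ) / R)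
        = (((size (par v) - M : ℕ) : ℝ) - ((size v - M : ℕ) : ℝ)) / R by ring, abs_div,
        abs_of_pos hRpos]
    apply div_le_div_of_nonneg_right _ hRpos.le
    rw [abs_le]; constructor <;> linarith
  refine ⟨fun v => g (tr M v) * (ψ v : ℂ), ?_, ?_, ?_⟩
  · refine FS.of_zero (finite_size (M + R)) ?_
    intro v hv
    simp only [Set.mem_ofPred_eq, not_le] at hv
    have : ψ v = 0 := by
      simp only [hψ]
      apply max_eq_left
      have h1 : R ≤ size v - M := by omega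
      have h2 : (R : ℝ) ≤ ((size v - M : ℕ) : ℝ) := by exact_mod_cast h1
      have : 1 ≤ ((size v - M : ℕ) : ℝ) / R := by rw [le_div_iff₀ hRpos]; linarith
      linarith
    simp [this]
  · have h0 : size (0, []) ≤ M := by simp [size]
    simp only [Pi.sub_apply, tr_small h0, hψ1 _ h0]
    simp
    positivity
  · intro v
    simp only [Pi.sub_apply]
    rcases le_or_gt (size v) M with hv | hv
    · have hv' : size (par v) ≤ M := by rw [size_par]; omega
      rw [tr_small hv, tr_small hv', hψ1 _ hv, hψ1 _ hv']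
      simp
      positivity
    · rw [tr_par hv]
      have e : g (tr M v) * (ψ v : ℂ) - g v - (g (tr M v) * (ψ (par v) : ℂ) - g (par v))
          = g (tr M v) * ((ψ v : ℂ) - (ψ (par v) : ℂ)) - (g v - g (par v)) := by ring
      rw [e]
      refine (norm_sub_le _ _).trans ?_
      rw [norm_mul, ← Complex.ofReal_sub, Complex.norm_real, Real.norm_eq_abs]
      have h1 : ‖g (tr M v)‖ * |ψ v - ψ (par v)| ≤ B * (1 / R) :=
        mul_le_mul (hB _ (size_tr M v)) (hψlip v) (abs_nonneg _) hB0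
      have h2 : ‖g v - g (par v)‖ < ε / 2 := hM v hv.le
      linarith

lemma dense_tgt {g : Vt → ℂ} (hg : T0.L0 g) {ε : ℝ} (hε : 0 < ε) :
    ∃ a : Vt →₀ ℕ, NB (tgt a - g) ε := by
  obtain ⟨H, h1, h2⟩ := approx_L0 hg (half_pos hε)
  obtain ⟨a, ha⟩ := approx_FS h1 (half_pos hε)
  refine ⟨a, ?_⟩
  have := ha.add h2
  rw [add_halves] at this
  have e : tgt a - g = (tgt a - H) + (H - g) := by ring
  rwa [e]

/-! ### The hypercyclic vector -/

structure St where
  f : Vt → ℂ
  d : ℝ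
  fs : FS f
  pos : 0 < d

lemma next_exists (t : (Vt →₀ ℕ) × ℕ) (s : St) : ∃ (s' : St) (n : ℕ),
    NB (s'.f - s.f) (s.d / 2) ∧ s'.d ≤ s.d / 2 ∧
    NB (fun v => s'.f (phi^[n] v) - tgt t.1 v) (1 / (t.2 + 1) / 2) ∧
    3 ^ n * s'.d ≤ 1 / (t.2 + 1) / 2 := by
  have htol : (0 : ℝ) < 1 / (t.2 + 1) / 2 := by positivity
  obtain ⟨n, H, h1, h2, h3⟩ := trans_lemma s.fs (FS_tgt t.1) htol (half_pos s.pos)
  have hpos : (0 : ℝ) < (1 / (t.2 + 1) / 2) / 3 ^ n := by positivity
  refine ⟨⟨H, min (s.d / 2) ((1 / (t.2 + 1) / 2) / 3 ^ n), h1, lt_min (half_pos s.pos) hpos⟩, n,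
    h2, min_le_left _ _, h3, ?_⟩
  simp only
  calc (3 : ℝ) ^ n * min (s.d / 2) ((1 / (t.2 + 1) / 2) / 3 ^ n)
      ≤ 3 ^ n * ((1 / (t.2 + 1) / 2) / 3 ^ n) :=
        mul_le_mul_of_nonneg_left (min_le_right _ _) (by positivity)
    _ = 1 / (t.2 + 1) / 2 := by field_simp

lemma NB_tendsto {f : ℕ → Vt → ℂ} {F g : Vt → ℂ} {C : ℝ} {k : ℕ}
    (hF : ∀ v, Tendsto (fun l => f l v) atTop (𝓝 (F v)))
    (h : ∀ l, k ≤ l → NB (f l - g) C) : NB (F - g) C := by
  refine ⟨?_, fun v => ?_⟩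
  · have h1 : Tendsto (fun l => ‖f l (0, []) - g (0, [])‖) atTop (𝓝 ‖F (0, []) - g (0, [])‖) :=
      ((hF _).sub_const _).norm
    refine le_of_tendsto h1 ?_
    filter_upwards [eventually_ge_atTop k] with l hl
    exact (h l hl).1
  · have h1 : Tendsto (fun l => ‖(f l v - g v) - (f l (par v) - g (par v))‖) atTop
        (𝓝 ‖(F v - g v) - (F (par v) - g (par v))‖) :=
      (((hF _).sub_const _).sub ((hF _).sub_const _)).norm
    refine le_of_tendsto h1 ?_
    filter_upwards [eventually_ge_atTop k] with l hl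
    exact (h l hl).2 v

theorem exists_hypercyclic : ∃ F : Vt → ℂ, T0.L0 F ∧
    ∀ g, T0.L0 g → ∀ ε : ℝ, 0 < ε → ∃ n : ℕ, NB (fun v => F (phi^[n] v) - g v) ε := by
  obtain ⟨e, he⟩ := exists_surjective_nat ((Vt →₀ ℕ) × ℕ)
  choose nx nn h1 h2 h3 h4 using next_exists
  set sq : ℕ → St := fun k => Nat.rec ⟨0, 1, FS_zero, one_pos⟩ (fun k s => nx (e k) s) k with hsq
  have hs : ∀ k, sq (k + 1) = nx (e k) (sq k) := fun k => rfl
  have g1 : ∀ k, NB ((sq (k + 1)).f - (sq k).f) ((sq k).d / 2) := fun k => by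
    rw [hs]; exact h1 _ _
  have g2 : ∀ k, (sq (k + 1)).d ≤ (sq k).d / 2 := fun k => by
    rw [hs]; exact h2 _ _
  have g3 : ∀ k, NB (fun v => (sq (k + 1)).f (phi^[nn (e k) (sq k)] v) - tgt (e k).1 v)
      (1 / ((e k).2 + 1) / 2) := fun k => by
    rw [hs]; exact h3 _ _
  have g4 : ∀ k, 3 ^ (nn (e k) (sq k)) * (sq (k + 1)).d ≤ 1 / ((e k).2 + 1) / 2 := fun k => by
    rw [hs]; exact h4 _ _
  clear_value sq
  have hd : ∀ k, (sq k).d ≤ (sq 0).d * (1 / 2) ^ k := by
    intro k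
    induction k with
    | zero => simp
    | succ k ih =>
      have := g2 k
      rw [pow_succ]
      linarith
  have htel : ∀ k i, NB ((sq (k + i)).f - (sq k).f) ((sq k).d - (sq (k + i)).d) := by
    intro k i
    induction i with
    | zero =>
      simp only [add_zero, sub_self]
      exact NB_zero le_rfl
    | succ i ih =>
      have h5 := (g1 (k + i)).add ih
      have e1 : (sq (k + (i + 1))).f - (sq k).f
          = ((sq (k + i + 1)).f - (sq (k + i)).f) + ((sq (k + i)).f - (sq k).f) := by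
        rw [← add_assoc]; ring
      rw [e1]
      refine h5.mono ?_
      have := g2 (k + i)
      rw [← add_assoc]
      linarith
  have htel' : ∀ k l, k ≤ l → NB ((sq l).f - (sq k).f) (sq k).d := by
    intro k l hkl
    obtain ⟨i, rfl⟩ := Nat.exists_eq_add_of_le hkl
    exact (htel k i).mono (by linarith [(sq (k + i)).pos])
  have hlim : ∀ v, ∃ L, Tendsto (fun l => (sq l).f v) atTop (𝓝 L) := by
    intro v
    apply cauchySeq_tendsto_of_complete
    refine cauchySeq_of_le_geometric (1 / 2) ((size v + 1) * (sq 0).d) (by norm_num) ?_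
    intro k
    rw [dist_comm, dist_eq_norm]
    have h5 := (g1 k).value v
    simp only [Pi.sub_apply] at h5
    refine h5.trans ?_
    have h6 := hd k
    have h7 := (sq k).pos
    rw [mul_assoc]
    apply mul_le_mul_of_nonneg_left _ (by positivity)
    linarith
  choose F hF using hlim
  have hFk : ∀ k, NB (F - (sq k).f) (sq k).d := fun k => NB_tendsto hF (htel' k)
  refine ⟨F, ?_, ?_⟩
  · intro ε hε
    obtain ⟨k, hk⟩ : ∃ k, (sq 0).d * (1 / 2 : ℝ) ^ k < ε := by
      have h5 : Tendsto (fun k : ℕ => (sq 0).d * (1 / 2 : ℝ) ^ k) atTop (𝓝 ((sq 0).d * 0)) :=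
        (tendsto_pow_atTop_nhds_zero_of_lt_one (by norm_num) (by norm_num)).const_mul _
      rw [mul_zero] at h5
      exact (h5.eventually (gt_mem_nhds hε)).exists
    obtain ⟨N, hN⟩ : ∃ N, ∀ v, (sq k).f v ≠ 0 → size v ≤ N := by
      obtain ⟨N, hN⟩ := ((sq k).fs.image size).bddAbove
      exact ⟨N, fun v hv => hN ⟨v, hv, rfl⟩⟩
    refine ⟨N + 2, fun v hv => ?_⟩
    rw [depth_eq] at hv
    have e1 : (sq k).f v = 0 := by
      by_contra h0
      have := hN v h0
      omega
    have e2 : (sq k).f (par v) = 0 := by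
      by_contra h0
      have := hN (par v) h0
      rw [size_par] at this
      omega
    have h5 := (hFk k).2 v
    simp only [Pi.sub_apply, e1, e2, sub_zero] at h5
    exact h5.trans_lt ((hd k).trans_lt hk)
  · intro g hg ε hε
    obtain ⟨a, ha⟩ := dense_tgt hg (half_pos hε)
    obtain ⟨m, hm⟩ := exists_nat_one_div_lt (half_pos hε)
    obtain ⟨k, hk⟩ := he (a, m)
    refine ⟨nn (e k) (sq k), ?_⟩
    have h5 := g3 k
    have h6 := (hFk (k + 1)).iter (nn (e k) (sq k))
    have h7 := h6.mono (g4 k)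
    have h8 := (h7.add h5).add (ha)
    rw [hk] at h8
    have e3 : (fun v => F (phi^[nn (e k) (sq k)] v) - g v) =
        ((fun v => (F - (sq (k + 1)).f) (phi^[nn (a, m) (sq k)] v)) +
          fun v => (sq (k + 1)).f (phi^[nn (a, m) (sq k)] v) - tgt (a, m).1 v) + (tgt a - g) := by
      funext v
      simp only [Pi.add_apply, Pi.sub_apply, hk]
      ring
    rw [e3]
    refine h8.mono ?_
    simp only
    linarith

/-! ### The norm -/

lemma T0_root : T0.root = (0, []) := rfl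
lemma T0_par : T0.par = par := rfl

lemma norm_le_of_NB {f : Vt → ℂ} {C : ℝ} (h : NB f C) : T0.norm f ≤ C := by
  unfold RTree.norm
  apply max_le h.1
  exact Real.iSup_le (fun v => h.2 v.1) h.nonneg

lemma NB_norm {f : Vt → ℂ} (hf : T0.L0 f) : NB f (T0.norm f) := by
  have hbdd : BddAbove (Set.range fun v : {v : Vt // v ≠ T0.root} => ‖f v.1 - f (T0.par v.1)‖) := by
    obtain ⟨N, hN⟩ := hf 1 one_pos
    obtain ⟨B, hB⟩ := ((finite_size N).image (fun v => ‖f v - f (par v)‖)).bddAbove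
    refine ⟨max B 1, ?_⟩
    rintro _ ⟨v, rfl⟩
    rcases le_or_gt (size v.1) N with h | h
    · exact (hB ⟨v.1, h, rfl⟩).trans (le_max_left _ _)
    · have := hN v.1 (by rw [depth_eq]; exact h.le)
      exact this.le.trans (le_max_right _ _)
  refine ⟨le_max_left _ _, fun v => ?_⟩
  by_cases hv : v = (0, [])
  · subst hv
    rw [par_nil]
    simp only [Nat.zero_sub, sub_self, norm_zero]
    exact le_max_of_le_left (norm_nonneg _)
  · exact (le_ciSup hbdd ⟨v, hv⟩).trans (le_max_right _ _)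

lemma L0_comp {f : Vt → ℂ} (hf : T0.L0 f) : T0.L0 (fun v => f (phi v)) := by
  intro ε hε
  obtain ⟨N, hN⟩ := hf (ε / 6) (by positivity)
  refine ⟨2 * N + 2, fun v hv => ?_⟩
  rw [depth_eq] at hv
  have h1 := step_local (f := f) (B := ε / 6) (by positivity) v (fun u hu => by
    have := hN u (by rw [depth_eq]; omega)
    exact this.le)
  show ‖f (phi v) - f (phi (par v))‖ < ε
  linarith

theorem bounded : T0.BoundedOn (fun f v => f (phi v)) :=
  ⟨fun _ hf => L0_comp hf, 3, fun _ hf => norm_le_of_NB (NB_norm hf).comp⟩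

lemma iter_comp (c : ℂ) (hc : c = 1) (f : Vt → ℂ) (n : ℕ) :
    (fun (f : Vt → ℂ) v => c * f (phi v))^[n] f = fun v => f (phi^[n] v) := by
  subst hc
  induction n with
  | zero => rfl
  | succ n ih =>
    rw [Function.iterate_succ_apply', ih]
    funext v
    simp [Function.iterate_succ_apply]

theorem hypercyclic : T0.Hypercyclic (fun f v => (1 : ℂ) * f (phi v)) := by
  obtain ⟨F, hF, h⟩ := exists_hypercyclic
  refine ⟨F, hF, fun g hg ε hε => ?_⟩
  obtain ⟨n, hn⟩ := h g hg (ε / 2) (by positivity)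
  refine ⟨n, ?_⟩
  rw [iter_comp 1 rfl]
  have h1 : T0.norm ((fun v => F (phi^[n] v)) - g) ≤ ε / 2 := norm_le_of_NB hn
  linarith

theorem infinite_backward : {n : ℕ | 1 ≤ n ∧ ∃ w, phi^[n] w = z 0}.Infinite := by
  refine (Set.Ici_infinite 1).mono ?_
  intro n hn
  exact ⟨hn, z (0 + n), iter_z n 0⟩

end Pool.Agent.X197.LipTree
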