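import Mathlib

namespace Pool.Agent.X197.Cheb

open Filter Topology Set
open scoped ContDiff

/-- partial derivative in the first variable -/
noncomputable def du (f : ℝ × ℝ → ℂ) (p : ℝ × ℝ) : ℂ := fderiv ℝ f p (1, 0)
/-- partial derivative in the second variable -/
noncomputable def dv (f : ℝ × ℝ → ℂ) (p : ℝ × ℝ) : ℂ := fderiv ℝ f p (0, 1)

/-- doubly periodic functions -/
def DP {X : Type} (F : ℝ × ℝ → X) : Prop :=
  (∀ y, Function.Periodic (fun x => F (x, y)) (2 * Real.pi)) ∧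
  (∀ x, Function.Periodic (fun y => F (x, y)) (2 * Real.pi))

lemma DP.comp {X Y : Type} {F : ℝ × ℝ → X} (h : DP F) (G : X → Y) : DP (fun p => G (F p)) :=
  ⟨fun y x => congrArg G (h.1 y x), fun x y => congrArg G (h.2 x y)⟩

lemma DP.comp₂ {X Y Z : Type} {F : ℝ × ℝ → X} {F' : ℝ × ℝ → Y} (h : DP F) (h' : DP F')
    (G : X → Y → Z) : DP (fun p => G (F p) (F' p)) :=
  ⟨fun y x => by
    have h1 := h.1 y x
    have h2 := h'.1 y x
    simp only at h1 h2 ⊢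
    rw [h1, h2], fun x y => by
    have h1 := h.2 x y
    have h2 := h'.2 x y
    simp only at h1 h2 ⊢
    rw [h1, h2]⟩

lemma DP.exists_max {F : ℝ × ℝ → ℝ} (h : DP F) (hc : Continuous F) : ∃ p0, ∀ p, F p ≤ F p0 := by
  have hK : IsCompact (Icc (0 : ℝ) (2 * Real.pi) ×ˢ Icc (0 : ℝ) (2 * Real.pi)) :=
    isCompact_Icc.prod isCompact_Icc
  have hne : (Icc (0 : ℝ) (2 * Real.pi) ×ˢ Icc (0 : ℝ) (2 * Real.pi)).Nonempty :=
    ⟨(0, 0), ⟨by simp [Real.pi_pos.le], by simp [Real.pi_pos.le]⟩⟩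
  obtain ⟨p0, hp0, hmax⟩ := hK.exists_isMaxOn hne hc.continuousOn
  refine ⟨p0, fun p => ?_⟩
  obtain ⟨x, y⟩ := p
  obtain ⟨x', hx', h1⟩ := (h.1 y).exists_mem_Ico₀ Real.two_pi_pos x
  obtain ⟨y', hy', h2⟩ := (h.2 x').exists_mem_Ico₀ Real.two_pi_pos y
  rw [h1, h2]
  exact hmax ⟨Ico_subset_Icc_self hx', Ico_subset_Icc_self hy'⟩

lemma DP.exists_min {F : ℝ × ℝ → ℝ} (h : DP F) (hc : Continuous F) : ∃ p0, ∀ p, F p0 ≤ F p := by
  obtain ⟨p0, hp0⟩ := (h.comp (fun t => -t)).exists_max hc.neg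
  exact ⟨p0, fun p => neg_le_neg_iff.mp (hp0 p)⟩

lemma DP.fder {F : ℝ × ℝ → ℂ} (h : DP F) : DP (fderiv ℝ F) := by
  constructor
  · intro y x
    have h1 : (fun p : ℝ × ℝ => F (p + (2 * Real.pi, 0))) = F := by
      funext p
      obtain ⟨x, y⟩ := p
      have := h.1 y x
      simpa using this
    have h2 := fderiv_comp_add_right (𝕜 := ℝ) (f := F) (x := (x, y)) ((2 * Real.pi, 0) : ℝ × ℝ)
    rw [h1] at h2
    simp only
    rw [h2]
    simp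
  · intro x y
    have h1 : (fun p : ℝ × ℝ => F (p + (0, 2 * Real.pi))) = F := by
      funext p
      obtain ⟨x, y⟩ := p
      have := h.2 x y
      simpa using this
    have h2 := fderiv_comp_add_right (𝕜 := ℝ) (f := F) (x := (x, y)) ((0, 2 * Real.pi) : ℝ × ℝ)
    rw [h1] at h2
    simp only
    rw [h2]
    simp

lemma du_contDiff {f : ℝ × ℝ → ℂ} (hf : ContDiff ℝ ∞ f) : ContDiff ℝ ∞ (du f) := by
  unfold du
  exact (hf.fderiv_right (m := ∞) (by simp)).clm_apply contDiff_const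

lemma dv_contDiff {f : ℝ × ℝ → ℂ} (hf : ContDiff ℝ ∞ f) : ContDiff ℝ ∞ (dv f) := by
  unfold dv
  exact (hf.fderiv_right (m := ∞) (by simp)).clm_apply contDiff_const

/-- algebraic identity for the main term of a convex integration step -/
lemma main_sq {z : ℂ} {q a c : ℝ} (ha : a ^ 2 = q) :
    ‖z + ((Real.sqrt 2 * a : ℝ) : ℂ) * Complex.I * z * (c : ℂ)
      - 2 * (((q / 4 : ℝ) : ℂ) * z) * ((2 * c ^ 2 - 1 : ℝ) : ℂ)‖ ^ 2
      = ‖z‖ ^ 2 * (1 + q + q ^ 2 / 4 * (2 * c ^ 2 - 1) ^ 2) := by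
  have h1 : z + ((Real.sqrt 2 * a : ℝ) : ℂ) * Complex.I * z * (c : ℂ)
      - 2 * (((q / 4 : ℝ) : ℂ) * z) * ((2 * c ^ 2 - 1 : ℝ) : ℂ)
      = z * (((1 - q / 2 * (2 * c ^ 2 - 1) : ℝ) : ℂ) + ((Real.sqrt 2 * a * c : ℝ) : ℂ) * Complex.I) := by
    push_cast
    ring
  rw [h1, norm_mul, mul_pow]
  congr 1
  rw [Complex.sq_norm, Complex.normSq_add_mul_I]
  have h2 : Real.sqrt 2 ^ 2 = 2 := Real.sq_sqrt (by norm_num)
  have h3 : (Real.sqrt 2 * a * c) ^ 2 = 2 * q * c ^ 2 := by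
    rw [mul_pow, mul_pow, h2, ha]
  rw [h3]
  ring

lemma norm_sq_sub_le {z w : ℂ} {e : ℝ} (h : ‖w - z‖ ≤ e) (hz : ‖z‖ ≤ 1) (he : e ≤ 1) :
    ‖w‖ ^ 2 ≤ ‖z‖ ^ 2 + 3 * e ∧ ‖z‖ ^ 2 - 3 * e ≤ ‖w‖ ^ 2 := by
  have h1 : ‖w‖ ≤ ‖z‖ + e := by
    have := norm_add_le (w - z) z
    rw [sub_add_cancel] at this
    linarith
  have h2 : ‖z‖ ≤ ‖w‖ + e := by
    have := norm_add_le (z - w) w
    rw [sub_add_cancel, norm_sub_rev] at this
    linarith
  have h0 : 0 ≤ e := (norm_nonneg _).trans h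
  have hz0 := norm_nonneg z
  have hw0 := norm_nonneg w
  constructor
  · nlinarith
  · nlinarith

end Pool.Agent.X197.Cheb
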