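import Mathlib
import Pool.Agent.X197.ChebA

namespace Pool.Agent.X197.Cheb

open Filter Topology Set
open scoped ContDiff

section Corr

variable {A B : ℝ × ℝ → ℂ}

/-- the corrugation -/
noncomputable def corr (A B : ℝ × ℝ → ℂ) (n : ℕ) (p : ℝ × ℝ) : ℂ :=
  (1 / (n : ℂ)) * (A p * ((Real.sin (n * p.1) : ℝ) : ℂ) - B p * ((Real.sin (2 * (n * p.1)) : ℝ) : ℂ))

lemma corr_contDiff (hA : ContDiff ℝ ∞ A) (hB : ContDiff ℝ ∞ B) (n : ℕ) :
    ContDiff ℝ ∞ (corr A B n) := by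
  have h1 : ContDiff ℝ ∞ (fun p : ℝ × ℝ => ((Real.sin (n * p.1) : ℝ) : ℂ)) :=
    Complex.ofRealCLM.contDiff.comp (Real.contDiff_sin.comp (contDiff_const.mul contDiff_fst))
  have h2 : ContDiff ℝ ∞ (fun p : ℝ × ℝ => ((Real.sin (2 * (n * p.1)) : ℝ) : ℂ)) :=
    Complex.ofRealCLM.contDiff.comp (Real.contDiff_sin.comp
      (contDiff_const.mul (contDiff_const.mul contDiff_fst)))
  exact contDiff_const.mul ((hA.mul h1).sub (hB.mul h2))

lemma corr_DP (hA : DP A) (hB : DP B) (n : ℕ) : DP (corr A B n) := by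
  have h1 : DP (fun p : ℝ × ℝ => Real.sin (n * p.1)) := by
    constructor
    · intro y x
      change Real.sin (n * (x + 2 * Real.pi)) = Real.sin (n * x)
      rw [mul_add, Real.sin_add_nat_mul_two_pi]
    · intro x y
      rfl
  have h2 : DP (fun p : ℝ × ℝ => Real.sin (2 * (n * p.1))) := by
    constructor
    · intro y x
      change Real.sin (2 * (n * (x + 2 * Real.pi))) = Real.sin (2 * (n * x))
      have : 2 * (n * (x + 2 * Real.pi)) = 2 * (n * x) + ((2 * n : ℕ) : ℝ) * (2 * Real.pi) := by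
        push_cast; ring
      rw [this, Real.sin_add_nat_mul_two_pi]
    · intro x y
      rfl
  have h3 := (hA.comp₂ h1 (fun a s => a * ((s : ℝ) : ℂ))).comp₂ (hB.comp₂ h2 (fun a s => a * ((s : ℝ) : ℂ)))
    (fun a b => (1 / (n : ℂ)) * (a - b))
  exact h3

lemma corr_fderiv (hA : ContDiff ℝ ∞ A) (hB : ContDiff ℝ ∞ B) {n : ℕ} (hn : 0 < n)
    (p w : ℝ × ℝ) :
    fderiv ℝ (corr A B n) p w =
      (1 / (n : ℂ)) * (fderiv ℝ A p w * ((Real.sin (n * p.1) : ℝ) : ℂ)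
        - fderiv ℝ B p w * ((Real.sin (2 * (n * p.1)) : ℝ) : ℂ))
      + (w.1 : ℂ) * (A p * ((Real.cos (n * p.1) : ℝ) : ℂ)
        - 2 * B p * ((Real.cos (2 * (n * p.1)) : ℝ) : ℂ)) := by
  have hn' : (n : ℂ) ≠ 0 := by exact_mod_cast hn.ne'
  have hA' : HasFDerivAt A (fderiv ℝ A p) p :=
    (hA.differentiable (by simp) p).hasFDerivAt
  have hB' : HasFDerivAt B (fderiv ℝ B p) p :=
    (hB.differentiable (by simp) p).hasFDerivAt
  have hs : ∀ k : ℝ, HasFDerivAt (fun p : ℝ × ℝ => ((Real.sin (k * p.1) : ℝ) : ℂ))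
      (Complex.ofRealCLM.comp ((Real.cos (k * p.1)) • (k • ContinuousLinearMap.fst ℝ ℝ ℝ))) p := by
    intro k
    have h1 : HasFDerivAt (fun p : ℝ × ℝ => k * p.1) (k • ContinuousLinearMap.fst ℝ ℝ ℝ) p :=
      hasFDerivAt_fst.const_mul k
    exact Complex.ofRealCLM.hasFDerivAt.comp p h1.sin
  have h2 := hs (2 * n)
  have e2 : (fun p : ℝ × ℝ => ((Real.sin ((2 * n) * p.1) : ℝ) : ℂ))
      = fun p : ℝ × ℝ => ((Real.sin (2 * (n * p.1)) : ℝ) : ℂ) := by
    funext p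
    rw [mul_assoc]
  rw [e2, mul_assoc] at h2
  have h := ((hA'.mul (hs n)).sub (hB'.mul h2)).const_mul (1 / (n : ℂ))
  have e : (fun y => 1 / (n : ℂ) * ((A y * ((Real.sin (n * y.1) : ℝ) : ℂ)) - (B y * ((Real.sin (2 * (n * y.1)) : ℝ) : ℂ)))) = corr A B n := rfl
  have h' : HasFDerivAt (corr A B n) _ p := h
  rw [h'.fderiv]
  simp only [smul_apply, add_apply, sub_apply, ContinuousLinearMap.comp_apply,
    ContinuousLinearMap.coe_fst', smul_eq_mul, Complex.ofRealCLM_apply]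
  push_cast
  field_simp
  ring

end Corr

end Pool.Agent.X197.Cheb
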