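import Mathlib
import Pool.Agent.X197.ChebB

namespace Pool.Agent.X197.Cheb

open Filter Topology Set
open scoped ContDiff

/-- strictly short in both coordinate directions, with periodic derivative -/
def Good (f : ℝ × ℝ → ℂ) : Prop :=
  ContDiff ℝ ∞ f ∧ DP (fderiv ℝ f) ∧ (∀ p, 1 / 2 < ‖du f p‖ ^ 2 ∧ ‖du f p‖ ^ 2 < 1) ∧
    (∀ p, 1 / 2 < ‖dv f p‖ ^ 2 ∧ ‖dv f p‖ ^ 2 < 1)

lemma dp_du {f : ℝ × ℝ → ℂ} (h : DP (fderiv ℝ f)) : DP (du f) := h.comp (fun L => L (1, 0))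
lemma dp_dv {f : ℝ × ℝ → ℂ} (h : DP (fderiv ℝ f)) : DP (dv f) := h.comp (fun L => L (0, 1))

lemma exists_bound {F : ℝ × ℝ → ℂ} (h : DP F) (hc : Continuous F) : ∃ C : ℝ, ∀ p, ‖F p‖ ≤ C := by
  obtain ⟨p0, hp0⟩ := (h.comp (fun z => ‖z‖)).exists_max hc.norm
  exact ⟨_, hp0⟩

theorem stage_u {f : ℝ × ℝ → ℂ} (hf : Good f) {s : ℝ} (hs : 0 ≤ s)
    (hM : ∀ p, 1 - ‖du f p‖ ^ 2 ≤ s ^ 2) {ε : ℝ} (hε : 0 < ε) :
    ∃ g, Good g ∧ (∀ p, 1 - ‖du g p‖ ^ 2 ≤ s ^ 2 / 4 + ε) ∧ (∀ p, ‖du g p - du f p‖ ≤ 2 * s + ε) ∧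
      (∀ p, ‖dv g p - dv f p‖ ≤ ε) ∧ ∀ p, ‖g p - f p‖ ≤ ε := by
  obtain ⟨hsm, hper, h1, h2⟩ := hf
  have hducd := du_contDiff hsm
  have hdvcd := dv_contDiff hsm
  have hm : ContDiff ℝ ∞ (fun p => ‖du f p‖ ^ 2) := (contDiff_norm_sq ℝ).comp hducd
  have hm0 : ∀ p, ‖du f p‖ ^ 2 ≠ 0 := fun p => by have := (h1 p).1; linarith
  set q : ℝ × ℝ → ℝ := fun p => 3 / 4 * (1 - ‖du f p‖ ^ 2) / ‖du f p‖ ^ 2 with hq
  have hqpos : ∀ p, 0 < q p := fun p => by
    have := h1 p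
    simp only [hq]
    apply div_pos <;> nlinarith [this.1, this.2]
  have hqcd : ContDiff ℝ ∞ q := ((contDiff_const.mul (contDiff_const.sub hm))).div hm hm0
  have hacd : ContDiff ℝ ∞ (fun p => Real.sqrt (q p)) := hqcd.sqrt (fun p => (hqpos p).ne')
  set A : ℝ × ℝ → ℂ := fun p => ((Real.sqrt 2 * Real.sqrt (q p) : ℝ) : ℂ) * Complex.I * du f p with hA
  set B : ℝ × ℝ → ℂ := fun p => ((q p / 4 : ℝ) : ℂ) * du f p with hB
  have hAcd : ContDiff ℝ ∞ A :=
    ((Complex.ofRealCLM.contDiff.comp (contDiff_const.mul hacd)).mul contDiff_const).mul hducd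
  have hBcd : ContDiff ℝ ∞ B :=
    (Complex.ofRealCLM.contDiff.comp (hqcd.div_const 4)).mul hducd
  have hAper : DP A := (dp_du hper).comp (fun z => ((Real.sqrt 2 *
    Real.sqrt (3 / 4 * (1 - ‖z‖ ^ 2) / ‖z‖ ^ 2) : ℝ) : ℂ) * Complex.I * z)
  have hBper : DP B := (dp_du hper).comp (fun z => ((3 / 4 * (1 - ‖z‖ ^ 2) / ‖z‖ ^ 2 / 4 : ℝ) : ℂ) * z)
  -- bounds
  obtain ⟨C1, hC1⟩ := exists_bound hAper hAcd.continuous
  obtain ⟨C2, hC2⟩ := exists_bound hBper hBcd.continuous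
  obtain ⟨C3, hC3⟩ := exists_bound (dp_du hAper.fder) (du_contDiff hAcd).continuous
  obtain ⟨C4, hC4⟩ := exists_bound (dp_du hBper.fder) (du_contDiff hBcd).continuous
  obtain ⟨C5, hC5⟩ := exists_bound (dp_dv hAper.fder) (dv_contDiff hAcd).continuous
  obtain ⟨C6, hC6⟩ := exists_bound (dp_dv hBper.fder) (dv_contDiff hBcd).continuous
  have hC1' := (norm_nonneg _).trans (hC1 0)
  have hC2' := (norm_nonneg _).trans (hC2 0)
  have hC3' := (norm_nonneg _).trans (hC3 0)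
  have hC4' := (norm_nonneg _).trans (hC4 0)
  have hC5' := (norm_nonneg _).trans (hC5 0)
  have hC6' := (norm_nonneg _).trans (hC6 0)
  set C := C1 + C2 + C3 + C4 + C5 + C6 with hC
  have hC0 : 0 ≤ C := by positivity
  -- minima
  obtain ⟨pu, hpu⟩ := (dp_du hper).comp (fun z => 1 - ‖z‖ ^ 2) |>.exists_min
    (continuous_const.sub hm.continuous)
  obtain ⟨pv, hpv⟩ := (dp_dv hper).comp (fun z => 1 - ‖z‖ ^ 2) |>.exists_min
    (continuous_const.sub (hdvcd.continuous.norm.pow 2))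
  obtain ⟨pw, hpw⟩ := (dp_dv hper).comp (fun z => ‖z‖ ^ 2 - 1 / 2) |>.exists_min
    ((hdvcd.continuous.norm.pow 2).sub continuous_const)
  obtain ⟨px, hpx⟩ := (dp_du hper).comp (fun z => ‖z‖ ^ 2 - 1 / 2) |>.exists_min
    (hm.continuous.sub continuous_const)
  set mu := 1 - ‖du f pu‖ ^ 2 with hmu
  set mv := 1 - ‖dv f pv‖ ^ 2 with hmv
  set mw := ‖dv f pw‖ ^ 2 - 1 / 2 with hmw
  set mx := ‖du f px‖ ^ 2 - 1 / 2 with hmx
  have hmu0 : 0 < mu := by have := (h1 pu).2; linarith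
  have hmv0 : 0 < mv := by have := (h2 pv).2; linarith
  have hmw0 : 0 < mw := by have := (h2 pw).1; linarith
  have hmx0 : 0 < mx := by have := (h1 px).1; linarith
  set η := min (min (min mu mv) (min mw mx)) (min ε 1) with hη
  have hη0 : 0 < η := by
    rw [hη]
    exact lt_min (lt_min (lt_min hmu0 hmv0) (lt_min hmw0 hmx0)) (lt_min hε one_pos)
  have hημ : η ≤ mu := (min_le_left _ _).trans ((min_le_left _ _).trans (min_le_left _ _))
  have hηv : η ≤ mv := (min_le_left _ _).trans ((min_le_left _ _).trans (min_le_right _ _))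
  have hηw : η ≤ mw := (min_le_left _ _).trans ((min_le_right _ _).trans (min_le_left _ _))
  have hηx : η ≤ mx := (min_le_left _ _).trans ((min_le_right _ _).trans (min_le_right _ _))
  have hηε : η ≤ ε := (min_le_right _ _).trans (min_le_left _ _)
  have hη1 : η ≤ 1 := (min_le_right _ _).trans (min_le_right _ _)
  -- choose n
  obtain ⟨n, hn⟩ := exists_nat_gt (100 * C / η)
  have hnpos : 0 < n := by
    have h0 : (0 : ℝ) ≤ 100 * C / η := by positivity
    exact_mod_cast lt_of_le_of_lt h0 hn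
  have hnR : (0 : ℝ) < n := by exact_mod_cast hnpos
  set e := C / n with he
  have he0 : 0 ≤ e := by positivity
  have heη : 100 * e ≤ η := by
    rw [div_lt_iff₀ hη0] at hn
    rw [he, ← mul_div_assoc, div_le_iff₀ hnR]
    nlinarith
  -- the new map
  set h := corr A B n with hh
  have hhcd : ContDiff ℝ ∞ h := corr_contDiff hAcd hBcd n
  have hhper : DP h := corr_DP hAper hBper n
  have hfd : ∀ p, fderiv ℝ (fun p => f p + h p) p = fderiv ℝ f p + fderiv ℝ h p := fun p =>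
    fderiv_fun_add (hsm.differentiable (by simp) p) (hhcd.differentiable (by simp) p)
  have hsin : ∀ x : ℝ, ‖((Real.sin x : ℝ) : ℂ)‖ ≤ 1 := fun x => by
    rw [Complex.norm_real, Real.norm_eq_abs]; exact Real.abs_sin_le_one x
  have hcos : ∀ x : ℝ, ‖((Real.cos x : ℝ) : ℂ)‖ ≤ 1 := fun x => by
    rw [Complex.norm_real, Real.norm_eq_abs]; exact Real.abs_cos_le_one x
  have hsmall : ∀ (X Y : ℂ) (x y : ℝ), ‖X‖ + ‖Y‖ ≤ C →
      ‖(1 / (n : ℂ)) * (X * ((Real.sin x : ℝ) : ℂ) - Y * ((Real.sin y : ℝ) : ℂ))‖ ≤ e := by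
    intro X Y x y hXY
    rw [norm_mul, norm_div, norm_one, Complex.norm_natCast]
    have h3 : ‖X * ((Real.sin x : ℝ) : ℂ) - Y * ((Real.sin y : ℝ) : ℂ)‖ ≤ C := by
      refine (norm_sub_le _ _).trans ?_
      rw [norm_mul, norm_mul]
      have := mul_le_of_le_one_right (norm_nonneg X) (hsin x)
      have := mul_le_of_le_one_right (norm_nonneg Y) (hsin y)
      linarith
    rw [he, one_div, inv_mul_eq_div]
    exact div_le_div_of_nonneg_right h3 hnR.le
  -- the main term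
  set Z : ℝ × ℝ → ℂ := fun p => du f p + A p * ((Real.cos (n * p.1) : ℝ) : ℂ)
    - 2 * B p * ((Real.cos (2 * (n * p.1)) : ℝ) : ℂ) with hZ
  have hdu : ∀ p, ‖du (fun p => f p + h p) p - Z p‖ ≤ e := by
    intro p
    have h3 : du (fun p => f p + h p) p - Z p
        = (1 / (n : ℂ)) * (du A p * ((Real.sin (n * p.1) : ℝ) : ℂ)
          - du B p * ((Real.sin (2 * (n * p.1)) : ℝ) : ℂ)) := by
      unfold du
      rw [hfd, add_apply, hh, corr_fderiv hAcd hBcd hnpos]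
      simp only [hZ, du]
      push_cast
      ring
    rw [h3]
    apply hsmall
    have := hC3 p
    have := hC4 p
    linarith
  have hdv : ∀ p, ‖dv (fun p => f p + h p) p - dv f p‖ ≤ e := by
    intro p
    have h3 : dv (fun p => f p + h p) p - dv f p
        = (1 / (n : ℂ)) * (dv A p * ((Real.sin (n * p.1) : ℝ) : ℂ)
          - dv B p * ((Real.sin (2 * (n * p.1)) : ℝ) : ℂ)) := by
      unfold dv
      rw [hfd, add_apply, hh, corr_fderiv hAcd hBcd hnpos]
      push_cast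
      ring
    rw [h3]
    apply hsmall
    have := hC5 p
    have := hC6 p
    linarith
  have hd0 : ∀ p, ‖(f p + h p) - f p‖ ≤ e := by
    intro p
    rw [add_sub_cancel_left, hh]
    unfold corr
    apply hsmall
    have := hC1 p
    have := hC2 p
    linarith
  have hqm : ∀ p, q p * ‖du f p‖ ^ 2 = 3 / 4 * (1 - ‖du f p‖ ^ 2) := by
    intro p
    simp only [hq]
    exact div_mul_cancel₀ _ (hm0 p)
  have hq_le : ∀ p, q p ≤ 3 / 2 * (1 - ‖du f p‖ ^ 2) := by
    intro p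
    have := h1 p
    have := hqm p
    have := hqpos p
    nlinarith
  have hZsq : ∀ p, ‖du f p‖ ^ 2 + 3 / 4 * (1 - ‖du f p‖ ^ 2) ≤ ‖Z p‖ ^ 2 ∧
      ‖Z p‖ ^ 2 ≤ 1 - 7 / 64 * (1 - ‖du f p‖ ^ 2) := by
    intro p
    have h3 := main_sq (z := du f p) (q := q p) (a := Real.sqrt (q p)) (c := Real.cos (n * p.1))
      (Real.sq_sqrt (hqpos p).le)
    have h4 : Z p = du f p + ((Real.sqrt 2 * Real.sqrt (q p) : ℝ) : ℂ) * Complex.I * du f p * ((Real.cos (n * p.1) : ℝ) : ℂ)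
      - 2 * (((q p / 4 : ℝ) : ℂ) * du f p) * ((2 * (Real.cos (n * p.1)) ^ 2 - 1 : ℝ) : ℂ) := by
      simp only [hZ, hA, hB]
      rw [Real.cos_two_mul]
    rw [h4, h3]
    have h5 := hqm p
    have h6 := h1 p
    have h7 := hq_le p
    have h8 := hqpos p
    set c2 := 2 * (Real.cos (n * p.1)) ^ 2 - 1 with hc2
    have hc2' : c2 ^ 2 ≤ 1 := by
      have := Real.cos_sq_le_one (n * p.1)
      have := sq_nonneg (Real.cos (n * p.1))
      rw [hc2]
      nlinarith
    have h9 : ‖du f p‖ ^ 2 * (1 + q p + q p ^ 2 / 4 * c2 ^ 2)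
        = ‖du f p‖ ^ 2 + 3 / 4 * (1 - ‖du f p‖ ^ 2)
          + 3 / 16 * (1 - ‖du f p‖ ^ 2) * q p * c2 ^ 2 := by
      linear_combination (1 + q p / 4 * c2 ^ 2) * h5
    rw [h9]
    set m := ‖du f p‖ ^ 2 with hmdef
    have h10 : 0 ≤ 3 / 16 * (1 - m) * q p := by
      have : 0 ≤ 1 - m := by linarith [h6.2]
      positivity
    have h11 : 0 ≤ c2 ^ 2 := sq_nonneg _
    have h12 : 3 / 16 * (1 - m) * q p ≤ 9 / 64 * (1 - m) := by
      have : q p ≤ 3 / 4 := by nlinarith [h6.1]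
      have : 0 ≤ 1 - m := by linarith [h6.2]
      nlinarith
    constructor
    · have := mul_nonneg h10 h11
      linarith
    · have := mul_le_mul_of_nonneg_left hc2' h10
      linarith
  have hZ1 : ∀ p, ‖Z p‖ ≤ 1 := by
    intro p
    have h3 := (hZsq p).2
    have h4 := (h1 p).2
    have h5 : ‖Z p‖ ^ 2 ≤ 1 := by linarith
    exact (sq_le_one_iff₀ (norm_nonneg _)).mp h5
  have he1 : e ≤ 1 := by linarith
  refine ⟨fun p => f p + h p, ⟨hsm.add hhcd, ?_, ?_, ?_⟩, ?_, ?_, ?_, ?_⟩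
  · have h3 : fderiv ℝ (fun p => f p + h p) = fun p => fderiv ℝ f p + fderiv ℝ h p := funext hfd
    rw [h3]
    exact hper.comp₂ hhper.fder (fun a b => a + b)
  · intro p
    have h3 := norm_sq_sub_le (hdu p) (hZ1 p) he1
    have h4 := hZsq p
    have h5 := hpu p
    have h6 := h1 p
    constructor
    · have : mu ≤ 1 - ‖du f p‖ ^ 2 := h5
      linarith [h3.2, h4.1]
    · have : mu ≤ 1 - ‖du f p‖ ^ 2 := h5
      linarith [h3.1, h4.2]
  · intro p
    have h5 : mv ≤ 1 - ‖dv f p‖ ^ 2 := hpv p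
    have h6 : mw ≤ ‖dv f p‖ ^ 2 - 1 / 2 := hpw p
    have h7 : ‖dv f p‖ ≤ 1 := (sq_le_one_iff₀ (norm_nonneg _)).mp (h2 p).2.le
    have h3 := norm_sq_sub_le (hdv p) h7 he1
    constructor
    · linarith [h3.2]
    · linarith [h3.1]
  · intro p
    have h3 := norm_sq_sub_le (hdu p) (hZ1 p) he1
    have h4 := hZsq p
    have h5 := hM p
    linarith [h3.2, h4.1]
  · intro p
    have h3 : ‖Z p - du f p‖ ≤ 2 * s := by
      have h4 : Z p - du f p = A p * ((Real.cos (n * p.1) : ℝ) : ℂ)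
        - 2 * B p * ((Real.cos (2 * (n * p.1)) : ℝ) : ℂ) := by
        simp only [hZ]; ring
      rw [h4]
      refine (norm_sub_le _ _).trans ?_
      have h5 := mul_le_of_le_one_right (norm_nonneg (A p)) (hcos (n * p.1))
      have h6 := mul_le_of_le_one_right (norm_nonneg (2 * B p)) (hcos (2 * (n * p.1)))
      rw [← norm_mul] at h5 h6
      have h7 : ‖du f p‖ ≤ 1 := (sq_le_one_iff₀ (norm_nonneg _)).mp (h1 p).2.le
      have h8 : 0 < 1 - ‖du f p‖ ^ 2 := by linarith [(h1 p).2]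
      set t := Real.sqrt (1 - ‖du f p‖ ^ 2) with ht
      have ht2 : t ^ 2 = 1 - ‖du f p‖ ^ 2 := Real.sq_sqrt h8.le
      have ht0 : 0 ≤ t := Real.sqrt_nonneg _
      have ht1 : t ≤ 1 := by
        have : t ^ 2 ≤ 1 := by rw [ht2]; linarith [sq_nonneg ‖du f p‖]
        exact (sq_le_one_iff₀ ht0).mp this
      have hts : t ≤ s := by
        apply abs_le_of_sq_le_sq' _ hs |>.2
        rw [ht2]
        exact hM p
      have hAn : ‖A p‖ ≤ 5 / 4 * t := by
        have h9 : ‖A p‖ = Real.sqrt 2 * Real.sqrt (q p) * ‖du f p‖ := by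
          simp only [hA]
          rw [norm_mul, norm_mul, Complex.norm_I, mul_one, Complex.norm_real, Real.norm_of_nonneg
            (by positivity)]
        have h10 : ‖A p‖ ^ 2 ≤ (5 / 4 * t) ^ 2 := by
          rw [h9, mul_pow, mul_pow, Real.sq_sqrt (by norm_num), Real.sq_sqrt (hqpos p).le,
            mul_assoc, hqm, mul_pow, ht2]
          linarith
        exact (abs_le_of_sq_le_sq' h10 (by positivity)).2
      have hBn : ‖2 * B p‖ ≤ 3 / 4 * t := by
        have h9 : ‖2 * B p‖ = q p / 2 * ‖du f p‖ := by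
          simp only [hB]
          rw [norm_mul, norm_mul, Complex.norm_real, Real.norm_of_nonneg (by have := hqpos p; positivity)]
          simp
          ring
        rw [h9]
        have h10 := hq_le p
        have h11 := hqpos p
        have h12 : q p / 2 * ‖du f p‖ ≤ q p / 2 := mul_le_of_le_one_right (by positivity) h7
        have h13 : q p / 2 ≤ 3 / 4 * t ^ 2 := by rw [ht2]; linarith
        nlinarith
      linarith
    have h4 := norm_add_le (du (fun p => f p + h p) p - Z p) (Z p - du f p)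
    rw [sub_add_sub_cancel] at h4
    have := hdu p
    linarith
  · intro p
    have := hdv p
    linarith
  · intro p
    have := hd0 p
    linarith

end Pool.Agent.X197.Cheb
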