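import Mathlib
import Pool.Agent.X197.ChebC

namespace Pool.Agent.X197.Cheb

open Filter Topology Set
open scoped ContDiff

/-- exchange of the two variables -/
def sw (f : ℝ × ℝ → ℂ) : ℝ × ℝ → ℂ := fun p => f (p.2, p.1)

lemma sw_fderiv (f : ℝ × ℝ → ℂ) (p : ℝ × ℝ) :
    fderiv ℝ (sw f) p = (fderiv ℝ f (p.2, p.1)).comp
      (ContinuousLinearEquiv.prodComm ℝ ℝ ℝ : (ℝ × ℝ) →L[ℝ] (ℝ × ℝ)) :=
  ContinuousLinearEquiv.comp_right_fderiv (ContinuousLinearEquiv.prodComm ℝ ℝ ℝ) (f := f) (x := p)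

lemma sw_du (f : ℝ × ℝ → ℂ) (p : ℝ × ℝ) : du (sw f) p = dv f (p.2, p.1) := by
  unfold du dv
  rw [sw_fderiv]
  rfl

lemma sw_dv (f : ℝ × ℝ → ℂ) (p : ℝ × ℝ) : dv (sw f) p = du f (p.2, p.1) := by
  unfold du dv
  rw [sw_fderiv]
  rfl

lemma sw_good {f : ℝ × ℝ → ℂ} (hf : Good f) : Good (sw f) := by
  obtain ⟨h1, h2, h3, h4⟩ := hf
  refine ⟨?_, ?_, ?_, ?_⟩
  · exact h1.comp (contDiff_snd.prodMk contDiff_fst)
  · have : fderiv ℝ (sw f) = fun p => (fderiv ℝ f (p.2, p.1)).comp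
      (ContinuousLinearEquiv.prodComm ℝ ℝ ℝ : (ℝ × ℝ) →L[ℝ] (ℝ × ℝ)) := funext (sw_fderiv f)
    rw [this]
    constructor
    · intro y x
      have := h2.2 y x
      simp only at this ⊢
      rw [this]
    · intro x y
      have := h2.1 x y
      simp only at this ⊢
      rw [this]
  · intro p
    rw [sw_du]
    exact h4 _
  · intro p
    rw [sw_dv]
    exact h3 _

theorem stage_v {f : ℝ × ℝ → ℂ} (hf : Good f) {s : ℝ} (hs : 0 ≤ s)
    (hM : ∀ p, 1 - ‖dv f p‖ ^ 2 ≤ s ^ 2) {ε : ℝ} (hε : 0 < ε) :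
    ∃ g, Good g ∧ (∀ p, 1 - ‖dv g p‖ ^ 2 ≤ s ^ 2 / 4 + ε) ∧ (∀ p, ‖dv g p - dv f p‖ ≤ 2 * s + ε) ∧
      (∀ p, ‖du g p - du f p‖ ≤ ε) ∧ ∀ p, ‖g p - f p‖ ≤ ε := by
  obtain ⟨g, h1, h2, h3, h4, h5⟩ := stage_u (sw_good hf) hs (fun p => by rw [sw_du]; exact hM _) hε
  refine ⟨sw g, sw_good h1, fun p => ?_, fun p => ?_, fun p => ?_, fun p => ?_⟩
  · rw [sw_dv]
    exact h2 _
  · have := h3 (p.2, p.1)
    rw [sw_du] at this
    rw [sw_dv]
    exact this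
  · have := h4 (p.2, p.1)
    rw [sw_dv] at this
    rw [sw_du]
    exact this
  · exact h5 (p.2, p.1)

lemma sq_close {z w : ℂ} {e : ℝ} (h : ‖w - z‖ ≤ e) (hz : ‖z‖ ≤ 1) (hw : ‖w‖ ≤ 1) :
    1 - ‖w‖ ^ 2 ≤ 1 - ‖z‖ ^ 2 + 2 * e := by
  have h2 : ‖z‖ ≤ ‖w‖ + e := by
    have := norm_add_le (z - w) w
    rw [sub_add_cancel, norm_sub_rev] at this
    linarith
  have h0 : 0 ≤ e := (norm_nonneg _).trans h
  have hz0 := norm_nonneg z
  have hw0 := norm_nonneg w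
  nlinarith

lemma Good.du_le {f : ℝ × ℝ → ℂ} (hf : Good f) (p : ℝ × ℝ) : ‖du f p‖ ≤ 1 :=
  (sq_le_one_iff₀ (norm_nonneg _)).mp (hf.2.2.1 p).2.le

lemma Good.dv_le {f : ℝ × ℝ → ℂ} (hf : Good f) (p : ℝ × ℝ) : ‖dv f p‖ ≤ 1 :=
  (sq_le_one_iff₀ (norm_nonneg _)).mp (hf.2.2.2 p).2.le

/-- invariant of the iteration -/
def Q (s : ℝ) (f : ℝ × ℝ → ℂ) : Prop :=
  Good f ∧ (∀ p, 1 - ‖du f p‖ ^ 2 ≤ s ^ 2) ∧ (∀ p, 1 - ‖dv f p‖ ^ 2 ≤ s ^ 2)

theorem stage {s : ℝ} (hs : 0 < s) (hs1 : s ≤ 1) {f : ℝ × ℝ → ℂ} (hf : Q s f) {ε : ℝ} (hε : 0 < ε)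
    (hεs : ε ≤ s ^ 2 / 16) :
    ∃ g, Q (3 / 4 * s) g ∧ (∀ p, ‖du g p - du f p‖ ≤ 3 * s) ∧ (∀ p, ‖dv g p - dv f p‖ ≤ 3 * s) ∧
      ∀ p, ‖g p - f p‖ ≤ 2 * ε := by
  obtain ⟨hG, hMu, hMv⟩ := hf
  obtain ⟨g1, a1, a2, a3, a4, a5⟩ := stage_u hG hs.le hMu hε
  have hs2 : s ^ 2 ≤ s := by nlinarith
  have hMv1 : ∀ p, 1 - ‖dv g1 p‖ ^ 2 ≤ (17 / 16 * s) ^ 2 := by
    intro p
    have := sq_close (a4 p) (hG.dv_le p) (a1.dv_le p)
    have := hMv p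
    nlinarith
  obtain ⟨g, b1, b2, b3, b4, b5⟩ := stage_v a1 (s := 17 / 16 * s) (by positivity) hMv1 hε
  refine ⟨g, ⟨b1, fun p => ?_, fun p => ?_⟩, fun p => ?_, fun p => ?_, fun p => ?_⟩
  · have := sq_close (b4 p) (a1.du_le p) (b1.du_le p)
    have := a2 p
    nlinarith
  · have := b2 p
    nlinarith
  · have := a3 p
    have := b4 p
    have h := norm_add_le (du g p - du g1 p) (du g1 p - du f p)
    rw [sub_add_sub_cancel] at h
    nlinarith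
  · have := a4 p
    have := b3 p
    have h := norm_add_le (dv g p - dv g1 p) (dv g1 p - dv f p)
    rw [sub_add_sub_cancel] at h
    nlinarith
  · have := a5 p
    have := b5 p
    have h := norm_add_le (g p - g1 p) (g1 p - f p)
    rw [sub_add_sub_cancel] at h
    linarith

/-- the initial map -/
noncomputable def f0 (p : ℝ × ℝ) : ℂ :=
  (1 - 3 / 100000 : ℂ) * ((p.1 : ℂ) + (p.2 : ℂ) * Complex.I)
    + (1 / 100000 : ℂ) * ((Real.sin p.1 * Real.sin p.2 : ℝ) : ℂ)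

lemma f0_contDiff : ContDiff ℝ ∞ f0 := by
  unfold f0
  have h1 : ContDiff ℝ ∞ (fun p : ℝ × ℝ => (p.1 : ℂ)) := Complex.ofRealCLM.contDiff.comp contDiff_fst
  have h2 : ContDiff ℝ ∞ (fun p : ℝ × ℝ => (p.2 : ℂ)) := Complex.ofRealCLM.contDiff.comp contDiff_snd
  have h3 : ContDiff ℝ ∞ (fun p : ℝ × ℝ => ((Real.sin p.1 * Real.sin p.2 : ℝ) : ℂ)) :=
    Complex.ofRealCLM.contDiff.comp
      ((Real.contDiff_sin.comp contDiff_fst).mul (Real.contDiff_sin.comp contDiff_snd))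
  exact (contDiff_const.mul (h1.add (h2.mul contDiff_const))).add (contDiff_const.mul h3)

lemma f0_fderiv (p w : ℝ × ℝ) : fderiv ℝ f0 p w =
    (1 - 3 / 100000 : ℂ) * ((w.1 : ℂ) + (w.2 : ℂ) * Complex.I)
    + (1 / 100000 : ℂ) * ((Real.cos p.1 * Real.sin p.2 * w.1 + Real.sin p.1 * Real.cos p.2 * w.2 : ℝ) : ℂ) := by
  have h1 : HasFDerivAt (fun p : ℝ × ℝ => (p.1 : ℂ))
      (Complex.ofRealCLM.comp (ContinuousLinearMap.fst ℝ ℝ ℝ)) p :=
    Complex.ofRealCLM.hasFDerivAt.comp p hasFDerivAt_fst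
  have h2 : HasFDerivAt (fun p : ℝ × ℝ => (p.2 : ℂ))
      (Complex.ofRealCLM.comp (ContinuousLinearMap.snd ℝ ℝ ℝ)) p :=
    Complex.ofRealCLM.hasFDerivAt.comp p hasFDerivAt_snd
  have h3 : HasFDerivAt (fun p : ℝ × ℝ => Real.sin p.1) (Real.cos p.1 • ContinuousLinearMap.fst ℝ ℝ ℝ) p :=
    hasFDerivAt_fst.sin
  have h4 : HasFDerivAt (fun p : ℝ × ℝ => Real.sin p.2) (Real.cos p.2 • ContinuousLinearMap.snd ℝ ℝ ℝ) p :=
    hasFDerivAt_snd.sin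
  have h5 : HasFDerivAt (fun p : ℝ × ℝ => ((Real.sin p.1 * Real.sin p.2 : ℝ) : ℂ)) _ p :=
    Complex.ofRealCLM.hasFDerivAt.comp p (h3.mul h4)
  have h6 : HasFDerivAt f0 _ p :=
    ((h1.add (h2.mul_const Complex.I)).const_mul (1 - 3 / 100000 : ℂ)).add
      (h5.const_mul (1 / 100000 : ℂ))
  rw [h6.fderiv]
  simp only [smul_apply, add_apply, ContinuousLinearMap.comp_apply,
    ContinuousLinearMap.coe_fst', ContinuousLinearMap.coe_snd', smul_eq_mul, Complex.ofRealCLM_apply]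
  push_cast
  ring

lemma f0_du (p : ℝ × ℝ) : ‖du f0 p - (1 - 3 / 100000 : ℂ)‖ ≤ 1 / 100000 := by
  unfold du
  rw [f0_fderiv]
  have : (1 - 3 / 100000 : ℂ) * (((1 : ℝ) : ℂ) + ((0 : ℝ) : ℂ) * Complex.I)
    + (1 / 100000 : ℂ) * ((Real.cos p.1 * Real.sin p.2 * 1 + Real.sin p.1 * Real.cos p.2 * 0 : ℝ) : ℂ)
    - (1 - 3 / 100000 : ℂ) = (((1 / 100000 : ℝ) * (Real.cos p.1 * Real.sin p.2) : ℝ) : ℂ) := by
    push_cast; ring
  simp only
  rw [this, Complex.norm_real, Real.norm_eq_abs, abs_mul, abs_mul]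
  have h1 := Real.abs_cos_le_one p.1
  have h2 := Real.abs_sin_le_one p.2
  have h3 : |Real.cos p.1| * |Real.sin p.2| ≤ 1 := mul_le_one₀ h1 (abs_nonneg _) h2
  rw [abs_of_pos (by norm_num : (0 : ℝ) < 1 / 100000)]
  linarith

lemma f0_dv (p : ℝ × ℝ) : ‖dv f0 p - (1 - 3 / 100000 : ℂ) * Complex.I‖ ≤ 1 / 100000 := by
  unfold dv
  rw [f0_fderiv]
  have : (1 - 3 / 100000 : ℂ) * (((0 : ℝ) : ℂ) + ((1 : ℝ) : ℂ) * Complex.I)
    + (1 / 100000 : ℂ) * ((Real.cos p.1 * Real.sin p.2 * 0 + Real.sin p.1 * Real.cos p.2 * 1 : ℝ) : ℂ)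
    - (1 - 3 / 100000 : ℂ) * Complex.I = (((1 / 100000 : ℝ) * (Real.sin p.1 * Real.cos p.2) : ℝ) : ℂ) := by
    push_cast; ring
  simp only
  rw [this, Complex.norm_real, Real.norm_eq_abs, abs_mul, abs_mul]
  have h1 := Real.abs_sin_le_one p.1
  have h2 := Real.abs_cos_le_one p.2
  have h3 : |Real.sin p.1| * |Real.cos p.2| ≤ 1 := mul_le_one₀ h1 (abs_nonneg _) h2
  rw [abs_of_pos (by norm_num : (0 : ℝ) < 1 / 100000)]
  linarith

lemma norm_range {z c : ℂ} {r e : ℝ} (h : ‖z - c‖ ≤ e) (hc : ‖c‖ = r) : r - e ≤ ‖z‖ ∧ ‖z‖ ≤ r + e := by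
  have h1 := norm_add_le (z - c) c
  rw [sub_add_cancel] at h1
  have h2 := norm_add_le (c - z) z
  rw [sub_add_cancel, norm_sub_rev] at h2
  constructor <;> linarith

lemma c_norm : ‖(1 - 3 / 100000 : ℂ)‖ = 99997 / 100000 := by
  have : (1 - 3 / 100000 : ℂ) = ((99997 / 100000 : ℝ) : ℂ) := by push_cast; norm_num
  rw [this, Complex.norm_real]
  norm_num

lemma f0_Q : Q (1 / 100) f0 := by
  have hu : ∀ p, 99996 / 100000 ≤ ‖du f0 p‖ ∧ ‖du f0 p‖ ≤ 99998 / 100000 := by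
    intro p
    have := norm_range (f0_du p) c_norm
    constructor <;> linarith
  have hv : ∀ p, 99996 / 100000 ≤ ‖dv f0 p‖ ∧ ‖dv f0 p‖ ≤ 99998 / 100000 := by
    intro p
    have hcI : ‖(1 - 3 / 100000 : ℂ) * Complex.I‖ = 99997 / 100000 := by
      rw [norm_mul, Complex.norm_I, mul_one]; exact c_norm
    have := norm_range (f0_dv p) hcI
    constructor <;> linarith
  refine ⟨⟨f0_contDiff, ?_, fun p => ?_, fun p => ?_⟩, fun p => ?_, fun p => ?_⟩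
  · constructor
    · intro y x
      simp only
      ext w
      · rw [ContinuousLinearMap.comp_apply, ContinuousLinearMap.comp_apply, f0_fderiv, f0_fderiv]
        simp only [Real.cos_add_two_pi, Real.sin_add_two_pi]
      · rw [ContinuousLinearMap.comp_apply, ContinuousLinearMap.comp_apply, f0_fderiv, f0_fderiv]
        simp only [Real.cos_add_two_pi, Real.sin_add_two_pi]
    · intro x y
      simp only
      ext w
      · rw [ContinuousLinearMap.comp_apply, ContinuousLinearMap.comp_apply, f0_fderiv, f0_fderiv]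
        simp only [Real.cos_add_two_pi, Real.sin_add_two_pi]
      · rw [ContinuousLinearMap.comp_apply, ContinuousLinearMap.comp_apply, f0_fderiv, f0_fderiv]
        simp only [Real.cos_add_two_pi, Real.sin_add_two_pi]
  · have := hu p
    constructor <;> nlinarith
  · have := hv p
    constructor <;> nlinarith
  · have := hu p
    nlinarith
  · have := hv p
    nlinarith

end Pool.Agent.X197.Cheb
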