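import Mathlib
import Pool.Agent.X197.ChebD

namespace Pool.Agent.X197.Cheb

open Filter Topology Set
open scoped ContDiff

/-- the scale at step `n` -/
noncomputable def sc (n : ℕ) : ℝ := 1 / 100 * (3 / 4) ^ n

lemma sc_succ (n : ℕ) : sc (n + 1) = 3 / 4 * sc n := by
  unfold sc; rw [pow_succ]; ring

lemma exists_step (n : ℕ) (f : {f : ℝ × ℝ → ℂ // Q (sc n) f}) :
    ∃ g : {g : ℝ × ℝ → ℂ // Q (sc (n + 1)) g},
      (∀ p, ‖du g.1 p - du f.1 p‖ ≤ 3 * sc n) ∧ (∀ p, ‖dv g.1 p - dv f.1 p‖ ≤ 3 * sc n) ∧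
      ∀ p, ‖g.1 p - f.1 p‖ ≤ 2 * (1 / 100000000 * (9 / 16) ^ n) := by
  have h0 : 0 < sc n := by unfold sc; positivity
  have h1 : sc n ≤ 1 := by
    unfold sc
    have : ((3 : ℝ) / 4) ^ n ≤ 1 := pow_le_one₀ (by norm_num) (by norm_num)
    linarith
  have hε : (0 : ℝ) < 1 / 100000000 * (9 / 16) ^ n := by positivity
  have hεs : (1 / 100000000 * (9 / 16) ^ n : ℝ) ≤ sc n ^ 2 / 16 := by
    unfold sc
    rw [mul_pow, ← pow_mul, mul_comm n 2, pow_mul]
    have : (((3 : ℝ) / 4) ^ 2) = 9 / 16 := by norm_num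
    rw [this]
    have : (0 : ℝ) < (9 / 16) ^ n := by positivity
    linarith
  obtain ⟨g, hg, h2, h3, h4⟩ := stage h0 h1 f.2 hε hεs
  exact ⟨⟨g, by rw [sc_succ]; exact hg⟩, h2, h3, h4⟩

/-- the iterates -/
noncomputable def seq : (n : ℕ) → {f : ℝ × ℝ → ℂ // Q (sc n) f}
  | 0 => ⟨f0, by have := f0_Q; simpa [sc] using this⟩
  | n + 1 => (exists_step n (seq n)).choose

lemma seq_spec (n : ℕ) :
    (∀ p, ‖du (seq (n + 1)).1 p - du (seq n).1 p‖ ≤ 3 * sc n) ∧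
    (∀ p, ‖dv (seq (n + 1)).1 p - dv (seq n).1 p‖ ≤ 3 * sc n) ∧
      ∀ p, ‖(seq (n + 1)).1 p - (seq n).1 p‖ ≤ 2 * (1 / 100000000 * (9 / 16) ^ n) :=
  (exists_step n (seq n)).choose_spec

lemma clm_bound (L : ℝ × ℝ →L[ℝ] ℂ) {b : ℝ} (hb : 0 ≤ b) (h1 : ‖L (1, 0)‖ ≤ b) (h2 : ‖L (0, 1)‖ ≤ b) :
    ‖L‖ ≤ 2 * b := by
  refine L.opNorm_le_bound (by positivity) fun w => ?_
  have : L w = w.1 • L (1, 0) + w.2 • L (0, 1) := by
    rw [← map_smul, ← map_smul, ← map_add]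
    congr 1
    ext <;> simp
  rw [this]
  refine (norm_add_le _ _).trans ?_
  rw [norm_smul, norm_smul]
  have h3 : ‖w.1‖ ≤ ‖w‖ := norm_fst_le w
  have h4 : ‖w.2‖ ≤ ‖w‖ := norm_snd_le w
  have h5 : ‖w.1‖ * ‖L (1, 0)‖ ≤ ‖w‖ * b := mul_le_mul h3 h1 (norm_nonneg _) (norm_nonneg _)
  have h6 : ‖w.2‖ * ‖L (0, 1)‖ ≤ ‖w‖ * b := mul_le_mul h4 h2 (norm_nonneg _) (norm_nonneg _)
  linarith

lemma dist0 (n : ℕ) (p : ℝ × ℝ) :
    dist ((seq n).1 p) ((seq (n + 1)).1 p) ≤ 2 / 100000000 * (3 / 4) ^ n := by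
  rw [dist_comm, dist_eq_norm]
  refine ((seq_spec n).2.2 p).trans ?_
  have : ((9 : ℝ) / 16) ^ n ≤ (3 / 4) ^ n := pow_le_pow_left₀ (by norm_num) (by norm_num) n
  linarith

lemma distF (n : ℕ) (p : ℝ × ℝ) :
    dist (fderiv ℝ (seq n).1 p) (fderiv ℝ (seq (n + 1)).1 p) ≤ 6 / 100 * (3 / 4) ^ n := by
  rw [dist_comm, dist_eq_norm]
  have h := clm_bound (fderiv ℝ (seq (n + 1)).1 p - fderiv ℝ (seq n).1 p) (b := 3 * sc n)
    (by unfold sc; positivity) ((seq_spec n).1 p) ((seq_spec n).2.1 p)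
  refine h.trans ?_
  unfold sc
  linarith

theorem exists_limit : ∃ F : ℝ × ℝ → ℂ, ContDiff ℝ 1 F ∧ (∀ p, ‖du F p‖ = 1) ∧ (∀ p, ‖dv F p‖ = 1) ∧
    (∀ p, ‖du F p - 1‖ ≤ 1 / 4) ∧ (∀ p, ‖dv F p - Complex.I‖ ≤ 1 / 4) ∧
    F (Real.pi / 2, Real.pi / 2) - F (Real.pi / 2, 0) - F (0, Real.pi / 2) + F (0, 0) ≠ 0 := by
  have hr : (3 / 4 : ℝ) < 1 := by norm_num
  have hc0 : ∀ p, CauchySeq (fun n => (seq n).1 p) := fun p =>
    cauchySeq_of_le_geometric _ _ hr (fun n => dist0 n p)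
  have hcF : ∀ p, CauchySeq (fun n => fderiv ℝ (seq n).1 p) := fun p =>
    cauchySeq_of_le_geometric _ _ hr (fun n => distF n p)
  choose F hF using fun p => cauchySeq_tendsto_of_complete (hc0 p)
  choose G hG using fun p => cauchySeq_tendsto_of_complete (hcF p)
  have hF0 : ∀ p, dist (f0 p) (F p) ≤ 2 / 100000000 / (1 - 3 / 4) := fun p =>
    dist_le_of_le_geometric_of_tendsto₀ _ _ hr (fun n => dist0 n p) (hF p)
  have hGn : ∀ p n, dist (fderiv ℝ (seq n).1 p) (G p) ≤ 6 / 100 * (3 / 4) ^ n / (1 - 3 / 4) := fun p n =>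
    dist_le_of_le_geometric_of_tendsto _ _ hr (fun n => distF n p) (hG p) n
  have hunif : TendstoUniformly (fun n p => fderiv ℝ (seq n).1 p) G atTop := by
    rw [Metric.tendstoUniformly_iff]
    intro ε hε
    have h1 : Tendsto (fun n : ℕ => 6 / 100 * (3 / 4 : ℝ) ^ n / (1 - 3 / 4)) atTop (𝓝 0) := by
      have h2 := tendsto_pow_atTop_nhds_zero_of_lt_one (r := (3 / 4 : ℝ)) (by norm_num) hr
      have h3 := (h2.const_mul (6 / 100)).div_const (1 - 3 / 4)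
      simpa using h3
    filter_upwards [h1.eventually_lt_const hε] with n hn p
    rw [dist_comm]
    exact (hGn p n).trans_lt hn
  have hder : ∀ p, HasFDerivAt F (G p) p :=
    hasFDerivAt_of_tendstoUniformly hunif
      (fun n p => ((seq n).2.1.1.differentiable (by simp) p).hasFDerivAt) hF
  have hGc : Continuous G := hunif.continuous (Frequently.of_forall fun n =>
    (seq n).2.1.1.continuous_fderiv (by simp))
  have hfd : ∀ p, fderiv ℝ F p = G p := fun p => (hder p).fderiv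
  have hFcd : ContDiff ℝ 1 F := by
    rw [contDiff_one_iff_fderiv]
    refine ⟨fun p => (hder p).differentiableAt, ?_⟩
    have : fderiv ℝ F = G := funext hfd
    rw [this]
    exact hGc
  have happ : ∀ p w, Tendsto (fun n => fderiv ℝ (seq n).1 p w) atTop (𝓝 (fderiv ℝ F p w)) := by
    intro p w
    rw [hfd]
    exact ((ContinuousLinearMap.apply ℝ ℂ w).continuous.tendsto (G p)).comp (hG p)
  have hsc : Tendsto (fun n => sc n ^ 2) atTop (𝓝 0) := by
    have h2 := tendsto_pow_atTop_nhds_zero_of_lt_one (r := (3 / 4 : ℝ)) (by norm_num) hr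
    have h3 := (h2.const_mul (1 / 100)).pow 2
    simpa [sc] using h3
  have hone : ∀ (D : ℕ → ℂ) (z : ℂ), Tendsto D atTop (𝓝 z) → (∀ n, ‖D n‖ ^ 2 < 1) →
      (∀ n, 1 - ‖D n‖ ^ 2 ≤ sc n ^ 2) → ‖z‖ = 1 := by
    intro D z hD h1 h2
    have h3 : Tendsto (fun n => 1 - ‖D n‖ ^ 2) atTop (𝓝 (1 - ‖z‖ ^ 2)) :=
      tendsto_const_nhds.sub (hD.norm.pow 2)
    have h4 : Tendsto (fun n => 1 - ‖D n‖ ^ 2) atTop (𝓝 0) :=
      squeeze_zero (fun n => by linarith [h1 n]) h2 hsc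
    have h5 := tendsto_nhds_unique h3 h4
    have h6 : ‖z‖ ^ 2 = 1 := by linarith
    exact (pow_eq_one_iff_of_nonneg (norm_nonneg _) two_ne_zero).mp h6
  have hG0 : ∀ p, ‖G p - fderiv ℝ f0 p‖ ≤ 24 / 100 := by
    intro p
    have h1 := hGn p 0
    rw [dist_comm, dist_eq_norm] at h1
    have h2 : (seq 0).1 = f0 := rfl
    rw [h2] at h1
    refine h1.trans ?_
    norm_num
  have happ0 : ∀ p w, ‖w‖ ≤ 1 → ‖fderiv ℝ F p w - fderiv ℝ f0 p w‖ ≤ 24 / 100 := by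
    intro p w hw
    rw [hfd, ← sub_apply]
    refine (ContinuousLinearMap.le_opNorm _ _).trans ?_
    have := hG0 p
    nlinarith [norm_nonneg (G p - fderiv ℝ f0 p), norm_nonneg w]
  refine ⟨F, hFcd, fun p => ?_, fun p => ?_, fun p => ?_, fun p => ?_, ?_⟩
  · exact hone _ _ (happ p (1, 0)) (fun n => ((seq n).2.1.2.2.1 p).2) (fun n => (seq n).2.2.1 p)
  · exact hone _ _ (happ p (0, 1)) (fun n => ((seq n).2.1.2.2.2 p).2) (fun n => (seq n).2.2.2 p)
  · have h1 := happ0 p (1, 0) (by simp)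
    have h2 := f0_du p
    have h3 : ‖(1 - 3 / 100000 : ℂ) - 1‖ = 3 / 100000 := by
      have : (1 - 3 / 100000 : ℂ) - 1 = ((-3 / 100000 : ℝ) : ℂ) := by push_cast; ring
      rw [this, Complex.norm_real]
      norm_num
    have h4 := norm_add_le (du F p - du f0 p) (du f0 p - (1 - 3 / 100000 : ℂ))
    have h5 := norm_add_le (du F p - (1 - 3 / 100000 : ℂ)) ((1 - 3 / 100000 : ℂ) - 1)
    rw [sub_add_sub_cancel] at h4 h5
    have h6 : ‖du F p - du f0 p‖ ≤ 24 / 100 := h1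
    linarith
  · have h1 := happ0 p (0, 1) (by simp)
    have h2 := f0_dv p
    have h3 : ‖(1 - 3 / 100000 : ℂ) * Complex.I - Complex.I‖ = 3 / 100000 := by
      have : (1 - 3 / 100000 : ℂ) * Complex.I - Complex.I = ((-3 / 100000 : ℝ) : ℂ) * Complex.I := by
        push_cast; ring
      rw [this, norm_mul, Complex.norm_I, Complex.norm_real]
      norm_num
    have h4 := norm_add_le (dv F p - dv f0 p) (dv f0 p - (1 - 3 / 100000 : ℂ) * Complex.I)
    have h5 := norm_add_le (dv F p - (1 - 3 / 100000 : ℂ) * Complex.I)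
      ((1 - 3 / 100000 : ℂ) * Complex.I - Complex.I)
    rw [sub_add_sub_cancel] at h4 h5
    have h6 : ‖dv F p - dv f0 p‖ ≤ 24 / 100 := h1
    linarith
  · intro h
    have e0 : f0 (Real.pi / 2, Real.pi / 2) - f0 (Real.pi / 2, 0) - f0 (0, Real.pi / 2) + f0 (0, 0)
        = ((1 / 100000 : ℝ) : ℂ) := by
      unfold f0
      simp only [Real.sin_pi_div_two, Real.sin_zero]
      push_cast
      ring
    have e1 : ((1 / 100000 : ℝ) : ℂ) = (f0 (Real.pi / 2, Real.pi / 2) - F (Real.pi / 2, Real.pi / 2))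
        + (F (Real.pi / 2, 0) - f0 (Real.pi / 2, 0)) + (F (0, Real.pi / 2) - f0 (0, Real.pi / 2))
        + (f0 (0, 0) - F (0, 0)) := by
      rw [← e0]
      linear_combination h
    have e2 : ‖((1 / 100000 : ℝ) : ℂ)‖ = 1 / 100000 := by
      rw [Complex.norm_real]; norm_num
    have b1 : ∀ p, ‖f0 p - F p‖ ≤ 8 / 100000000 := fun p => by
      have := hF0 p
      rw [dist_eq_norm] at this
      refine this.trans ?_
      norm_num
    have b2 : ∀ p, ‖F p - f0 p‖ ≤ 8 / 100000000 := fun p => by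
      rw [norm_sub_rev]; exact b1 p
    have e3 : ‖((1 / 100000 : ℝ) : ℂ)‖ ≤ 32 / 100000000 := by
      rw [e1]
      refine (norm_add₄_le).trans ?_
      have := b1 (Real.pi / 2, Real.pi / 2)
      have := b2 (Real.pi / 2, 0)
      have := b2 (0, Real.pi / 2)
      have := b1 (0, 0)
      linarith
    rw [e2] at e3
    norm_num at e3

end Pool.Agent.X197.Cheb
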