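import Mathlib
import Pool.Agent.X197.ChebE

namespace Pool.Agent.X197.Cheb

open Filter Topology Set
open scoped ContDiff ComplexConjugate

lemma clm_decomp (L : ℝ × ℝ →L[ℝ] ℂ) (w : ℝ × ℝ) : L w = (w.1 : ℂ) * L (1, 0) + (w.2 : ℂ) * L (0, 1) := by
  rw [← Complex.real_smul, ← Complex.real_smul, ← map_smul, ← map_smul, ← map_add]
  congr 1
  ext <;> simp

theorem rigid {F G : ℝ × ℝ → ℂ} (hF : ContDiff ℝ 1 F) (hG : ContDiff ℝ 1 G)
    (hFu : ∀ p, ‖du F p‖ = 1) (hGu : ∀ p, ‖du G p‖ = 1) {p : ℝ × ℝ}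
    (hev : ∀ᶠ q in 𝓝 p, dv F q * du G q = du F q * dv G q)
    (himm : (conj (du G p) * dv G p).im ≠ 0) :
    ∀ᶠ q in 𝓝 p, du F q / du G q = du F p / du G p := by
  have hne : ∀ q, du G q ≠ 0 := fun q h => by
    have := hGu q
    rw [h, norm_zero] at this
    exact zero_ne_one this
  have hinj : Function.Injective (fderiv ℝ G p) := by
    rw [injective_iff_map_eq_zero]
    intro w hw
    rw [clm_decomp] at hw
    have h1 : (conj (du G p) * ((w.1 : ℂ) * du G p + (w.2 : ℂ) * dv G p)) = 0 := by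
      have : (w.1 : ℂ) * du G p + (w.2 : ℂ) * dv G p = 0 := hw
      rw [this, mul_zero]
    have h2 : conj (du G p) * ((w.1 : ℂ) * du G p + (w.2 : ℂ) * dv G p)
        = (w.1 : ℂ) * (Complex.normSq (du G p) : ℂ) + (w.2 : ℂ) * (conj (du G p) * dv G p) := by
      rw [← Complex.mul_conj]; ring
    rw [h2] at h1
    have h3 : w.2 = 0 := by
      have := congrArg Complex.im h1
      simp only [Complex.add_im, Complex.im_ofReal_mul, Complex.ofReal_im,
        mul_zero, zero_add, Complex.zero_im] at this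
      rcases mul_eq_zero.mp this with h | h
      · exact h
      · exact absurd h himm
    rw [h3] at h1
    have h4 : w.1 = 0 := by
      have h5 : (w.1 : ℂ) * (Complex.normSq (du G p) : ℂ) = 0 := by simpa using h1
      rw [← Complex.ofReal_mul, Complex.ofReal_eq_zero] at h5
      rcases mul_eq_zero.mp h5 with h | h
      · exact h
      · exact absurd (Complex.normSq_eq_zero.mp h) (hne p)
    ext
    · exact h4
    · exact h3
  let e : (ℝ × ℝ) ≃L[ℝ] ℂ := (LinearEquiv.ofInjectiveOfFinrankEq (fderiv ℝ G p).toLinearMap hinj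
    (by simp)).toContinuousLinearEquiv
  have he : (e : ℝ × ℝ →L[ℝ] ℂ) = fderiv ℝ G p := by
    ext w <;> rfl
  have hGd : ∀ q, HasFDerivAt G (fderiv ℝ G q) q := fun q =>
    (hG.differentiable one_ne_zero q).hasFDerivAt
  have hFd : ∀ q, HasFDerivAt F (fderiv ℝ F q) q := fun q =>
    (hF.differentiable one_ne_zero q).hasFDerivAt
  have hGe : HasFDerivAt G (e : ℝ × ℝ →L[ℝ] ℂ) p := by rw [he]; exact hGd p
  have hstrict : HasStrictFDerivAt G (e : ℝ × ℝ →L[ℝ] ℂ) p :=
    hG.contDiffAt.hasStrictFDerivAt' hGe one_ne_zero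
  set J := hstrict.localInverse G e p with hJ
  have hJcd : ContDiffAt ℝ 1 J (G p) := hG.contDiffAt.to_localInverse hGe one_ne_zero
  have hJp : J (G p) = p := hstrict.localInverse_apply_image
  have hJd : ∀ᶠ y in 𝓝 (G p), DifferentiableAt ℝ J y :=
    (hJcd.eventually (by simp)).mono fun y hy => hy.differentiableAt one_ne_zero
  have hJr : ∀ᶠ y in 𝓝 (G p), ∀ᶠ z in 𝓝 y, G (J z) = z :=
    eventually_eventually_nhds.mpr hstrict.eventually_right_inverse
  have hJt : Tendsto J (𝓝 (G p)) (𝓝 p) := hstrict.localInverse_tendsto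
  have hevJ := hJt.eventually hev
  set ρ : ℝ × ℝ → ℂ := fun q => du F q / du G q with hρ
  have hder : ∀ᶠ y in 𝓝 (G p), HasDerivAt (fun y => F (J y)) (ρ (J y)) y := by
    filter_upwards [hJd, hJr, hevJ] with y h1 h2 h3
    have h4 : HasFDerivAt (fun y => F (J y)) ((fderiv ℝ F (J y)).comp (fderiv ℝ J y)) y :=
      (hFd (J y)).comp y h1.hasFDerivAt
    have h5 : HasFDerivAt (fun y => G (J y)) ((fderiv ℝ G (J y)).comp (fderiv ℝ J y)) y :=
      (hGd (J y)).comp y h1.hasFDerivAt
    have h6 : (fderiv ℝ G (J y)).comp (fderiv ℝ J y) = ContinuousLinearMap.id ℝ ℂ := by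
      have h7 : HasFDerivAt (fun y => G (J y)) (ContinuousLinearMap.id ℝ ℂ) y :=
        (hasFDerivAt_id y).congr_of_eventuallyEq h2
      exact h5.unique h7
    have h8 : ∀ w, fderiv ℝ F (J y) w = ρ (J y) * fderiv ℝ G (J y) w := by
      intro w
      rw [clm_decomp (fderiv ℝ F (J y)), clm_decomp (fderiv ℝ G (J y))]
      change (w.1 : ℂ) * du F (J y) + (w.2 : ℂ) * dv F (J y)
        = du F (J y) / du G (J y) * ((w.1 : ℂ) * du G (J y) + (w.2 : ℂ) * dv G (J y))
      have h9 : dv F (J y) = du F (J y) / du G (J y) * dv G (J y) := by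
        rw [div_mul_eq_mul_div, ← h3, mul_div_cancel_right₀ _ (hne _)]
      rw [h9]
      have := hne (J y)
      field_simp
    have h10 : (fderiv ℝ F (J y)).comp (fderiv ℝ J y)
        = ((1 : ℂ →L[ℂ] ℂ).smulRight (ρ (J y))).restrictScalars ℝ := by
      apply ContinuousLinearMap.ext
      intro w
      rw [ContinuousLinearMap.comp_apply, h8]
      have h11 : fderiv ℝ G (J y) (fderiv ℝ J y w) = w := by
        have := congrArg (fun L : ℂ →L[ℝ] ℂ => L w) h6
        simpa using this
      rw [h11]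
      simp [mul_comm]
    rw [h10] at h4
    have h12 := hasFDerivAt_of_restrictScalars ℝ h4 rfl
    exact h12.hasDerivAt.congr_deriv (by simp)
  have hderE : deriv (fun y => F (J y)) =ᶠ[𝓝 (G p)] fun y => ρ (J y) :=
    hder.mono fun y hy => hy.deriv
  have han : AnalyticAt ℂ (fun y => F (J y)) (G p) :=
    Complex.analyticAt_iff_eventually_differentiableAt.mpr (hder.mono fun y hy => hy.differentiableAt)
  have hd : ∀ᶠ z in 𝓝 (G p), DifferentiableAt ℂ (deriv (fun y => F (J y))) z :=
    Complex.analyticAt_iff_eventually_differentiableAt.mp han.deriv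
  have hρ1 : ∀ q, ‖ρ q‖ = 1 := fun q => by
    simp only [hρ]
    rw [norm_div, hFu, hGu, div_one]
  have hmax : IsLocalMax (norm ∘ deriv (fun y => F (J y))) (G p) := by
    have h1 : ∀ᶠ z in 𝓝 (G p), ‖deriv (fun y => F (J y)) z‖ = 1 := by
      filter_upwards [hderE] with z hz
      rw [hz]
      exact hρ1 _
    have h2 := h1.self_of_nhds
    filter_upwards [h1] with z hz
    rw [Function.comp_apply, Function.comp_apply, hz, h2]
  have hconst := Complex.eventually_eq_of_isLocalMax_norm hd hmax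
  have h3 : ∀ᶠ y in 𝓝 (G p), ρ (J y) = ρ p := by
    have h4 : deriv (fun y => F (J y)) (G p) = ρ p := by
      rw [hderE.self_of_nhds]
      beta_reduce
      rw [hJp]
    filter_upwards [hconst, hderE] with y h5 h6
    rw [← h6, h5, h4]
  have h4 : Tendsto G (𝓝 p) (𝓝 (G p)) := hG.continuous.tendsto p
  filter_upwards [h4.eventually h3, hstrict.eventually_left_inverse] with q h5 h6
  rw [← hJ] at h6
  rw [h6] at h5
  exact h5

end Pool.Agent.X197.Cheb
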