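import Mathlib
import Pool.Agent.X197.ChebF

namespace Pool.Agent.X197.Cheb

open Filter Topology Set
open scoped ContDiff ComplexConjugate

/-- the angle function of a map -/
noncomputable def om (F : ℝ × ℝ → ℂ) (q : ℝ × ℝ) : ℝ := Real.arcsin (conj (du F q) * dv F q).re

section

variable {F : ℝ × ℝ → ℂ}

lemma kappa_close (hu : ∀ p, ‖du F p‖ = 1) (hu1 : ∀ p, ‖du F p - 1‖ ≤ 1 / 4)
    (hv1 : ∀ p, ‖dv F p - Complex.I‖ ≤ 1 / 4) (q : ℝ × ℝ) :
    ‖conj (du F q) * dv F q - Complex.I‖ ≤ 1 / 2 := by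
  have h1 : conj (du F q) * dv F q - Complex.I
      = conj (du F q) * (dv F q - Complex.I) + (conj (du F q - 1)) * Complex.I := by
    rw [map_sub, map_one]; ring
  rw [h1]
  refine (norm_add_le _ _).trans ?_
  rw [norm_mul, norm_mul, Complex.norm_conj, Complex.norm_conj, Complex.norm_I, hu, mul_one, one_mul]
  have := hu1 q
  have := hv1 q
  linarith

lemma kappa_eq (hu : ∀ p, ‖du F p‖ = 1) (hv : ∀ p, ‖dv F p‖ = 1) (hu1 : ∀ p, ‖du F p - 1‖ ≤ 1 / 4)
    (hv1 : ∀ p, ‖dv F p - Complex.I‖ ≤ 1 / 4) (q : ℝ × ℝ) :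
    (conj (du F q) * dv F q).re = Real.sin (om F q) ∧ |Real.sin (om F q)| < 1 ∧
    conj (du F q) * dv F q = Complex.I * Complex.exp (-(Complex.I * (om F q : ℂ))) := by
  have hk := kappa_close hu hu1 hv1 q
  set κ := conj (du F q) * dv F q with hκ
  have hn : ‖κ‖ = 1 := by
    rw [hκ, norm_mul, Complex.norm_conj, hu, hv, mul_one]
  have hre : |κ.re| ≤ 1 / 2 := by
    have := Complex.abs_re_le_norm (κ - Complex.I)
    simp only [Complex.sub_re, Complex.I_re, sub_zero] at this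
    linarith
  have him : 0 < κ.im := by
    have := Complex.abs_im_le_norm (κ - Complex.I)
    simp only [Complex.sub_im, Complex.I_im] at this
    have := abs_le.mp (this.trans hk)
    linarith [this.1]
  have habs := abs_le.mp hre
  have hsin : Real.sin (om F q) = κ.re := by
    unfold om
    rw [← hκ, Real.sin_arcsin (by linarith [habs.1]) (by linarith [habs.2])]
  have hcos : Real.cos (om F q) = κ.im := by
    unfold om
    rw [← hκ, Real.cos_arcsin]
    have h1 : κ.re ^ 2 + κ.im ^ 2 = 1 := by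
      have := Complex.sq_norm κ
      rw [hn, Complex.normSq_apply] at this
      nlinarith
    have h2 : 1 - κ.re ^ 2 = κ.im ^ 2 := by linarith
    rw [h2, Real.sqrt_sq him.le]
  refine ⟨hsin.symm, ?_, ?_⟩
  · rw [hsin]
    linarith
  · have h1 : -(Complex.I * (om F q : ℂ)) = ((-(om F q) : ℝ) : ℂ) * Complex.I := by
      push_cast; ring
    rw [h1, Complex.exp_mul_I, ← Complex.ofReal_cos, ← Complex.ofReal_sin, Real.cos_neg, Real.sin_neg,
      hsin, hcos]
    apply Complex.ext <;> simp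

/-- local additivity of the angle forces the first partial to be locally independent of `v` -/
lemma local_indep (hF : ContDiff ℝ 1 F) (hu : ∀ p, ‖du F p‖ = 1) (hv : ∀ p, ‖dv F p‖ = 1)
    (hu1 : ∀ p, ‖du F p - 1‖ ≤ 1 / 4) (hv1 : ∀ p, ‖dv F p - Complex.I‖ ≤ 1 / 4)
    {u₀ v₀ : ℝ} (h : ∃ g h : ℝ → ℝ, ∀ᶠ q in 𝓝 (u₀, v₀), om F q = g q.1 + h q.2) :
    ∀ᶠ v in 𝓝 v₀, du F (u₀, v) = du F (u₀, v₀) := by
  obtain ⟨g0, h0, hgh⟩ := h
  have hcdu : Continuous (du F) := by
    unfold du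
    exact (hF.continuous_fderiv one_ne_zero).clm_apply continuous_const
  have hcdv : Continuous (dv F) := by
    unfold dv
    exact (hF.continuous_fderiv one_ne_zero).clm_apply continuous_const
  have hom : Continuous (om F) := by
    unfold om
    exact Real.continuous_arcsin.comp (Complex.continuous_re.comp
      ((Complex.continuous_conj.comp hcdu).mul hcdv))
  set g : ℝ → ℝ := fun u => om F (u, v₀) - h0 v₀ with hg
  set h : ℝ → ℝ := fun v => om F (u₀, v) - g0 u₀ with hh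
  have hgc : Continuous g := (hom.comp (continuous_id.prodMk continuous_const)).sub continuous_const
  have hhc : Continuous h := (hom.comp (continuous_const.prodMk continuous_id)).sub continuous_const
  have hgh2 : ∀ᶠ q in 𝓝 ((u₀, v₀) : ℝ × ℝ), om F q = g q.1 + h q.2 := by
    have t1 : Tendsto (fun q : ℝ × ℝ => ((q.1, v₀) : ℝ × ℝ)) (𝓝 (u₀, v₀)) (𝓝 (u₀, v₀)) :=
      (continuous_fst.prodMk continuous_const).tendsto (u₀, v₀)
    have t2 : Tendsto (fun q : ℝ × ℝ => ((u₀, q.2) : ℝ × ℝ)) (𝓝 (u₀, v₀)) (𝓝 (u₀, v₀)) :=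
      (continuous_const.prodMk continuous_snd).tendsto (u₀, v₀)
    filter_upwards [hgh, t1.eventually hgh, t2.eventually hgh] with q e1 e2 e3
    simp only [hg, hh] at *
    rw [e2, e3, e1]
    ring
  set P' : ℝ → ℂ := fun u => Complex.exp (Complex.I * (g u : ℂ)) with hP'
  set R' : ℝ → ℂ := fun v => Complex.I * Complex.exp (-(Complex.I * (h v : ℂ))) with hR'
  have hP'c : Continuous P' := by
    simp only [hP']
    exact Complex.continuous_exp.comp (continuous_const.mul (Complex.continuous_ofReal.comp hgc))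
  have hR'c : Continuous R' := by
    simp only [hR']
    exact continuous_const.mul (Complex.continuous_exp.comp
      (continuous_const.mul (Complex.continuous_ofReal.comp hhc)).neg)
  set P : ℝ → ℂ := fun u => ∫ t in (0 : ℝ)..u, P' t with hP
  set R : ℝ → ℂ := fun v => ∫ t in (0 : ℝ)..v, R' t with hR
  have hPd : ∀ u, HasDerivAt P (P' u) u := fun u => (hP'c.integral_hasStrictDerivAt 0 u).hasDerivAt
  have hRd : ∀ v, HasDerivAt R (R' v) v := fun v => (hR'c.integral_hasStrictDerivAt 0 v).hasDerivAt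
  have hPcd : ContDiff ℝ 1 P := by
    rw [contDiff_one_iff_deriv]
    refine ⟨fun u => (hPd u).differentiableAt, ?_⟩
    have : deriv P = P' := funext fun u => (hPd u).deriv
    rw [this]; exact hP'c
  have hRcd : ContDiff ℝ 1 R := by
    rw [contDiff_one_iff_deriv]
    refine ⟨fun u => (hRd u).differentiableAt, ?_⟩
    have : deriv R = R' := funext fun u => (hRd u).deriv
    rw [this]; exact hR'c
  set G : ℝ × ℝ → ℂ := fun q => P q.1 + R q.2 with hG
  have hGcd : ContDiff ℝ 1 G := (hPcd.comp contDiff_fst).add (hRcd.comp contDiff_snd)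
  have hGd : ∀ q, HasFDerivAt G ((ContinuousLinearMap.fst ℝ ℝ ℝ).smulRight (P' q.1)
      + (ContinuousLinearMap.snd ℝ ℝ ℝ).smulRight (R' q.2)) q := by
    intro q
    have h1 : HasFDerivAt (fun q : ℝ × ℝ => P q.1) ((ContinuousLinearMap.fst ℝ ℝ ℝ).smulRight (P' q.1)) q := by
      have := (hPd q.1).hasFDerivAt.comp q (hasFDerivAt_fst (𝕜 := ℝ) (E := ℝ) (F := ℝ) (p := q))
      refine this.congr_fderiv ?_
      ext w <;> simp
    have h2 : HasFDerivAt (fun q : ℝ × ℝ => R q.2) ((ContinuousLinearMap.snd ℝ ℝ ℝ).smulRight (R' q.2)) q := by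
      have := (hRd q.2).hasFDerivAt.comp q (hasFDerivAt_snd (𝕜 := ℝ) (E := ℝ) (F := ℝ) (p := q))
      refine this.congr_fderiv ?_
      ext w <;> simp
    exact h1.add h2
  have hGu : ∀ q, du G q = P' q.1 := fun q => by
    unfold du
    rw [(hGd q).fderiv]
    simp
  have hGv : ∀ q, dv G q = R' q.2 := fun q => by
    unfold dv
    rw [(hGd q).fderiv]
    simp
  have hGu1 : ∀ q, ‖du G q‖ = 1 := fun q => by
    rw [hGu]
    simp only [hP']
    rw [mul_comm, Complex.norm_exp_ofReal_mul_I]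
  have hev : ∀ᶠ q in 𝓝 ((u₀, v₀) : ℝ × ℝ), dv F q * du G q = du F q * dv G q := by
    filter_upwards [hgh2] with q hq
    have hk := (kappa_eq hu hv hu1 hv1 q).2.2
    have h1 : dv F q = du F q * (conj (du F q) * dv F q) := by
      rw [← mul_assoc, Complex.mul_conj, Complex.normSq_eq_norm_sq, hu]
      simp
    rw [h1, hk, hq, hGu, hGv]
    simp only [hP', hR']
    have h2 : Complex.exp (-(Complex.I * ((g q.1 + h q.2 : ℝ) : ℂ)))
        * Complex.exp (Complex.I * (g q.1 : ℂ)) = Complex.exp (-(Complex.I * (h q.2 : ℂ))) := by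
      rw [← Complex.exp_add]
      congr 1
      push_cast
      ring
    calc du F q * (Complex.I * Complex.exp (-(Complex.I * ((g q.1 + h q.2 : ℝ) : ℂ)))) * Complex.exp (Complex.I * (g q.1 : ℂ))
        = du F q * Complex.I * (Complex.exp (-(Complex.I * ((g q.1 + h q.2 : ℝ) : ℂ))) * Complex.exp (Complex.I * (g q.1 : ℂ))) := by ring
      _ = _ := by rw [h2]; ring
  have himm : (conj (du G (u₀, v₀)) * dv G (u₀, v₀)).im ≠ 0 := by
    have e1 := hev.self_of_nhds
    have hq := hgh2.self_of_nhds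
    have hk := kappa_close hu hu1 hv1 (u₀, v₀)
    have e2 : conj (du G (u₀, v₀)) * dv G (u₀, v₀) = conj (du F (u₀, v₀)) * dv F (u₀, v₀) := by
      have a1 : conj (du F (u₀, v₀)) * du F (u₀, v₀) = 1 := by
        rw [mul_comm, Complex.mul_conj, Complex.normSq_eq_norm_sq, hu]; simp
      have a2 : conj (du G (u₀, v₀)) * du G (u₀, v₀) = 1 := by
        rw [mul_comm, Complex.mul_conj, Complex.normSq_eq_norm_sq, hGu1]; simp
      calc conj (du G (u₀, v₀)) * dv G (u₀, v₀)
          = (conj (du F (u₀, v₀)) * du F (u₀, v₀)) * (conj (du G (u₀, v₀)) * dv G (u₀, v₀)) := by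
            rw [a1, one_mul]
        _ = conj (du F (u₀, v₀)) * conj (du G (u₀, v₀)) * (du F (u₀, v₀) * dv G (u₀, v₀)) := by ring
        _ = conj (du F (u₀, v₀)) * conj (du G (u₀, v₀)) * (dv F (u₀, v₀) * du G (u₀, v₀)) := by rw [e1]
        _ = (conj (du G (u₀, v₀)) * du G (u₀, v₀)) * (conj (du F (u₀, v₀)) * dv F (u₀, v₀)) := by ring
        _ = _ := by rw [a2, one_mul]
    rw [e2]
    have := Complex.abs_im_le_norm (conj (du F (u₀, v₀)) * dv F (u₀, v₀) - Complex.I)
    rw [Complex.sub_im, Complex.I_im] at this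
    have := abs_le.mp (this.trans hk)
    intro h0
    rw [h0] at this
    linarith [this.1]
  have hrig := rigid hF hGcd hu hGu1 hev himm
  have t3 : Tendsto (fun v : ℝ => ((u₀, v) : ℝ × ℝ)) (𝓝 v₀) (𝓝 (u₀, v₀)) :=
    (continuous_const.prodMk continuous_id).tendsto v₀
  filter_upwards [t3.eventually hrig] with v hv'
  have hne : P' u₀ ≠ 0 := Complex.exp_ne_zero _
  rw [hGu, hGu] at hv'
  simp only at hv'
  exact (div_left_inj' hne).mp hv'

end

theorem exists_counterexample : ∃ F : ℝ × ℝ → ℂ, ContDiff ℝ 1 F ∧ (∀ p, ‖du F p‖ = 1) ∧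
    (∀ p, ‖dv F p‖ = 1) ∧ (∀ p, ‖du F p - 1‖ ≤ 1 / 4) ∧ (∀ p, ‖dv F p - Complex.I‖ ≤ 1 / 4) ∧
    ∃ p, ¬ ∃ g h : ℝ → ℝ, ∀ᶠ q in 𝓝 p, om F q = g q.1 + h q.2 := by
  obtain ⟨F, hF, hu, hv, hu1, hv1, hne⟩ := exists_limit
  refine ⟨F, hF, hu, hv, hu1, hv1, ?_⟩
  by_contra hcon
  push Not at hcon
  apply hne
  have hconst : ∀ u v v' : ℝ, du F (u, v) = du F (u, v') := by
    intro u v v'
    have hlc : IsLocallyConstant (fun v => du F (u, v)) := by
      rw [IsLocallyConstant.iff_eventually_eq]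
      intro v₀
      exact local_indep hF hu hv hu1 hv1 (hcon (u, v₀))
    exact hlc.apply_eq_of_preconnectedSpace v v'
  have hline : ∀ v u, HasDerivAt (fun u : ℝ => F (u, v)) (du F (u, v)) u := by
    intro v u
    have h1 : HasFDerivAt F (fderiv ℝ F (u, v)) (u, v) :=
      (hF.differentiable one_ne_zero (u, v)).hasFDerivAt
    have h2 : HasDerivAt (fun u : ℝ => ((u, v) : ℝ × ℝ)) (1, 0) u :=
      (hasDerivAt_id u).prodMk (hasDerivAt_const u v)
    exact h1.comp_hasDerivAt u h2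
  have hD : ∀ u, HasDerivAt (fun u : ℝ => F (u, Real.pi / 2) - F (u, 0)) 0 u := by
    intro u
    have := (hline (Real.pi / 2) u).sub (hline 0 u)
    rw [hconst u (Real.pi / 2) 0, sub_self] at this
    exact this
  have := is_const_of_deriv_eq_zero (fun u => (hD u).differentiableAt) (fun u => (hD u).deriv)
    (Real.pi / 2) 0
  linear_combination this

theorem main : ∃ om0 : ℝ × ℝ → ℝ, Continuous om0 ∧ (∀ q, |Real.sin (om0 q)| < 1) ∧
    (∃ x y : ℝ × ℝ → ℝ, ContDiff ℝ 1 x ∧ ContDiff ℝ 1 y ∧ ∀ q,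
      (fderiv ℝ x q (1, 0)) ^ 2 + (fderiv ℝ y q (1, 0)) ^ 2 = 1 ∧
      (fderiv ℝ x q (0, 1)) ^ 2 + (fderiv ℝ y q (0, 1)) ^ 2 = 1 ∧
      fderiv ℝ x q (1, 0) * fderiv ℝ x q (0, 1) + fderiv ℝ y q (1, 0) * fderiv ℝ y q (0, 1)
        = Real.sin (om0 q)) ∧
    ∃ p, ¬ ∃ U ∈ 𝓝 p, ∃ g h : ℝ → ℝ, ∀ q ∈ U, om0 q = g q.1 + h q.2 := by
  obtain ⟨F, hF, hu, hv, hu1, hv1, p, hp⟩ := exists_counterexample
  have hcdu : Continuous (du F) := by
    unfold du
    exact (hF.continuous_fderiv one_ne_zero).clm_apply continuous_const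
  have hcdv : Continuous (dv F) := by
    unfold dv
    exact (hF.continuous_fderiv one_ne_zero).clm_apply continuous_const
  have hFd : ∀ q, HasFDerivAt F (fderiv ℝ F q) q := fun q =>
    (hF.differentiable one_ne_zero q).hasFDerivAt
  have hx : ∀ q w, fderiv ℝ (fun q => (F q).re) q w = (fderiv ℝ F q w).re := by
    intro q w
    have h1 : HasFDerivAt (fun q => (F q).re) (Complex.reCLM.comp (fderiv ℝ F q)) q :=
      Complex.reCLM.hasFDerivAt.comp q (hFd q)
    rw [h1.fderiv]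
    rfl
  have hy : ∀ q w, fderiv ℝ (fun q => (F q).im) q w = (fderiv ℝ F q w).im := by
    intro q w
    have h1 : HasFDerivAt (fun q => (F q).im) (Complex.imCLM.comp (fderiv ℝ F q)) q :=
      Complex.imCLM.hasFDerivAt.comp q (hFd q)
    rw [h1.fderiv]
    rfl
  have hsq : ∀ z : ℂ, ‖z‖ = 1 → z.re ^ 2 + z.im ^ 2 = 1 := by
    intro z hz
    have := Complex.sq_norm z
    rw [hz, Complex.normSq_apply] at this
    nlinarith
  refine ⟨om F, ?_, fun q => (kappa_eq hu hv hu1 hv1 q).2.1, ⟨fun q => (F q).re, fun q => (F q).im,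
    Complex.reCLM.contDiff.comp hF, Complex.imCLM.contDiff.comp hF, fun q => ⟨?_, ?_, ?_⟩⟩, p, ?_⟩
  · unfold om
    exact Real.continuous_arcsin.comp (Complex.continuous_re.comp
      ((Complex.continuous_conj.comp hcdu).mul hcdv))
  · rw [hx, hy]
    exact hsq _ (hu q)
  · rw [hx, hy]
    exact hsq _ (hv q)
  · rw [hx, hx, hy, hy, ← (kappa_eq hu hv hu1 hv1 q).1]
    simp only [Complex.mul_re, Complex.conj_re, Complex.conj_im]
    unfold du dv
    ring
  · rintro ⟨U, hU, g, h, hgh⟩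
    exact hp ⟨g, h, Filter.mem_of_superset hU hgh⟩

end Pool.Agent.X197.Cheb
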