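import Mathlib

/-! Outgoing dipole field `u = z (r⁻² + i r⁻³) e^{ir}` in `ℝ³`: gradient, Laplacian, Lagrangian. -/

open Complex
open scoped Laplacian ContDiff

namespace Pool.Agent.X197.Helm

noncomputable section

/-- three-dimensional Euclidean space -/
abbrev E3 : Type := EuclideanSpace ℝ (Fin 3)

/-- radial profile -/
def phi (r : ℝ) : ℂ := cexp (I * r) * ((r : ℂ)⁻¹ ^ 2 + I * (r : ℂ)⁻¹ ^ 3)

/-- `phi' / r` -/
def chi (r : ℝ) : ℂ :=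
  cexp (I * r) * (I * (r : ℂ)⁻¹ ^ 3 - 3 * (r : ℂ)⁻¹ ^ 4 - 3 * I * (r : ℂ)⁻¹ ^ 5)

/-- `chi'` -/
def chi' (r : ℝ) : ℂ :=
  cexp (I * r) * (-(r : ℂ)⁻¹ ^ 3 - 6 * I * (r : ℂ)⁻¹ ^ 4 + 15 * (r : ℂ)⁻¹ ^ 5
    + 15 * I * (r : ℂ)⁻¹ ^ 6)

lemma hasDerivAt_e (r : ℝ) : HasDerivAt (fun r : ℝ => cexp (I * r)) (cexp (I * r) * I) r := by
  have h : HasDerivAt (fun r : ℝ => (I * (r : ℂ))) (I * 1) r :=
    (Complex.ofRealCLM.hasDerivAt (x := r)).const_mul I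
  simpa using h.cexp

lemma hasDerivAt_inv (r : ℝ) (hr : r ≠ 0) :
    HasDerivAt (fun r : ℝ => (r : ℂ)⁻¹) (-(r : ℂ)⁻¹ ^ 2) r := by
  have h : HasDerivAt (fun r : ℝ => (r : ℂ)) 1 r := Complex.ofRealCLM.hasDerivAt (x := r)
  have h2 := h.inv (by exact_mod_cast hr)
  refine h2.congr_deriv ?_
  field_simp

lemma hasDerivAt_bpow (r : ℝ) (hr : r ≠ 0) (n : ℕ) :
    HasDerivAt (fun r : ℝ => (r : ℂ)⁻¹ ^ (n + 1)) (-((n : ℂ) + 1) * (r : ℂ)⁻¹ ^ (n + 2)) r := by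
  have h := (hasDerivAt_inv r hr).pow (n + 1)
  refine (h.congr_deriv ?_).congr_of_eventuallyEq ?_
  · simp only [Nat.add_sub_cancel]
    push_cast
    ring
  · exact Filter.Eventually.of_forall fun t => by simp

lemma hasDerivAt_phi (r : ℝ) (hr : r ≠ 0) : HasDerivAt phi (chi r * r) r := by
  have h := (hasDerivAt_e r).mul ((hasDerivAt_bpow r hr 1).add
    ((hasDerivAt_bpow r hr 2).const_mul I))
  have hrc : (r : ℂ) ≠ 0 := by exact_mod_cast hr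
  have hrb : (r : ℂ) * (r : ℂ)⁻¹ = 1 := mul_inv_cancel₀ hrc
  refine (h.congr_deriv ?_).congr_of_eventuallyEq ?_
  · simp only [chi, Pi.add_apply]
    push_cast
    linear_combination (cexp (I * r) * (r : ℂ)⁻¹ ^ 3) * I_sq -
      cexp (I * r) * (I * (r : ℂ)⁻¹ ^ 2 - 3 * (r : ℂ)⁻¹ ^ 3 - 3 * I * (r : ℂ)⁻¹ ^ 4) * hrb
  · exact Filter.Eventually.of_forall fun t => by simp [phi]

lemma hasDerivAt_chi (r : ℝ) (hr : r ≠ 0) : HasDerivAt chi (chi' r) r := by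
  have h := (hasDerivAt_e r).mul ((((hasDerivAt_bpow r hr 2).const_mul I).sub
    ((hasDerivAt_bpow r hr 3).const_mul 3)).sub
    ((hasDerivAt_bpow r hr 4).const_mul (3 * I)))
  refine (h.congr_deriv ?_).congr_of_eventuallyEq ?_
  · simp only [chi', Pi.sub_apply]
    push_cast
    linear_combination (cexp (I * r) * ((r : ℂ)⁻¹ ^ 3 - 3 * (r : ℂ)⁻¹ ^ 5)) * I_sq
  · exact Filter.Eventually.of_forall fun t => by simp [chi]

lemma ode (r : ℝ) (hr : r ≠ 0) : 5 * chi r + r * chi' r + phi r = 0 := by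
  have hrc : (r : ℂ) ≠ 0 := by exact_mod_cast hr
  simp only [chi, chi', phi]
  field_simp
  ring_nf

/-- complex-valued coordinate projection -/
def J (i : Fin 3) : E3 →L[ℝ] ℂ := Complex.ofRealCLM.comp (EuclideanSpace.proj i)

/-- complex-valued inner product -/
def N (x : E3) : E3 →L[ℝ] ℂ := Complex.ofRealCLM.comp (innerSL ℝ x)

lemma J_apply (i : Fin 3) (v : E3) : J i v = (v i : ℂ) := by simp [J]
lemma N_apply (x v : E3) : N x v = ((inner ℝ x v : ℝ) : ℂ) := by simp [N]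

lemma N_single (x : E3) (i : Fin 3) : N x (EuclideanSpace.single i 1) = (x i : ℂ) := by
  rw [N_apply]
  simp [EuclideanSpace.inner_single_right]

lemma hasFDerivAt_J (i : Fin 3) (x : E3) :
    HasFDerivAt (fun y : E3 => ((y i : ℝ) : ℂ)) (J i) x := by
  have h := (J i).hasFDerivAt (x := x)
  refine h.congr_of_eventuallyEq (Filter.Eventually.of_forall fun y => ?_)
  simp [J_apply]

lemma hasFDerivAt_nrm (x : E3) (hx : x ≠ 0) :
    HasFDerivAt (fun y : E3 => ‖y‖) (‖x‖⁻¹ • innerSL ℝ x) x := by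
  have h := ((hasStrictFDerivAt_norm_sq x).hasFDerivAt).sqrt (by positivity)
  have e : (fun y : E3 => ‖y‖) = fun y : E3 => Real.sqrt (‖y‖ ^ 2) := by
    funext y
    rw [Real.sqrt_sq (norm_nonneg y)]
  rw [e]
  refine h.congr_fderiv ?_
  ext v
  simp only [Real.sqrt_sq (norm_nonneg x), smul_apply, smul_eq_mul]
  have : ‖x‖ ≠ 0 := by positivity
  field_simp
  simp [two_smul]
  try ring

lemma hasFDerivAt_radial (h : ℝ → ℂ) (h' : ℂ) (x : E3) (hx : x ≠ 0)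
    (hh : HasDerivAt h h' ‖x‖) :
    HasFDerivAt (fun y : E3 => h ‖y‖) ((h' * (‖x‖ : ℂ)⁻¹) • N x) x := by
  have h1 := hh.hasFDerivAt.comp x (hasFDerivAt_nrm x hx)
  refine h1.congr_fderiv ?_
  ext v
  simp [N_apply]
  ring

/-- the dipole field -/
def uu (x : E3) : ℂ := (x 2 : ℂ) * phi ‖x‖

/-- its gradient -/
def gu (x : E3) : E3 →L[ℝ] ℂ := phi ‖x‖ • J 2 + ((x 2 : ℂ) * chi ‖x‖) • N x

lemma hasFDerivAt_uu (x : E3) (hx : x ≠ 0) : HasFDerivAt uu (gu x) x := by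
  have hr : ‖x‖ ≠ 0 := by simpa using hx
  have hrc : (‖x‖ : ℂ) ≠ 0 := by exact_mod_cast hr
  have h := (hasFDerivAt_J 2 x).mul (hasFDerivAt_radial phi _ x hx (hasDerivAt_phi _ hr))
  refine (h.congr_fderiv ?_)
  ext v
  simp only [gu, add_apply, smul_apply, smul_eq_mul]
  field_simp
  ring

lemma gu_single (x : E3) (i : Fin 3) :
    gu x (EuclideanSpace.single i 1) = phi ‖x‖ * J 2 (EuclideanSpace.single i 1)
      + (x 2 : ℂ) * chi ‖x‖ * (x i : ℂ) := by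
  simp only [gu, add_apply, smul_apply, smul_eq_mul,
    N_single]

lemma hasFDerivAt_gui (x : E3) (hx : x ≠ 0) (i : Fin 3) :
    HasFDerivAt (fun y => gu y (EuclideanSpace.single i 1))
      (((chi ‖x‖) * J 2 (EuclideanSpace.single i 1)) • N x
        + (((x 2 : ℂ) * chi ‖x‖) • J i + (x i : ℂ) • ((x 2 : ℂ) • ((chi' ‖x‖ * (‖x‖ : ℂ)⁻¹) • N x)
          + chi ‖x‖ • J 2))) x := by
  have hr : ‖x‖ ≠ 0 := by simpa using hx
  have hrc : (‖x‖ : ℂ) ≠ 0 := by exact_mod_cast hr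
  have h1 := (hasFDerivAt_radial phi _ x hx (hasDerivAt_phi _ hr)).mul_const
    (J 2 (EuclideanSpace.single i 1))
  have h2 := ((hasFDerivAt_J 2 x).mul (hasFDerivAt_radial chi _ x hx (hasDerivAt_chi _ hr))).mul
    (hasFDerivAt_J i x)
  have h := h1.add h2
  have e : (fun y => gu y (EuclideanSpace.single i 1)) =
      (fun y : E3 => phi ‖y‖ * J 2 (EuclideanSpace.single i 1)) +
      (fun y : E3 => ((y 2 : ℝ) : ℂ) * chi ‖y‖ * ((y i : ℝ) : ℂ)) := by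
    funext y
    exact gu_single y i
  rw [e]
  refine h.congr_fderiv ?_
  ext v
  simp only [add_apply, smul_apply, smul_eq_mul, Pi.mul_apply]
  field_simp

lemma contDiffAt_phi (x : E3) (hx : x ≠ 0) : ContDiffAt ℝ ∞ (fun y : E3 => phi ‖y‖) x := by
  have hr : ‖x‖ ≠ 0 := by simpa using hx
  have hrc : (‖x‖ : ℂ) ≠ 0 := by exact_mod_cast hr
  have hn : ContDiffAt ℝ ∞ (fun y : E3 => ‖y‖) x := contDiffAt_norm ℝ hx
  have hc : ContDiffAt ℝ ∞ (fun y : E3 => ((‖y‖ : ℝ) : ℂ)) x :=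
    Complex.ofRealCLM.contDiff.contDiffAt.comp x hn
  have hi : ContDiffAt ℝ ∞ (fun y : E3 => ((‖y‖ : ℝ) : ℂ)⁻¹) x := hc.inv hrc
  have he : ContDiffAt ℝ ∞ (fun y : E3 => cexp (I * ((‖y‖ : ℝ) : ℂ))) x :=
    (contDiffAt_const.mul hc).cexp
  exact he.mul ((hi.pow 2).add (contDiffAt_const.mul (hi.pow 3)))

lemma contDiffAt_uu (x : E3) (hx : x ≠ 0) : ContDiffAt ℝ ∞ uu x := by
  have h1 : ContDiffAt ℝ ∞ (fun y : E3 => ((y 2 : ℝ) : ℂ)) x := by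
    have : ContDiff ℝ ∞ (J 2) := (J 2).contDiff
    have h2 := this.contDiffAt (x := x)
    refine h2.congr_of_eventuallyEq (Filter.Eventually.of_forall fun y => ?_)
    simp [J_apply]
  exact h1.mul (contDiffAt_phi x hx)

lemma second (x : E3) (hx : x ≠ 0) (i : Fin 3) :
    iteratedFDeriv ℝ 2 uu x ![EuclideanSpace.single i 1, EuclideanSpace.single i 1] =
      (chi ‖x‖) * J 2 (EuclideanSpace.single i 1) * (x i : ℂ)
        + ((x 2 : ℂ) * chi ‖x‖ + (x i : ℂ) * ((x 2 : ℂ) * (chi' ‖x‖ * (‖x‖ : ℂ)⁻¹ * (x i : ℂ))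
          + chi ‖x‖ * J 2 (EuclideanSpace.single i 1))) := by
  rw [iteratedFDeriv_two_apply]
  simp only [Matrix.cons_val_zero, Matrix.cons_val_one]
  have hev : (fun y => fderiv ℝ uu y) =ᶠ[nhds x] gu := by
    filter_upwards [isOpen_compl_singleton.mem_nhds (show x ∈ ({0} : Set E3)ᶜ from hx)] with y hy
    exact (hasFDerivAt_uu y hy).fderiv
  have hd : DifferentiableAt ℝ (fderiv ℝ uu) x := by
    have h := (contDiffAt_uu x hx).fderiv_right (m := 1) (by norm_cast)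
    exact h.differentiableAt (by norm_num)
  have h1 := (hd.hasFDerivAt.clm_apply
    (hasFDerivAt_const (EuclideanSpace.single i (1 : ℝ) : E3) x))
  have h2 : HasFDerivAt (fun y => fderiv ℝ uu y (EuclideanSpace.single i 1)) _ x :=
    (hasFDerivAt_gui x hx i).congr_of_eventuallyEq (by
      filter_upwards [hev] with y hy
      rw [hy])
  have h3 := h1.unique h2
  have h4 := congrArg (fun L : E3 →L[ℝ] ℂ => L (EuclideanSpace.single i 1)) h3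
  simp only [add_apply, smul_apply, smul_eq_mul,
    N_single, ContinuousLinearMap.comp_apply, ContinuousLinearMap.flip_apply,
    zero_apply, map_zero, zero_add] at h4
  rw [h4]
  simp [J_apply]
  try ring

lemma sq_sum (x : E3) : (x 0) ^ 2 + (x 1) ^ 2 + (x 2) ^ 2 = ‖x‖ ^ 2 := by
  rw [EuclideanSpace.norm_sq_eq, Fin.sum_univ_three]
  simp

lemma laplacian_uu (x : E3) (hx : x ≠ 0) : Δ uu x = - uu x := by
  have hr : ‖x‖ ≠ 0 := by simpa using hx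
  have hrc : (‖x‖ : ℂ) ≠ 0 := by exact_mod_cast hr
  rw [InnerProductSpace.laplacian_eq_iteratedFDeriv_orthonormalBasis uu
    (EuclideanSpace.basisFun (Fin 3) ℝ)]
  simp only [EuclideanSpace.basisFun_apply, second x hx, Fin.sum_univ_three, J_apply]
  have hs : ((x 0 : ℂ)) ^ 2 + (x 1 : ℂ) ^ 2 + (x 2 : ℂ) ^ 2 = (‖x‖ : ℂ) ^ 2 := by
    exact_mod_cast congrArg (fun t : ℝ => (t : ℂ)) (sq_sum x)
  have ho := ode ‖x‖ hr
  simp only [PiLp.single_apply, uu]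
  have hinv : (‖x‖ : ℂ)⁻¹ * (‖x‖ : ℂ) = 1 := inv_mul_cancel₀ hrc
  norm_num [Fin.ext_iff]
  linear_combination (x 2 : ℂ) * ho + (x 2 : ℂ) * chi' ‖x‖ * (‖x‖ : ℂ)⁻¹ * hs
    + (x 2 : ℂ) * chi' ‖x‖ * (‖x‖ : ℂ) * hinv

/-- the Lagrangian density `|u|² - |∇u|²` -/
def lagr (u : E3 → ℂ) (x : E3) : ℝ :=
  ‖u x‖ ^ 2 - ∑ i : Fin 3, ‖fderiv ℝ u x (EuclideanSpace.single i 1)‖ ^ 2

/-- its explicit value for the dipole -/
def DD (x : E3) : ℝ :=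
  (x 2) ^ 2 * (2 * ‖x‖⁻¹ ^ 6 - 3 * ‖x‖⁻¹ ^ 8) - ‖x‖⁻¹ ^ 4 - ‖x‖⁻¹ ^ 6

lemma norm_e (r : ℝ) : ‖cexp (I * r)‖ = 1 := by
  rw [mul_comm]
  exact Complex.norm_exp_ofReal_mul_I r

lemma lagr_uu (x : E3) (hx : x ≠ 0) : lagr uu x = DD x := by
  have hr : ‖x‖ ≠ 0 := by simpa using hx
  simp only [lagr, (hasFDerivAt_uu x hx).fderiv, gu_single, Fin.sum_univ_three, J_apply, DD]
  have hs := sq_sum x
  set a : ℝ := ‖x‖⁻¹ with ha
  have hac : ((‖x‖ : ℝ) : ℂ)⁻¹ = (a : ℂ) := by rw [ha]; push_cast; rfl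
  have hrel : ((x 0) ^ 2 + (x 1) ^ 2 + (x 2) ^ 2) * a ^ 2 = 1 := by
    rw [hs, ha]
    field_simp
  have j0 : ((EuclideanSpace.single (0 : Fin 3) (1 : ℝ) : E3) 2) = 0 := by
    simp [PiLp.single_apply]
  have j1 : ((EuclideanSpace.single (1 : Fin 3) (1 : ℝ) : E3) 2) = 0 := by
    simp [PiLp.single_apply]
  have j2 : ((EuclideanSpace.single (2 : Fin 3) (1 : ℝ) : E3) 2) = 1 := by
    simp [PiLp.single_apply]
  rw [j0, j1, j2]
  simp only [uu, phi, chi, hac, Complex.ofReal_zero, mul_zero, zero_add, Complex.ofReal_one,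
    mul_one]
  have e1 : ‖cexp (I * (‖x‖ : ℂ))‖ = 1 := norm_e _
  have k0 : (x 2 : ℂ) * (cexp (I * ‖x‖) * (I * (a : ℂ) ^ 3 - 3 * (a : ℂ) ^ 4 - 3 * I * (a : ℂ) ^ 5))
      * (x 0 : ℂ) = cexp (I * ‖x‖) * (((x 2 * x 0 * (-3 * a ^ 4) : ℝ) : ℂ)
        + ((x 2 * x 0 * (a ^ 3 - 3 * a ^ 5) : ℝ) : ℂ) * I) := by
    push_cast
    ring
  have k1 : (x 2 : ℂ) * (cexp (I * ‖x‖) * (I * (a : ℂ) ^ 3 - 3 * (a : ℂ) ^ 4 - 3 * I * (a : ℂ) ^ 5))
      * (x 1 : ℂ) = cexp (I * ‖x‖) * (((x 2 * x 1 * (-3 * a ^ 4) : ℝ) : ℂ)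
        + ((x 2 * x 1 * (a ^ 3 - 3 * a ^ 5) : ℝ) : ℂ) * I) := by
    push_cast
    ring
  have k2 : cexp (I * ‖x‖) * ((a : ℂ) ^ 2 + I * (a : ℂ) ^ 3) + (x 2 : ℂ) * (cexp (I * ‖x‖) * (I * (a : ℂ) ^ 3 - 3 * (a : ℂ) ^ 4 - 3 * I * (a : ℂ) ^ 5))
      * (x 2 : ℂ) = cexp (I * ‖x‖) * (((a ^ 2 + x 2 * x 2 * (-3 * a ^ 4) : ℝ) : ℂ)
        + ((a ^ 3 + x 2 * x 2 * (a ^ 3 - 3 * a ^ 5) : ℝ) : ℂ) * I) := by
    push_cast
    ring
  have k3 : (a : ℂ) ^ 2 + I * (a : ℂ) ^ 3 = ((a ^ 2 : ℝ) : ℂ) + ((a ^ 3 : ℝ) : ℂ) * I := by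
    push_cast
    ring
  have nsq : ∀ p q : ℝ, ‖(p : ℂ) + (q : ℂ) * I‖ ^ 2 = p ^ 2 + q ^ 2 := by
    intro p q
    rw [← Complex.normSq_eq_norm_sq, Complex.normSq_add_mul_I]
  rw [k0, k1, k2, k3]
  simp only [norm_mul, mul_pow, e1, nsq, one_pow, one_mul, Complex.norm_real, Real.norm_eq_abs,
    sq_abs]
  linear_combination (-(x 2) ^ 2 * (a ^ 4 + 3 * a ^ 6 + 9 * a ^ 8)) * hrel

end

end Pool.Agent.X197.Helm
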