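import Mathlib
import Pool.Agent.X197.HelmA

/-! The star-shaped obstacle: a ball of radius `1/e` with two conical dents along the `z`-axis. -/

open Complex MeasureTheory Set Filter Topology
open scoped Laplacian ContDiff

namespace Pool.Agent.X197.Helm

noncomputable section

/-- angular profile -/
def g (e : ℝ) (x : E3) : ℝ :=
  e + 1 / 4 * Real.smoothTransition (8 * ((x 2) ^ 2 / ‖x‖ ^ 2) - 6)

/-- defining function -/
def FF (e : ℝ) (x : E3) : ℝ := ‖x‖ * g e x - 1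

/-- the obstacle -/
def VV (e : ℝ) : Set E3 := {x | FF e x ≤ 0}

lemma g_ge (e : ℝ) (x : E3) : e ≤ g e x := by
  have := Real.smoothTransition.nonneg (8 * ((x 2) ^ 2 / ‖x‖ ^ 2) - 6)
  unfold g
  linarith

lemma g_le (e : ℝ) (x : E3) : g e x ≤ e + 1 / 4 := by
  have := Real.smoothTransition.le_one (8 * ((x 2) ^ 2 / ‖x‖ ^ 2) - 6)
  unfold g
  linarith

lemma g_smul (e : ℝ) (x : E3) (t : ℝ) (ht : t ≠ 0) : g e (t • x) = g e x := by
  unfold g
  have : ((t • x) 2) ^ 2 / ‖t • x‖ ^ 2 = (x 2) ^ 2 / ‖x‖ ^ 2 := by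
    rw [norm_smul, mul_pow, Real.norm_eq_abs, sq_abs]
    simp only [PiLp.smul_apply, smul_eq_mul, mul_pow]
    rw [mul_div_mul_left _ _ (pow_ne_zero 2 ht)]
  rw [this]

lemma contDiffAt_FF (e : ℝ) (x : E3) (hx : x ≠ 0) : ContDiffAt ℝ ∞ (FF e) x := by
  have hr : ‖x‖ ≠ 0 := by simpa using hx
  have hn : ContDiffAt ℝ ∞ (fun y : E3 => ‖y‖) x := contDiffAt_norm ℝ hx
  have h2 : ContDiffAt ℝ ∞ (fun y : E3 => y 2) x :=
    (EuclideanSpace.proj (𝕜 := ℝ) (2 : Fin 3)).contDiff.contDiffAt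
  have hq : ContDiffAt ℝ ∞ (fun y : E3 => (y 2) ^ 2 / ‖y‖ ^ 2) x :=
    (h2.pow 2).div (hn.pow 2) (pow_ne_zero 2 hr)
  have hT : ContDiffAt ℝ ∞ (fun y : E3 =>
      Real.smoothTransition (8 * ((y 2) ^ 2 / ‖y‖ ^ 2) - 6)) x :=
    Real.smoothTransition.contDiffAt.comp x ((contDiffAt_const.mul hq).sub contDiffAt_const)
  exact (hn.mul (contDiffAt_const.add (contDiffAt_const.mul hT))).sub contDiffAt_const

lemma continuous_FF (e : ℝ) (he : 0 < e) : Continuous (FF e) := by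
  rw [continuous_iff_continuousAt]
  intro x
  by_cases hx : x = 0
  · subst hx
    have h1 : Tendsto (fun y : E3 => ‖y‖ * g e y) (𝓝 0) (𝓝 0) := by
      have h2 : Tendsto (fun y : E3 => ‖y‖ * (e + 1 / 4)) (𝓝 0) (𝓝 0) := by
        have : Continuous (fun y : E3 => ‖y‖ * (e + 1 / 4)) := by fun_prop
        simpa using this.tendsto 0
      refine squeeze_zero (fun y => ?_) (fun y => ?_) h2
      · exact mul_nonneg (norm_nonneg y) (he.le.trans (g_ge e y))
      · exact mul_le_mul_of_nonneg_left (g_le e y) (norm_nonneg y)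
    have h3 : Tendsto (FF e) (𝓝 0) (𝓝 (0 - 1)) := h1.sub tendsto_const_nhds
    have : FF e 0 = 0 - 1 := by simp [FF]
    rw [ContinuousAt, this]
    exact h3
  · exact (contDiffAt_FF e x hx).continuousAt

lemma zero_mem (e : ℝ) : (0 : E3) ∈ VV e := by
  simp [VV, FF]

lemma isClosed_VV (e : ℝ) (he : 0 < e) : IsClosed (VV e) :=
  isClosed_le (continuous_FF e he) continuous_const

lemma VV_bdd (e : ℝ) (he : 0 < e) : VV e ⊆ Metric.closedBall 0 (1 / e) := by
  intro x hx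
  rw [mem_closedBall_zero_iff]
  have h1 : ‖x‖ * g e x ≤ 1 := by
    have : FF e x ≤ 0 := hx
    unfold FF at this
    linarith
  have h2 : ‖x‖ * e ≤ 1 := (mul_le_mul_of_nonneg_left (g_ge e x) (norm_nonneg x)).trans h1
  rw [le_div_iff₀ he]
  exact h2

lemma isCompact_VV (e : ℝ) (he : 0 < e) : IsCompact (VV e) :=
  (isCompact_closedBall (0 : E3) (1 / e)).of_isClosed_subset (isClosed_VV e he) (VV_bdd e he)

lemma zero_mem_interior (e : ℝ) (he : 0 < e) : (0 : E3) ∈ interior (VV e) := by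
  rw [mem_interior]
  refine ⟨{x | FF e x < 0}, fun x hx => show FF e x ≤ 0 from le_of_lt hx,
    isOpen_lt (continuous_FF e he) continuous_const, ?_⟩
  simp [FF]

lemma frontier_VV (e : ℝ) (he : 0 < e) {p : E3} (hp : p ∈ frontier (VV e)) :
    FF e p = 0 ∧ p ≠ 0 := by
  have h1 : FF e p = 0 := frontier_le_subset_eq (continuous_FF e he) continuous_const hp
  refine ⟨h1, ?_⟩
  rintro rfl
  simp [FF] at h1

lemma fderiv_radial (e : ℝ) (p : E3) (hp : p ≠ 0) : fderiv ℝ (FF e) p p = ‖p‖ * g e p := by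
  have hd : HasFDerivAt (FF e) (fderiv ℝ (FF e) p) ((1 : ℝ) • p) := by
    rw [one_smul]
    exact ((contDiffAt_FF e p hp).differentiableAt (by simp)).hasFDerivAt
  have hl : HasDerivAt (fun t : ℝ => t • p) ((1 : ℝ) • p) 1 := (hasDerivAt_id (1 : ℝ)).smul_const p
  have h1 := hd.comp_hasDerivAt (1 : ℝ) hl
  have h2 : HasDerivAt (fun t : ℝ => t * (‖p‖ * g e p) - 1) (1 * (‖p‖ * g e p)) 1 :=
    ((hasDerivAt_id (1 : ℝ)).mul_const _).sub_const 1
  have h3 : HasDerivAt (FF e ∘ fun t : ℝ => t • p) (1 * (‖p‖ * g e p)) 1 := by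
    refine h2.congr_of_eventuallyEq ?_
    filter_upwards [eventually_gt_nhds (show (0 : ℝ) < 1 by norm_num)] with t ht
    simp only [Function.comp_apply, FF, g_smul e p t ht.ne', norm_smul, Real.norm_eq_abs,
      abs_of_pos ht]
    ring
  have h4 := h1.unique h3
  rw [one_smul, one_mul] at h4
  exact h4

lemma starConvex_VV (e : ℝ) (he : 0 < e) : StarConvex ℝ 0 (VV e) := by
  rw [starConvex_zero_iff]
  intro x hx t ht0 ht1
  rcases ht0.eq_or_lt with h | h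
  · rw [← h, zero_smul]
    exact zero_mem e
  · have h1 : ‖x‖ * g e x - 1 ≤ 0 := hx
    have h0 : 0 ≤ ‖x‖ * g e x := mul_nonneg (norm_nonneg x) (he.le.trans (g_ge e x))
    show FF e (t • x) ≤ 0
    simp only [FF, g_smul e x t h.ne', norm_smul, Real.norm_eq_abs, abs_of_pos h]
    nlinarith

lemma isConnected_compl (e : ℝ) (he : 0 < e) : IsConnected (VV e)ᶜ := by
  have hc : IsConnected ({0}ᶜ : Set E3) :=
    isConnected_compl_singleton_of_one_lt_rank (by
      rw [← Module.finrank_eq_rank]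
      simp) 0
  set Θ : E3 → E3 := fun x => ((1 / g e x + ‖x‖) / ‖x‖) • x with hΘ
  have hgc : ContinuousOn (fun x : E3 => g e x) ({0}ᶜ : Set E3) := by
    intro x hx
    have hx' : x ≠ 0 := hx
    have hr : ‖x‖ ≠ 0 := by simpa using hx'
    have h1 : ContinuousAt (fun y : E3 => (FF e y + 1) / ‖y‖) x :=
      (((contDiffAt_FF e x hx').continuousAt.add continuousAt_const).div
        continuous_norm.continuousAt hr)
    refine (h1.congr ?_).continuousWithinAt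
    have hN : ({0}ᶜ : Set E3) ∈ 𝓝 x := isOpen_compl_singleton.mem_nhds hx
    filter_upwards [hN] with y hy
    have hy0 : y ≠ 0 := hy
    have hy' : ‖y‖ ≠ 0 := by simpa using hy0
    simp only [FF]
    field_simp
    ring
  have hΘc : ContinuousOn Θ {0}ᶜ := by
    have hn : ContinuousOn (fun x : E3 => ‖x‖) ({0}ᶜ : Set E3) := continuous_norm.continuousOn
    have h1 : ContinuousOn (fun x : E3 => 1 / g e x) ({0}ᶜ : Set E3) :=
      continuousOn_const.div hgc (fun x _ => (he.trans_le (g_ge e x)).ne')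
    have h2 : ContinuousOn (fun x : E3 => (1 / g e x + ‖x‖) / ‖x‖) ({0}ᶜ : Set E3) :=
      (h1.add hn).div hn (fun x hx => by simpa using hx)
    exact h2.smul continuousOn_id
  have him : Θ '' ({0}ᶜ) = (VV e)ᶜ := by
    ext y
    constructor
    · rintro ⟨x, hx, rfl⟩
      have hx' : x ≠ 0 := hx
      have hr : 0 < ‖x‖ := by simpa using hx'
      have hg : 0 < g e x := he.trans_le (g_ge e x)
      have ht : 0 < (1 / g e x + ‖x‖) / ‖x‖ := by positivity
      intro hmem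
      have h1 : FF e (((1 / g e x + ‖x‖) / ‖x‖) • x) ≤ 0 := hmem
      simp only [FF, g_smul e x _ ht.ne', norm_smul, Real.norm_eq_abs, abs_of_pos ht] at h1
      have h2 : (1 / g e x + ‖x‖) / ‖x‖ * ‖x‖ * g e x - 1 = ‖x‖ * g e x := by
        field_simp
        ring
      rw [h2] at h1
      have : 0 < ‖x‖ * g e x := by positivity
      linarith
    · intro hy
      have hy1 : 0 < FF e y := not_le.1 hy
      have hg : 0 < g e y := he.trans_le (g_ge e y)
      have hy0 : y ≠ 0 := by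
        rintro rfl
        simp [FF] at hy1
        linarith
      have hr : 0 < ‖y‖ := by simpa using hy0
      have h2 : 1 < ‖y‖ * g e y := by
        unfold FF at hy1
        linarith
      have h3 : 0 < 1 - 1 / (g e y * ‖y‖) := by
        rw [sub_pos, div_lt_one (by positivity)]
        linarith [mul_comm (g e y) ‖y‖]
      refine ⟨(1 - 1 / (g e y * ‖y‖)) • y, ?_, ?_⟩
      · simp only [mem_compl_iff, mem_singleton_iff, smul_eq_zero, not_or]
        exact ⟨h3.ne', hy0⟩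
      · simp only [hΘ, g_smul e y _ h3.ne', norm_smul, Real.norm_eq_abs, abs_of_pos h3, smul_smul]
        have : (1 / g e y + (1 - 1 / (g e y * ‖y‖)) * ‖y‖) / ((1 - 1 / (g e y * ‖y‖)) * ‖y‖)
            * (1 - 1 / (g e y * ‖y‖)) = 1 := by
          have h4 : (1 / g e y + (1 - 1 / (g e y * ‖y‖)) * ‖y‖) = ‖y‖ := by
            field_simp
            ring
          rw [h4]
          have h3' : (1 - 1 / (g e y * ‖y‖)) ≠ 0 := h3.ne'
          have hr' : ‖y‖ ≠ 0 := hr.ne'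
          rw [div_mul_eq_mul_div, mul_comm ‖y‖, div_self (mul_ne_zero h3' hr')]
        rw [this, one_smul]
  rw [← him]
  exact hc.image Θ hΘc

/-! ### the Lagrangian outside the obstacle -/

lemma norm_z (x : E3) : (x 2) ^ 2 ≤ ‖x‖ ^ 2 := by
  have := sq_sum x
  nlinarith [sq_nonneg (x 0), sq_nonneg (x 1)]

lemma DD_eq (x : E3) (hx : x ≠ 0) :
    DD x * ‖x‖ ^ 8 = (x 2) ^ 2 * (2 * ‖x‖ ^ 2 - 3) - ‖x‖ ^ 4 - ‖x‖ ^ 2 := by
  have hr : ‖x‖ ≠ 0 := by simpa using hx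
  unfold DD
  field_simp

lemma DD_nonneg (x : E3) (h3 : 3 ≤ ‖x‖) (hz : 3 / 4 * ‖x‖ ^ 2 ≤ (x 2) ^ 2) : 0 ≤ DD x := by
  have hx : x ≠ 0 := by
    rintro rfl
    simp at h3
    linarith
  have h := DD_eq x hx
  have hp : 0 < ‖x‖ ^ 8 := by positivity
  have h9 : 9 ≤ ‖x‖ ^ 2 := by nlinarith
  have : 0 ≤ DD x * ‖x‖ ^ 8 := by
    rw [h]
    nlinarith [mul_nonneg (sub_nonneg.2 hz) (by linarith : (0 : ℝ) ≤ 2 * ‖x‖ ^ 2 - 3)]
  by_contra hcon
  push Not at hcon
  nlinarith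

lemma DD_pos (x : E3) (h3 : 3 ≤ ‖x‖) (hz : 3 / 4 * ‖x‖ ^ 2 < (x 2) ^ 2) : 0 < DD x := by
  have hx : x ≠ 0 := by
    rintro rfl
    simp at h3
    linarith
  have h := DD_eq x hx
  have hp : 0 < ‖x‖ ^ 8 := by positivity
  have h9 : 9 ≤ ‖x‖ ^ 2 := by nlinarith
  have : 0 < DD x * ‖x‖ ^ 8 := by
    rw [h]
    nlinarith [mul_pos (sub_pos.2 hz) (by linarith : (0 : ℝ) < 2 * ‖x‖ ^ 2 - 3)]
  by_contra hcon
  push Not at hcon
  nlinarith

lemma DD_bound (x : E3) (h1 : 1 ≤ ‖x‖) : |DD x| ≤ 112 * (1 + ‖x‖) ^ (-(4 : ℝ)) := by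
  have hr : 0 < ‖x‖ := by linarith
  set a : ℝ := ‖x‖⁻¹ with ha
  have ha0 : 0 < a := by positivity
  have ha1 : a ≤ 1 := inv_le_one_of_one_le₀ h1
  have hra : ‖x‖ * a = 1 := mul_inv_cancel₀ hr.ne'
  have hz := norm_z x
  have hza : (x 2) ^ 2 * a ^ 2 ≤ 1 := by
    calc (x 2) ^ 2 * a ^ 2 ≤ ‖x‖ ^ 2 * a ^ 2 := by gcongr
      _ = 1 := by rw [← mul_pow, hra, one_pow]
  have hza0 : 0 ≤ (x 2) ^ 2 * a ^ 2 := by positivity
  have ha2 : a ^ 2 ≤ 1 := pow_le_one₀ ha0.le ha1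
  have hDD : DD x = ((x 2) ^ 2 * a ^ 2) * (2 * a ^ 4 - 3 * (a ^ 2 * a ^ 4)) - a ^ 4 - a ^ 2 * a ^ 4 := by
    simp only [DD, ← ha]
    ring
  have ha4 : 0 < a ^ 4 := by positivity
  have h5 : |DD x| ≤ 7 * a ^ 4 := by
    rw [hDD, abs_le]
    have q1 : 0 ≤ a ^ 2 * a ^ 4 := by positivity
    have q2 : a ^ 2 * a ^ 4 ≤ a ^ 4 := by nlinarith
    constructor
    · nlinarith [mul_nonneg hza0 ha4.le, mul_nonneg hza0 q1, mul_nonneg (sub_nonneg.2 hza) q1,
        mul_nonneg (sub_nonneg.2 hza) ha4.le]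
    · nlinarith [mul_nonneg hza0 ha4.le, mul_nonneg hza0 q1, mul_nonneg (sub_nonneg.2 hza) q1,
        mul_nonneg (sub_nonneg.2 hza) ha4.le]
  have h6 : (1 + ‖x‖) ^ (-(4 : ℝ)) = ((1 + ‖x‖) ^ 4)⁻¹ := by
    rw [Real.rpow_neg (by positivity)]
    congr 1
    exact_mod_cast Real.rpow_natCast (1 + ‖x‖) 4
  rw [h6]
  have h7 : a ^ 4 ≤ 16 * ((1 + ‖x‖) ^ 4)⁻¹ := by
    have h8 : (1 + ‖x‖) ≤ 2 * ‖x‖ := by linarith
    have h9 : (1 + ‖x‖) ^ 4 ≤ (2 * ‖x‖) ^ 4 := by gcongr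
    rw [ha, inv_pow, ← div_eq_mul_inv, inv_eq_one_div, div_le_div_iff₀ (by positivity)
      (by positivity)]
    calc 1 * (1 + ‖x‖) ^ 4 ≤ (2 * ‖x‖) ^ 4 := by linarith
      _ = 16 * ‖x‖ ^ 4 := by ring
  linarith

lemma measurable_DD : Measurable DD := by
  have h2 : Measurable (fun x : E3 => x 2) :=
    (EuclideanSpace.proj (𝕜 := ℝ) (2 : Fin 3)).continuous.measurable
  unfold DD
  have hn : Measurable (fun x : E3 => ‖x‖⁻¹) := measurable_norm.inv
  exact (((h2.pow_const 2).mul (((hn.pow_const 6).const_mul 2).sub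
    ((hn.pow_const 8).const_mul 3))).sub (hn.pow_const 4)).sub (hn.pow_const 6)

lemma integrableOn_DD : IntegrableOn DD {x : E3 | 1 ≤ ‖x‖} := by
  have hi : Integrable (fun x : E3 => 112 * (1 + ‖x‖) ^ (-(4 : ℝ))) volume :=
    (integrable_one_add_norm (by simp; norm_num)).const_mul 112
  refine Integrable.mono' hi.integrableOn measurable_DD.aestronglyMeasurable ?_
  refine (ae_restrict_iff' ?_).2 (Eventually.of_forall fun x hx => ?_)
  · exact measurableSet_le measurable_const measurable_norm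
  · rw [Real.norm_eq_abs]
    exact DD_bound x hx

lemma integrableOn_DD' : IntegrableOn (fun x => |DD x|) {x : E3 | 1 ≤ ‖x‖} :=
  Integrable.abs integrableOn_DD

lemma compl_norm (e : ℝ) (he : 0 < e) (he' : e ≤ 1 / 12) {x : E3} (hx : x ∈ (VV e)ᶜ) :
    3 < ‖x‖ := by
  have h1 : 0 < FF e x := not_le.1 hx
  unfold FF at h1
  have h2 := g_le e x
  have h3 : ‖x‖ * g e x ≤ ‖x‖ * (1 / 3) := mul_le_mul_of_nonneg_left (by linarith) (norm_nonneg x)
  linarith

lemma compl_cone (e : ℝ) (he : 0 < e) {x : E3} (hx : x ∈ (VV e)ᶜ) (hr : ‖x‖ ≤ 1 / e) :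
    3 / 4 * ‖x‖ ^ 2 ≤ (x 2) ^ 2 := by
  by_contra hcon
  push Not at hcon
  have h1 : 0 < FF e x := not_le.1 hx
  have hx0 : x ≠ 0 := by
    rintro rfl
    simp at hcon
  have hr0 : 0 < ‖x‖ := by simpa using hx0
  have h2 : g e x = e := by
    unfold g
    rw [Real.smoothTransition.zero_of_nonpos]
    · ring
    · have : (x 2) ^ 2 / ‖x‖ ^ 2 < 3 / 4 := by
        rw [div_lt_iff₀ (by positivity)]
        exact hcon
      linarith
  unfold FF at h1
  rw [h2] at h1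
  rw [le_div_iff₀ he] at hr
  linarith

/-- the fixed window where the density is positive -/
def KK : Set E3 := {x | 7 / 8 * ‖x‖ ^ 2 < (x 2) ^ 2 ∧ 4 < ‖x‖ ∧ ‖x‖ < 5}

lemma KK_sub (e : ℝ) (he : 0 < e) (he' : e ≤ 1 / 12) :
    KK ⊆ (VV e)ᶜ ∩ {x | ‖x‖ ≤ 1 / e} := by
  rintro x ⟨h1, h2, h3⟩
  have hr0 : 0 < ‖x‖ := by linarith
  constructor
  · intro hx
    have h4 : FF e x ≤ 0 := hx
    have h5 : g e x = e + 1 / 4 := by
      unfold g
      rw [Real.smoothTransition.one_of_one_le]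
      · ring
      · have : 7 / 8 < (x 2) ^ 2 / ‖x‖ ^ 2 := by
          rw [lt_div_iff₀ (by positivity)]
          exact h1
        linarith
    unfold FF at h4
    rw [h5] at h4
    nlinarith
  · show ‖x‖ ≤ 1 / e
    rw [le_div_iff₀ he]
    nlinarith

lemma isOpen_KK : IsOpen KK := by
  have h2 : Continuous (fun x : E3 => x 2) :=
    (EuclideanSpace.proj (𝕜 := ℝ) (2 : Fin 3)).continuous
  exact (isOpen_lt (by fun_prop) (h2.pow 2)).inter
    ((isOpen_lt continuous_const continuous_norm).inter (isOpen_lt continuous_norm continuous_const))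

lemma KK_nonempty : KK.Nonempty := by
  refine ⟨EuclideanSpace.single 2 (9 / 2 : ℝ), ?_⟩
  have h1 : ‖(EuclideanSpace.single 2 (9 / 2 : ℝ) : E3)‖ = 9 / 2 := by
    rw [EuclideanSpace.norm_single]
    norm_num
  have h2 : (EuclideanSpace.single 2 (9 / 2 : ℝ) : E3) 2 = 9 / 2 := by simp
  refine ⟨?_, ?_, ?_⟩
  · rw [h1, h2]; norm_num
  · rw [h1]; norm_num
  · rw [h1]; norm_num

lemma KK_int_pos : 0 < ∫ x in KK, DD x := by
  have hsub : KK ⊆ {x : E3 | 1 ≤ ‖x‖} := fun x hx => by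
    have := hx.2.1
    show 1 ≤ ‖x‖
    linarith
  have hi : IntegrableOn DD KK := integrableOn_DD.mono_set hsub
  have hpos : ∀ x ∈ KK, 0 < DD x := by
    rintro x ⟨h1, h2, h3⟩
    refine DD_pos x (by linarith) ?_
    have : 0 < ‖x‖ ^ 2 := by positivity
    nlinarith
  rw [setIntegral_pos_iff_support_of_nonneg_ae]
  · have : Function.support DD ∩ KK = KK := by
      apply inter_eq_right.2
      intro x hx
      exact (hpos x hx).ne'
    rw [this]
    exact isOpen_KK.measure_pos volume KK_nonempty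
  · refine (ae_restrict_iff' isOpen_KK.measurableSet).2 (Eventually.of_forall fun x hx => ?_)
    exact (hpos x hx).le
  · exact hi

lemma integrableOn_compl (e : ℝ) (he : 0 < e) (he' : e ≤ 1 / 12) :
    IntegrableOn DD (VV e)ᶜ := by
  refine integrableOn_DD.mono_set fun x hx => ?_
  have := compl_norm e he he' hx
  show 1 ≤ ‖x‖
  linarith

lemma int_lower (e : ℝ) (he : 0 < e) (he' : e ≤ 1 / 12) :
    (∫ x in KK, DD x) - ∫ x in {x : E3 | 1 / e < ‖x‖}, |DD x| ≤ ∫ x in (VV e)ᶜ, DD x := by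
  have hm1 : MeasurableSet ({x : E3 | ‖x‖ ≤ 1 / e}) := measurableSet_le measurable_norm
    measurable_const
  have hm2 : MeasurableSet ({x : E3 | 1 / e < ‖x‖}) := measurableSet_lt measurable_const
    measurable_norm
  have hmV : MeasurableSet (VV e)ᶜ := (isClosed_VV e he).measurableSet.compl
  have hint := integrableOn_compl e he he'
  have hsplit : (VV e)ᶜ = ((VV e)ᶜ ∩ {x | ‖x‖ ≤ 1 / e}) ∪ ((VV e)ᶜ ∩ {x | 1 / e < ‖x‖}) := by
    rw [← inter_union_distrib_left]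
    have : ({x : E3 | ‖x‖ ≤ 1 / e} ∪ {x | 1 / e < ‖x‖}) = univ := by
      ext x
      simp [le_or_gt]
    rw [this, inter_univ]
  have hdisj : Disjoint ((VV e)ᶜ ∩ {x | ‖x‖ ≤ 1 / e}) ((VV e)ᶜ ∩ {x | 1 / e < ‖x‖}) := by
    rw [Set.disjoint_left]
    rintro x ⟨_, h1⟩ ⟨_, h2⟩
    have h1' : ‖x‖ ≤ 1 / e := h1
    have h2' : 1 / e < ‖x‖ := h2
    exact absurd h1' (not_le.2 h2')
  have h1 : ∫ x in (VV e)ᶜ, DD x = (∫ x in (VV e)ᶜ ∩ {x | ‖x‖ ≤ 1 / e}, DD x)
      + ∫ x in (VV e)ᶜ ∩ {x | 1 / e < ‖x‖}, DD x := by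
    conv_lhs => rw [hsplit]
    exact setIntegral_union hdisj (hmV.inter hm2) (hint.mono_set inter_subset_left)
      (hint.mono_set inter_subset_left)
  have h2 : ∫ x in KK, DD x ≤ ∫ x in (VV e)ᶜ ∩ {x | ‖x‖ ≤ 1 / e}, DD x := by
    refine setIntegral_mono_set (hint.mono_set inter_subset_left) ?_
      (LE.le.eventuallyLE (KK_sub e he he'))
    refine (ae_restrict_iff' (hmV.inter hm1)).2 (Eventually.of_forall fun x hx => ?_)
    exact DD_nonneg x (compl_norm e he he' hx.1).le (compl_cone e he hx.1 hx.2)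
  have hI2 : IntegrableOn (fun x => |DD x|) {x : E3 | 1 / e < ‖x‖} := by
    refine integrableOn_DD'.mono_set fun x hx => ?_
    have h12 : 12 ≤ 1 / e := by
      rw [le_div_iff₀ he]
      linarith
    have hx' : 1 / e < ‖x‖ := hx
    show 1 ≤ ‖x‖
    linarith
  have h3 : -(∫ x in {x : E3 | 1 / e < ‖x‖}, |DD x|) ≤
      ∫ x in (VV e)ᶜ ∩ {x | 1 / e < ‖x‖}, DD x := by
    have h4 : |∫ x in (VV e)ᶜ ∩ {x | 1 / e < ‖x‖}, DD x| ≤
        ∫ x in (VV e)ᶜ ∩ {x | 1 / e < ‖x‖}, |DD x| := by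
      have := norm_integral_le_integral_norm (μ := volume.restrict ((VV e)ᶜ ∩ {x | 1 / e < ‖x‖})) DD
      simpa [Real.norm_eq_abs] using this
    have h5 : ∫ x in (VV e)ᶜ ∩ {x | 1 / e < ‖x‖}, |DD x| ≤
        ∫ x in {x : E3 | 1 / e < ‖x‖}, |DD x| := by
      refine setIntegral_mono_set hI2 (Eventually.of_forall fun x => abs_nonneg _)
        (LE.le.eventuallyLE inter_subset_right)
    linarith [neg_abs_le (∫ x in (VV e)ᶜ ∩ {x | 1 / e < ‖x‖}, DD x)]
  linarith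

lemma tail_tendsto : Tendsto (fun n : ℕ => ∫ x in {x : E3 | ((n : ℝ) + 12) < ‖x‖}, |DD x|) atTop
    (𝓝 0) := by
  have h := tendsto_setIntegral_of_antitone (μ := (volume : Measure E3)) (f := fun x => |DD x|)
    (s := fun n : ℕ => {x : E3 | ((n : ℝ) + 12) < ‖x‖})
    (fun n => measurableSet_lt measurable_const measurable_norm)
    (fun m n hmn x hx => by
      have hx' : (n : ℝ) + 12 < ‖x‖ := hx
      have : (m : ℝ) ≤ n := by exact_mod_cast hmn
      show (m : ℝ) + 12 < ‖x‖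
      linarith)
    ⟨0, integrableOn_DD'.mono_set fun x hx => by
      have hx' : ((0 : ℕ) : ℝ) + 12 < ‖x‖ := hx
      show 1 ≤ ‖x‖
      push_cast at hx'
      linarith⟩
  have he : (⋂ n : ℕ, {x : E3 | ((n : ℝ) + 12) < ‖x‖}) = ∅ := by
    rw [eq_empty_iff_forall_notMem]
    intro x hx
    obtain ⟨n, hn⟩ := exists_nat_gt ‖x‖
    have h1 : (n : ℝ) + 12 < ‖x‖ := mem_iInter.1 hx n
    linarith
  rw [he] at h
  simpa using h

lemma exists_e : ∃ e : ℝ, 0 < e ∧ e ≤ 1 / 12 ∧ 0 < ∫ x in (VV e)ᶜ, DD x := by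
  have h := (tail_tendsto.eventually (gt_mem_nhds KK_int_pos)).exists
  obtain ⟨n, hn⟩ := h
  have hn12 : (0 : ℝ) < (n : ℝ) + 12 := by positivity
  refine ⟨1 / ((n : ℝ) + 12), by positivity, ?_, ?_⟩
  · rw [div_le_div_iff₀ hn12 (by norm_num)]
    have : (0 : ℝ) ≤ n := Nat.cast_nonneg n
    linarith
  · have h1 := int_lower (1 / ((n : ℝ) + 12)) (by positivity) (by
      rw [div_le_div_iff₀ hn12 (by norm_num)]
      have : (0 : ℝ) ≤ n := Nat.cast_nonneg n
      linarith)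
    rw [one_div_one_div] at h1
    linarith

end

end Pool.Agent.X197.Helm
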