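import Mathlib

namespace Pool.Agent.X197.Levy

open Filter Topology Set Finset

/-- if terms tend to zero, convergence of partial sums along multiples of `q` suffices -/
lemma tendsto_of_blocks {E : Type} [NormedAddCommGroup E] {y : ℕ → E} {z : E} {q : ℕ} (hq : 0 < q)
    (hy : Tendsto y atTop (𝓝 0))
    (h : Tendsto (fun J => ∑ m ∈ range (q * J), y m) atTop (𝓝 z)) :
    Tendsto (fun M => ∑ m ∈ range M, y m) atTop (𝓝 z) := by
  have h1 : ∀ M, ∑ m ∈ range M, y m
      = ∑ m ∈ range (q * (M / q)), y m + ∑ i ∈ range (M % q), y (q * (M / q) + i) := by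
    intro M
    conv_lhs => rw [← Nat.div_add_mod M q]
    rw [Finset.sum_range_add]
  have hdiv : Tendsto (fun M : ℕ => M / q) atTop atTop := Nat.tendsto_div_const_atTop hq.ne'
  have h2 : Tendsto (fun M => ∑ m ∈ range (q * (M / q)), y m) atTop (𝓝 z) := h.comp hdiv
  have h3 : Tendsto (fun M => ∑ i ∈ range (M % q), y (q * (M / q) + i)) atTop (𝓝 0) := by
    have h4 : Tendsto (fun M => ∑ i ∈ range q, ‖y (q * (M / q) + i)‖) atTop (𝓝 0) := by
      have : (0 : ℝ) = ∑ i ∈ range q, (0 : ℝ) := by simp
      rw [this]
      apply tendsto_finset_sum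
      intro i _
      have h5 : Tendsto (fun M : ℕ => q * (M / q) + i) atTop atTop := by
        apply tendsto_atTop_mono (f := fun M => M / q) _ hdiv
        intro M
        have : M / q ≤ q * (M / q) := Nat.le_mul_of_pos_left _ hq
        omega
      have := (hy.comp h5).norm
      simpa using this
    apply squeeze_zero_norm _ h4
    intro M
    refine (norm_sum_le _ _).trans ?_
    apply Finset.sum_le_sum_of_subset_of_nonneg
    · intro i hi
      rw [Finset.mem_range] at hi ⊢
      exact hi.trans (Nat.mod_lt _ hq)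
    · intro i _ _
      exact norm_nonneg _
  have := h2.add h3
  rw [add_zero] at this
  exact this.congr (fun M => (h1 M).symm)

/-! ### greedy subsums -/

section Greedy

variable {c : ℕ → ℝ} {t : ℝ}

/-- greedy partial sums -/
noncomputable def gp (c : ℕ → ℝ) (t : ℝ) : ℕ → ℝ
  | 0 => 0
  | n + 1 => if gp c t n + c n ≤ t then gp c t n + c n else gp c t n

lemma gp_eq (n : ℕ) : gp c t n = ∑ k ∈ range n, {k | gp c t k + c k ≤ t}.indicator c k := by
  induction n with
  | zero => simp [gp]
  | succ n ih =>
    rw [Finset.sum_range_succ, ← ih]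
    by_cases h : gp c t n + c n ≤ t
    · rw [Set.indicator_of_mem (by exact h), gp, if_pos h]
    · rw [Set.indicator_of_notMem (by exact h), gp, if_neg h, add_zero]

lemma greedy (hc : ∀ n, 0 ≤ c n) (hc0 : Tendsto c atTop (𝓝 0)) (hns : ¬ Summable c) (ht : 0 ≤ t) :
    ∃ S : Set ℕ, Tendsto (fun n => ∑ k ∈ range n, S.indicator c k) atTop (𝓝 t) := by
  refine ⟨{k | gp c t k + c k ≤ t}, ?_⟩
  have h0 : (fun n => ∑ k ∈ range n, {k | gp c t k + c k ≤ t}.indicator c k) = gp c t := by
    funext n; rw [gp_eq]
  rw [h0]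
  have hle : ∀ n, gp c t n ≤ t := by
    intro n
    induction n with
    | zero => exact ht
    | succ n ih =>
      rw [gp]
      split_ifs with h
      · exact h
      · exact ih
  have hmono : Monotone (gp c t) := by
    apply monotone_nat_of_le_succ
    intro n
    rw [gp]
    split_ifs with h
    · linarith [hc n]
    · exact le_rfl
  have hconv := tendsto_atTop_ciSup hmono ⟨t, by rintro _ ⟨n, rfl⟩; exact hle n⟩
  set L := ⨆ n, gp c t n with hL
  have hLle : L ≤ t := ciSup_le hle
  have hgL : ∀ n, gp c t n ≤ L := fun n => le_ciSup ⟨t, by rintro _ ⟨n, rfl⟩; exact hle n⟩ n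
  rcases hLle.lt_or_eq with h | h
  · exfalso
    obtain ⟨N, hN⟩ := (Filter.eventually_atTop).mp (hc0.eventually_lt_const (sub_pos.mpr h))
    have hsel : ∀ m, gp c t (N + m) = gp c t N + ∑ i ∈ range m, c (N + i) := by
      intro m
      induction m with
      | zero => simp
      | succ m ih =>
        have h1 : gp c t (N + m) + c (N + m) ≤ t := by
          have := hN (N + m) (by omega)
          have := hgL (N + m)
          linarith
        rw [← add_assoc, gp, if_pos h1, ih, Finset.sum_range_succ]
        ring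
    apply hns
    rw [← summable_nat_add_iff N]
    apply summable_of_sum_range_le (c := t - gp c t N) (fun n => hc _)
    intro m
    have h1 := hsel m
    have h2 := hle (N + m)
    have h3 : ∑ i ∈ range m, c (i + N) = ∑ i ∈ range m, c (N + i) := by
      apply Finset.sum_congr rfl
      intro i _
      rw [add_comm]
    rw [h3]
    linarith
  · rw [h] at hconv
    exact hconv

end Greedy

/-! ### Riemann rearrangements of a symmetric series -/

section Riemann

variable (c : ℕ → ℝ) (p : ℝ)

/-- state of the rearrangement -/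
noncomputable def st : ℕ → ℕ × ℕ × ℝ
  | 0 => (0, 0, 0)
  | n + 1 => if (st n).2.2 ≤ p then ((st n).1 + 1, (st n).2.1, (st n).2.2 + c (st n).1)
      else ((st n).1, (st n).2.1 + 1, (st n).2.2 - c (st n).2.1)

lemma st_pos {n : ℕ} (h : (st c p n).2.2 ≤ p) :
    st c p (n + 1) = ((st c p n).1 + 1, (st c p n).2.1, (st c p n).2.2 + c (st c p n).1) := by
  rw [st, if_pos h]

lemma st_neg {n : ℕ} (h : ¬ (st c p n).2.2 ≤ p) :
    st c p (n + 1) = ((st c p n).1, (st c p n).2.1 + 1, (st c p n).2.2 - c (st c p n).2.1) := by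
  rw [st, if_neg h]

/-- the order of play -/
noncomputable def ord (n : ℕ) : ℕ × Bool :=
  if (st c p n).2.2 ≤ p then ((st c p n).1, true) else ((st c p n).2.1, false)

lemma st_sum (n : ℕ) : (st c p n).2.2 = ∑ m ∈ range n, (if (ord c p m).2 then c (ord c p m).1 else - c (ord c p m).1) := by
  induction n with
  | zero => simp [st]
  | succ n ih =>
    rw [Finset.sum_range_succ, ← ih]
    by_cases h : (st c p n).2.2 ≤ p
    · rw [st_pos c p h, ord, if_pos h]; simp
    · rw [st_neg c p h, ord, if_neg h]; simp; ring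

lemma st_mono1 : Monotone (fun n => (st c p n).1) := by
  apply monotone_nat_of_le_succ
  intro n
  by_cases h : (st c p n).2.2 ≤ p
  · rw [st_pos c p h]; simp
  · rw [st_neg c p h]

lemma st_mono2 : Monotone (fun n => (st c p n).2.1) := by
  apply monotone_nat_of_le_succ
  intro n
  by_cases h : (st c p n).2.2 ≤ p
  · rw [st_pos c p h]
  · rw [st_neg c p h]; simp

variable {c} (hc : ∀ n, 0 ≤ c n) (hns : ¬ Summable c)

include hc hns

lemma freq_pos (N : ℕ) : ∃ n, N ≤ n ∧ (st c p n).2.2 ≤ p := by
  by_contra hcon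
  push Not at hcon
  have hsel : ∀ m, (st c p (N + m)).2.1 = (st c p N).2.1 + m ∧
      (st c p (N + m)).2.2 = (st c p N).2.2 - ∑ i ∈ range m, c ((st c p N).2.1 + i) := by
    intro m
    induction m with
    | zero => simp
    | succ m ih =>
      have h1 : ¬ (st c p (N + m)).2.2 ≤ p := not_le.mpr (hcon (N + m) (by omega))
      rw [← add_assoc, st_neg c p h1]
      simp only
      refine ⟨by rw [ih.1]; ring, ?_⟩
      rw [ih.2, ih.1, Finset.sum_range_succ]
      ring
  apply hns
  rw [← summable_nat_add_iff (st c p N).2.1]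
  apply summable_of_sum_range_le (c := (st c p N).2.2 - p) (fun n => hc _)
  intro m
  have h1 := (hsel m).2
  have h2 := hcon (N + m) (by omega)
  have h3 : ∑ i ∈ range m, c (i + (st c p N).2.1) = ∑ i ∈ range m, c ((st c p N).2.1 + i) := by
    apply Finset.sum_congr rfl
    intro i _
    rw [add_comm]
  rw [h3]
  linarith

lemma freq_neg (N : ℕ) : ∃ n, N ≤ n ∧ ¬ (st c p n).2.2 ≤ p := by
  by_contra hcon
  push Not at hcon
  have hsel : ∀ m, (st c p (N + m)).1 = (st c p N).1 + m ∧
      (st c p (N + m)).2.2 = (st c p N).2.2 + ∑ i ∈ range m, c ((st c p N).1 + i) := by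
    intro m
    induction m with
    | zero => simp
    | succ m ih =>
      have h1 : (st c p (N + m)).2.2 ≤ p := hcon (N + m) (by omega)
      rw [← add_assoc, st_pos c p h1]
      simp only
      refine ⟨by rw [ih.1]; ring, ?_⟩
      rw [ih.2, ih.1, Finset.sum_range_succ]
      ring
  apply hns
  rw [← summable_nat_add_iff (st c p N).1]
  apply summable_of_sum_range_le (c := p - (st c p N).2.2) (fun n => hc _)
  intro m
  have h1 := (hsel m).2
  have h2 := hcon (N + m) (by omega)
  have h3 : ∑ i ∈ range m, c (i + (st c p N).1) = ∑ i ∈ range m, c ((st c p N).1 + i) := by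
    apply Finset.sum_congr rfl
    intro i _
    rw [add_comm]
  rw [h3]
  linarith

lemma unb1 (n : ℕ) : ∃ m, n < (st c p m).1 := by
  induction n with
  | zero =>
    obtain ⟨m, _, hm⟩ := freq_pos p hc hns 0
    refine ⟨m + 1, ?_⟩
    rw [st_pos c p hm]; simp
  | succ n ih =>
    obtain ⟨m, hm⟩ := ih
    obtain ⟨m', h1, h2⟩ := freq_pos p hc hns m
    refine ⟨m' + 1, ?_⟩
    rw [st_pos c p h2]
    have : (st c p m).1 ≤ (st c p m').1 := st_mono1 c p h1
    simp only
    omega

lemma unb2 (n : ℕ) : ∃ m, n < (st c p m).2.1 := by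
  induction n with
  | zero =>
    obtain ⟨m, _, hm⟩ := freq_neg p hc hns 0
    refine ⟨m + 1, ?_⟩
    rw [st_neg c p hm]; simp
  | succ n ih =>
    obtain ⟨m, hm⟩ := ih
    obtain ⟨m', h1, h2⟩ := freq_neg p hc hns m
    refine ⟨m' + 1, ?_⟩
    rw [st_neg c p h2]
    have : (st c p m).2.1 ≤ (st c p m').2.1 := st_mono2 c p h1
    simp only
    omega

lemma ord_bij : Function.Bijective (ord c p) := by
  constructor
  · have key : ∀ m m', m < m' → ord c p m ≠ ord c p m' := by
      intro m m' hmm heq
      unfold ord at heq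
      by_cases h : (st c p m).2.2 ≤ p
      · by_cases h' : (st c p m').2.2 ≤ p
        · rw [if_pos h, if_pos h'] at heq
          have h1 : (st c p m).1 = (st c p m').1 := (Prod.mk.inj heq).1
          have h2 : (st c p (m + 1)).1 ≤ (st c p m').1 := st_mono1 c p hmm
          rw [st_pos c p h] at h2
          simp only at h2
          omega
        · rw [if_pos h, if_neg h'] at heq
          exact absurd (congrArg Prod.snd heq) (by simp)
      · by_cases h' : (st c p m').2.2 ≤ p
        · rw [if_neg h, if_pos h'] at heq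
          exact absurd (congrArg Prod.snd heq) (by simp)
        · rw [if_neg h, if_neg h'] at heq
          have h1 : (st c p m).2.1 = (st c p m').2.1 := (Prod.mk.inj heq).1
          have h2 : (st c p (m + 1)).2.1 ≤ (st c p m').2.1 := st_mono2 c p hmm
          rw [st_neg c p h] at h2
          simp only at h2
          omega
    intro m m' heq
    rcases lt_trichotomy m m' with h | h | h
    · exact absurd heq (key m m' h)
    · exact h
    · exact absurd heq.symm (key m' m h)
  · rintro ⟨n, b⟩
    cases b with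
    | true =>
      classical
      have hex := unb1 p hc hns n
      set m := Nat.find hex with hm
      have h1 : n < (st c p m).1 := Nat.find_spec hex
      have hm0 : m ≠ 0 := by
        intro h
        rw [h] at h1
        simp [st] at h1
      obtain ⟨m', rfl' ⟩ := Nat.exists_eq_succ_of_ne_zero hm0
      have h2 : ¬ n < (st c p m').1 := Nat.find_min hex (by omega)
      rw [rfl'] at h1
      refine ⟨m', ?_⟩
      unfold ord
      by_cases h : (st c p m').2.2 ≤ p
      · rw [if_pos h]
        rw [Nat.succ_eq_add_one, st_pos c p h] at h1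
        simp only at h1
        congr 1
        omega
      · rw [Nat.succ_eq_add_one, st_neg c p h] at h1
        exact absurd h1 h2
    | false =>
      classical
      have hex := unb2 p hc hns n
      set m := Nat.find hex with hm
      have h1 : n < (st c p m).2.1 := Nat.find_spec hex
      have hm0 : m ≠ 0 := by
        intro h
        rw [h] at h1
        simp [st] at h1
      obtain ⟨m', rfl' ⟩ := Nat.exists_eq_succ_of_ne_zero hm0
      have h2 : ¬ n < (st c p m').2.1 := Nat.find_min hex (by omega)
      rw [rfl'] at h1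
      refine ⟨m', ?_⟩
      unfold ord
      by_cases h : (st c p m').2.2 ≤ p
      · rw [Nat.succ_eq_add_one, st_pos c p h] at h1
        exact absurd h1 h2
      · rw [if_neg h]
        rw [Nat.succ_eq_add_one, st_neg c p h] at h1
        simp only at h1
        congr 1
        omega

lemma st_tendsto (hc0 : Tendsto c atTop (𝓝 0)) :
    Tendsto (fun n => (st c p n).2.2) atTop (𝓝 p) := by
  rw [Metric.tendsto_atTop]
  intro δ hδ
  obtain ⟨n0, hn0⟩ := (Filter.eventually_atTop).mp (hc0.eventually_lt_const hδ)
  obtain ⟨m1, hm1⟩ := unb1 p hc hns n0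
  obtain ⟨m2, hm2⟩ := unb2 p hc hns n0
  set M := max m1 m2 with hM
  have hi : ∀ n, M ≤ n → n0 ≤ (st c p n).1 := fun n hn => by
    have : (st c p m1).1 ≤ (st c p n).1 := st_mono1 c p (le_trans (le_max_left _ _) hn)
    omega
  have hj : ∀ n, M ≤ n → n0 ≤ (st c p n).2.1 := fun n hn => by
    have : (st c p m2).2.1 ≤ (st c p n).2.1 := st_mono2 c p (le_trans (le_max_right _ _) hn)
    omega
  -- find a crossing time
  obtain ⟨a, ha, hap⟩ := freq_pos p hc hns M
  classical
  have hex : ∃ b, a ≤ b ∧ ¬ (st c p b).2.2 ≤ p := freq_neg p hc hns a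
  set b := Nat.find hex with hb
  obtain ⟨hb1, hb2⟩ : a ≤ b ∧ ¬ (st c p b).2.2 ≤ p := Nat.find_spec hex
  have hba : b ≠ a := fun h => hb2 (h ▸ hap)
  obtain ⟨b', hb'⟩ : ∃ b', b = b' + 1 := ⟨b - 1, by omega⟩
  have h3 : (st c p b').2.2 ≤ p := by
    have := Nat.find_min hex (show b' < Nat.find hex by omega)
    push Not at this
    exact this (by omega)
  have h4 : (st c p b).2.2 = (st c p b').2.2 + c (st c p b').1 := by
    rw [hb', st_pos c p h3]
  have hstart : p < (st c p b).2.2 ∧ (st c p b).2.2 < p + δ := by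
    refine ⟨not_le.mp hb2, ?_⟩
    have := hn0 (st c p b').1 (hi b' (by omega))
    linarith
  have hinv : ∀ k, p - δ < (st c p (b + k)).2.2 ∧ (st c p (b + k)).2.2 < p + δ := by
    intro k
    induction k with
    | zero => exact ⟨by rw [add_zero]; linarith [hstart.1], by rw [add_zero]; exact hstart.2⟩
    | succ k ih =>
      rw [← add_assoc]
      by_cases h : (st c p (b + k)).2.2 ≤ p
      · rw [st_pos c p h]
        have h5 := hn0 (st c p (b + k)).1 (hi _ (by omega))
        have h6 := hc (st c p (b + k)).1
        exact ⟨by simp only; linarith [ih.1], by simp only; linarith⟩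
      · rw [st_neg c p h]
        have h5 := hn0 (st c p (b + k)).2.1 (hj _ (by omega))
        have h6 := hc (st c p (b + k)).2.1
        push Not at h
        exact ⟨by simp only; linarith, by simp only; linarith [ih.2]⟩
  refine ⟨b, fun n hn => ?_⟩
  obtain ⟨k, rfl⟩ := Nat.exists_eq_add_of_le hn
  have := hinv k
  rw [Real.dist_eq, abs_lt]
  constructor <;> linarith

/-- Riemann rearrangement -/
theorem riemann (hc0 : Tendsto c atTop (𝓝 0)) : ∃ e : ℕ ≃ ℕ × Bool,
    Tendsto (fun n => ∑ m ∈ range n, (if (e m).2 then c (e m).1 else - c (e m).1)) atTop (𝓝 p) := by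
  refine ⟨Equiv.ofBijective _ (ord_bij p hc hns), ?_⟩
  have := st_tendsto p hc hns hc0
  refine this.congr (fun n => ?_)
  rw [st_sum]
  rfl

end Riemann

end Pool.Agent.X197.Levy
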