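import Mathlib
import Pool.Agent.X197.LevyA

namespace Pool.Agent.X197.Levy

open Filter Topology Set Finset
open scoped RealInnerProductSpace

/-! ### definitions of the problem -/

/-- sums of all convergent rearrangements -/
def SR (x : ℕ → ℂ) : Set ℂ :=
  {z | ∃ σ : Equiv.Perm ℕ, Tendsto (fun N => ∑ n ∈ range N, x (σ n)) atTop (𝓝 z)}

/-- the achievement set: sums of all convergent subseries, in the given order -/
def Ach (x : ℕ → ℂ) : Set ℂ :=
  {z | ∃ S : Set ℕ, Tendsto (fun N => ∑ n ∈ range N, S.indicator x n) atTop (𝓝 z)}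

/-- the set of Levy vectors -/
def LevyVectors (x : ℕ → ℂ) : Set ℂ :=
  {u | ‖u‖ = 1 ∧ ∀ ε : ℝ, 0 < ε →
    ¬ Summable ({n | (1 - ε) * (‖u‖ * ‖x n‖) ≤ ⟪u, x n⟫}.indicator (fun n => ‖x n‖))}

/-! ### block structure -/

/-- block boundaries -/
def T (k : ℕ) : ℕ := 2 ^ (k ^ 2) - 1

lemma T_succ (k : ℕ) : T k + 1 = 2 ^ (k ^ 2) := by
  unfold T
  have : 1 ≤ 2 ^ (k ^ 2) := Nat.one_le_two_pow
  omega

lemma T_strictMono : StrictMono T := by
  apply strictMono_nat_of_lt_succ
  intro k
  have h1 := T_succ k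
  have h2 := T_succ (k + 1)
  have h3 : 2 ^ (k ^ 2) < 2 ^ ((k + 1) ^ 2) := Nat.pow_lt_pow_right (by norm_num)
    (Nat.pow_lt_pow_left (Nat.lt_succ_self k) two_ne_zero)
  omega

lemma T_zero : T 0 = 0 := rfl

lemma le_T (k : ℕ) : k ≤ T k := T_strictMono.le_apply

/-- the block of an index -/
noncomputable def K (j : ℕ) : ℕ := Nat.findGreatest (fun k => T k ≤ j) j

lemma T_K_le (j : ℕ) : T (K j) ≤ j :=
  Nat.findGreatest_spec (P := fun k => T k ≤ j) (m := 0) (Nat.zero_le _) (by rw [T_zero]; exact Nat.zero_le _)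

lemma K_ge {j k : ℕ} (h : T k ≤ j) : k ≤ K j :=
  Nat.le_findGreatest ((le_T k).trans h) h

lemma lt_T_K (j : ℕ) : j < T (K j + 1) := by
  by_contra h
  have := K_ge (not_lt.mp h)
  omega

lemma K_eq {j k : ℕ} (h1 : T k ≤ j) (h2 : j < T (k + 1)) : K j = k := by
  have h3 := K_ge h1
  have h4 := T_K_le j
  by_contra hne
  have h5 : k + 1 ≤ K j := by omega
  have := T_strictMono.monotone h5
  omega

lemma K_tendsto : Tendsto K atTop atTop := by
  rw [tendsto_atTop_atTop]
  intro k
  exact ⟨T k, fun j hj => K_ge hj⟩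

/-- horizontal size -/
noncomputable def al (j : ℕ) : ℝ := (1 / 2 : ℝ) ^ ((K j) ^ 2)
/-- vertical size -/
noncomputable def be (j : ℕ) : ℝ := 1 / ((K j : ℝ) + 1)

lemma al_pos (j : ℕ) : 0 < al j := by unfold al; positivity
lemma be_pos (j : ℕ) : 0 < be j := by unfold be; positivity

lemma al_ge (j : ℕ) : 1 / ((j : ℝ) + 1) ≤ al j := by
  unfold al
  have h1 := T_K_le j
  have h2 := T_succ (K j)
  rw [one_div_pow]
  apply one_div_le_one_div_of_le (by positivity)
  have h3 : 2 ^ ((K j) ^ 2) ≤ j + 1 := by omega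
  exact_mod_cast h3

lemma K_le_pow (k : ℕ) : k + 1 ≤ 2 ^ (k ^ 2) := by
  have h1 := T_succ k
  have h2 := le_T k
  omega

lemma al_le_be (j : ℕ) : al j ≤ be j := by
  unfold al be
  rw [one_div_pow]
  apply one_div_le_one_div_of_le (by positivity)
  exact_mod_cast K_le_pow (K j)

lemma be_le_one (j : ℕ) : be j ≤ 1 := by
  unfold be
  rw [div_le_one (by positivity)]
  linarith [Nat.cast_nonneg (α := ℝ) (K j)]

lemma be_tendsto : Tendsto be atTop (𝓝 0) :=
  tendsto_one_div_add_atTop_nhds_zero_nat.comp K_tendsto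

lemma al_tendsto : Tendsto al atTop (𝓝 0) :=
  squeeze_zero (fun j => (al_pos j).le) al_le_be be_tendsto

lemma al_not_summable : ¬ Summable al := by
  intro h
  have h1 : Summable (fun j : ℕ => 1 / ((j : ℝ) + 1)) :=
    Summable.of_nonneg_of_le (fun j => by positivity) al_ge h
  have h2 : Summable (fun j : ℕ => 1 / (((j + 1 : ℕ)) : ℝ)) := by
    refine h1.congr (fun j => ?_)
    push_cast
    rfl
  exact Real.not_summable_one_div_natCast ((summable_nat_add_iff 1).mp h2)

lemma be_not_summable : ¬ Summable be := fun h =>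
  al_not_summable (Summable.of_nonneg_of_le (fun j => (al_pos j).le) al_le_be h)

/-- ratio `al / be` tends to zero: `al j ≤ δ * be j` eventually -/
lemma ratio {δ : ℝ} (hδ : 0 < δ) : ∀ᶠ j in atTop, al j ≤ δ * be j := by
  have h1 : Tendsto (fun k : ℕ => ((k : ℝ) + 1) * (1 / 2 : ℝ) ^ k) atTop (𝓝 0) := by
    have h2 := tendsto_self_mul_const_pow_of_lt_one (r := (1 / 2 : ℝ)) (by norm_num) (by norm_num)
    have h3 := tendsto_pow_atTop_nhds_zero_of_lt_one (r := (1 / 2 : ℝ)) (by norm_num) (by norm_num)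
    have := h2.add h3
    rw [add_zero] at this
    exact this.congr (fun k => by ring)
  have h2 := (h1.comp K_tendsto).eventually_lt_const hδ
  filter_upwards [h2] with j hj
  simp only [Function.comp_apply] at hj
  unfold al be
  have h3 : (1 / 2 : ℝ) ^ ((K j) ^ 2) ≤ (1 / 2 : ℝ) ^ (K j) :=
    pow_le_pow_of_le_one (by norm_num) (by norm_num) (Nat.le_self_pow two_ne_zero (K j))
  rw [mul_one_div, le_div_iff₀ (by positivity)]
  have h4 : (0 : ℝ) < (K j : ℝ) + 1 := by positivity
  nlinarith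

/-! ### the series -/

/-- horizontal sign -/
def hs (m : ℕ) : ℝ := if m % 4 < 2 then 1 else -1
/-- vertical sign -/
def vs (m : ℕ) : ℝ := if m % 2 = 0 then 1 else -1

/-- the series -/
noncomputable def x (m : ℕ) : ℂ := ⟨hs m * al (m / 8), vs m * be (m / 8)⟩

lemma hs_abs (m : ℕ) : |hs m| = 1 := by unfold hs; split_ifs <;> simp
lemma vs_abs (m : ℕ) : |vs m| = 1 := by unfold vs; split_ifs <;> simp

lemma x_norm_le (m : ℕ) : ‖x m‖ ≤ al (m / 8) + be (m / 8) := by
  refine (Complex.norm_le_abs_re_add_abs_im _).trans ?_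
  simp only [x]
  rw [abs_mul, abs_mul, hs_abs, vs_abs, one_mul, one_mul, abs_of_pos (al_pos _), abs_of_pos (be_pos _)]

lemma x_norm_ge (m : ℕ) : be (m / 8) ≤ ‖x m‖ := by
  have := Complex.abs_im_le_norm (x m)
  simp only [x] at this
  rw [abs_mul, vs_abs, one_mul, abs_of_pos (be_pos _)] at this
  exact this

lemma div8_tendsto : Tendsto (fun m : ℕ => m / 8) atTop atTop := Nat.tendsto_div_const_atTop (by norm_num)

lemma x_tendsto : Tendsto x atTop (𝓝 0) := by
  have h1 : Tendsto (fun m => al (m / 8) + be (m / 8)) atTop (𝓝 0) := by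
    have := (al_tendsto.comp div8_tendsto).add (be_tendsto.comp div8_tendsto)
    simpa using this
  exact squeeze_zero_norm x_norm_le h1

lemma sum_oct {E : Type} [AddCommMonoid E] (y : ℕ → E) (J : ℕ) :
    ∑ m ∈ range (8 * J), y m = ∑ j ∈ range J, (y (8 * j) + y (8 * j + 1) + y (8 * j + 2) + y (8 * j + 3)
      + y (8 * j + 4) + y (8 * j + 5) + y (8 * j + 6) + y (8 * j + 7)) := by
  induction J with
  | zero => simp
  | succ J ih =>
    rw [Finset.sum_range_succ, ← ih, show 8 * (J + 1) = 8 * J + 7 + 1 by ring]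
    simp only [Finset.sum_range_succ]
    simp only [add_assoc]

lemma sum_quad {E : Type} [AddCommMonoid E] (y : ℕ → E) (J : ℕ) :
    ∑ m ∈ range (4 * J), y m = ∑ j ∈ range J, (y (4 * j) + y (4 * j + 1) + y (4 * j + 2) + y (4 * j + 3)) := by
  induction J with
  | zero => simp
  | succ J ih =>
    rw [Finset.sum_range_succ, ← ih, show 4 * (J + 1) = 4 * J + 3 + 1 by ring]
    simp only [Finset.sum_range_succ]
    simp only [add_assoc]

lemma x_val (j r : ℕ) (hr : r < 8) : x (8 * j + r) = ⟨hs r * al j, vs r * be j⟩ := by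
  have h1 : (8 * j + r) / 8 = j := by omega
  have h2 : (8 * j + r) % 4 = r % 4 := by omega
  have h3 : (8 * j + r) % 2 = r % 2 := by omega
  unfold x hs vs
  rw [h1, h2, h3]

lemma x_conv : Tendsto (fun N => ∑ n ∈ range N, x n) atTop (𝓝 0) := by
  apply tendsto_of_blocks (q := 8) (by norm_num) x_tendsto
  have h : ∀ J, ∑ m ∈ range (8 * J), x m = 0 := by
    intro J
    rw [sum_oct]
    apply Finset.sum_eq_zero
    intro j _
    have h0 : x (8 * j) = ⟨hs 0 * al j, vs 0 * be j⟩ := x_val j 0 (by norm_num)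
    rw [h0, x_val j 1 (by norm_num), x_val j 2 (by norm_num), x_val j 3 (by norm_num),
      x_val j 4 (by norm_num), x_val j 5 (by norm_num), x_val j 6 (by norm_num), x_val j 7 (by norm_num)]
    apply Complex.ext
    · simp [hs]
    · simp [vs]
  simp_rw [h]
  exact tendsto_const_nhds

lemma x_not_summable : ¬ Summable (fun n => ‖x n‖) := by
  intro h
  have h1 : Summable (fun j : ℕ => ‖x (8 * j)‖) :=
    h.comp_injective (i := fun j : ℕ => 8 * j) (fun a b hab => by simpa using hab)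
  apply be_not_summable
  refine Summable.of_nonneg_of_le (fun j => (be_pos j).le) (fun j => ?_) h1
  have := x_norm_ge (8 * j)
  rwa [Nat.mul_div_cancel_left j (by norm_num)] at this

end Pool.Agent.X197.Levy
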