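import Mathlib
import Pool.Agent.X197.LevyB

namespace Pool.Agent.X197.Levy

open Filter Topology Set Finset
open scoped RealInnerProductSpace

lemma re_im_tendsto {f g : ℕ → ℝ} {z : ℂ} (hf : Tendsto f atTop (𝓝 z.re)) (hg : Tendsto g atTop (𝓝 z.im)) :
    Tendsto (fun n => (⟨f n, g n⟩ : ℂ)) atTop (𝓝 z) := by
  have h1 : Tendsto (fun n => ((f n : ℂ) + (g n : ℂ) * Complex.I)) atTop (𝓝 ((z.re : ℂ) + (z.im : ℂ) * Complex.I)) :=
    ((Complex.continuous_ofReal.tendsto _).comp hf).add
      (((Complex.continuous_ofReal.tendsto _).comp hg).mul_const _)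
  rw [Complex.re_add_im] at h1
  refine h1.congr (fun n => ?_)
  apply Complex.ext <;> simp

/-- signed greedy: every real number is a signed subsum -/
lemma greedy_signed {c : ℕ → ℝ} (hc : ∀ n, 0 ≤ c n) (hc0 : Tendsto c atTop (𝓝 0)) (hns : ¬ Summable c)
    (t : ℝ) : ∃ (S : Set ℕ) (b : Bool), Tendsto (fun n => ∑ k ∈ range n,
      S.indicator (fun k => (if b then c k else - c k)) k) atTop (𝓝 t) := by
  rcases le_total 0 t with h | h
  · obtain ⟨S, hS⟩ := greedy hc hc0 hns h
    refine ⟨S, true, ?_⟩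
    simpa using hS
  · obtain ⟨S, hS⟩ := greedy hc hc0 hns (neg_nonneg.mpr h)
    refine ⟨S, false, ?_⟩
    have := hS.neg
    rw [neg_neg] at this
    refine this.congr (fun n => ?_)
    rw [← Finset.sum_neg_distrib]
    apply Finset.sum_congr rfl
    intro k _
    by_cases hk : k ∈ S
    · rw [Set.indicator_of_mem hk, Set.indicator_of_mem hk]; simp
    · rw [Set.indicator_of_notMem hk, Set.indicator_of_notMem hk]; simp

lemma two_al : (∀ n, 0 ≤ 2 * al n) ∧ Tendsto (fun n => 2 * al n) atTop (𝓝 0) ∧ ¬ Summable (fun n => 2 * al n) := by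
  refine ⟨fun n => by have := al_pos n; positivity, by simpa using al_tendsto.const_mul 2, fun h => ?_⟩
  exact al_not_summable ((summable_mul_left_iff two_ne_zero).mp h)

lemma two_be : (∀ n, 0 ≤ 2 * be n) ∧ Tendsto (fun n => 2 * be n) atTop (𝓝 0) ∧ ¬ Summable (fun n => 2 * be n) := by
  refine ⟨fun n => by have := be_pos n; positivity, by simpa using be_tendsto.const_mul 2, fun h => ?_⟩
  exact be_not_summable ((summable_mul_left_iff two_ne_zero).mp h)

theorem ach_univ : Ach x = Set.univ := by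
  rw [Set.eq_univ_iff_forall]
  intro z
  obtain ⟨S, b, hS⟩ := greedy_signed two_al.1 two_al.2.1 two_al.2.2 z.re
  obtain ⟨S', b', hS'⟩ := greedy_signed two_be.1 two_be.2.1 two_be.2.2 z.im
  set A : Set ℕ := {m | (m / 8 ∈ S ∧ ((b = true ∧ m % 8 < 2) ∨ (b = false ∧ 2 ≤ m % 8 ∧ m % 8 < 4))) ∨
    (m / 8 ∈ S' ∧ ((b' = true ∧ (m % 8 = 4 ∨ m % 8 = 6)) ∨ (b' = false ∧ (m % 8 = 5 ∨ m % 8 = 7))))} with hA
  refine ⟨A, ?_⟩
  apply tendsto_of_blocks (q := 8) (by norm_num)
  · have h1 : ∀ m, ‖A.indicator x m‖ ≤ ‖x m‖ := fun m => norm_indicator_le_norm_self _ _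
    have h2 := x_tendsto.norm
    rw [norm_zero] at h2
    exact squeeze_zero_norm h1 h2
  · have hkey : ∀ j, A.indicator x (8 * j) + A.indicator x (8 * j + 1) + A.indicator x (8 * j + 2)
        + A.indicator x (8 * j + 3) + A.indicator x (8 * j + 4) + A.indicator x (8 * j + 5)
        + A.indicator x (8 * j + 6) + A.indicator x (8 * j + 7)
        = ⟨S.indicator (fun k => (if b then 2 * al k else - (2 * al k))) j,
          S'.indicator (fun k => (if b' then 2 * be k else - (2 * be k))) j⟩ := by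
      intro j
      have hmem : ∀ r < 8, (8 * j + r ∈ A ↔ (j ∈ S ∧ ((b = true ∧ r < 2) ∨ (b = false ∧ 2 ≤ r ∧ r < 4))) ∨
          (j ∈ S' ∧ ((b' = true ∧ (r = 4 ∨ r = 6)) ∨ (b' = false ∧ (r = 5 ∨ r = 7))))) := by
        intro r hr
        have h1 : (8 * j + r) / 8 = j := by omega
        have h2 : (8 * j + r) % 8 = r := by omega
        rw [hA, Set.mem_setOf_eq, h1, h2]
      have hm0 : 8 * j ∈ A ↔ _ := hmem 0 (by norm_num)
      have h0 : x (8 * j) = ⟨hs 0 * al j, vs 0 * be j⟩ := x_val j 0 (by norm_num)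
      classical
      simp only [Set.indicator_apply]
      rw [h0, x_val j 1 (by norm_num), x_val j 2 (by norm_num), x_val j 3 (by norm_num),
        x_val j 4 (by norm_num), x_val j 5 (by norm_num), x_val j 6 (by norm_num), x_val j 7 (by norm_num)]
      simp only [hm0, hmem 1 (by norm_num), hmem 2 (by norm_num), hmem 3 (by norm_num),
        hmem 4 (by norm_num), hmem 5 (by norm_num), hmem 6 (by norm_num), hmem 7 (by norm_num)]
      clear hmem hm0 h0 hA
      apply Complex.ext <;>
      (by_cases c1 : j ∈ S <;> by_cases c2 : j ∈ S' <;> cases b <;> cases b' <;>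
        simp [c1, c2, hs, vs] <;> ring)
    have : ∀ J, ∑ m ∈ range (8 * J), A.indicator x m
        = ⟨∑ k ∈ range J, S.indicator (fun k => (if b then 2 * al k else - (2 * al k))) k,
          ∑ k ∈ range J, S'.indicator (fun k => (if b' then 2 * be k else - (2 * be k))) k⟩ := by
      intro J
      rw [sum_oct, Finset.sum_congr rfl (fun j _ => hkey j)]
      apply Complex.ext
      · rw [Complex.re_sum]
      · rw [Complex.im_sum]
    simp_rw [this]
    exact re_im_tendsto hS hS'

/-- the rearrangement built from two one-dimensional ones -/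
noncomputable def sg (e e' : ℕ ≃ ℕ × Bool) (m : ℕ) : ℕ :=
  if m % 4 = 0 then 8 * (e (m / 4)).1 + (if (e (m / 4)).2 then 0 else 2)
  else if m % 4 = 1 then 8 * (e (m / 4)).1 + (if (e (m / 4)).2 then 1 else 3)
  else if m % 4 = 2 then 8 * (e' (m / 4)).1 + (if (e' (m / 4)).2 then 4 else 5)
  else 8 * (e' (m / 4)).1 + (if (e' (m / 4)).2 then 6 else 7)

/-- its inverse -/
noncomputable def sgi (e e' : ℕ ≃ ℕ × Bool) (m : ℕ) : ℕ :=
  if m % 8 = 0 then 4 * e.symm (m / 8, true)
  else if m % 8 = 1 then 4 * e.symm (m / 8, true) + 1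
  else if m % 8 = 2 then 4 * e.symm (m / 8, false)
  else if m % 8 = 3 then 4 * e.symm (m / 8, false) + 1
  else if m % 8 = 4 then 4 * e'.symm (m / 8, true) + 2
  else if m % 8 = 5 then 4 * e'.symm (m / 8, false) + 2
  else if m % 8 = 6 then 4 * e'.symm (m / 8, true) + 3
  else 4 * e'.symm (m / 8, false) + 3

lemma sgi_sg (e e' : ℕ ≃ ℕ × Bool) (m : ℕ) : sgi e e' (sg e e' m) = m := by
  have hm : m % 4 = 0 ∨ m % 4 = 1 ∨ m % 4 = 2 ∨ m % 4 = 3 := by omega
  have hdiv : ∀ a r : ℕ, r < 8 → (8 * a + r) / 8 = a ∧ (8 * a + r) % 8 = r := fun a r hr => by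
    constructor <;> omega
  rcases hm with h | h | h | h
  · have h1 : sg e e' m = 8 * (e (m / 4)).1 + (if (e (m / 4)).2 then 0 else 2) := by
      unfold sg; rw [if_pos h]
    cases hb : (e (m / 4)).2 with
    | true =>
      rw [h1, hb, if_pos rfl]
      unfold sgi
      rw [(hdiv _ 0 (by norm_num)).1, (hdiv _ 0 (by norm_num)).2, if_pos rfl, ← hb, Prod.mk.eta,
        Equiv.symm_apply_apply]
      omega
    | false =>
      rw [h1, hb]
      unfold sgi
      simp only [Bool.false_eq_true, if_false]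
      rw [(hdiv _ 2 (by norm_num)).1, (hdiv _ 2 (by norm_num)).2, if_neg (by norm_num), if_neg (by norm_num),
        if_pos rfl, ← hb, Prod.mk.eta, Equiv.symm_apply_apply]
      omega
  · have h1 : sg e e' m = 8 * (e (m / 4)).1 + (if (e (m / 4)).2 then 1 else 3) := by
      unfold sg; rw [if_neg (by omega), if_pos h]
    cases hb : (e (m / 4)).2 with
    | true =>
      rw [h1, hb, if_pos rfl]
      unfold sgi
      rw [(hdiv _ 1 (by norm_num)).1, (hdiv _ 1 (by norm_num)).2, if_neg (by norm_num), if_pos rfl,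
        ← hb, Prod.mk.eta, Equiv.symm_apply_apply]
      omega
    | false =>
      rw [h1, hb]
      unfold sgi
      simp only [Bool.false_eq_true, if_false]
      rw [(hdiv _ 3 (by norm_num)).1, (hdiv _ 3 (by norm_num)).2, if_neg (by norm_num), if_neg (by norm_num),
        if_neg (by norm_num), if_pos rfl, ← hb, Prod.mk.eta, Equiv.symm_apply_apply]
      omega
  · have h1 : sg e e' m = 8 * (e' (m / 4)).1 + (if (e' (m / 4)).2 then 4 else 5) := by
      unfold sg; rw [if_neg (by omega), if_neg (by omega), if_pos h]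
    cases hb : (e' (m / 4)).2 with
    | true =>
      rw [h1, hb, if_pos rfl]
      unfold sgi
      rw [(hdiv _ 4 (by norm_num)).1, (hdiv _ 4 (by norm_num)).2, if_neg (by norm_num), if_neg (by norm_num),
        if_neg (by norm_num), if_neg (by norm_num), if_pos rfl, ← hb, Prod.mk.eta, Equiv.symm_apply_apply]
      omega
    | false =>
      rw [h1, hb]
      unfold sgi
      simp only [Bool.false_eq_true, if_false]
      rw [(hdiv _ 5 (by norm_num)).1, (hdiv _ 5 (by norm_num)).2, if_neg (by norm_num), if_neg (by norm_num),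
        if_neg (by norm_num), if_neg (by norm_num), if_neg (by norm_num), if_pos rfl, ← hb, Prod.mk.eta,
        Equiv.symm_apply_apply]
      omega
  · have h1 : sg e e' m = 8 * (e' (m / 4)).1 + (if (e' (m / 4)).2 then 6 else 7) := by
      unfold sg; rw [if_neg (by omega), if_neg (by omega), if_neg (by omega)]
    cases hb : (e' (m / 4)).2 with
    | true =>
      rw [h1, hb, if_pos rfl]
      unfold sgi
      rw [(hdiv _ 6 (by norm_num)).1, (hdiv _ 6 (by norm_num)).2, if_neg (by norm_num), if_neg (by norm_num),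
        if_neg (by norm_num), if_neg (by norm_num), if_neg (by norm_num), if_neg (by norm_num), if_pos rfl,
        ← hb, Prod.mk.eta, Equiv.symm_apply_apply]
      omega
    | false =>
      rw [h1, hb]
      unfold sgi
      simp only [Bool.false_eq_true, if_false]
      rw [(hdiv _ 7 (by norm_num)).1, (hdiv _ 7 (by norm_num)).2, if_neg (by norm_num), if_neg (by norm_num),
        if_neg (by norm_num), if_neg (by norm_num), if_neg (by norm_num), if_neg (by norm_num),
        if_neg (by norm_num), ← hb, Prod.mk.eta, Equiv.symm_apply_apply]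
      omega

lemma sg_val (e e' : ℕ ≃ ℕ × Bool) (a r : ℕ) (hr : r < 4) : sg e e' (4 * a + r) =
    if r = 0 then 8 * (e a).1 + (if (e a).2 then 0 else 2)
    else if r = 1 then 8 * (e a).1 + (if (e a).2 then 1 else 3)
    else if r = 2 then 8 * (e' a).1 + (if (e' a).2 then 4 else 5)
    else 8 * (e' a).1 + (if (e' a).2 then 6 else 7) := by
  have h1 : (4 * a + r) / 4 = a := by omega
  have h2 : (4 * a + r) % 4 = r := by omega
  unfold sg
  rw [h1, h2]

lemma sg_sgi (e e' : ℕ ≃ ℕ × Bool) (m : ℕ) : sg e e' (sgi e e' m) = m := by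
  have hm : m % 8 = 0 ∨ m % 8 = 1 ∨ m % 8 = 2 ∨ m % 8 = 3 ∨ m % 8 = 4 ∨ m % 8 = 5 ∨ m % 8 = 6 ∨ m % 8 = 7 := by
    omega
  rcases hm with h | h | h | h | h | h | h | h
  · have h1 : sgi e e' m = 4 * e.symm (m / 8, true) + 0 := by unfold sgi; rw [if_pos h]; rfl
    rw [h1, sg_val e e' _ 0 (by norm_num)]
    simp only [Equiv.apply_symm_apply, if_true]
    omega
  · have h1 : sgi e e' m = 4 * e.symm (m / 8, true) + 1 := by
      unfold sgi; simp [h]
    rw [h1, sg_val e e' _ 1 (by norm_num)]
    simp only [Equiv.apply_symm_apply, if_true]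
    simp
    omega
  · have h1 : sgi e e' m = 4 * e.symm (m / 8, false) + 0 := by
      unfold sgi; simp [h]
    rw [h1, sg_val e e' _ 0 (by norm_num)]
    simp only [Equiv.apply_symm_apply, if_true]
    simp
    omega
  · have h1 : sgi e e' m = 4 * e.symm (m / 8, false) + 1 := by
      unfold sgi; simp [h]
    rw [h1, sg_val e e' _ 1 (by norm_num)]
    simp only [Equiv.apply_symm_apply]
    simp
    omega
  · have h1 : sgi e e' m = 4 * e'.symm (m / 8, true) + 2 := by
      unfold sgi; simp [h]
    rw [h1, sg_val e e' _ 2 (by norm_num)]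
    simp only [Equiv.apply_symm_apply]
    simp
    omega
  · have h1 : sgi e e' m = 4 * e'.symm (m / 8, false) + 2 := by
      unfold sgi; simp [h]
    rw [h1, sg_val e e' _ 2 (by norm_num)]
    simp only [Equiv.apply_symm_apply]
    simp
    omega
  · have h1 : sgi e e' m = 4 * e'.symm (m / 8, true) + 3 := by
      unfold sgi; simp [h]
    rw [h1, sg_val e e' _ 3 (by norm_num)]
    simp only [Equiv.apply_symm_apply]
    simp
    omega
  · have h1 : sgi e e' m = 4 * e'.symm (m / 8, false) + 3 := by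
      unfold sgi; simp [h]
    rw [h1, sg_val e e' _ 3 (by norm_num)]
    simp only [Equiv.apply_symm_apply]
    simp
    omega

/-- the permutation -/
noncomputable def sgE (e e' : ℕ ≃ ℕ × Bool) : Equiv.Perm ℕ :=
  ⟨sg e e', sgi e e', sgi_sg e e', sg_sgi e e'⟩

theorem sr_univ : SR x = Set.univ := by
  rw [Set.eq_univ_iff_forall]
  intro z
  obtain ⟨e, he⟩ := riemann z.re two_al.1 two_al.2.2 two_al.2.1
  obtain ⟨e', he'⟩ := riemann z.im two_be.1 two_be.2.2 two_be.2.1
  refine ⟨sgE e e', ?_⟩
  apply tendsto_of_blocks (q := 4) (by norm_num)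
  · have h1 : Tendsto (sgE e e') atTop atTop := by
      rw [← Nat.cofinite_eq_atTop]
      exact (sgE e e').injective.tendsto_cofinite
    exact x_tendsto.comp h1
  · have hkey : ∀ a, x (sgE e e' (4 * a)) + x (sgE e e' (4 * a + 1)) + x (sgE e e' (4 * a + 2))
        + x (sgE e e' (4 * a + 3))
        = ⟨if (e a).2 then 2 * al (e a).1 else - (2 * al (e a).1),
          if (e' a).2 then 2 * be (e' a).1 else - (2 * be (e' a).1)⟩ := by
      intro a
      change x (sg e e' (4 * a + 0)) + x (sg e e' (4 * a + 1)) + x (sg e e' (4 * a + 2))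
        + x (sg e e' (4 * a + 3)) = _
      rw [sg_val e e' a 0 (by norm_num), sg_val e e' a 1 (by norm_num), sg_val e e' a 2 (by norm_num),
        sg_val e e' a 3 (by norm_num)]
      simp only [if_true, one_ne_zero, if_false, OfNat.ofNat_ne_zero, OfNat.ofNat_ne_one,
        show (3 : ℕ) ≠ 2 by norm_num]
      cases h1 : (e a).2 <;> cases h2 : (e' a).2 <;>
        simp only [if_true, if_false, Bool.false_eq_true] <;>
        rw [x_val _ _ (by norm_num), x_val _ _ (by norm_num), x_val _ _ (by norm_num), x_val _ _ (by norm_num)] <;>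
        apply Complex.ext <;> simp [hs, vs] <;> ring
    have : ∀ J, ∑ m ∈ range (4 * J), x (sgE e e' m)
        = ⟨∑ m ∈ range J, (if (e m).2 then 2 * al (e m).1 else - (2 * al (e m).1)),
          ∑ m ∈ range J, (if (e' m).2 then 2 * be (e' m).1 else - (2 * be (e' m).1))⟩ := by
      intro J
      rw [sum_quad (fun m => x (sgE e e' m)), Finset.sum_congr rfl (fun j _ => hkey j)]
      apply Complex.ext
      · rw [Complex.re_sum]
      · rw [Complex.im_sum]
    simp_rw [this]
    exact re_im_tendsto he he'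

end Pool.Agent.X197.Levy
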