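import Mathlib
import Pool.Agent.X197.LevyC

namespace Pool.Agent.X197.Levy

open Filter Topology Set Finset
open scoped RealInnerProductSpace

lemma inner_eq (u v : ℂ) : ⟪u, v⟫ = u.re * v.re + u.im * v.im := by
  rw [Complex.inner]
  simp [Complex.mul_re]
  ring

lemma levy_pos {u : ℂ} (hu : ‖u‖ = 1) (r : ℕ) (hr : r < 8)
    (h : ∀ j, ⟪u, x (8 * j + r)⟫ = be j) : u ∈ LevyVectors x := by
  refine ⟨hu, fun ε hε hsum => ?_⟩
  have hinj : Function.Injective (fun j : ℕ => 8 * j + r) := fun a b hab => by
    simp only at hab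
    omega
  have h1 := hsum.comp_injective hinj
  obtain ⟨N, hN⟩ := (Filter.eventually_atTop).mp (ratio hε)
  have h2 : Summable (fun j : ℕ => ({n | (1 - ε) * (‖u‖ * ‖x n‖) ≤ ⟪u, x n⟫}.indicator (fun n => ‖x n‖))
      (8 * (j + N) + r)) := (summable_nat_add_iff N).mpr h1
  apply be_not_summable
  rw [← summable_nat_add_iff N]
  refine Summable.of_nonneg_of_le (fun j => (be_pos _).le) (fun j => ?_) h2
  have h3 := hN (j + N) (by omega)
  have hd : (8 * (j + N) + r) / 8 = j + N := by omega
  have h4 := x_norm_le (8 * (j + N) + r)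
  have h5 := x_norm_ge (8 * (j + N) + r)
  rw [hd] at h4 h5
  have hb := be_pos (j + N)
  have hmem : 8 * (j + N) + r ∈ {n | (1 - ε) * (‖u‖ * ‖x n‖) ≤ ⟪u, x n⟫} := by
    rw [Set.mem_setOf_eq, hu, one_mul, h]
    rcases le_total ε 1 with hε1 | hε1
    · have : (1 - ε) * ‖x (8 * (j + N) + r)‖ ≤ (1 - ε) * ((1 + ε) * be (j + N)) :=
        mul_le_mul_of_nonneg_left (by linarith) (by linarith)
      nlinarith [mul_pos hε hε]
    · have : (1 - ε) * ‖x (8 * (j + N) + r)‖ ≤ 0 :=
        mul_nonpos_of_nonpos_of_nonneg (by linarith) (norm_nonneg _)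
      linarith
  rw [Set.indicator_of_mem hmem]
  exact h5

lemma levy_neg {u : ℂ} (hu : ‖u‖ = 1) (him : |u.im| < 1) : u ∉ LevyVectors x := by
  rintro ⟨_, h⟩
  set ε := (1 - |u.im|) / 4 with hε
  have hε0 : 0 < ε := by rw [hε]; linarith
  apply h ε hε0
  have hev := div8_tendsto.eventually (ratio hε0)
  obtain ⟨N, hN⟩ := (Filter.eventually_atTop).mp hev
  rw [← summable_nat_add_iff N]
  have hz : (fun n => {n | (1 - ε) * (‖u‖ * ‖x n‖) ≤ ⟪u, x n⟫}.indicator (fun n => ‖x n‖) (n + N))
      = fun _ => (0 : ℝ) := by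
    funext n
    apply Set.indicator_of_notMem
    rw [Set.mem_setOf_eq, not_le, hu, one_mul, inner_eq]
    have h1 := hN (n + N) (by omega)
    have h2 := x_norm_ge (n + N)
    have hb := be_pos ((n + N) / 8)
    have ha := al_pos ((n + N) / 8)
    have hre : |u.re| ≤ 1 := by
      have := Complex.abs_re_le_norm u
      rwa [hu] at this
    have h3 : u.re * (x (n + N)).re ≤ al ((n + N) / 8) := by
      refine (le_abs_self _).trans ?_
      simp only [x]
      rw [abs_mul, abs_mul, hs_abs, one_mul, abs_of_pos ha]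
      exact mul_le_of_le_one_left ha.le hre
    have h4 : u.im * (x (n + N)).im ≤ |u.im| * be ((n + N) / 8) := by
      refine (le_abs_self _).trans ?_
      simp only [x]
      rw [abs_mul, abs_mul, vs_abs, one_mul, abs_of_pos hb]
    have h5 : (1 - ε) * be ((n + N) / 8) ≤ (1 - ε) * ‖x (n + N)‖ :=
      mul_le_mul_of_nonneg_left h2 (by rw [hε]; linarith [abs_nonneg u.im])
    have h6 : (ε + |u.im|) * be ((n + N) / 8) < (1 - ε) * be ((n + N) / 8) :=
      mul_lt_mul_of_pos_right (by rw [hε]; linarith) hb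
    nlinarith
  rw [hz]
  exact summable_zero

theorem levy_eq : LevyVectors x = {Complex.I, -Complex.I} := by
  apply Set.eq_of_subset_of_subset
  · intro u hu
    have hu1 : ‖u‖ = 1 := hu.1
    by_contra hne
    apply levy_neg hu1 _ hu
    have h1 : u.re ^ 2 + u.im ^ 2 = 1 := by
      have := Complex.sq_norm u
      rw [hu1, Complex.normSq_apply] at this
      nlinarith
    rw [← sq_lt_one_iff_abs_lt_one]
    by_contra h2
    push Not at h2
    have h3 : u.re = 0 := by
      have : u.re ^ 2 ≤ 0 := by linarith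
      exact pow_eq_zero_iff two_ne_zero |>.mp (le_antisymm this (sq_nonneg _))
    rw [h3] at h1
    have h4 : (u.im - 1) * (u.im + 1) = 0 := by ring_nf; linarith
    rcases mul_eq_zero.mp h4 with h5 | h5
    · exact hne (Or.inl (by apply Complex.ext <;> simp [h3]; linarith))
    · exact hne (Or.inr (by
        rw [Set.mem_singleton_iff]
        apply Complex.ext <;> simp [h3]; linarith))
  · rintro u (rfl | hu)
    · apply levy_pos Complex.norm_I 0 (by norm_num)
      intro j
      rw [x_val j 0 (by norm_num), inner_eq]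
      simp [vs]
    · rw [Set.mem_singleton_iff] at hu
      rw [hu]
      apply levy_pos (by rw [norm_neg, Complex.norm_I]) 1 (by norm_num)
      intro j
      rw [x_val j 1 (by norm_num), inner_eq]
      simp [vs]

theorem levy_card : (LevyVectors x).ncard = 2 := by
  rw [levy_eq, Set.ncard_pair]
  intro h
  have := congrArg Complex.im h
  simp at this
  norm_num at this

end Pool.Agent.X197.Levy
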