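import Mathlib
import Pool.Agent.X197.LevyD

namespace Pool.Agent.X197.Levy

open Filter Topology Set Finset
open scoped RealInnerProductSpace

/-- within the block `[8a, 8b)`: first all even indices, then all odd ones -/
def bs (a b m : ℕ) : ℕ :=
  if m - 8 * a < 4 * (b - a) then 8 * a + 2 * (m - 8 * a) else 8 * a + 2 * (m - 8 * a - 4 * (b - a)) + 1

/-- inverse of `bs` -/
def bt (a b m : ℕ) : ℕ :=
  if (m - 8 * a) % 2 = 0 then 8 * a + (m - 8 * a) / 2 else 8 * a + 4 * (b - a) + (m - 8 * a) / 2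

lemma bs_mem {a b m : ℕ} (hab : a < b) (h1 : 8 * a ≤ m) (h2 : m < 8 * b) :
    8 * a ≤ bs a b m ∧ bs a b m < 8 * b := by
  unfold bs
  split_ifs <;> omega

lemma bt_mem {a b m : ℕ} (hab : a < b) (h1 : 8 * a ≤ m) (h2 : m < 8 * b) :
    8 * a ≤ bt a b m ∧ bt a b m < 8 * b := by
  unfold bt
  split_ifs <;> omega

lemma bt_bs {a b m : ℕ} (hab : a < b) (h1 : 8 * a ≤ m) (h2 : m < 8 * b) : bt a b (bs a b m) = m := by
  unfold bs
  split_ifs with h
  · unfold bt
    rw [if_pos (by omega)]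
    omega
  · unfold bt
    rw [if_neg (by omega)]
    omega

lemma bs_bt {a b m : ℕ} (hab : a < b) (h1 : 8 * a ≤ m) (h2 : m < 8 * b) : bs a b (bt a b m) = m := by
  unfold bt
  split_ifs with h
  · unfold bs
    rw [if_pos (by omega)]
    omega
  · unfold bs
    rw [if_neg (by omega)]
    omega

lemma blk {m k : ℕ} (h1 : 8 * T k ≤ m) (h2 : m < 8 * T (k + 1)) : K (m / 8) = k :=
  K_eq (by omega) (by omega)

lemma blk_spec (m : ℕ) : 8 * T (K (m / 8)) ≤ m ∧ m < 8 * T (K (m / 8) + 1) := by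
  have h1 := T_K_le (m / 8)
  have h2 := lt_T_K (m / 8)
  constructor <;> omega

/-- the bad rearrangement -/
noncomputable def bad (m : ℕ) : ℕ := bs (T (K (m / 8))) (T (K (m / 8) + 1)) m
/-- its inverse -/
noncomputable def badi (m : ℕ) : ℕ := bt (T (K (m / 8))) (T (K (m / 8) + 1)) m

lemma T_lt (k : ℕ) : T k < T (k + 1) := T_strictMono (Nat.lt_succ_self k)

lemma badi_bad (m : ℕ) : badi (bad m) = m := by
  obtain ⟨h1, h2⟩ := blk_spec m
  obtain ⟨h3, h4⟩ := bs_mem (T_lt _) h1 h2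
  have h5 : K (bad m / 8) = K (m / 8) := blk h3 h4
  unfold badi
  rw [h5]
  exact bt_bs (T_lt _) h1 h2

lemma bad_badi (m : ℕ) : bad (badi m) = m := by
  obtain ⟨h1, h2⟩ := blk_spec m
  obtain ⟨h3, h4⟩ := bt_mem (T_lt _) h1 h2
  have h5 : K (badi m / 8) = K (m / 8) := blk h3 h4
  unfold bad
  rw [h5]
  exact bs_bt (T_lt _) h1 h2

/-- the bad permutation -/
noncomputable def badE : Equiv.Perm ℕ := ⟨bad, badi, badi_bad, bad_badi⟩

lemma hs_cases (m : ℕ) : hs m = 1 ∨ hs m = -1 := by unfold hs; split_ifs <;> simp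

/-- in each half of a block the vertical parts have constant sign -/
lemma y_first {k i : ℕ} (hi : i < 4 * (T (k + 1) - T k)) :
    (x (badE (8 * T k + i))).im = 1 / ((k : ℝ) + 1) ∧
    ((x (badE (8 * T k + i))).re = (1 / 2 : ℝ) ^ (k ^ 2) ∨ (x (badE (8 * T k + i))).re = -(1 / 2 : ℝ) ^ (k ^ 2)) := by
  have hT := T_lt k
  have h0 : K ((8 * T k + i) / 8) = k := blk (by omega) (by omega)
  have h1 : badE (8 * T k + i) = 8 * T k + 2 * i := by
    change bad _ = _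
    unfold bad
    rw [h0]
    unfold bs
    rw [if_pos (by omega)]
    omega
  have h2 : K ((8 * T k + 2 * i) / 8) = k := blk (by omega) (by omega)
  rw [h1]
  have h3 : vs (8 * T k + 2 * i) = 1 := by
    unfold vs
    rw [if_pos (by omega)]
  constructor
  · simp only [x, be, h2, h3, one_mul]
  · rcases hs_cases (8 * T k + 2 * i) with h | h
    · left; simp only [x, al, h2, h, one_mul]
    · right; simp only [x, al, h2, h, neg_mul, one_mul]

lemma y_second {k i : ℕ} (hi : i < 4 * (T (k + 1) - T k)) :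
    (x (badE (8 * T k + 4 * (T (k + 1) - T k) + i))).im = -(1 / ((k : ℝ) + 1)) ∧
    ((x (badE (8 * T k + 4 * (T (k + 1) - T k) + i))).re = (1 / 2 : ℝ) ^ (k ^ 2) ∨
      (x (badE (8 * T k + 4 * (T (k + 1) - T k) + i))).re = -(1 / 2 : ℝ) ^ (k ^ 2)) := by
  have hT := T_lt k
  have h0 : K ((8 * T k + 4 * (T (k + 1) - T k) + i) / 8) = k := blk (by omega) (by omega)
  have h1 : badE (8 * T k + 4 * (T (k + 1) - T k) + i) = 8 * T k + 2 * i + 1 := by
    change bad _ = _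
    unfold bad
    rw [h0]
    unfold bs
    rw [if_neg (by omega)]
    omega
  have h2 : K ((8 * T k + 2 * i + 1) / 8) = k := blk (by omega) (by omega)
  rw [h1]
  have h3 : vs (8 * T k + 2 * i + 1) = -1 := by
    unfold vs
    rw [if_neg (by omega)]
  constructor
  · simp only [x, be, h2, h3, neg_mul, one_mul]
  · rcases hs_cases (8 * T k + 2 * i + 1) with h | h
    · left; simp only [x, al, h2, h, one_mul]
    · right; simp only [x, al, h2, h, neg_mul, one_mul]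

/-- sums over a stretch with constant vertical part -/
lemma stretch {y : ℕ → ℂ} {a b : ℝ} (S : Set ℕ) (s : ℕ) (L : ℕ)
    (h : ∀ i < L, (y (s + i)).im = b ∧ ((y (s + i)).re = a ∨ (y (s + i)).re = -a)) :
    ∃ (n : ℕ) (c : ℤ), |c| ≤ n ∧ (∑ i ∈ range L, S.indicator y (s + i)).re = c * a ∧
      (∑ i ∈ range L, S.indicator y (s + i)).im = n * b := by
  induction L with
  | zero => exact ⟨0, 0, by simp, by simp, by simp⟩
  | succ L ih =>
    obtain ⟨n, c, h1, h2, h3⟩ := ih (fun i hi => h i (by omega))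
    rw [Finset.sum_range_succ, Complex.add_re, Complex.add_im, h2, h3]
    obtain ⟨h4, h5⟩ := h L (by omega)
    by_cases hS : s + L ∈ S
    · rw [Set.indicator_of_mem hS, h4]
      rcases h5 with h5 | h5
      · refine ⟨n + 1, c + 1, ?_, ?_, ?_⟩
        · have := abs_add_le c 1
          push_cast
          simp at this
          linarith
        · rw [h5]; push_cast; ring
        · push_cast; ring
      · refine ⟨n + 1, c - 1, ?_, ?_, ?_⟩
        · have := abs_sub c 1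
          push_cast
          simp at this
          linarith
        · rw [h5]; push_cast; ring
        · push_cast; ring
    · rw [Set.indicator_of_notMem hS]
      exact ⟨n, c, h1, by simp, by simp⟩

theorem bad_not_univ : ((1 / 3 : ℝ) : ℂ) ∉ Ach (x ∘ badE) := by
  rintro ⟨S, hS⟩
  set D : ℕ → ℂ := fun N => ∑ n ∈ range N, S.indicator (x ∘ badE) n with hD
  -- decomposition of a block
  have hblock : ∀ k, ∃ (n n' : ℕ) (c c' : ℤ), |c| ≤ n ∧ |c'| ≤ n' ∧
      (D (8 * T k + 4 * (T (k + 1) - T k)) - D (8 * T k)).re = c * (1 / 2 : ℝ) ^ (k ^ 2) ∧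
      (D (8 * T k + 4 * (T (k + 1) - T k)) - D (8 * T k)).im = n * (1 / ((k : ℝ) + 1)) ∧
      (D (8 * T (k + 1)) - D (8 * T k + 4 * (T (k + 1) - T k))).re = c' * (1 / 2 : ℝ) ^ (k ^ 2) ∧
      (D (8 * T (k + 1)) - D (8 * T k + 4 * (T (k + 1) - T k))).im = n' * (-(1 / ((k : ℝ) + 1))) := by
    intro k
    have hT := T_lt k
    obtain ⟨n, c, h1, h2, h3⟩ := stretch (y := x ∘ badE) S (8 * T k) (4 * (T (k + 1) - T k))
      (fun i hi => y_first hi)
    obtain ⟨n', c', h1', h2', h3'⟩ := stretch (y := x ∘ badE) S (8 * T k + 4 * (T (k + 1) - T k))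
      (4 * (T (k + 1) - T k)) (fun i hi => y_second hi)
    have e1 : D (8 * T k + 4 * (T (k + 1) - T k)) - D (8 * T k)
        = ∑ i ∈ range (4 * (T (k + 1) - T k)), S.indicator (x ∘ badE) (8 * T k + i) := by
      simp only [hD]
      rw [Finset.sum_range_add, add_sub_cancel_left]
    have e2 : D (8 * T (k + 1)) - D (8 * T k + 4 * (T (k + 1) - T k))
        = ∑ i ∈ range (4 * (T (k + 1) - T k)), S.indicator (x ∘ badE)
          (8 * T k + 4 * (T (k + 1) - T k) + i) := by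
      have e3 : 8 * T (k + 1) = 8 * T k + 4 * (T (k + 1) - T k) + 4 * (T (k + 1) - T k) := by omega
      simp only [hD]
      conv_lhs => rw [e3]
      rw [Finset.sum_range_add, add_sub_cancel_left]
    exact ⟨n, n', c, c', h1, h1', by rw [e1]; exact h2, by rw [e1]; exact h3, by rw [e2]; exact h2',
      by rw [e2]; exact h3'⟩
  -- lattice property
  have hlat : ∀ k, ∃ C : ℤ, (D (8 * T (k + 1))).re = C * (1 / 2 : ℝ) ^ (k ^ 2) := by
    intro k
    induction k with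
    | zero =>
      obtain ⟨n, n', c, c', _, _, h1, _, h2, _⟩ := hblock 0
      refine ⟨c + c', ?_⟩
      have h0 : D (8 * T 0) = 0 := by simp [hD, T_zero]
      rw [h0, sub_zero] at h1
      rw [Complex.sub_re, h1] at h2
      push_cast
      linarith
    | succ k ih =>
      obtain ⟨C, hC⟩ := ih
      obtain ⟨n, n', c, c', _, _, h1, _, h2, _⟩ := hblock (k + 1)
      refine ⟨C * 2 ^ (2 * k + 1) + c + c', ?_⟩
      rw [Complex.sub_re] at h1 h2
      have h3 : (1 / 2 : ℝ) ^ (k ^ 2) = 2 ^ (2 * k + 1) * (1 / 2 : ℝ) ^ ((k + 1) ^ 2) := by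
        have : (k + 1) ^ 2 = k ^ 2 + (2 * k + 1) := by ring
        rw [this, pow_add]
        have h4 : (2 : ℝ) ^ (2 * k + 1) * (1 / 2 : ℝ) ^ (2 * k + 1) = 1 := by
          rw [← mul_pow]; norm_num
        calc (1 / 2 : ℝ) ^ (k ^ 2) = (1 / 2 : ℝ) ^ (k ^ 2) * ((2 : ℝ) ^ (2 * k + 1) * (1 / 2 : ℝ) ^ (2 * k + 1)) := by
              rw [h4, mul_one]
          _ = _ := by ring
      rw [hC, h3] at h1
      push_cast
      linarith
  -- Cauchy
  obtain ⟨M0, hM0⟩ := Metric.cauchySeq_iff'.mp hS.cauchySeq (1 / 4) (by norm_num)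
  have hcau : ∀ M M', M0 ≤ M → M0 ≤ M' → ‖D M - D M'‖ ≤ 1 / 2 := by
    intro M M' h h'
    have h1 := hM0 M h
    have h2 := hM0 M' h'
    rw [← dist_eq_norm]
    have := dist_triangle_right (D M) (D M') (D M0)
    linarith
  have hstep : ∀ k, M0 ≤ k → |(D (8 * T (k + 1))).re - (D (8 * T k)).re| ≤ ((k : ℝ) + 1) * (1 / 2 : ℝ) ^ (k ^ 2) := by
    intro k hk
    have hT := T_lt k
    have hle := le_T k
    obtain ⟨n, n', c, c', hc, hc', h1, h2, h3, h4⟩ := hblock k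
    have hk0 : (0 : ℝ) < (k : ℝ) + 1 := by positivity
    have b1 := hcau (8 * T k + 4 * (T (k + 1) - T k)) (8 * T k) (by omega) (by omega)
    have b2 := hcau (8 * T (k + 1)) (8 * T k + 4 * (T (k + 1) - T k)) (by omega) (by omega)
    have b3 := (Complex.abs_im_le_norm _).trans b1
    have b4 := (Complex.abs_im_le_norm _).trans b2
    rw [h2, abs_of_nonneg (by positivity), mul_one_div, div_le_iff₀ hk0] at b3
    rw [h4, mul_neg, abs_neg, abs_of_nonneg (by positivity), mul_one_div, div_le_iff₀ hk0] at b4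
    rw [Complex.sub_re] at h1 h3
    have h5 : (D (8 * T (k + 1))).re - (D (8 * T k)).re = ((c : ℝ) + c') * (1 / 2 : ℝ) ^ (k ^ 2) := by
      linarith
    rw [h5, abs_mul, abs_of_pos (by positivity : (0 : ℝ) < (1 / 2 : ℝ) ^ (k ^ 2))]
    apply mul_le_mul_of_nonneg_right _ (by positivity)
    have hcR : |(c : ℝ)| ≤ n := by exact_mod_cast hc
    have hcR' : |(c' : ℝ)| ≤ n' := by exact_mod_cast hc'
    have := abs_add_le (c : ℝ) (c' : ℝ)
    linarith
  have hpow : ∀ l : ℕ, 2 ≤ l → 6 * l + 13 ≤ 2 ^ (2 * l + 1) := by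
    intro l hl
    induction l, hl using Nat.le_induction with
    | base => norm_num
    | succ l hl ih =>
      have : 2 ^ (2 * (l + 1) + 1) = 4 * 2 ^ (2 * l + 1) := by ring
      omega
  have hpowR : ∀ l : ℕ, 2 ≤ l → ((l : ℝ) + 1 + 1) * (1 / 2 : ℝ) ^ ((l + 1) ^ 2)
      ≤ 1 / 6 * (1 / 2 : ℝ) ^ (l ^ 2) - 1 / 6 * (1 / 2 : ℝ) ^ ((l + 1) ^ 2) := by
    intro l hl
    have h1 : (6 * l + 13 : ℝ) ≤ 2 ^ (2 * l + 1) := by exact_mod_cast hpow l hl
    have h3 : (1 / 2 : ℝ) ^ (l ^ 2) = 2 ^ (2 * l + 1) * (1 / 2 : ℝ) ^ ((l + 1) ^ 2) := by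
      have : (l + 1) ^ 2 = l ^ 2 + (2 * l + 1) := by ring
      rw [this, pow_add]
      have h4 : (2 : ℝ) ^ (2 * l + 1) * (1 / 2 : ℝ) ^ (2 * l + 1) = 1 := by
        rw [← mul_pow]; norm_num
      calc (1 / 2 : ℝ) ^ (l ^ 2) = (1 / 2 : ℝ) ^ (l ^ 2) * ((2 : ℝ) ^ (2 * l + 1) * (1 / 2 : ℝ) ^ (2 * l + 1)) := by
            rw [h4, mul_one]
        _ = _ := by ring
    rw [h3]
    have h5 : (0 : ℝ) < (1 / 2 : ℝ) ^ ((l + 1) ^ 2) := by positivity
    nlinarith
  set l := M0 + 2 with hl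
  have htail : ∀ m, |(D (8 * T (l + 1 + m))).re - (D (8 * T (l + 1))).re|
      ≤ 1 / 6 * (1 / 2 : ℝ) ^ (l ^ 2) - 1 / 6 * (1 / 2 : ℝ) ^ ((l + m) ^ 2) := by
    intro m
    induction m with
    | zero => simp
    | succ m ih =>
      have h1 := hstep (l + 1 + m) (by omega)
      have h2 := hpowR (l + m) (by omega)
      have h3 := abs_add_le ((D (8 * T (l + 1 + m + 1))).re - (D (8 * T (l + 1 + m))).re)
        ((D (8 * T (l + 1 + m))).re - (D (8 * T (l + 1))).re)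
      rw [sub_add_sub_cancel] at h3
      have e1 : l + 1 + m = l + m + 1 := by ring
      rw [← add_assoc, ← add_assoc]
      have h4 : |(D (8 * T (l + 1 + m + 1))).re - (D (8 * T (l + 1 + m))).re|
          ≤ ((((l + m : ℕ)) : ℝ) + 1 + 1) * (1 / 2 : ℝ) ^ ((l + m + 1) ^ 2) := by
        refine h1.trans (le_of_eq ?_)
        rw [e1]
        push_cast
        ring
      linarith
  have hlim : Tendsto (fun m => |(D (8 * T (l + 1 + m))).re - (D (8 * T (l + 1))).re|) atTop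
      (𝓝 |(1 / 3 : ℝ) - (D (8 * T (l + 1))).re|) := by
    have h1 : Tendsto (fun m : ℕ => 8 * T (l + 1 + m)) atTop atTop := by
      apply tendsto_atTop_mono (f := fun m => m) _ tendsto_id
      intro m
      have := le_T (l + 1 + m)
      omega
    have h2 := (Complex.continuous_re.tendsto _).comp (hS.comp h1)
    have h3 := (h2.sub_const (D (8 * T (l + 1))).re).abs
    rw [Complex.ofReal_re] at h3
    exact h3
  have hfin : |(1 / 3 : ℝ) - (D (8 * T (l + 1))).re| ≤ 1 / 6 * (1 / 2 : ℝ) ^ (l ^ 2) := by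
    apply le_of_tendsto hlim
    refine Eventually.of_forall fun m => (htail m).trans ?_
    have : (0 : ℝ) < (1 / 2 : ℝ) ^ ((l + m) ^ 2) := by positivity
    linarith
  obtain ⟨C, hC⟩ := hlat l
  rw [hC] at hfin
  have hp : (0 : ℝ) < 2 ^ (l ^ 2) := by positivity
  have h1 : (2 : ℝ) ^ (l ^ 2) * (1 / 2 : ℝ) ^ (l ^ 2) = 1 := by rw [← mul_pow]; norm_num
  have h2 : |(2 : ℝ) ^ (l ^ 2) - 3 * C| ≤ 1 / 2 := by
    have h3 : (2 : ℝ) ^ (l ^ 2) - 3 * C = 3 * 2 ^ (l ^ 2) * ((1 / 3 : ℝ) - C * (1 / 2 : ℝ) ^ (l ^ 2)) := by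
      linear_combination (3 * C : ℝ) * h1
    rw [h3, abs_mul, abs_of_pos (by positivity)]
    calc 3 * (2 : ℝ) ^ (l ^ 2) * |(1 / 3 : ℝ) - C * (1 / 2 : ℝ) ^ (l ^ 2)|
        ≤ 3 * (2 : ℝ) ^ (l ^ 2) * (1 / 6 * (1 / 2 : ℝ) ^ (l ^ 2)) :=
          mul_le_mul_of_nonneg_left hfin (by positivity)
      _ = 1 / 2 * ((2 : ℝ) ^ (l ^ 2) * (1 / 2 : ℝ) ^ (l ^ 2)) := by ring
      _ = 1 / 2 := by rw [h1, mul_one]
  have h4 : |(2 : ℤ) ^ (l ^ 2) - 3 * C| < 1 := by
    have h5 : |(2 : ℝ) ^ (l ^ 2) - 3 * C| < 1 := by linarith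
    exact_mod_cast h5
  have h5 : (2 : ℤ) ^ (l ^ 2) - 3 * C = 0 := Int.abs_lt_one_iff.mp h4
  have h6 : (3 : ℤ) ∣ 2 ^ (l ^ 2) := ⟨C, by linarith⟩
  have h7 : (3 : ℤ) ∣ 2 := Int.Prime.dvd_pow' (by norm_num) h6
  norm_num at h7

theorem main : ∃ x : ℕ → ℂ, (∃ s, Tendsto (fun N => ∑ n ∈ range N, x n) atTop (𝓝 s)) ∧
    ¬ Summable (fun n => ‖x n‖) ∧ SR x = Set.univ ∧ Ach x = Set.univ ∧ (LevyVectors x).ncard = 2 ∧
    ∃ σ : Equiv.Perm ℕ, Ach (x ∘ σ) ≠ Set.univ := by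
  refine ⟨x, ⟨0, x_conv⟩, x_not_summable, sr_univ, ach_univ, levy_card, badE, fun h => ?_⟩
  apply bad_not_univ
  rw [h]
  trivial

end Pool.Agent.X197.Levy
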