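import Mathlib

/-!
# A nonmetrizable Rosenthal compact
-/

open Set Topology TopologicalSpace Filter

namespace Pool.Agent.X197.Rosenthal

/-- `f` is a function of the first Baire class on `M`: the pointwise limit of a sequence of
continuous functions. -/
def BaireOne {M : Type*} [TopologicalSpace M] (f : M → ℝ) : Prop :=
  ∃ g : ℕ → M → ℝ, (∀ n, Continuous (g n)) ∧ ∀ x, Tendsto (fun n => g n x) atTop (𝓝 (f x))

/-- A Rosenthal compact: a (compact) space homeomorphic to a compact subspace of `B₁(M)`, with the
topology of pointwise convergence, for some Polish space `M`. -/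
def IsRosenthalCompact (K : Type) [TopologicalSpace K] : Prop :=
  ∃ (M : Type) (_ : TopologicalSpace M) (_ : PolishSpace M) (L : Set (M → ℝ)),
    (∀ f ∈ L, BaireOne f) ∧ IsCompact L ∧ Nonempty (K ≃ₜ L)

section bumpsSection

/-- The set of functions `{0} ∪ {𝟙_{a} : a ∈ ℝ}` in `ℝ^ℝ`. -/
def bumps : Set (ℝ → ℝ) := {f | (∀ x, f x = 0 ∨ f x = 1) ∧ ∀ x y, x ≠ y → f x * f y = 0}

open Classical in
/-- the indicator function of a point -/
noncomputable def ind (a : ℝ) : ℝ → ℝ := fun x => if x = a then 1 else 0

theorem ind_mem (a : ℝ) : ind a ∈ bumps := by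
  refine ⟨fun x => ?_, fun x y hxy => ?_⟩
  · by_cases h : x = a <;> simp [ind, h]
  · by_cases h : x = a
    · have : y ≠ a := fun h' => hxy (h.trans h'.symm)
      simp [ind, this]
    · simp [ind, h]

theorem eq_ind {f : ℝ → ℝ} (hf : f ∈ bumps) {a : ℝ} (ha : f a ≠ 0) : f = ind a := by
  funext x
  by_cases h : x = a
  · subst h
    simpa [ind] using (hf.1 x).resolve_left ha
  · have := hf.2 x a h
    simpa [ind, h, ha] using this

theorem isClosed_bumps : IsClosed bumps := by
  have : bumps = (⋂ x : ℝ, {f : ℝ → ℝ | f x = 0 ∨ f x = 1}) ∩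
      ⋂ x : ℝ, ⋂ y : ℝ, ⋂ _ : x ≠ y, {f : ℝ → ℝ | f x * f y = 0} := by
    ext f
    simp [bumps]
  rw [this]
  refine IsClosed.inter (isClosed_iInter fun x => ?_)
    (isClosed_iInter fun x => isClosed_iInter fun y => isClosed_iInter fun _ => ?_)
  · have h0 : IsClosed {f : ℝ → ℝ | f x = 0} := isClosed_eq (continuous_apply x) continuous_const
    have h1 : IsClosed {f : ℝ → ℝ | f x = 1} := isClosed_eq (continuous_apply x) continuous_const
    exact h0.union h1
  · exact isClosed_eq ((continuous_apply x).mul (continuous_apply y)) continuous_const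

theorem isCompact_bumps : IsCompact bumps := by
  have hc : IsCompact (univ.pi fun _ : ℝ => Icc (0 : ℝ) 1) :=
    isCompact_univ_pi fun _ => isCompact_Icc
  refine hc.of_isClosed_subset isClosed_bumps ?_
  intro f hf x _
  rcases hf.1 x with h | h <;> simp [h]

theorem baireOne_ind (a : ℝ) : BaireOne (ind a) := by
  refine ⟨fun n x => max 0 (1 - n * |x - a|), fun n => ?_, fun x => ?_⟩
  · exact continuous_const.max
      (continuous_const.sub (continuous_const.mul ((continuous_id.sub continuous_const).abs)))
  · by_cases h : x = a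
    · subst h
      simp [ind]
    · have hpos : 0 < |x - a| := abs_pos.2 (sub_ne_zero.2 h)
      have hev : ∀ᶠ n : ℕ in atTop, max 0 (1 - (n : ℝ) * |x - a|) = 0 := by
        obtain ⟨N, hN⟩ := exists_nat_gt (1 / |x - a|)
        filter_upwards [eventually_ge_atTop N] with n hn
        apply max_eq_left
        have h1 : 1 / |x - a| < n := hN.trans_le (by exact_mod_cast hn)
        rw [div_lt_iff₀ hpos] at h1
        linarith
      simp only [ind, h, if_false]
      exact tendsto_const_nhds.congr' (hev.mono fun n hn => hn.symm)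

theorem baireOne_bumps (f : ℝ → ℝ) (hf : f ∈ bumps) : BaireOne f := by
  by_cases h : ∃ a, f a ≠ 0
  · obtain ⟨a, ha⟩ := h
    rw [eq_ind hf ha]
    exact baireOne_ind a
  · push Not at h
    exact ⟨fun _ => f, fun _ => by rw [show f = fun _ => (0 : ℝ) from funext h]; exact continuous_const,
      fun x => tendsto_const_nhds⟩

theorem not_metrizable_bumps : ¬ MetrizableSpace bumps := by
  intro hM
  haveI : CompactSpace bumps := isCompact_iff_compactSpace.1 isCompact_bumps
  haveI : SecondCountableTopology bumps := by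
    letI := metrizableSpaceMetric bumps
    infer_instance
  let S : ℝ → Set bumps := fun a => {f | 1 / 2 < f.1 a}
  have hSo : ∀ a ∈ (univ : Set ℝ), IsOpen (S a) := fun a _ =>
    isOpen_lt continuous_const ((continuous_apply a).comp continuous_subtype_val)
  have hSne : ∀ a ∈ (univ : Set ℝ), (S a).Nonempty := fun a _ =>
    ⟨⟨ind a, ind_mem a⟩, by show (1 / 2 : ℝ) < ind a a; simp [ind]; norm_num⟩
  have hdisj : (univ : Set ℝ).PairwiseDisjoint S := by
    intro a _ b _ hab
    rw [Function.onFun, disjoint_left]
    intro f hfa hfb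
    have h1 : (1 / 2 : ℝ) < f.1 a := hfa
    have h2 : (1 / 2 : ℝ) < f.1 b := hfb
    have h3 := f.2.2 a b hab
    nlinarith
  have := hdisj.countable_of_isOpen hSo hSne
  exact not_countable_univ this

end bumpsSection

theorem isRosenthal_bumps : IsRosenthalCompact bumps :=
  ⟨ℝ, inferInstance, inferInstance, bumps, baireOne_bumps, isCompact_bumps, ⟨Homeomorph.refl _⟩⟩

end Pool.Agent.X197.Rosenthal
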