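import Mathlib

namespace Pool.Agent.X197.PropS

open MeasureTheory Set Filter Topology

/-- The modulus `U_X(x,y;a)`. -/
noncomputable def U2 {X : Type} [NormedAddCommGroup X] (x y : X) (a : ℝ) : ℝ :=
  ⨆ z : {z : X // ‖z‖ ≤ a}, |‖x + z.1‖ - ‖y + z.1‖|

/-- Uniform property (S). -/
def UniformS (X : Type) [NormedAddCommGroup X] : Prop :=
  ∀ d a : ℝ, 0 < d → d < 2 → 0 < a → ∃ c : ℝ, 0 < c ∧
    ∀ x y : X, ‖x‖ = 1 → ‖y‖ = 1 → d ≤ ‖x - y‖ → c ≤ U2 x y a

lemma U2_bdd {X : Type} [NormedAddCommGroup X] (x y : X) (a : ℝ) :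
    BddAbove (range fun z : {z : X // ‖z‖ ≤ a} => |‖x + z.1‖ - ‖y + z.1‖|) := by
  refine ⟨‖x - y‖, ?_⟩
  rintro _ ⟨z, rfl⟩
  have h := abs_norm_sub_norm_le (x + z.1) (y + z.1)
  rwa [add_sub_add_right_eq_sub] at h

lemma le_U2 {X : Type} [NormedAddCommGroup X] {x y : X} {a : ℝ} {z : X} (hz : ‖z‖ ≤ a) :
    |‖x + z‖ - ‖y + z‖| ≤ U2 x y a :=
  le_ciSup (U2_bdd x y a) (⟨z, hz⟩ : {z : X // ‖z‖ ≤ a})

noncomputable def μ : Measure ℝ := volume.restrict (Ioc (0 : ℝ) 1)

instance : IsFiniteMeasure μ := by unfold μ; infer_instance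

instance : NullSingletonClass μ := by unfold μ; infer_instance

noncomputable abbrev X1 := Lp ℝ 1 μ

lemma norm_X1 (x : X1) : ‖x‖ = ∫ t, |x t| ∂μ := by
  rw [L1.norm_eq_integral_norm]; rfl

lemma int_X1 (x : X1) : Integrable x μ := L1.integrable_coeFn x

lemma full (F : ℝ → ℝ) : ∫ t in (0 : ℝ)..1, F t ∂μ = ∫ t, F t ∂μ := by
  rw [intervalIntegral.integral_of_le zero_le_one]
  have : μ.restrict (Ioc 0 1) = μ := by
    unfold μ
    rw [Measure.restrict_restrict measurableSet_Ioc, inter_self]
  rw [this]

theorem uniformS_X1 : UniformS X1 := by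
  intro d a hd hd2 ha
  set τ := min a (d / 4) with hτ
  have hτpos : 0 < τ := lt_min ha (by positivity)
  refine ⟨d / 4 * τ, by positivity, fun x y hx hy hxy => ?_⟩
  have mx : Measurable x := (Lp.stronglyMeasurable x).measurable
  have my : Measurable y := (Lp.stronglyMeasurable y).measurable
  have ix := (int_X1 x).abs
  have iy := (int_X1 y).abs
  set G : ℝ → ℝ := fun t => max |x t| |y t| with hG
  set H : ℝ → ℝ := fun t => |x t - y t| - |x t| + |y t| with hH
  have mG : Measurable G := by fun_prop
  have mH : Measurable H := by fun_prop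
  have iG : Integrable G μ := by
    refine (ix.add iy).mono' mG.aestronglyMeasurable (Eventually.of_forall fun t => ?_)
    have h0 : 0 ≤ G t := (abs_nonneg _).trans (le_max_left _ _)
    rw [Real.norm_eq_abs, abs_of_nonneg h0]
    exact max_le (by simp only [Pi.add_apply]; linarith [abs_nonneg (y t)])
      (by simp only [Pi.add_apply]; linarith [abs_nonneg (x t)])
  have iD : Integrable (fun t => |x t - y t|) μ := ((int_X1 x).sub (int_X1 y)).abs
  have iH : Integrable H μ := (iD.sub ix).add iy
  have hH0 : ∀ t, 0 ≤ H t := fun t => by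
    have := abs_sub_abs_le_abs_sub (x t) (y t)
    simp only [hH]; linarith
  have hHG : ∀ t, H t ≤ 2 * G t := fun t => by
    have h1 : |x t - y t| ≤ |x t| + |y t| := abs_sub _ _
    have h2 : |y t| ≤ G t := le_max_right _ _
    simp only [hH]; linarith
  have hG0 : ∀ t, 0 ≤ G t := fun t => (abs_nonneg _).trans (le_max_left _ _)
  have hGint : ∫ t, G t ∂μ ≤ 2 := by
    calc ∫ t, G t ∂μ ≤ ∫ t, (|x t| + |y t|) ∂μ := by
          refine integral_mono iG (ix.add iy) (fun t => ?_)
          exact max_le (by linarith [abs_nonneg (y t)]) (by linarith [abs_nonneg (x t)])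
      _ = 2 := by
          rw [integral_add ix iy, ← norm_X1, ← norm_X1, hx, hy]; norm_num
  have hHint : d ≤ ∫ t, H t ∂μ := by
    have h1 : ∫ t, H t ∂μ = (∫ t, |x t - y t| ∂μ) - (∫ t, |x t| ∂μ) + ∫ t, |y t| ∂μ := by
      have e1 := integral_add (μ := μ) (f := fun t => |x t - y t| - |x t|) (g := fun t => |y t|)
        (iD.sub ix) iy
      have e2 := integral_sub (μ := μ) (f := fun t => |x t - y t|) (g := fun t => |x t|) iD ix
      simp only [hH]
      rw [e1, e2]
    rw [h1, ← norm_X1, ← norm_X1, hx, hy]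
    have h2 : ‖x - y‖ = ∫ t, |x t - y t| ∂μ := by
      rw [norm_X1]
      refine integral_congr_ae ?_
      filter_upwards [Lp.coeFn_sub x y] with t ht
      rw [ht]; rfl
    linarith
  set A : Set ℝ := {t | d / 4 * G t ≤ H t} with hA
  have mA : MeasurableSet A := measurableSet_le (by fun_prop) mH
  set GA : ℝ → ℝ := A.indicator G with hGA
  have iGA : Integrable GA μ := iG.indicator mA
  have hGA0 : ∀ t, 0 ≤ GA t := fun t => indicator_nonneg (fun s _ => hG0 s) t
  have hGAint : d / 4 ≤ ∫ t, GA t ∂μ := by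
    have h1 : ∀ t, H t ≤ 2 * GA t + d / 4 * G t := by
      intro t
      by_cases ht : t ∈ A
      · rw [hGA, indicator_of_mem ht]
        have := hHG t
        have := hG0 t
        nlinarith
      · rw [hGA, indicator_of_notMem ht]
        have : ¬ (d / 4 * G t ≤ H t) := ht
        linarith
    have h2 : ∫ t, H t ∂μ ≤ 2 * (∫ t, GA t ∂μ) + d / 4 * ∫ t, G t ∂μ := by
      rw [← integral_const_mul, ← integral_const_mul, ← integral_add (iGA.const_mul 2)
        (iG.const_mul _)]
      exact integral_mono iH ((iGA.const_mul 2).add (iG.const_mul _)) h1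
    nlinarith
  -- intermediate value
  have hcont : Continuous (fun b => ∫ t in (0 : ℝ)..b, GA t ∂μ) :=
    intervalIntegral.continuous_primitive (fun a b => iGA.intervalIntegrable) 0
  obtain ⟨s, hs, hsτ⟩ : τ ∈ (fun b => ∫ t in (0 : ℝ)..b, GA t ∂μ) '' Icc 0 1 := by
    apply intermediate_value_Icc zero_le_one hcont.continuousOn
    simp only [intervalIntegral.integral_same, full]
    exact ⟨hτpos.le, (min_le_right _ _).trans hGAint⟩
  simp only at hsτ
  rw [intervalIntegral.integral_of_le hs.1] at hsτ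
  set B : Set ℝ := A ∩ Ioc 0 s with hB
  have mB : MeasurableSet B := mA.inter measurableSet_Ioc
  have hBG : ∫ t, B.indicator G t ∂μ = τ := by
    rw [← hsτ, ← integral_indicator measurableSet_Ioc, hB, inter_comm, ← indicator_indicator]
  set w : ℝ → ℝ := fun t => if y t ≤ x t then G t else - G t with hw
  have mw : Measurable w := Measurable.ite (measurableSet_le my mx) mG mG.neg
  have hwabs : ∀ t, |w t| = G t := fun t => by
    simp only [hw]
    split_ifs
    · exact abs_of_nonneg (hG0 t)
    · rw [abs_neg]; exact abs_of_nonneg (hG0 t)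
  have iz : Integrable (B.indicator w) μ := by
    refine (Integrable.mono' iG mw.aestronglyMeasurable (Eventually.of_forall fun t => ?_)).indicator mB
    rw [Real.norm_eq_abs, hwabs]
  set z : X1 := iz.toL1 with hz
  have hzae : (z : ℝ → ℝ) =ᵐ[μ] B.indicator w := Integrable.coeFn_toL1 iz
  have hznorm : ‖z‖ = τ := by
    rw [norm_X1, ← hBG]
    refine integral_congr_ae ?_
    filter_upwards [hzae] with t ht
    rw [ht]
    by_cases h : t ∈ B
    · rw [indicator_of_mem h, indicator_of_mem h, hwabs]
    · rw [indicator_of_notMem h, indicator_of_notMem h, abs_zero]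
  have hdiff : ‖x + z‖ - ‖y + z‖ = ∫ t, B.indicator H t ∂μ := by
    rw [norm_X1, norm_X1]
    have i1 : Integrable (fun t => |(x + z : X1) t|) μ := (int_X1 _).abs
    have i2 : Integrable (fun t => |(y + z : X1) t|) μ := (int_X1 _).abs
    rw [← integral_sub i1 i2]
    have h1 : ∫ t, (|(x + z : X1) t| - |(y + z : X1) t|) ∂μ
        = ∫ t, (B.indicator H t + (|x t| - |y t|)) ∂μ := by
      refine integral_congr_ae ?_
      filter_upwards [Lp.coeFn_add x z, Lp.coeFn_add y z, hzae] with t h1 h2 h3
      rw [h1, h2, Pi.add_apply, Pi.add_apply, h3]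
      by_cases h : t ∈ B
      · rw [indicator_of_mem h, indicator_of_mem h]
        have e1 : |x t| ≤ G t := le_max_left _ _
        have e2 : |y t| ≤ G t := le_max_right _ _
        have e3 := abs_le.mp e1
        have e4 := abs_le.mp e2
        simp only [hw, hH]
        split_ifs with hyx
        · rw [abs_of_nonneg (by linarith : 0 ≤ x t + G t), abs_of_nonneg (by linarith : 0 ≤ y t + G t),
            abs_of_nonneg (by linarith : 0 ≤ x t - y t)]
          ring
        · rw [abs_of_nonpos (by linarith : x t + -G t ≤ 0), abs_of_nonpos (by linarith : y t + -G t ≤ 0),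
            abs_of_nonpos (by linarith : x t - y t ≤ 0)]
          ring
      · rw [indicator_of_notMem h, indicator_of_notMem h]; simp
    have e1 := integral_add (μ := μ) (f := B.indicator H) (g := fun t => |x t| - |y t|)
      (iH.indicator mB) (ix.sub iy)
    have e2 := integral_sub (μ := μ) (f := fun t => |x t|) (g := fun t => |y t|) ix iy
    rw [h1, e1, e2, ← norm_X1, ← norm_X1, hx, hy]
    ring
  have hlow : d / 4 * τ ≤ ∫ t, B.indicator H t ∂μ := by
    rw [← hBG, ← integral_const_mul]
    refine integral_mono ((iG.indicator mB).const_mul _) (iH.indicator mB) (fun t => ?_)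
    by_cases h : t ∈ B
    · simp only [indicator_of_mem h]
      exact h.1
    · simp only [indicator_of_notMem h]; simp
  have h1 := le_U2 (x := x) (y := y) (a := a) (z := z) (by rw [hznorm]; exact min_le_left _ _)
  rw [hdiff] at h1
  exact hlow.trans ((le_abs_self _).trans h1)

end Pool.Agent.X197.PropS
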