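import Mathlib
import Pool.Agent.X197.PropS

namespace Pool.Agent.X197.PropS

open MeasureTheory Set Filter Topology ENNReal
open scoped InnerProductSpace

instance : IsProbabilityMeasure μ := ⟨by unfold μ; simp⟩

lemma int_mul {h : ℝ → ℝ} (hm : Measurable h) {C : ℝ} (hC : ∀ t, |h t| ≤ C) (f : X1) :
    Integrable (fun t => h t * f t) μ := by
  refine Integrable.bdd_mul (c := C) (int_X1 f) hm.aestronglyMeasurable
    (Eventually.of_forall fun t => ?_)
  rw [Real.norm_eq_abs]; exact hC t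

/-- The functional with bounded measurable density `h`. -/
noncomputable def Lam (h : ℝ → ℝ) (hm : Measurable h) (C : ℝ) (hC : ∀ t, |h t| ≤ C) :
    X1 →L[ℝ] ℝ :=
  LinearMap.mkContinuous
    { toFun := fun f => ∫ t, h t * f t ∂μ
      map_add' := fun f g => by
        rw [← integral_add (int_mul hm hC f) (int_mul hm hC g)]
        refine integral_congr_ae ?_
        filter_upwards [Lp.coeFn_add f g] with t ht
        rw [ht, Pi.add_apply]; ring
      map_smul' := fun c f => by
        simp only [RingHom.id_apply, smul_eq_mul]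
        rw [← integral_const_mul]
        refine integral_congr_ae ?_
        filter_upwards [Lp.coeFn_smul c f] with t ht
        rw [ht, Pi.smul_apply, smul_eq_mul]; ring } C (fun f => by
      simp only [LinearMap.coe_mk, AddHom.coe_mk]
      rw [norm_X1, ← integral_const_mul]
      refine (norm_integral_le_integral_norm _).trans ?_
      refine integral_mono (int_mul hm hC f).norm ((int_X1 f).abs.const_mul C) (fun t => ?_)
      simp only [Real.norm_eq_abs, abs_mul]
      exact mul_le_mul_of_nonneg_right (hC t) (abs_nonneg _))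

lemma Lam_apply (h : ℝ → ℝ) (hm : Measurable h) (C : ℝ) (hC : ∀ t, |h t| ≤ C) (f : X1) :
    Lam h hm C hC f = ∫ t, h t * f t ∂μ := rfl

lemma Lam_norm (h : ℝ → ℝ) (hm : Measurable h) (C : ℝ) (hC : ∀ t, |h t| ≤ C) :
    ‖Lam h hm C hC‖ ≤ C :=
  LinearMap.mkContinuous_norm_le _ ((abs_nonneg _).trans (hC 0)) _

lemma int_bdd {h : ℝ → ℝ} (hm : Measurable h) {C : ℝ} (hC : ∀ t, |h t| ≤ C) : Integrable h μ :=
  Integrable.mono' (integrable_const C) hm.aestronglyMeasurable
    (Eventually.of_forall fun t => by rw [Real.norm_eq_abs]; exact hC t)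

lemma Lam_ind (h : ℝ → ℝ) (hm : Measurable h) (C : ℝ) (hC : ∀ t, |h t| ≤ C) {s : Set ℝ}
    (hs : MeasurableSet s) (c : ℝ) :
    Lam h hm C hC (indicatorConstLp 1 hs (measure_ne_top μ s) c) = (∫ t in s, h t ∂μ) * c := by
  rw [Lam_apply, ← integral_indicator hs, ← integral_mul_const]
  refine integral_congr_ae ?_
  filter_upwards [indicatorConstLp_coeFn (p := 1) (hs := hs) (hμs := measure_ne_top μ s) (c := c)]
    with t ht
  rw [ht]
  by_cases h' : t ∈ s
  · rw [indicator_of_mem h', indicator_of_mem h']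
  · rw [indicator_of_notMem h', indicator_of_notMem h']; simp

/-- inclusion of square integrable functions -/
noncomputable def inc : Lp ℝ 2 μ →L[ℝ] X1 :=
  LinearMap.mkContinuous
    { toFun := fun f => ((Lp.memLp f).mono_exponent (p := 1) one_le_two).toLp f
      map_add' := fun f g => by
        apply Lp.ext
        filter_upwards [Lp.coeFn_add f g, MemLp.coeFn_toLp ((Lp.memLp (f + g)).mono_exponent (p := 1) one_le_two),
          Lp.coeFn_add (((Lp.memLp f).mono_exponent (p := 1) one_le_two).toLp f)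
            (((Lp.memLp g).mono_exponent (p := 1) one_le_two).toLp g),
          MemLp.coeFn_toLp ((Lp.memLp f).mono_exponent (p := 1) one_le_two),
          MemLp.coeFn_toLp ((Lp.memLp g).mono_exponent (p := 1) one_le_two)] with t h1 h2 h3 h4 h5
        rw [h2, h1, h3, Pi.add_apply, Pi.add_apply, h4, h5]
      map_smul' := fun c f => by
        apply Lp.ext
        filter_upwards [Lp.coeFn_smul c f, MemLp.coeFn_toLp ((Lp.memLp (c • f)).mono_exponent (p := 1) one_le_two),
          Lp.coeFn_smul c (((Lp.memLp f).mono_exponent (p := 1) one_le_two).toLp f),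
          MemLp.coeFn_toLp ((Lp.memLp f).mono_exponent (p := 1) one_le_two)] with t h1 h2 h3 h4
        simp only [RingHom.id_apply]
        rw [h2, h1, h3, Pi.smul_apply, Pi.smul_apply, h4] } 1 (fun f => by
      simp only [LinearMap.coe_mk, AddHom.coe_mk, one_mul]
      rw [Lp.norm_toLp, Lp.norm_def]
      exact ENNReal.toReal_mono (Lp.eLpNorm_ne_top f)
        (eLpNorm_le_eLpNorm_of_exponent_le one_le_two (Lp.aestronglyMeasurable f)))

lemma inc_ind {s : Set ℝ} (hs : MeasurableSet s) (c : ℝ) :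
    inc (indicatorConstLp 2 hs (measure_ne_top μ s) c)
      = indicatorConstLp 1 hs (measure_ne_top μ s) c := by
  apply Lp.ext
  have h1 := MemLp.coeFn_toLp ((Lp.memLp (indicatorConstLp 2 hs (measure_ne_top μ s) c)).mono_exponent
    (p := 1) one_le_two)
  have e : ((inc (indicatorConstLp 2 hs (measure_ne_top μ s) c) : X1) : ℝ → ℝ)
      =ᵐ[μ] (indicatorConstLp 2 hs (measure_ne_top μ s) c : Lp ℝ 2 μ) := h1
  filter_upwards [e, indicatorConstLp_coeFn (p := 1) (hs := hs) (hμs := measure_ne_top μ s) (c := c),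
    indicatorConstLp_coeFn (p := 2) (hs := hs) (hμs := measure_ne_top μ s) (c := c)] with t h1 h2 h3
  rw [h1, h2, h3]

theorem exists_dens (φ : X1 →L[ℝ] ℝ) : ∃ (h : ℝ → ℝ) (hm : Measurable h)
    (hC : ∀ t, |h t| ≤ ‖φ‖), Lam h hm ‖φ‖ hC = φ := by
  set ψ : Lp ℝ 2 μ →L[ℝ] ℝ := φ.comp inc with hψ
  set g2 : Lp ℝ 2 μ := (InnerProductSpace.toDual ℝ (Lp ℝ 2 μ)).symm ψ with hg2
  have hip : ∀ f, ⟪g2, f⟫_ℝ = ψ f := fun f => by
    rw [hg2]; exact InnerProductSpace.toDual_symm_apply
  have hset : ∀ {s : Set ℝ} (hs : MeasurableSet s) (c : ℝ),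
      φ (indicatorConstLp 1 hs (measure_ne_top μ s) c) = (∫ t in s, g2 t ∂μ) * c := by
    intro s hs c
    rw [← inc_ind hs c]
    have h1 := hip (indicatorConstLp 2 hs (measure_ne_top μ s) c)
    rw [real_inner_comm, L2.inner_indicatorConstLp_eq_inner_setIntegral] at h1
    rw [hψ] at h1
    have h2 : ⟪c, ∫ t in s, g2 t ∂μ⟫_ℝ = (∫ t in s, g2 t ∂μ) * c := by
      simp [mul_comm]
    rw [← h2, h1]; rfl
  have ig2 : Integrable g2 μ := (Lp.memLp g2).integrable one_le_two
  have hle : ∀ {s : Set ℝ} (_ : MeasurableSet s), |∫ t in s, g2 t ∂μ| ≤ ‖φ‖ * μ.real s := by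
    intro s hs
    have h1 := hset hs 1
    rw [mul_one] at h1
    rw [← h1]
    refine (φ.le_opNorm _).trans ?_
    rw [norm_indicatorConstLp one_ne_zero ENNReal.one_ne_top]
    simp
  have hae1 : g2 ≤ᵐ[μ] fun _ => ‖φ‖ := by
    refine ae_le_of_forall_setIntegral_le ig2 (integrable_const _) (fun s hs _ => ?_)
    have := (abs_le.mp (hle hs)).2
    rw [setIntegral_const, smul_eq_mul]
    linarith [mul_comm ‖φ‖ (μ.real s)]
  have hae2 : (fun _ => - ‖φ‖) ≤ᵐ[μ] g2 := by
    refine ae_le_of_forall_setIntegral_le (integrable_const _) ig2 (fun s hs _ => ?_)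
    have := (abs_le.mp (hle hs)).1
    rw [setIntegral_const, smul_eq_mul]
    linarith [mul_comm ‖φ‖ (μ.real s)]
  set h : ℝ → ℝ := fun t => max (-‖φ‖) (min ‖φ‖ (g2 t)) with hh
  have hm : Measurable h := by
    have := (Lp.stronglyMeasurable g2).measurable
    fun_prop
  have hC : ∀ t, |h t| ≤ ‖φ‖ := fun t => by
    rw [abs_le]
    exact ⟨le_max_left _ _, max_le (by linarith [norm_nonneg φ]) (min_le_left _ _)⟩
  have hhg : h =ᵐ[μ] g2 := by
    filter_upwards [hae1, hae2] with t h1 h2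
    simp only [hh]
    rw [min_eq_right h1, max_eq_right h2]
  refine ⟨h, hm, hC, ?_⟩
  ext f
  refine Lp.induction (p := 1) ENNReal.one_ne_top (motive := fun f : X1 => Lam h hm ‖φ‖ hC f = φ f)
    ?_ ?_ ?_ f
  · intro c s hs hμs
    rw [Lp.simpleFunc.coe_indicatorConst, Lam_ind, hset hs c]
    congr 1
    exact integral_congr_ae (ae_restrict_of_ae hhg)
  · intro f g hf hg _ h1 h2
    rw [map_add, map_add, h1, h2]
  · exact isClosed_eq (Lam h hm ‖φ‖ hC).continuous φ.continuous

lemma dens_unique {h g : ℝ → ℝ} (hm : Measurable h) (gm : Measurable g) {C D : ℝ}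
    (hC : ∀ t, |h t| ≤ C) (gD : ∀ t, |g t| ≤ D) (heq : Lam h hm C hC = Lam g gm D gD) :
    h =ᵐ[μ] g := by
  refine Integrable.ae_eq_of_forall_setIntegral_eq h g (int_bdd hm hC) (int_bdd gm gD) ?_
  intro s hs _
  have h1 := Lam_ind h hm C hC hs 1
  have h2 := Lam_ind g gm D gD hs 1
  rw [heq] at h1
  rw [mul_one] at h1 h2
  rw [← h1, ← h2]

noncomputable def dens (φ : X1 →L[ℝ] ℝ) : ℝ → ℝ := (exists_dens φ).choose
lemma dens_meas (φ : X1 →L[ℝ] ℝ) : Measurable (dens φ) := (exists_dens φ).choose_spec.choose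
lemma dens_bdd (φ : X1 →L[ℝ] ℝ) : ∀ t, |dens φ t| ≤ ‖φ‖ :=
  (exists_dens φ).choose_spec.choose_spec.choose
lemma Lam_dens (φ : X1 →L[ℝ] ℝ) : Lam (dens φ) (dens_meas φ) ‖φ‖ (dens_bdd φ) = φ :=
  (exists_dens φ).choose_spec.choose_spec.choose_spec

lemma exists_lim (U : Ultrafilter ℝ) (φ : X1 →L[ℝ] ℝ) : ∃ c, Tendsto (dens φ) U (𝓝 c) := by
  have hK : IsCompact (Icc (-‖φ‖) ‖φ‖) := isCompact_Icc
  have h1 : (U.map (dens φ) : Filter ℝ) ≤ 𝓟 (Icc (-‖φ‖) ‖φ‖) := by
    rw [le_principal_iff, Ultrafilter.mem_coe, Ultrafilter.mem_map]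
    exact Filter.univ_mem' (fun t => abs_le.mp (dens_bdd φ t))
  obtain ⟨c, -, hc⟩ := hK.ultrafilter_le_nhds (U.map (dens φ)) h1
  exact ⟨c, hc⟩

noncomputable def lm (U : Ultrafilter ℝ) (φ : X1 →L[ℝ] ℝ) : ℝ := (exists_lim U φ).choose
lemma lm_spec (U : Ultrafilter ℝ) (φ : X1 →L[ℝ] ℝ) : Tendsto (dens φ) U (𝓝 (lm U φ)) :=
  (exists_lim U φ).choose_spec

lemma lm_eq {U : Ultrafilter ℝ} (hU : (U : Filter ℝ) ≤ ae μ) {φ : X1 →L[ℝ] ℝ} {h : ℝ → ℝ}
    (hm : Measurable h) {C : ℝ} (hC : ∀ t, |h t| ≤ C) (heq : Lam h hm C hC = φ) {c : ℝ}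
    (hc : Tendsto h U (𝓝 c)) : lm U φ = c := by
  have h1 : dens φ =ᵐ[μ] h :=
    dens_unique (dens_meas φ) hm (dens_bdd φ) hC (by rw [Lam_dens, heq])
  have h2 : dens φ =ᶠ[U] h := hU h1
  exact tendsto_nhds_unique ((lm_spec U φ).congr' h2) hc

/-- The point mass at an ultrafilter, an element of the bidual. -/
noncomputable def pm (U : Ultrafilter ℝ) (hU : (U : Filter ℝ) ≤ ae μ) :
    (X1 →L[ℝ] ℝ) →L[ℝ] ℝ :=
  LinearMap.mkContinuous
    { toFun := lm U
      map_add' := fun φ ψ => by
        refine lm_eq hU (h := fun t => dens φ t + dens ψ t) ((dens_meas φ).add (dens_meas ψ))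
          (C := ‖φ‖ + ‖ψ‖) (fun t => (abs_add_le _ _).trans (add_le_add (dens_bdd φ t) (dens_bdd ψ t)))
          ?_ ((lm_spec U φ).add (lm_spec U ψ))
        ext f
        rw [Lam_apply, add_apply]
        conv_rhs => rw [← Lam_dens φ, ← Lam_dens ψ]
        rw [Lam_apply, Lam_apply, ← integral_add (int_mul (dens_meas φ) (dens_bdd φ) f)
          (int_mul (dens_meas ψ) (dens_bdd ψ) f)]
        refine integral_congr_ae (Eventually.of_forall fun t => ?_)
        simp only; ring
      map_smul' := fun c φ => by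
        simp only [RingHom.id_apply, smul_eq_mul]
        refine lm_eq hU (h := fun t => c * dens φ t) ((dens_meas φ).const_mul c)
          (C := |c| * ‖φ‖) (fun t => by
            rw [abs_mul]; exact mul_le_mul_of_nonneg_left (dens_bdd φ t) (abs_nonneg _))
          ?_ ((lm_spec U φ).const_mul c)
        ext f
        rw [Lam_apply, smul_apply]
        conv_rhs => rw [← Lam_dens φ]
        rw [Lam_apply, smul_eq_mul, ← integral_const_mul]
        refine integral_congr_ae (Eventually.of_forall fun t => ?_)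
        simp only; ring } 1 (fun φ => by
      simp only [LinearMap.coe_mk, AddHom.coe_mk, one_mul]
      refine le_of_tendsto (lm_spec U φ).norm (Eventually.of_forall fun t => ?_)
      exact dens_bdd φ t)

lemma pm_apply (U : Ultrafilter ℝ) (hU : (U : Filter ℝ) ≤ ae μ) (φ : X1 →L[ℝ] ℝ) :
    pm U hU φ = lm U φ := rfl

lemma pm_norm (U : Ultrafilter ℝ) (hU : (U : Filter ℝ) ≤ ae μ) : ‖pm U hU‖ ≤ 1 :=
  LinearMap.mkContinuous_norm_le _ zero_le_one _

abbrev Bid := (X1 →L[ℝ] ℝ) →L[ℝ] ℝ

lemma exists_near_norm (F : Bid) {η : ℝ} (hη : 0 < η) : ∃ φ : X1 →L[ℝ] ℝ, ‖φ‖ ≤ 1 ∧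
    ‖F‖ - η ≤ F φ := by
  by_cases hF : ‖F‖ - η < 0
  · exact ⟨0, by simp, by simp; linarith⟩
  push Not at hF
  obtain ⟨φ, h1, h2⟩ := F.exists_lt_apply_of_lt_opNorm (r := ‖F‖ - η) (by linarith)
  rcases le_total 0 (F φ) with h | h
  · refine ⟨φ, h1.le, ?_⟩
    rw [Real.norm_eq_abs, abs_of_nonneg h] at h2
    exact h2.le
  · refine ⟨-φ, by rw [norm_neg]; exact h1.le, ?_⟩
    rw [Real.norm_eq_abs, abs_of_nonpos h] at h2
    rw [map_neg]; exact h2.le

/-- Adding mass at an atom. -/
theorem atom_lemma {U : Ultrafilter ℝ} (hU : (U : Filter ℝ) ≤ ae μ) {A0 : Set ℝ}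
    (hA0 : MeasurableSet A0) (hA0U : A0 ∈ U) (w z : Bid)
    (hw : ∀ φ φ' : X1 →L[ℝ] ℝ, (∀ᵐ t ∂μ, t ∉ A0 → dens φ' t = dens φ t) → w φ' = w φ) {α s : ℝ} (hα : ‖z‖ ≤ α) :
    ‖α • pm U hU + w + z‖ + s ≤ ‖(α + s) • pm U hU + w + z‖ := by
  have key : ∀ η : ℝ, 0 < η → ‖α • pm U hU + w + z‖ + s - (1 + ‖z‖) * η
      ≤ ‖(α + s) • pm U hU + w + z‖ := by
    intro η hη
    obtain ⟨φ, hφ1, hφ2⟩ := exists_near_norm (α • pm U hU + w + z) hη
    set c := lm U φ with hc
    have hc1 : c ≤ 1 := by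
      refine le_of_tendsto (lm_spec U φ) (Eventually.of_forall fun t => ?_)
      exact (le_abs_self _).trans ((dens_bdd φ t).trans hφ1)
    set A : Set ℝ := A0 ∩ {t | |dens φ t - c| ≤ η} with hA
    have mA : MeasurableSet A :=
      hA0.inter (measurableSet_le (by have := dens_meas φ; fun_prop) measurable_const)
    have hAU : A ∈ U := by
      refine inter_mem hA0U ?_
      have h1 := (lm_spec U φ).eventually (Metric.closedBall_mem_nhds c hη)
      filter_upwards [h1] with t ht
      simpa [Real.dist_eq] using ht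
    classical
    set g : ℝ → ℝ := fun t => if t ∈ A then 1 else dens φ t with hg
    have mg : Measurable g := Measurable.ite mA measurable_const (dens_meas φ)
    have hg1 : ∀ t, |g t| ≤ 1 := fun t => by
      simp only [hg]
      split_ifs
      · simp
      · exact (dens_bdd φ t).trans hφ1
    set φ' := Lam g mg 1 hg1 with hφ'
    have hn : ‖φ'‖ ≤ 1 := Lam_norm _ _ _ _
    have hpm : lm U φ' = 1 := by
      refine lm_eq hU mg hg1 rfl ?_
      refine tendsto_const_nhds.congr' ?_
      filter_upwards [hAU] with t ht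
      simp [hg, ht]
    have hwφ : w φ' = w φ := by
      apply hw
      have h1 : dens φ' =ᵐ[μ] g :=
        dens_unique (dens_meas φ') mg (dens_bdd φ') hg1 (by rw [Lam_dens])
      filter_upwards [h1] with t ht htA
      rw [ht]
      have : t ∉ A := fun h => htA h.1
      simp [hg, this]
    -- the difference
    set k : ℝ → ℝ := fun t => if t ∈ A then 1 - dens φ t else 0 with hk
    have mk : Measurable k := Measurable.ite mA (measurable_const.sub (dens_meas φ)) measurable_const
    have hk1 : ∀ t, |k t| ≤ 1 - c + η := fun t => by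
      simp only [hk]
      split_ifs with h
      · have h0 : |dens φ t - c| ≤ η := h.2
        have h1 := abs_le.mp h0
        have h2 := (le_abs_self _).trans ((dens_bdd φ t).trans hφ1)
        rw [abs_of_nonneg (by linarith)]
        linarith [h1.1]
      · rw [abs_zero]; linarith
    have hdiff : φ' - φ = Lam k mk _ hk1 := by
      ext f
      rw [sub_apply, hφ', Lam_apply, Lam_apply]
      conv_lhs => rw [← Lam_dens φ]
      rw [Lam_apply, ← integral_sub (int_mul mg hg1 f) (int_mul (dens_meas φ) (dens_bdd φ) f)]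
      refine integral_congr_ae (Eventually.of_forall fun t => ?_)
      simp only [hg, hk]
      split_ifs <;> ring
    have hzd : z φ - ‖z‖ * (1 - c + η) ≤ z φ' := by
      have h1 : |z (φ' - φ)| ≤ ‖z‖ * (1 - c + η) := by
        rw [← Real.norm_eq_abs]
        refine (z.le_opNorm _).trans ?_
        rw [hdiff]
        exact mul_le_mul_of_nonneg_left (Lam_norm _ _ _ _) (norm_nonneg _)
      rw [map_sub] at h1
      have := (abs_le.mp h1).1
      linarith
    have hval : ((α + s) • pm U hU + w + z) φ' ≤ ‖(α + s) • pm U hU + w + z‖ := by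
      refine (le_abs_self _).trans ?_
      rw [← Real.norm_eq_abs]
      refine (ContinuousLinearMap.le_opNorm _ _).trans ?_
      exact mul_le_of_le_one_right (norm_nonneg _) hn
    have e1 : ((α + s) • pm U hU + w + z) φ' = (α + s) * 1 + w φ + z φ' := by
      rw [add_apply, add_apply,
        smul_apply, smul_eq_mul, pm_apply, hpm, hwφ]
    have e2 : (α • pm U hU + w + z) φ = α * c + w φ + z φ := by
      rw [add_apply, add_apply,
        smul_apply, smul_eq_mul, pm_apply]
    rw [e1] at hval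
    rw [e2] at hφ2
    have h3 : 0 ≤ (α - ‖z‖) * (1 - c) := mul_nonneg (by linarith) (by linarith)
    nlinarith
  have hlim : Tendsto (fun η : ℝ => ‖α • pm U hU + w + z‖ + s - (1 + ‖z‖) * η) (𝓝[>] 0)
      (𝓝 (‖α • pm U hU + w + z‖ + s - (1 + ‖z‖) * 0)) := by
    apply Tendsto.mono_left _ nhdsWithin_le_nhds
    exact (continuous_const.sub (continuous_const.mul continuous_id)).tendsto 0
  rw [mul_zero, sub_zero] at hlim
  exact le_of_tendsto hlim (by filter_upwards [self_mem_nhdsWithin] with η hη using key η hη)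

end Pool.Agent.X197.PropS
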