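import Mathlib
import Pool.Agent.X197.PropS2

namespace Pool.Agent.X197.PropS

open MeasureTheory Set Filter Topology ENNReal

set_option maxSynthPendingDepth 3

lemma exists_ultra {A : Set ℝ} (hA : MeasurableSet A) (hpos : μ A ≠ 0) :
    ∃ U : Ultrafilter ℝ, (U : Filter ℝ) ≤ ae μ ∧ A ∈ U := by
  have hne : (ae (μ.restrict A)).NeBot := by
    rw [ae_neBot]
    intro h
    rw [Measure.restrict_eq_zero] at h
    exact hpos h
  refine ⟨Ultrafilter.of (ae (μ.restrict A)), ?_, ?_⟩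
  · exact (Ultrafilter.of_le _).trans (ae_mono Measure.restrict_le_self)
  · exact (Ultrafilter.of_le _) (ae_restrict_mem hA)

lemma w_ok {U : Ultrafilter ℝ} (hU : (U : Filter ℝ) ≤ ae μ) {A0 : Set ℝ} (hA : A0ᶜ ∈ U) (b : ℝ)
    (φ φ' : X1 →L[ℝ] ℝ) (h : ∀ᵐ t ∂μ, t ∉ A0 → dens φ' t = dens φ t) :
    (b • pm U hU) φ' = (b • pm U hU) φ := by
  rw [smul_apply, smul_apply, pm_apply, pm_apply]
  congr 1
  have h1 : dens φ' =ᶠ[U] dens φ := by
    filter_upwards [hU h, hA] with t h1 h2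
    exact h1 h2
  exact tendsto_nhds_unique ((lm_spec U φ').congr' h1) (lm_spec U φ)

lemma pm_norm_eq {U : Ultrafilter ℝ} (hU : (U : Filter ℝ) ≤ ae μ) : ‖pm U hU‖ = 1 := by
  apply le_antisymm (pm_norm U hU)
  have h := atom_lemma hU (A0 := univ) MeasurableSet.univ univ_mem 0 0 (fun _ _ _ => by simp)
    (α := 0) (s := 1) (by simp)
  simpa using h

theorem not_uniformS_bid : ¬ UniformS Bid := by
  intro hS
  obtain ⟨c, hc, hall⟩ := hS 1 (1 / 4) one_pos one_lt_two (by norm_num)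
  have m1 : μ (Iic (1 / 2 : ℝ)) ≠ 0 := by
    unfold μ
    rw [Measure.restrict_apply measurableSet_Iic]
    have : Iic (1 / 2 : ℝ) ∩ Ioc 0 1 = Ioc 0 (1 / 2) := by
      ext t; simp only [mem_inter_iff, mem_Iic, mem_Ioc]
      constructor
      · rintro ⟨h1, h2, h3⟩; exact ⟨h2, h1⟩
      · rintro ⟨h1, h2⟩; exact ⟨h2, h1, by linarith⟩
    rw [this, Real.volume_Ioc]
    simp
  have m2 : μ (Ioi (1 / 2 : ℝ)) ≠ 0 := by
    unfold μ
    rw [Measure.restrict_apply measurableSet_Ioi]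
    have : Ioi (1 / 2 : ℝ) ∩ Ioc 0 1 = Ioc (1 / 2) 1 := by
      ext t; simp only [mem_inter_iff, mem_Ioi, mem_Ioc]
      constructor
      · rintro ⟨h1, h2, h3⟩; exact ⟨h1, h3⟩
      · rintro ⟨h1, h2⟩; exact ⟨h1, by linarith, h2⟩
    rw [this, Real.volume_Ioc]
    norm_num
  obtain ⟨U1, hU1, hA1⟩ := exists_ultra measurableSet_Iic m1
  obtain ⟨U2, hU2, hA2⟩ := exists_ultra measurableSet_Ioi m2
  set e1 := pm U1 hU1 with he1
  set e2 := pm U2 hU2 with he2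
  have n1 : ‖e1‖ = 1 := pm_norm_eq hU1
  have n2 : ‖e2‖ = 1 := pm_norm_eq hU2
  have c1 : (Iic (1 / 2 : ℝ))ᶜ ∈ U2 := by rw [compl_Iic]; exact hA2
  have c2 : (Ioi (1 / 2 : ℝ))ᶜ ∈ U1 := by rw [compl_Ioi]; exact hA1
  have hnorm : ∀ a b : ℝ, 0 ≤ a → ‖a • e1 + b • e2‖ = a + |b| := by
    intro a b ha
    apply le_antisymm
    · refine (norm_add_le _ _).trans ?_
      rw [norm_smul, norm_smul, n1, n2, Real.norm_eq_abs, Real.norm_eq_abs, abs_of_nonneg ha]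
      simp
    · have h := atom_lemma hU1 measurableSet_Iic hA1 (b • e2) 0 (w_ok hU2 c1 b)
        (α := 0) (s := a) (by simp)
      simp only [zero_smul, zero_add, add_zero] at h
      rw [norm_smul, n2, Real.norm_eq_abs, mul_one] at h
      linarith
  set x : Bid := (3 / 4 : ℝ) • e1 + (1 / 4 : ℝ) • e2 with hx
  set y : Bid := (1 / 4 : ℝ) • e1 + (3 / 4 : ℝ) • e2 with hy
  have hx1 : ‖x‖ = 1 := by rw [hx, hnorm _ _ (by norm_num), abs_of_nonneg (by norm_num)]; norm_num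
  have hy1 : ‖y‖ = 1 := by rw [hy, hnorm _ _ (by norm_num), abs_of_nonneg (by norm_num)]; norm_num
  have hxy : (1 : ℝ) ≤ ‖x - y‖ := by
    have e : x - y = (1 / 2 : ℝ) • e1 + (-(1 / 2) : ℝ) • e2 := by rw [hx, hy]; module
    rw [e, hnorm _ _ (by norm_num), abs_neg, abs_of_nonneg (by norm_num)]; norm_num
  have hle := hall x y hx1 hy1 hxy
  have hup : ∀ (u v z : Bid) (s : ℝ), 0 ≤ s → ‖v‖ = 1 → ‖u + s • v + z‖ ≤ ‖u + z‖ + s := by
    intro u v z s hs hv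
    have e : u + s • v + z = (u + z) + s • v := by module
    rw [e]
    refine (norm_add_le _ _).trans ?_
    rw [norm_smul, hv, Real.norm_eq_abs, abs_of_nonneg hs, mul_one]
  have hzero : Pool.Agent.X197.PropS.U2 x y (1 / 4) ≤ 0 := by
    unfold Pool.Agent.X197.PropS.U2
    apply Real.iSup_le _ le_rfl
    rintro ⟨z, hz⟩
    simp only
    have k1 := atom_lemma hU1 measurableSet_Iic hA1 ((1 / 4 : ℝ) • e2) z (w_ok hU2 c1 _)
      (α := 1 / 4) (s := 1 / 2) hz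
    have k2 := atom_lemma hU2 measurableSet_Ioi hA2 ((1 / 4 : ℝ) • e1) z (w_ok hU1 c2 _)
      (α := 1 / 4) (s := 1 / 2) hz
    rw [← he1] at k1
    rw [← he2] at k2
    have f1 : (1 / 4 + 1 / 2 : ℝ) • e1 + (1 / 4 : ℝ) • e2 + z = x + z := by rw [hx]; module
    have f2 : (1 / 4 + 1 / 2 : ℝ) • e2 + (1 / 4 : ℝ) • e1 + z = y + z := by rw [hy]; module
    have f3 : (1 / 4 : ℝ) • e2 + (1 / 4 : ℝ) • e1 + z = (1 / 4 : ℝ) • e1 + (1 / 4 : ℝ) • e2 + z := by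
      module
    rw [f1] at k1
    rw [f2, f3] at k2
    have g1 := hup ((1 / 4 : ℝ) • e1 + (1 / 4 : ℝ) • e2) e1 z (1 / 2) (by norm_num) n1
    have g2 := hup ((1 / 4 : ℝ) • e1 + (1 / 4 : ℝ) • e2) e2 z (1 / 2) (by norm_num) n2
    have f4 : (1 / 4 : ℝ) • e1 + (1 / 4 : ℝ) • e2 + (1 / 2 : ℝ) • e1 + z = x + z := by
      rw [hx]; module
    have f5 : (1 / 4 : ℝ) • e1 + (1 / 4 : ℝ) • e2 + (1 / 2 : ℝ) • e2 + z = y + z := by
      rw [hy]; module
    rw [f4] at g1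
    rw [f5] at g2
    have : ‖x + z‖ = ‖y + z‖ := by linarith
    rw [this, sub_self, abs_zero]
  linarith

end Pool.Agent.X197.PropS
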