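import Mathlib

/-!
# Metrics tuned by a subset of the square

Let `T` be a compact metric space and `Z ⊆ T × T` a nonempty set whose `1/K`-neighbourhood is
`2/K`-far from the diagonal. There is a compatible metric `d ≤ 2` on `T` with `d = 2` on `Z` such
that all pairs with `d > 1` are `1/K`-close to `Z` or to its mirror image.
-/

open Set Topology Metric

namespace Pool.Agent.X197.TunedMetric

variable {T : Type} [MetricSpace T]

/-- the distance to `Z` or its mirror image -/
noncomputable def δ (Z : Set (T × T)) (x y : T) : ℝ := min (infDist (x, y) Z) (infDist (y, x) Z)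

theorem δ_comm (Z : Set (T × T)) (x y : T) : δ Z x y = δ Z y x := min_comm _ _

theorem δ_lip (Z : Set (T × T)) (x y z : T) : δ Z x z ≤ δ Z y z + dist x y := by
  unfold δ
  have h1 : infDist (x, z) Z ≤ infDist (y, z) Z + dist x y := by
    have := infDist_le_infDist_add_dist (s := Z) (x := (x, z)) (y := (y, z))
    simpa [Prod.dist_eq] using this
  have h2 : infDist (z, x) Z ≤ infDist (z, y) Z + dist x y := by
    have := infDist_le_infDist_add_dist (s := Z) (x := (z, x)) (y := (z, y))
    simpa [Prod.dist_eq] using this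
  rcases min_cases (infDist (y, z) Z) (infDist (z, y) Z) with ⟨h, -⟩ | ⟨h, -⟩
  · rw [h]; exact (min_le_left _ _).trans h1
  · rw [h]; exact (min_le_right _ _).trans h2

theorem δ_nonneg (Z : Set (T × T)) (x y : T) : 0 ≤ δ Z x y := le_min infDist_nonneg infDist_nonneg

/-- the bump -/
noncomputable def φ (Z : Set (T × T)) (K : ℝ) (x y : T) : ℝ := max 0 (1 - K * δ Z x y)

theorem φ_nonneg (Z : Set (T × T)) (K : ℝ) (x y : T) : 0 ≤ φ Z K x y := le_max_left _ _

theorem φ_le (Z : Set (T × T)) {K : ℝ} (hK : 0 < K) (x y : T) : φ Z K x y ≤ 1 :=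
  max_le zero_le_one (by nlinarith [δ_nonneg Z x y])

theorem φ_comm (Z : Set (T × T)) (K : ℝ) (x y : T) : φ Z K x y = φ Z K y x := by
  unfold φ; rw [δ_comm]

theorem φ_lip (Z : Set (T × T)) {K : ℝ} (hK : 0 < K) (x y z : T) :
    φ Z K x z ≤ φ Z K y z + K * dist x y := by
  unfold φ
  have h := δ_lip Z y x z
  rw [dist_comm] at h
  apply max_le
  · have := le_max_left 0 (1 - K * δ Z y z)
    have := dist_nonneg (x := x) (y := y)
    nlinarith
  · have := le_max_right 0 (1 - K * δ Z y z)
    nlinarith

theorem φ_pos (Z : Set (T × T)) {K : ℝ} (hK : 0 < K) {x y : T} (h : 0 < φ Z K x y) :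
    δ Z x y < 1 / K := by
  unfold φ at h
  by_contra hcon
  push Not at hcon
  rw [div_le_iff₀ hK] at hcon
  rw [max_eq_left (by linarith)] at h
  exact lt_irrefl _ h

/-- the metric -/
noncomputable def d (Z : Set (T × T)) (K : ℝ) (x y : T) : ℝ := min (K * dist x y) 1 + φ Z K x y

/-- the assumption that the `1/K`-neighbourhood of `Z` is `2/K`-far from the diagonal -/
def Far (Z : Set (T × T)) (K : ℝ) : Prop := ∀ x y : T, infDist (x, y) Z < 1 / K → 2 / K < dist x y

variable {Z : Set (T × T)} {K : ℝ}

theorem far_of_δ (hF : Far Z K) {x y : T} (h : δ Z x y < 1 / K) : 2 / K < dist x y := by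
  unfold δ at h
  rcases min_lt_iff.1 h with h | h
  · exact hF _ _ h
  · rw [dist_comm]; exact hF _ _ h

theorem φ_eq_zero (hK : 0 < K) (hF : Far Z K) {x y : T} (h : dist x y ≤ 2 / K) : φ Z K x y = 0 := by
  by_contra hcon
  have h0 := lt_of_le_of_ne (φ_nonneg Z K x y) (Ne.symm hcon)
  exact absurd (far_of_δ hF (φ_pos Z hK h0)) (not_lt.2 h)

theorem d_self (hK : 0 < K) (hF : Far Z K) (x : T) : d Z K x x = 0 := by
  unfold d
  rw [dist_self, φ_eq_zero hK hF (by rw [dist_self]; positivity)]
  norm_num

theorem d_comm (x y : T) : d Z K x y = d Z K y x := by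
  unfold d
  rw [dist_comm, φ_comm]

theorem d_le (hK : 0 < K) (x y : T) : d Z K x y ≤ 2 := by
  unfold d
  have := min_le_right (K * dist x y) 1
  have := φ_le Z hK x y
  linarith

theorem triangle_aux (hK : 0 < K) (hF : Far Z K) {x y : T} (z : T) (hxy : K * dist x y ≤ 1) :
    d Z K x z ≤ d Z K x y + d Z K y z := by
  have hd1 : K * dist x y ≤ d Z K x y := by
    unfold d
    rw [min_eq_left hxy]
    have := φ_nonneg Z K x y
    linarith
  by_cases h0 : φ Z K x z = 0
  · have h1 : dist x z ≤ dist x y + dist y z := dist_triangle x y z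
    unfold d at *
    rw [h0]
    have := φ_nonneg Z K y z
    have h3 : min (K * dist x z) 1 ≤ K * dist x y + min (K * dist y z) 1 := by
      rcases min_cases (K * dist y z) 1 with ⟨h, -⟩ | ⟨h, -⟩
      · rw [h]; exact (min_le_left _ _).trans (by nlinarith)
      · rw [h]
        have := dist_nonneg (x := x) (y := y)
        exact (min_le_right _ _).trans (by nlinarith)
    linarith
  · have hpos := lt_of_le_of_ne (φ_nonneg Z K x z) (Ne.symm h0)
    have hfar := far_of_δ hF (φ_pos Z hK hpos)
    have h1 : dist x z ≤ dist x y + dist y z := dist_triangle x y z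
    rw [div_lt_iff₀ hK] at hfar
    have h2 : 1 ≤ K * dist y z := by nlinarith
    have h3 : d Z K y z = 1 + φ Z K y z := by unfold d; rw [min_eq_right h2]
    have h4 : d Z K x z ≤ 1 + φ Z K x z := by
      unfold d
      have := min_le_right (K * dist x z) 1
      linarith
    have := φ_lip Z hK x y z
    linarith

theorem d_triangle (hK : 0 < K) (hF : Far Z K) (x y z : T) :
    d Z K x z ≤ d Z K x y + d Z K y z := by
  by_cases h1 : K * dist x y ≤ 1
  · exact triangle_aux hK hF z h1
  · by_cases h2 : K * dist y z ≤ 1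
    · have := triangle_aux hK hF (x := z) (y := y) x (by rwa [dist_comm])
      rw [d_comm z x, d_comm z y, d_comm y x] at this
      linarith
    · push Not at h1 h2
      have e1 : 1 ≤ d Z K x y := by
        unfold d; rw [min_eq_right h1.le]; linarith [φ_nonneg Z K x y]
      have e2 : 1 ≤ d Z K y z := by
        unfold d; rw [min_eq_right h2.le]; linarith [φ_nonneg Z K y z]
      linarith [d_le (Z := Z) hK x z]

theorem eq_of_d_eq_zero (hK : 0 < K) {x y : T} (h : d Z K x y = 0) : x = y := by
  unfold d at h
  have h1 := φ_nonneg Z K x y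
  have h2 : 0 ≤ min (K * dist x y) 1 :=
    le_min (by have := dist_nonneg (x := x) (y := y); positivity) zero_le_one
  have h3 : min (K * dist x y) 1 = 0 := le_antisymm (by linarith) h2
  have h4 : dist x y = 0 := by
    rcases min_cases (K * dist x y) 1 with ⟨h, -⟩ | ⟨h, -⟩
    · rw [h] at h3
      exact (mul_eq_zero.1 h3).resolve_left hK.ne'
    · rw [h] at h3; norm_num at h3
  exact eq_of_dist_eq_zero h4

/-- a copy of `T` -/
def Copy (T : Type) : Type := T

/-- the tuned metric space -/
noncomputable abbrev metric (hK : 0 < K) (hF : Far Z K) : MetricSpace (Copy T) where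
  dist (x : T) (y : T) := d Z K x y
  dist_self x := d_self (T := T) hK hF x
  dist_comm x y := d_comm (T := T) x y
  dist_triangle x y z := d_triangle (T := T) hK hF x y z
  eq_of_dist_eq_zero h := eq_of_d_eq_zero (T := T) hK h

/-- **Tuned metrics.** -/
theorem exists_tuned [CompactSpace T] (hK : 0 < K) (hF : Far Z K) :
    ∃ (T' : Type) (_ : MetricSpace T') (e : T ≃ₜ T'),
      (∀ x y : T, dist (e x) (e y) ≤ 2) ∧
      (∀ p ∈ Z, dist (e p.1) (e p.2) = 2) ∧
      (∀ x y : T, 1 < dist (e x) (e y) → infDist (x, y) Z < 1 / K ∨ infDist (y, x) Z < 1 / K) := by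
  letI m : MetricSpace (Copy T) := metric hK hF
  let ι : T ≃ Copy T := Equiv.refl T
  have hc : Continuous ι := by
    rw [Metric.continuous_iff]
    intro b ε hε
    refine ⟨min (ε / K) (2 / K), lt_min (by positivity) (by positivity), fun a ha => ?_⟩
    have h1 : dist a b < ε / K := ha.trans_le (min_le_left _ _)
    have h2 : dist a b < 2 / K := ha.trans_le (min_le_right _ _)
    change d Z K a b < ε
    unfold d
    rw [φ_eq_zero hK hF h2.le, add_zero]
    rw [lt_div_iff₀ hK] at h1
    exact (min_le_left _ _).trans_lt (by linarith)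
  refine ⟨Copy T, m, Continuous.homeoOfEquivCompactToT2 (f := ι) hc, ?_, ?_, ?_⟩
  · intro x y
    exact d_le hK x y
  · intro p hp
    change d Z K p.1 p.2 = 2
    have h0 : δ Z p.1 p.2 = 0 := by
      apply le_antisymm _ (δ_nonneg _ _ _)
      unfold δ
      refine (min_le_left _ _).trans ?_
      rw [infDist_zero_of_mem hp]
    have h1 := far_of_δ hF (x := p.1) (y := p.2) (by rw [h0]; positivity)
    rw [div_lt_iff₀ hK] at h1
    unfold d φ
    rw [h0, min_eq_right (by linarith)]
    norm_num
  · intro x y h
    change 1 < d Z K x y at h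
    have h2 : 0 < φ Z K x y := by
      unfold d at h
      have := min_le_right (K * dist x y) 1
      linarith
    have h3 := φ_pos Z hK h2
    unfold δ at h3
    exact min_lt_iff.1 h3

end Pool.Agent.X197.TunedMetric
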