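import Mathlib

/-!
# Complete Erdős space has no bounded closed copy of itself
-/

open Set Topology Filter Metric

namespace Pool.Agent.X197.Erdos

/-- The Hilbert space `ℓ²`. -/
abbrev L : Type := lp (fun _ : ℕ => ℝ) 2

/-- Complete Erdős space. -/
def Es : Set L := {x : L | ∀ i : ℕ, (x : ℕ → ℝ) i = 0 ∨ ∃ k : ℕ, 0 < k ∧ (x : ℕ → ℝ) i = 1 / (k : ℝ)}

theorem hasSum_sq (x : L) : HasSum (fun i => ((x : ℕ → ℝ) i) ^ 2) (‖x‖ ^ 2) := by
  have h := lp.hasSum_norm (p := 2) (by norm_num) x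
  simpa using h

theorem coe_sub (x y : L) (i : ℕ) : ((x - y : L) : ℕ → ℝ) i = (x : ℕ → ℝ) i - (y : ℕ → ℝ) i := rfl

theorem abs_apply_le (x : L) (i : ℕ) : |(x : ℕ → ℝ) i| ≤ ‖x‖ :=
  lp.norm_apply_le_norm (by norm_num) x i

theorem continuous_apply (i : ℕ) : Continuous fun x : L => (x : ℕ → ℝ) i :=
  (lp.evalCLM (𝕜 := ℝ) (E := fun _ : ℕ => ℝ) (p := 2) i).continuous

theorem Es_nonneg {x : L} (hx : x ∈ Es) (i : ℕ) : 0 ≤ (x : ℕ → ℝ) i := by
  rcases hx i with h | ⟨k, hk, h⟩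
  · rw [h]
  · rw [h]; positivity

/-- The value set `{0} ∪ {1/k}` is closed. -/
theorem isClosed_vals : IsClosed {t : ℝ | t = 0 ∨ ∃ k : ℕ, 0 < k ∧ t = 1 / (k : ℝ)} := by
  have h : Tendsto (fun k : ℕ => 1 / ((k : ℝ) + 1)) atTop (𝓝 0) := tendsto_one_div_add_atTop_nhds_zero_nat
  have h2 := h.isCompact_insert_range.isClosed
  convert h2 using 1
  ext t
  simp only [mem_setOf_eq, mem_insert_iff, mem_range]
  constructor
  · rintro (h | ⟨k, hk, h⟩)
    · exact Or.inl h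
    · refine Or.inr ⟨k - 1, ?_⟩
      rw [h, Nat.cast_sub (by omega)]
      simp
  · rintro (h | ⟨k, h⟩)
    · exact Or.inl h
    · refine Or.inr ⟨k + 1, by omega, ?_⟩
      rw [← h]
      push_cast
      rfl

theorem isClosed_Es : IsClosed Es := by
  have : Es = ⋂ i : ℕ, (fun x : L => (x : ℕ → ℝ) i) ⁻¹'
      {t : ℝ | t = 0 ∨ ∃ k : ℕ, 0 < k ∧ t = 1 / (k : ℝ)} := by
    ext x; simp [Es]
  rw [this]
  exact isClosed_iInter fun i => isClosed_vals.preimage (continuous_apply i)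

/-- Isolation of nonzero values. -/
theorem isolated {a : L} (ha : a ∈ Es) (i : ℕ) (hi : (a : ℕ → ℝ) i ≠ 0) :
    ∃ δ > 0, ∀ x ∈ Es, |(x : ℕ → ℝ) i - (a : ℕ → ℝ) i| < δ → (x : ℕ → ℝ) i = (a : ℕ → ℝ) i := by
  rcases ha i with h | ⟨k, hk, h⟩
  · exact absurd h hi
  · have hk' : (0 : ℝ) < k := by exact_mod_cast hk
    refine ⟨1 / ((k : ℝ) * (k + 1)), by positivity, fun x hx hlt => ?_⟩
    rw [h] at hlt ⊢
    rcases hx i with h0 | ⟨m, hm, h0⟩
    · exfalso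
      rw [h0, zero_sub, abs_neg, abs_of_pos (by positivity)] at hlt
      rw [div_lt_div_iff_of_pos_left one_pos hk' (by positivity)] at hlt
      nlinarith
    · have hm' : (0 : ℝ) < m := by exact_mod_cast hm
      rw [h0] at hlt ⊢
      have hmk : m = k := by
        by_contra hne
        rcases lt_or_gt_of_ne hne with hlt' | hgt
        · have h1 : (m : ℝ) + 1 ≤ k := by exact_mod_cast hlt'
          have h2 : 1 / (m : ℝ) - 1 / k < 1 / ((k : ℝ) * (k + 1)) := (abs_lt.1 hlt).2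
          have h3 : 1 / (m : ℝ) - 1 / k = (k - m) / (m * k) := by field_simp
          rw [h3, div_lt_div_iff₀ (by positivity) (by positivity)] at h2
          nlinarith [mul_pos hk' hk', mul_pos hm' hk', mul_pos (mul_pos hk' hk') hm']
        · have h1 : (k : ℝ) + 1 ≤ m := by exact_mod_cast hgt
          have h2 : 1 / (k : ℝ) - 1 / m < 1 / ((k : ℝ) * (k + 1)) := by
            have := (abs_lt.1 hlt).1
            linarith
          have h3 : 1 / (k : ℝ) - 1 / m = (m - k) / (m * k) := by field_simp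
          rw [h3, div_lt_div_iff₀ (by positivity) (by positivity)] at h2
          nlinarith [mul_pos hk' hk', mul_pos hm' hk', mul_pos (mul_pos hk' hk') hm',
            mul_nonneg (sub_nonneg.2 h1) (mul_pos hk' hk').le]
      rw [hmk]

/-- the first `N` nonzero coordinates agree with those of `a` -/
def Wn (a : L) (N : ℕ) : Set L := {x | ∀ i < N, (a : ℕ → ℝ) i ≠ 0 → (x : ℕ → ℝ) i = (a : ℕ → ℝ) i}

theorem isClosed_Wn (a : L) (N : ℕ) : IsClosed (Wn a N) := by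
  have : Wn a N = ⋂ i : ℕ, ⋂ _ : i < N, ⋂ _ : (a : ℕ → ℝ) i ≠ 0,
      {x : L | (x : ℕ → ℝ) i = (a : ℕ → ℝ) i} := by
    ext x; simp [Wn]
  rw [this]
  exact isClosed_iInter fun i => isClosed_iInter fun _ => isClosed_iInter fun _ =>
    isClosed_eq (continuous_apply i) continuous_const

/-- `Wn a N` is relatively open in `Es`. -/
theorem open_Wn {a : L} (ha : a ∈ Es) (N : ℕ) : ∃ O : Set L, IsOpen O ∧ Es ∩ O = Es ∩ Wn a N := by
  have h : ∀ i : ℕ, ∃ O : Set L, IsOpen O ∧ ∀ x ∈ Es, (x ∈ O ↔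
      ((a : ℕ → ℝ) i ≠ 0 → (x : ℕ → ℝ) i = (a : ℕ → ℝ) i)) := by
    intro i
    by_cases hi : (a : ℕ → ℝ) i = 0
    · exact ⟨univ, isOpen_univ, fun x _ => by simp [hi]⟩
    · obtain ⟨δ, hδ, hiso⟩ := isolated ha i hi
      refine ⟨{x | |(x : ℕ → ℝ) i - (a : ℕ → ℝ) i| < δ},
        isOpen_lt ((continuous_apply i).sub continuous_const).abs continuous_const, ?_⟩
      intro x hx
      constructor
      · intro h _
        exact hiso x hx h
      · intro h
        show |(x : ℕ → ℝ) i - (a : ℕ → ℝ) i| < δ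
        rw [h hi, sub_self, abs_zero]
        exact hδ
  choose O hO hOx using h
  refine ⟨⋂ i ∈ Finset.range N, O i, isOpen_biInter_finset fun i _ => hO i, ?_⟩
  ext x
  simp only [mem_inter_iff, mem_iInter, Finset.mem_range]
  constructor
  · rintro ⟨hx, h⟩
    exact ⟨hx, fun i hi => (hOx i x hx).1 (h i hi)⟩
  · rintro ⟨hx, h⟩
    exact ⟨hx, fun i hi => (hOx i x hx).2 (h i hi)⟩

/-- The basic estimate. -/
theorem dist_sq_le {a : L} (ha : a ∈ Es) (N : ℕ) {x : L} (hx : x ∈ Es) (hxW : x ∈ Wn a N) :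
    ‖x - a‖ ^ 2 ≤ ‖x‖ ^ 2 - ‖a‖ ^ 2 +
      2 * (‖a‖ ^ 2 - ∑ i ∈ Finset.range N, ((a : ℕ → ℝ) i) ^ 2) := by
  have h1 := hasSum_sq (x - a)
  have h2 := hasSum_sq x
  have h3 := hasSum_sq a
  have h4 : HasSum (fun i => if i ∈ Finset.range N then ((a : ℕ → ℝ) i) ^ 2 else 0)
      (∑ i ∈ Finset.range N, ((a : ℕ → ℝ) i) ^ 2) := by
    have h : ∑ i ∈ Finset.range N, ((a : ℕ → ℝ) i) ^ 2 =
        ∑ i ∈ Finset.range N, (if i ∈ Finset.range N then ((a : ℕ → ℝ) i) ^ 2 else 0) :=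
      Finset.sum_congr rfl fun i hi => by rw [if_pos hi]
    rw [h]
    exact hasSum_sum_of_ne_finset_zero fun i hi => by rw [if_neg hi]
  have h5 := ((h2.sub h3).add ((h3.sub h4).mul_left 2))
  refine hasSum_le (fun i => ?_) h1 h5
  rw [coe_sub]
  have hx0 := Es_nonneg hx i
  have ha0 := Es_nonneg ha i
  by_cases hi : i ∈ Finset.range N
  · simp only [hi, if_true, sub_self, mul_zero, add_zero]
    by_cases hai : (a : ℕ → ℝ) i = 0
    · rw [hai]; nlinarith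
    · rw [hxW i (Finset.mem_range.1 hi) hai]; nlinarith
  · simp only [hi, if_false, sub_zero]
    nlinarith [mul_nonneg hx0 ha0]

/-- One step of the construction: a relatively clopen set meeting `A` contains a smaller one for
which the trace on `A` has small diameter. -/
theorem step {A W : Set L} (hAE : A ⊆ Es) {R : ℝ} (hR : ∀ x ∈ A, ‖x‖ ≤ R)
    (hWc : IsClosed W) (hWo : ∃ O : Set L, IsOpen O ∧ Es ∩ O = Es ∩ W) (hne : (A ∩ W).Nonempty)
    {η : ℝ} (hη : 0 < η) :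
    ∃ W' : Set L, W' ⊆ W ∧ IsClosed W' ∧ (∃ O : Set L, IsOpen O ∧ Es ∩ O = Es ∩ W') ∧
      (A ∩ W').Nonempty ∧ ∀ x ∈ A ∩ W', ∀ y ∈ A ∩ W', dist x y ≤ η := by
  set S : Set ℝ := (fun x : L => ‖x‖ ^ 2) '' (A ∩ W) with hS
  have hbdd : BddAbove S := by
    refine ⟨R ^ 2, ?_⟩
    rintro _ ⟨x, hx, rfl⟩
    have h1 := hR x hx.1
    have h2 := norm_nonneg x
    show ‖x‖ ^ 2 ≤ R ^ 2
    nlinarith
  have hSne : S.Nonempty := hne.image _
  set κ : ℝ := η ^ 2 / 12 with hκ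
  have hκ0 : 0 < κ := by positivity
  obtain ⟨_, ⟨a, haAW, rfl⟩, ha⟩ := exists_lt_of_lt_csSup hSne (show sSup S - κ < sSup S by linarith)
  have haE : a ∈ Es := hAE haAW.1
  have hlim := (hasSum_sq a).tendsto_sum_nat
  obtain ⟨N, hN⟩ := (hlim.eventually (lt_mem_nhds (show ‖a‖ ^ 2 - κ < ‖a‖ ^ 2 by linarith))).exists
  obtain ⟨O₁, hO₁, hO₁W⟩ := hWo
  obtain ⟨O₂, hO₂, hO₂W⟩ := open_Wn haE N
  refine ⟨W ∩ Wn a N, inter_subset_left, hWc.inter (isClosed_Wn a N),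
    ⟨O₁ ∩ O₂, hO₁.inter hO₂, ?_⟩, ⟨a, haAW.1, haAW.2, fun i _ _ => rfl⟩, ?_⟩
  · rw [inter_inter_distrib_left, hO₁W, hO₂W, ← inter_inter_distrib_left]
  · have key : ∀ x ∈ A ∩ (W ∩ Wn a N), ‖x - a‖ ≤ η / 2 := by
      rintro x ⟨hxA, hxW, hxN⟩
      have h1 := dist_sq_le haE N (hAE hxA) hxN
      have h2 : ‖x‖ ^ 2 ≤ sSup S := le_csSup hbdd ⟨x, ⟨hxA, hxW⟩, rfl⟩
      have h3 : ‖x - a‖ ^ 2 ≤ (η / 2) ^ 2 := by
        simp only at ha
        have : (η / 2) ^ 2 = 3 * κ := by rw [hκ]; ring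
        rw [this]
        linarith
      exact abs_le_of_sq_le_sq' h3 (by positivity) |>.2
    intro x hx y hy
    rw [dist_eq_norm]
    have : x - y = (x - a) - (y - a) := by abel
    rw [this]
    refine (norm_sub_le _ _).trans ?_
    have := key x hx
    have := key y hy
    linarith

/-- A nonempty closed bounded subset of complete Erdős space has a point with arbitrarily small
relatively clopen neighbourhoods. -/
theorem exists_zero_dim_point {A : Set L} (hAE : A ⊆ Es) (hA : IsClosed A) (hne : A.Nonempty)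
    {R : ℝ} (hR : ∀ x ∈ A, ‖x‖ ≤ R) : ∃ a ∈ A, ∀ ε > 0, ∃ W : Set L, IsClosed W ∧
      (∃ O : Set L, IsOpen O ∧ Es ∩ O = Es ∩ W) ∧ a ∈ W ∧ ∀ x ∈ A ∩ W, dist x a < ε := by
  classical
  let St : Type := {W : Set L // IsClosed W ∧ (∃ O : Set L, IsOpen O ∧ Es ∩ O = Es ∩ W) ∧
    (A ∩ W).Nonempty}
  have hstep : ∀ (W : St) (n : ℕ), ∃ W' : St, W'.1 ⊆ W.1 ∧
      ∀ x ∈ A ∩ W'.1, ∀ y ∈ A ∩ W'.1, dist x y ≤ 1 / ((n : ℝ) + 1) := by
    rintro ⟨W, h1, h2, h3⟩ n
    obtain ⟨W', h4, h5, h6, h7, h8⟩ := step hAE hR h1 h2 h3 (η := 1 / ((n : ℝ) + 1)) (by positivity)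
    exact ⟨⟨W', h5, h6, h7⟩, h4, h8⟩
  choose F hF1 hF2 using hstep
  let W0 : St := ⟨univ, isClosed_univ, ⟨univ, isOpen_univ, rfl⟩, by simpa using hne⟩
  let seq : ℕ → St := fun n => Nat.rec W0 (fun k W => F W k) n
  have hseq : ∀ n, seq (n + 1) = F (seq n) n := fun n => rfl
  have hanti : Antitone fun n => (seq n).1 := antitone_nat_of_succ_le fun n => by
    rw [hseq]; exact hF1 _ _
  have hdiam : ∀ n, ∀ x ∈ A ∩ (seq (n + 1)).1, ∀ y ∈ A ∩ (seq (n + 1)).1,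
      dist x y ≤ 1 / ((n : ℝ) + 1) := fun n => by rw [hseq]; exact hF2 _ _
  let s : ℕ → Set L := fun n => A ∩ (seq n).1
  have hbd : ∀ n, Bornology.IsBounded (s n) := fun n =>
    (isBounded_iff_forall_norm_le.2 ⟨R, hR⟩).subset inter_subset_left
  obtain ⟨a, ha⟩ : (⋂ n, s n).Nonempty := by
    apply Metric.nonempty_iInter_of_nonempty_biInter
    · exact fun n => hA.inter (seq n).2.1
    · exact hbd
    · intro N
      obtain ⟨x, hx⟩ := (seq N).2.2.2
      refine ⟨x, ?_⟩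
      simp only [mem_iInter]
      exact fun n hn => ⟨hx.1, hanti hn hx.2⟩
    · have h1 : Tendsto (fun n : ℕ => diam (s (n + 1))) atTop (𝓝 0) := by
        refine squeeze_zero (fun n => diam_nonneg) (fun n => ?_)
          (tendsto_one_div_add_atTop_nhds_zero_nat (𝕜 := ℝ))
        exact diam_le_of_forall_dist_le (by positivity) (hdiam n)
      exact (tendsto_add_atTop_iff_nat 1).1 h1
  rw [mem_iInter] at ha
  refine ⟨a, (ha 0).1, fun ε hε => ?_⟩
  obtain ⟨n, hn⟩ := exists_nat_one_div_lt hε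
  exact ⟨(seq (n + 1)).1, (seq (n + 1)).2.1, (seq (n + 1)).2.2.1, (ha (n + 1)).2,
    fun x hx => (hdiam n x hx a (ha (n + 1))).trans_lt hn⟩

/-- change the `i`-th coordinate to `v` -/
noncomputable def upd (x : L) (i : ℕ) (v : ℝ) : L := x + lp.single 2 i (v - (x : ℕ → ℝ) i)

theorem upd_apply (x : L) (i : ℕ) (v : ℝ) (j : ℕ) :
    (upd x i v : ℕ → ℝ) j = if j = i then v else (x : ℕ → ℝ) j := by
  unfold upd
  rw [lp.coeFn_add]
  show (x : ℕ → ℝ) j + (lp.single 2 i (v - (x : ℕ → ℝ) i) : L) j = _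
  by_cases h : j = i
  · subst h
    rw [lp.single_apply_self]
    simp
  · rw [lp.single_apply_ne _ _ _ h]
    simp [h]

theorem norm_upd_sub (x : L) (i : ℕ) (v : ℝ) : ‖upd x i v - x‖ = |v - (x : ℕ → ℝ) i| := by
  unfold upd
  rw [add_sub_cancel_left, lp.norm_single (by norm_num), Real.norm_eq_abs]

theorem upd_mem {x : L} (hx : x ∈ Es) (i : ℕ) {m : ℕ} (hm : 0 < m) : upd x i (1 / (m : ℝ)) ∈ Es := by
  intro j
  rw [upd_apply]
  by_cases h : j = i
  · rw [if_pos h]; exact Or.inr ⟨m, hm, rfl⟩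
  · rw [if_neg h]; exact hx j

theorem exit_step {C : Set L} (hCE : C ⊆ Es) {R : ℝ} (hR : ∀ x ∈ C, ‖x‖ ≤ R) {e : L}
    (he : e ∈ Es) {x : L} (hx : x ∈ C) {n : ℕ} (hxe : ∀ i ≥ n, (x : ℕ → ℝ) i = (e : ℕ → ℝ) i)
    {m : ℕ} (hm : 0 < m) : ∃ x' ∈ C, ∃ n', n < n' ∧ (∀ i < n, (x' : ℕ → ℝ) i = (x : ℕ → ℝ) i) ∧
      (∀ i ≥ n', (x' : ℕ → ℝ) i = (e : ℕ → ℝ) i) ∧ ∃ y ∈ Es, y ∉ C ∧ dist y x' ≤ 1 / (m : ℝ) := by
  have hm' : (0 : ℝ) < m := by exact_mod_cast hm
  -- far coordinates of `e` are small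
  obtain ⟨n₁, hn₁n, hn₁⟩ : ∃ n₁ ≥ n, ∀ i ≥ n₁, (e : ℕ → ℝ) i ≤ 1 / (m : ℝ) := by
    have h1 := (hasSum_sq e).summable.tendsto_atTop_zero
    have h2 : (0 : ℝ) < (1 / (m : ℝ)) ^ 2 := by positivity
    obtain ⟨N, hN⟩ := eventually_atTop.1 (h1.eventually (gt_mem_nhds h2))
    refine ⟨max n N, le_max_left _ _, fun i hi => ?_⟩
    have h3 := hN i ((le_max_right _ _).trans hi)
    exact (abs_lt_of_sq_lt_sq' h3 (by positivity)).2.le
  let z : ℕ → L := fun j => Nat.rec x (fun j w => upd w (n₁ + j) (1 / (m : ℝ))) j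
  have hz0 : z 0 = x := rfl
  have hzs : ∀ j, z (j + 1) = upd (z j) (n₁ + j) (1 / (m : ℝ)) := fun j => rfl
  have hzE : ∀ j, z j ∈ Es := by
    intro j
    induction j with
    | zero => exact hCE hx
    | succ j ih => rw [hzs]; exact upd_mem ih _ hm
  have hzv : ∀ j i, (z j : ℕ → ℝ) i = if n₁ ≤ i ∧ i < n₁ + j then 1 / (m : ℝ) else (x : ℕ → ℝ) i := by
    intro j
    induction j with
    | zero => intro i; rw [if_neg (by omega), hz0]
    | succ j ih =>
      intro i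
      rw [hzs, upd_apply]
      by_cases h : i = n₁ + j
      · rw [if_pos h, if_pos (by omega)]
      · rw [if_neg h, ih]
        by_cases h2 : n₁ ≤ i ∧ i < n₁ + j
        · rw [if_pos h2, if_pos (by omega)]
        · rw [if_neg h2, if_neg (by omega)]
  have hlow : ∀ j : ℕ, (j : ℝ) * (1 / (m : ℝ)) ^ 2 ≤ ‖z j‖ ^ 2 := by
    intro j
    have h1 := sum_le_hasSum (Finset.Ico n₁ (n₁ + j)) (fun i _ => sq_nonneg _) (hasSum_sq (z j))
    have h2 : ∑ i ∈ Finset.Ico n₁ (n₁ + j), ((z j : ℕ → ℝ) i) ^ 2 = (j : ℝ) * (1 / (m : ℝ)) ^ 2 := by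
      rw [Finset.sum_congr rfl (g := fun _ => (1 / (m : ℝ)) ^ 2)]
      · simp
      · intro i hi
        rw [Finset.mem_Ico] at hi
        rw [hzv, if_pos hi]
    rwa [h2] at h1
  obtain ⟨j, hj1, hj2⟩ : ∃ j, z j ∈ C ∧ z (j + 1) ∉ C := by
    by_contra hcon
    push Not at hcon
    have hall : ∀ j, z j ∈ C := by
      intro j
      induction j with
      | zero => exact hx
      | succ j ih => exact hcon j ih
    obtain ⟨J, hJ⟩ := exists_nat_gt (R ^ 2 * (m : ℝ) ^ 2)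
    have h1 := hlow J
    have h2 := hR _ (hall J)
    have h3 := norm_nonneg (z J)
    have h4 : ‖z J‖ ^ 2 ≤ R ^ 2 := by nlinarith
    have h5 : (J : ℝ) * (1 / (m : ℝ)) ^ 2 = J / (m : ℝ) ^ 2 := by field_simp
    rw [h5] at h1
    have h6 : (J : ℝ) ≤ R ^ 2 * (m : ℝ) ^ 2 := by
      rw [← div_le_iff₀ (by positivity)]
      linarith
    linarith
  refine ⟨z j, hj1, n₁ + j + 1, by omega, fun i hi => ?_, fun i hi => ?_,
    z (j + 1), hzE (j + 1), hj2, ?_⟩
  · rw [hzv, if_neg (by omega)]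
  · rw [hzv, if_neg (by omega)]
    exact hxe i (by omega)
  · rw [dist_eq_norm, hzs, norm_upd_sub, hzv, if_neg (by omega), hxe _ (by omega), abs_le]
    have h1 := hn₁ (n₁ + j) (by omega)
    have h2 := Es_nonneg he (n₁ + j)
    have h3 : (0 : ℝ) < 1 / (m : ℝ) := by positivity
    constructor <;> linarith

/-- A nonempty relatively clopen subset of complete Erdős space is unbounded. -/
theorem no_bounded_clopen {C : Set L} (hCE : C ⊆ Es) (hCc : IsClosed C)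
    (hCo : ∃ O : Set L, IsOpen O ∧ Es ∩ O = C) (hne : C.Nonempty) {R : ℝ}
    (hR : ∀ x ∈ C, ‖x‖ ≤ R) : False := by
  obtain ⟨e, heC⟩ := hne
  have he : e ∈ Es := hCE heC
  let St : Type := {p : L × ℕ // p.1 ∈ C ∧ ∀ i ≥ p.2, (p.1 : ℕ → ℝ) i = (e : ℕ → ℝ) i}
  have hstep : ∀ (p : St) (k : ℕ), ∃ q : St, p.1.2 < q.1.2 ∧
      (∀ i < p.1.2, (q.1.1 : ℕ → ℝ) i = (p.1.1 : ℕ → ℝ) i) ∧
      ∃ y ∈ Es, y ∉ C ∧ dist y q.1.1 ≤ 1 / ((k : ℝ) + 1) := by
    rintro ⟨⟨x, n⟩, hxC, hxe⟩ k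
    obtain ⟨x', hx', n', hn', h1, h2, y, hy, hyC, hd⟩ :=
      exit_step hCE hR he hxC hxe (m := k + 1) (Nat.succ_pos k)
    exact ⟨⟨⟨x', n'⟩, hx', h2⟩, hn', h1, y, hy, hyC, by push_cast at hd; exact hd⟩
  choose F hF1 hF2 Y hYE hYC hYd using hstep
  let seq : ℕ → St := fun n => Nat.rec ⟨(e, 0), heC, fun _ _ => rfl⟩ (fun k p => F p k) n
  have hseq : ∀ k, seq (k + 1) = F (seq k) k := fun k => rfl
  let x : ℕ → L := fun k => (seq k).1.1
  let N : ℕ → ℕ := fun k => (seq k).1.2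
  have hxC : ∀ k, x k ∈ C := fun k => (seq k).2.1
  have hxe : ∀ k, ∀ i ≥ N k, (x k : ℕ → ℝ) i = (e : ℕ → ℝ) i := fun k => (seq k).2.2
  have hN : ∀ k, N k < N (k + 1) := fun k => hF1 (seq k) k
  have hNmono : StrictMono N := strictMono_nat_of_lt_succ hN
  have hstab1 : ∀ k, ∀ i < N k, (x (k + 1) : ℕ → ℝ) i = (x k : ℕ → ℝ) i := fun k => hF2 (seq k) k
  have hstab : ∀ k l, k ≤ l → ∀ i < N k, (x l : ℕ → ℝ) i = (x k : ℕ → ℝ) i := by
    intro k l hkl
    induction l, hkl using Nat.le_induction with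
    | base => intro i _; rfl
    | succ l hkl ih =>
      intro i hi
      rw [hstab1 l i (hi.trans_le (hNmono.monotone hkl)), ih i hi]
  have hNge : ∀ k, k ≤ N k := fun k => hNmono.id_le k
  -- the limit point
  let f : ℕ → ℝ := fun i => (x (i + 1) : ℕ → ℝ) i
  have hf : ∀ k, ∀ i < N k, f i = (x k : ℕ → ℝ) i := by
    intro k i hi
    rcases le_total k (i + 1) with h | h
    · exact hstab k (i + 1) h i hi
    · exact (hstab (i + 1) k h i (by have := hNge (i + 1); omega)).symm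
  have hfmem : Memℓp f 2 := by
    apply memℓp_gen' (C := R ^ 2)
    intro s
    obtain ⟨k, hk⟩ : ∃ k, ∀ i ∈ s, i < N k := by
      obtain ⟨M, hM⟩ := s.bddAbove
      exact ⟨M + 1, fun i hi => by
        have h1 := hM hi
        have h2 := hNge (M + 1)
        omega⟩
    have h1 : ∑ i ∈ s, ‖f i‖ ^ (2 : ENNReal).toReal = ∑ i ∈ s, ((x k : ℕ → ℝ) i) ^ 2 := by
      apply Finset.sum_congr rfl
      intro i hi
      rw [hf k i (hk i hi)]
      simp
    rw [h1]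
    refine (sum_le_hasSum s (fun i _ => sq_nonneg _) (hasSum_sq (x k))).trans ?_
    have h2 := hR _ (hxC k)
    have h3 := norm_nonneg (x k)
    nlinarith
  let a : L := ⟨f, hfmem⟩
  have ha : ∀ i, (a : ℕ → ℝ) i = f i := fun _ => rfl
  have hlim : Tendsto (fun k => ‖x k - a‖ ^ 2) atTop (𝓝 0) := by
    have h1 := hasSum_sq (e - a)
    have h2 : Tendsto (fun k => ‖e - a‖ ^ 2 -
        ∑ i ∈ Finset.range (N k), (((e - a : L) : ℕ → ℝ) i) ^ 2) atTop (𝓝 0) := by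
      have h3 := (h1.tendsto_sum_nat.comp hNmono.tendsto_atTop).const_sub (‖e - a‖ ^ 2)
      simpa using h3
    refine h2.congr fun k => ?_
    have h4 : HasSum (fun i => if i ∈ Finset.range (N k) then (((e - a : L) : ℕ → ℝ) i) ^ 2 else 0)
        (∑ i ∈ Finset.range (N k), (((e - a : L) : ℕ → ℝ) i) ^ 2) := by
      have h : ∑ i ∈ Finset.range (N k), (((e - a : L) : ℕ → ℝ) i) ^ 2 =
          ∑ i ∈ Finset.range (N k), (if i ∈ Finset.range (N k) then
            (((e - a : L) : ℕ → ℝ) i) ^ 2 else 0) :=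
        Finset.sum_congr rfl fun i hi => by rw [if_pos hi]
      rw [h]
      exact hasSum_sum_of_ne_finset_zero fun i hi => by rw [if_neg hi]
    have h5 := hasSum_sq (x k - a)
    have h6 : (fun i => (((x k - a : L) : ℕ → ℝ) i) ^ 2) = fun i => (((e - a : L) : ℕ → ℝ) i) ^ 2 -
        if i ∈ Finset.range (N k) then (((e - a : L) : ℕ → ℝ) i) ^ 2 else 0 := by
      funext i
      rw [coe_sub, coe_sub, ha]
      by_cases hi : i < N k
      · rw [if_pos (Finset.mem_range.2 hi), hf k i hi]; ring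
      · rw [if_neg (by rwa [Finset.mem_range]), hxe k i (not_lt.1 hi), sub_zero]
    rw [h6] at h5
    exact (h1.sub h4).unique h5
  have hlim' : Tendsto x atTop (𝓝 a) := by
    rw [tendsto_iff_norm_sub_tendsto_zero]
    have h1 := hlim.sqrt
    simpa using h1
  have haC : a ∈ C := hCc.mem_of_tendsto hlim' (Eventually.of_forall hxC)
  obtain ⟨O, hO, hOC⟩ := hCo
  let y : ℕ → L := fun k => Y (seq k) k
  have hyx : Tendsto (fun k => dist (y k) (x (k + 1))) atTop (𝓝 0) :=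
    squeeze_zero (fun k => dist_nonneg) (fun k => hYd (seq k) k)
      (tendsto_one_div_add_atTop_nhds_zero_nat (𝕜 := ℝ))
  have hy : Tendsto y atTop (𝓝 a) := by
    rw [tendsto_iff_dist_tendsto_zero]
    have h2 : Tendsto (fun k => dist (x (k + 1)) a) atTop (𝓝 0) :=
      tendsto_iff_dist_tendsto_zero.1 ((tendsto_add_atTop_iff_nat 1).2 hlim')
    have h3 := hyx.add h2
    rw [add_zero] at h3
    exact squeeze_zero (fun k => dist_nonneg) (fun k => dist_triangle _ _ _) h3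
  have haO : a ∈ O := by
    have : a ∈ Es ∩ O := by rw [hOC]; exact haC
    exact this.2
  obtain ⟨k, hk⟩ := (hy.eventually (hO.mem_nhds haO)).exists
  apply hYC (seq k) k
  rw [← hOC]
  exact ⟨hYE _ _, hk⟩

/-- Complete Erdős space has no closed copy of itself that is bounded. -/
theorem no_bounded_copy (θ : Es → Es) (hθ : IsClosedEmbedding θ) {R : ℝ}
    (hR : ∀ p, ‖((θ p : Es) : L)‖ ≤ R) : False := by
  let A : Set L := range fun p => ((θ p : Es) : L)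
  have hemb : IsClosedEmbedding fun p => ((θ p : Es) : L) :=
    isClosed_Es.isClosedEmbedding_subtypeVal.comp hθ
  have hAE : A ⊆ Es := by rintro _ ⟨p, rfl⟩; exact (θ p).2
  have h0 : (0 : L) ∈ Es := fun i => Or.inl rfl
  have hAne : A.Nonempty := ⟨_, ⟨0, h0⟩, rfl⟩
  obtain ⟨_, ⟨p, rfl⟩, hp⟩ := exists_zero_dim_point hAE hemb.isClosed_range hAne
    (R := R) (by rintro _ ⟨p, rfl⟩; exact hR p)
  -- choose a small ball
  have hnhds : {q : Es | dist (q : L) p < 1} ∈ 𝓝 p :=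
    (isOpen_lt (continuous_subtype_val.dist continuous_const) continuous_const).mem_nhds
      (by show dist (p : L) p < 1; rw [dist_self]; exact one_pos)
  rw [hemb.isEmbedding.isInducing.nhds_eq_comap, mem_comap] at hnhds
  obtain ⟨V, hV, hVsub⟩ := hnhds
  obtain ⟨ε, hε, hball⟩ := Metric.mem_nhds_iff.1 hV
  obtain ⟨W, hWc, ⟨O, hO, hOW⟩, hpW, hsmall⟩ := hp ε hε
  -- the preimage of `W`
  let C : Set L := Subtype.val '' (θ ⁻¹' (Subtype.val ⁻¹' W) : Set Es)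
  refine no_bounded_clopen (C := C) (R := ‖(p : L)‖ + 1) ?_ ?_ ?_ ?_ ?_
  · rintro _ ⟨q, -, rfl⟩; exact q.2
  · exact isClosed_Es.isClosedEmbedding_subtypeVal.isClosedMap _
      ((hWc.preimage continuous_subtype_val).preimage hθ.continuous)
  · have hopen : IsOpen (θ ⁻¹' (Subtype.val ⁻¹' W) : Set Es) := by
      have : (θ ⁻¹' (Subtype.val ⁻¹' W) : Set Es) = θ ⁻¹' (Subtype.val ⁻¹' O) := by
        ext q
        have h1 : ((θ q : Es) : L) ∈ Es ∩ O ↔ ((θ q : Es) : L) ∈ Es ∩ W := by rw [hOW]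
        constructor
        · intro h; exact (h1.2 ⟨(θ q).2, h⟩).2
        · intro h; exact (h1.1 ⟨(θ q).2, h⟩).2
      rw [this]
      exact (hO.preimage continuous_subtype_val).preimage hθ.continuous
    obtain ⟨O', hO', hO'eq⟩ := isOpen_induced_iff.1 hopen
    refine ⟨O', hO', ?_⟩
    show Es ∩ O' = Subtype.val '' (θ ⁻¹' (Subtype.val ⁻¹' W) : Set Es)
    rw [← hO'eq, Subtype.image_preimage_coe]
  · exact ⟨_, p, hpW, rfl⟩
  · rintro _ ⟨q, hq, rfl⟩
    have h1 : dist ((θ q : Es) : L) ((θ p : Es) : L) < ε := hsmall _ ⟨⟨q, rfl⟩, hq⟩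
    have h2 : dist (q : L) p < 1 := hVsub (hball h1)
    have h3 : ‖(q : L)‖ ≤ ‖(p : L)‖ + ‖(q : L) - p‖ := by
      have := norm_add_le (p : L) ((q : L) - p)
      simpa using this
    rw [dist_eq_norm] at h2
    linarith

end Pool.Agent.X197.Erdos
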