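import Mathlib
import Pool.Agent.X197.Erdos

/-!
# The homeomorphism group of countably many copies of a compact space is not complete Erdős space
-/

open Set Topology Filter Metric

namespace Pool.Agent.X197.HomeoGroup

open Pool.Agent.X197.Erdos

/-- The homeomorphism group. -/
def Hm (M : Type) [TopologicalSpace M] : Type := M ≃ₜ M

/-- the inclusion in the function space -/
def ι {M : Type} [TopologicalSpace M] (g : Hm M) : C(M, M) :=
  ContinuousMap.mk (show M ≃ₜ M from g) (show M ≃ₜ M from g).continuous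

/-- The compact-open topology. -/
instance (M : Type) [TopologicalSpace M] : TopologicalSpace (Hm M) :=
  TopologicalSpace.induced (fun g : M ≃ₜ M => ContinuousMap.mk (⇑g) g.continuous) inferInstance

theorem isInducing_ι {M : Type} [TopologicalSpace M] : IsInducing (ι : Hm M → C(M, M)) := ⟨rfl⟩

theorem ι_injective {M : Type} [TopologicalSpace M] : Function.Injective (ι : Hm M → C(M, M)) := by
  intro g h hgh
  apply Homeomorph.ext
  intro x
  exact congrArg (fun f : C(M, M) => f x) hgh

variable {X : Type} [TopologicalSpace X]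

/-- shift up -/
def sh (k : ℕ) (p : ℕ × X) : ℕ × X := (p.1 + k, p.2)

/-- shift down -/
def us (k : ℕ) (p : ℕ × X) : ℕ × X := (p.1 - k, p.2)

omit [TopologicalSpace X] in
theorem us_sh (k : ℕ) (p : ℕ × X) : us k (sh k p) = p := by simp [us, sh]

omit [TopologicalSpace X] in
theorem sh_us {k : ℕ} {p : ℕ × X} (h : ¬ p.1 < k) : sh k (us k p) = p := by
  apply Prod.ext
  · show p.1 - k + k = p.1
    omega
  · rfl

omit [TopologicalSpace X] in
theorem sh_fst (k : ℕ) (p : ℕ × X) : ¬ (sh k p).1 < k := by
  show ¬ p.1 + k < k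
  omega

theorem continuous_sh (k : ℕ) : Continuous (sh k : ℕ × X → ℕ × X) :=
  ((continuous_of_discreteTopology (f := fun n : ℕ => n + k)).comp continuous_fst).prodMk
    continuous_snd

theorem continuous_us (k : ℕ) : Continuous (us k : ℕ × X → ℕ × X) :=
  ((continuous_of_discreteTopology (f := fun n : ℕ => n - k)).comp continuous_fst).prodMk
    continuous_snd

/-- identity on the first `k` copies, the shifted map on the others -/
def psi (k : ℕ) (h : ℕ × X → ℕ × X) (p : ℕ × X) : ℕ × X :=
  if p.1 < k then p else sh k (h (us k p))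

theorem continuous_psi_joint {Z : Type*} [TopologicalSpace Z] (k : ℕ)
    (h : Z → ℕ × X → ℕ × X) (hh : Continuous fun q : Z × (ℕ × X) => h q.1 q.2) :
    Continuous fun q : Z × (ℕ × X) => psi k (h q.1) q.2 := by
  have hcl : IsClopen {q : Z × (ℕ × X) | q.2.1 < k} := by
    have : IsClopen {n : ℕ | n < k} := isClopen_discrete _
    exact this.preimage (continuous_fst.comp continuous_snd)
  unfold psi
  refine continuous_if ?_ ?_ ?_
  · intro q hq
    rw [hcl.frontier_eq] at hq
    exact absurd hq (notMem_empty _)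
  · exact continuous_snd.continuousOn
  · refine Continuous.continuousOn ?_
    exact (continuous_sh k).comp (hh.comp (continuous_fst.prodMk ((continuous_us k).comp continuous_snd)))

theorem continuous_psi (k : ℕ) {h : ℕ × X → ℕ × X} (hh : Continuous h) : Continuous (psi k h) :=
  (continuous_psi_joint (Z := Unit) k (fun _ => h) (hh.comp continuous_snd)).comp
    (continuous_const.prodMk continuous_id : Continuous fun p : ℕ × X => (((), p) : Unit × (ℕ × X)))

omit [TopologicalSpace X] in
theorem psi_psi (k : ℕ) {h g : ℕ × X → ℕ × X} (hgh : ∀ p, g (h p) = p) (p : ℕ × X) :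
    psi k g (psi k h p) = p := by
  unfold psi
  by_cases hp : p.1 < k
  · rw [if_pos hp, if_pos hp]
  · rw [if_neg hp, if_neg (sh_fst k _), us_sh, hgh, sh_us hp]

/-- The embedding `Ψ_k` of the group in itself. -/
def Psi (k : ℕ) (h : Hm (ℕ × X)) : Hm (ℕ × X) :=
  let h' : ℕ × X ≃ₜ ℕ × X := h
  ({ toFun := psi k h'
     invFun := psi k h'.symm
     left_inv := psi_psi k h'.symm_apply_apply
     right_inv := psi_psi k h'.apply_symm_apply
     continuous_toFun := continuous_psi k h'.continuous
     continuous_invFun := continuous_psi k h'.symm.continuous } : ℕ × X ≃ₜ ℕ × X)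

theorem ι_Psi (k : ℕ) (h : Hm (ℕ × X)) (p : ℕ × X) : ι (Psi k h) p = psi k (ι h) p := rfl

/-- The left inverse. -/
def r (k : ℕ) (g : C(ℕ × X, ℕ × X)) : C(ℕ × X, ℕ × X) :=
  (ContinuousMap.mk (us k) (continuous_us k)).comp
    (g.comp (ContinuousMap.mk (sh k) (continuous_sh k)))

theorem continuous_r (k : ℕ) : Continuous (r k : C(ℕ × X, ℕ × X) → C(ℕ × X, ℕ × X)) :=
  (ContinuousMap.continuous_postcomp _).comp (ContinuousMap.continuous_precomp _)

theorem r_ι_Psi (k : ℕ) (h : Hm (ℕ × X)) : r k (ι (Psi k h)) = ι h := by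
  ext1 p
  show us k (psi k (ι h) (sh k p)) = ι h p
  unfold psi
  rw [if_neg (sh_fst k p), us_sh, us_sh]

variable [CompactSpace X] [T2Space X]

theorem continuous_Psi (k : ℕ) : Continuous (Psi k : Hm (ℕ × X) → Hm (ℕ × X)) := by
  rw [isInducing_ι.continuous_iff]
  apply ContinuousMap.continuous_of_continuous_uncurry
  have h : Continuous fun q : Hm (ℕ × X) × (ℕ × X) => ι q.1 q.2 :=
    (isInducing_ι.continuous.comp continuous_fst).eval continuous_snd
  exact continuous_psi_joint k (fun g : Hm (ℕ × X) => (ι g : ℕ × X → ℕ × X)) h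

theorem isEmbedding_Psi (k : ℕ) : IsEmbedding (Psi k : Hm (ℕ × X) → Hm (ℕ × X)) := by
  have hcomp : (fun g => r k (ι g)) ∘ (Psi k : Hm (ℕ × X) → Hm (ℕ × X)) = ι := by
    funext h
    exact r_ι_Psi k h
  refine ⟨IsInducing.of_comp (continuous_Psi k)
    ((continuous_r k).comp isInducing_ι.continuous) (g := fun g => r k (ι g)) ?_, ?_⟩
  · rw [hcomp]; exact isInducing_ι
  · intro g h hgh
    apply ι_injective
    rw [← r_ι_Psi k g, ← r_ι_Psi k h, hgh]

theorem range_Psi (k : ℕ) : range (Psi k : Hm (ℕ × X) → Hm (ℕ × X)) =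
    {g | ∀ p : ℕ × X, p.1 < k → ι g p = p} := by
  ext g
  constructor
  · rintro ⟨h, rfl⟩ p hp
    rw [ι_Psi]
    exact if_pos hp
  · intro hg
    let g' : ℕ × X ≃ₜ ℕ × X := g
    have hg' : ∀ p : ℕ × X, p.1 < k → g' p = p := hg
    have hgs : ∀ p : ℕ × X, p.1 < k → g'.symm p = p := fun p hp => by
      rw [Homeomorph.symm_apply_eq, hg' p hp]
    have h1 : ∀ p : ℕ × X, ¬ p.1 < k → ¬ (g' p).1 < k := by
      intro p hp hlt
      have h2 := hg' _ hlt
      have h3 := g'.injective h2
      rw [h3] at hlt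
      exact hp hlt
    have h1s : ∀ p : ℕ × X, ¬ p.1 < k → ¬ (g'.symm p).1 < k := by
      intro p hp hlt
      have h2 := hgs _ hlt
      have h3 := g'.symm.injective h2
      rw [h3] at hlt
      exact hp hlt
    let h : ℕ × X ≃ₜ ℕ × X :=
      { toFun := fun p => us k (g' (sh k p))
        invFun := fun p => us k (g'.symm (sh k p))
        left_inv := fun p => by
          show us k (g'.symm (sh k (us k (g' (sh k p))))) = p
          rw [sh_us (h1 _ (sh_fst k p)), g'.symm_apply_apply, us_sh]
        right_inv := fun p => by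
          show us k (g' (sh k (us k (g'.symm (sh k p))))) = p
          rw [sh_us (h1s _ (sh_fst k p)), g'.apply_symm_apply, us_sh]
        continuous_toFun := (continuous_us k).comp (g'.continuous.comp (continuous_sh k))
        continuous_invFun := (continuous_us k).comp (g'.symm.continuous.comp (continuous_sh k)) }
    refine ⟨h, ?_⟩
    apply ι_injective
    ext1 p
    show psi k (fun p => us k (g' (sh k p))) p = g' p
    unfold psi
    by_cases hp : p.1 < k
    · rw [if_pos hp, hg' p hp]
    · rw [if_neg hp]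
      show sh k (us k (g' (sh k (us k p)))) = g' p
      rw [sh_us hp, sh_us (h1 p hp)]

theorem isClosedEmbedding_Psi (k : ℕ) : IsClosedEmbedding (Psi k : Hm (ℕ × X) → Hm (ℕ × X)) := by
  refine ⟨isEmbedding_Psi k, ?_⟩
  rw [range_Psi]
  have : {g : Hm (ℕ × X) | ∀ p : ℕ × X, p.1 < k → ι g p = p} =
      ⋂ p : ℕ × X, ⋂ _ : p.1 < k, {g | ι g p = p} := by
    ext g; simp
  rw [this]
  exact isClosed_iInter fun p => isClosed_iInter fun _ =>
    isClosed_eq ((continuous_eval_const p).comp isInducing_ι.continuous) continuous_const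

/-- the identity -/
def one : Hm (ℕ × X) := Homeomorph.refl (ℕ × X)

theorem exists_small {U : Set (Hm (ℕ × X))} (hU : IsOpen U) (h1 : one ∈ U) :
    ∃ k : ℕ, range (Psi k : Hm (ℕ × X) → Hm (ℕ × X)) ⊆ U := by
  by_contra hcon
  push Not at hcon
  have h2 : ∀ k : ℕ, ∃ g : Hm (ℕ × X), (∀ p : ℕ × X, p.1 < k → ι g p = p) ∧ g ∉ U := by
    intro k
    obtain ⟨g, hg, hgU⟩ := not_subset.1 (hcon k)
    rw [range_Psi] at hg
    exact ⟨g, hg, hgU⟩
  choose g hg hgU using h2
  have hlim : Tendsto g atTop (𝓝 one) := by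
    rw [isInducing_ι.tendsto_nhds_iff, ContinuousMap.tendsto_nhds_compactOpen]
    intro K hK V _ hKV
    obtain ⟨m, hm⟩ := (hK.image continuous_fst).bddAbove
    filter_upwards [eventually_gt_atTop m] with k hk p hp
    show ι (g k) p ∈ V
    rw [hg k p (lt_of_le_of_lt (hm ⟨p, hp, rfl⟩) hk)]
    exact hKV hp
  obtain ⟨k, hk⟩ := (hlim.eventually (hU.mem_nhds h1)).exists
  exact hgU k hk

/-- **Main theorem.** -/
theorem not_homeomorphic (φ : Hm (ℕ × X) ≃ₜ Es) : False := by
  let e : Es := φ one
  obtain ⟨k, hk⟩ := exists_small (X := X) (U := φ ⁻¹' {q : Es | dist (q : L) e < 1})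
    ((isOpen_lt (continuous_subtype_val.dist continuous_const) continuous_const).preimage
      φ.continuous) (by show dist (e : L) e < 1; rw [dist_self]; exact one_pos)
  refine no_bounded_copy (fun p => φ (Psi k (φ.symm p)))
    (φ.isClosedEmbedding.comp ((isClosedEmbedding_Psi k).comp φ.symm.isClosedEmbedding))
    (R := ‖(e : L)‖ + 1) ?_
  intro p
  have h1 : dist ((φ (Psi k (φ.symm p)) : Es) : L) e < 1 := hk ⟨_, rfl⟩
  rw [dist_eq_norm] at h1
  have h3 : ‖((φ (Psi k (φ.symm p)) : Es) : L)‖ ≤
      ‖(e : L)‖ + ‖((φ (Psi k (φ.symm p)) : Es) : L) - e‖ := by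
    have := norm_add_le (e : L) (((φ (Psi k (φ.symm p)) : Es) : L) - e)
    simpa using this
  linarith

end Pool.Agent.X197.HomeoGroup
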