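import Mathlib
import Pool.Agent.X197.HomeoGroup

open Set Topology

namespace Pool.Agent.X197.MengerMfd

/-- The Menger compactum. -/
def Mg (n : ℕ) : Set (Fin (2 * n + 1) → ℝ) := {y : Fin (2 * n + 1) → ℝ |
            ∀ k : ℕ, ∃ a : Fin (2 * n + 1) → ℕ,
              (∀ i, a i < 3 ^ k ∧ (a i : ℝ) / 3 ^ k ≤ y i ∧ y i ≤ ((a i : ℝ) + 1) / 3 ^ k) ∧
              ∀ j < k, (Finset.univ.filter (fun i => a i / 3 ^ j % 3 = 1)).card ≤ n}

theorem isClosed_Mg (n : ℕ) : IsClosed (Mg n) := by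
  have h : Mg n = ⋂ k : ℕ, ⋃ a : Fin (2 * n + 1) → Fin (3 ^ k),
      {y : Fin (2 * n + 1) → ℝ | (∀ i, ((a i : ℕ) : ℝ) / 3 ^ k ≤ y i ∧
        y i ≤ (((a i : ℕ) : ℝ) + 1) / 3 ^ k) ∧
        ∀ j < k, (Finset.univ.filter (fun i => (a i : ℕ) / 3 ^ j % 3 = 1)).card ≤ n} := by
    ext y
    simp only [Mg, mem_setOf_eq, mem_iInter, mem_iUnion]
    refine forall_congr' fun k => ⟨?_, ?_⟩
    · rintro ⟨a, h1, h2⟩
      exact ⟨fun i => ⟨a i, (h1 i).1⟩, fun i => (h1 i).2, h2⟩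
    · rintro ⟨a, h1, h2⟩
      exact ⟨fun i => (a i : ℕ), fun i => ⟨(a i).2, h1 i⟩, h2⟩
  rw [h]
  refine isClosed_iInter fun k => isClosed_iUnion_of_finite fun a => ?_
  have h2 : {y : Fin (2 * n + 1) → ℝ | (∀ i, ((a i : ℕ) : ℝ) / 3 ^ k ≤ y i ∧
        y i ≤ (((a i : ℕ) : ℝ) + 1) / 3 ^ k) ∧
        ∀ j < k, (Finset.univ.filter (fun i => (a i : ℕ) / 3 ^ j % 3 = 1)).card ≤ n} =
      (⋂ i, {y : Fin (2 * n + 1) → ℝ | ((a i : ℕ) : ℝ) / 3 ^ k ≤ y i} ∩
        {y : Fin (2 * n + 1) → ℝ | y i ≤ (((a i : ℕ) : ℝ) + 1) / 3 ^ k}) ∩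
      {_y : Fin (2 * n + 1) → ℝ | ∀ j < k, (Finset.univ.filter
        (fun i => (a i : ℕ) / 3 ^ j % 3 = 1)).card ≤ n} := by
    ext y
    simp
  rw [h2]
  refine IsClosed.inter (isClosed_iInter fun i => IsClosed.inter ?_ ?_) ?_
  · exact isClosed_le continuous_const (continuous_apply i)
  · exact isClosed_le (continuous_apply i) continuous_const
  · exact isClosed_const

theorem isCompact_Mg (n : ℕ) : IsCompact (Mg n) := by
  refine (isCompact_Icc (a := (fun _ => 0 : Fin (2 * n + 1) → ℝ)) (b := fun _ => 1)).of_isClosed_subset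
    (isClosed_Mg n) ?_
  intro y hy
  obtain ⟨a, h1, -⟩ := hy 0
  have h2 : ∀ i, a i = 0 := fun i => by have := (h1 i).1; simpa using this
  constructor
  · intro i
    have := (h1 i).2.1
    rw [h2] at this
    simpa using this
  · intro i
    have := (h1 i).2.2
    rw [h2] at this
    simpa using this

theorem zero_mem (n : ℕ) : (0 : Fin (2 * n + 1) → ℝ) ∈ Mg n := by
  intro k
  refine ⟨fun _ => 0, fun i => ⟨by positivity, by simp, by simp⟩, fun j _ => ?_⟩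
  simp

instance (n : ℕ) : CompactSpace (Mg n) := isCompact_iff_compactSpace.1 (isCompact_Mg n)
instance (n : ℕ) : Nonempty (Mg n) := ⟨⟨0, zero_mem n⟩⟩

theorem main : ¬ (∀ (n : ℕ), 1 ≤ n →
    ∀ (M : Type) [TopologicalSpace M] [TopologicalSpace.MetrizableSpace M]
      [TopologicalSpace.SeparableSpace M] [Nonempty M],
      (∀ x : M, ∃ V : Set M, IsOpen V ∧ x ∈ V ∧
        ∃ U : Set {y : Fin (2 * n + 1) → ℝ |
            ∀ k : ℕ, ∃ a : Fin (2 * n + 1) → ℕ,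
              (∀ i, a i < 3 ^ k ∧ (a i : ℝ) / 3 ^ k ≤ y i ∧ y i ≤ ((a i : ℝ) + 1) / 3 ^ k) ∧
              ∀ j < k, (Finset.univ.filter (fun i => a i / 3 ^ j % 3 = 1)).card ≤ n},
          IsOpen U ∧ Nonempty (V ≃ₜ U)) →
      Nonempty (@Homeomorph (M ≃ₜ M)
        {x : lp (fun _ : ℕ => ℝ) 2 | ∀ i : ℕ, (x : ℕ → ℝ) i = 0 ∨
            ∃ k : ℕ, 0 < k ∧ (x : ℕ → ℝ) i = 1 / (k : ℝ)}
        (TopologicalSpace.induced (fun g : M ≃ₜ M => ContinuousMap.mk (⇑g) g.continuous)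
          inferInstance)
        inferInstance)) := by
  intro H
  obtain ⟨φ⟩ := H 1 le_rfl (ℕ × Mg 1) (by
    rintro ⟨i, p⟩
    refine ⟨{q | q.1 = i}, (isOpen_discrete {i}).preimage continuous_fst, rfl, univ, isOpen_univ, ?_⟩
    refine ⟨?_⟩
    have e : {q : ℕ × Mg 1 | q.1 = i} ≃ₜ (univ : Set (Mg 1)) :=
      { toFun := fun q => ⟨q.1.2, trivial⟩
        invFun := fun q => ⟨(i, q.1), rfl⟩
        left_inv := fun q => by
          apply Subtype.ext
          exact Prod.ext q.2.symm rfl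
        right_inv := fun q => rfl
        continuous_toFun := Continuous.subtype_mk (continuous_snd.comp continuous_subtype_val) _
        continuous_invFun :=
          Continuous.subtype_mk (continuous_const.prodMk continuous_subtype_val) _ }
    exact e)
  exact Pool.Agent.X197.HomeoGroup.not_homeomorphic (X := Mg 1) φ

end Pool.Agent.X197.MengerMfd
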