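import Mathlib

/-!
# A simple closed curve whose span is smaller than its semi-span

On the circle `T = ℝ/ℤ` let `Z = {(4t/5, t + 3/5) : t ∈ [0,1]} ⊆ T × T` and let `δ(x,y)` be the
distance of `(x,y)` or of `(y,x)` to `Z`. The metric is
`d(x,y) = min (100 |x-y|) 1 + max 0 (1/2 - 100 δ(x,y))`.
-/

open Set Topology Metric

namespace Pool.Agent.X197.SpanCircle

/-- the circle -/
abbrev T : Type := AddCircle (1 : ℝ)

theorem exists_rep_near {x : T} {u r : ℝ} (h : dist x (u : T) < r) :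
    ∃ v : ℝ, x = (v : T) ∧ |v - u| < r := by
  obtain ⟨w, rfl⟩ := QuotientAddGroup.mk_surjective x
  change dist ((w : ℝ) : T) (u : T) < r at h
  rw [dist_eq_norm, ← AddCircle.coe_sub, UnitAddCircle.norm_eq] at h
  refine ⟨w - round (w - u), ?_, ?_⟩
  · change ((w : ℝ) : T) = _
    rw [AddCircle.coe_sub]
    have : (((round (w - u) : ℤ) : ℝ) : T) = 0 := by
      rw [AddCircle.coe_eq_zero_iff]; exact ⟨round (w - u), by simp⟩
    rw [this, sub_zero]
  · convert h using 2
    ring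

theorem exists_int {u v : ℝ} (h : (u : T) = (v : T)) : ∃ k : ℤ, u = v + k := by
  have h0 : ((u - v : ℝ) : T) = 0 := by rw [AddCircle.coe_sub, h, sub_self]
  obtain ⟨k, hk⟩ := (AddCircle.coe_eq_zero_iff (1 : ℝ)).1 h0
  exact ⟨k, by simp at hk; linarith⟩

theorem exists_int_lt {u r : ℝ} (h : ‖(u : T)‖ < r) : ∃ k : ℤ, |u - k| < r := by
  rw [UnitAddCircle.norm_eq] at h
  exact ⟨round u, h⟩

theorem dist_coe_lt {u v r : ℝ} (h : |u - v| < r) : dist (u : T) (v : T) < r := by
  rw [dist_eq_norm, ← AddCircle.coe_sub, UnitAddCircle.norm_eq]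
  refine lt_of_le_of_lt ?_ h
  have := round_le (u - v) 0
  simpa using this

/-- the basic set -/
def Z : Set (T × T) := (fun t : ℝ => (((4 * t / 5 : ℝ) : T), ((t + 3 / 5 : ℝ) : T))) '' Icc 0 1

theorem Z_nonempty : Z.Nonempty := ⟨_, 0, by simp, rfl⟩

/-- the distance to `Z` or its mirror image -/
noncomputable def δ (x y : T) : ℝ := min (infDist (x, y) Z) (infDist (y, x) Z)

theorem δ_comm (x y : T) : δ x y = δ y x := min_comm _ _

theorem δ_lip (x y z : T) : δ x z ≤ δ y z + dist x y := by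
  unfold δ
  have h1 : infDist (x, z) Z ≤ infDist (y, z) Z + dist x y := by
    have := infDist_le_infDist_add_dist (s := Z) (x := (x, z)) (y := (y, z))
    simpa [Prod.dist_eq] using this
  have h2 : infDist (z, x) Z ≤ infDist (z, y) Z + dist x y := by
    have := infDist_le_infDist_add_dist (s := Z) (x := (z, x)) (y := (z, y))
    simpa [Prod.dist_eq] using this
  rcases min_cases (infDist (y, z) Z) (infDist (z, y) Z) with ⟨h, -⟩ | ⟨h, -⟩
  · rw [h]; exact (min_le_left _ _).trans h1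
  · rw [h]; exact (min_le_right _ _).trans h2

theorem near_Z {x y : T} (h : infDist (x, y) Z < 1 / 200) : ∃ t v w : ℝ, t ∈ Icc (0 : ℝ) 1 ∧
    x = (v : T) ∧ y = (w : T) ∧ |v - 4 * t / 5| < 1 / 200 ∧ |w - (t + 3 / 5)| < 1 / 200 := by
  obtain ⟨z, ⟨t, ht, rfl⟩, hz⟩ := (infDist_lt_iff Z_nonempty).1 h
  rw [Prod.dist_eq, max_lt_iff] at hz
  obtain ⟨v, hv, hv'⟩ := exists_rep_near hz.1
  obtain ⟨w, hw, hw'⟩ := exists_rep_near hz.2
  exact ⟨t, v, w, ht, hv, hw, hv', hw'⟩

/-- the points near `Z` are far from the diagonal -/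
theorem far_diag {x y : T} (h : infDist (x, y) Z < 1 / 200) : 2 / 100 < dist x y := by
  obtain ⟨t, v, w, ⟨ht0, ht1⟩, rfl, rfl, hv, hw⟩ := near_Z h
  by_contra hcon
  push Not at hcon
  have h1 : ‖((v - w : ℝ) : T)‖ < 3 / 100 := by
    rw [AddCircle.coe_sub, ← dist_eq_norm]
    linarith
  obtain ⟨k, hk⟩ := exists_int_lt h1
  rw [abs_lt] at hv hw hk
  have hk1 : (k : ℝ) < 0 := by linarith [hv.1, hv.2, hw.1, hw.2, hk.1, hk.2]
  have hk2 : (-1 : ℝ) < k := by linarith [hv.1, hv.2, hw.1, hw.2, hk.1, hk.2]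
  have e1 : k < 0 := by exact_mod_cast hk1
  have e2 : -1 < k := by exact_mod_cast hk2
  omega

theorem far_of_δ {x y : T} (h : δ x y < 1 / 200) : 2 / 100 < dist x y := by
  unfold δ at h
  rcases min_lt_iff.1 h with h | h
  · exact far_diag h
  · rw [dist_comm]; exact far_diag h

/-- the bump -/
noncomputable def φ (x y : T) : ℝ := max 0 (1 / 2 - 100 * δ x y)

theorem φ_nonneg (x y : T) : 0 ≤ φ x y := le_max_left _ _

theorem δ_nonneg (x y : T) : 0 ≤ δ x y := le_min infDist_nonneg infDist_nonneg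

theorem φ_le (x y : T) : φ x y ≤ 1 / 2 := max_le (by norm_num) (by linarith [δ_nonneg x y])

theorem φ_comm (x y : T) : φ x y = φ y x := by unfold φ; rw [δ_comm]

theorem φ_lip (x y z : T) : φ x z ≤ φ y z + 100 * dist x y := by
  unfold φ
  have h := δ_lip y x z
  rw [dist_comm] at h
  apply max_le
  · have := le_max_left 0 (1 / 2 - 100 * δ y z)
    have := dist_nonneg (x := x) (y := y)
    linarith
  · have := le_max_right 0 (1 / 2 - 100 * δ y z)
    linarith

theorem φ_pos {x y : T} (h : 0 < φ x y) : δ x y < 1 / 200 := by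
  unfold φ at h
  by_contra hcon
  push Not at hcon
  rw [max_eq_left (by linarith)] at h
  exact lt_irrefl _ h

theorem φ_eq_zero {x y : T} (h : dist x y ≤ 2 / 100) : φ x y = 0 := by
  by_contra hcon
  have h0 := lt_of_le_of_ne (φ_nonneg x y) (Ne.symm hcon)
  exact absurd (far_of_δ (φ_pos h0)) (not_lt.2 h)

/-- the metric -/
noncomputable def d (x y : T) : ℝ := min (100 * dist x y) 1 + φ x y

theorem d_self (x : T) : d x x = 0 := by
  unfold d
  rw [dist_self, φ_eq_zero (by rw [dist_self]; norm_num)]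
  norm_num

theorem d_comm (x y : T) : d x y = d y x := by
  unfold d
  rw [dist_comm, φ_comm]

theorem d_le (x y : T) : d x y ≤ 3 / 2 := by
  unfold d
  have := min_le_right (100 * dist x y) 1
  have := φ_le x y
  linarith

theorem triangle_aux {x y : T} (z : T) (hxy : 100 * dist x y ≤ 1) :
    d x z ≤ d x y + d y z := by
  have hd1 : 100 * dist x y ≤ d x y := by
    unfold d
    rw [min_eq_left hxy]
    have := φ_nonneg x y
    linarith
  by_cases h0 : φ x z = 0
  · have h1 : dist x z ≤ dist x y + dist y z := dist_triangle x y z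
    unfold d at *
    rw [h0]
    have := φ_nonneg y z
    have h3 : min (100 * dist x z) 1 ≤ 100 * dist x y + min (100 * dist y z) 1 := by
      rcases min_cases (100 * dist y z) 1 with ⟨h, -⟩ | ⟨h, -⟩
      · rw [h]; exact (min_le_left _ _).trans (by linarith)
      · rw [h]
        have := dist_nonneg (x := x) (y := y)
        exact (min_le_right _ _).trans (by linarith)
    linarith
  · have hpos := lt_of_le_of_ne (φ_nonneg x z) (Ne.symm h0)
    have hfar := far_of_δ (φ_pos hpos)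
    have h1 : dist x z ≤ dist x y + dist y z := dist_triangle x y z
    have h2 : 1 ≤ 100 * dist y z := by linarith
    have h3 : d y z = 1 + φ y z := by unfold d; rw [min_eq_right h2]
    have h4 : d x z ≤ 1 + φ x z := by
      unfold d
      have := min_le_right (100 * dist x z) 1
      linarith
    have := φ_lip x y z
    linarith

theorem d_triangle (x y z : T) : d x z ≤ d x y + d y z := by
  by_cases h1 : 100 * dist x y ≤ 1
  · exact triangle_aux z h1
  · by_cases h2 : 100 * dist y z ≤ 1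
    · have := triangle_aux (x := z) (y := y) x (by rwa [dist_comm])
      rw [d_comm z x, d_comm z y, d_comm y x] at this
      linarith
    · push Not at h1 h2
      have e1 : 1 ≤ d x y := by
        unfold d; rw [min_eq_right h1.le]; linarith [φ_nonneg x y]
      have e2 : 1 ≤ d y z := by
        unfold d; rw [min_eq_right h2.le]; linarith [φ_nonneg y z]
      linarith [d_le x z]

theorem eq_of_d_eq_zero {x y : T} (h : d x y = 0) : x = y := by
  unfold d at h
  have h1 := φ_nonneg x y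
  have h2 : 0 ≤ min (100 * dist x y) 1 :=
    le_min (by have := dist_nonneg (x := x) (y := y); linarith) zero_le_one
  have h3 : min (100 * dist x y) 1 = 0 := le_antisymm (by linarith) h2
  have h4 : dist x y = 0 := by
    rcases min_cases (100 * dist x y) 1 with ⟨h, -⟩ | ⟨h, -⟩
    · rw [h] at h3; linarith
    · rw [h] at h3; norm_num at h3
  exact eq_of_dist_eq_zero h4

/-- the circle with the metric `d` -/
def Cm : Type := T

noncomputable instance : MetricSpace Cm where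
  dist x y := d x y
  dist_self x := d_self x
  dist_comm x y := d_comm x y
  dist_triangle x y z := d_triangle x y z
  eq_of_dist_eq_zero {x y} h := eq_of_d_eq_zero h

theorem dist_Cm (x y : Cm) : dist x y = d x y := rfl

/-- the identity `T → Cm` -/
def toC (x : T) : Cm := x

theorem continuous_toC : Continuous toC := by
  rw [Metric.continuous_iff]
  intro b ε hε
  refine ⟨min (ε / 100) (2 / 100), lt_min (by positivity) (by norm_num), fun a ha => ?_⟩
  have h1 : dist a b < ε / 100 := ha.trans_le (min_le_left _ _)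
  have h2 : dist a b < 2 / 100 := ha.trans_le (min_le_right _ _)
  change d a b < ε
  unfold d
  rw [φ_eq_zero h2.le, add_zero]
  exact (min_le_left _ _).trans_lt (by linarith)

/-- the homeomorphism of the circle with `Cm` -/
noncomputable def homeo : T ≃ₜ Cm :=
  Continuous.homeoOfEquivCompactToT2 (f := (Equiv.refl T : T ≃ Cm)) continuous_toC

theorem homeo_apply (x : T) : homeo x = toC x := rfl

/-- The circle is homeomorphic to `Cm`. -/
theorem curve : Nonempty (↥(univ : Set Cm) ≃ₜ ↥(sphere (0 : ℂ) 1)) := by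
  have e1 : ↥(univ : Set Cm) ≃ₜ T := (Homeomorph.Set.univ Cm).trans homeo.symm
  have e2 : T ≃ₜ Circle := AddCircle.homeomorphCircle one_ne_zero
  have e3 : Circle ≃ₜ ↥(sphere (0 : ℂ) 1) :=
    { toFun := fun z => ⟨(z : ℂ), mem_sphere_zero_iff_norm.2 (Circle.norm_coe z)⟩
      invFun := fun z => ⟨z.1, z.2⟩
      left_inv := fun z => rfl
      right_inv := fun z => rfl
      continuous_toFun := Continuous.subtype_mk continuous_subtype_val _
      continuous_invFun := Continuous.subtype_mk continuous_subtype_val _ }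
  exact ⟨(e1.trans e2).trans e3⟩

/-- Key step: a connected set near `Z` cannot have equal projections. -/
theorem no_equal {W : Set (T × T)} (hW : IsConnected W) (heq : Prod.fst '' W = Prod.snd '' W)
    (h : ∀ p ∈ W, infDist p Z < 1 / 200) : False := by
  obtain ⟨p0, hp0⟩ := hW.nonempty
  -- the second coordinate is a first coordinate
  have hback : ∀ p ∈ W, ∃ q ∈ W, q.1 = p.2 := by
    intro p hp
    have : p.2 ∈ Prod.fst '' W := by rw [heq]; exact ⟨p, hp, rfl⟩
    obtain ⟨q, hq, hqp⟩ := this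
    exact ⟨q, hq, hqp⟩
  let U₁ : Set (T × T) := {p | dist p.1 ((17 / 200 : ℝ) : T) < 1 / 10}
  let U₂ : Set (T × T) := {p | dist p.1 ((55 / 100 : ℝ) : T) < 26 / 100}
  have hU₁ : IsOpen U₁ := isOpen_lt (continuous_fst.dist continuous_const) continuous_const
  have hU₂ : IsOpen U₂ := isOpen_lt (continuous_fst.dist continuous_const) continuous_const
  have hdisj : Disjoint U₁ U₂ := by
    rw [disjoint_left]
    rintro ⟨x, y⟩ h1 h2
    have h1' : dist x ((17 / 200 : ℝ) : T) < 1 / 10 := h1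
    have h2' : dist x ((55 / 100 : ℝ) : T) < 26 / 100 := h2
    have h3 : dist ((17 / 200 : ℝ) : T) ((55 / 100 : ℝ) : T) < 36 / 100 := by
      have := dist_triangle_left ((17 / 200 : ℝ) : T) ((55 / 100 : ℝ) : T) x
      linarith
    rw [dist_eq_norm, ← AddCircle.coe_sub] at h3
    obtain ⟨k, hk⟩ := exists_int_lt h3
    rw [abs_lt] at hk
    have hk1 : (k : ℝ) < 0 := by linarith [hk.1]
    have hk2 : (-1 : ℝ) < k := by linarith [hk.2]
    have e1 : k < 0 := by exact_mod_cast hk1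
    have e2 : -1 < k := by exact_mod_cast hk2
    omega
  have hcov : W ⊆ U₁ ∪ U₂ := by
    intro p hp
    obtain ⟨t, v, w, ⟨ht0, ht1⟩, hx, hy, hv, hw⟩ := near_Z (h p hp)
    obtain ⟨q, hq, hqp⟩ := hback p hp
    obtain ⟨t', v', w', ⟨ht0', ht1'⟩, hx', hy', hv', hw'⟩ := near_Z (h q hq)
    obtain ⟨k, hk⟩ := exists_int (u := w) (v := v') (by rw [← hx', ← hy, hqp])
    rw [abs_lt] at hv hw hv' hw'
    have hk1 : (k : ℝ) < 2 := by linarith [hv'.1, hv'.2, hw.1, hw.2]
    have hk2 : (-1 : ℝ) < k := by linarith [hv'.1, hv'.2, hw.1, hw.2]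
    have e1 : k < 2 := by exact_mod_cast hk1
    have e2 : -1 < k := by exact_mod_cast hk2
    have e3 : k = 0 ∨ k = 1 := by omega
    rcases e3 with rfl | rfl
    · left
      show dist p.1 _ < _
      rw [hx]
      apply dist_coe_lt
      rw [abs_lt]
      push_cast at hk
      constructor <;> linarith [hv'.1, hv'.2, hw.1, hw.2, hv.1, hv.2]
    · right
      show dist p.1 _ < _
      rw [hx]
      apply dist_coe_lt
      rw [abs_lt]
      push_cast at hk
      constructor <;> linarith [hv'.1, hv'.2, hw.1, hw.2, hv.1, hv.2]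
  rcases hW.isPreconnected.subset_or_subset hU₁ hU₂ hdisj hcov with hall | hall
  · -- everything in `U₁`
    have key : ∀ p ∈ W, ∃ t v w : ℝ, t ∈ Icc (0 : ℝ) 1 ∧ p.1 = (v : T) ∧ p.2 = (w : T) ∧
        |v - 4 * t / 5| < 1 / 200 ∧ |w - (t + 3 / 5)| < 1 / 200 ∧ v < 37 / 200 := by
      intro p hp
      obtain ⟨t, v, w, ⟨ht0, ht1⟩, hx, hy, hv, hw⟩ := near_Z (h p hp)
      refine ⟨t, v, w, ⟨ht0, ht1⟩, hx, hy, hv, hw, ?_⟩
      have hU : dist p.1 ((17 / 200 : ℝ) : T) < 1 / 10 := hall hp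
      rw [hx, dist_eq_norm, ← AddCircle.coe_sub] at hU
      obtain ⟨k, hk⟩ := exists_int_lt hU
      rw [abs_lt] at hk hv
      have hk1 : (k : ℝ) < 1 := by linarith [hv.1, hv.2, hk.1, hk.2]
      have e1 : k < 1 := by exact_mod_cast hk1
      have e2 : (k : ℝ) ≤ 0 := by exact_mod_cast (by omega : k ≤ 0)
      linarith [hk.2]
    obtain ⟨t, v, w, ⟨ht0, ht1⟩, hx, hy, hv, hw, hlt⟩ := key p0 hp0
    obtain ⟨q, hq, hqp⟩ := hback p0 hp0
    obtain ⟨t', v', w', ⟨ht0', ht1'⟩, hx', hy', hv', hw', hlt'⟩ := key q hq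
    obtain ⟨k, hk⟩ := exists_int (u := w) (v := v') (by rw [← hx', ← hy, hqp])
    rw [abs_lt] at hv hw hv' hw'
    have hk1 : (k : ℝ) < 1 := by linarith [hv'.1, hv'.2, hw.1, hw.2, hv.1, hv.2]
    have hk2 : (0 : ℝ) < k := by linarith [hv'.1, hv'.2, hw.1, hw.2, hv.1, hv.2]
    have e1 : k < 1 := by exact_mod_cast hk1
    have e2 : 0 < k := by exact_mod_cast hk2
    omega
  · -- everything in `U₂`
    have step : ∀ a : ℝ, 35 / 100 ≤ a →
        (∀ p ∈ W, ∃ t v w : ℝ, t ∈ Icc (0 : ℝ) 1 ∧ p.1 = (v : T) ∧ p.2 = (w : T) ∧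
        |v - 4 * t / 5| < 1 / 200 ∧ |w - (t + 3 / 5)| < 1 / 200 ∧ a < t) →
        (∀ p ∈ W, ∃ t v w : ℝ, t ∈ Icc (0 : ℝ) 1 ∧ p.1 = (v : T) ∧ p.2 = (w : T) ∧
        |v - 4 * t / 5| < 1 / 200 ∧ |w - (t + 3 / 5)| < 1 / 200 ∧ 4 * a / 5 + 39 / 100 < t) := by
      intro a ha hQ p hp
      obtain ⟨t, v, w, ⟨ht0, ht1⟩, hx, hy, hv, hw, hlt⟩ := hQ p hp
      obtain ⟨q, hq, hqp⟩ := hback p hp
      obtain ⟨t', v', w', ⟨ht0', ht1'⟩, hx', hy', hv', hw', hlt'⟩ := hQ q hq
      obtain ⟨k, hk⟩ := exists_int (u := w) (v := v') (by rw [← hx', ← hy, hqp])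
      refine ⟨t, v, w, ⟨ht0, ht1⟩, hx, hy, hv, hw, ?_⟩
      rw [abs_lt] at hv hw hv' hw'
      have hk2 : (0 : ℝ) < k := by linarith [hv'.1, hv'.2, hw.1, hw.2, hv.1, hv.2]
      have e2 : 0 < k := by exact_mod_cast hk2
      have e3 : (1 : ℝ) ≤ k := by exact_mod_cast (by omega : 1 ≤ k)
      linarith [hv'.1, hv'.2, hw.1, hw.2, hv.1, hv.2]
    have Q0 : ∀ p ∈ W, ∃ t v w : ℝ, t ∈ Icc (0 : ℝ) 1 ∧ p.1 = (v : T) ∧ p.2 = (w : T) ∧
        |v - 4 * t / 5| < 1 / 200 ∧ |w - (t + 3 / 5)| < 1 / 200 ∧ 35 / 100 < t := by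
      intro p hp
      obtain ⟨t, v, w, ⟨ht0, ht1⟩, hx, hy, hv, hw⟩ := near_Z (h p hp)
      refine ⟨t, v, w, ⟨ht0, ht1⟩, hx, hy, hv, hw, ?_⟩
      have hU : dist p.1 ((55 / 100 : ℝ) : T) < 26 / 100 := hall hp
      rw [hx, dist_eq_norm, ← AddCircle.coe_sub] at hU
      obtain ⟨k, hk⟩ := exists_int_lt hU
      rw [abs_lt] at hk hv
      have hk1 : (-1 : ℝ) < k := by linarith [hv.1, hv.2, hk.1, hk.2]
      have e1 : -1 < k := by exact_mod_cast hk1
      have e2 : (0 : ℝ) ≤ k := by exact_mod_cast (by omega : 0 ≤ k)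
      linarith [hk.1, hv.1, hv.2]
    have Q1 := step _ le_rfl Q0
    have Q2 := step _ (by norm_num) Q1
    have Q3 := step _ (by norm_num) Q2
    obtain ⟨t, v, w, ⟨ht0, ht1⟩, -, -, -, -, hlt⟩ := step _ (by norm_num) Q3 p0 hp0
    norm_num at hlt
    linarith


/-- The neighbourhoods of `Z` and of its mirror image are disjoint. -/
theorem disj_mirror {x y : T} (h1 : infDist (x, y) Z < 1 / 200) (h2 : infDist (y, x) Z < 1 / 200) :
    False := by
  obtain ⟨t, v, w, ⟨ht0, ht1⟩, hx, hy, hv, hw⟩ := near_Z h1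
  obtain ⟨t', v', w', ⟨ht0', ht1'⟩, hy', hx', hv', hw'⟩ := near_Z h2
  obtain ⟨m, hm⟩ := exists_int (u := v) (v := w') (by rw [← hx, hx'])
  obtain ⟨n, hn⟩ := exists_int (u := w) (v := v') (by rw [← hy, hy'])
  rw [abs_lt] at hv hw hv' hw'
  have m1 : (m : ℝ) < 1 := by linarith [hv.1, hv.2, hw'.1, hw'.2]
  have m2 : (-2 : ℝ) < m := by linarith [hv.1, hv.2, hw'.1, hw'.2]
  have n1 : (n : ℝ) < 2 := by linarith [hw.1, hw.2, hv'.1, hv'.2]
  have n2 : (-1 : ℝ) < n := by linarith [hw.1, hw.2, hv'.1, hv'.2]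
  have m1' : m < 1 := by exact_mod_cast m1
  have m2' : -2 < m := by exact_mod_cast m2
  have n1' : n < 2 := by exact_mod_cast n1
  have n2' : -1 < n := by exact_mod_cast n2
  have hm' : m = -1 ∨ m = 0 := by omega
  have hn' : n = 0 ∨ n = 1 := by omega
  rcases hm' with rfl | rfl <;> rcases hn' with rfl | rfl <;> push_cast at hm hn <;>
    linarith [hv.1, hv.2, hw.1, hw.2, hv'.1, hv'.2, hw'.1, hw'.2]

theorem span_bound {ε : ℝ} {W : Set (Cm × Cm)} (hW : IsConnected W)
    (heq : Prod.fst '' W = Prod.snd '' W) (hε : ∀ p ∈ W, ε ≤ dist p.1 p.2) : ε ≤ 5 / 4 := by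
  by_contra hcon
  push Not at hcon
  let e : Cm × Cm → T × T := fun p => (homeo.symm p.1, homeo.symm p.2)
  have he : Continuous e := (homeo.symm.continuous.comp continuous_fst).prodMk
    (homeo.symm.continuous.comp continuous_snd)
  let V : Set (T × T) := e '' W
  have hV : IsConnected V := hW.image e he.continuousOn
  have hfst : Prod.fst '' V = homeo.symm '' (Prod.fst '' W) := by
    simp only [V, image_image]; rfl
  have hsnd : Prod.snd '' V = homeo.symm '' (Prod.snd '' W) := by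
    simp only [V, image_image]; rfl
  have hVeq : Prod.fst '' V = Prod.snd '' V := by rw [hfst, hsnd, heq]
  let A : Set (T × T) := {p | infDist p Z < 1 / 200}
  let B : Set (T × T) := {p | infDist p.swap Z < 1 / 200}
  have hA : IsOpen A := isOpen_lt (continuous_infDist_pt Z) continuous_const
  have hB : IsOpen B :=
    isOpen_lt ((continuous_infDist_pt Z).comp continuous_swap) continuous_const
  have hAB : Disjoint A B := by
    rw [disjoint_left]
    rintro ⟨x, y⟩ h1 h2
    exact disj_mirror h1 h2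
  have hcov : V ⊆ A ∪ B := by
    rintro _ ⟨p, hp, rfl⟩
    have h1 : 5 / 4 < d p.1 p.2 := hcon.trans_le (hε p hp)
    have h2 : 0 < φ p.1 p.2 := by
      unfold d at h1
      have := min_le_right (100 * dist (α := T) p.1 p.2) 1
      linarith
    have h3 := φ_pos h2
    unfold δ at h3
    rcases min_lt_iff.1 h3 with h | h
    · left; exact h
    · right; exact h
  rcases hV.isPreconnected.subset_or_subset hA hB hAB hcov with h | h
  · exact no_equal hV hVeq (fun p hp => h hp)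
  · have hV' : IsConnected (Prod.swap '' V) := hV.image _ continuous_swap.continuousOn
    refine no_equal hV' ?_ ?_
    · simp only [image_image, Prod.fst_swap, Prod.snd_swap]
      exact hVeq.symm
    · rintro _ ⟨p, hp, rfl⟩
      exact h hp

/-- The mirror image of `Z`, whose first projection is onto. -/
def Zm : Set (Cm × Cm) :=
  (fun t : ℝ => (toC ((t + 3 / 5 : ℝ) : T), toC ((4 * t / 5 : ℝ) : T))) '' Icc 0 1

theorem Zm_connected : IsConnected Zm := by
  refine (isConnected_Icc zero_le_one).image _ (Continuous.continuousOn ?_)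
  refine Continuous.prodMk ?_ ?_
  · exact continuous_toC.comp ((AddCircle.continuous_mk' 1).comp (by fun_prop))
  · exact continuous_toC.comp ((AddCircle.continuous_mk' 1).comp (by fun_prop))

theorem Zm_surj (x : Cm) : x ∈ Prod.fst '' Zm := by
  obtain ⟨u, hu⟩ := QuotientAddGroup.mk_surjective (show T from x)
  have hu' : ((u : ℝ) : T) = x := hu
  refine ⟨_, ⟨Int.fract (u - 3 / 5), ⟨Int.fract_nonneg _, (Int.fract_lt_one _).le⟩, rfl⟩, ?_⟩
  show (((Int.fract (u - 3 / 5) + 3 / 5 : ℝ)) : T) = x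
  rw [← hu', ← sub_eq_zero, ← AddCircle.coe_sub, AddCircle.coe_eq_zero_iff]
  refine ⟨-⌊u - 3 / 5⌋, ?_⟩
  have hfl := Int.floor_add_fract (u - 3 / 5)
  rw [zsmul_eq_mul]
  push_cast
  linarith

theorem Zm_dist (p : Cm × Cm) (hp : p ∈ Zm) : 3 / 2 ≤ dist p.1 p.2 := by
  obtain ⟨t, ht, rfl⟩ := hp
  show 3 / 2 ≤ d ((t + 3 / 5 : ℝ) : T) ((4 * t / 5 : ℝ) : T)
  have h0 : δ ((t + 3 / 5 : ℝ) : T) ((4 * t / 5 : ℝ) : T) = 0 := by
    apply le_antisymm _ (δ_nonneg _ _)
    unfold δ
    refine (min_le_right _ _).trans ?_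
    have : ((((4 * t / 5 : ℝ) : T), ((t + 3 / 5 : ℝ) : T)) : T × T) ∈ Z := ⟨t, ht, rfl⟩
    rw [infDist_zero_of_mem this]
  have h1 := far_of_δ (x := ((t + 3 / 5 : ℝ) : T)) (y := ((4 * t / 5 : ℝ) : T))
    (by rw [h0]; norm_num)
  unfold d φ
  rw [h0, min_eq_right (by linarith)]
  norm_num

theorem main : ¬ (∀ (X : Type) [MetricSpace X] (C : Set X),
      Nonempty (↥C ≃ₜ ↥(Metric.sphere (0 : ℂ) 1)) →
      sSup {ε : ℝ | ∃ Z : Set (X × X), Z ⊆ C ×ˢ C ∧ IsConnected Z ∧
          Prod.fst '' Z = Prod.snd '' Z ∧ ∀ p ∈ Z, ε ≤ dist p.1 p.2}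
        = sSup {ε : ℝ | ∃ Z : Set (X × X), Z ⊆ C ×ˢ C ∧ IsConnected Z ∧
          Prod.snd '' Z ⊆ Prod.fst '' Z ∧ ∀ p ∈ Z, ε ≤ dist p.1 p.2}) := by
  intro H
  have h := H Cm univ curve
  have h1 : sSup {ε : ℝ | ∃ Z : Set (Cm × Cm), Z ⊆ univ ×ˢ univ ∧ IsConnected Z ∧
          Prod.fst '' Z = Prod.snd '' Z ∧ ∀ p ∈ Z, ε ≤ dist p.1 p.2} ≤ 5 / 4 := by
    apply Real.sSup_le
    · rintro ε ⟨W, -, hW, heq, hε⟩
      exact span_bound hW heq hε
    · norm_num
  have h2 : 3 / 2 ≤ sSup {ε : ℝ | ∃ Z : Set (Cm × Cm), Z ⊆ univ ×ˢ univ ∧ IsConnected Z ∧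
          Prod.snd '' Z ⊆ Prod.fst '' Z ∧ ∀ p ∈ Z, ε ≤ dist p.1 p.2} := by
    apply le_csSup
    · refine ⟨3 / 2, ?_⟩
      rintro ε ⟨W, -, hW, -, hε⟩
      obtain ⟨p, hp⟩ := hW.nonempty
      exact (hε p hp).trans (d_le _ _)
    · refine ⟨Zm, by simp, Zm_connected, fun x _ => Zm_surj x, Zm_dist⟩
  rw [h] at h1
  linarith

end Pool.Agent.X197.SpanCircle
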