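import Mathlib
import Pool.Agent.Helper206.BoxS.SphereSC

/-!
# A non-unicoherent Peano continuum with a unicoherent locally homeomorphic image

`X = S² × S¹` is not unicoherent; its quotient `Y` by the free involution `(v, z) ↦ (-v, z⁻¹)`
(this is `ℝP³ # ℝP³`) is unicoherent, since every map of `Y` into the circle lifts to `ℝ`.
-/

open Set Topology Metric Filter

namespace Pool.Agent.X197.Unicoh

/-- The orbit map of a free involution of a compact Hausdorff space is a local homeomorphism. -/
theorem isLocalHomeomorph_of_involution {X Y : Type*} [TopologicalSpace X] [CompactSpace X]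
    [T2Space X] [TopologicalSpace Y] [T2Space Y] (f : X → Y) (hf : Continuous f)
    (hs : Function.Surjective f) (σ : X → X) (hσ : Continuous σ) (hσσ : ∀ x, σ (σ x) = x)
    (hfree : ∀ x, σ x ≠ x) (hfib : ∀ x y, f x = f y ↔ (y = x ∨ y = σ x)) :
    IsLocalHomeomorph f := by
  have hq : IsQuotientMap f := hf.isClosedMap.isQuotientMap hf hs
  have hopen : IsOpenMap f := by
    intro W hW
    rw [← hq.isOpen_preimage]
    have : f ⁻¹' (f '' W) = W ∪ σ ⁻¹' W := by
      ext x
      constructor
      · rintro ⟨w, hw, hwx⟩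
        rcases (hfib w x).1 hwx with h | h
        · left; rwa [h]
        · right
          show σ x ∈ W
          rwa [h, hσσ]
      · rintro (h | h)
        · exact ⟨x, h, rfl⟩
        · exact ⟨σ x, h, (hfib (σ x) x).2 (Or.inr (hσσ x).symm)⟩
    rw [this]
    exact hW.union (hW.preimage hσ)
  rw [isLocalHomeomorph_iff_isOpenEmbedding_restrict]
  intro x
  obtain ⟨U, V, hU, hV, hxU, hxV, hUV⟩ := t2_separation (hfree x).symm
  set W := U ∩ σ ⁻¹' V with hW
  have hWo : IsOpen W := hU.inter (hV.preimage hσ)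
  refine ⟨W, hWo.mem_nhds ⟨hxU, hxV⟩, ?_⟩
  refine IsOpenEmbedding.of_continuous_injective_isOpenMap (hf.comp continuous_subtype_val) ?_ ?_
  · rintro ⟨a, ha⟩ ⟨b, hb⟩ hab
    apply Subtype.ext
    rcases (hfib a b).1 hab with h | h
    · exact h.symm
    · exfalso
      have h1 : b ∈ V := by rw [h]; exact ha.2
      exact disjoint_left.1 hUV hb.1 h1
  · exact hopen.comp hWo.isOpenEmbedding_subtypeVal.isOpenMap

/-- If every map to the circle lifts to the line, then the space is unicoherent. -/
theorem unicoherent_of_lift {Y : Type*} [TopologicalSpace Y] [NormalSpace Y]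
    (hY : ∀ g : C(Y, AddCircle (1 : ℝ)), ∃ ψ : C(Y, ℝ), ∀ y, ((ψ y : ℝ) : AddCircle (1 : ℝ)) = g y)
    {A B : Set Y} (hA : IsClosed A) (hB : IsClosed B) (hAc : IsPreconnected A)
    (hBc : IsPreconnected B) (hAB : A ∪ B = univ) : IsPreconnected (A ∩ B) := by
  rw [isPreconnected_iff_subset_of_fully_disjoint_closed (hA.inter hB)]
  intro u v hu hv huv hd
  by_contra hcon
  push Not at hcon
  obtain ⟨h1, h2⟩ := hcon
  obtain ⟨q, hqAB, hqu⟩ := not_subset.1 h1
  obtain ⟨p, hpAB, hpv⟩ := not_subset.1 h2
  have hqv : q ∈ v := (huv hqAB).resolve_left hqu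
  have hpu : p ∈ u := (huv hpAB).resolve_right hpv
  obtain ⟨h, h0, h1, -⟩ := exists_continuous_zero_one_of_isClosed hu hv hd
  classical
  let g : Y → AddCircle (1 : ℝ) := fun y =>
    if y ∈ A then ((h y / 2 : ℝ) : AddCircle (1 : ℝ)) else ((-(h y / 2) : ℝ) : AddCircle (1 : ℝ))
  have hcoe : Continuous fun t : ℝ => (t : AddCircle (1 : ℝ)) := AddCircle.continuous_mk' 1
  have hgA : ∀ y ∈ A, g y = ((h y / 2 : ℝ) : AddCircle (1 : ℝ)) := fun y hy => if_pos hy
  have hgB : ∀ y ∈ B, g y = ((-(h y / 2) : ℝ) : AddCircle (1 : ℝ)) := by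
    intro y hy
    by_cases hyA : y ∈ A
    · rw [hgA y hyA]
      rcases huv ⟨hyA, hy⟩ with hyu | hyv
      · rw [h0 hyu]; simp
      · rw [h1 hyv]
        have : ((1 / 2 : ℝ) : AddCircle (1 : ℝ)) - ((-(1 / 2) : ℝ) : AddCircle (1 : ℝ)) = 0 := by
          rw [← AddCircle.coe_sub, AddCircle.coe_eq_zero_iff]
          exact ⟨1, by norm_num⟩
        simpa using sub_eq_zero.1 this
    · exact if_neg hyA
  have hgc : Continuous g := by
    rw [← continuousOn_univ, ← hAB]
    refine ContinuousOn.union_of_isClosed ?_ ?_ hA hB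
    · refine ContinuousOn.congr (f := fun y => ((h y / 2 : ℝ) : AddCircle (1 : ℝ))) ?_ hgA
      exact (hcoe.comp (h.continuous.div_const 2)).continuousOn
    · refine ContinuousOn.congr (f := fun y => ((-(h y / 2) : ℝ) : AddCircle (1 : ℝ))) ?_ hgB
      exact (hcoe.comp (h.continuous.div_const 2).neg).continuousOn
  obtain ⟨ψ, hψ⟩ := hY ⟨g, hgc⟩
  have key : ∀ (S : Set Y) (k : Y → ℝ), IsPreconnected S → Continuous k →
      (∀ y ∈ S, ((k y : ℝ) : AddCircle (1 : ℝ)) = 0) → ∀ a ∈ S, ∀ b ∈ S, k a = k b := by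
    intro S k hS hk hk0 a ha b hb
    refine hS.constant_of_mapsTo (T := range ((↑) : ℤ → ℝ)) ?_ hk.continuousOn ?_ ha hb
    · exact Int.isClosedEmbedding_coe_real.isEmbedding.isInducing.isDiscrete_range
    · intro y hy
      obtain ⟨n, hn⟩ := (AddCircle.coe_eq_zero_iff (1 : ℝ)).1 (hk0 y hy)
      exact ⟨n, by rw [← hn]; simp⟩
  have kA := key A (fun y => ψ y - h y / 2) hAc (ψ.continuous.sub (h.continuous.div_const 2))
    (fun y hy => by
      rw [AddCircle.coe_sub, hψ y]
      show g y - _ = 0
      rw [hgA y hy, sub_self]) p hpAB.1 q hqAB.1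
  have kB := key B (fun y => ψ y + h y / 2) hBc (ψ.continuous.add (h.continuous.div_const 2))
    (fun y hy => by
      rw [AddCircle.coe_add, hψ y]
      show g y + _ = 0
      rw [hgB y hy, ← AddCircle.coe_add]
      simp) p hpAB.2 q hqAB.2
  have hp0 : h p = 0 := h0 hpu
  have hq1 : h q = 1 := h1 hqv
  simp only [hp0, hq1] at kA kB
  linarith


/-- The product of two simply connected spaces is simply connected. -/
theorem simplyConnected_prod (X Y : Type*) [TopologicalSpace X] [TopologicalSpace Y]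
    [SimplyConnectedSpace X] [SimplyConnectedSpace Y] : SimplyConnectedSpace (X × Y) := by
  rw [simply_connected_iff_paths_homotopic]
  refine ⟨inferInstance, fun a b => ⟨fun p q => ?_⟩⟩
  obtain ⟨a1, a2⟩ := a
  obtain ⟨b1, b2⟩ := b
  rw [← Path.Homotopic.prod_projLeft_projRight p, ← Path.Homotopic.prod_projLeft_projRight q]
  congr 1
  · exact Subsingleton.elim _ _
  · exact Subsingleton.elim _ _

/-- The two-sphere. -/
abbrev S2 : Type := sphere (0 : EuclideanSpace ℝ (Fin 3)) 1

instance : SimplyConnectedSpace S2 :=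
  Pool.Agent.Helper206.BoxS.Sph.simplyConnected_sphere (by simp)

instance : Fact (Module.finrank ℝ (EuclideanSpace ℝ (Fin 3)) = 2 + 1) := ⟨by simp⟩

instance : LocallyPathConnectedSpace S2 :=
  ChartedSpace.locallyPathConnectedSpace (EuclideanSpace ℝ (Fin 2)) S2

instance : LocallyPathConnectedSpace Circle := by
  haveI : Fact (Module.finrank ℝ ℂ = 1 + 1) := ⟨by simp⟩
  exact ChartedSpace.locallyPathConnectedSpace (EuclideanSpace ℝ (Fin 1)) Circle

/-- The three-manifold `S² × S¹`. -/
abbrev X : Type := S2 × Circle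

instance : ConnectedSpace Circle := by
  have h : range Circle.exp = univ := Circle.exp_surjective.range_eq
  rw [connectedSpace_iff_univ, ← h]
  exact isConnected_range Circle.exp.continuous

instance : ConnectedSpace X := inferInstance
instance : CompactSpace X := inferInstance
instance : LocallyConnectedSpace X := inferInstance

/-- The invariant functions of the involution `(v, z) ↦ (-v, z⁻¹)`. -/
def F (x : X) : (Fin 3 → Fin 3 → ℝ) × ℝ × (Fin 3 → ℝ) :=
  (fun i j => x.1.1 i * x.1.1 j, (x.2 : ℂ).re, fun i => x.1.1 i * (x.2 : ℂ).im)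

/-- The involution. -/
noncomputable def σ (x : X) : X := (-x.1, x.2⁻¹)

theorem continuous_F : Continuous F := by
  have hv : ∀ i, Continuous fun x : X => x.1.1 i := fun i =>
    (EuclideanSpace.proj i : EuclideanSpace ℝ (Fin 3) →L[ℝ] ℝ).continuous.comp
      (continuous_subtype_val.comp continuous_fst)
  have hz : Continuous fun x : X => (x.2 : ℂ) := continuous_subtype_val.comp continuous_snd
  refine Continuous.prodMk ?_ (Continuous.prodMk ?_ ?_)
  · exact continuous_pi fun i => continuous_pi fun j => (hv i).mul (hv j)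
  · exact Complex.continuous_re.comp hz
  · exact continuous_pi fun i => (hv i).mul (Complex.continuous_im.comp hz)

theorem continuous_σ : Continuous σ :=
  (continuous_fst.neg).prodMk (continuous_snd.inv)

theorem σσ (x : X) : σ (σ x) = x := by
  simp [σ]

theorem exists_ne_zero (v : S2) : ∃ i, v.1 i ≠ 0 := by
  by_contra h
  push Not at h
  have h0 : v.1 = 0 := by ext i; exact h i
  have h1 := v.2
  rw [mem_sphere_zero_iff_norm, h0, norm_zero] at h1
  exact zero_ne_one h1

theorem σ_ne (x : X) : σ x ≠ x := by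
  intro h
  have h1 : (-x.1 : S2) = x.1 := congrArg Prod.fst h
  obtain ⟨i, hi⟩ := exists_ne_zero x.1
  have h2 : (-x.1 : S2).1 i = x.1.1 i := by rw [h1]
  have h3 : (-x.1 : S2).1 i = -(x.1.1 i) := rfl
  rw [h3] at h2
  exact hi (by linarith)

theorem F_σ (x : X) : F (σ x) = F x := by
  have h1 : ∀ i, (σ x).1.1 i = -(x.1.1 i) := fun i => rfl
  have h2 : ((σ x).2 : ℂ) = (starRingEnd ℂ) (x.2 : ℂ) := by
    show ((x.2⁻¹ : Circle) : ℂ) = _
    rw [Circle.coe_inv_eq_conj]
  unfold F
  rw [h2]
  simp only [h1, Complex.conj_re, Complex.conj_im]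
  refine Prod.ext ?_ (Prod.ext rfl ?_)
  · funext i j; ring
  · funext i; ring

theorem F_eq (x y : X) : F x = F y ↔ (y = x ∨ y = σ x) := by
  constructor
  · intro h
    have ha : ∀ i j, x.1.1 i * x.1.1 j = y.1.1 i * y.1.1 j := fun i j =>
      congrFun (congrFun (congrArg Prod.fst h) i) j
    have hb : (x.2 : ℂ).re = (y.2 : ℂ).re := congrArg (fun q => q.2.1) h
    have hc : ∀ i, x.1.1 i * (x.2 : ℂ).im = y.1.1 i * (y.2 : ℂ).im := fun i =>
      congrFun (congrArg (fun q => q.2.2) h) i
    obtain ⟨i, hi⟩ := exists_ne_zero x.1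
    have hsq : (y.1.1 i - x.1.1 i) * (y.1.1 i + x.1.1 i) = 0 := by
      have := ha i i
      linear_combination -this
    rcases mul_eq_zero.1 hsq with h1 | h1
    · left
      have h1' : y.1.1 i = x.1.1 i := by linarith
      have hv : y.1 = x.1 := by
        apply Subtype.ext
        ext j
        have := ha i j
        rw [h1'] at this
        exact (mul_left_cancel₀ hi this).symm
      have hz : y.2 = x.2 := by
        apply Circle.ext
        apply Complex.ext hb.symm
        have := hc i
        rw [h1'] at this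
        exact (mul_left_cancel₀ hi this).symm
      exact Prod.ext hv hz
    · right
      have h1' : y.1.1 i = -x.1.1 i := by linarith
      have hv : y.1 = -x.1 := by
        apply Subtype.ext
        ext j
        show y.1.1 j = -(x.1.1 j)
        have := ha i j
        rw [h1'] at this
        have h2 : x.1.1 i * (y.1.1 j + x.1.1 j) = 0 := by linear_combination this
        have := (mul_eq_zero.1 h2).resolve_left hi
        linarith
      have hz : y.2 = x.2⁻¹ := by
        apply Circle.ext
        rw [Circle.coe_inv_eq_conj]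
        apply Complex.ext
        · rw [Complex.conj_re]; exact hb.symm
        · rw [Complex.conj_im]
          have := hc i
          rw [h1'] at this
          have h2 : x.1.1 i * ((y.2 : ℂ).im + (x.2 : ℂ).im) = 0 := by linear_combination this
          have := (mul_eq_zero.1 h2).resolve_left hi
          linarith
      exact Prod.ext hv hz
  · rintro (rfl | rfl)
    · rfl
    · exact (F_σ x).symm

/-- The quotient three-manifold `ℝP³ # ℝP³`. -/
abbrev Y : Type := range F

/-- the quotient map -/
def f : X → Y := rangeFactorization F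

theorem continuous_f : Continuous f := continuous_F.subtype_mk _

theorem surjective_f : Function.Surjective f := rangeFactorization_surjective

theorem f_eq (x y : X) : f x = f y ↔ (y = x ∨ y = σ x) := by
  rw [← F_eq]
  exact Subtype.ext_iff

theorem isLocalHomeomorph_f : IsLocalHomeomorph f :=
  isLocalHomeomorph_of_involution f continuous_f surjective_f σ continuous_σ σσ σ_ne f_eq

instance : CompactSpace Y := isCompact_iff_compactSpace.1 (isCompact_range continuous_F)

/-- Every map of `Y` to the circle lifts to the line. -/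
theorem lift_Y (g : C(Y, AddCircle (1 : ℝ))) :
    ∃ ψ : C(Y, ℝ), ∀ y, ((ψ y : ℝ) : AddCircle (1 : ℝ)) = g y := by
  haveI : SimplyConnectedSpace (S2 × ℝ) := simplyConnected_prod _ _
  let q : C(S2 × ℝ, Y) := ⟨fun w => f (w.1, Circle.exp w.2), continuous_f.comp
    (continuous_fst.prodMk (Circle.exp.continuous.comp continuous_snd))⟩
  have hq : ∀ v t, q (v, t) = f (v, Circle.exp t) := fun _ _ => rfl
  obtain ⟨v0⟩ : Nonempty S2 := inferInstance
  obtain ⟨e0, he0⟩ := QuotientAddGroup.mk_surjective ((g.comp q) (v0, 0))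
  obtain ⟨φ, ⟨-, hφ⟩, -⟩ := (AddCircle.isCoveringMap_coe (1 : ℝ)).existsUnique_continuousMap_lifts
    (g.comp q) (v0, 0) e0 he0
  have hφ' : ∀ v t, ((φ (v, t) : ℝ) : AddCircle (1 : ℝ)) = g (f (v, Circle.exp t)) := fun v t =>
    congrFun hφ (v, t)
  have hconst : ∀ h : S2 × ℝ → S2 × ℝ, Continuous h →
      (∀ w, q (h w) = q w) → ∃ c : ℝ, ∀ w, φ (h w) = φ w + c := by
    intro h hh hqh
    have h1 : ∀ a b, φ (h a) - φ a = φ (h b) - φ b := by
      intro a b
      refine (isPreconnected_univ (α := S2 × ℝ)).constant_of_mapsTo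
        (T := range ((↑) : ℤ → ℝ)) (f := fun w => φ (h w) - φ w) ?_ ?_ ?_ trivial trivial
      · exact Int.isClosedEmbedding_coe_real.isEmbedding.isInducing.isDiscrete_range
      · exact ((φ.continuous.comp hh).sub φ.continuous).continuousOn
      · intro w _
        have h2 : ((φ (h w) - φ w : ℝ) : AddCircle (1 : ℝ)) = 0 := by
          rw [AddCircle.coe_sub, sub_eq_zero]
          have e1 : ((φ (h w) : ℝ) : AddCircle (1 : ℝ)) = g (q (h w)) := congrFun hφ (h w)
          have e2 : ((φ w : ℝ) : AddCircle (1 : ℝ)) = g (q w) := congrFun hφ w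
          rw [e1, e2, hqh]
        obtain ⟨n, hn⟩ := (AddCircle.coe_eq_zero_iff (1 : ℝ)).1 h2
        exact ⟨n, by simpa using hn⟩
    refine ⟨φ (h (v0, 0)) - φ (v0, 0), fun w => ?_⟩
    have := h1 w (v0, 0)
    linarith
  obtain ⟨c, hc⟩ := hconst (fun w => (-w.1, -w.2)) (continuous_fst.neg.prodMk continuous_snd.neg) (by
    rintro ⟨v, t⟩
    show f (-v, Circle.exp (-t)) = f (v, Circle.exp t)
    rw [Circle.exp_neg]
    exact ((f_eq (v, Circle.exp t) _).2 (Or.inr rfl)).symm)
  obtain ⟨d, hd⟩ := hconst (fun w => (w.1, w.2 + 2 * Real.pi))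
    (continuous_fst.prodMk (continuous_snd.add continuous_const)) (by
    rintro ⟨v, t⟩
    show f (v, Circle.exp (t + 2 * Real.pi)) = f (v, Circle.exp t)
    rw [Circle.exp_add, Circle.exp_two_pi, mul_one])
  have hc0 : c = 0 := by
    have h1 := hc (v0, 0)
    have h2 := hc (-v0, -0)
    simp only [neg_neg] at h1 h2
    linarith
  have hd0 : d = 0 := by
    have h1 := hd (v0, 0)
    have h2 := hc (v0, 0 + 2 * Real.pi)
    have h3 := hd (-v0, -(0 + 2 * Real.pi))
    have h4 := hc (v0, 0)
    simp only [neg_add_cancel] at h3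
    have e : (-(0 : ℝ)) = -(0 + 2 * Real.pi) + 2 * Real.pi := by ring
    simp only at h1 h2 h3 h4
    rw [e] at h4
    linarith
  subst hc0 hd0
  simp only [add_zero] at hc hd
  -- periodicity
  have hper : ∀ (n : ℤ) (v : S2) (t : ℝ), φ (v, t + n * (2 * Real.pi)) = φ (v, t) := by
    intro n v t
    induction n using Int.induction_on with
    | zero => simp
    | succ i ih =>
      rw [← ih, ← hd (v, t + (i : ℤ) * (2 * Real.pi))]
      congr 2
      push_cast
      ring
    | pred i ih =>
      rw [← ih, ← hd (v, t + ((-(i : ℤ) - 1 : ℤ) : ℝ) * (2 * Real.pi))]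
      congr 2
      push_cast
      ring
  have hfib : ∀ a b : S2 × ℝ, q a = q b → φ a = φ b := by
    rintro ⟨v, t⟩ ⟨w, s⟩ hab
    rcases (f_eq _ _).1 hab with h | h
    · have h1 : w = v := congrArg Prod.fst h
      have h2 : Circle.exp s = Circle.exp t := congrArg Prod.snd h
      obtain ⟨m, hm⟩ := Circle.exp_eq_exp.1 h2
      rw [h1, hm, hper]
    · have h1 : w = -v := congrArg Prod.fst h
      have h2 : Circle.exp s = (Circle.exp t)⁻¹ := congrArg Prod.snd h
      rw [← Circle.exp_neg] at h2
      obtain ⟨m, hm⟩ := Circle.exp_eq_exp.1 h2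
      rw [h1, hm, hper]
      exact (hc (v, t)).symm
  -- the compact piece
  let K := S2 × Icc (0 : ℝ) (2 * Real.pi)
  let r : K → Y := fun w => q (w.1, w.2.1)
  have hrc : Continuous r :=
    q.continuous.comp (continuous_fst.prodMk (continuous_subtype_val.comp continuous_snd))
  have hrs : Function.Surjective r := by
    intro y
    obtain ⟨⟨v, z⟩, rfl⟩ := surjective_f y
    obtain ⟨t, rfl⟩ := Circle.exp_surjective z
    have h2pi : (0 : ℝ) < 2 * Real.pi := Real.two_pi_pos
    refine ⟨(v, ⟨toIcoMod h2pi 0 t, ?_⟩), ?_⟩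
    · have := toIcoMod_mem_Ico h2pi 0 t
      exact ⟨this.1, by linarith [this.2]⟩
    · show f (v, Circle.exp (toIcoMod h2pi 0 t)) = f (v, Circle.exp t)
      congr 2
      rw [Circle.exp_eq_exp]
      refine ⟨-toIcoDiv h2pi 0 t, ?_⟩
      rw [toIcoMod]
      push_cast
      rw [zsmul_eq_mul]
      ring
  have hrq : IsQuotientMap r := hrc.isClosedMap.isQuotientMap hrc hrs
  choose s hs using hrs
  refine ⟨⟨fun y => φ ((s y).1, (s y).2.1), ?_⟩, ?_⟩
  · rw [hrq.continuous_iff]
    have : (fun y => φ ((s y).1, ((s y).2 : ℝ))) ∘ r = fun w : K => φ (w.1, w.2.1) := by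
      funext w
      exact hfib _ _ (hs (r w))
    rw [this]
    exact φ.continuous.comp (continuous_fst.prodMk (continuous_subtype_val.comp continuous_snd))
  · intro y
    show ((φ ((s y).1, (s y).2.1) : ℝ) : AddCircle (1 : ℝ)) = g y
    rw [hφ']
    exact congrArg g (hs y)

theorem Y_unicoherent {A B : Set Y} (hA : IsClosed A) (hB : IsClosed B) (hAc : IsConnected A)
    (hBc : IsConnected B) (hAB : A ∪ B = univ) : IsConnected (A ∩ B) := by
  refine ⟨?_, unicoherent_of_lift lift_Y hA hB hAc.2 hBc.2 hAB⟩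
  haveI : ConnectedSpace Y := by
    rw [connectedSpace_iff_univ, ← surjective_f.range_eq]
    exact isConnected_range continuous_f
  have := (isPreconnected_closed_iff.1 (isPreconnected_univ (α := Y))) A B hA hB
    (by rw [hAB]) (by simpa using hAc.1) (by simpa using hBc.1)
  simpa using this

/-- `S² × S¹` is not unicoherent. -/
theorem X_not_unicoherent : ∃ A B : Set X, IsClosed A ∧ IsClosed B ∧ IsConnected A ∧
    IsConnected B ∧ A ∪ B = univ ∧ ¬ IsConnected (A ∩ B) := by
  have hpi := Real.pi_pos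
  let P : Set Circle := {z | 0 ≤ (z : ℂ).im}
  let Q : Set Circle := {z | (z : ℂ).im ≤ 0}
  have hzc : Continuous fun z : Circle => (z : ℂ).im :=
    Complex.continuous_im.comp continuous_subtype_val
  have hP : P = Circle.exp '' Icc 0 Real.pi := by
    ext z
    constructor
    · intro hz
      have hz' : 0 ≤ (z : ℂ).im := hz
      refine ⟨Complex.arg z, ⟨Complex.arg_nonneg_iff.2 hz', Complex.arg_le_pi _⟩, ?_⟩
      exact Circle.exp_arg z
    · rintro ⟨t, ht, rfl⟩
      show 0 ≤ ((Circle.exp t : Circle) : ℂ).im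
      rw [Circle.coe_exp, Complex.exp_ofReal_mul_I_im]
      exact Real.sin_nonneg_of_mem_Icc ht
  have hQ : Q = Circle.exp '' Icc (-Real.pi) 0 := by
    ext z
    constructor
    · intro hz
      have hz' : (z : ℂ).im ≤ 0 := hz
      rcases hz'.lt_or_eq with h | h
      · refine ⟨Complex.arg z, ⟨(Complex.neg_pi_lt_arg _).le, (Complex.arg_neg_iff.2 h).le⟩, ?_⟩
        exact Circle.exp_arg z
      · -- real points
        have hn : Complex.normSq (z : ℂ) = 1 := Circle.normSq_coe z
        rw [Complex.normSq_apply, h] at hn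
        have hre : (z : ℂ).re = 1 ∨ (z : ℂ).re = -1 := by
          have : ((z : ℂ).re - 1) * ((z : ℂ).re + 1) = 0 := by linear_combination hn
          rcases mul_eq_zero.1 this with h | h
          · left; linarith
          · right; linarith
        rcases hre with hre | hre
        · refine ⟨0, ⟨by linarith, le_rfl⟩, ?_⟩
          apply Circle.ext
          apply Complex.ext <;> simp [hre, h]
        · refine ⟨-Real.pi, ⟨le_rfl, by linarith⟩, ?_⟩
          apply Circle.ext
          rw [Circle.coe_exp]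
          apply Complex.ext
          · rw [Complex.exp_ofReal_mul_I_re, hre]; simp
          · rw [Complex.exp_ofReal_mul_I_im, h]; simp
    · rintro ⟨t, ht, rfl⟩
      show ((Circle.exp t : Circle) : ℂ).im ≤ 0
      rw [Circle.coe_exp, Complex.exp_ofReal_mul_I_im]
      exact Real.sin_nonpos_of_nonpos_of_neg_pi_le ht.2 ht.1
  have hPc : IsConnected P := by
    rw [hP]; exact (isConnected_Icc hpi.le).image _ Circle.exp.continuous.continuousOn
  have hQc : IsConnected Q := by
    rw [hQ]; exact (isConnected_Icc (by linarith)).image _ Circle.exp.continuous.continuousOn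
  refine ⟨univ ×ˢ P, univ ×ˢ Q, isClosed_univ.prod (isClosed_le continuous_const hzc),
    isClosed_univ.prod (isClosed_le hzc continuous_const), isConnected_univ.prod hPc,
    isConnected_univ.prod hQc, ?_, ?_⟩
  · rw [← prod_union]
    have : P ∪ Q = univ := by
      ext z
      simp only [P, Q, mem_union, mem_setOf_eq, mem_univ, iff_true]
      exact le_total _ _
    rw [this, univ_prod_univ]
  · rintro ⟨-, hpre⟩
    have hre : Continuous fun x : X => (x.2 : ℂ).re :=
      Complex.continuous_re.comp (continuous_subtype_val.comp continuous_snd)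
    have himg := hpre.image _ hre.continuousOn
    obtain ⟨v0⟩ : Nonempty S2 := inferInstance
    have h1 : (1 : ℝ) ∈ (fun x : X => (x.2 : ℂ).re) '' ((univ ×ˢ P) ∩ (univ ×ˢ Q)) :=
      ⟨(v0, 1), ⟨⟨trivial, by simp [P]⟩, ⟨trivial, by simp [Q]⟩⟩, by simp⟩
    have h2 : (-1 : ℝ) ∈ (fun x : X => (x.2 : ℂ).re) '' ((univ ×ˢ P) ∩ (univ ×ˢ Q)) := by
      refine ⟨(v0, Circle.exp Real.pi), ⟨⟨trivial, ?_⟩, ⟨trivial, ?_⟩⟩, ?_⟩
      · show 0 ≤ ((Circle.exp Real.pi : Circle) : ℂ).im
        rw [Circle.coe_exp, Complex.exp_ofReal_mul_I_im]; simp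
      · show ((Circle.exp Real.pi : Circle) : ℂ).im ≤ 0
        rw [Circle.coe_exp, Complex.exp_ofReal_mul_I_im]; simp
      · show ((Circle.exp Real.pi : Circle) : ℂ).re = -1
        rw [Circle.coe_exp, Complex.exp_ofReal_mul_I_re]; simp
    obtain ⟨x, ⟨⟨-, hx1⟩, ⟨-, hx2⟩⟩, hx0⟩ := himg.ordConnected.out h2 h1
      (show (0 : ℝ) ∈ Icc (-1) 1 by constructor <;> norm_num)
    have him : (x.2 : ℂ).im = 0 := le_antisymm hx2 hx1
    have hx0' : (x.2 : ℂ).re = 0 := hx0
    have hn : Complex.normSq (x.2 : ℂ) = 1 := Circle.normSq_coe x.2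
    rw [Complex.normSq_apply, him, hx0'] at hn
    norm_num at hn

theorem main : ¬ (∀ (X Y : Type) [MetricSpace X] [CompactSpace X] [ConnectedSpace X]
      [LocallyConnectedSpace X] [MetricSpace Y] (f : X → Y),
      IsLocalHomeomorph f → Function.Surjective f →
      (∃ A B : Set X, IsClosed A ∧ IsClosed B ∧ IsConnected A ∧ IsConnected B ∧
          A ∪ B = Set.univ ∧ ¬ IsConnected (A ∩ B)) →
      (∃ A B : Set Y, IsClosed A ∧ IsClosed B ∧ IsConnected A ∧ IsConnected B ∧
          A ∪ B = Set.univ ∧ ¬ IsConnected (A ∩ B))) := by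
  intro H
  obtain ⟨A, B, hA, hB, hAc, hBc, hAB, hn⟩ := H X Y f isLocalHomeomorph_f surjective_f
    X_not_unicoherent
  exact hn (Y_unicoherent hA hB hAc hBc hAB)

end Pool.Agent.X197.Unicoh
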