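import Mathlib
import Pool.Agent.Helper531.Sine

open Set Topology

namespace Pool.Agent.X197.SineSub

open Pool.Agent.Helper531

theorem image_connectedComponentIn {α β : Type*} [TopologicalSpace α] [TopologicalSpace β]
    {e : α → β} (he : IsEmbedding e) {F : Set α} {p : α} (hp : p ∈ F) :
    e '' connectedComponentIn F p = connectedComponentIn (e '' F) (e p) := by
  apply Subset.antisymm
  · apply IsPreconnected.subset_connectedComponentIn
    · exact isPreconnected_connectedComponentIn.image e he.continuous.continuousOn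
    · exact ⟨p, mem_connectedComponentIn hp, rfl⟩
    · exact image_mono (connectedComponentIn_subset F p)
  · have h1 : connectedComponentIn (e '' F) (e p) ⊆ e '' F := connectedComponentIn_subset _ _
    have h2 : e '' (e ⁻¹' connectedComponentIn (e '' F) (e p)) = connectedComponentIn (e '' F) (e p) := by
      rw [image_preimage_eq_inter_range]
      exact inter_eq_left.2 (h1.trans (image_subset_range _ _))
    rw [← h2]
    apply image_mono
    apply IsPreconnected.subset_connectedComponentIn
    · rw [← he.isInducing.isPreconnected_image, h2]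
      exact isPreconnected_connectedComponentIn
    · exact mem_connectedComponentIn (mem_image_of_mem e hp)
    · intro x hx
      obtain ⟨y, hy, hyx⟩ := h1 hx
      rwa [← he.injective hyx]

theorem image_L {α β : Type*} [TopologicalSpace α] [TopologicalSpace β]
    {e : α → β} (he : IsEmbedding e) (C : Set α) :
    e '' {p : α | p ∈ C ∧ ∃ V : Set α, IsOpen V ∧ p ∈ V ∧
          ¬ IsPreconnected (connectedComponentIn (V ∩ C) p \ {p})} =
      LocalSeparatingPoints (e '' C) := by
  have key : ∀ (U : Set β) (p : α), p ∈ C → e p ∈ U →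
      (IsPreconnected (connectedComponentIn (e ⁻¹' U ∩ C) p \ {p}) ↔
        IsPreconnected (connectedComponentIn (e '' C ∩ U) (e p) \ {e p})) := by
    intro U p hp hU
    have h1 : e '' (e ⁻¹' U ∩ C) = e '' C ∩ U := by
      rw [image_preimage_inter, inter_comm]
    have hpF : p ∈ e ⁻¹' U ∩ C := ⟨hU, hp⟩
    rw [← h1, ← image_connectedComponentIn he hpF, ← image_singleton,
      ← image_diff he.injective, he.isInducing.isPreconnected_image]
  ext q
  constructor
  · rintro ⟨p, ⟨hpC, V, hV, hpV, hn⟩, rfl⟩
    obtain ⟨U, hU, rfl⟩ := he.isInducing.isOpen_iff.1 hV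
    exact ⟨⟨p, hpC, rfl⟩, U, hU, hpV, fun h => hn ((key U p hpC hpV).2 h)⟩
  · rintro ⟨⟨p, hpC, rfl⟩, U, hU, hpU, hn⟩
    exact ⟨p, ⟨hpC, e ⁻¹' U, hU.preimage he.continuous, hpU,
      fun h => hn ((key U p hpC hpU).1 h)⟩, rfl⟩

theorem main : ¬ (∀ (X : Type) [MetricSpace X] [CompactSpace X] [ConnectedSpace X],
      (∀ C : Set X, IsCompact C → IsConnected C →
        IsPreconnected {p : X | p ∈ C ∧ ∃ V : Set X, IsOpen V ∧ p ∈ V ∧
          ¬ IsPreconnected (connectedComponentIn (V ∩ C) p \ {p})}) →
      ∀ A : Set X, IsConnected A → ∀ x ∈ A, ∀ y ∈ A, x ≠ y →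
        ∃ f : unitInterval → X, Continuous f ∧ Function.Injective f ∧
          f 0 = x ∧ f 1 = y ∧ Set.range f ⊆ A) := by
  intro H
  haveI : CompactSpace Sine.X := isCompact_iff_compactSpace.1 Sine.X_compact
  haveI : ConnectedSpace Sine.X := isConnected_iff_connectedSpace.1 Sine.X_connected
  have he : IsEmbedding (Subtype.val : Sine.X → ℝ × ℝ) := IsEmbedding.subtypeVal
  have hL : ∀ C : Set Sine.X, IsCompact C → IsConnected C →
        IsPreconnected {p : Sine.X | p ∈ C ∧ ∃ V : Set Sine.X, IsOpen V ∧ p ∈ V ∧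
          ¬ IsPreconnected (connectedComponentIn (V ∩ C) p \ {p})} := by
    intro C hC hCc
    rw [← he.isInducing.isPreconnected_image, image_L he]
    refine Sine.L_preconnected ?_ (hC.image he.continuous)
      (hCc.isPreconnected.image _ he.continuous.continuousOn)
    rintro _ ⟨p, -, rfl⟩
    exact p.2
  have h2 := H Sine.X hL univ isConnected_univ
  apply Sine.not_arcwise
  intro x hx y hy hxy
  obtain ⟨f, hf, hinj, h0, h1, -⟩ := h2 ⟨x, hx⟩ trivial ⟨y, hy⟩ trivial
    (fun h => hxy (congrArg Subtype.val h))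
  refine ⟨fun t => (f t).1, continuous_subtype_val.comp hf, Subtype.val_injective.comp hinj,
    congrArg Subtype.val h0, congrArg Subtype.val h1, ?_⟩
  rintro _ ⟨t, rfl⟩
  exact (f t).2

end Pool.Agent.X197.SineSub
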