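import Mathlib

/-!
# Algebraic entropy of endomorphisms of locally compact abelian groups

The algebraic entropy of an endomorphism `φ` of a locally compact abelian group `G` is the same as
the algebraic entropy of its restriction to a `φ`-invariant uniform discrete subgroup `K`.
-/

set_option autoImplicit false

namespace Pool.Agent.X197.AlgEnt

open MeasureTheory Filter Topology Set
open scoped Pointwise

universe u

/-- `T_n(φ,U) = U + φ(U) + ⋯ + φ^(n-1)(U)` (the set `{0}` if `n = 0`). -/
def T {G : Type u} [AddCommGroup G] (φ : G →+ G) (U : Set G) (n : ℕ) : Set G :=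
  ∑ i ∈ Finset.range n, (φ^[i]) '' U

/-- `H_A(φ,U) = limsup (log μ(T_n(φ,U)) / n)`, as an extended real number. -/
noncomputable def HA {G : Type u} [AddCommGroup G] [MeasurableSpace G] (μ : Measure G)
    (φ : G →+ G) (U : Set G) : EReal :=
  limsup (fun n : ℕ => ((Real.log (μ (T φ U n)).toReal / n : ℝ) : EReal)) atTop

/-- The algebraic entropy `h_A(φ)`: the supremum of `H_A(φ,U)` over all compact neighbourhoods `U`
of `0`. -/
noncomputable def hA {G : Type u} [AddCommGroup G] [TopologicalSpace G] [MeasurableSpace G]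
    (μ : Measure G) (φ : G →+ G) : EReal :=
  ⨆ U : {U : Set G // IsCompact U ∧ U ∈ 𝓝 (0 : G)}, HA μ φ U.1

/-- The restriction of `φ` to the invariant subgroup `K`. -/
def res {G : Type u} [AddCommGroup G] (φ : G →+ G) (K : AddSubgroup G)
    (hK : ∀ x ∈ K, φ x ∈ K) : K →+ K :=
  (φ.comp K.subtype).codRestrict K fun x => hK x x.2

section alg

variable {G : Type u} [AddCommGroup G] (φ : G →+ G)

theorem T_zero (U : Set G) : T φ U 0 = {0} := by
  unfold T
  rw [Finset.range_zero, Finset.sum_empty]
  rfl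

theorem T_succ (U : Set G) (n : ℕ) : T φ U (n + 1) = U + φ '' (T φ U n) := by
  unfold T
  rw [Finset.sum_range_succ', Set.image_finsetSum, add_comm]
  congr 1
  · simp
  · refine Finset.sum_congr rfl fun i _ => ?_
    rw [Function.iterate_succ', Set.image_comp]

theorem T_mono {U U' : Set G} (h : U ⊆ U') (n : ℕ) : T φ U n ⊆ T φ U' n := by
  induction n with
  | zero => simp [T_zero]
  | succ n ih =>
    rw [T_succ, T_succ]
    exact add_subset_add h (image_mono ih)

theorem T_le_succ {U : Set G} (h0 : (0 : G) ∈ U) (n : ℕ) : T φ U n ⊆ T φ U (n + 1) := by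
  induction n with
  | zero =>
    rw [T_zero, T_succ, T_zero, image_singleton, map_zero]
    rintro x rfl
    exact ⟨0, h0, 0, rfl, add_zero _⟩
  | succ n ih =>
    rw [T_succ φ U n, T_succ φ U (n + 1)]
    exact add_subset_add subset_rfl (image_mono ih)

/-- The covering argument: if `C + φ(C) ⊆ F + C` then `T_(n+1)(φ,C) ⊆ T_n(φ,F) + C`. -/
theorem cover {C F : Set G} (h : C + φ '' C ⊆ F + C) (n : ℕ) :
    T φ C (n + 1) ⊆ T φ F n + C := by
  induction n with
  | zero =>
    rw [T_succ, T_zero, T_zero, image_singleton, map_zero, add_comm]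
  | succ n ih =>
    rw [T_succ φ C (n + 1)]
    calc C + φ '' (T φ C (n + 1)) ⊆ C + φ '' (T φ F n + C) :=
          add_subset_add subset_rfl (image_mono ih)
      _ = (C + φ '' C) + φ '' (T φ F n) := by
          rw [Set.image_add]
          abel
      _ ⊆ (F + C) + φ '' (T φ F n) := add_subset_add h subset_rfl
      _ = T φ F (n + 1) + C := by
          rw [T_succ]
          abel

/-- The packing argument. -/
theorem pack {U E V : Set G} (h : E + V ⊆ U) (h' : E ⊆ U) (n : ℕ) :
    T φ E (n + 1) + V ⊆ T φ U (n + 1) := by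
  rw [T_succ, T_succ]
  calc E + φ '' (T φ E n) + V = (E + V) + φ '' (T φ E n) := by abel
    _ ⊆ U + φ '' (T φ U n) := add_subset_add h (image_mono (T_mono φ h' n))

theorem T_finite {E : Set G} (hE : E.Finite) (n : ℕ) : (T φ E n).Finite := by
  induction n with
  | zero =>
    rw [T_zero]
    exact finite_singleton _
  | succ n ih =>
    rw [T_succ]
    exact hE.add (ih.image _)

theorem T_nonempty {E : Set G} (hE : E.Nonempty) (n : ℕ) : (T φ E n).Nonempty := by
  induction n with
  | zero =>
    rw [T_zero]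
    exact singleton_nonempty _
  | succ n ih =>
    rw [T_succ]
    exact hE.add (ih.image _)

theorem T_res (K : AddSubgroup G) (hK : ∀ x ∈ K, φ x ∈ K) (E : Set K) (n : ℕ) :
    (Subtype.val '' (T (res φ K hK) E n) : Set G) = T φ (Subtype.val '' E) n := by
  induction n with
  | zero => simp [T_zero]
  | succ n ih =>
    rw [T_succ, T_succ, ← ih]
    have h1 : (Subtype.val '' (E + (res φ K hK) '' T (res φ K hK) E n) : Set G) =
        (K.subtype : K → G) '' (E + (res φ K hK) '' T (res φ K hK) E n) := rfl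
    rw [h1, Set.image_add]
    congr 1
    rw [← image_comp, ← image_comp]
    rfl

end alg

section top

variable {G : Type u} [AddCommGroup G] [TopologicalSpace G] [IsTopologicalAddGroup G]
  [T2Space G]

theorem T_compact (φ : G →+ G) (hφ : Continuous φ) {U : Set G} (hU : IsCompact U) (n : ℕ) :
    IsCompact (T φ U n) := by
  induction n with
  | zero =>
    rw [T_zero]
    exact isCompact_singleton
  | succ n ih =>
    rw [T_succ]
    exact hU.add (ih.image hφ)

/-- a compact set `C ⊇ U` whose interior meets every coset of `K` -/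
theorem exists_C [LocallyCompactSpace G] (K : AddSubgroup G) [CompactSpace (G ⧸ K)] {U : Set G}
    (hU : IsCompact U) : ∃ C : Set G, IsCompact C ∧ U ⊆ C ∧
      ∀ x : G, ∃ k ∈ K, x - k ∈ interior C := by
  obtain ⟨N, hN, hN0⟩ := exists_compact_mem_nhds (0 : G)
  have hop : ∀ x : G, IsOpen ((QuotientAddGroup.mk : G → G ⧸ K) '' (x +ᵥ interior N)) := fun x =>
    QuotientAddGroup.isOpenMap_coe _ (isOpen_interior.vadd x)
  obtain ⟨t, ht⟩ := isCompact_univ.elim_finite_subcover
    (fun x : G => (QuotientAddGroup.mk : G → G ⧸ K) '' (x +ᵥ interior N)) hop (by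
      intro q _
      obtain ⟨x, rfl⟩ := QuotientAddGroup.mk_surjective q
      refine mem_iUnion.2 ⟨x, x, ⟨0, mem_interior_iff_mem_nhds.2 hN0, ?_⟩, rfl⟩
      simp)
  refine ⟨(⋃ x ∈ t, (x +ᵥ N)) ∪ U, (t.isCompact_biUnion fun x _ => hN.vadd x).union hU,
    subset_union_right, fun x => ?_⟩
  have h1 := ht (mem_univ (QuotientAddGroup.mk x : G ⧸ K))
  simp only [mem_iUnion] at h1
  obtain ⟨y, hy, z, hz, hzx⟩ := h1
  refine ⟨x - z, ?_, ?_⟩
  · rw [QuotientAddGroup.eq] at hzx
    rwa [sub_eq_neg_add]
  · rw [sub_sub_cancel]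
    have h2 : y +ᵥ interior N ⊆ (⋃ x ∈ t, (x +ᵥ N)) ∪ U :=
      (Set.vadd_set_mono interior_subset).trans
        (subset_union_of_subset_left (subset_biUnion_of_mem (u := fun x => x +ᵥ N) hy) _)
    exact interior_maximal h2 (isOpen_interior.vadd y) hz

/-- every compact set is covered by finitely many translates of `C` by elements of `K` -/
theorem exists_F (K : AddSubgroup G) {C D : Set G} (hC : ∀ x : G, ∃ k ∈ K, x - k ∈ interior C)
    (hD : IsCompact D) : ∃ F : Finset K, D ⊆ (Subtype.val '' (F : Set K) : Set G) + C := by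
  obtain ⟨t, ht⟩ := hD.elim_finite_subcover (fun k : K => (k : G) +ᵥ interior C)
    (fun k => isOpen_interior.vadd _) (by
      intro x _
      obtain ⟨k, hk, hx⟩ := hC x
      refine mem_iUnion.2 ⟨⟨k, hk⟩, x - k, hx, ?_⟩
      simp)
  refine ⟨t, fun x hx => ?_⟩
  have h1 := ht hx
  simp only [mem_iUnion] at h1
  obtain ⟨k, hk, z, hz, hzx⟩ := h1
  exact ⟨k, ⟨k, hk, rfl⟩, z, interior_subset hz, hzx⟩

end top

section meas

variable {G : Type u} [AddCommGroup G] [TopologicalSpace G] [IsTopologicalAddGroup G]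
  [T2Space G] [MeasurableSpace G] [BorelSpace G] (μ : Measure G) [μ.IsAddHaarMeasure]

theorem measure_finset [DiscreteTopology G] (S : Finset G) :
    μ (S : Set G) = S.card * μ {0} := by
  have h1 : ∀ x : G, μ {x} = μ {0} := fun x => by
    have h := measure_preimage_add μ (-x) {0}
    have h' : (fun y : G => -x + y) ⁻¹' {0} = {x} := by
      ext y
      rw [mem_preimage, mem_singleton_iff, mem_singleton_iff, neg_add_eq_zero, eq_comm]
    rw [h'] at h
    exact h
  have h2 : (S : Set G) = ⋃ x ∈ S, {x} := by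
    ext y
    constructor
    · intro hy
      exact mem_biUnion (show y ∈ (S : Set G) from hy) (mem_singleton y)
    · intro hy
      obtain ⟨x, hx, hyx⟩ := mem_iUnion₂.1 hy
      rw [mem_singleton_iff.1 hyx]
      exact hx
  rw [h2, measure_biUnion_finset]
  · rw [Finset.sum_congr rfl fun x _ => h1 x, Finset.sum_const, nsmul_eq_mul]
  · intro x _ y _ hxy
    exact disjoint_singleton.2 hxy
  · intro x _
    exact (isClosed_singleton).measurableSet

omit [TopologicalSpace G] [IsTopologicalAddGroup G] [T2Space G] [MeasurableSpace G]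
  [BorelSpace G] in
theorem add_eq_biUnion (S : Finset G) (C : Set G) : (S : Set G) + C = ⋃ x ∈ S, (x +ᵥ C) := by
  ext y
  simp only [mem_iUnion, exists_prop]
  constructor
  · rintro ⟨s, hs, c, hc, rfl⟩
    exact ⟨s, hs, c, hc, rfl⟩
  · rintro ⟨s, hs, c, hc, rfl⟩
    exact ⟨s, hs, c, hc, rfl⟩

theorem measure_upper (S : Finset G) (C : Set G) :
    μ ((S : Set G) + C) ≤ S.card * μ C := by
  have h2 : (S : Set G) + C = ⋃ x ∈ S, (x +ᵥ C) := add_eq_biUnion S C
  rw [h2]
  refine (measure_biUnion_finset_le _ _).trans ?_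
  simp [measure_vadd]

theorem measure_lower (S : Finset G) {V : Set G} (hV : IsOpen V)
    (hd : ∀ x ∈ S, ∀ y ∈ S, x ≠ y → Disjoint (x +ᵥ V) (y +ᵥ V)) :
    μ ((S : Set G) + V) = S.card * μ V := by
  have h2 : (S : Set G) + V = ⋃ x ∈ S, (x +ᵥ V) := add_eq_biUnion S V
  rw [h2, measure_biUnion_finset]
  · simp [measure_vadd]
  · intro x hx y hy hxy
    exact hd x hx y hy hxy
  · intro x _
    exact (hV.vadd x).measurableSet

end meas

/-- comparison of growth rates -/
theorem limsup_le_of {a b : ℕ → ℝ} {c : ℝ} (h : ∀ n : ℕ, 1 ≤ n → a n ≤ b n + c) :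
    limsup (fun n : ℕ => ((a n / n : ℝ) : EReal)) atTop ≤
      limsup (fun n : ℕ => ((b n / n : ℝ) : EReal)) atTop := by
  have h0 : Tendsto (fun n : ℕ => ((c / n : ℝ) : EReal)) atTop (𝓝 ((0 : ℝ) : EReal)) :=
    (continuous_coe_real_ereal.tendsto 0).comp (tendsto_const_div_atTop_nhds_zero_nat c)
  have h1 : limsup (fun n : ℕ => ((c / n : ℝ) : EReal)) atTop = ((0 : ℝ) : EReal) := h0.limsup_eq
  calc limsup (fun n : ℕ => ((a n / n : ℝ) : EReal)) atTop
      ≤ limsup ((fun n : ℕ => ((b n / n : ℝ) : EReal)) + fun n : ℕ => ((c / n : ℝ) : EReal))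
          atTop := by
        refine limsup_le_limsup ?_
        filter_upwards [eventually_ge_atTop 1] with n hn
        rw [Pi.add_apply, ← EReal.coe_add, EReal.coe_le_coe_iff, ← add_div]
        exact div_le_div_of_nonneg_right (h n hn) (Nat.cast_nonneg n)
    _ ≤ limsup (fun n : ℕ => ((b n / n : ℝ) : EReal)) atTop +
          limsup (fun n : ℕ => ((c / n : ℝ) : EReal)) atTop := by
        refine EReal.limsup_add_le ?_ ?_
        · right
          rw [h1]
          exact EReal.coe_ne_top _
        · right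
          rw [h1]
          exact EReal.coe_ne_bot _
    _ = _ := by
        rw [h1]
        simp

variable {G : Type u} [AddCommGroup G] [TopologicalSpace G] [IsTopologicalAddGroup G]
  [T2Space G] [LocallyCompactSpace G] [MeasurableSpace G] [BorelSpace G]

theorem main (μ : Measure G) [μ.IsAddHaarMeasure] (φ : G →+ G) (hφ : Continuous φ)
    (K : AddSubgroup G) [DiscreteTopology K] [CompactSpace (G ⧸ K)] (hK : ∀ x ∈ K, φ x ∈ K)
    (ν : Measure K) [ν.IsAddHaarMeasure] : hA μ φ = hA ν (res φ K hK) := by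
  classical
  have hν0 : ν {0} ≠ 0 := (isOpen_discrete ({0} : Set K)).measure_ne_zero ν (singleton_nonempty _)
  have hν1 : ν {0} ≠ ⊤ := (isCompact_singleton (x := (0 : K))).measure_ne_top
  have hνp : 0 < (ν {0}).toReal := ENNReal.toReal_pos hν0 hν1
  apply le_antisymm
  · -- upper bound
    refine iSup_le ?_
    rintro ⟨U, hU, hU0⟩
    obtain ⟨C, hC, hUC, hCK⟩ := exists_C K hU
    obtain ⟨F, hF⟩ := exists_F K hCK (hC.add (hC.image hφ))
    let E : Finset K := insert 0 F
    have hE0 : (0 : K) ∈ E := Finset.mem_insert_self _ _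
    have hFE : C + φ '' C ⊆ (Subtype.val '' (E : Set K) : Set G) + C :=
      hF.trans (add_subset_add (image_mono (by
        intro x hx
        exact Finset.mem_insert_of_mem hx)) subset_rfl)
    have hEm : IsCompact (E : Set K) ∧ (E : Set K) ∈ 𝓝 (0 : K) :=
      ⟨E.finite_toSet.isCompact, (isOpen_discrete _).mem_nhds hE0⟩
    refine le_trans ?_ (le_iSup (fun U : {U : Set K // IsCompact U ∧ U ∈ 𝓝 (0 : K)} =>
      HA ν (res φ K hK) U.1) ⟨(E : Set K), hEm⟩)
    unfold HA
    have hCpos : 0 < (μ C).toReal := by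
      refine ENNReal.toReal_pos ?_ hC.measure_ne_top
      have h1 : (interior C).Nonempty := by
        obtain ⟨k, _, hk⟩ := hCK 0
        exact ⟨_, hk⟩
      exact fun h => (isOpen_interior.measure_ne_zero μ h1) (measure_mono_null interior_subset h)
    have hUpos : ∀ n : ℕ, 1 ≤ n → 0 < (μ (T φ U n)).toReal := by
      intro n hn
      obtain ⟨m, rfl⟩ : ∃ m, n = m + 1 := ⟨n - 1, by omega⟩
      refine ENNReal.toReal_pos ?_ (T_compact φ hφ hU _).measure_ne_top
      have h1 : U ⊆ T φ U (m + 1) := by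
        rw [T_succ]
        intro x hx
        have h0 : (0 : G) ∈ φ '' T φ U m := by
          refine ⟨0, ?_, map_zero φ⟩
          have : ∀ k, (0 : G) ∈ T φ U k := by
            intro k
            induction k with
            | zero => simp [T_zero]
            | succ k ih => exact T_le_succ φ (mem_of_mem_nhds hU0) k ih
          exact this m
        exact ⟨x, hx, 0, h0, add_zero x⟩
      have h2 : T φ U (m + 1) ∈ 𝓝 (0 : G) := mem_of_superset hU0 h1
      exact (μ.measure_pos_of_mem_nhds h2).ne'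
    refine limsup_le_of (c := Real.log (μ C).toReal - Real.log (ν {0}).toReal) fun n hn => ?_
    obtain ⟨m, rfl⟩ : ∃ m, n = m + 1 := ⟨n - 1, by omega⟩
    have hfin := T_finite (res φ K hK) E.finite_toSet (m + 1)
    let S : Finset K := hfin.toFinset
    have hS : (S : Set K) = T (res φ K hK) (E : Set K) (m + 1) := hfin.coe_toFinset
    have hSne : S.Nonempty := by
      rw [← Finset.coe_nonempty, hS]
      exact T_nonempty _ ⟨0, hE0⟩ _
    have h1 : T φ U (m + 1) ⊆ ((S.image Subtype.val : Finset G) : Set G) + C := by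
      refine (T_mono φ hUC _).trans ((cover φ hFE m).trans ?_)
      refine add_subset_add ?_ subset_rfl
      rw [← T_res φ K hK, Finset.coe_image, hS]
      exact image_mono (T_le_succ _ hE0 m)
    have h2 : μ (T φ U (m + 1)) ≤ S.card * μ C := by
      refine (measure_mono h1).trans ((measure_upper μ _ C).trans ?_)
      rw [Finset.card_image_of_injective _ Subtype.val_injective]
    have h3 : (μ (T φ U (m + 1))).toReal ≤ S.card * (μ C).toReal := by
      have := ENNReal.toReal_mono (ENNReal.mul_ne_top (ENNReal.natCast_ne_top _)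
        hC.measure_ne_top) h2
      simpa using this
    have h4 : (ν (T (res φ K hK) (E : Set K) (m + 1))).toReal = S.card * (ν {0}).toReal := by
      rw [← hS, measure_finset ν S]
      simp
    have hSc : (0 : ℝ) < S.card := by exact_mod_cast hSne.card_pos
    rw [h4, Real.log_mul hSc.ne' hνp.ne']
    have h5 := Real.log_le_log (hUpos (m + 1) (by omega)) h3
    rw [Real.log_mul hSc.ne' hCpos.ne'] at h5
    linarith
  · -- lower bound
    refine iSup_le ?_
    rintro ⟨E, hE, hE0⟩
    have hEfin : E.Finite := hE.finite_of_discrete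
    have hE0' : (0 : K) ∈ E := mem_of_mem_nhds hE0
    obtain ⟨N, hN, hN0⟩ := exists_compact_mem_nhds (0 : G)
    -- an open set `W` with `W ∩ K = {0}`
    obtain ⟨W, hW, hW0, hWK⟩ : ∃ W : Set G, IsOpen W ∧ (0 : G) ∈ W ∧ ∀ x ∈ K, x ∈ W → x = 0 := by
      obtain ⟨W, hW, hWe⟩ := isOpen_induced_iff.1 (isOpen_discrete ({0} : Set K))
      refine ⟨W, hW, ?_, fun x hx hxW => ?_⟩
      · have : (0 : K) ∈ Subtype.val ⁻¹' W := by
          rw [hWe]
          rfl
        exact this
      · have : (⟨x, hx⟩ : K) ∈ Subtype.val ⁻¹' W := hxW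
        rw [hWe] at this
        exact congrArg Subtype.val this
    obtain ⟨V1, hV1, hV1W⟩ : ∃ V1 ∈ 𝓝 (0 : G), ∀ x ∈ V1, ∀ y ∈ V1, x - y ∈ W := by
      have h1 : (fun p : G × G => p.1 - p.2) ⁻¹' W ∈ 𝓝 ((0 : G), (0 : G)) := by
        refine (continuous_fst.sub continuous_snd).continuousAt.preimage_mem_nhds ?_
        simpa using hW.mem_nhds hW0
      rw [nhds_prod_eq, mem_prod_self_iff] at h1
      obtain ⟨V1, hV1, h2⟩ := h1
      exact ⟨V1, hV1, fun x hx y hy => h2 (mk_mem_prod hx hy)⟩
    let V : Set G := interior (V1 ∩ N)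
    have hVo : IsOpen V := isOpen_interior
    have hV0 : (0 : G) ∈ V := mem_interior_iff_mem_nhds.2 (inter_mem hV1 hN0)
    have hVN : V ⊆ N := interior_subset.trans inter_subset_right
    have hVW : ∀ x ∈ V, ∀ y ∈ V, x - y ∈ W := fun x hx y hy =>
      hV1W x (interior_subset hx).1 y (interior_subset hy).1
    let E' : Set G := Subtype.val '' E
    have hE'fin : E'.Finite := hEfin.image _
    have hE'0 : (0 : G) ∈ E' := ⟨0, hE0', rfl⟩
    let U : Set G := E' + N
    have hUc : IsCompact U := hE'fin.isCompact.add hN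
    have hNU : N ⊆ U := fun x hx => ⟨0, hE'0, x, hx, zero_add x⟩
    have hU0 : U ∈ 𝓝 (0 : G) := mem_of_superset hN0 hNU
    have hEU : E' ⊆ U := fun x hx => ⟨x, hx, 0, mem_of_mem_nhds hN0, add_zero x⟩
    refine le_trans ?_ (le_iSup (fun U : {U : Set G // IsCompact U ∧ U ∈ 𝓝 (0 : G)} =>
      HA μ φ U.1) ⟨U, hUc, hU0⟩)
    unfold HA
    have hVfin : μ V ≠ ⊤ := (measure_mono hVN).trans_lt hN.measure_lt_top |>.ne
    have hVpos : 0 < (μ V).toReal :=
      ENNReal.toReal_pos (hVo.measure_ne_zero μ ⟨0, hV0⟩) hVfin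
    refine limsup_le_of (c := Real.log (ν {0}).toReal - Real.log (μ V).toReal) fun n hn => ?_
    obtain ⟨m, rfl⟩ : ∃ m, n = m + 1 := ⟨n - 1, by omega⟩
    have hfin := T_finite (res φ K hK) hEfin (m + 1)
    let S : Finset K := hfin.toFinset
    have hS : (S : Set K) = T (res φ K hK) E (m + 1) := hfin.coe_toFinset
    have hSne : S.Nonempty := by
      rw [← Finset.coe_nonempty, hS]
      exact T_nonempty _ ⟨0, hE0'⟩ _
    have h1 : ((S.image Subtype.val : Finset G) : Set G) + V ⊆ T φ U (m + 1) := by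
      rw [Finset.coe_image, hS, T_res φ K hK]
      exact pack φ (add_subset_add subset_rfl hVN) hEU m
    have h2 : S.card * μ V ≤ μ (T φ U (m + 1)) := by
      refine le_trans ?_ (measure_mono h1)
      rw [measure_lower μ _ hVo, Finset.card_image_of_injective _ Subtype.val_injective]
      intro x hx y hy hxy
      obtain ⟨x', _, rfl⟩ := Finset.mem_image.1 hx
      obtain ⟨y', _, rfl⟩ := Finset.mem_image.1 hy
      rw [Set.disjoint_left]
      rintro z ⟨v, hv, hvz⟩ ⟨w, hw, hwz⟩
      apply hxy
      have h3 : (x' : G) - y' = w - v := by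
        have h4 : (x' : G) + v = y' + w := by
          have h5 : (x' : G) + v = z := hvz
          have h6 : (y' : G) + w = z := hwz
          rw [h5, h6]
        rw [sub_eq_sub_iff_add_eq_add, h4]
        abel
      have h7 := hWK ((x' : G) - y') (K.sub_mem x'.2 y'.2) (h3 ▸ hVW w hw v hv)
      exact sub_eq_zero.1 h7
    have hTfin : μ (T φ U (m + 1)) ≠ ⊤ := (T_compact φ hφ hUc _).measure_ne_top
    have h3 : S.card * (μ V).toReal ≤ (μ (T φ U (m + 1))).toReal := by
      have := ENNReal.toReal_mono hTfin h2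
      simpa using this
    have h4 : (ν (T (res φ K hK) E (m + 1))).toReal = S.card * (ν {0}).toReal := by
      rw [← hS, measure_finset ν S]
      simp
    have hSc : (0 : ℝ) < S.card := by exact_mod_cast hSne.card_pos
    rw [h4, Real.log_mul hSc.ne' hνp.ne']
    have h5 := Real.log_le_log (mul_pos hSc hVpos) h3
    rw [Real.log_mul hSc.ne' hVpos.ne'] at h5
    linarith

end Pool.Agent.X197.AlgEnt
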