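import Mathlib

/-!
# A closed subgroup of an almost minimal group that is not almost minimal
-/

open Set Topology Filter

namespace Pool.Agent.X197.AlmostMin

/-- Minimal (abelian) topological groups: Hausdorff, without a strictly coarser Hausdorff group
topology. -/
def IsMinimalGrp (G : Type) [AddCommGroup G] [t : TopologicalSpace G] : Prop :=
  T2Space G ∧ IsTopologicalAddGroup G ∧
    ∀ s : TopologicalSpace G, t ≤ s → @T2Space G s → @IsTopologicalAddGroup G s _ → s = t

/-- `(1/n) U` -/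
def Frac {G : Type} [AddCommGroup G] (U : Set G) (n : ℕ) : Set G :=
  {x | ∀ k : ℕ, 1 ≤ k → k ≤ n → k • x ∈ U}

/-- Uniformly free from small subgroups: Hausdorff, and for some symmetric neighbourhood `U` of
`0` the sets `(1/n) U`, `n ≥ 1`, form a base of neighbourhoods of `0`. -/
def UFSS (G : Type) [AddCommGroup G] [TopologicalSpace G] : Prop :=
  T2Space G ∧ ∃ U ∈ 𝓝 (0 : G), (∀ x ∈ U, -x ∈ U) ∧ (∀ n : ℕ, 1 ≤ n → Frac U n ∈ 𝓝 (0 : G)) ∧
    ∀ W ∈ 𝓝 (0 : G), ∃ n : ℕ, 1 ≤ n ∧ Frac U n ⊆ W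

/-- Almost minimal: some closed subgroup is minimal with UFSS quotient. -/
def AlmostMinimal (G : Type) [AddCommGroup G] [TopologicalSpace G] : Prop :=
  ∃ N : AddSubgroup G, IsClosed (N : Set G) ∧ IsMinimalGrp N ∧ UFSS (G ⧸ N)

/-! ### A transcendental number -/

theorem exists_trans : ∃ t : ℝ, 0 < t ∧ t < 1 ∧ Transcendental ℤ t := by
  by_contra hc
  push Not at hc
  have h1 : Ioo (0 : ℝ) 1 ⊆ {x : ℝ | IsAlgebraic ℤ x} := by
    intro x hx
    have := hc x hx.1 hx.2
    simpa [Transcendental] using this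
  have h2 : (Ioo (0 : ℝ) 1).Countable := (Algebraic.countable ℤ ℝ).mono h1
  have h3 := Cardinal.mk_Ioo_real (show (0 : ℝ) < 1 by norm_num)
  have h4 : Cardinal.mk (Ioo (0 : ℝ) 1) ≤ Cardinal.aleph0 := Cardinal.le_aleph0_iff_set_countable.2 h2
  rw [h3] at h4
  exact absurd h4 (not_le.2 Cardinal.aleph0_lt_continuum)

/-- a transcendental number between `0` and `1` -/
noncomputable def t : ℝ := exists_trans.choose

theorem t_pos : 0 < t := exists_trans.choose_spec.1
theorem t_lt : t < 1 := exists_trans.choose_spec.2.1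
theorem t_trans : Transcendental ℤ t := exists_trans.choose_spec.2.2

/-! ### The groups -/

/-- a compact group -/
abbrev K : Type := ℕ × ℕ → ZMod 4

/-- reduction modulo `2` -/
def red : ZMod 4 →+ ZMod 2 := (ZMod.castHom (show 2 ∣ 4 by norm_num) (ZMod 2)).toAddMonoidHom

theorem red_two (y : ZMod 4) : red (2 • y) = 0 := by
  revert y; decide

theorem two_eq (z : ZMod 4) (h : 2 • z = 0) : z = 2 • (if z = 0 then (0 : ZMod 4) else 1) := by
  revert z; decide

theorem red_one : red 1 ≠ 0 := by decide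

/-- the value at `t` -/
noncomputable def ev : Polynomial ℤ →+ ℝ := (Polynomial.aeval t : Polynomial ℤ →ₐ[ℤ] ℝ).toAddMonoidHom

theorem ev_inj {f : Polynomial ℤ} (h : ev f = 0) : f = 0 := by
  have h1 := transcendental_iff_injective.1 t_trans
  apply h1
  rw [map_zero]
  exact h

/-- sums of coefficients modulo `2` -/
noncomputable def φ (i : ℕ) : Polynomial ℤ →+ ZMod 2 :=
  (Polynomial.lsum (fun k => if (Nat.unpair k).1 = i then (Int.castAddHom (ZMod 2)).toIntLinearMap
    else 0)).toAddMonoidHom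

theorem φ_X_pow (i m j : ℕ) : φ i (Polynomial.X ^ (Nat.pair m j)) = if i = m then 1 else 0 := by
  show (Polynomial.lsum (fun k => if (Nat.unpair k).1 = i then
    (Int.castAddHom (ZMod 2)).toIntLinearMap else 0)) (Polynomial.X ^ (Nat.pair m j)) = _
  rw [Polynomial.lsum_apply, Polynomial.X_pow_eq_monomial, Polynomial.sum_monomial_index]
  · rw [Nat.unpair_pair]
    by_cases h : i = m
    · subst h; simp
    · have h' : ¬ m = i := fun h' => h h'.symm
      simp [h, h']
  · simp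

/-- the group -/
def G : AddSubgroup (K × ℝ) where
  carrier := {x | ∃ f : Polynomial ℤ, x.2 = ev f ∧ {p : ℕ × ℕ | red (x.1 p) ≠ φ p.1 f}.Finite}
  zero_mem' := ⟨0, by simp, by simp⟩
  add_mem' := by
    rintro x y ⟨f, hf, hf'⟩ ⟨g, hg, hg'⟩
    refine ⟨f + g, by simp [hf, hg], (hf'.union hg').subset ?_⟩
    intro p hp
    by_contra hc
    rw [mem_union, not_or] at hc
    obtain ⟨h1, h2⟩ := hc
    simp only [mem_ofPred_eq, not_not] at h1 h2
    apply hp
    rw [Prod.fst_add, Pi.add_apply, map_add, map_add, h1, h2]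
  neg_mem' := by
    rintro x ⟨f, hf, hf'⟩
    refine ⟨-f, by simp [hf], hf'.subset ?_⟩
    intro p hp hp'
    apply hp
    rw [Prod.fst_neg, Pi.neg_apply, map_neg, map_neg, hp']

theorem mem_G {x : K × ℝ} : x ∈ G ↔
    ∃ f : Polynomial ℤ, x.2 = ev f ∧ {p : ℕ × ℕ | red (x.1 p) ≠ φ p.1 f}.Finite := Iff.rfl

/-- the minimal subgroup -/
def N : AddSubgroup G where
  carrier := {x | x.1.2 = 0}
  zero_mem' := rfl
  add_mem' := by
    intro x y hx hy
    show x.1.2 + y.1.2 = 0
    rw [show x.1.2 = 0 from hx, show y.1.2 = 0 from hy, add_zero]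
  neg_mem' := by
    intro x hx
    show -x.1.2 = 0
    rw [show x.1.2 = 0 from hx, neg_zero]

/-- the closed subgroup -/
def H : AddSubgroup G where
  carrier := {x | ∀ i j, x.1.1 (i, j) = x.1.1 (i, 0)}
  zero_mem' := fun _ _ => rfl
  add_mem' := by
    intro x y hx hy i j
    show x.1.1 (i, j) + y.1.1 (i, j) = x.1.1 (i, 0) + y.1.1 (i, 0)
    rw [hx i j, hy i j]
  neg_mem' := by
    intro x hx i j
    show -x.1.1 (i, j) = -x.1.1 (i, 0)
    rw [hx i j]

theorem isClosed_N : IsClosed (N : Set G) :=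
  isClosed_eq (continuous_snd.comp continuous_subtype_val) continuous_const

theorem isClosed_H : IsClosed (H : Set G) := by
  have : (H : Set G) = ⋂ i, ⋂ j, {x : G | x.1.1 (i, j) = x.1.1 (i, 0)} := by
    ext x
    simp only [mem_iInter]
    exact Iff.rfl
  rw [this]
  refine isClosed_iInter fun i => isClosed_iInter fun j => ?_
  exact isClosed_eq (by fun_prop) (by fun_prop)

/-- twice an element of the compact group, as an element of `N` -/
def D (y : K) : N := ⟨⟨(2 • y, 0), ⟨0, by simp, by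
  have : {p : ℕ × ℕ | red ((2 • y) p) ≠ φ p.1 0} = ∅ := by
    ext p
    simp only [mem_ofPred_eq, mem_empty_iff_false, iff_false, not_not, map_zero]
    exact red_two (y p)
  show {p : ℕ × ℕ | red ((2 • y) p) ≠ φ p.1 0}.Finite
  rw [this]
  exact Set.finite_empty⟩⟩, rfl⟩

/-- the compact component -/
def v (x : N) : K := x.1.1.1

theorem D_v (x : N) : D (v x) = 2 • x := by
  apply Subtype.ext
  apply Subtype.ext
  have hx : x.1.1.2 = 0 := x.2
  refine Prod.ext rfl ?_
  show (0 : ℝ) = (2 • x.1.1).2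
  rw [Prod.smul_snd, hx, smul_zero]

theorem continuous_D : Continuous D := by
  refine Continuous.subtype_mk (Continuous.subtype_mk ?_ _) _
  fun_prop

theorem tendsto_two (𝒰 : Ultrafilter N) (z : K) (hz : Tendsto v 𝒰 (𝓝 z)) :
    Tendsto (fun x : N => 2 • x) 𝒰 (𝓝 (D z)) := by
  have := (continuous_D.tendsto z).comp hz
  refine this.congr fun x => ?_
  exact D_v x

theorem le_nhds_D (𝒰 : Ultrafilter N) (y : K) (hz : Tendsto v 𝒰 (𝓝 (2 • y))) :
    (𝒰 : Filter N) ≤ 𝓝 (D y) := by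
  have hind : Topology.IsInducing (fun x : N => x.1.1) :=
    (Topology.IsInducing.subtypeVal).comp Topology.IsInducing.subtypeVal
  rw [hind.nhds_eq_comap, ← tendsto_iff_comap]
  show Tendsto (fun x : N => x.1.1) 𝒰 (𝓝 ((2 • y, 0) : K × ℝ))
  rw [nhds_prod_eq]
  refine Tendsto.prodMk hz ?_
  refine tendsto_const_nhds.congr fun x => ?_
  exact (show x.1.1.2 = 0 from x.2).symm

theorem nhds_le_of {t₀ : TopologicalSpace N} (ht₀ : t₀ = instTopologicalSpaceSubtype)
    (s : TopologicalSpace N) (hs : t₀ ≤ s)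
    (hT2 : @T2Space N s) (hgrp : @IsTopologicalAddGroup N s _) :
    @nhds N s 0 ≤ @nhds N t₀ 0 := by
  subst ht₀
  rw [le_iff_ultrafilter]
  intro 𝒰 h𝒰
  obtain ⟨z, hz⟩ : ∃ z : K, (Ultrafilter.map v 𝒰 : Filter K) ≤ 𝓝 z :=
    ⟨_, Ultrafilter.le_nhds_lim _⟩
  have hz' : Tendsto v 𝒰 (𝓝 z) := hz
  -- `2 z = 0`
  have h1 := tendsto_two 𝒰 z hz'
  have h2 : Tendsto (fun x : N => 2 • x) 𝒰 (@nhds _ s (D z)) := h1.mono_right (_root_.nhds_mono hs)
  have h3 : Tendsto (fun x : N => 2 • x) 𝒰 (@nhds _ s 0) := by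
    have hc : @Continuous _ _ s s (fun x : N => 2 • x) := continuous_nsmul 2
    have := (@Continuous.tendsto _ _ s s _ hc 0)
    simp only [smul_zero] at this
    exact this.mono_left h𝒰
  have h4 : D z = 0 := @tendsto_nhds_unique _ _ s hT2 _ _ _ _ _ h2 h3
  have h5 : 2 • z = 0 := congrArg v h4
  -- `z` comes from `N`
  set y : K := fun p => if z p = 0 then 0 else 1 with hy
  have hzy : z = 2 • y := by
    funext p
    exact two_eq (z p) (congrFun h5 p)
  have h6 := le_nhds_D 𝒰 y (hzy ▸ hz')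
  have h7 : (𝒰 : Filter N) ≤ @nhds _ s (D y) := h6.trans (_root_.nhds_mono hs)
  have h8 : D y = 0 := @tendsto_nhds_unique _ _ s hT2 id _ _ _ _ h7 h𝒰
  rw [h8] at h6
  exact h6

theorem isMinimal_N : IsMinimalGrp N := by
  refine ⟨inferInstance, inferInstance, ?_⟩
  intro s hs hT2 hgrp
  have h := nhds_le_of rfl s hs hT2 hgrp
  exact @IsTopologicalAddGroup.ext N _ s _ hgrp inferInstance (le_antisymm h (_root_.nhds_mono hs))

/-- basic neighbourhoods in the ambient group -/
theorem exists_basic {W : Set (K × ℝ)} (hW : W ∈ 𝓝 (0 : K × ℝ)) :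
    ∃ (F : Finset (ℕ × ℕ)) (δ : ℝ), 0 < δ ∧ ∀ x : K × ℝ, (∀ p ∈ F, x.1 p = 0) → |x.2| < δ → x ∈ W := by
  rw [show (0 : K × ℝ) = (0, 0) from rfl, nhds_prod_eq, mem_prod_iff] at hW
  obtain ⟨A, hA, B, hB, hAB⟩ := hW
  obtain ⟨δ, hδ, hδB⟩ := Metric.mem_nhds_iff.1 hB
  obtain ⟨A', hA'A, hA'o, h0⟩ := mem_nhds_iff.1 hA
  obtain ⟨F, u, hu, hsub⟩ := isOpen_pi_iff.1 hA'o 0 h0
  refine ⟨F, δ, hδ, fun x hx hx2 => hAB ⟨hA'A (hsub ?_), hδB ?_⟩⟩
  · intro p hp
    rw [hx p hp]
    exact (hu p hp).2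
  · rw [Metric.mem_ball, dist_zero_right]
    exact hx2

/-- the projection to the reals -/
def sndG : G →+ ℝ := (AddMonoidHom.snd K ℝ).comp G.subtype

theorem ufss_GN : UFSS (G ⧸ N) := by
  haveI : IsClosed (N : Set G) := isClosed_N
  refine ⟨inferInstance, ?_⟩
  set π : G ⧸ N →+ ℝ := QuotientAddGroup.lift N sndG (fun x hx => hx) with hπ
  have hπmk : ∀ x : G, π (QuotientAddGroup.mk x) = x.1.2 := fun x => rfl
  have hπc : Continuous π := by
    refine continuous_quot_lift _ ?_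
    exact continuous_snd.comp continuous_subtype_val
  have key : ∀ W ∈ 𝓝 (0 : G ⧸ N), ∃ δ > 0, ∀ g, |π g| < δ → g ∈ W := by
    intro W hW
    have h1 : (QuotientAddGroup.mk : G → G ⧸ N) ⁻¹' W ∈ 𝓝 (0 : G) := by
      have : ContinuousAt (QuotientAddGroup.mk : G → G ⧸ N) 0 :=
        QuotientAddGroup.continuous_mk.continuousAt
      exact this hW
    rw [nhds_subtype_eq_comap] at h1
    obtain ⟨W', hW', hsub⟩ := h1
    obtain ⟨F, δ, hδ, hF⟩ := exists_basic hW'
    refine ⟨δ, hδ, ?_⟩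
    intro g
    induction g using QuotientAddGroup.induction_on with
    | H x =>
      intro hx
      rw [hπmk] at hx
      classical
      -- correct finitely many coordinates
      set w : K := fun p => if p ∈ F then x.1.1 p else 0 with hw
      have hwG : ((w, 0) : K × ℝ) ∈ G := by
        refine ⟨0, by simp, F.finite_toSet.subset ?_⟩
        intro p hp
        by_contra hc
        apply hp
        show red (w p) = φ p.1 0
        rw [hw, map_zero]
        simp only
        have hc' : p ∉ F := fun h => hc h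
        rw [if_neg hc', map_zero]
      have h2 : (QuotientAddGroup.mk x : G ⧸ N) = QuotientAddGroup.mk (x - ⟨(w, 0), hwG⟩) := by
        rw [QuotientAddGroup.eq]
        show (-x + (x - ⟨(w, 0), hwG⟩)).1.2 = 0
        simp
      rw [h2]
      refine hsub (hF _ ?_ ?_)
      · intro p hp
        show x.1.1 p - w p = 0
        rw [hw]
        simp only
        rw [if_pos hp, sub_self]
      · show |x.1.2 - 0| < δ
        rw [sub_zero]
        exact hx
  refine ⟨π ⁻¹' Ioo (-1) 1, ?_, ?_, ?_, ?_⟩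
  · exact hπc.continuousAt.preimage_mem_nhds (by rw [map_zero]; exact Ioo_mem_nhds (by norm_num) (by norm_num))
  · intro x hx
    obtain ⟨h1, h2⟩ := hx
    show π (-x) ∈ Ioo (-1) 1
    rw [map_neg]
    exact ⟨by linarith, by linarith⟩
  · intro n hn
    have h1 : π ⁻¹' Ioo (-(1 / (n : ℝ))) (1 / n) ∈ 𝓝 (0 : G ⧸ N) := by
      have hn' : (0 : ℝ) < 1 / n := by positivity
      exact hπc.continuousAt.preimage_mem_nhds (by
        rw [map_zero]; exact Ioo_mem_nhds (by linarith) hn')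
    refine mem_of_superset h1 ?_
    intro x hx k hk1 hkn
    obtain ⟨h2, h3⟩ := hx
    show π (k • x) ∈ Ioo (-1) 1
    rw [map_nsmul, nsmul_eq_mul]
    have hn' : (0 : ℝ) < n := by exact_mod_cast hn
    have hk' : (1 : ℝ) ≤ k := by exact_mod_cast hk1
    have hkn' : (k : ℝ) ≤ n := by exact_mod_cast hkn
    have h4 : |π x| < 1 / n := abs_lt.2 ⟨h2, h3⟩
    have h5 : |(k : ℝ) * π x| < 1 := by
      rw [abs_mul, abs_of_pos (by linarith : (0 : ℝ) < k)]
      calc (k : ℝ) * |π x| ≤ n * |π x| := mul_le_mul_of_nonneg_right hkn' (abs_nonneg _)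
        _ < n * (1 / n) := mul_lt_mul_of_pos_left h4 hn'
        _ = 1 := by field_simp
    exact ⟨(abs_lt.1 h5).1, (abs_lt.1 h5).2⟩
  · intro W hW
    obtain ⟨δ, hδ, hWδ⟩ := key W hW
    obtain ⟨n, hn⟩ := exists_nat_gt (1 / δ)
    have hn0 : (0 : ℝ) < n := lt_trans (by positivity) hn
    have hn1 : 1 ≤ n := by
      have : 0 < n := by exact_mod_cast hn0
      exact this
    refine ⟨n, hn1, fun x hx => hWδ x ?_⟩
    have h1 : π (n • x) ∈ Ioo (-1 : ℝ) 1 := hx n hn1 le_rfl
    rw [map_nsmul, nsmul_eq_mul] at h1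
    have h2 : |(n : ℝ) * π x| < 1 := abs_lt.2 ⟨h1.1, h1.2⟩
    rw [abs_mul, abs_of_pos hn0] at h2
    have h3 : 1 < δ * n := by
      rw [div_lt_iff₀ hδ] at hn
      linarith
    by_contra hc
    rw [not_lt] at hc
    have : δ * n ≤ n * |π x| := by
      rw [mul_comm]
      exact mul_le_mul_of_nonneg_left hc hn0.le
    linarith

theorem almostMinimal_G : AlmostMinimal G := ⟨N, isClosed_N, isMinimal_N, ufss_GN⟩

/-! ### The closed subgroup is not almost minimal -/

theorem red_eq {x : G} (hx : x ∈ H) {f : Polynomial ℤ} (hf : x.1.2 = ev f)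
    (hfin : {p : ℕ × ℕ | red (x.1.1 p) ≠ φ p.1 f}.Finite) (i j : ℕ) :
    red (x.1.1 (i, j)) = φ i f := by
  by_contra hc
  refine Set.infinite_of_injective_forall_mem (f := fun j' : ℕ => (i, j')) ?_ ?_ hfin
  · intro a b hab
    exact (Prod.mk.injEq _ _ _ _ ▸ hab).2
  · intro j'
    show red (x.1.1 (i, j')) ≠ φ i f
    rw [hx i j', ← hx i j]
    exact hc

theorem red_zero_of {x : G} (hx : x ∈ H) (h0 : x.1.2 = 0) (i j : ℕ) : red (x.1.1 (i, j)) = 0 := by
  obtain ⟨f, hf, hfin⟩ := x.2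
  have h1 := red_eq hx hf hfin i j
  rw [h0] at hf
  rw [ev_inj hf.symm] at h1
  rw [h1, map_zero]

theorem real_zero {M : AddSubgroup H} (hM : IsMinimalGrp M) (x : M) : x.1.1.1.2 = 0 := by
  obtain ⟨-, -, hmin⟩ := hM
  by_contra hx
  haveI : Fact ((0 : ℝ) < 1) := ⟨one_pos⟩
  haveI : Fact ((0 : ℝ) < √2) := ⟨by positivity⟩
  -- a coarser topology
  let J : M →+ K × AddCircle (1 : ℝ) × AddCircle (√2 : ℝ) :=
    { toFun := fun y => (y.1.1.1.1, (y.1.1.1.2 : AddCircle (1 : ℝ)), (y.1.1.1.2 : AddCircle (√2 : ℝ)))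
      map_zero' := rfl
      map_add' := fun _ _ => rfl }
  have hJc : Continuous J := by
    show Continuous fun y : M =>
      ((y.1.1.1.1, (y.1.1.1.2 : AddCircle (1 : ℝ)), (y.1.1.1.2 : AddCircle (√2 : ℝ))) :
        K × AddCircle (1 : ℝ) × AddCircle (√2 : ℝ))
    have h1 : Continuous fun y : M => y.1.1.1 :=
      continuous_subtype_val.comp (continuous_subtype_val.comp continuous_subtype_val)
    refine (continuous_fst.comp h1).prodMk ((?_ : Continuous _).prodMk ?_)
    · exact (AddCircle.continuous_mk' 1).comp (continuous_snd.comp h1)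
    · exact (AddCircle.continuous_mk' √2).comp (continuous_snd.comp h1)
  have hJinj : Function.Injective J := by
    rw [injective_iff_map_eq_zero]
    intro y hy
    have h1 : y.1.1.1.1 = 0 := congrArg Prod.fst hy
    have h2 : ((y.1.1.1.2 : ℝ) : AddCircle (1 : ℝ)) = 0 := congrArg (fun q => q.2.1) hy
    have h3 : ((y.1.1.1.2 : ℝ) : AddCircle (√2 : ℝ)) = 0 := congrArg (fun q => q.2.2) hy
    rw [AddCircle.coe_eq_zero_iff] at h2 h3
    obtain ⟨a, ha⟩ := h2
    obtain ⟨b, hb⟩ := h3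
    have h4 : y.1.1.1.2 = 0 := by
      by_contra hne
      have hb0 : b ≠ 0 := by
        rintro rfl
        apply hne
        rw [← hb]; simp
      apply irrational_sqrt_two
      refine ⟨(a : ℚ) / b, ?_⟩
      push_cast
      have hbr : (b : ℝ) ≠ 0 := by exact_mod_cast hb0
      rw [zsmul_eq_mul, mul_one] at ha
      rw [zsmul_eq_mul] at hb
      rw [div_eq_iff hbr, ha, ← hb, mul_comm]
    apply Subtype.ext
    apply Subtype.ext
    apply Subtype.ext
    exact Prod.ext h1 h4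
  have hs := hmin (TopologicalSpace.induced J inferInstance) (continuous_iff_le_induced.1 hJc)
    (by
      letI : TopologicalSpace M := TopologicalSpace.induced J inferInstance
      exact T2Space.of_injective_continuous hJinj continuous_induced_dom)
    (topologicalAddGroup_induced J)
  -- a neighbourhood of zero
  have h5 : {y : M | |y.1.1.1.2| < |x.1.1.1.2|} ∈ 𝓝 (0 : M) := by
    have hc : Continuous fun y : M => |y.1.1.1.2| := by
      have h1 : Continuous fun y : M => y.1.1.1 :=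
        continuous_subtype_val.comp (continuous_subtype_val.comp continuous_subtype_val)
      exact (continuous_snd.comp h1).abs
    refine (isOpen_lt hc continuous_const).mem_nhds ?_
    show |(0 : ℝ)| < _
    rw [abs_zero]
    exact abs_pos.2 hx
  rw [← hs, nhds_induced, map_zero] at h5
  obtain ⟨O, hO, hOsub⟩ := h5
  have h6 : ∃ᶠ k : ℕ in atTop, k • J x ∈ O :=
    (mapClusterPt_iff_frequently.1 (mapClusterPt_zero_atTop_nsmul (J x))) O hO
  obtain ⟨k, hk, hk1⟩ := (h6.and_eventually (eventually_ge_atTop 1)).exists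
  rw [← map_nsmul] at hk
  have h7 : |(k • x).1.1.1.2| < |x.1.1.1.2| := hOsub hk
  have h8 : (k • x).1.1.1.2 = k * x.1.1.1.2 := by
    rw [← nsmul_eq_mul]
    rfl
  rw [h8, abs_mul, abs_of_nonneg (Nat.cast_nonneg k)] at h7
  have hk' : (1 : ℝ) ≤ k := by exact_mod_cast hk1
  nlinarith [abs_pos.2 hx]

theorem not_almostMinimal_H : ¬ AlmostMinimal H := by
  rintro ⟨M, -, hM, -, U, hU, -, -, hbase⟩
  have hM0 : ∀ x : H, x ∈ M → ∀ i j, red (x.1.1.1 (i, j)) = 0 := fun x hx i j =>
    red_zero_of x.2 (real_zero hM ⟨x, hx⟩) i j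
  -- a small basic set inside `U`
  have h1 : (QuotientAddGroup.mk : H → H ⧸ M) ⁻¹' U ∈ 𝓝 (0 : H) :=
    (QuotientAddGroup.continuous_mk.continuousAt : ContinuousAt (QuotientAddGroup.mk : H → H ⧸ M) 0) hU
  rw [nhds_subtype_eq_comap] at h1
  obtain ⟨W₁, hW₁, hsub₁⟩ := h1
  have hW₁' : W₁ ∈ 𝓝 (0 : G) := hW₁
  rw [nhds_subtype_eq_comap] at hW₁'
  obtain ⟨W₂, hW₂, hsub₂⟩ := hW₁'
  obtain ⟨F, δ, hδ, hF⟩ := exists_basic hW₂
  obtain ⟨m, hm⟩ : ∃ m : ℕ, ∀ p ∈ F, p.1 < m := by
    obtain ⟨b, hb⟩ := (F.finite_toSet.image Prod.fst).bddAbove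
    exact ⟨b + 1, fun p hp => Nat.lt_succ_of_le (hb ⟨p, hp, rfl⟩)⟩
  -- an open set of the quotient
  set O : Set (H ⧸ M) := (QuotientAddGroup.mk : H → H ⧸ M) '' {x : H | red (x.1.1.1 (m, 0)) = 0}
    with hO
  have hOn : O ∈ 𝓝 (0 : H ⧸ M) := by
    have h2 : IsOpen {x : H | red (x.1.1.1 (m, 0)) = 0} := by
      have hc : Continuous fun x : H => x.1.1.1 (m, 0) := by
        have h1 : Continuous fun y : H => y.1.1 :=
          continuous_subtype_val.comp continuous_subtype_val
        exact (continuous_apply (m, 0)).comp (continuous_fst.comp h1)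
      exact (isOpen_discrete {z : ZMod 4 | red z = 0}).preimage hc
    exact (QuotientAddGroup.isOpenMap_coe _ h2).mem_nhds ⟨0, map_zero red, rfl⟩
  obtain ⟨n, hn, hnO⟩ := hbase O hOn
  -- a small element outside `O`
  obtain ⟨j, hj⟩ : ∃ j : ℕ, t ^ j < δ / n := by
    have hn' : (0 : ℝ) < n := by exact_mod_cast hn
    exact exists_pow_lt_of_lt_one (by positivity) t_lt
  set k := Nat.pair m j with hk
  have htk : t ^ k ≤ t ^ j := pow_le_pow_of_le_one t_pos.le t_lt.le (Nat.right_le_pair m j)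
  have hxG : (((fun p : ℕ × ℕ => if p.1 = m then 1 else 0), t ^ k) : K × ℝ) ∈ G := by
    refine ⟨Polynomial.X ^ k, ?_, ?_⟩
    · show t ^ k = Polynomial.aeval t (Polynomial.X ^ k : Polynomial ℤ)
      simp
    · have : {p : ℕ × ℕ | red (if p.1 = m then 1 else 0) ≠ φ p.1 (Polynomial.X ^ k)} = ∅ := by
        ext p
        simp only [mem_ofPred_eq, mem_empty_iff_false, iff_false, not_not]
        rw [hk, φ_X_pow]
        by_cases h : p.1 = m
        · rw [if_pos h, if_pos h]; decide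
        · rw [if_neg h, if_neg h, map_zero]
      show {p : ℕ × ℕ | red (if p.1 = m then 1 else 0) ≠ φ p.1 (Polynomial.X ^ k)}.Finite
      rw [this]
      exact Set.finite_empty
  set x : H := ⟨⟨_, hxG⟩, fun i j => rfl⟩ with hx
  have hxU : (QuotientAddGroup.mk x : H ⧸ M) ∈ Frac U n := by
    intro l hl1 hln
    show ((l • (QuotientAddGroup.mk x : H ⧸ M))) ∈ U
    rw [← QuotientAddGroup.mk_nsmul]
    refine hsub₁ (show (l • x).1 ∈ W₁ from hsub₂ (show (l • x).1.1 ∈ W₂ from hF _ ?_ ?_))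
    · intro p hp
      show l • (if p.1 = m then (1 : ZMod 4) else 0) = 0
      rw [if_neg (hm p hp).ne, smul_zero]
    · show |l • t ^ k| < δ
      have hn' : (0 : ℝ) < n := by exact_mod_cast hn
      have hln' : (l : ℝ) ≤ n := by exact_mod_cast hln
      have htk0 : 0 < t ^ k := pow_pos t_pos k
      rw [nsmul_eq_mul, abs_of_nonneg (by positivity)]
      calc (l : ℝ) * t ^ k ≤ n * t ^ k := mul_le_mul_of_nonneg_right hln' htk0.le
        _ ≤ n * t ^ j := mul_le_mul_of_nonneg_left htk hn'.le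
        _ < n * (δ / n) := mul_lt_mul_of_pos_left hj hn'
        _ = δ := by field_simp
  obtain ⟨y, hy, hyx⟩ := hnO hxU
  have h3 : -y + x ∈ M := QuotientAddGroup.eq.1 hyx
  have h4 := hM0 _ h3 m 0
  have h5 : red (-(y.1.1.1 (m, 0)) + 1) = 0 := by
    have : (-y + x).1.1.1 (m, 0) = -(y.1.1.1 (m, 0)) + 1 := by
      show -(y.1.1.1 (m, 0)) + (if m = m then (1 : ZMod 4) else 0) = _
      rw [if_pos rfl]
    rwa [this] at h4
  have hy' : red (y.1.1.1 (m, 0)) = 0 := hy
  rw [map_add, map_neg, hy', neg_zero, zero_add] at h5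
  exact red_one h5

end Pool.Agent.X197.AlmostMin
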