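import Mathlib

/-!
# Chaotic weighted composition operators on smooth functions are mixing
-/

set_option autoImplicit false

namespace Pool.Agent.X197.ChaosMix

open Set Filter Topology
open scoped ContDiff Manifold InnerProductSpace

/-- The Euclidean space of dimension `d`. -/
abbrev Eu (d : ℕ) : Type := EuclideanSpace ℝ (Fin d)

variable {d : ℕ} {𝕂 : Type*} [RCLike 𝕂]

/-- `f` is a smooth function on `Ω`. -/
def Smooth (Ω : Set (Eu d)) (f : Eu d → 𝕂) : Prop := ContDiffOn ℝ ∞ f Ω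

/-- `f` and `g` are `ε`-close on `L` together with all derivatives up to order `n`. -/
def IsClose (L : Set (Eu d)) (n : ℕ) (ε : ℝ) (f g : Eu d → 𝕂) : Prop :=
  ∀ k ≤ n, ∀ x ∈ L, ‖iteratedFDeriv ℝ k f x - iteratedFDeriv ℝ k g x‖ < ε

/-- The weighted composition operator `f ↦ w · (f ∘ ψ)`. -/
def wcomp (w : Eu d → 𝕂) (ψ : Eu d → Eu d) (f : Eu d → 𝕂) : Eu d → 𝕂 := fun x => w x * f (ψ x)

/-- Transitivity of `T` on the smooth functions on `Ω`. -/
def IsTransitive (Ω : Set (Eu d)) (T : (Eu d → 𝕂) → Eu d → 𝕂) : Prop :=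
  ∀ f g, Smooth Ω f → Smooth Ω g → ∀ L ⊆ Ω, IsCompact L → ∀ (n : ℕ) (ε : ℝ), 0 < ε →
    ∃ (m : ℕ) (h : Eu d → 𝕂), Smooth Ω h ∧ IsClose L n ε f h ∧ IsClose L n ε g (T^[m] h)

/-- Mixing of `T` on the smooth functions on `Ω`. -/
def IsMixing (Ω : Set (Eu d)) (T : (Eu d → 𝕂) → Eu d → 𝕂) : Prop :=
  ∀ f g, Smooth Ω f → Smooth Ω g → ∀ L ⊆ Ω, IsCompact L → ∀ (n : ℕ) (ε : ℝ), 0 < ε →
    ∃ N : ℕ, ∀ m ≥ N, ∃ h : Eu d → 𝕂,
      Smooth Ω h ∧ IsClose L n ε f h ∧ IsClose L n ε g (T^[m] h)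

/-- Density of the periodic points of `T` in the smooth functions on `Ω`. -/
def DensePeriodic (Ω : Set (Eu d)) (T : (Eu d → 𝕂) → Eu d → 𝕂) : Prop :=
  ∀ f, Smooth Ω f → ∀ L ⊆ Ω, IsCompact L → ∀ (n : ℕ) (ε : ℝ), 0 < ε →
    ∃ h, Smooth Ω h ∧ (∃ m : ℕ, 1 ≤ m ∧ ∀ x ∈ Ω, (T^[m] h) x = h x) ∧ IsClose L n ε f h

/-- Chaos: transitivity and density of the periodic points. -/
def IsChaotic (Ω : Set (Eu d)) (T : (Eu d → 𝕂) → Eu d → 𝕂) : Prop :=
  IsTransitive Ω T ∧ DensePeriodic Ω T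

/-! ### Iterates -/

/-- the product of the weight along the orbit -/
noncomputable def W (w : Eu d → 𝕂) (ψ : Eu d → Eu d) (n : ℕ) (x : Eu d) : 𝕂 :=
  ∏ j ∈ Finset.range n, w (ψ^[j] x)

theorem iter_apply (w : Eu d → 𝕂) (ψ : Eu d → Eu d) (n : ℕ) (f : Eu d → 𝕂) (x : Eu d) :
    ((wcomp w ψ)^[n] f) x = W w ψ n x * f (ψ^[n] x) := by
  induction n generalizing f with
  | zero => simp [W]
  | succ n ih =>
    rw [Function.iterate_succ_apply, ih]
    simp only [W, wcomp, Finset.prod_range_succ]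
    rw [Function.iterate_succ_apply', mul_assoc]

/-- the standing assumptions -/
structure Data (Ω : Set (Eu d)) (w : Eu d → 𝕂) (ψ : Eu d → Eu d) : Prop where
  isOpen : IsOpen Ω
  hw : Smooth Ω w
  hψ : ContDiffOn ℝ ∞ ψ Ω
  maps : MapsTo ψ Ω Ω

variable {Ω : Set (Eu d)} {w : Eu d → 𝕂} {ψ : Eu d → Eu d}

theorem iter_psi (H : Data Ω w ψ) (n : ℕ) : ContDiffOn ℝ ∞ (ψ^[n]) Ω := by
  induction n with
  | zero => exact contDiffOn_id
  | succ n ih =>
    rw [Function.iterate_succ]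
    exact ih.comp H.hψ H.maps

theorem iter_smooth (H : Data Ω w ψ) {f : Eu d → 𝕂} (hf : Smooth Ω f) (n : ℕ) :
    Smooth Ω ((wcomp w ψ)^[n] f) := by
  induction n generalizing f with
  | zero => exact hf
  | succ n ih =>
    rw [Function.iterate_succ_apply]
    refine ih ?_
    exact ContDiffOn.mul H.hw (ContDiffOn.comp hf H.hψ H.maps)

theorem iter_congr (H : Data Ω w ψ) {f g : Eu d → 𝕂} (h : ∀ x ∈ Ω, f x = g x) (n : ℕ) :
    ∀ x ∈ Ω, ((wcomp w ψ)^[n] f) x = ((wcomp w ψ)^[n] g) x := by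
  intro x hx
  rw [iter_apply, iter_apply, h _ (H.maps.iterate n hx)]

/-- `h` is a smooth periodic function with period `m` -/
def Per (Ω : Set (Eu d)) (w : Eu d → 𝕂) (ψ : Eu d → Eu d) (m : ℕ) (h : Eu d → 𝕂) : Prop :=
  Smooth Ω h ∧ ∀ x ∈ Ω, ((wcomp w ψ)^[m] h) x = h x

theorem Per.mul (H : Data Ω w ψ) {m : ℕ} {f : Eu d → 𝕂} (h : Per Ω w ψ m f) (k : ℕ) :
    Per Ω w ψ (m * k) f := by
  refine ⟨h.1, ?_⟩
  induction k with
  | zero => intro x _; simp
  | succ k ih =>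
    intro x hx
    rw [Nat.mul_succ, Function.iterate_add_apply, iter_congr H h.2 _ x hx]
    exact ih x hx

theorem Per.add (H : Data Ω w ψ) {m : ℕ} {f : Eu d → 𝕂} (h : Per Ω w ψ m f) (n k : ℕ) :
    ∀ x ∈ Ω, ((wcomp w ψ)^[n + m * k] f) x = ((wcomp w ψ)^[n] f) x := by
  intro x hx
  rw [Function.iterate_add_apply]
  exact iter_congr H (h.mul H k).2 n x hx

/-! ### Closeness -/

theorem IsClose.zero {L : Set (Eu d)} {n : ℕ} {ε : ℝ} {f g : Eu d → 𝕂} (h : IsClose L n ε f g)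
    {x : Eu d} (hx : x ∈ L) : ‖f x - g x‖ < ε := by
  have h1 := h 0 (Nat.zero_le _) x hx
  rw [iteratedFDeriv_zero_eq_comp, iteratedFDeriv_zero_eq_comp] at h1
  simp only [Function.comp_apply] at h1
  rwa [← map_sub, LinearIsometryEquiv.norm_map] at h1

theorem IsClose.one {L : Set (Eu d)} {ε : ℝ} {f g : Eu d → 𝕂} (h : IsClose L 1 ε f g)
    {x : Eu d} (hx : x ∈ L) (v : Eu d) : ‖fderiv ℝ f x v - fderiv ℝ g x v‖ ≤ ε * ‖v‖ := by
  have h1 := (h 1 le_rfl x hx).le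
  have h2 : (iteratedFDeriv ℝ 1 f x - iteratedFDeriv ℝ 1 g x) (fun _ => v) =
      fderiv ℝ f x v - fderiv ℝ g x v := by
    simp [iteratedFDeriv_one_apply]
  rw [← h2]
  refine (ContinuousMultilinearMap.le_opNorm _ _).trans ?_
  simp only [Finset.univ_unique, Finset.prod_const, Finset.card_singleton, pow_one]
  gcongr

/-- a constraint which holds for periodic functions holds for all smooth functions -/
theorem principle (D : DensePeriodic Ω (wcomp w ψ)) {L : Set (Eu d)} (hL : L ⊆ Ω)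
    (hLc : IsCompact L) (Λ : (Eu d → 𝕂) → 𝕂) (C : ℝ)
    (hC : ∀ f h ε, 0 < ε → Smooth Ω f → Smooth Ω h → IsClose L 1 ε f h → ‖Λ f - Λ h‖ ≤ C * ε)
    (h0 : ∀ h m, 1 ≤ m → Per Ω w ψ m h → Λ h = 0) (f : Eu d → 𝕂) (hf : Smooth Ω f) :
    Λ f = 0 := by
  by_contra hne
  have hpos : 0 < ‖Λ f‖ := norm_pos_iff.2 hne
  have hC1 : 0 < 2 * (|C| + 1) := by positivity
  obtain ⟨h, hh, ⟨m, hm, hper⟩, hcl⟩ := D f hf L hL hLc 1 (‖Λ f‖ / (2 * (|C| + 1))) (by positivity)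
  have h1 := hC f h _ (by positivity) hf hh hcl
  rw [h0 h m hm ⟨hh, hper⟩, sub_zero] at h1
  have h2 : C * (‖Λ f‖ / (2 * (|C| + 1))) ≤ |C| * (‖Λ f‖ / (2 * (|C| + 1))) := by
    gcongr
    exact le_abs_self C
  have h3 : |C| * (‖Λ f‖ / (2 * (|C| + 1))) < ‖Λ f‖ := by
    rw [← mul_div_assoc, div_lt_iff₀ hC1]
    nlinarith [abs_nonneg C]
  linarith

theorem smooth_const (c : 𝕂) : Smooth Ω (fun _ : Eu d => c) := contDiffOn_const

theorem smooth_inner (v : Eu d) : Smooth Ω (fun z : Eu d => ((⟪v, z⟫_ℝ : ℝ) : 𝕂)) := by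
  have h1 : ContDiff ℝ ∞ (fun z : Eu d => ⟪v, z⟫_ℝ) := (innerSL ℝ v).contDiff
  have h2 : ContDiff ℝ ∞ (fun r : ℝ => (r : 𝕂)) := (RCLike.ofRealCLM (K := 𝕂)).contDiff
  exact (h2.comp h1).contDiffOn

theorem fderiv_inner (v x u : Eu d) :
    fderiv ℝ (fun z : Eu d => ((⟪v, z⟫_ℝ : ℝ) : 𝕂)) x u = ((⟪v, u⟫_ℝ : ℝ) : 𝕂) := by
  have h1 : HasFDerivAt (fun z : Eu d => ((⟪v, z⟫_ℝ : ℝ) : 𝕂))
      ((RCLike.ofRealCLM (K := 𝕂)).comp (innerSL ℝ v)) x :=
    ((RCLike.ofRealCLM (K := 𝕂)).comp (innerSL ℝ v)).hasFDerivAt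
  rw [h1.fderiv]
  simp

theorem sep {x y : Eu d} (h : ∀ f : Eu d → 𝕂, Smooth Ω f → f x = f y) : x = y := by
  have h1 := h _ (smooth_inner (x - y))
  have h2 : (⟪x - y, x⟫_ℝ : ℝ) = ⟪x - y, y⟫_ℝ := by exact_mod_cast h1
  have h3 : ⟪x - y, x - y⟫_ℝ = 0 := by rw [inner_sub_right, h2, sub_self]
  exact sub_eq_zero.1 (inner_self_eq_zero.1 h3)

/-! ### First consequences of the density of the periodic functions -/

theorem w_ne (H : Data Ω w ψ) (D : DensePeriodic Ω (wcomp w ψ)) {x : Eu d} (hx : x ∈ Ω) :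
    w x ≠ 0 := by
  intro h0
  have h1 : ∀ f : Eu d → 𝕂, Smooth Ω f → f x = 0 := by
    refine principle D (singleton_subset_iff.2 hx) isCompact_singleton (fun f => f x) 1 ?_ ?_
    · intro f h ε _ _ _ hcl
      rw [one_mul]
      exact (hcl.zero (mem_singleton x)).le
    · intro h m hm hper
      rw [← hper.2 x hx, iter_apply]
      have : W w ψ m x = 0 :=
        Finset.prod_eq_zero (i := 0) (Finset.mem_range.2 hm) (by simpa using h0)
      rw [this, zero_mul]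
  exact one_ne_zero (h1 (fun _ => 1) (smooth_const 1))

theorem W_ne (H : Data Ω w ψ) (D : DensePeriodic Ω (wcomp w ψ)) {x : Eu d} (hx : x ∈ Ω) (n : ℕ) :
    W w ψ n x ≠ 0 :=
  Finset.prod_ne_zero_iff.2 fun j _ => w_ne H D (H.maps.iterate j hx)

theorem per_eq (H : Data Ω w ψ) {m : ℕ} (hm : 1 ≤ m) {h : Eu d → 𝕂} (hh : Per Ω w ψ m h) :
    ∃ g : Eu d → 𝕂, Smooth Ω g ∧ ∀ x ∈ Ω, h x = w x * g (ψ x) := by
  obtain ⟨k, rfl⟩ : ∃ k, m = k + 1 := ⟨m - 1, by omega⟩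
  refine ⟨(wcomp w ψ)^[k] h, iter_smooth H hh.1 k, fun x hx => ?_⟩
  rw [← hh.2 x hx, Function.iterate_succ_apply']
  rfl

/-- bilinear constraints on values -/
theorem principle2 (D : DensePeriodic Ω (wcomp w ψ)) {x y : Eu d} (hx : x ∈ Ω)
    (hy : y ∈ Ω) (a b : 𝕂) (h0 : ∀ h m, 1 ≤ m → Per Ω w ψ m h → h x * a - h y * b = 0) :
    ∀ f : Eu d → 𝕂, Smooth Ω f → f x * a - f y * b = 0 := by
  refine principle D (L := {x, y}) (by rintro z (rfl | rfl) <;> assumption)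
    (by simp) (fun f => f x * a - f y * b) (‖a‖ + ‖b‖) ?_ h0
  intro f h ε _ _ _ hcl
  have e : f x * a - f y * b - (h x * a - h y * b) = (f x - h x) * a - (f y - h y) * b := by ring
  rw [e]
  refine (norm_sub_le _ _).trans ?_
  rw [norm_mul, norm_mul]
  have h2 := (hcl.zero (x := x) (by simp)).le
  have h3 := (hcl.zero (x := y) (by simp)).le
  have h4 := norm_nonneg a
  have h5 := norm_nonneg b
  nlinarith [mul_le_mul_of_nonneg_right h2 h4, mul_le_mul_of_nonneg_right h3 h5]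

/-- bilinear constraints on values and derivatives -/
theorem principle3 (D : DensePeriodic Ω (wcomp w ψ)) {x v : Eu d} (hx : x ∈ Ω)
    (a b : 𝕂) (h0 : ∀ h m, 1 ≤ m → Per Ω w ψ m h → fderiv ℝ h x v * a - h x * b = 0) :
    ∀ f : Eu d → 𝕂, Smooth Ω f → fderiv ℝ f x v * a - f x * b = 0 := by
  refine principle D (L := {x}) (singleton_subset_iff.2 hx) isCompact_singleton
    (fun f => fderiv ℝ f x v * a - f x * b) (‖v‖ * ‖a‖ + ‖b‖) ?_ h0
  intro f h ε _ _ _ hcl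
  have e : fderiv ℝ f x v * a - f x * b - (fderiv ℝ h x v * a - h x * b) =
      (fderiv ℝ f x v - fderiv ℝ h x v) * a - (f x - h x) * b := by ring
  rw [e]
  refine (norm_sub_le _ _).trans ?_
  rw [norm_mul, norm_mul]
  have h2 := (hcl.zero (x := x) (by simp)).le
  have h3 := hcl.one (x := x) (by simp) v
  have h4 := norm_nonneg a
  have h5 := norm_nonneg b
  nlinarith [mul_le_mul_of_nonneg_right h3 h4, mul_le_mul_of_nonneg_right h2 h5]

theorem inj (H : Data Ω w ψ) (D : DensePeriodic Ω (wcomp w ψ)) : InjOn ψ Ω := by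
  intro x hx y hy hxy
  have h1 := principle2 D hx hy (w y) (w x) (by
    intro h m hm hper
    obtain ⟨g, -, hg⟩ := per_eq H hm hper
    rw [hg x hx, hg y hy, hxy]
    ring)
  have h2 : w y = w x := by
    have := h1 _ (smooth_const 1)
    simpa [sub_eq_zero] using this
  refine sep (𝕂 := 𝕂) (Ω := Ω) fun f hf => ?_
  have h3 := h1 f hf
  rw [h2, ← sub_mul] at h3
  exact sub_eq_zero.1 ((mul_eq_zero.1 h3).resolve_right (w_ne H D hx))

theorem fderiv_const_one (x v : Eu d) : fderiv ℝ (fun _ : Eu d => (1 : 𝕂)) x v = 0 := by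
  simp

theorem der (H : Data Ω w ψ) (D : DensePeriodic Ω (wcomp w ψ)) {x : Eu d} (hx : x ∈ Ω) {v : Eu d}
    (hv : fderiv ℝ ψ x v = 0) : v = 0 := by
  have hΩ := H.isOpen.mem_nhds hx
  have hwx : DifferentiableAt ℝ w x := (ContDiffOn.contDiffAt H.hw hΩ).differentiableAt (by simp)
  have hψx : DifferentiableAt ℝ ψ x := (H.hψ.contDiffAt hΩ).differentiableAt (by simp)
  have h1 := principle3 D (v := v) hx (w x) (fderiv ℝ w x v) (by
    intro h m hm hper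
    obtain ⟨g, hgs, hg⟩ := per_eq H hm hper
    have hgx : DifferentiableAt ℝ g (ψ x) :=
      (ContDiffOn.contDiffAt hgs (H.isOpen.mem_nhds (H.maps hx))).differentiableAt (by simp)
    have h2 : h =ᶠ[𝓝 x] fun z => w z * g (ψ z) := by
      filter_upwards [hΩ] with z hz using hg z hz
    have h3 : HasFDerivAt (fun z => w z * g (ψ z))
        (w x • ((fderiv ℝ g (ψ x)).comp (fderiv ℝ ψ x)) + g (ψ x) • fderiv ℝ w x) x :=
      hwx.hasFDerivAt.mul (hgx.hasFDerivAt.comp x hψx.hasFDerivAt)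
    have h4 : fderiv ℝ h x v = g (ψ x) * fderiv ℝ w x v := by
      rw [h2.fderiv_eq, h3.fderiv]
      simp [hv]
    rw [h4, hg x hx]
    ring)
  have h5 : fderiv ℝ w x v = 0 := by
    have := h1 _ (smooth_const 1)
    rw [fderiv_const_one] at this
    simpa using this
  have h6 := h1 _ (smooth_inner v)
  rw [fderiv_inner, h5, mul_zero, sub_zero] at h6
  have h7 := (mul_eq_zero.1 h6).resolve_right (w_ne H D hx)
  have h8 : ⟪v, v⟫_ℝ = 0 := by exact_mod_cast h7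
  exact inner_self_eq_zero.1 h8

/-! ### No periodic points -/

theorem prod_shift (g : ℕ → 𝕂) {N : ℕ} (hN : 1 ≤ N) (h : g N = g 0) :
    ∏ j ∈ Finset.range N, g (j + 1) = ∏ j ∈ Finset.range N, g j := by
  obtain ⟨M, rfl⟩ : ∃ M, N = M + 1 := ⟨N - 1, by omega⟩
  rw [Finset.prod_range_succ, Finset.prod_range_succ', h]

theorem noper (H : Data Ω w ψ) (hT : IsTransitive Ω (wcomp w ψ)) {y : Eu d} (hy : y ∈ Ω) {N : ℕ}
    (hN : 1 ≤ N) : ψ^[N] y ≠ y := by
  intro hper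
  set P : (Eu d → 𝕂) → 𝕂 := fun f => ∏ j ∈ Finset.range N, f (ψ^[j] y) with hP
  set lam : 𝕂 := P w with hlam
  have h1 : ∀ f : Eu d → 𝕂, P (wcomp w ψ f) = lam * P f := by
    intro f
    simp only [hP, wcomp, hlam]
    rw [Finset.prod_mul_distrib]
    congr 1
    have h2 := prod_shift (fun j => f (ψ^[j] y)) hN (by simp [hper])
    simp only [Function.iterate_succ_apply'] at h2
    exact h2
  have h2 : ∀ (m : ℕ) (f : Eu d → 𝕂), P ((wcomp w ψ)^[m] f) = lam ^ m * P f := by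
    intro m
    induction m with
    | zero => intro f; simp
    | succ m ih =>
      intro f
      rw [Function.iterate_succ_apply', h1, ih, pow_succ]
      ring
  set L : Set (Eu d) := (fun j => ψ^[j] y) '' (Finset.range N : Set ℕ) with hL
  have hLΩ : L ⊆ Ω := by
    rintro _ ⟨j, -, rfl⟩
    exact H.maps.iterate j hy
  have hLc : IsCompact L := ((Finset.finite_toSet _).image _).isCompact
  have hbig : ∀ f : Eu d → 𝕂, IsClose L 0 (1 / 2) (fun _ => (2 : 𝕂)) f → 1 < ‖P f‖ := by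
    intro f hf
    simp only [hP]
    rw [norm_prod]
    have h3 : ∀ j ∈ Finset.range N, (3 / 2 : ℝ) ≤ ‖f (ψ^[j] y)‖ := by
      intro j hj
      have h4 := hf.zero (x := ψ^[j] y) ⟨j, by simpa using hj, rfl⟩
      have h5 : ‖(2 : 𝕂)‖ = 2 := by simp
      have h6 := norm_sub_norm_le (2 : 𝕂) (f (ψ^[j] y))
      linarith
    have h7 : ∏ _j ∈ Finset.range N, (3 / 2 : ℝ) ≤ ∏ j ∈ Finset.range N, ‖f (ψ^[j] y)‖ :=
      Finset.prod_le_prod (fun _ _ => by norm_num) h3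
    rw [Finset.prod_const, Finset.card_range] at h7
    exact lt_of_lt_of_le (one_lt_pow₀ (by norm_num) (by omega)) h7
  have hsmall : ∀ f : Eu d → 𝕂, IsClose L 0 (1 / 2) (fun _ => (0 : 𝕂)) f → ‖P f‖ < 1 := by
    intro f hf
    simp only [hP]
    rw [norm_prod]
    have h3 : ∀ j ∈ Finset.range N, ‖f (ψ^[j] y)‖ ≤ 1 / 2 := by
      intro j hj
      have h4 := hf.zero (x := ψ^[j] y) ⟨j, by simpa using hj, rfl⟩
      simp only [zero_sub, norm_neg] at h4
      exact h4.le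
    have h7 : ∏ j ∈ Finset.range N, ‖f (ψ^[j] y)‖ ≤ ∏ _j ∈ Finset.range N, (1 / 2 : ℝ) :=
      Finset.prod_le_prod (fun _ _ => norm_nonneg _) h3
    rw [Finset.prod_const, Finset.card_range] at h7
    exact lt_of_le_of_lt h7 (pow_lt_one₀ (by norm_num) (by norm_num) (by omega))
  rcases le_total 1 ‖lam‖ with hl | hl
  · obtain ⟨m, h, -, ha, hb⟩ := hT (fun _ => 2) (fun _ => 0) (smooth_const _) (smooth_const _) L hLΩ
      hLc 0 (1 / 2) (by norm_num)
    have h3 := hbig h ha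
    have h4 := hsmall _ hb
    rw [h2, norm_mul, norm_pow] at h4
    have h5 : 1 ≤ ‖lam‖ ^ m := one_le_pow₀ hl
    nlinarith
  · obtain ⟨m, h, -, ha, hb⟩ := hT (fun _ => 0) (fun _ => 2) (smooth_const _) (smooth_const _) L hLΩ
      hLc 0 (1 / 2) (by norm_num)
    have h3 := hsmall h ha
    have h4 := hbig _ hb
    rw [h2, norm_mul, norm_pow] at h4
    have h5 : ‖lam‖ ^ m ≤ 1 := pow_le_one₀ (norm_nonneg _) hl
    nlinarith [norm_nonneg (P h)]

end Pool.Agent.X197.ChaosMix
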