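import Pool.Agent.X197.ChaosMix

set_option autoImplicit false

namespace Pool.Agent.X197.ChaosMix

open Set Filter Topology
open scoped ContDiff Manifold InnerProductSpace

variable {d : ℕ} {𝕂 : Type*} [RCLike 𝕂]
variable {Ω : Set (Eu d)} {w : Eu d → 𝕂} {ψ : Eu d → Eu d}

theorem class_exists (n : ℕ → ℕ) {m : ℕ} (hm : 1 ≤ m) :
    ∃ r < m, ∃ᶠ k in (atTop : Filter ℕ), n k % m = r := by
  by_contra hcon
  push Not at hcon
  have h1 : ∀ r ∈ Finset.range m, ∀ᶠ k in (atTop : Filter ℕ), n k % m ≠ r := fun r hr =>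
    hcon r (Finset.mem_range.1 hr)
  have h2 := (Filter.eventually_all_finset _).2 h1
  obtain ⟨k, hk⟩ := h2.exists
  exact hk _ (Finset.mem_range.2 (Nat.mod_lt _ hm)) rfl

theorem cont (H : Data Ω w ψ) {f : Eu d → 𝕂} (hf : Smooth Ω f) {q : Eu d} (hq : q ∈ Ω) :
    ContinuousAt f q := (ContDiffOn.contDiffAt hf (H.isOpen.mem_nhds hq)).continuousAt

theorem Per.iter (H : Data Ω w ψ) {m : ℕ} {f : Eu d → 𝕂} (h : Per Ω w ψ m f) (n : ℕ) :
    Per Ω w ψ m ((wcomp w ψ)^[n] f) := by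
  refine ⟨iter_smooth H h.1 n, fun x hx => ?_⟩
  rw [← Function.iterate_add_apply, add_comm, Function.iterate_add_apply]
  exact iter_congr H h.2 n x hx

theorem aux (H : Data Ω w ψ) {m r : ℕ} (hr : r < m) {n : ℕ → ℕ} {x : ℕ → Eu d} {q p : Eu d}
    (hq : q ∈ Ω) (hp : p ∈ Ω) (hx : Tendsto x atTop (𝓝 q))
    (h : Tendsto (fun k => ψ^[n k] (x k)) atTop (𝓝 p))
    (hfr : ∃ᶠ k in (atTop : Filter ℕ), n k % m = r) {f F : Eu d → 𝕂} (hf : Per Ω w ψ m f)
    (hF : Per Ω w ψ m F) :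
    ((wcomp w ψ)^[r] f) q * ((wcomp w ψ)^[m - r] F) p = F q * f p := by
  set S : Set ℕ := {k | n k % m = r} with hS
  have hfr' : ∃ᶠ k in (atTop : Filter ℕ), k ∈ S := hfr
  have hne : NeBot (atTop ⊓ 𝓟 S) := Filter.frequently_mem_iff_neBot.1 hfr'
  have hx' : Tendsto x (atTop ⊓ 𝓟 S) (𝓝 q) := hx.mono_left inf_le_left
  have h' : Tendsto (fun k => ψ^[n k] (x k)) (atTop ⊓ 𝓟 S) (𝓝 p) := h.mono_left inf_le_left
  have c1 : Tendsto (fun k => ((wcomp w ψ)^[r] f) (x k) *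
      ((wcomp w ψ)^[m - r] F) (ψ^[n k] (x k))) (atTop ⊓ 𝓟 S)
      (𝓝 (((wcomp w ψ)^[r] f) q * ((wcomp w ψ)^[m - r] F) p)) :=
    ((cont H (iter_smooth H hf.1 r) hq).tendsto.comp hx').mul
      ((cont H (iter_smooth H hF.1 _) hp).tendsto.comp h')
  have c2 : Tendsto (fun k => F (x k) * f (ψ^[n k] (x k))) (atTop ⊓ 𝓟 S) (𝓝 (F q * f p)) :=
    ((cont H hF.1 hq).tendsto.comp hx').mul ((cont H hf.1 hp).tendsto.comp h')
  refine tendsto_nhds_unique c1 (c2.congr' ?_)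
  have e1 : ∀ᶠ k in atTop ⊓ 𝓟 S, x k ∈ Ω := hx'.eventually (H.isOpen.mem_nhds hq)
  have e2 : ∀ᶠ k in atTop ⊓ 𝓟 S, k ∈ S := mem_inf_of_right (mem_principal_self S)
  filter_upwards [e1, e2] with k hk1 hk2
  have hk3 : n k % m = r := hk2
  have hk4 : n k = r + m * (n k / m) := by
    rw [← hk3]
    exact (Nat.mod_add_div _ _).symm
  have e3 : ((wcomp w ψ)^[r] f) (x k) = W w ψ (n k) (x k) * f (ψ^[n k] (x k)) := by
    rw [← iter_apply]
    conv_rhs => rw [hk4]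
    exact (hf.add H r _ _ hk1).symm
  have e4 : F (x k) = W w ψ (n k) (x k) * ((wcomp w ψ)^[m - r] F) (ψ^[n k] (x k)) := by
    rw [← iter_apply, ← Function.iterate_add_apply]
    have e5 : n k + (m - r) = 0 + m * (n k / m + 1) := by
      rw [Nat.mul_succ]
      omega
    rw [e5, hF.add H 0 _ _ hk1]
    rfl
  rw [e3, e4]
  ring

theorem exists_ne (D : DensePeriodic Ω (wcomp w ψ)) {q : Eu d} (hq : q ∈ Ω) :
    ∃ (F : Eu d → 𝕂) (m : ℕ), 1 ≤ m ∧ Per Ω w ψ m F ∧ F q ≠ 0 := by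
  obtain ⟨h, hh, ⟨m, hm, hper⟩, hcl⟩ := D (fun _ => (1 : 𝕂)) (smooth_const 1) {q}
    (singleton_subset_iff.2 hq) isCompact_singleton 0 1 one_pos
  refine ⟨h, m, hm, ⟨hh, hper⟩, fun h0 => ?_⟩
  have h1 := hcl.zero (mem_singleton q)
  rw [h0] at h1
  simp at h1

/-- uniqueness of limits -/
theorem S1 (H : Data Ω w ψ) (D : DensePeriodic Ω (wcomp w ψ)) {n : ℕ → ℕ} {x x' : ℕ → Eu d}
    {q p p' : Eu d} (hq : q ∈ Ω) (hp : p ∈ Ω) (hp' : p' ∈ Ω) (hx : Tendsto x atTop (𝓝 q))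
    (hx' : Tendsto x' atTop (𝓝 q)) (h : Tendsto (fun k => ψ^[n k] (x k)) atTop (𝓝 p))
    (h' : Tendsto (fun k => ψ^[n k] (x' k)) atTop (𝓝 p')) : p = p' := by
  obtain ⟨F, m₀, hm₀, hF, hFq⟩ := exists_ne (𝕂 := 𝕂) D hq
  have key : ∀ (f g : Eu d → 𝕂) (m1 m2 : ℕ), 1 ≤ m1 → 1 ≤ m2 → Per Ω w ψ m1 f →
      Per Ω w ψ m2 g → f p * g p' - f p' * g p = 0 := by
    intro f g m1 m2 hm1 hm2 hf hg
    set m := m₀ * m1 * m2 with hm
    have hm1' : 1 ≤ m := Nat.one_le_iff_ne_zero.2 (by positivity)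
    have hF' : Per Ω w ψ m F := by
      have := hF.mul H (m1 * m2)
      rwa [← mul_assoc] at this
    have hf' : Per Ω w ψ m f := by
      have := hf.mul H (m₀ * m2)
      rwa [show m1 * (m₀ * m2) = m by rw [hm]; ring] at this
    have hg' : Per Ω w ψ m g := by
      have := hg.mul H (m₀ * m1)
      rwa [show m2 * (m₀ * m1) = m by rw [hm]; ring] at this
    obtain ⟨r, hr, hfr⟩ := class_exists n hm1'
    have a1 := aux H hr hq hp hx h hfr hf' hF'
    have a2 := aux H hr hq hp' hx' h' hfr hg' hF'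
    have a3 := aux H hr hq hp' hx' h' hfr hf' hF'
    have a4 := aux H hr hq hp hx h hfr hg' hF'
    have e : F q * F q * (f p * g p' - f p' * g p) = 0 := by
      have e1 : F q * F q * (f p * g p') = (F q * f p) * (F q * g p') := by ring
      have e2 : F q * F q * (f p' * g p) = (F q * f p') * (F q * g p) := by ring
      rw [mul_sub, e1, e2, ← a1, ← a2, ← a3, ← a4]
      ring
    exact (mul_eq_zero.1 e).resolve_left (mul_ne_zero hFq hFq)
  have key2 : ∀ (g : Eu d → 𝕂) (m2 : ℕ), 1 ≤ m2 → Per Ω w ψ m2 g →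
      ∀ f : Eu d → 𝕂, Smooth Ω f → f p * g p' - f p' * g p = 0 := fun g m2 hm2 hg =>
    principle2 D hp hp' (g p') (g p) fun f m1 hm1 hf => key f g m1 m2 hm1 hm2 hf hg
  have key3 : ∀ f : Eu d → 𝕂, Smooth Ω f → ∀ g : Eu d → 𝕂, Smooth Ω g →
      g p' * f p - g p * f p' = 0 := fun f hf =>
    principle2 D hp' hp (f p) (f p') fun g m2 hm2 hg => by
      have := key2 g m2 hm2 hg f hf
      rw [← this]
      ring
  refine sep (𝕂 := 𝕂) (Ω := Ω) fun f hf => ?_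
  have := key3 f hf (fun _ => 1) (smooth_const 1)
  simpa [sub_eq_zero] using this

theorem psi_contOn (H : Data Ω w ψ) (n : ℕ) : ContinuousOn (ψ^[n]) Ω := (iter_psi H n).continuousOn

/-- the orbit of the limit point itself converges -/
theorem S2 (H : Data Ω w ψ) (D : DensePeriodic Ω (wcomp w ψ)) {n : ℕ → ℕ} {x : ℕ → Eu d}
    {q p : Eu d} (hq : q ∈ Ω) (hp : p ∈ Ω) (hx : Tendsto x atTop (𝓝 q))
    (h : Tendsto (fun k => ψ^[n k] (x k)) atTop (𝓝 p)) :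
    Tendsto (fun k => ψ^[n k] q) atTop (𝓝 p) := by
  by_contra hcon
  rw [Metric.tendsto_atTop] at hcon
  push Not at hcon
  obtain ⟨ρ₀, hρ₀, hfar⟩ := hcon
  obtain ⟨ρ₁, hρ₁, hball⟩ := Metric.nhds_basis_closedBall.mem_iff.1 (H.isOpen.mem_nhds hp)
  obtain ⟨δ, hδ, hballq⟩ := Metric.isOpen_iff.1 H.isOpen q hq
  set ρ := min ρ₀ ρ₁ / 2 with hρ
  have hρpos : 0 < ρ := by
    have : 0 < min ρ₀ ρ₁ := lt_min hρ₀ hρ₁
    positivity
  have hρ0 : ρ < ρ₀ := by
    have h1 := min_le_left ρ₀ ρ₁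
    have : 0 < min ρ₀ ρ₁ := lt_min hρ₀ hρ₁
    rw [hρ]
    linarith
  have hρ1 : ρ ≤ ρ₁ := by
    have h1 := min_le_right ρ₀ ρ₁
    have : 0 < min ρ₀ ρ₁ := lt_min hρ₀ hρ₁
    rw [hρ]
    linarith
  have hfreq : ∃ᶠ k in (atTop : Filter ℕ), ρ₀ ≤ dist (ψ^[n k] q) p :=
    Filter.frequently_atTop.2 fun N => by
      obtain ⟨k, hk, hk2⟩ := hfar N
      exact ⟨k, hk, hk2⟩
  have hev : ∀ᶠ k in (atTop : Filter ℕ), dist (x k) q < δ ∧ dist (ψ^[n k] (x k)) p < ρ :=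
    (hx.eventually (Metric.ball_mem_nhds q hδ)).and (h.eventually (Metric.ball_mem_nhds p hρpos))
  have hfreq2 : ∃ᶠ k in (atTop : Filter ℕ), ∃ z : Eu d, dist z q ≤ dist (x k) q ∧
      dist (ψ^[n k] z) p = ρ := by
    refine (hfreq.and_eventually hev).mono ?_
    rintro k ⟨hk1, hk2, hk3⟩
    have hseg : segment ℝ (x k) q ⊆ Metric.closedBall q (dist (x k) q) :=
      (convex_closedBall q _).segment_subset (by simp) (by simp)
    have hsegΩ : segment ℝ (x k) q ⊆ Ω := fun z hz =>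
      hballq (lt_of_le_of_lt (hseg hz) hk2)
    have hpre : IsPreconnected (segment ℝ (x k) q) := (convex_segment _ _).isPreconnected
    have hcont : ContinuousOn (fun z => dist (ψ^[n k] z) p) (segment ℝ (x k) q) :=
      (continuous_id.dist continuous_const).comp_continuousOn ((psi_contOn H (n k)).mono hsegΩ)
    have hmem : ρ ∈ (fun z => dist (ψ^[n k] z) p) '' segment ℝ (x k) q :=
      hpre.intermediate_value (left_mem_segment ℝ _ _) (right_mem_segment ℝ _ _) hcont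
        ⟨hk3.le, (hρ0.le.trans hk1)⟩
    obtain ⟨z, hz, hz2⟩ := hmem
    exact ⟨z, hseg hz, hz2⟩
  obtain ⟨φ, hφ, hφ2⟩ := Filter.extraction_of_frequently_atTop hfreq2
  choose z hz1 hz2 using hφ2
  have hcomp : IsCompact (Metric.closedBall p ρ) := isCompact_closedBall p ρ
  obtain ⟨p', hp', θ, hθ, hlim⟩ := hcomp.tendsto_subseq
    (x := fun j => ψ^[n (φ j)] (z j)) (fun j => (hz2 j).le)
  have hp'Ω : p' ∈ Ω := hball (Metric.closedBall_subset_closedBall hρ1 hp')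
  have hd : dist p' p = ρ := by
    have h1 : Tendsto (fun j => dist (ψ^[n (φ (θ j))] (z (θ j))) p) atTop (𝓝 (dist p' p)) :=
      hlim.dist tendsto_const_nhds
    simp only [hz2] at h1
    exact (tendsto_nhds_unique h1 tendsto_const_nhds)
  have hφθ : Tendsto (fun j => φ (θ j)) atTop atTop := hφ.tendsto_atTop.comp hθ.tendsto_atTop
  have hz3 : Tendsto (fun j => z (θ j)) atTop (𝓝 q) := by
    rw [tendsto_iff_dist_tendsto_zero]
    refine squeeze_zero (fun _ => dist_nonneg) (fun j => hz1 (θ j)) ?_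
    exact (tendsto_iff_dist_tendsto_zero.1 hx).comp hφθ
  have hpp := S1 H D (n := fun j => n (φ (θ j))) (x := fun j => x (φ (θ j)))
    (x' := fun j => z (θ j)) hq hp hp'Ω (hx.comp hφθ) hz3 (h.comp hφθ) hlim
  rw [hpp, dist_self] at hd
  exact hρpos.ne hd

theorem dir_deriv {Φ : Eu d → 𝕂} {Φ' : Eu d →L[ℝ] 𝕂} {p u : Eu d} (hΦ : HasFDerivAt Φ Φ' p)
    {𝓕 : Filter ℕ} [NeBot 𝓕] {z : ℕ → Eu d} (hz : Tendsto z 𝓕 (𝓝 p))
    (hu : Tendsto (fun k => ‖z k - p‖⁻¹ • (z k - p)) 𝓕 (𝓝 u)) (h0 : ∀ᶠ k in 𝓕, Φ (z k) = Φ p) :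
    Φ' u = 0 := by
  have h1 := (hasFDerivAt_iff_tendsto.1 hΦ).comp hz
  have h2 : Tendsto (fun k => ‖Φ' (‖z k - p‖⁻¹ • (z k - p))‖) 𝓕 (𝓝 0) := by
    refine h1.congr' ?_
    filter_upwards [h0] with k hk
    simp only [Function.comp_apply]
    rw [hk, sub_self, zero_sub, norm_neg, map_smul, norm_smul, norm_inv, norm_norm]
  have h3 : Tendsto (fun k => ‖Φ' (‖z k - p‖⁻¹ • (z k - p))‖) 𝓕 (𝓝 ‖Φ' u‖) :=
    ((Φ'.continuous.tendsto u).comp hu).norm
  exact norm_eq_zero.1 (tendsto_nhds_unique h3 h2)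

/-- convergent orbits are impossible -/
theorem S3 (H : Data Ω w ψ) (D : DensePeriodic Ω (wcomp w ψ))
    (hno : ∀ y ∈ Ω, ∀ N : ℕ, 1 ≤ N → ψ^[N] y ≠ y) {n : ℕ → ℕ} (hn : StrictMono n) {q p : Eu d}
    (hq : q ∈ Ω) (hp : p ∈ Ω) (h : Tendsto (fun k => ψ^[n k] q) atTop (𝓝 p)) : False := by
  set y : ℕ → Eu d := fun k => ψ^[n k] q with hy
  have hyΩ : ∀ k, y k ∈ Ω := fun k => H.maps.iterate _ hq
  have hstep : ∀ k l, k < l → y l = ψ^[n l - n k] (y k) := by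
    intro k l hkl
    simp only [hy]
    rw [← Function.iterate_add_apply, Nat.sub_add_cancel (hn hkl).le]
  have hinj : ∀ k l, k < l → y k ≠ y l := by
    intro k l hkl heq
    have h1 := hno (y k) (hyΩ k) (n l - n k) (by have := hn hkl; omega)
    rw [← hstep k l hkl] at h1
    exact h1 heq.symm
  have hev : ∀ᶠ k in (atTop : Filter ℕ), y k ≠ p := by
    by_cases hex : ∃ k₀, y k₀ = p
    · obtain ⟨k₀, hk₀⟩ := hex
      filter_upwards [eventually_gt_atTop k₀] with k hk hkp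
      exact hinj k₀ k hk (hk₀.trans hkp.symm)
    · exact Eventually.of_forall fun k hk => hex ⟨k, hk⟩
  have hsph : ∀ᶠ k in (atTop : Filter ℕ),
      ‖y k - p‖⁻¹ • (y k - p) ∈ Metric.sphere (0 : Eu d) 1 := by
    filter_upwards [hev] with k hk
    have h1 : ‖y k - p‖ ≠ 0 := norm_ne_zero_iff.2 (sub_ne_zero.2 hk)
    rw [mem_sphere_zero_iff_norm, norm_smul, norm_inv, norm_norm, inv_mul_cancel₀ h1]
  obtain ⟨u, hu, φ, hφ, hlim⟩ := (isCompact_sphere (0 : Eu d) 1).tendsto_subseq' hsph.frequently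
  have hu1 : ‖u‖ = 1 := mem_sphere_zero_iff_norm.1 hu
  have key : ∀ (f g : Eu d → 𝕂) (m1 m2 : ℕ), 1 ≤ m1 → 1 ≤ m2 → Per Ω w ψ m1 f →
      Per Ω w ψ m2 g → fderiv ℝ f p u * g p - f p * fderiv ℝ g p u = 0 := by
    intro f g m1 m2 hm1 hm2 hf hg
    set m := m1 * m2 with hm
    have hm' : 1 ≤ m := Nat.one_le_iff_ne_zero.2 (by positivity)
    have hf' : Per Ω w ψ m f := hf.mul H m2
    have hg' : Per Ω w ψ m g := by
      have := hg.mul H m1
      rwa [mul_comm m2 m1] at this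
    obtain ⟨r, hr, hfr⟩ := class_exists (fun j => n (φ j)) hm'
    set S : Set ℕ := {k | n (φ k) % m = r} with hS
    have hfr' : ∃ᶠ k in (atTop : Filter ℕ), k ∈ S := hfr
    have hne : NeBot (atTop ⊓ 𝓟 S) := Filter.frequently_mem_iff_neBot.1 hfr'
    have hyφ : Tendsto (fun j => y (φ j)) (atTop ⊓ 𝓟 S) (𝓝 p) :=
      (h.comp hφ.tendsto_atTop).mono_left inf_le_left
    have e2 : ∀ᶠ k in atTop ⊓ 𝓟 S, k ∈ S := mem_inf_of_right (mem_principal_self S)
    have hval : ∀ j ∈ S, f (y (φ j)) * g p = f p * g (y (φ j)) := by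
      intro j hj
      have c1 : Tendsto (fun l => f (y (φ j)) * g (y (φ l))) (atTop ⊓ 𝓟 S)
          (𝓝 (f (y (φ j)) * g p)) :=
        tendsto_const_nhds.mul ((cont H hg.1 hp).tendsto.comp hyφ)
      have c2 : Tendsto (fun l => f (y (φ l)) * g (y (φ j))) (atTop ⊓ 𝓟 S)
          (𝓝 (f p * g (y (φ j)))) :=
        ((cont H hf.1 hp).tendsto.comp hyφ).mul tendsto_const_nhds
      refine tendsto_nhds_unique c1 (c2.congr' ?_)
      have e3 : ∀ᶠ l in atTop ⊓ 𝓟 S, j < l := (eventually_gt_atTop j).filter_mono inf_le_left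
      filter_upwards [e2, e3] with l hl hjl
      have hlt : n (φ j) < n (φ l) := hn (hφ hjl)
      have hmod : n (φ j) % m = n (φ l) % m := by
        have a : n (φ j) % m = r := hj
        have b : n (φ l) % m = r := hl
        rw [a, b]
      have hdvd : m ∣ n (φ l) - n (φ j) := (Nat.modEq_iff_dvd' hlt.le).1 hmod
      obtain ⟨c, hc⟩ := hdvd
      have hyl : y (φ l) = ψ^[m * c] (y (φ j)) := by
        rw [hstep _ _ (hφ hjl), hc]
      have e4 : f (y (φ j)) = W w ψ (m * c) (y (φ j)) * f (y (φ l)) := by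
        rw [hyl, ← iter_apply]
        exact ((hf'.mul H c).2 _ (hyΩ _)).symm
      have e5 : g (y (φ j)) = W w ψ (m * c) (y (φ j)) * g (y (φ l)) := by
        rw [hyl, ← iter_apply]
        exact ((hg'.mul H c).2 _ (hyΩ _)).symm
      rw [e4, e5]
      ring
    have hfd : HasFDerivAt f (fderiv ℝ f p) p :=
      ((ContDiffOn.contDiffAt hf.1 (H.isOpen.mem_nhds hp)).differentiableAt (by simp)).hasFDerivAt
    have hgd : HasFDerivAt g (fderiv ℝ g p) p :=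
      ((ContDiffOn.contDiffAt hg.1 (H.isOpen.mem_nhds hp)).differentiableAt (by simp)).hasFDerivAt
    have hΦ : HasFDerivAt (fun z => f z * g p - f p * g z)
        (g p • fderiv ℝ f p - f p • fderiv ℝ g p) p :=
      (hfd.mul_const (g p)).sub (hgd.const_mul (f p))
    have hdir := dir_deriv hΦ hyφ (hlim.mono_left inf_le_left) (by
      filter_upwards [e2] with j hj
      rw [hval j hj, sub_self, sub_self])
    simp only [sub_apply, smul_apply, smul_eq_mul] at hdir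
    rw [← hdir]
    ring
  have key2 : ∀ (g : Eu d → 𝕂) (m2 : ℕ), 1 ≤ m2 → Per Ω w ψ m2 g →
      ∀ f : Eu d → 𝕂, Smooth Ω f → fderiv ℝ f p u * g p - f p * fderiv ℝ g p u = 0 :=
    fun g m2 hm2 hg => principle3 D hp (g p) (fderiv ℝ g p u) fun f m1 hm1 hf =>
      key f g m1 m2 hm1 hm2 hf hg
  have key3 : ∀ f : Eu d → 𝕂, Smooth Ω f → ∀ g : Eu d → 𝕂, Smooth Ω g →
      fderiv ℝ g p u * f p - g p * fderiv ℝ f p u = 0 := fun f hf =>
    principle3 D hp (f p) (fderiv ℝ f p u) fun g m2 hm2 hg => by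
      have h1 := key2 g m2 hm2 hg f hf
      have h2 : fderiv ℝ g p u * f p - g p * fderiv ℝ f p u =
          -(fderiv ℝ f p u * g p - f p * fderiv ℝ g p u) := by ring
      rw [h2, h1, neg_zero]
  have h1 := key3 _ (smooth_inner u) (fun _ => 1) (smooth_const 1)
  rw [fderiv_const_one, fderiv_inner, real_inner_self_eq_norm_sq, hu1] at h1
  simp at h1

end Pool.Agent.X197.ChaosMix
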