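import Pool.Agent.X197.ChaosMix2

set_option autoImplicit false

namespace Pool.Agent.X197.ChaosMix

open Set Filter Topology
open scoped ContDiff Manifold InnerProductSpace

variable {d : ℕ} {𝕂 : Type*} [RCLike 𝕂]
variable {Ω : Set (Eu d)} {w : Eu d → 𝕂} {ψ : Eu d → Eu d}

/-- the symbol is strongly run-away -/
theorem strongly_run_away (H : Data Ω w ψ) (D : DensePeriodic Ω (wcomp w ψ))
    (hno : ∀ y ∈ Ω, ∀ N : ℕ, 1 ≤ N → ψ^[N] y ≠ y) {K : Set (Eu d)} (hK : K ⊆ Ω)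
    (hKc : IsCompact K) : ∀ᶠ n in (atTop : Filter ℕ), Disjoint (ψ^[n] '' K) K := by
  by_contra hcon
  rw [Filter.not_eventually] at hcon
  have hfr : ∃ᶠ n in (atTop : Filter ℕ), ∃ a ∈ K, ψ^[n] a ∈ K := by
    refine hcon.mono fun n hn => ?_
    rw [Set.not_disjoint_iff] at hn
    obtain ⟨_, ⟨a, ha, rfl⟩, h2⟩ := hn
    exact ⟨a, ha, h2⟩
  obtain ⟨φ, hφ, hφ2⟩ := Filter.extraction_of_frequently_atTop hfr
  choose a ha1 ha2 using hφ2
  obtain ⟨⟨q, p⟩, ⟨hq, hp⟩, θ, hθ, hlim⟩ := (hKc.prod hKc).tendsto_subseq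
    (x := fun j => (a j, ψ^[φ j] (a j))) (fun j => ⟨ha1 j, ha2 j⟩)
  rw [Prod.tendsto_iff] at hlim
  have h2 := S2 H D (n := fun j => φ (θ j)) (hK hq) (hK hp) hlim.1 hlim.2
  exact S3 H D hno (hφ.comp hθ) (hK hq) (hK hp) h2

theorem exists_cutoff {A B : Set (Eu d)} (hA : IsClosed A) (hAB : A ⊆ interior B) :
    ∃ χ : Eu d → ℝ, ContDiff ℝ ∞ χ ∧ (∀ᶠ x in 𝓝ˢ A, χ x = 1) ∧ ∀ x ∉ B, χ x = 0 := by
  obtain ⟨f, h1, h2, -⟩ := exists_contMDiffMap_one_nhds_of_subset_interior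
    (n := (⊤ : ℕ∞)) (𝓘(ℝ, Eu d)) hA hAB
  exact ⟨f, contMDiff_iff_contDiff.1 f.contMDiff, h1, h2⟩

theorem der_iter (H : Data Ω w ψ) (hder : ∀ x ∈ Ω, ∀ v, fderiv ℝ ψ x v = 0 → v = 0) (n : ℕ) :
    ∀ x ∈ Ω, ∀ v, fderiv ℝ (ψ^[n]) x v = 0 → v = 0 := by
  induction n with
  | zero =>
    intro x _ v hv
    simpa using hv
  | succ n ih =>
    intro x hx v hv
    have h1 : DifferentiableAt ℝ ψ x :=
      (H.hψ.contDiffAt (H.isOpen.mem_nhds hx)).differentiableAt (by simp)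
    have h2 : DifferentiableAt ℝ (ψ^[n]) (ψ x) :=
      ((iter_psi H n).contDiffAt (H.isOpen.mem_nhds (H.maps hx))).differentiableAt (by simp)
    rw [Function.iterate_succ, fderiv_comp x h2 h1] at hv
    exact hder x hx v (ih (ψ x) (H.maps hx) _ hv)

theorem W_smooth (H : Data Ω w ψ) (n : ℕ) : Smooth Ω (W w ψ n) := by
  induction n with
  | zero =>
    have : W w ψ 0 = fun _ => (1 : 𝕂) := by
      funext x
      simp [W]
    rw [this]
    exact smooth_const 1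
  | succ n ih =>
    have : W w ψ (n + 1) = fun x => W w ψ n x * w (ψ^[n] x) := by
      funext x
      simp [W, Finset.prod_range_succ]
    rw [this]
    exact ContDiffOn.mul ih (ContDiffOn.comp H.hw (iter_psi H n) (H.maps.iterate n))

/-- a local smooth inverse of an injective local diffeomorphism -/
theorem local_inverse (H : Data Ω w ψ) (hder : ∀ x ∈ Ω, ∀ v, fderiv ℝ ψ x v = 0 → v = 0) (n : ℕ)
    {x : Eu d} (hx : x ∈ Ω) : ∃ s : Eu d → Eu d, ContDiffAt ℝ ∞ s (ψ^[n] x) ∧ s (ψ^[n] x) = x ∧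
      ∀ᶠ z in 𝓝 (ψ^[n] x), ψ^[n] (s z) = z := by
  have h1 : ContDiffAt ℝ ∞ (ψ^[n]) x := (iter_psi H n).contDiffAt (H.isOpen.mem_nhds hx)
  have hinj : Function.Injective (fderiv ℝ (ψ^[n]) x).toLinearMap := by
    rw [← LinearMap.ker_eq_bot, LinearMap.ker_eq_bot']
    intro v hv
    exact der_iter H hder n x hx v hv
  set e : Eu d ≃L[ℝ] Eu d := (LinearEquiv.ofInjectiveEndo _ hinj).toContinuousLinearEquiv with he
  have h2 : HasFDerivAt (ψ^[n]) (e : Eu d →L[ℝ] Eu d) x := by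
    have h3 : (e : Eu d →L[ℝ] Eu d) = fderiv ℝ (ψ^[n]) x := by
      ext v : 1
      rfl
    rw [h3]
    exact (h1.differentiableAt (by simp)).hasFDerivAt
  refine ⟨h1.localInverse h2 (by simp), h1.to_localInverse h2 (by simp),
    h1.localInverse_apply_image h2 (by simp), ?_⟩
  have h4 := (h1.hasStrictFDerivAt' h2 (by simp)).eventually_right_inverse
  exact h4

/-- mixing for strongly run-away symbols -/
theorem mixing (H : Data Ω w ψ) (hw0 : ∀ x ∈ Ω, w x ≠ 0) (hinj : InjOn ψ Ω)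
    (hder : ∀ x ∈ Ω, ∀ v, fderiv ℝ ψ x v = 0 → v = 0)
    (hrun : ∀ K ⊆ Ω, IsCompact K → ∀ᶠ n in (atTop : Filter ℕ), Disjoint (ψ^[n] '' K) K) :
    IsMixing Ω (wcomp w ψ) := by
  classical
  intro f g hf hg L hL hLc n ε hε
  obtain ⟨L', hL'c, hLL', hL'Ω⟩ := exists_compact_between hLc H.isOpen hL
  obtain ⟨χ, hχs, hχ1, hχ0⟩ := exists_cutoff hLc.isClosed hLL'
  obtain ⟨N, hN⟩ := eventually_atTop.1 (hrun L' hL'Ω hL'c)
  refine ⟨N, fun m hm => ?_⟩
  have hdis := hN m hm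
  have hinjm : InjOn (ψ^[m]) Ω := by
    clear hm hdis
    induction m with
    | zero => exact injOn_id _
    | succ m ih =>
      rw [Function.iterate_succ]
      exact ih.comp hinj H.maps
  have hWm : ∀ x ∈ Ω, W w ψ m x ≠ 0 := fun x hx =>
    Finset.prod_ne_zero_iff.2 fun j _ => hw0 _ (H.maps.iterate j hx)
  set S : Set (Eu d) := ψ^[m] '' L' with hS
  have hSc : IsCompact S := hL'c.image_of_continuousOn ((psi_contOn H m).mono hL'Ω)
  set iv : Eu d → Eu d := Function.invFunOn (ψ^[m]) Ω with hiv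
  have hiv1 : ∀ x ∈ Ω, iv (ψ^[m] x) = x := fun x hx => hinjm.leftInvOn_invFunOn hx
  set G : Eu d → 𝕂 := fun z => if z ∈ ψ^[m] '' Ω then
    ((χ (iv z) : ℝ) : 𝕂) * g (iv z) / W w ψ m (iv z) else 0 with hG
  have hG0 : ∀ z ∉ S, G z = 0 := by
    intro z hz
    simp only [hG]
    split_ifs with hz2
    · obtain ⟨x, hx, rfl⟩ := hz2
      rw [hiv1 x hx]
      have : x ∉ L' := fun h => hz ⟨x, h, rfl⟩
      rw [hχ0 x this]
      simp
    · rfl
  have hG1 : ∀ x ∈ Ω, G (ψ^[m] x) = ((χ x : ℝ) : 𝕂) * g x / W w ψ m x := by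
    intro x hx
    simp only [hG]
    rw [if_pos ⟨x, hx, rfl⟩, hiv1 x hx]
  have hofReal : ContDiff ℝ ∞ (fun r : ℝ => (r : 𝕂)) := (RCLike.ofRealCLM (K := 𝕂)).contDiff
  have hχ𝕂 : ContDiff ℝ ∞ (fun z : Eu d => ((χ z : ℝ) : 𝕂)) := hofReal.comp hχs
  have hGs : Smooth Ω G := by
    intro z hz
    by_cases hz2 : z ∈ ψ^[m] '' Ω
    · obtain ⟨x, hx, rfl⟩ := hz2
      obtain ⟨s, hs1, hs2, hs3⟩ := local_inverse H hder m hx
      have hΩx := H.isOpen.mem_nhds hx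
      have hsΩ : ∀ᶠ z in 𝓝 (ψ^[m] x), s z ∈ Ω := by
        have := hs1.continuousAt.tendsto
        rw [hs2] at this
        exact this.eventually hΩx
      have heq : G =ᶠ[𝓝 (ψ^[m] x)] fun z => ((χ (s z) : ℝ) : 𝕂) * g (s z) / W w ψ m (s z) := by
        filter_upwards [hs3, hsΩ] with z hz1 hz2
        rw [← hG1 (s z) hz2, hz1]
      refine ContDiffAt.contDiffWithinAt ?_
      refine ContDiffAt.congr_of_eventuallyEq ?_ heq
      have k1 : ContDiffAt ℝ ∞ (fun y : Eu d => ((χ y : ℝ) : 𝕂) * g y / W w ψ m y)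
          (s (ψ^[m] x)) := by
        rw [hs2]
        have b1 : ContDiffAt ℝ ∞ (W w ψ m) x := ContDiffOn.contDiffAt (W_smooth H m) hΩx
        have b2 : ContDiffAt ℝ ∞ g x := ContDiffOn.contDiffAt hg hΩx
        simp only [div_eq_mul_inv]
        exact (hχ𝕂.contDiffAt.mul b2).mul (b1.inv (hWm x hx))
      exact k1.comp (ψ^[m] x) hs1
    · have hzS : z ∉ S := fun h => hz2 (Set.image_mono hL'Ω h)
      have heq : G =ᶠ[𝓝 z] fun _ => 0 := by
        filter_upwards [hSc.isClosed.isOpen_compl.mem_nhds hzS] with y hy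
        exact hG0 y hy
      exact (contDiffAt_const.congr_of_eventuallyEq heq).contDiffWithinAt
  refine ⟨fun z => ((χ z : ℝ) : 𝕂) * f z + G z, ?_, ?_, ?_⟩
  · exact ContDiffOn.add (ContDiffOn.mul hχ𝕂.contDiffOn hf) hGs
  · intro k _ x hx
    have h1 : (fun z => ((χ z : ℝ) : 𝕂) * f z + G z) =ᶠ[𝓝 x] f := by
      have a1 : ∀ᶠ z in 𝓝 x, χ z = 1 := (eventually_nhdsSet_iff_forall.1 hχ1) x hx
      have a2 : ∀ᶠ z in 𝓝 x, z ∈ L' :=
        (isOpen_interior.mem_nhds (hLL' hx)) |> fun h => mem_of_superset h interior_subset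
      filter_upwards [a1, a2] with z hz1 hz2
      have hzS : z ∉ S := fun h => Set.disjoint_left.1 hdis h hz2
      rw [hz1, hG0 z hzS]
      simp
    rw [(h1.iteratedFDeriv ℝ k).eq_of_nhds, sub_self, norm_zero]
    exact hε
  · intro k _ x hx
    have h1 : (wcomp w ψ)^[m] (fun z => ((χ z : ℝ) : 𝕂) * f z + G z) =ᶠ[𝓝 x] g := by
      have a1 : ∀ᶠ z in 𝓝 x, χ z = 1 := (eventually_nhdsSet_iff_forall.1 hχ1) x hx
      have a2 : ∀ᶠ z in 𝓝 x, z ∈ L' :=
        (isOpen_interior.mem_nhds (hLL' hx)) |> fun h => mem_of_superset h interior_subset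
      filter_upwards [a1, a2] with z hz1 hz2
      rw [iter_apply]
      have hz3 : ψ^[m] z ∉ L' := fun h => Set.disjoint_left.1 hdis ⟨z, hz2, rfl⟩ h
      rw [hχ0 _ hz3, hG1 z (hL'Ω hz2), hz1]
      have := hWm z (hL'Ω hz2)
      simp only [RCLike.ofReal_zero, zero_mul, zero_add, RCLike.ofReal_one, one_mul]
      field_simp
    rw [(h1.iteratedFDeriv ℝ k).eq_of_nhds, sub_self, norm_zero]
    exact hε

/-- chaotic weighted composition operators are mixing -/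
theorem chaotic_mixing (H : Data Ω w ψ) (hch : IsChaotic Ω (wcomp w ψ)) :
    IsMixing Ω (wcomp w ψ) :=
  mixing H (fun _ hx => w_ne H hch.2 hx) (inj H hch.2) (fun _ hx _ hv => der H hch.2 hx hv)
    fun _ hK hKc => strongly_run_away H hch.2 (fun _ hy _ hN => noper H hch.1 hy hN) hK hKc

end Pool.Agent.X197.ChaosMix
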