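import Mathlib

/-!
# A Swiss cheese with inner discs

A compact plane set `X` with dense interior and a function `f` in `A^(1)(X)` which is not a uniform
limit on `X` of rational functions with poles off `X`.
-/

set_option autoImplicit false

namespace Pool.Agent.X197.Cheese

open Set Metric Filter Topology Complex

/-- `f` (restricted to `X`) belongs to `R(X)`: it can be approximated uniformly on `X` by rational
functions `p / q` whose denominators have no zeros on `X`. -/
def InR (X : Set ℂ) (f : ℂ → ℂ) : Prop :=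
  ∀ ε : ℝ, 0 < ε → ∃ p q : Polynomial ℂ, (∀ z ∈ X, q.eval z ≠ 0) ∧
    ∀ z ∈ X, ‖f z - p.eval z / q.eval z‖ < ε

/-- `f` (restricted to `X`) belongs to `A^(1)(X)`: it is continuous on `X` and holomorphic in the
interior of `X`, and its derivative extends to a continuous function `g` on `X`. -/
def InA1 (X : Set ℂ) (f : ℂ → ℂ) : Prop :=
  ContinuousOn f X ∧ ∃ g : ℂ → ℂ, ContinuousOn g X ∧ ∀ z ∈ interior X, HasDerivAt f (g z) z

/-! ### The discs -/

instance : Nonempty (ball (0 : ℂ) 1) := ⟨⟨0, mem_ball_self one_pos⟩⟩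

/-- a dense sequence of the open unit disc -/
noncomputable def d (n : ℕ) : ℂ := (TopologicalSpace.denseSeq (ball (0 : ℂ) 1) n : ℂ)

theorem d_mem (n : ℕ) : d n ∈ ball (0 : ℂ) 1 := (TopologicalSpace.denseSeq (ball (0 : ℂ) 1) n).2

theorem d_dense {O : Set ℂ} (hO : IsOpen O) (hne : (O ∩ ball 0 1).Nonempty) : ∃ n, d n ∈ O := by
  obtain ⟨x, hx, hx1⟩ := hne
  exact (TopologicalSpace.denseRange_denseSeq (ball (0 : ℂ) 1)).exists_mem_open
    (hO.preimage continuous_subtype_val) ⟨⟨x, hx1⟩, hx⟩

/-- the closed sets used in the construction -/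
noncomputable def F : ℕ → Set ℂ
  | 0 => (ball 0 1)ᶜ
  | n + 1 => F n ∪ closedBall (d n) (min ((1 / 2) ^ (n + 3)) (infDist (d n) (F n) / 2))

/-- the radii -/
noncomputable def r (n : ℕ) : ℝ := min ((1 / 2) ^ (n + 3)) (infDist (d n) (F n) / 2)

theorem F_succ (n : ℕ) : F (n + 1) = F n ∪ closedBall (d n) (r n) := rfl

theorem F_closed (n : ℕ) : IsClosed (F n) := by
  induction n with
  | zero => exact isOpen_ball.isClosed_compl
  | succ n ih =>
    rw [F_succ]
    exact ih.union isClosed_closedBall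

theorem F_mono {m n : ℕ} (h : m ≤ n) : F m ⊆ F n := by
  induction n, h using Nat.le_induction with
  | base => exact subset_rfl
  | succ n _ ih =>
    rw [F_succ]
    exact ih.trans subset_union_left

theorem F_ne (n : ℕ) : (F n).Nonempty := by
  refine ⟨2, F_mono (Nat.zero_le n) ?_⟩
  change (2 : ℂ) ∈ (ball 0 1)ᶜ
  simp

theorem r_nonneg (n : ℕ) : 0 ≤ r n :=
  le_min (by positivity) (div_nonneg infDist_nonneg zero_le_two)

theorem r_le (n : ℕ) : r n ≤ (1 / 2) ^ (n + 3) := min_le_left _ _

theorem r_le' (n : ℕ) : r n ≤ infDist (d n) (F n) / 2 := min_le_right _ _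

theorem sub_F {m n : ℕ} (h : m < n) : closedBall (d m) (r m) ⊆ F n := by
  refine subset_trans ?_ (F_mono (Nat.succ_le_of_lt h))
  rw [Nat.succ_eq_add_one, F_succ]
  exact subset_union_right

theorem disj_F {n : ℕ} (hn : 0 < r n) : ∀ z ∈ closedBall (d n) (r n), z ∉ F n := by
  intro z hz hF
  have h1 : infDist (d n) (F n) ≤ dist (d n) z := infDist_le_dist_of_mem hF
  rw [mem_closedBall'] at hz
  have h2 := r_le' n
  linarith

theorem disj {m n : ℕ} (h : m ≠ n) (hm : 0 < r m) (hn : 0 < r n) :
    ∀ z ∈ closedBall (d m) (r m), z ∉ closedBall (d n) (r n) := by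
  intro z hz hz'
  rcases lt_or_gt_of_ne h with h | h
  · exact disj_F hn z hz' (sub_F h hz)
  · exact disj_F hm z hz (sub_F h hz')

theorem sub_ball {n : ℕ} (hn : 0 < r n) : closedBall (d n) (r n) ⊆ ball 0 1 := by
  intro z hz
  by_contra h
  exact disj_F hn z hz (F_mono (Nat.zero_le n) h)

theorem mem_F {n : ℕ} {z : ℂ} (hz : z ∈ F n) :
    z ∉ ball (0 : ℂ) 1 ∨ ∃ k < n, z ∈ closedBall (d k) (r k) := by
  induction n with
  | zero => exact Or.inl hz
  | succ n ih =>
    rw [F_succ] at hz
    rcases hz with hz | hz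
    · rcases ih hz with h | ⟨k, hk, h⟩
      · exact Or.inl h
      · exact Or.inr ⟨k, by omega, h⟩
    · exact Or.inr ⟨n, by omega, hz⟩

theorem covered (m : ℕ) : ∃ k, 0 < r k ∧ d m ∈ closedBall (d k) (r k) := by
  induction m using Nat.strong_induction_on with
  | _ m ih =>
    by_cases hm : 0 < r m
    · exact ⟨m, hm, mem_closedBall_self hm.le⟩
    · have h1 : infDist (d m) (F m) = 0 := by
        have h2 : r m = 0 := le_antisymm (not_lt.1 hm) (r_nonneg m)
        have h3 : (0 : ℝ) < (1 / 2) ^ (m + 3) := by positivity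
        unfold r at h2
        rcases min_choice ((1 / 2 : ℝ) ^ (m + 3)) (infDist (d m) (F m) / 2) with h | h
        · rw [h] at h2
          exact absurd h2 h3.ne'
        · rw [h] at h2
          linarith
      have h2 : d m ∈ F m := ((F_closed m).mem_iff_infDist_zero (F_ne m)).2 h1
      rcases mem_F h2 with h | ⟨k, hk, h⟩
      · exact absurd (d_mem m) h
      · by_cases hk' : 0 < r k
        · exact ⟨k, hk', h⟩
        · have h3 : r k = 0 := le_antisymm (not_lt.1 hk') (r_nonneg k)
          rw [h3, closedBall_zero, mem_singleton_iff] at h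
          rw [h]
          exact ih k hk

/-! ### The set and the function -/

/-- the compact set -/
noncomputable def X : Set ℂ :=
  closedBall 0 1 \ ⋃ n, (ball (d n) (r n) \ closedBall (d n) (r n / 2))

theorem mem_X {z : ℂ} : z ∈ X ↔ z ∈ closedBall (0 : ℂ) 1 ∧
    ∀ n, z ∈ ball (d n) (r n) → z ∈ closedBall (d n) (r n / 2) := by
  unfold X
  simp only [Set.mem_sdiff, mem_iUnion, not_exists, not_and, not_not]

theorem X_compact : IsCompact X := by
  refine (isCompact_closedBall 0 1).diff (isOpen_iUnion fun n => ?_)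
  exact isOpen_ball.sdiff isClosed_closedBall

theorem E_sub {n : ℕ} (hn : 0 < r n) : closedBall (d n) (r n / 2) ⊆ X := by
  intro z hz
  have h1 : z ∈ closedBall (d n) (r n) := closedBall_subset_closedBall (by linarith) hz
  rw [mem_X]
  refine ⟨ball_subset_closedBall (sub_ball hn h1), fun m hm => ?_⟩
  rcases eq_or_ne m n with rfl | h
  · exact hz
  · exfalso
    have hm0 : 0 < r m := lt_of_le_of_lt dist_nonneg hm
    exact disj h hm0 hn z (ball_subset_closedBall hm) h1

open Classical in
/-- the function -/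
noncomputable def f (z : ℂ) : ℂ :=
  if h : ∃ n, 0 < r n ∧ z ∈ closedBall (d n) (r n / 2) then (starRingEnd ℂ) (d h.choose)
  else (starRingEnd ℂ) z

theorem f_in {n : ℕ} (hn : 0 < r n) {z : ℂ} (hz : z ∈ closedBall (d n) (r n / 2)) :
    f z = (starRingEnd ℂ) (d n) := by
  have h : ∃ n, 0 < r n ∧ z ∈ closedBall (d n) (r n / 2) := ⟨n, hn, hz⟩
  unfold f
  rw [dif_pos h]
  have h1 := h.choose_spec
  have h2 : h.choose = n := by
    by_contra hne
    refine disj hne h1.1 hn z ?_ ?_
    · exact closedBall_subset_closedBall (by linarith [h1.1]) h1.2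
    · exact closedBall_subset_closedBall (by linarith) hz
  rw [h2]

theorem f_out {z : ℂ} (hz : ∀ n, 0 < r n → z ∉ closedBall (d n) (r n / 2)) :
    f z = (starRingEnd ℂ) z := by
  unfold f
  rw [dif_neg]
  rintro ⟨n, hn, h⟩
  exact hz n hn h

/-- points of `X` near the inner disc `n` belong to it -/
theorem near {n : ℕ} (hn : 0 < r n) {z : ℂ} (hz : z ∈ closedBall (d n) (r n / 2)) :
    ∀ᶠ y in 𝓝 z, y ∈ X → y ∈ closedBall (d n) (r n / 2) := by
  have h1 : ball (d n) (r n) ∈ 𝓝 z := isOpen_ball.mem_nhds (closedBall_subset_ball (by linarith) hz)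
  filter_upwards [h1] with y hy hyX
  exact (mem_X.1 hyX).2 n hy

theorem f_cont : ContinuousOn f X := by
  intro x hx
  by_cases h : ∃ n, 0 < r n ∧ x ∈ closedBall (d n) (r n / 2)
  · obtain ⟨n, hn, hxn⟩ := h
    have h1 : ∀ᶠ y in 𝓝[X] x, f y = (starRingEnd ℂ) (d n) := by
      rw [eventually_nhdsWithin_iff]
      filter_upwards [near hn hxn] with y hy hyX
      exact f_in hn (hy hyX)
    refine (continuousWithinAt_const (b := (starRingEnd ℂ) (d n))).congr_of_eventuallyEq h1 ?_
    exact f_in hn hxn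
  · push Not at h
    have hfx : f x = (starRingEnd ℂ) x := f_out h
    have hxb : ∀ n, x ∉ ball (d n) (r n) := by
      intro n hb
      have hn : 0 < r n := lt_of_le_of_lt dist_nonneg hb
      exact h n hn ((mem_X.1 hx).2 n hb)
    have key : ∀ y ∈ X, dist (f y) (f x) ≤ 2 * dist y x := by
      intro y hy
      by_cases hy' : ∃ n, 0 < r n ∧ y ∈ closedBall (d n) (r n / 2)
      · obtain ⟨n, hn, hyn⟩ := hy'
        rw [f_in hn hyn, hfx, Complex.dist_conj_conj]
        have h1 := hxb n
        rw [mem_ball, not_lt] at h1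
        rw [mem_closedBall] at hyn
        have h2 : dist x (d n) ≤ dist x y + dist y (d n) := dist_triangle _ _ _
        have h3 : dist (d n) x ≤ dist (d n) y + dist y x := dist_triangle _ _ _
        rw [dist_comm (d n) y] at h3
        rw [dist_comm x y] at h2
        linarith
      · push Not at hy'
        rw [f_out hy', hfx, Complex.dist_conj_conj]
        linarith [dist_nonneg (x := y) (y := x)]
    rw [ContinuousWithinAt, Metric.tendsto_nhdsWithin_nhds]
    intro ε hε
    refine ⟨ε / 2, half_pos hε, fun y hy hyx => ?_⟩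
    have := key y hy
    linarith

/-- interior points of `X` belong to inner discs -/
theorem noint {x : ℂ} (hx : x ∈ interior X) : ∃ n, 0 < r n ∧ x ∈ closedBall (d n) (r n / 2) := by
  by_contra h
  push Not at h
  have hxX := interior_subset hx
  have hxb : ∀ n, x ∉ ball (d n) (r n) := by
    intro n hb
    have hn : 0 < r n := lt_of_le_of_lt dist_nonneg hb
    exact h n hn ((mem_X.1 hxX).2 n hb)
  obtain ⟨ε, hε, hεX⟩ := Metric.mem_nhds_iff.1 (mem_interior_iff_mem_nhds.1 hx)
  have h1 : (ball x ε ∩ ball (0 : ℂ) 1).Nonempty := by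
    have h2 : x ∈ closure (ball (0 : ℂ) 1) := by
      rw [closure_ball (0 : ℂ) one_ne_zero]
      exact (mem_X.1 hxX).1
    exact _root_.mem_closure_iff.1 h2 _ isOpen_ball (mem_ball_self hε)
  obtain ⟨m, hm⟩ := d_dense isOpen_ball h1
  obtain ⟨k, hk, hmk⟩ := covered m
  obtain ⟨y, hy, hyk⟩ : (ball x ε ∩ ball (d k) (r k)).Nonempty := by
    rw [← closure_ball (d k) hk.ne'] at hmk
    exact _root_.mem_closure_iff.1 hmk _ isOpen_ball hm
  have hyk' := (mem_X.1 (hεX hy)).2 k hyk
  -- the segment
  have hcont : ContinuousOn (fun t : ℝ => dist (x + t • (y - x)) (d k)) (Icc 0 1) := by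
    fun_prop
  have h3 := intermediate_value_Icc' (zero_le_one (α := ℝ)) hcont
  have h4 : 3 / 4 * r k ∈ Icc (dist (x + (1 : ℝ) • (y - x)) (d k))
      (dist (x + (0 : ℝ) • (y - x)) (d k)) := by
    rw [one_smul, zero_smul, add_zero, add_sub_cancel]
    have h5 := hxb k
    rw [mem_ball, not_lt] at h5
    rw [mem_closedBall] at hyk'
    constructor <;> linarith
  obtain ⟨t, ht, htv⟩ := h3 h4
  have h6 : x + t • (y - x) ∈ ball x ε := by
    rw [mem_ball, dist_eq_norm, add_sub_cancel_left, norm_smul, Real.norm_of_nonneg ht.1]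
    rw [mem_ball, dist_eq_norm] at hy
    calc t * ‖y - x‖ ≤ 1 * ‖y - x‖ := mul_le_mul_of_nonneg_right ht.2 (norm_nonneg _)
      _ < ε := by rwa [one_mul]
  have h7 := (mem_X.1 (hεX h6)).2 k (by
    rw [mem_ball]
    simp only at htv
    rw [htv]
    linarith)
  rw [mem_closedBall] at h7
  simp only at htv
  rw [htv] at h7
  linarith

theorem f_A1 : InA1 X f := by
  refine ⟨f_cont, fun _ => 0, continuousOn_const, fun z hz => ?_⟩
  obtain ⟨n, hn, hzn⟩ := noint hz
  refine (hasDerivAt_const z ((starRingEnd ℂ) (d n))).congr_of_eventuallyEq ?_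
  filter_upwards [near hn hzn, mem_interior_iff_mem_nhds.1 hz] with y hy hyX
  exact f_in hn (hy hyX)

theorem ball_int {n : ℕ} (hn : 0 < r n) : ball (d n) (r n / 2) ⊆ interior X :=
  interior_maximal (ball_subset_closedBall.trans (E_sub hn)) isOpen_ball

/-- the interior is dense -/
theorem X_dense : X ⊆ closure (interior X) := by
  intro x hx
  by_cases h : ∃ n, 0 < r n ∧ x ∈ closedBall (d n) (r n / 2)
  · obtain ⟨n, hn, hxn⟩ := h
    rw [← closure_ball (d n) (half_pos hn).ne'] at hxn
    exact closure_mono (ball_int hn) hxn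
  · push Not at h
    have hxb : ∀ n, x ∉ ball (d n) (r n) := by
      intro n hb
      have hn : 0 < r n := lt_of_le_of_lt dist_nonneg hb
      exact h n hn ((mem_X.1 hx).2 n hb)
    rw [Metric.mem_closure_iff]
    by_contra hcon
    push Not at hcon
    obtain ⟨ε, hε, hfar⟩ := hcon
    have hfar' : ∀ k, 0 < r k → ε ≤ dist x (d k) := fun k hk =>
      hfar _ (ball_int hk (mem_ball_self (half_pos hk)))
    obtain ⟨N, hN⟩ := exists_pow_lt_of_lt_one (half_pos hε) (by norm_num : (1 / 2 : ℝ) < 1)
    -- discs which meet the ball of radius `ε / 2` have small index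
    have hidx : ∀ k, 0 < r k → ∀ y ∈ ball x (ε / 2), y ∈ closedBall (d k) (r k) → k < N := by
      intro k hk y hy hyk
      by_contra hkN
      push Not at hkN
      have h1 := hfar' k hk
      have h2 := r_le k
      have h3 : (1 / 2 : ℝ) ^ (k + 3) ≤ (1 / 2) ^ N :=
        pow_le_pow_of_le_one (by norm_num) (by norm_num) (by omega)
      rw [mem_closedBall] at hyk
      rw [mem_ball'] at hy
      have h4 := dist_triangle x y (d k)
      linarith
    -- the closed union of these discs
    let G : Set ℂ := ⋃ k ∈ {k | k < N ∧ 0 < r k}, closedBall (d k) (r k)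
    have hfin : {k | k < N ∧ 0 < r k}.Finite := (finite_lt_nat N).subset fun k hk => hk.1
    have hG : IsClosed G := hfin.isClosed_biUnion fun k _ => isClosed_closedBall
    have hcov : ball x (ε / 2) ∩ ball 0 1 ⊆ G := by
      intro y hy
      by_contra hyG
      have hO : IsOpen (ball x (ε / 2) \ G) := isOpen_ball.sdiff hG
      obtain ⟨m, hm⟩ := d_dense hO ⟨y, ⟨hy.1, hyG⟩, hy.2⟩
      obtain ⟨k, hk, hmk⟩ := covered m
      exact hm.2 (mem_biUnion ⟨hidx k hk _ hm.1 hmk, hk⟩ hmk)
    have hxG : x ∈ G := by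
      have h2 : x ∈ closure (ball (0 : ℂ) 1) := by
        rw [closure_ball (0 : ℂ) one_ne_zero]
        exact (mem_X.1 hx).1
      have h3 : x ∈ closure (ball x (ε / 2) ∩ ball 0 1) := by
        rw [_root_.mem_closure_iff] at h2 ⊢
        intro o ho hxo
        obtain ⟨y, hy, hy1⟩ := h2 (o ∩ ball x (ε / 2)) (ho.inter isOpen_ball)
          ⟨hxo, mem_ball_self (half_pos hε)⟩
        exact ⟨y, hy.1, hy.2, hy1⟩
      exact closure_minimal hcov hG h3
    obtain ⟨k, ⟨hkN, hk⟩, hxk⟩ := mem_iUnion₂.1 hxG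
    have hxk' : dist x (d k) = r k :=
      le_antisymm (mem_closedBall.1 hxk) (not_lt.1 fun h1 => hxb k h1)
    let H : Set ℂ := ⋃ j ∈ {j | j < N ∧ 0 < r j ∧ j ≠ k}, closedBall (d j) (r j)
    have hHfin : {j | j < N ∧ 0 < r j ∧ j ≠ k}.Finite :=
      (finite_lt_nat N).subset fun j hj => hj.1
    have hH : IsClosed H := hHfin.isClosed_biUnion fun k _ => isClosed_closedBall
    have hxH : x ∉ H := by
      intro hxH
      obtain ⟨j, ⟨_, hj, hjk⟩, hxj⟩ := mem_iUnion₂.1 hxH
      exact disj hjk hj hk x hxj hxk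
    have hnb : (ball x (ε / 2) ∩ ball 0 1) \ H ∈ 𝓝 x := by
      refine inter_mem (inter_mem (ball_mem_nhds x (half_pos hε)) ?_) (hH.isOpen_compl.mem_nhds hxH)
      exact isOpen_ball.mem_nhds (sub_ball hk hxk)
    have hlim : Tendsto (fun η : ℝ => x + η • (x - d k)) (𝓝[>] 0) (𝓝 x) := by
      have h1 : Continuous fun η : ℝ => x + η • (x - d k) := by fun_prop
      have h2 := h1.tendsto 0
      rw [zero_smul, add_zero] at h2
      exact h2.mono_left nhdsWithin_le_nhds
    obtain ⟨η, hη, hη0⟩ := ((hlim.eventually hnb).and self_mem_nhdsWithin).exists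
    have hη0' : 0 < η := hη0
    have h5 := hcov hη.1
    obtain ⟨j, ⟨hjN, hj⟩, hxj⟩ := mem_iUnion₂.1 h5
    rcases eq_or_ne j k with rfl | hjk
    · rw [mem_closedBall, dist_eq_norm] at hxj
      have h6 : x + η • (x - d j) - d j = (1 + η) • (x - d j) := by
        rw [add_smul, one_smul]
        ring
      rw [h6, norm_smul, ← dist_eq_norm, hxk', Real.norm_of_nonneg (by positivity)] at hxj
      nlinarith
    · exact hη.2 (mem_biUnion (⟨hjN, hj, hjk⟩ : j ∈ {j | j < N ∧ 0 < r j ∧ j ≠ k}) hxj)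

end Pool.Agent.X197.Cheese
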