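import Pool.Agent.X197.Cheese

/-!
# The Swiss cheese: the annihilating functional
-/

set_option autoImplicit false

namespace Pool.Agent.X197.Cheese

open Set Metric Filter Topology Complex

open Classical in
/-- the indices of the first discs -/
noncomputable def idx (N : ℕ) : Finset ℕ := (Finset.range N).filter fun n => 0 < r n

theorem mem_idx {N n : ℕ} : n ∈ idx N ↔ n < N ∧ 0 < r n := by
  unfold idx
  rw [Finset.mem_filter, Finset.mem_range]

/-- the functional -/
noncomputable def Lf (N : ℕ) (h : ℂ → ℂ) : ℂ :=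
  (∮ z in C(0, 1), h z) - ∑ n ∈ idx N, ∮ z in C(d n, r n), h z

/-- the union of the circles -/
def circ : Set ℂ := {z | z ∈ sphere (0 : ℂ) 1 ∨ ∃ n, 0 < r n ∧ z ∈ sphere (d n) (r n)}

theorem sph0 : sphere (0 : ℂ) 1 ⊆ circ := fun _ hz => Or.inl hz

theorem sphn {n : ℕ} (hn : 0 < r n) : sphere (d n) (r n) ⊆ circ := fun _ hz => Or.inr ⟨n, hn, hz⟩

theorem Lf_congr {N : ℕ} {h h' : ℂ → ℂ} (hh : EqOn h h' circ) : Lf N h = Lf N h' := by
  unfold Lf
  rw [circleIntegral.integral_congr zero_le_one (hh.mono sph0)]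
  congr 1
  refine Finset.sum_congr rfl fun n hn => ?_
  have h1 := (mem_idx.1 hn).2
  exact circleIntegral.integral_congr h1.le (hh.mono (sphn h1))

theorem Lf_add {N : ℕ} {h h' : ℂ → ℂ} (hc : ContinuousOn h circ) (hc' : ContinuousOn h' circ) :
    Lf N (fun z => h z + h' z) = Lf N h + Lf N h' := by
  unfold Lf
  rw [circleIntegral.integral_add ((hc.mono sph0).circleIntegrable zero_le_one)
    ((hc'.mono sph0).circleIntegrable zero_le_one)]
  have h1 : ∑ n ∈ idx N, (∮ z in C(d n, r n), (h z + h' z)) =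
      (∑ n ∈ idx N, ∮ z in C(d n, r n), h z) + ∑ n ∈ idx N, ∮ z in C(d n, r n), h' z := by
    rw [← Finset.sum_add_distrib]
    refine Finset.sum_congr rfl fun n hn => ?_
    have h1 := (mem_idx.1 hn).2
    exact circleIntegral.integral_add ((hc.mono (sphn h1)).circleIntegrable h1.le)
      ((hc'.mono (sphn h1)).circleIntegrable h1.le)
  rw [h1]
  ring

theorem Lf_mul {N : ℕ} (a : ℂ) (h : ℂ → ℂ) : Lf N (fun z => a * h z) = a * Lf N h := by
  unfold Lf
  rw [circleIntegral.integral_const_mul, mul_sub, Finset.mul_sum]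
  congr 1
  refine Finset.sum_congr rfl fun n _ => ?_
  rw [circleIntegral.integral_const_mul]

theorem Lf_norm {N : ℕ} {h : ℂ → ℂ} {ε : ℝ} (hh : ∀ z ∈ circ, ‖h z‖ ≤ ε) :
    ‖Lf N h‖ ≤ 2 * Real.pi * ε * (1 + ∑ n ∈ idx N, r n) := by
  unfold Lf
  refine (norm_sub_le _ _).trans ?_
  have h1 : ‖∮ z in C(0, 1), h z‖ ≤ 2 * Real.pi * 1 * ε :=
    circleIntegral.norm_integral_le_of_norm_le_const zero_le_one fun z hz => hh z (sph0 hz)
  have h2 : ‖∑ n ∈ idx N, ∮ z in C(d n, r n), h z‖ ≤ ∑ n ∈ idx N, 2 * Real.pi * r n * ε := by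
    refine (norm_sum_le _ _).trans (Finset.sum_le_sum fun n hn => ?_)
    have h1 := (mem_idx.1 hn).2
    exact circleIntegral.norm_integral_le_of_norm_le_const h1.le fun z hz => hh z (sphn h1 hz)
  calc _ ≤ 2 * Real.pi * 1 * ε + ∑ n ∈ idx N, 2 * Real.pi * r n * ε := add_le_add h1 h2
    _ = 2 * Real.pi * ε * (1 + ∑ n ∈ idx N, r n) := by
      rw [mul_add, Finset.mul_sum]
      congr 1
      · ring
      · refine Finset.sum_congr rfl fun n _ => ?_
        ring

/-- the admissible poles -/
def Good (N : ℕ) (w : ℂ) : Prop := w ∉ closedBall (0 : ℂ) 1 ∨ ∃ n < N, w ∈ ball (d n) (r n)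

theorem Good.mono {N M : ℕ} (h : N ≤ M) {w : ℂ} (hw : Good N w) : Good M w := by
  rcases hw with hw | ⟨n, hn, hw⟩
  · exact Or.inl hw
  · exact Or.inr ⟨n, by omega, hw⟩

theorem Good.notMem {N : ℕ} {w : ℂ} (hw : Good N w) : w ∉ circ := by
  rintro (h | ⟨m, hm, h⟩)
  · rcases hw with hw | ⟨n, hn, hw⟩
    · exact hw (sphere_subset_closedBall h)
    · have hn0 : 0 < r n := lt_of_le_of_lt dist_nonneg hw
      have h1 := sub_ball hn0 (ball_subset_closedBall hw)
      rw [mem_ball] at h1
      rw [mem_sphere] at h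
      linarith
  · rcases hw with hw | ⟨n, hn, hw⟩
    · exact hw (ball_subset_closedBall (sub_ball hm (sphere_subset_closedBall h)))
    · have hn0 : 0 < r n := lt_of_le_of_lt dist_nonneg hw
      rcases eq_or_ne m n with rfl | hmn
      · rw [mem_ball] at hw
        rw [mem_sphere] at h
        linarith
      · exact disj hmn hm hn0 w (sphere_subset_closedBall h) (ball_subset_closedBall hw)

theorem integral_inv_out {c w : ℂ} {R : ℝ} (hR : 0 ≤ R) (hw : w ∉ closedBall c R) :
    (∮ z in C(c, R), (z - w)⁻¹) = 0 := by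
  have hne : ∀ z ∈ closedBall c R, z - w ≠ 0 := by
    intro z hz h
    rw [sub_eq_zero] at h
    exact hw (h ▸ hz)
  refine Complex.circleIntegral_eq_zero_of_differentiable_on_off_countable hR countable_empty
    ?_ ?_
  · exact ContinuousOn.inv₀ (by fun_prop) hne
  · intro z hz
    exact DifferentiableAt.inv (by fun_prop) (hne z (ball_subset_closedBall hz.1))

theorem Lf_zpow {N : ℕ} {w : ℂ} (hw : Good N w) (k : ℤ) : Lf N (fun z => (z - w) ^ k) = 0 := by
  unfold Lf
  rcases eq_or_ne k (-1) with rfl | hk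
  · simp only [zpow_neg_one]
    rcases hw with hw | ⟨m, hm, hwm⟩
    · rw [integral_inv_out zero_le_one hw, zero_sub, neg_eq_zero]
      refine Finset.sum_eq_zero fun n hn => ?_
      have h1 := (mem_idx.1 hn).2
      refine integral_inv_out h1.le fun h => hw ?_
      exact ball_subset_closedBall (sub_ball h1 h)
    · have hm0 : 0 < r m := lt_of_le_of_lt dist_nonneg hwm
      rw [circleIntegral.integral_sub_inv_of_mem_ball
        (sub_ball hm0 (ball_subset_closedBall hwm)),
        Finset.sum_eq_single m, circleIntegral.integral_sub_inv_of_mem_ball hwm, sub_self]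
      · intro n hn hnm
        have h1 := (mem_idx.1 hn).2
        exact integral_inv_out h1.le fun h => disj hnm h1 hm0 w h (ball_subset_closedBall hwm)
      · intro h
        exact absurd (mem_idx.2 ⟨hm, hm0⟩) h
  · rw [circleIntegral.integral_sub_zpow_of_ne hk, zero_sub, neg_eq_zero]
    refine Finset.sum_eq_zero fun n _ => ?_
    exact circleIntegral.integral_sub_zpow_of_ne hk _ _ _

/-- the denominator with given roots -/
noncomputable def D (s : Multiset ℂ) (z : ℂ) : ℂ := (s.map fun w => z - w).prod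

theorem D_zero (z : ℂ) : D 0 z = 1 := by simp [D]

theorem D_cons (w : ℂ) (s : Multiset ℂ) (z : ℂ) : D (w ::ₘ s) z = (z - w) * D s z := by
  simp [D]

theorem D_ne {N : ℕ} {s : Multiset ℂ} (hs : ∀ w ∈ s, Good N w) {z : ℂ} (hz : z ∈ circ) :
    D s z ≠ 0 := by
  induction s using Multiset.induction_on with
  | empty =>
    rw [D_zero]
    exact one_ne_zero
  | cons w s ih =>
    rw [D_cons]
    refine mul_ne_zero ?_ (ih fun w hw => hs w (Multiset.mem_cons_of_mem hw))
    intro h
    rw [sub_eq_zero] at h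
    exact (hs w (Multiset.mem_cons_self w s)).notMem (h ▸ hz)

theorem D_cont (s : Multiset ℂ) : Continuous (D s) := by
  induction s using Multiset.induction_on with
  | empty =>
    have : D 0 = fun _ => 1 := funext D_zero
    rw [this]
    exact continuous_const
  | cons w s ih =>
    have : D (w ::ₘ s) = fun z => (z - w) * D s z := funext (D_cons w s)
    rw [this]
    exact (continuous_id.sub continuous_const).mul ih

theorem Dinv_cont {N : ℕ} {s : Multiset ℂ} (hs : ∀ w ∈ s, Good N w) :
    ContinuousOn (fun z => (D s z)⁻¹) circ :=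
  (D_cont s).continuousOn.inv₀ fun _ hz => D_ne hs hz

theorem Lf_inv {N : ℕ} (s : Multiset ℂ) (hs : ∀ w ∈ s, Good N w) :
    Lf N (fun z => (D s z)⁻¹) = 0 := by
  classical
  induction h : s.card using Nat.strong_induction_on generalizing s with
  | _ n ih =>
    rcases Multiset.empty_or_exists_mem s with rfl | ⟨w, hw⟩
    · have h1 : (fun z : ℂ => (D 0 z)⁻¹) = fun z => (z - 2) ^ (0 : ℤ) := by
        funext z
        rw [D_zero, inv_one, zpow_zero]
      rw [h1]
      refine Lf_zpow (Or.inl ?_) 0
      simp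
    · by_cases hall : ∀ x ∈ s, x = w
      · have h2 : s = Multiset.replicate s.card w := Multiset.eq_replicate.2 ⟨rfl, hall⟩
        have h3 : (fun z : ℂ => (D s z)⁻¹) = fun z => (z - w) ^ (-(s.card : ℤ)) := by
          funext z
          rw [zpow_neg, zpow_natCast]
          congr 1
          conv_lhs => rw [h2]
          simp [D]
        rw [h3]
        exact Lf_zpow (hs w hw) _
      · push Not at hall
        obtain ⟨w', hw', hne⟩ := hall
        obtain ⟨t, ht⟩ := Multiset.exists_cons_of_mem hw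
        have hw't : w' ∈ t := by
          rw [ht, Multiset.mem_cons] at hw'
          exact hw'.resolve_left hne
        obtain ⟨u, hu⟩ := Multiset.exists_cons_of_mem hw't
        have hsu : s = w ::ₘ w' ::ₘ u := by rw [ht, hu]
        subst hsu
        have hg1 : ∀ x ∈ w ::ₘ u, Good N x := by
          intro x hx
          refine hs x ?_
          rw [Multiset.mem_cons] at hx ⊢
          rcases hx with hx | hx
          · exact Or.inl hx
          · exact Or.inr (Multiset.mem_cons_of_mem hx)
        have hg2 : ∀ x ∈ w' ::ₘ u, Good N x := fun x hx => hs x (Multiset.mem_cons_of_mem hx)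
        have hc1 : (w ::ₘ u).card < n := by
          rw [← h]
          simp
        have hc2 : (w' ::ₘ u).card < n := by
          rw [← h]
          simp
        have e1 := ih _ hc1 (w ::ₘ u) hg1 rfl
        have e2 := ih _ hc2 (w' ::ₘ u) hg2 rfl
        have h5 : EqOn (fun z => (D (w ::ₘ w' ::ₘ u) z)⁻¹)
            (fun z => (w - w')⁻¹ * ((D (w ::ₘ u) z)⁻¹ + (-1) * (D (w' ::ₘ u) z)⁻¹)) circ := by
          intro z hz
          have h6 : z - w ≠ 0 := by
            intro h7
            rw [sub_eq_zero] at h7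
            exact (hg1 w (Multiset.mem_cons_self _ _)).notMem (h7 ▸ hz)
          have h6' : z - w' ≠ 0 := by
            intro h7
            rw [sub_eq_zero] at h7
            exact (hg2 w' (Multiset.mem_cons_self _ _)).notMem (h7 ▸ hz)
          have h8 : D u z ≠ 0 := D_ne (fun x hx => hg1 x (Multiset.mem_cons_of_mem hx)) hz
          have h9 : w - w' ≠ 0 := sub_ne_zero.2 hne.symm
          simp only [D_cons]
          field_simp
          ring
        have hcc : ContinuousOn (fun z => (-1 : ℂ) * (D (w' ::ₘ u) z)⁻¹) circ :=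
          continuousOn_const.mul (Dinv_cont hg2)
        rw [Lf_congr h5, Lf_mul, Lf_add (Dinv_cont hg1) hcc, Lf_mul, e1, e2]
        simp

theorem Lf_rat {N : ℕ} (s : Multiset ℂ) (hs : ∀ w ∈ s, Good N w) (p : Polynomial ℂ) :
    Lf N (fun z => p.eval z / D s z) = 0 := by
  induction s using Multiset.induction_on generalizing p with
  | empty =>
    simp only [D_zero, div_one]
    unfold Lf
    have h1 : ∀ (c : ℂ) (R : ℝ), 0 ≤ R → (∮ z in C(c, R), p.eval z) = 0 := by
      intro c R hR
      refine Complex.circleIntegral_eq_zero_of_differentiable_on_off_countable hR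
        countable_empty ?_ ?_
      · exact p.continuous.continuousOn
      · intro z _
        exact p.differentiable z
    rw [h1 0 1 zero_le_one, zero_sub, neg_eq_zero]
    exact Finset.sum_eq_zero fun n _ => h1 _ _ (r_nonneg n)
  | cons w s ih =>
    have hs' : ∀ x ∈ s, Good N x := fun x hx => hs x (Multiset.mem_cons_of_mem hx)
    obtain ⟨q, hq⟩ := Polynomial.X_sub_C_dvd_sub_C_eval (p := p) (a := w)
    have h1 : EqOn (fun z => p.eval z / D (w ::ₘ s) z)
        (fun z => q.eval z / D s z + p.eval w * (D (w ::ₘ s) z)⁻¹) circ := by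
      intro z hz
      have h6 : z - w ≠ 0 := by
        intro h7
        rw [sub_eq_zero] at h7
        exact (hs w (Multiset.mem_cons_self _ _)).notMem (h7 ▸ hz)
      have h8 : D s z ≠ 0 := D_ne hs' hz
      have h9 : p.eval z - p.eval w = (z - w) * q.eval z := by
        have := congrArg (Polynomial.eval z) hq
        simpa using this
      have h10 : p.eval z = (z - w) * q.eval z + p.eval w := by rw [← h9]; ring
      simp only [D_cons]
      rw [h10]
      field_simp
    rw [Lf_congr h1, Lf_add ?_ ?_, Lf_mul, ih hs' q, Lf_inv _ hs, mul_zero, add_zero]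
    · exact q.continuous.continuousOn.div (D_cont s).continuousOn fun z hz => D_ne hs' hz
    · exact continuousOn_const.mul (Dinv_cont hs)

theorem integral_conj {c : ℂ} {R : ℝ} (hR : 0 < R) :
    (∮ z in C(c, R), (starRingEnd ℂ) z) = (R : ℂ) ^ 2 * (2 * Real.pi * I) := by
  have h1 : EqOn (fun z => (starRingEnd ℂ) z)
      (fun z => (starRingEnd ℂ) c * (z - c) ^ (0 : ℤ) + (R : ℂ) ^ 2 * (z - c)⁻¹) (sphere c R) := by
    intro z hz
    have h2 : z - c ≠ 0 := by
      intro h
      rw [mem_sphere, dist_eq_norm, h, norm_zero] at hz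
      exact hR.ne hz
    have h3 : (z - c) * (starRingEnd ℂ) (z - c) = (R : ℂ) ^ 2 := by
      rw [Complex.mul_conj, Complex.normSq_eq_norm_sq, ← dist_eq_norm, mem_sphere.1 hz]
      push_cast
      ring
    simp only [zpow_zero, mul_one]
    rw [← h3, map_sub]
    field_simp
    ring
  have hne : ∀ z ∈ sphere c R, z - c ≠ 0 := by
    intro z hz h
    rw [mem_sphere, dist_eq_norm, h, norm_zero] at hz
    exact hR.ne hz
  rw [circleIntegral.integral_congr hR.le h1, circleIntegral.integral_add,
    circleIntegral.integral_const_mul, circleIntegral.integral_const_mul,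
    circleIntegral.integral_sub_zpow_of_ne (by norm_num), mul_zero, zero_add,
    circleIntegral.integral_sub_center_inv c hR.ne']
  · refine ContinuousOn.circleIntegrable hR.le ?_
    simp only [zpow_zero]
    exact continuousOn_const
  · refine ContinuousOn.circleIntegrable hR.le ?_
    exact continuousOn_const.mul (ContinuousOn.inv₀ (by fun_prop) hne)

theorem f_circ : EqOn f (fun z => (starRingEnd ℂ) z) circ := by
  intro z hz
  refine f_out fun n hn h => ?_
  have h1 : z ∈ closedBall (d n) (r n) := closedBall_subset_closedBall (by linarith) h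
  rcases hz with hz | ⟨m, hm, hz⟩
  · have h2 := sub_ball hn h1
    rw [mem_ball] at h2
    rw [mem_sphere] at hz
    linarith
  · rcases eq_or_ne m n with rfl | hmn
    · rw [mem_closedBall] at h
      rw [mem_sphere] at hz
      linarith
    · exact disj hmn hm hn z (sphere_subset_closedBall hz) h1

theorem circ_sub : circ ⊆ X := by
  intro z hz
  rw [mem_X]
  rcases hz with hz | ⟨m, hm, hz⟩
  · refine ⟨sphere_subset_closedBall hz, fun n hn => ?_⟩
    exfalso
    have hn0 : 0 < r n := lt_of_le_of_lt dist_nonneg hn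
    have h2 := sub_ball hn0 (ball_subset_closedBall hn)
    rw [mem_ball] at h2
    rw [mem_sphere] at hz
    linarith
  · refine ⟨ball_subset_closedBall (sub_ball hm (sphere_subset_closedBall hz)), fun n hn => ?_⟩
    exfalso
    have hn0 : 0 < r n := lt_of_le_of_lt dist_nonneg hn
    rcases eq_or_ne m n with rfl | hmn
    · rw [mem_ball] at hn
      rw [mem_sphere] at hz
      linarith
    · exact disj hmn hm hn0 z (sphere_subset_closedBall hz) (ball_subset_closedBall hn)

theorem Lf_f (N : ℕ) : Lf N f = (1 - ∑ n ∈ idx N, (r n : ℂ) ^ 2) * (2 * Real.pi * I) := by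
  rw [Lf_congr f_circ]
  unfold Lf
  rw [integral_conj one_pos]
  have h1 : ∑ n ∈ idx N, (∮ z in C(d n, r n), (starRingEnd ℂ) z) =
      ∑ n ∈ idx N, (r n : ℂ) ^ 2 * (2 * Real.pi * I) :=
    Finset.sum_congr rfl fun n hn => integral_conj (mem_idx.1 hn).2
  rw [h1, ← Finset.sum_mul]
  push_cast
  ring

theorem sum_r (N : ℕ) : ∑ n ∈ idx N, r n ≤ 1 / 4 := by
  have h1 : ∑ n ∈ idx N, r n ≤ ∑ n ∈ Finset.range N, (1 / 8 : ℝ) * (1 / 2) ^ n := by
    have h2 : ∑ n ∈ idx N, r n ≤ ∑ n ∈ Finset.range N, r n :=
      Finset.sum_le_sum_of_subset_of_nonneg (fun n hn => Finset.mem_range.2 (mem_idx.1 hn).1)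
        fun n _ _ => r_nonneg n
    refine h2.trans (Finset.sum_le_sum fun n _ => (r_le n).trans (le_of_eq ?_))
    rw [pow_add]
    ring
  refine h1.trans ?_
  rw [← Finset.mul_sum, geom_sum_eq (by norm_num)]
  have h3 : (0 : ℝ) ≤ (1 / 2) ^ N := by positivity
  have h4 : (((1 / 2 : ℝ)) ^ N - 1) / (1 / 2 - 1) = 2 * (1 - (1 / 2) ^ N) := by
    rw [show ((1 : ℝ) / 2 - 1) = -(1 / 2) by norm_num, div_neg, div_div_eq_mul_div]
    ring
  rw [h4]
  linarith

theorem f_notR : ¬ InR X f := by
  intro h
  obtain ⟨p, q, hq, hpq⟩ := h (1 / 2) (by norm_num)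
  have h1X : (1 : ℂ) ∈ X := circ_sub (sph0 (by simp))
  have hq0 : q ≠ 0 := by
    rintro rfl
    exact hq 1 h1X (by simp)
  have hroots : ∀ w ∈ q.roots, ∃ N, Good N w := by
    intro w hw
    have h1 : w ∉ X := fun hX => hq w hX (Polynomial.isRoot_of_mem_roots hw)
    rw [mem_X] at h1
    by_cases h2 : w ∈ closedBall (0 : ℂ) 1
    · have h3 : ∃ n, w ∈ ball (d n) (r n) := by
        by_contra h4
        push Not at h4
        exact h1 ⟨h2, fun n hn => absurd hn (h4 n)⟩
      obtain ⟨n, hn⟩ := h3
      exact ⟨n + 1, Or.inr ⟨n, by omega, hn⟩⟩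
    · exact ⟨0, Or.inl h2⟩
  obtain ⟨N, hN⟩ : ∃ N, ∀ w ∈ q.roots, Good N w := by
    generalize q.roots = s at hroots
    induction s using Multiset.induction_on with
    | empty => exact ⟨0, by simp⟩
    | cons w s ih =>
      obtain ⟨N, hN⟩ := ih fun x hx => hroots x (Multiset.mem_cons_of_mem hx)
      obtain ⟨M, hM⟩ := hroots w (Multiset.mem_cons_self w s)
      refine ⟨max N M, fun x hx => ?_⟩
      rcases Multiset.mem_cons.1 hx with rfl | hx
      · exact hM.mono (le_max_right _ _)
      · exact (hN x hx).mono (le_max_left _ _)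
  have hsplit : ∀ z, q.eval z = q.leadingCoeff * D q.roots z := by
    intro z
    have h1 := (IsAlgClosed.splits q).eq_prod_roots
    conv_lhs => rw [h1]
    rw [Polynomial.eval_mul, Polynomial.eval_C, Polynomial.eval_multiset_prod, Multiset.map_map]
    congr 2
    refine Multiset.map_congr rfl fun w _ => ?_
    simp
  have hg : Lf N (fun z => p.eval z / q.eval z) = 0 := by
    have h1 : (fun z => p.eval z / q.eval z) =
        fun z => (q.leadingCoeff)⁻¹ * (p.eval z / D q.roots z) := by
      funext z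
      rw [hsplit z]
      have : q.leadingCoeff ≠ 0 := Polynomial.leadingCoeff_ne_zero.2 hq0
      field_simp
    rw [h1, Lf_mul, Lf_rat _ hN, mul_zero]
  have hfc : ContinuousOn f circ := f_cont.mono circ_sub
  have hgc : ContinuousOn (fun z => p.eval z / q.eval z) circ :=
    p.continuous.continuousOn.div q.continuous.continuousOn fun z hz => hq z (circ_sub hz)
  have h2 : Lf N (fun z => f z + (-1) * (p.eval z / q.eval z)) = Lf N f := by
    have hcc : ContinuousOn (fun z => (-1 : ℂ) * (p.eval z / q.eval z)) circ :=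
      continuousOn_const.mul hgc
    rw [Lf_add hfc hcc, Lf_mul, hg]
    simp
  have h3 : ‖Lf N f‖ ≤ 2 * Real.pi * (1 / 2) * (1 + ∑ n ∈ idx N, r n) := by
    rw [← h2]
    refine Lf_norm fun z hz => ?_
    have h4 := (hpq z (circ_sub hz)).le
    rwa [neg_one_mul, ← sub_eq_add_neg]
  have h5 : ‖Lf N f‖ = (1 - ∑ n ∈ idx N, (r n) ^ 2) * (2 * Real.pi) := by
    have hr2 : ∑ n ∈ idx N, (r n) ^ 2 ≤ 1 / 4 := by
      refine le_trans (Finset.sum_le_sum fun n _ => ?_) (sum_r N)
      have h6 := r_nonneg n
      have h7 : r n ≤ 1 := (r_le n).trans (pow_le_one₀ (by norm_num) (by norm_num))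
      nlinarith
    have h8 : (1 - ∑ n ∈ idx N, (r n : ℂ) ^ 2) = ((1 - ∑ n ∈ idx N, (r n) ^ 2 : ℝ) : ℂ) := by
      push_cast
      ring
    rw [Lf_f, h8, norm_mul, Complex.norm_real, Real.norm_of_nonneg (by linarith)]
    congr 1
    rw [norm_mul, norm_mul, Complex.norm_real, Complex.norm_I, Real.norm_of_nonneg Real.pi_pos.le]
    simp
  have hr2 : ∑ n ∈ idx N, (r n) ^ 2 ≤ 1 / 4 := by
    refine le_trans (Finset.sum_le_sum fun n _ => ?_) (sum_r N)
    have h6 := r_nonneg n
    have h7 : r n ≤ 1 := (r_le n).trans (pow_le_one₀ (by norm_num) (by norm_num))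
    nlinarith
  have h9 := sum_r N
  have hpi := Real.pi_pos
  rw [h5] at h3
  nlinarith

end Pool.Agent.X197.Cheese
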