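import Mathlib

/-!
# (I)-envelopes: description by sequences
-/

set_option autoImplicit false

open Set Topology Filter

namespace Pool.Agent.X197.Ienv

universe u v

variable {𝕜 : Type u} [RCLike 𝕜] {X : Type v} [NormedAddCommGroup X] [NormedSpace 𝕜 X]

/-- The weak* closed convex hull of a subset of the dual space `X*`. -/
def wHull (A : Set (StrongDual 𝕜 X)) : Set (StrongDual 𝕜 X) :=
  StrongDual.toWeakDual ⁻¹' closure (StrongDual.toWeakDual '' convexHull ℝ A)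

/-- `K(𝒜)`: the norm closed convex hull of the union of the weak* closed convex hulls of the
members of a sequence of sets. -/
def Kset (C : ℕ → Set (StrongDual 𝕜 X)) : Set (StrongDual 𝕜 X) :=
  closure (convexHull ℝ (⋃ n, wHull (C n)))

/-- The (I)-envelope of a subset `A` of the dual space: the intersection of the sets `K(𝒜)` over
all countable covers `𝒜 = (C n)` of `A`, `A = ⋃ n, C n`. -/
def Ienv (A : Set (StrongDual 𝕜 X)) : Set (StrongDual 𝕜 X) :=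
  ⋂ (C : ℕ → Set (StrongDual 𝕜 X)) (_ : ⋃ n, C n = A), Kset C

theorem norm_apply_le (ξ : StrongDual 𝕜 X) {x : X} (hx : ‖x‖ ≤ 1) : ‖ξ x‖ ≤ ‖ξ‖ :=
  (ξ.le_opNorm x).trans (mul_le_of_le_one_right (norm_nonneg _) hx)

theorem abs_re_le (ξ : StrongDual 𝕜 X) {x : X} (hx : ‖x‖ ≤ 1) : |RCLike.re (ξ x)| ≤ ‖ξ‖ :=
  (RCLike.abs_re_le_norm _).trans (norm_apply_le ξ hx)

theorem re_sub (ξ ζ : StrongDual 𝕜 X) (x : X) :
    RCLike.re ((ξ - ζ) x) = RCLike.re (ξ x) - RCLike.re (ζ x) := by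
  rw [ContinuousLinearMap.sub_apply, map_sub]

theorem re_comb (a b : ℝ) (ξ ζ : StrongDual 𝕜 X) (x : X) :
    RCLike.re ((a • ξ + b • ζ) x) = a * RCLike.re (ξ x) + b * RCLike.re (ζ x) := by
  rw [ContinuousLinearMap.add_apply, map_add]
  show RCLike.re (a • ξ x) + RCLike.re (b • ζ x) = _
  rw [RCLike.smul_re, RCLike.smul_re]

theorem convex_half (x : X) (t : ℝ) : Convex ℝ {ξ : StrongDual 𝕜 X | RCLike.re (ξ x) ≤ t} := by
  intro ξ hξ ζ hζ a b ha hb hab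
  show RCLike.re ((a • ξ + b • ζ) x) ≤ t
  rw [re_comb]
  have h1 : RCLike.re (ξ x) ≤ t := hξ
  have h2 : RCLike.re (ζ x) ≤ t := hζ
  calc a * RCLike.re (ξ x) + b * RCLike.re (ζ x) ≤ a * t + b * t := by gcongr
    _ = t := by rw [← add_mul, hab, one_mul]

theorem wHull_subset_half {A : Set (StrongDual 𝕜 X)} {x : X} {t : ℝ}
    (h : ∀ ξ ∈ A, RCLike.re (ξ x) ≤ t) : ∀ ξ ∈ wHull A, RCLike.re (ξ x) ≤ t := by
  intro ξ hξ
  have hcl : IsClosed {ζ : WeakDual 𝕜 X | RCLike.re (ζ x) ≤ t} :=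
    isClosed_le (RCLike.continuous_re.comp (WeakDual.eval_continuous x)) continuous_const
  have hsub : StrongDual.toWeakDual '' convexHull ℝ A ⊆ {ζ : WeakDual 𝕜 X | RCLike.re (ζ x) ≤ t} := by
    rintro _ ⟨ζ, hζ, rfl⟩
    exact convexHull_min (t := {ξ : StrongDual 𝕜 X | RCLike.re (ξ x) ≤ t}) h (convex_half x t) hζ
  exact hcl.closure_subset_iff.2 hsub hξ

/-- A witness that `η` does not belong to the (I)-envelope of `A`. -/
def Wit (A : Set (StrongDual 𝕜 X)) (η : StrongDual 𝕜 X) : Prop :=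
  ∃ (x : ℕ → X) (s t : ℝ), (∀ n, ‖x n‖ ≤ 1) ∧ t < s ∧ (∀ n, s ≤ RCLike.re (η (x n))) ∧
    ∀ ξ ∈ A, ∀ᶠ n in atTop, RCLike.re (ξ (x n)) ≤ t

theorem not_mem_of_wit {A : Set (StrongDual 𝕜 X)} {η : StrongDual 𝕜 X} (h : Wit A η) :
    η ∉ Ienv A := by
  obtain ⟨x, s, t, hx, hst, hη, hA⟩ := h
  intro hmem
  let H : ℕ → Set (StrongDual 𝕜 X) := fun n => {ξ | ∀ m, n ≤ m → RCLike.re (ξ (x m)) ≤ t}
  let C : ℕ → Set (StrongDual 𝕜 X) := fun n => A ∩ H n
  have hC : ⋃ n, C n = A := by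
    apply Subset.antisymm
    · exact iUnion_subset fun n => inter_subset_left
    · intro ξ hξ
      obtain ⟨n, hn⟩ := eventually_atTop.1 (hA ξ hξ)
      exact mem_iUnion.2 ⟨n, hξ, fun m hm => hn m hm⟩
  have hmem' := mem_iInter₂.1 hmem C hC
  have hmono : Monotone H := fun n n' h ξ hξ m hm => hξ m (h.trans hm)
  have hconv : Convex ℝ (⋃ n, H n) := by
    refine (hmono.directed_le).convex_iUnion fun n => ?_
    have : H n = ⋂ m, ⋂ _ : n ≤ m, {ξ : StrongDual 𝕜 X | RCLike.re (ξ (x m)) ≤ t} := by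
      ext ξ
      simp [H]
    rw [this]
    exact convex_iInter fun m => convex_iInter fun _ => convex_half _ _
  have hsub : convexHull ℝ (⋃ n, wHull (C n)) ⊆ ⋃ n, H n := by
    refine convexHull_min (iUnion_mono fun n ξ hξ m hm => ?_) hconv
    exact wHull_subset_half (fun ζ hζ => hζ.2 m hm) ξ hξ
  have hcl := closure_mono hsub hmem'
  obtain ⟨ζ, hζ, hd⟩ := Metric.mem_closure_iff.1 hcl ((s - t) / 2) (by linarith)
  obtain ⟨n, hn⟩ := mem_iUnion.1 hζ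
  have h1 := hn n le_rfl
  have h2 := hη n
  have h3 := abs_re_le (η - ζ) (hx n)
  rw [re_sub] at h3
  rw [dist_eq_norm] at hd
  have h4 := (abs_le.1 h3).2
  linarith

section compact

theorem isCompact_convexJoin {E : Type*} [AddCommGroup E] [Module ℝ E] [TopologicalSpace E]
    [ContinuousAdd E] [ContinuousSMul ℝ E] {s t : Set E} (hs : IsCompact s) (ht : IsCompact t) :
    IsCompact (convexJoin ℝ s t) := by
  have h : convexJoin ℝ s t = (fun p : ℝ × E × E => (1 - p.1) • p.2.1 + p.1 • p.2.2) ''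
      (Icc (0 : ℝ) 1 ×ˢ s ×ˢ t) := by
    ext z
    rw [mem_convexJoin]
    constructor
    · rintro ⟨a, ha, b, hb, hz⟩
      rw [segment_eq_image] at hz
      obtain ⟨θ, hθ, rfl⟩ := hz
      exact ⟨(θ, a, b), ⟨hθ, ha, hb⟩, rfl⟩
    · rintro ⟨⟨θ, a, b⟩, ⟨hθ, ha, hb⟩, rfl⟩
      refine ⟨a, ha, b, hb, ?_⟩
      rw [segment_eq_image]
      exact ⟨θ, hθ, rfl⟩
  rw [h]
  refine (isCompact_Icc.prod (hs.prod ht)).image ?_
  fun_prop

theorem isCompact_hull_union {E : Type*} [AddCommGroup E] [Module ℝ E] [TopologicalSpace E]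
    [ContinuousAdd E] [ContinuousSMul ℝ E] (C : ℕ → Set E) (hc : ∀ n, IsCompact (C n))
    (hconv : ∀ n, Convex ℝ (C n)) (n : ℕ) :
    IsCompact (convexHull ℝ (⋃ j, ⋃ _ : j < n, C j)) := by
  induction n with
  | zero =>
    simp
  | succ n ih =>
    have h1 : (⋃ j, ⋃ _ : j < n + 1, C j) = (⋃ j, ⋃ _ : j < n, C j) ∪ C n := by
      ext z
      simp only [mem_iUnion, mem_union, exists_prop, Nat.lt_succ_iff_lt_or_eq]
      constructor
      · rintro ⟨j, hj | rfl, hz⟩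
        · exact Or.inl ⟨j, hj, hz⟩
        · exact Or.inr hz
      · rintro (⟨j, hj, hz⟩ | hz)
        · exact ⟨j, Or.inl hj, hz⟩
        · exact ⟨n, Or.inr rfl, hz⟩
    rw [h1]
    rcases (⋃ j, ⋃ _ : j < n, C j).eq_empty_or_nonempty with h | h
    · rw [h, empty_union, (hconv n).convexHull_eq]
      exact hc n
    · rcases (C n).eq_empty_or_nonempty with h' | h'
      · rw [h', union_empty]
        exact ih
      · rw [convexHull_union h h', (hconv n).convexHull_eq]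
        exact isCompact_convexJoin ih (hc n)

end compact

section stab

theorem stab_step (P : Filter ℕ → Prop) (F : Filter ℕ) (hF : F.NeBot)
    (hc : F.IsCountablyGenerated) :
    ∃ F' ≤ F, F'.NeBot ∧ F'.IsCountablyGenerated ∧
      (P F' ∨ ∀ G ≤ F', G.NeBot → G.IsCountablyGenerated → ¬ P G) := by
  by_cases h : ∃ G ≤ F, G.NeBot ∧ G.IsCountablyGenerated ∧ P G
  · obtain ⟨G, h1, h2, h3, h4⟩ := h
    exact ⟨G, h1, h2, h3, Or.inl h4⟩
  · exact ⟨F, le_rfl, hF, hc, Or.inr fun G h1 h2 h3 h4 => h ⟨G, h1, h2, h3, h4⟩⟩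

theorem stab (P : ℕ → Filter ℕ → Prop) (hP : ∀ j F G, G ≤ F → P j F → P j G) :
    ∃ F : Filter ℕ, F.NeBot ∧ F.IsCountablyGenerated ∧ F ≤ atTop ∧
      ∀ j, P j F ∨ ∀ G ≤ F, G.NeBot → G.IsCountablyGenerated → ¬ P j G := by
  let T := {F : Filter ℕ // F.NeBot ∧ F.IsCountablyGenerated}
  have step : ∀ (j : ℕ) (F : T), ∃ F' : T, F'.1 ≤ F.1 ∧
      (P j F'.1 ∨ ∀ G ≤ F'.1, G.NeBot → G.IsCountablyGenerated → ¬ P j G) := by
    intro j F
    obtain ⟨F', h1, h2, h3, h4⟩ := stab_step (P j) F.1 F.2.1 F.2.2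
    exact ⟨⟨F', h2, h3⟩, h1, h4⟩
  choose nx h1 h2 using step
  let s : ℕ → T := fun n => Nat.rec ⟨atTop, inferInstance, inferInstance⟩ (fun j F => nx j F) n
  have hs : ∀ n, s (n + 1) = nx n (s n) := fun n => rfl
  have hanti : Antitone fun n => (s n).1 := antitone_nat_of_succ_le fun n => h1 n (s n)
  refine ⟨⨅ n, (s n).1, ?_, ?_, iInf_le (fun n => (s n).1) 0, fun j => ?_⟩
  · exact iInf_neBot_of_directed' (directed_of_isDirected_le hanti) fun n => (s n).2.1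
  · haveI : ∀ n, (s n).1.IsCountablyGenerated := fun n => (s n).2.2
    exact Filter.iInf.isCountablyGenerated _
  · have hle : (⨅ n, (s n).1) ≤ (s (j + 1)).1 := iInf_le (fun n => (s n).1) (j + 1)
    rcases h2 j (s j) with h | h
    · exact Or.inl (hP j _ _ hle h)
    · exact Or.inr fun G hG => h G (hG.trans hle)

theorem stab' {ι : Type*} [Countable ι] [Nonempty ι] (P : ι → Filter ℕ → Prop)
    (hP : ∀ j F G, G ≤ F → P j F → P j G) :
    ∃ F : Filter ℕ, F.NeBot ∧ F.IsCountablyGenerated ∧ F ≤ atTop ∧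
      ∀ j, P j F ∨ ∀ G ≤ F, G.NeBot → G.IsCountablyGenerated → ¬ P j G := by
  obtain ⟨e, he⟩ := exists_surjective_nat ι
  obtain ⟨F, h1, h2, h3, h4⟩ := stab (fun n => P (e n)) (fun n => hP (e n))
  refine ⟨F, h1, h2, h3, fun j => ?_⟩
  obtain ⟨n, rfl⟩ := he j
  exact h4 n

end stab

section comb

variable {V : Type*} [AddCommGroup V] [Module ℝ V]

/-- The predicate `limsup_F (q f + (1 - q) g) ≤ 0` on `A`. -/
def PP (f g : ℕ → V → ℝ) (A : Set V) (q : ℝ) (F : Filter ℕ) : Prop :=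
  ∀ ξ ∈ A, ∀ ε : ℝ, 0 < ε → ∀ᶠ n in F, q * f n ξ + (1 - q) * g n ξ ≤ ε

theorem PP_anti (f g : ℕ → V → ℝ) (A : Set V) (q : ℝ) {F G : Filter ℕ} (h : G ≤ F)
    (hF : PP f g A q F) : PP f g A q G := fun ξ hξ ε hε => h (hF ξ hξ ε hε)

theorem PP_closed (f g : ℕ → V → ℝ) (bf : ∀ ξ, ∃ M, ∀ n, |f n ξ| ≤ M)
    (bg : ∀ ξ, ∃ M, ∀ n, |g n ξ| ≤ M) (A : Set V) (F : Filter ℕ) :
    IsClosed {q | PP f g A q F} := by
  rw [← closure_subset_iff_isClosed]
  intro q hq ξ hξ ε hε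
  obtain ⟨M, hM⟩ := bf ξ
  obtain ⟨M', hM'⟩ := bg ξ
  have hMM : 0 ≤ M + M' := by
    have h1 := (abs_nonneg _).trans (hM 0)
    have h2 := (abs_nonneg _).trans (hM' 0)
    linarith
  obtain ⟨q', hq', hd⟩ := Metric.mem_closure_iff.1 hq (ε / (2 * (M + M' + 1))) (by positivity)
  filter_upwards [hq' ξ hξ (ε / 2) (by linarith)] with n hn
  have h1 : q * f n ξ + (1 - q) * g n ξ
      = (q' * f n ξ + (1 - q') * g n ξ) + (q - q') * (f n ξ - g n ξ) := by ring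
  have h2 : (q - q') * (f n ξ - g n ξ) ≤ ε / 2 := by
    calc (q - q') * (f n ξ - g n ξ) ≤ |(q - q') * (f n ξ - g n ξ)| := le_abs_self _
      _ = |q - q'| * |f n ξ - g n ξ| := abs_mul _ _
      _ ≤ (ε / (2 * (M + M' + 1))) * (M + M' + 1) := by
          rw [Real.dist_eq] at hd
          have h3 : |f n ξ - g n ξ| ≤ M + M' := (abs_sub _ _).trans (add_le_add (hM n) (hM' n))
          exact mul_le_mul hd.le (by linarith) (abs_nonneg _) (by positivity)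
      _ = ε / 2 := by field_simp
  rw [h1]
  linarith

theorem neg_PP {f g : ℕ → V → ℝ} {A : Set V} {q : ℝ} {F : Filter ℕ} (h : ¬ PP f g A q F) :
    ∃ ξ ∈ A, ∃ c : ℝ, 0 < c ∧ ∃ᶠ n in F, c < q * f n ξ + (1 - q) * g n ξ := by
  unfold PP at h
  push_neg at h
  obtain ⟨ξ, hξ, c, hc, h⟩ := h
  refine ⟨ξ, hξ, c, hc, ?_⟩
  simpa only [not_le] using h

/-- The two-dimensional step. -/
theorem two_dim {q p1 p2 r1 r2 c : ℝ} (hq0 : 0 ≤ q) (hq1 : q ≤ 1) (hc : 0 < c) (hp : p1 ≤ 0)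
    (hr : r2 ≤ 0) (h1 : c < q * p1 + (1 - q) * p2) (h2 : c < q * r1 + (1 - q) * r2) :
    ∃ w ∈ Icc (0 : ℝ) 1, c < w * p1 + (1 - w) * r1 ∧ c < w * p2 + (1 - w) * r2 := by
  have hp2 : 0 < p2 := by
    by_contra hcon
    push Not at hcon
    nlinarith
  have hr1 : 0 < r1 := by
    by_contra hcon
    push Not at hcon
    nlinarith
  set a := r1 - r2 with ha
  set b := p2 - p1 with hb
  have ha0 : 0 < a := by linarith
  have hb0 : 0 < b := by linarith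
  refine ⟨a / (a + b), ⟨by positivity, by rw [div_le_one (by positivity)]; linarith⟩, ?_⟩
  set w := a / (a + b) with hw
  have hw0 : 0 < w := by positivity
  have hw1 : w < 1 := by rw [hw, div_lt_one (by positivity)]; linarith
  have heq : w * p1 + (1 - w) * r1 = w * p2 + (1 - w) * r2 := by
    have : w * (a + b) = a := by rw [hw]; field_simp
    have h3 : w * b = (1 - w) * a := by linarith
    rw [ha, hb] at h3
    linarith
  have hsum : w * p1 + (1 - w) * r1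
      = w * (q * p1 + (1 - q) * p2) + (1 - w) * (q * r1 + (1 - q) * r2) := by
    have : w * (q * p1 + (1 - q) * p2) + (1 - w) * (q * r1 + (1 - q) * r2)
      = q * (w * p1 + (1 - w) * r1) + (1 - q) * (w * p2 + (1 - w) * r2) := by ring
    rw [this, ← heq]
    ring
  have hgt : c < w * p1 + (1 - w) * r1 := by
    rw [hsum]
    nlinarith
  exact ⟨hgt, heq ▸ hgt⟩

theorem no_both {A B : Set V} (hAB : Convex ℝ (A ∪ B)) (f g : ℕ → V → ℝ)
    (hf : ∀ n (a b : ℝ) (ξ ζ : V), a + b = 1 → f n (a • ξ + b • ζ) = a * f n ξ + b * f n ζ)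
    (hg : ∀ n (a b : ℝ) (ξ ζ : V), a + b = 1 → g n (a • ξ + b • ζ) = a * g n ξ + b * g n ζ)
    (bf : ∀ ξ, ∃ M, ∀ n, |f n ξ| ≤ M) (bg : ∀ ξ, ∃ M, ∀ n, |g n ξ| ≤ M)
    (hA : ∀ ξ ∈ A, ∀ᶠ n in atTop, f n ξ ≤ 0) (hB : ∀ ξ ∈ B, ∀ᶠ n in atTop, g n ξ ≤ 0)
    {q : ℝ} (hq0 : 0 ≤ q) (hq1 : q ≤ 1) {G : Filter ℕ} (hGb : G.NeBot) (hG : G ≤ atTop)
    {ξ ζ : V} (hξ : ξ ∈ A) (hζ : ζ ∈ B) {c : ℝ} (hc : 0 < c)
    (h1 : ∀ᶠ n in G, c < q * f n ξ + (1 - q) * g n ξ)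
    (h2 : ∀ᶠ n in G, c < q * f n ζ + (1 - q) * g n ζ) : False := by
  have hex : ∀ n : ℕ, ∃ w ∈ Icc (0 : ℝ) 1, (f n ξ ≤ 0 → g n ζ ≤ 0 →
      c < q * f n ξ + (1 - q) * g n ξ → c < q * f n ζ + (1 - q) * g n ζ →
      c < w * f n ξ + (1 - w) * f n ζ ∧ c < w * g n ξ + (1 - w) * g n ζ) := by
    intro n
    by_cases h : f n ξ ≤ 0 ∧ g n ζ ≤ 0 ∧ c < q * f n ξ + (1 - q) * g n ξ ∧
      c < q * f n ζ + (1 - q) * g n ζ
    · obtain ⟨w, hw, h3⟩ := two_dim hq0 hq1 hc h.1 h.2.1 h.2.2.1 h.2.2.2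
      exact ⟨w, hw, fun _ _ _ _ => h3⟩
    · exact ⟨0, ⟨le_rfl, zero_le_one⟩, fun a1 a2 a3 a4 => absurd ⟨a1, a2, a3, a4⟩ h⟩
  choose w hw hw' using hex
  have hev : ∀ᶠ n in G, c < w n * f n ξ + (1 - w n) * f n ζ ∧
      c < w n * g n ξ + (1 - w n) * g n ζ := by
    filter_upwards [h1, h2, hG (hA ξ hξ), hG (hB ζ hζ)] with n a1 a2 a3 a4
    exact hw' n a3 a4 a1 a2
  obtain ⟨w0, hw0, hcl⟩ := isCompact_Icc.exists_mapClusterPt (f := G) (u := w)
    (le_principal_iff.2 (Filter.mem_map.2 (univ_mem' hw)))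
  obtain ⟨M1, hM1⟩ := bf ξ
  obtain ⟨M2, hM2⟩ := bf ζ
  obtain ⟨M3, hM3⟩ := bg ξ
  obtain ⟨M4, hM4⟩ := bg ζ
  have p1 := (abs_nonneg _).trans (hM1 0)
  have p2 := (abs_nonneg _).trans (hM2 0)
  have p3 := (abs_nonneg _).trans (hM3 0)
  have p4 := (abs_nonneg _).trans (hM4 0)
  set M := M1 + M2 + M3 + M4 + 1 with hM
  have hMpos : 0 < M := by positivity
  have hfreq : ∃ᶠ n in G, dist (w n) w0 < c / M := by
    have := hcl.frequently (Metric.ball_mem_nhds w0 (by positivity : 0 < c / M))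
    exact this
  have hfreq2 : ∃ᶠ n in G, 0 < f n (w0 • ξ + (1 - w0) • ζ) ∧ 0 < g n (w0 • ξ + (1 - w0) • ζ) := by
    refine (hfreq.and_eventually hev).mono ?_
    rintro n ⟨hd, hF, hG'⟩
    rw [hf n _ _ _ _ (by ring), hg n _ _ _ _ (by ring)]
    rw [Real.dist_eq] at hd
    have key : ∀ x y : ℝ, |x| + |y| ≤ M → (w n - w0) * (x - y) ≤ c := by
      intro x y hxy
      calc (w n - w0) * (x - y) ≤ |(w n - w0) * (x - y)| := le_abs_self _
        _ = |w n - w0| * |x - y| := abs_mul _ _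
        _ ≤ (c / M) * M := by
            exact mul_le_mul hd.le ((abs_sub _ _).trans hxy) (abs_nonneg _) (by positivity)
        _ = c := by field_simp
    have k1 := key (f n ξ) (f n ζ) (by linarith [hM1 n, hM2 n])
    have k2 := key (g n ξ) (g n ζ) (by linarith [hM3 n, hM4 n])
    constructor
    · linarith
    · linarith
  have hmem : w0 • ξ + (1 - w0) • ζ ∈ A ∪ B :=
    hAB (Or.inl hξ) (Or.inr hζ) hw0.1 (by linarith [hw0.2]) (by ring)
  rcases hmem with hmem | hmem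
  · obtain ⟨n, h3, h4⟩ := (hfreq2.and_eventually (hG (hA _ hmem))).exists
    linarith [h3.1]
  · obtain ⟨n, h3, h4⟩ := (hfreq2.and_eventually (hG (hB _ hmem))).exists
    linarith [h3.2]

theorem main_comb {A B : Set V} (hAB : Convex ℝ (A ∪ B)) (f g : ℕ → V → ℝ)
    (hf : ∀ n (a b : ℝ) (ξ ζ : V), a + b = 1 → f n (a • ξ + b • ζ) = a * f n ξ + b * f n ζ)
    (hg : ∀ n (a b : ℝ) (ξ ζ : V), a + b = 1 → g n (a • ξ + b • ζ) = a * g n ξ + b * g n ζ)
    (bf : ∀ ξ, ∃ M, ∀ n, |f n ξ| ≤ M) (bg : ∀ ξ, ∃ M, ∀ n, |g n ξ| ≤ M)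
    (hA : ∀ ξ ∈ A, ∀ᶠ n in atTop, f n ξ ≤ 0) (hB : ∀ ξ ∈ B, ∀ᶠ n in atTop, g n ξ ≤ 0) :
    ∃ q ∈ Icc (0:ℝ) 1, ∃ F : Filter ℕ, F.NeBot ∧ F.IsCountablyGenerated ∧ F ≤ atTop ∧
      PP f g (A ∪ B) q F := by
  obtain ⟨F, h1, h2, h3, h4⟩ := stab' (ι := ℚ × Bool)
    (fun j G => PP f g (if j.2 then A else B) (j.1 : ℝ) G)
    (fun j F G h => PP_anti f g _ _ h)
  by_contra hcon
  have hno : ¬ (Icc (0 : ℝ) 1 ∩ ({q | PP f g A q F} ∩ {q | PP f g B q F})).Nonempty := by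
    rintro ⟨q, hq, hqA, hqB⟩
    refine hcon ⟨q, hq, F, h1, h2, h3, ?_⟩
    rintro ξ (hξ | hξ)
    · exact hqA ξ hξ
    · exact hqB ξ hξ
  have cA := PP_closed f g bf bg A F
  have cB := PP_closed f g bf bg B F
  have h1A : (1 : ℝ) ∈ {q | PP f g A q F} := by
    intro ξ hξ ε hε
    filter_upwards [h3 (hA ξ hξ)] with n hn
    linarith
  have h0B : (0 : ℝ) ∈ {q | PP f g B q F} := by
    intro ξ hξ ε hε
    filter_upwards [h3 (hB ξ hξ)] with n hn
    linarith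
  have hns : ¬ (Icc (0 : ℝ) 1 ⊆ {q | PP f g A q F} ∪ {q | PP f g B q F}) := by
    intro hsub
    exact hno (isPreconnected_closed_iff.1 isPreconnected_Icc _ _ cA cB hsub
      ⟨1, ⟨zero_le_one, le_rfl⟩, h1A⟩ ⟨0, ⟨le_rfl, zero_le_one⟩, h0B⟩)
  obtain ⟨l, hl, hlU⟩ := not_subset.1 hns
  have hopen : IsOpen ({q | PP f g A q F} ∪ {q | PP f g B q F})ᶜ := (cA.union cB).isOpen_compl
  have hl' : l ∈ closure (Ioo (0 : ℝ) 1) := by
    rw [closure_Ioo zero_ne_one]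
    exact hl
  obtain ⟨l', hl'U, hl'I⟩ := mem_closure_iff.1 hl' _ hopen hlU
  obtain ⟨q, hq⟩ := Rat.isDenseEmbedding_coe_real.dense.exists_mem_open
    (hopen.inter isOpen_Ioo) ⟨l', hl'U, hl'I⟩
  have hqA : ¬ PP f g A (q : ℝ) F := fun h => hq.1 (Or.inl h)
  have hqB : ∀ G ≤ F, G.NeBot → G.IsCountablyGenerated → ¬ PP f g B (q : ℝ) G := by
    rcases h4 (q, false) with h | h
    · exact absurd (by simpa using h) (fun h' : PP f g B (q : ℝ) F => hq.1 (Or.inr h'))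
    · intro G hG hb hc hP
      exact h G hG hb hc (by simpa using hP)
  obtain ⟨ξ, hξ, c, hc, hfr⟩ := neg_PP hqA
  let G : Filter ℕ := F ⊓ 𝓟 {n | c < (q : ℝ) * f n ξ + (1 - q) * g n ξ}
  have hGb : G.NeBot := frequently_mem_iff_neBot.1 hfr
  haveI := h2
  have hGc : G.IsCountablyGenerated := inferInstance
  obtain ⟨ζ, hζ, c', hc', hfr'⟩ := neg_PP (hqB G inf_le_left hGb hGc)
  let G' : Filter ℕ := G ⊓ 𝓟 {n | c' < (q : ℝ) * f n ζ + (1 - q) * g n ζ}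
  have hGb' : G'.NeBot := frequently_mem_iff_neBot.1 hfr'
  refine no_both hAB f g hf hg bf bg hA hB (q := q) hq.2.1.le hq.2.2.le hGb'
    (inf_le_left.trans (inf_le_left.trans h3)) hξ hζ (c := min c c') (lt_min hc hc') ?_ ?_
  · have : ∀ᶠ n in G, c < (q : ℝ) * f n ξ + (1 - q) * g n ξ := mem_inf_of_right (mem_principal_self _)
    filter_upwards [(inf_le_left : G' ≤ G) this] with n hn
    exact (min_le_left _ _).trans_lt hn
  · have : ∀ᶠ n in G', c' < (q : ℝ) * f n ζ + (1 - q) * g n ζ := mem_inf_of_right (mem_principal_self _)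
    filter_upwards [this] with n hn
    exact (min_le_right _ _).trans_lt hn

end comb

end Pool.Agent.X197.Ienv
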