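import Pool.Agent.X197.Ienv

set_option autoImplicit false

open Set Topology Filter

namespace Pool.Agent.X197.Ienv

universe u v

variable {𝕜 : Type u} [RCLike 𝕜] {X : Type v} [NormedAddCommGroup X] [NormedSpace 𝕜 X]

theorem ist : IsScalarTower ℝ 𝕜 (WeakDual 𝕜 X) :=
  inferInstanceAs (IsScalarTower ℝ 𝕜 (X →L[𝕜] 𝕜))

theorem lcs : LocallyConvexSpace ℝ (WeakDual 𝕜 X) :=
  have : IsScalarTower ℝ 𝕜 (WeakDual 𝕜 X) := ist
  (LinearMap.weakBilin_withSeminorms (topDualPairing 𝕜 X)).toLocallyConvexSpace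

theorem sep00 {M D : Set (WeakDual 𝕜 X)} (hM : Convex ℝ M) (hc : IsCompact M)
    (hDc : Convex ℝ D) (hD : IsClosed D) (hdisj : Disjoint M D) :
    ∃ (f : StrongDual ℝ (WeakDual 𝕜 X)) (u v : ℝ), (∀ ζ ∈ M, f ζ < u) ∧ u < v ∧ ∀ ζ ∈ D, v < f ζ := by
  have : LocallyConvexSpace ℝ (WeakDual 𝕜 X) := lcs
  exact geometric_hahn_banach_compact_closed hM hc hDc hD hdisj

theorem ext1 (f : StrongDual ℝ (WeakDual 𝕜 X)) :
    ∃ g : StrongDual 𝕜 (WeakDual 𝕜 X), ∀ ζ, f ζ = RCLike.re (g ζ) := by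
  have : IsScalarTower ℝ 𝕜 (WeakDual 𝕜 X) := ist
  exact ⟨StrongDual.extendRCLikeₗ (𝕜 := 𝕜) f, fun ζ => by
    simp [StrongDual.extendRCLikeₗ_apply]⟩

theorem ext2 (g : StrongDual 𝕜 (WeakDual 𝕜 X)) : ∃ x : X, ∀ ζ, g ζ = ζ x := by
  obtain ⟨x, hx⟩ := LinearMap.dualEmbedding_surjective (topDualPairing 𝕜 X) g
  exact ⟨x, fun ζ => (DFunLike.congr_fun hx ζ).symm⟩

theorem sep0 {M D : Set (WeakDual 𝕜 X)} (hM : Convex ℝ M) (hc : IsCompact M)
    (hDc : Convex ℝ D) (hD : IsClosed D) (hdisj : Disjoint M D) :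
    ∃ (x : X) (u v : ℝ), (∀ ζ ∈ M, RCLike.re (ζ x) < u) ∧ u < v ∧ ∀ ζ ∈ D, v < RCLike.re (ζ x) := by
  obtain ⟨f, u, v, h1, h2, h3⟩ := sep00 hM hc hDc hD hdisj
  obtain ⟨g, hg⟩ := ext1 f
  obtain ⟨x, hx⟩ := ext2 g
  refine ⟨x, u, v, fun ζ hζ => ?_, h2, fun ζ hζ => ?_⟩
  · rw [← hx, ← hg]
    exact h1 ζ hζ
  · rw [← hx, ← hg]
    exact h3 ζ hζ

theorem convex_ball (η : StrongDual 𝕜 X) (r : ℝ) :
    Convex ℝ (WeakDual.toStrongDual ⁻¹' Metric.closedBall η r : Set (WeakDual 𝕜 X)) := by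
  intro x hx y hy a b ha hb hab
  exact convex_closedBall η r hx hy ha hb hab

/-- Separation of a weak* compact convex set from a ball. -/
theorem exists_sep (M : Set (WeakDual 𝕜 X)) (hc : IsCompact M) (hM : Convex ℝ M)
    (η : StrongDual 𝕜 X) {δ : ℝ} (hδ : 0 < δ)
    (h : ∀ ζ ∈ M, δ ≤ dist η (WeakDual.toStrongDual ζ)) :
    ∃ x : X, ‖x‖ ≤ 1 ∧ ∀ ξ ∈ M, RCLike.re (WeakDual.toStrongDual ξ x) ≤ RCLike.re (η x) - δ / 2 := by
  rcases M.eq_empty_or_nonempty with rfl | ⟨m, hm⟩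
  · exact ⟨0, by simp, fun ξ hξ => absurd hξ (notMem_empty _)⟩
  have hdisj : Disjoint M (WeakDual.toStrongDual ⁻¹' Metric.closedBall η (δ / 2)) := by
    rw [Set.disjoint_left]
    intro ζ hζ hζD
    have h1 := h ζ hζ
    have h2 : dist (WeakDual.toStrongDual ζ) η ≤ δ / 2 := hζD
    rw [dist_comm] at h2
    linarith
  obtain ⟨x, u, v, hu, huv, hv⟩ := sep0 hM hc (convex_ball η (δ / 2))
    (WeakDual.isClosed_closedBall η (δ / 2)) hdisj
  have hx0 : x ≠ 0 := by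
    rintro rfl
    have h1 := hu m hm
    have h2 := hv (StrongDual.toWeakDual η) (by
      show η ∈ Metric.closedBall η (δ / 2)
      exact Metric.mem_closedBall_self (by positivity))
    rw [map_zero, map_zero] at h1 h2
    linarith
  have hnx : 0 < ‖x‖ := norm_pos_iff.2 hx0
  obtain ⟨g, hg1, hg2⟩ := exists_dual_vector 𝕜 x hnx.ne'
  refine ⟨((‖x‖⁻¹ : ℝ) : 𝕜) • x, ?_, fun ξ hξ => ?_⟩
  · rw [norm_smul]
    simp [hnx.ne']
  · have h1 := hu ξ hξ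
    have h2 := hv (StrongDual.toWeakDual (η - (δ / 2 : ℝ) • g)) (by
      show η - (δ / 2 : ℝ) • g ∈ Metric.closedBall η (δ / 2)
      rw [Metric.mem_closedBall, dist_eq_norm]
      simp [norm_smul, hg1, abs_of_pos hδ])
    have h3 : RCLike.re ((η - (δ / 2 : ℝ) • g) x) = RCLike.re (η x) - δ / 2 * ‖x‖ := by
      rw [re_sub]
      show _ - RCLike.re ((δ / 2 : ℝ) • g x) = _
      rw [RCLike.smul_re, hg2, RCLike.ofReal_re]
    have h4 : v < RCLike.re (η x) - δ / 2 * ‖x‖ := by rw [← h3]; exact h2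
    have h5 : ∀ ζ : StrongDual 𝕜 X, RCLike.re (ζ (((‖x‖⁻¹ : ℝ) : 𝕜) • x)) = ‖x‖⁻¹ * RCLike.re (ζ x) := by
      intro ζ
      rw [map_smul, smul_eq_mul, RCLike.re_ofReal_mul]
    rw [h5, h5]
    have h6 : RCLike.re (WeakDual.toStrongDual ξ x) ≤ RCLike.re (η x) - δ / 2 * ‖x‖ := by
      have : RCLike.re (WeakDual.toStrongDual ξ x) < u := h1
      linarith
    calc ‖x‖⁻¹ * RCLike.re (WeakDual.toStrongDual ξ x) ≤ ‖x‖⁻¹ * (RCLike.re (η x) - δ / 2 * ‖x‖) := by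
          gcongr
      _ = ‖x‖⁻¹ * RCLike.re (η x) - δ / 2 := by field_simp

theorem convex_cl0 {E : Type*} [TopologicalSpace E] [AddCommGroup E] [IsTopologicalAddGroup E]
    [Module ℝ E] [ContinuousSMul ℝ E] {S : Set E} (h : Convex ℝ S) : Convex ℝ (closure S) :=
  h.closure

theorem convex_cl {S : Set (WeakDual 𝕜 X)} (h : Convex ℝ S) : Convex ℝ (closure S) := by
  have h2 : @Convex ℝ (WeakDual 𝕜 X) _ _ _ _ (closure S) :=
    convex_cl0 (E := WeakDual 𝕜 X) (S := S) h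
  exact h2

theorem convex_img {S : Set (StrongDual 𝕜 X)} (h : Convex ℝ S) :
    Convex ℝ (StrongDual.toWeakDual '' S : Set (WeakDual 𝕜 X)) := by
  rintro _ ⟨x, hx, rfl⟩ _ ⟨y, hy, rfl⟩ a b ha hb hab
  exact ⟨a • x + b • y, h hx hy ha hb hab, rfl⟩

theorem ich0 {E : Type*} [TopologicalSpace E] [AddCommGroup E] [IsTopologicalAddGroup E]
    [Module ℝ E] [ContinuousSMul ℝ E] (C : ℕ → Set E) (hc : ∀ n, IsCompact (C n))
    (hconv : ∀ n, Convex ℝ (C n)) (n : ℕ) :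
    IsCompact (convexHull ℝ (⋃ j, ⋃ _ : j < n, C j)) := isCompact_hull_union C hc hconv n

theorem ich1 (C : ℕ → Set (WeakDual 𝕜 X)) (hc : ∀ n, IsCompact (C n))
    (hconv : ∀ n, Convex ℝ (C n)) (n : ℕ) :
    IsCompact (convexHull ℝ (⋃ j, ⋃ _ : j < n, C j)) := by
  have h2 := ich0 (E := WeakDual 𝕜 X) C hc (by exact hconv) n
  exact h2

theorem chm {S T : Set (WeakDual 𝕜 X)} (h : S ⊆ T) (hT : Convex ℝ T) : convexHull ℝ S ⊆ T := by
  have h2 := convexHull_min (𝕜 := ℝ) (E := WeakDual 𝕜 X) h (by exact hT)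
  exact h2

theorem wit_of_not_mem {A : Set (StrongDual 𝕜 X)} {η : StrongDual 𝕜 X} (h : η ∉ Ienv A) :
    Wit A η := by
  unfold Ienv at h
  simp only [mem_iInter, not_forall] at h
  obtain ⟨C, hC, hη⟩ := h
  have hδ : ∃ δ > 0, ∀ ζ ∈ convexHull ℝ (⋃ n, wHull (C n)), δ ≤ dist η ζ := by
    by_contra hcon
    push Not at hcon
    exact hη (Metric.mem_closure_iff.2 hcon)
  obtain ⟨δ, hδ, hdist⟩ := hδ
  let P : ℕ → Set (StrongDual 𝕜 X) := fun j => C j.unpair.1 ∩ Metric.closedBall 0 (j.unpair.2 : ℝ)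
  let Q : ℕ → Set (WeakDual 𝕜 X) := fun j => closure (StrongDual.toWeakDual '' convexHull ℝ (P j))
  have hQc : ∀ j, IsCompact (Q j) := by
    intro j
    refine (WeakDual.isCompact_closedBall (𝕜 := 𝕜) (0 : StrongDual 𝕜 X) (j.unpair.2 : ℝ)).of_isClosed_subset
      isClosed_closure (closure_minimal ?_ (WeakDual.isClosed_closedBall _ _))
    rintro _ ⟨ζ, hζ, rfl⟩
    show ζ ∈ Metric.closedBall (0 : StrongDual 𝕜 X) (j.unpair.2 : ℝ)
    exact convexHull_min inter_subset_right (convex_closedBall _ _) hζ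
  have hQconv : ∀ j, Convex ℝ (Q j) := by
    intro j
    exact convex_cl (convex_img (convex_convexHull ℝ _))
  have hQsub : ∀ j, ∀ ζ ∈ Q j, WeakDual.toStrongDual ζ ∈ wHull (C j.unpair.1) := by
    intro j ζ hζ
    have h1 : convexHull ℝ (P j) ⊆ convexHull ℝ (C j.unpair.1) := convexHull_mono inter_subset_left
    have h2 : ζ ∈ closure (StrongDual.toWeakDual '' convexHull ℝ (C j.unpair.1)) :=
      closure_mono (image_mono h1) hζ
    exact h2
  have hx : ∀ n, ∃ x : X, ‖x‖ ≤ 1 ∧ ∀ ξ ∈ convexHull ℝ (⋃ j, ⋃ _ : j < n, Q j),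
      RCLike.re (WeakDual.toStrongDual ξ x) ≤ RCLike.re (η x) - δ / 2 := by
    intro n
    refine exists_sep _ (ich1 Q hQc hQconv n) (convex_convexHull ℝ _) η hδ ?_
    intro ζ hζ
    refine hdist _ ?_
    have hconv : Convex ℝ {ζ : WeakDual 𝕜 X | WeakDual.toStrongDual ζ ∈
        convexHull ℝ (⋃ n, wHull (C n))} := by
      intro x hx y hy a b ha hb hab
      exact convex_convexHull ℝ (⋃ n, wHull (C n)) hx hy ha hb hab
    refine chm ?_ hconv hζ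
    intro ξ hξ
    simp only [mem_iUnion] at hξ
    obtain ⟨j, _, hj⟩ := hξ
    show WeakDual.toStrongDual ξ ∈ convexHull ℝ (⋃ n, wHull (C n))
    exact subset_convexHull ℝ _ (mem_iUnion.2 ⟨_, hQsub j ξ hj⟩)
  choose x hx1 hx2 using hx
  have hx3 : ∀ n j, j < n → ∀ ξ ∈ P j, RCLike.re (ξ (x n)) ≤ RCLike.re (η (x n)) - δ / 2 := by
    intro n j hj ξ hξ
    have h1 : StrongDual.toWeakDual ξ ∈ Q j := subset_closure ⟨ξ, subset_convexHull ℝ _ hξ, rfl⟩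
    have h2 : StrongDual.toWeakDual ξ ∈ ⋃ j, ⋃ _ : j < n, Q j := mem_iUnion₂.2 ⟨j, hj, h1⟩
    exact hx2 n (StrongDual.toWeakDual ξ) (subset_convexHull ℝ _ h2)
  have hbd : ∀ n, RCLike.re (η (x n)) ∈ Icc (-‖η‖) ‖η‖ := fun n => abs_le.1 (abs_re_le η (hx1 n))
  obtain ⟨r, _, φ, hφ, hr⟩ := isCompact_Icc.tendsto_subseq hbd
  obtain ⟨N, hN⟩ := Metric.tendsto_atTop.1 hr (δ / 8) (by positivity)
  refine ⟨fun n => x (φ (n + N)), r - δ / 8, r - 3 * δ / 8, fun n => hx1 _, by linarith,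
    fun n => ?_, fun ξ hξ => ?_⟩
  · have h1 := hN (n + N) (Nat.le_add_left _ _)
    rw [Real.dist_eq] at h1
    have h2 := (abs_lt.1 h1).1
    simp only [Function.comp] at h2
    linarith
  · rw [← hC] at hξ
    obtain ⟨k, hk⟩ := mem_iUnion.1 hξ
    obtain ⟨m, hm⟩ := exists_nat_ge ‖ξ‖
    have hP : ξ ∈ P (Nat.pair k m) := by
      simp only [P, Nat.unpair_pair]
      exact ⟨hk, by simpa using hm⟩
    filter_upwards [eventually_gt_atTop (Nat.pair k m)] with n hn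
    have h0 : Nat.pair k m < φ (n + N) :=
      hn.trans_le ((Nat.le_add_right n N).trans (hφ.id_le _))
    have h3 := hx3 (φ (n + N)) _ h0 ξ hP
    have h1 := hN (n + N) (Nat.le_add_left _ _)
    rw [Real.dist_eq] at h1
    have h2 := (abs_lt.1 h1).2
    simp only [Function.comp] at h2
    linarith

theorem mem_Ienv_iff {A : Set (StrongDual 𝕜 X)} {η : StrongDual 𝕜 X} : η ∈ Ienv A ↔ ¬ Wit A η :=
  ⟨fun h hw => not_mem_of_wit hw h, fun h => by_contra fun hn => h (wit_of_not_mem hn)⟩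

theorem Ienv_mono {A B : Set (StrongDual 𝕜 X)} (h : A ⊆ B) : Ienv A ⊆ Ienv B := by
  intro η hη
  rw [mem_Ienv_iff] at hη ⊢
  rintro ⟨x, s, t, h1, h2, h3, h4⟩
  exact hη ⟨x, s, t, h1, h2, h3, fun ξ hξ => h4 ξ (h hξ)⟩

theorem wit_union {A B : Set (StrongDual 𝕜 X)} (hAB : Convex ℝ (A ∪ B)) {η : StrongDual 𝕜 X}
    (hA : Wit A η) (hB : Wit B η) : Wit (A ∪ B) η := by
  obtain ⟨x, s, t, hx, hst, hη, hA⟩ := hA
  obtain ⟨y, s', t', hy, hst', hη', hB⟩ := hB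
  have bd : ∀ (z : ℕ → X) (u : ℝ), (∀ n, ‖z n‖ ≤ 1) → ∀ ξ : StrongDual 𝕜 X,
      ∃ M, ∀ n, |RCLike.re (ξ (z n)) - u| ≤ M := by
    intro z u hz ξ
    exact ⟨‖ξ‖ + |u|, fun n => (abs_sub _ _).trans (add_le_add (abs_re_le ξ (hz n)) le_rfl)⟩
  have aff : ∀ (z : X) (u : ℝ) (a b : ℝ) (ξ ζ : StrongDual 𝕜 X), a + b = 1 →
      RCLike.re ((a • ξ + b • ζ) z) - u = a * (RCLike.re (ξ z) - u) + b * (RCLike.re (ζ z) - u) := by
    intro z u a b ξ ζ hab
    rw [re_comb]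
    have : u = a * u + b * u := by rw [← add_mul, hab, one_mul]
    linarith
  obtain ⟨q, hq, F, hF1, hF2, hF3, hP⟩ := main_comb hAB
    (fun n ξ => RCLike.re (ξ (x n)) - t) (fun n ξ => RCLike.re (ξ (y n)) - t')
    (fun n a b ξ ζ h => aff (x n) t a b ξ ζ h) (fun n a b ξ ζ h => aff (y n) t' a b ξ ζ h)
    (bd x t hx) (bd y t' hy)
    (fun ξ hξ => (hA ξ hξ).mono fun n hn => by linarith)
    (fun ξ hξ => (hB ξ hξ).mono fun n hn => by linarith)
  obtain ⟨φ, hφ⟩ := exists_seq_tendsto F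
  have hq0 := hq.1
  have hq1 : 0 ≤ 1 - q := by linarith [hq.2]
  have hgap : q * t + (1 - q) * t' < q * s + (1 - q) * s' := by
    rcases hq0.eq_or_lt with h | h
    · rw [← h]
      linarith
    · have h1 : q * t < q * s := mul_lt_mul_of_pos_left hst h
      have h2 : (1 - q) * t' ≤ (1 - q) * s' := mul_le_mul_of_nonneg_left hst'.le hq1
      linarith
  set S := q * s + (1 - q) * s' with hS
  set T := q * t + (1 - q) * t' with hT
  have hre : ∀ (ξ : StrongDual 𝕜 X) (n : ℕ), RCLike.re (ξ ((q : 𝕜) • x n + ((1 - q : ℝ) : 𝕜) • y n))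
      = q * RCLike.re (ξ (x n)) + (1 - q) * RCLike.re (ξ (y n)) := by
    intro ξ n
    rw [map_add, map_smul, map_smul, smul_eq_mul, smul_eq_mul, map_add, RCLike.re_ofReal_mul,
      RCLike.re_ofReal_mul]
  refine ⟨fun n => (q : 𝕜) • x (φ n) + ((1 - q : ℝ) : 𝕜) • y (φ n), S, (S + T) / 2, fun n => ?_,
    by linarith, fun n => ?_, fun ξ hξ => ?_⟩
  · calc ‖(q : 𝕜) • x (φ n) + ((1 - q : ℝ) : 𝕜) • y (φ n)‖
        ≤ ‖(q : 𝕜) • x (φ n)‖ + ‖((1 - q : ℝ) : 𝕜) • y (φ n)‖ := norm_add_le _ _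
      _ = q * ‖x (φ n)‖ + (1 - q) * ‖y (φ n)‖ := by
          rw [norm_smul, norm_smul, RCLike.norm_ofReal, RCLike.norm_ofReal, abs_of_nonneg hq0,
            abs_of_nonneg hq1]
      _ ≤ q * 1 + (1 - q) * 1 := by
          gcongr
          · exact hx _
          · exact hy _
      _ = 1 := by ring
  · rw [hre]
    have h1 := mul_le_mul_of_nonneg_left (hη (φ n)) hq0
    have h2 := mul_le_mul_of_nonneg_left (hη' (φ n)) hq1
    linarith
  · have h1 := hφ.eventually (hP ξ hξ ((S - T) / 2) (by linarith))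
    filter_upwards [h1] with n hn
    rw [hre]
    have : q * (RCLike.re (ξ (x (φ n))) - t) + (1 - q) * (RCLike.re (ξ (y (φ n))) - t')
      = q * RCLike.re (ξ (x (φ n))) + (1 - q) * RCLike.re (ξ (y (φ n))) - T := by
      rw [hT]
      ring
    rw [this] at hn
    linarith

theorem Ienv_union {A B : Set (StrongDual 𝕜 X)} (hAB : Convex ℝ (A ∪ B)) :
    Ienv (A ∪ B) = Ienv A ∪ Ienv B := by
  apply Subset.antisymm
  · intro η hη
    by_contra hcon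
    rw [mem_union, not_or] at hcon
    exact mem_Ienv_iff.1 hη (wit_union hAB (wit_of_not_mem hcon.1) (wit_of_not_mem hcon.2))
  · exact union_subset (Ienv_mono subset_union_left) (Ienv_mono subset_union_right)

end Pool.Agent.X197.Ienv
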