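import Mathlib

/-!
# No discrete weak Mycielski sets in Euclidean spaces
-/

open Set Metric

namespace Pool.Agent.X197.Mycielski

/-- `A` and `B` are congruent. -/
def Congruent {E : Type*} [MetricSpace E] (A B : Set E) : Prop := ∃ g : E ≃ᵢ E, g '' A = B

/-- weak Mycielski sets: two different points can be removed up to congruence -/
def WeakMycielski {E : Type*} [MetricSpace E] (X : Set E) : Prop :=
  ∃ p ∈ X, ∃ q ∈ X, p ≠ q ∧ Congruent (X \ {p}) X ∧ Congruent (X \ {q}) X

/-- `x` is an isolated point of `X`: no other point of `X` is within distance `ε` of `x` -/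
def Isolated {E : Type*} [MetricSpace E] (X : Set E) (x : E) : Prop :=
  ∃ ε > 0, ∀ y ∈ X, dist x y ≤ ε → y = x

section core

variable {n : ℕ}

/-- the ambient space -/
abbrev E (n : ℕ) : Type := EuclideanSpace ℝ (Fin n)

/-- the action of the words in two isometries -/
noncomputable def act (s : Bool → E n ≃ᵢ E n) : List Bool → E n ≃ᵢ E n
  | [] => IsometryEquiv.refl _
  | b :: l => (act s l).trans (s b)

theorem act_nil (s : Bool → E n ≃ᵢ E n) (x : E n) : act s [] x = x := rfl

theorem act_cons (s : Bool → E n ≃ᵢ E n) (b : Bool) (l : List Bool) (x : E n) :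
    act s (b :: l) x = s b (act s l x) := rfl

theorem act_append (s : Bool → E n ≃ᵢ E n) (l l' : List Bool) (x : E n) :
    act s (l ++ l') x = act s l (act s l' x) := by
  induction l with
  | nil => rfl
  | cons b l ih => rw [List.cons_append, act_cons, act_cons, ih]

/-- the coordinates, scaled and rounded down -/
noncomputable def fl (c : ℝ) (x : E n) : Fin n → ℤ := fun i => ⌊c * x i⌋

theorem dist_lt_of_fl {c : ℝ} (hc : 0 < c) {x y : E n} (h : fl c x = fl c y) :
    dist x y < (n + 1) / c := by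
  rw [EuclideanSpace.dist_eq, Real.sqrt_lt' (by positivity)]
  have h1 : ∀ i, dist (x i) (y i) ^ 2 ≤ (1 / c) ^ 2 := by
    intro i
    have h2 : ⌊c * x i⌋ = ⌊c * y i⌋ := congrFun h i
    have h3 := Int.abs_sub_lt_one_of_floor_eq_floor h2
    rw [← mul_sub, abs_mul, abs_of_pos hc] at h3
    rw [Real.dist_eq]
    have h4 : |x i - y i| ≤ 1 / c := by
      rw [le_div_iff₀ hc, mul_comm]
      exact h3.le
    exact pow_le_pow_left₀ (abs_nonneg _) h4 2
  calc ∑ i, dist (x i) (y i) ^ 2 ≤ ∑ _i : Fin n, (1 / c) ^ 2 := Finset.sum_le_sum fun i _ => h1 i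
    _ = n * (1 / c) ^ 2 := by simp
    _ < ((n + 1) / c) ^ 2 := by
      rw [div_pow, div_pow, one_pow, mul_one_div]
      have hc2 : 0 < c ^ 2 := by positivity
      rw [div_lt_div_iff_of_pos_right hc2]
      have : (0 : ℝ) ≤ n := Nat.cast_nonneg n
      nlinarith

theorem fl_mem {c : ℝ} (hc : 0 < c) {x : E n} {K : ℤ} (h : c * ‖x‖ + 1 ≤ K) (i : Fin n) :
    fl c x i ∈ Finset.Icc (-K) K := by
  have h1 : |x i| ≤ ‖x‖ := by
    have := PiLp.norm_apply_le x i
    rwa [Real.norm_eq_abs] at this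
  have h2 : |c * x i| ≤ c * ‖x‖ := by
    rw [abs_mul, abs_of_pos hc]
    exact mul_le_mul_of_nonneg_left h1 hc.le
  obtain ⟨h3, h4⟩ := abs_le.1 h2
  rw [Finset.mem_Icc]
  constructor
  · have : ((-K : ℤ) : ℝ) ≤ c * x i := by push_cast; linarith
    exact Int.le_floor.2 this
  · have : ((fl c x i : ℤ) : ℝ) ≤ K := (Int.floor_le _).trans (by linarith)
    exact_mod_cast this

variable (s : Bool → E n ≃ᵢ E n) (r : Bool → E n) (S : Set (E n)) (ε : ℝ)

/-- the standing assumptions -/
structure Hyp : Prop where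
  pos : 0 < ε
  sep : ∀ x ∈ S, ∀ y ∈ S, x ≠ y → ε ≤ dist x y
  img : ∀ b, s b '' S = S \ {r b}
  mem : ∀ b, r b ∈ S
  ne : r true ≠ r false

variable {s r S ε}

theorem Hyp.inj (H : Hyp s r S ε) {x y : E n} (hx : x ∈ S) (hy : y ∈ S)
    (h : fl ((n + 1) / ε) x = fl ((n + 1) / ε) y) : x = y := by
  by_contra hne
  have hε := H.pos
  have h1 := dist_lt_of_fl (c := (n + 1) / ε) (by positivity) h
  have h2 := H.sep x hx y hy hne
  have h3 : ((n : ℝ) + 1) / ((n + 1) / ε) = ε := by field_simp
  rw [h3] at h1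
  linarith

theorem Hyp.act_mem (H : Hyp s r S ε) (l : List Bool) {x : E n} (hx : x ∈ S) : act s l x ∈ S := by
  induction l with
  | nil => exact hx
  | cons b l ih =>
    have : act s (b :: l) x ∈ s b '' S := ⟨_, ih, rfl⟩
    rw [H.img b] at this
    exact this.1

theorem Hyp.finite (H : Hyp s r S ε) (R : ℝ) : (S ∩ {x | ‖x‖ ≤ R}).Finite := by
  have hε := H.pos
  set c : ℝ := (n + 1) / ε with hc
  have hcpos : 0 < c := by positivity
  refine Set.Finite.of_finite_image (f := fl c) ?_ ?_
  · refine (Set.finite_Icc (fun _ : Fin n => -⌈c * R + 1⌉) (fun _ => ⌈c * R + 1⌉)).subset ?_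
    rintro _ ⟨x, ⟨-, hx⟩, rfl⟩
    have h1 : c * ‖x‖ + 1 ≤ (⌈c * R + 1⌉ : ℤ) := by
      refine le_trans ?_ (Int.le_ceil _)
      have : c * ‖x‖ ≤ c * R := mul_le_mul_of_nonneg_left hx hcpos.le
      linarith
    exact ⟨fun i => (Finset.mem_Icc.1 (fl_mem hcpos h1 i)).1,
      fun i => (Finset.mem_Icc.1 (fl_mem hcpos h1 i)).2⟩
  · intro x hx y hy h
    exact H.inj hx.1 hy.1 h

/-- nonempty words have no fixed points -/
theorem Hyp.no_fix (H : Hyp s r S ε) {l : List Bool} (hl : l ≠ []) (z : E n)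
    (hz : act s l z = z) : False := by
  obtain ⟨b, l', rfl⟩ := List.exists_cons_of_ne_nil hl
  set f : E n → E n := fun x => act s (b :: l') x with hf
  have hfS : ∀ x ∈ S, f x ∈ S := fun x hx => H.act_mem _ hx
  have hrb : r b ∉ s b '' S := by rw [H.img b]; exact fun h => h.2 rfl
  have hit : ∀ k : ℕ, f^[k] (r b) ∈ S ∧ dist (f^[k] (r b)) z = dist (r b) z := by
    intro k
    induction k with
    | zero => exact ⟨H.mem b, rfl⟩
    | succ k ih =>
      rw [Function.iterate_succ_apply']
      refine ⟨hfS _ ih.1, ?_⟩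
      rw [← ih.2]
      conv_lhs => rw [← hz]
      exact (act s (b :: l')).dist_eq _ _
  have hfin := H.finite (dist (r b) z + ‖z‖)
  have hninj : ¬ Function.Injective (fun k : ℕ => f^[k] (r b)) := by
    intro hinj
    have hall : ∀ k : ℕ, f^[k] (r b) ∈ S ∩ {x | ‖x‖ ≤ dist (r b) z + ‖z‖} := by
      intro k
      refine ⟨(hit k).1, ?_⟩
      show ‖f^[k] (r b)‖ ≤ dist (r b) z + ‖z‖
      rw [← (hit k).2, dist_eq_norm]
      calc ‖f^[k] (r b)‖ = ‖(f^[k] (r b) - z) + z‖ := by rw [sub_add_cancel]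
        _ ≤ _ := norm_add_le _ _
    exact Set.infinite_of_injective_forall_mem hinj hall hfin
  have key : ∀ i j : ℕ, i < j → f^[i] (r b) = f^[j] (r b) → False := by
    intro i j hij h
    obtain ⟨m, rfl⟩ : ∃ m, j = i + (m + 1) := ⟨j - i - 1, by omega⟩
    rw [Function.iterate_add_apply] at h
    have hfi : Function.Injective f^[i] := (act s (b :: l')).injective.iterate i
    have h2 := hfi h
    rw [Function.iterate_succ_apply'] at h2
    apply hrb
    rw [h2]
    exact ⟨act s l' (f^[m] (r b)), H.act_mem _ (hit m).1, rfl⟩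
  apply hninj
  intro i j h
  rcases lt_trichotomy i j with hij | hij | hij
  · exact (key i j hij h).elim
  · exact hij
  · exact (key j i hij h.symm).elim

theorem Hyp.exists_word (H : Hyp s r S ε) (k : List Bool) : ∀ y ∈ S, y ∉ act s k '' S →
    ∃ (a : List Bool) (c : Bool), y = act s a (r c) := by
  induction k with
  | nil => exact fun y hy h => absurd ⟨y, hy, rfl⟩ h
  | cons b k ih =>
    intro y hy h
    by_cases hyb : y = r b
    · exact ⟨[], b, hyb⟩
    · have h1 : y ∈ s b '' S := by rw [H.img b]; exact ⟨hy, hyb⟩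
      obtain ⟨y', hy', rfl⟩ := h1
      obtain ⟨a, c, hac⟩ := ih y' hy' (by
        rintro ⟨x, hx, rfl⟩
        exact h ⟨x, hx, rfl⟩)
      exact ⟨b :: a, c, by rw [act_cons, ← hac]⟩

theorem Hyp.r_ne (H : Hyp s r S ε) {b b' : Bool} (h : b ≠ b') : r b ≠ r b' := by
  have := H.ne
  cases b <;> cases b' <;> simp_all [Ne.symm]

theorem Hyp.half (H : Hyp s r S ε) {b b' : Bool} (hb : b ≠ b') (k k' : List Bool)
    (h : ∀ x ∈ S, act s (b :: k) x = act s (b' :: k') x) :
    ∃ (a : List Bool) (c : Bool), a ≠ [] ∧ r b = act s a (r c) := by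
  have h1 : r b ∉ act s (b' :: k') '' S := by
    rintro ⟨x, hx, hxe⟩
    rw [← h x hx] at hxe
    have : r b ∈ s b '' S := ⟨act s k x, H.act_mem _ hx, hxe⟩
    rw [H.img b] at this
    exact this.2 rfl
  have h2 : r b ∈ s b' '' S := by
    rw [H.img b']
    exact ⟨H.mem b, H.r_ne hb⟩
  obtain ⟨y', hy', hye⟩ := h2
  obtain ⟨a, c, hac⟩ := H.exists_word k' y' hy' (by
    rintro ⟨x, hx, rfl⟩
    exact h1 ⟨x, hx, hye⟩)
  exact ⟨b' :: a, c, by simp, by rw [act_cons, ← hac, hye]⟩

theorem bool_third : ∀ b b' c : Bool, b ≠ b' → c ≠ b → c = b' := by decide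

theorem Hyp.no_rel (H : Hyp s r S ε) : ∀ l l' : List Bool, l.length = l'.length → l ≠ l' →
    (∀ x ∈ S, act s l x = act s l' x) → False := by
  intro l
  induction l with
  | nil =>
    intro l' hlen hne _
    exact hne (List.eq_nil_of_length_eq_zero hlen.symm).symm
  | cons b k ih =>
    intro l' hlen hne h
    cases l' with
    | nil => simp at hlen
    | cons b' k' =>
      by_cases hb : b = b'
      · subst hb
        refine ih k' (by simpa using hlen) (fun hk => hne (by rw [hk])) ?_
        intro x hx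
        exact (s b).injective (h x hx)
      · obtain ⟨a, c, ha, hac⟩ := H.half hb k k' h
        obtain ⟨a', c', ha', hac'⟩ := H.half (Ne.symm hb) k' k (fun x hx => (h x hx).symm)
        by_cases hc : c = b
        · subst hc
          exact H.no_fix ha _ hac.symm
        · by_cases hc' : c' = b'
          · subst hc'
            exact H.no_fix ha' _ hac'.symm
          · have e1 : c = b' := bool_third b b' c hb hc
            have e2 : c' = b := bool_third b' b c' (Ne.symm hb) hc'
            rw [e1] at hac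
            rw [e2] at hac'
            refine H.no_fix (l := a ++ a') (by simp [ha]) (r b) ?_
            rw [act_append, ← hac', ← hac]

theorem Hyp.exists_rel (H : Hyp s r S ε) : ∃ l l' : List Bool, l.length = l'.length ∧ l ≠ l' ∧
    ∀ x ∈ S, act s l x = act s l' x := by
  have hε := H.pos
  obtain ⟨F, hFS, hspan, hind⟩ := exists_affineIndependent ℝ (E n) S
  have hFfin : F.Finite := finite_set_of_fin_dim_affineIndependent ℝ hind
  have : Fintype F := hFfin.fintype
  set c : ℝ := (n + 1) / ε with hc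
  have hcpos : 0 < c := by positivity
  -- bounds
  obtain ⟨A, hA⟩ : ∃ A : ℕ, ∀ x ∈ F, c * ‖x‖ + 1 ≤ A := by
    obtain ⟨A, hA⟩ := (hFfin.image (fun x => c * ‖x‖ + 1)).bddAbove
    obtain ⟨m, hm⟩ := exists_nat_ge A
    exact ⟨m, fun x hx => (hA ⟨x, hx, rfl⟩).trans hm⟩
  obtain ⟨B, hB⟩ : ∃ B : ℕ, ∀ b, c * ‖s b 0‖ ≤ B := by
    obtain ⟨m, hm⟩ := exists_nat_ge (max (c * ‖s true 0‖) (c * ‖s false 0‖))
    refine ⟨m, fun b => ?_⟩
    cases b
    · exact (le_max_right _ _).trans hm
    · exact (le_max_left _ _).trans hm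
  have hbound : ∀ (l : List Bool) (x : E n), c * ‖act s l x‖ ≤ c * ‖x‖ + B * l.length := by
    intro l x
    induction l with
    | nil => simp [act_nil]
    | cons b l ih =>
      rw [act_cons]
      have h1 : ‖s b (act s l x)‖ ≤ ‖act s l x‖ + ‖s b 0‖ := by
        have h2 : dist (s b (act s l x)) (s b 0) = dist (act s l x) 0 := (s b).dist_eq _ _
        rw [dist_zero_right, dist_eq_norm] at h2
        calc ‖s b (act s l x)‖ = ‖(s b (act s l x) - s b 0) + s b 0‖ := by rw [sub_add_cancel]
          _ ≤ _ := norm_add_le _ _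
          _ = _ := by rw [h2]
      have h3 := mul_le_mul_of_nonneg_left h1 hcpos.le
      have h4 := hB b
      rw [List.length_cons]
      push_cast
      linarith
  -- the counting inequality
  obtain ⟨N, hN⟩ : ∃ N : ℕ, (2 * (A + B * N) + 1) ^ (n * Fintype.card F) < 2 ^ N := by
    set m := n * Fintype.card F with hm
    have h1 : Filter.Tendsto (fun N : ℕ => (N : ℝ) ^ m / (2 : ℝ) ^ N) Filter.atTop (nhds 0) :=
      tendsto_pow_const_div_const_pow_of_one_lt m (by norm_num)
    set D : ℕ := 2 * A + 2 * B + 1 with hD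
    have h2 : (0 : ℝ) < 1 / (D : ℝ) ^ m := by positivity
    obtain ⟨N, hN, hN1⟩ := ((h1.eventually_lt_const h2).and (Filter.eventually_ge_atTop 1)).exists
    refine ⟨N, ?_⟩
    have h3 : 2 * (A + B * N) + 1 ≤ D * N := by
      rw [hD]
      nlinarith
    have h4 : ((D * N : ℕ) : ℝ) ^ m < (2 : ℝ) ^ N := by
      push_cast
      rw [mul_pow]
      have hD0 : (0 : ℝ) < (D : ℝ) ^ m := by positivity
      have h20 : (0 : ℝ) < (2 : ℝ) ^ N := by positivity
      rw [div_lt_div_iff₀ h20 hD0] at hN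
      linarith
    have h5 : (D * N) ^ m < 2 ^ N := by exact_mod_cast h4
    exact (Nat.pow_le_pow_left h3 m).trans_lt h5
  set K : ℤ := ((A + B * N : ℕ) : ℤ) with hK
  have hcard : (Fintype.piFinset (fun _ : F => Fintype.piFinset
      (fun _ : Fin n => Finset.Icc (-K) K))).card < (Finset.univ : Finset (Fin N → Bool)).card := by
    have e1 : (Finset.Icc (-K) K).card = 2 * (A + B * N) + 1 := by
      rw [Int.card_Icc]
      omega
    simp only [Fintype.card_piFinset, Finset.prod_const, Finset.card_univ, Fintype.card_fin, e1,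
      Fintype.card_fun, Fintype.card_bool, ← pow_mul]
    exact hN
  obtain ⟨v, -, v', -, hvv, he⟩ := Finset.exists_ne_map_eq_of_card_lt_of_maps_to hcard
    (f := fun (v : Fin N → Bool) (x : F) => fl c (act s (List.ofFn v) x.1)) (by
      intro v _
      rw [Finset.mem_coe, Fintype.mem_piFinset]
      intro x
      rw [Fintype.mem_piFinset]
      intro i
      refine fl_mem hcpos ?_ i
      have h1 := hbound (List.ofFn v) x.1
      have h2 := hA x.1 x.2
      rw [List.length_ofFn] at h1
      rw [hK]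
      push_cast
      linarith)
  refine ⟨List.ofFn v, List.ofFn v', by simp, fun h => hvv (List.ofFn_injective h), ?_⟩
  have hF : Set.EqOn (act s (List.ofFn v)).toRealAffineIsometryEquiv.toAffineEquiv.toAffineMap
      (act s (List.ofFn v')).toRealAffineIsometryEquiv.toAffineEquiv.toAffineMap F := by
    intro x hx
    show act s (List.ofFn v) x = act s (List.ofFn v') x
    exact H.inj (H.act_mem _ (hFS hx)) (H.act_mem _ (hFS hx)) (congrFun he ⟨x, hx⟩)
  have hE := AffineMap.eqOn_affineSpan hF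
  rw [hspan] at hE
  intro x hx
  exact hE (subset_affineSpan ℝ S hx)

theorem Hyp.false (H : Hyp s r S ε) : False := by
  obtain ⟨l, l', h1, h2, h3⟩ := H.exists_rel
  exact H.no_rel l l' h1 h2 h3

end core

/-- If two different points `p`, `q` can be removed from `X` up to congruence then one of them is not
isolated in `X`. -/
theorem not_isolated {n : ℕ} {X : Set (EuclideanSpace ℝ (Fin n))} {p q : EuclideanSpace ℝ (Fin n)}
    (hp : p ∈ X) (hq : q ∈ X) (hpq : p ≠ q) (h1 : Congruent (X \ {p}) X)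
    (h2 : Congruent (X \ {q}) X) : ¬ (Isolated X p ∧ Isolated X q) := by
  rintro ⟨⟨ε₁, hε₁, hi₁⟩, ⟨ε₂, hε₂, hi₂⟩⟩
  obtain ⟨g, hg⟩ := h1
  obtain ⟨h, hh⟩ := h2
  set ε := min ε₁ ε₂ with hε
  have hε0 : 0 < ε := lt_min hε₁ hε₂
  set s : Bool → E n ≃ᵢ E n := fun b => cond b g.symm h.symm with hs
  set r : Bool → E n := fun b => cond b p q with hr
  have hrX : ∀ b, r b ∈ X := by intro b; cases b <;> assumption
  have hsX : ∀ b, s b '' X = X \ {r b} := by
    intro b
    cases b
    · show h.symm '' X = X \ {q}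
      calc h.symm '' X = h.symm '' (h '' (X \ {q})) := by rw [hh]
        _ = X \ {q} := by rw [Set.image_image]; simp
    · show g.symm '' X = X \ {p}
      calc g.symm '' X = g.symm '' (g '' (X \ {p})) := by rw [hg]
        _ = X \ {p} := by rw [Set.image_image]; simp
  have hiso : ∀ b, ∀ y ∈ X, y ≠ r b → ε ≤ dist (r b) y := by
    intro b y hy hne
    by_contra hlt
    rw [not_le] at hlt
    cases b
    · exact hne (hi₂ y hy (hlt.le.trans (min_le_right _ _)))
    · exact hne (hi₁ y hy (hlt.le.trans (min_le_left _ _)))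
  set S : Set (E n) := {x | x ∈ X ∧ ∀ y ∈ X, y ≠ x → ε ≤ dist x y} with hS
  have H : Hyp s r S ε := by
    refine ⟨hε0, fun x hx y hy hne => hx.2 y hy.1 (Ne.symm hne), fun b => ?_,
      fun b => ⟨hrX b, hiso b⟩, hpq⟩
    apply Set.Subset.antisymm
    · rintro _ ⟨x, hx, rfl⟩
      have h3 : s b x ∈ X \ {r b} := by
        rw [← hsX b]
        exact ⟨x, hx.1, rfl⟩
      refine ⟨⟨h3.1, ?_⟩, h3.2⟩
      intro y hy hne
      by_cases hyr : y = r b
      · rw [hyr, dist_comm]
        exact hiso b _ h3.1 h3.2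
      · have h4 : y ∈ s b '' X := by rw [hsX b]; exact ⟨hy, hyr⟩
        obtain ⟨y', hy', rfl⟩ := h4
        rw [(s b).dist_eq]
        exact hx.2 y' hy' (fun h5 => hne (by rw [h5]))
    · rintro y ⟨hy, hyr⟩
      have h4 : y ∈ s b '' X := by rw [hsX b]; exact ⟨hy.1, hyr⟩
      obtain ⟨y', hy', rfl⟩ := h4
      refine ⟨y', ⟨hy', ?_⟩, rfl⟩
      intro z hz hne
      have h5 : s b z ∈ X := by
        have : s b z ∈ s b '' X := ⟨z, hz, rfl⟩
        rw [hsX b] at this
        exact this.1
      rw [← (s b).dist_eq]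
      exact hy.2 _ h5 (fun h6 => hne ((s b).injective h6))
  exact H.false

end Pool.Agent.X197.Mycielski
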