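import Mathlib

/-!
# Functors in the category of compact Hausdorff spaces: definitions and an example
-/

set_option autoImplicit false

open CategoryTheory CategoryTheory.Limits Topology Set

universe u

namespace Pool.Agent.X197.NF

/-- The underlying function of a morphism of compacta. -/
abbrev fn {X Y : CompHaus.{u}} (f : X ⟶ Y) : X → Y := ⇑(ConcreteCategory.hom f)

/-- The closed subset `Z` of `Y` as a compactum. -/
def sub (Y : CompHaus.{u}) (Z : Set Y) (hZ : IsClosed Z) : CompHaus.{u} :=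
  haveI : CompactSpace Z := isCompact_iff_compactSpace.mp hZ.isCompact
  CompHaus.of Z

/-- The inclusion of a closed subset. -/
def incl (Y : CompHaus.{u}) (Z : Set Y) (hZ : IsClosed Z) : sub Y Z hZ ⟶ Y :=
  ConcreteCategory.ofHom (⟨fun z : Z => (z : Y), continuous_subtype_val⟩ : C(Z, Y))

/-- `F Z` as a subset of `F Y`, for closed `Z ⊆ Y` (the image of `F` of the inclusion). -/
def im (F : CompHaus.{u} ⥤ CompHaus.{u}) (Y : CompHaus.{u}) (Z : Set Y) (hZ : IsClosed Z) :
    Set (F.obj Y) := range (fn (F.map (incl Y Z hZ)))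

/-- `F` is monomorphic: it preserves injectivity of maps. -/
def Monomorphic (F : CompHaus.{u} ⥤ CompHaus.{u}) : Prop :=
  ∀ ⦃X Y : CompHaus.{u}⦄ (f : X ⟶ Y), Function.Injective (fn f) → Function.Injective (fn (F.map f))

/-- `F` is epimorphic: it preserves surjectivity of maps. -/
def Epimorphic (F : CompHaus.{u} ⥤ CompHaus.{u}) : Prop :=
  ∀ ⦃X Y : CompHaus.{u}⦄ (f : X ⟶ Y),
    Function.Surjective (fn f) → Function.Surjective (fn (F.map f))

/-- `F` is continuous: it preserves the limits of inverse spectra (diagrams over codirected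
index sets). -/
def ContinuousFunctor (F : CompHaus.{u} ⥤ CompHaus.{u}) : Prop :=
  ∀ (J : Type u) [Preorder J] [IsCodirectedOrder J] [Nonempty J], PreservesLimitsOfShape J F

/-- `F` preserves intersections of families of closed subsets. -/
def PreservesIntersections (F : CompHaus.{u} ⥤ CompHaus.{u}) : Prop :=
  ∀ (Y : CompHaus.{u}) (ι : Type u) (_ : Nonempty ι) (Z : ι → Set Y) (hZ : ∀ i, IsClosed (Z i)),
    im F Y (⋂ i, Z i) (isClosed_iInter hZ) = ⋂ i, im F Y (Z i) (hZ i)

/-- `F` preserves the empty space. -/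
def PreservesEmpty (F : CompHaus.{u} ⥤ CompHaus.{u}) : Prop :=
  ∀ X : CompHaus.{u}, IsEmpty X → IsEmpty (F.obj X)

/-- `F` preserves one-point spaces. -/
def PreservesPoint (F : CompHaus.{u} ⥤ CompHaus.{u}) : Prop :=
  ∀ X : CompHaus.{u}, Nonempty (Unique X) → Nonempty (Unique (F.obj X))

/-- The weight of a space: the least cardinality of a base. -/
noncomputable def weight (X : Type u) [TopologicalSpace X] : Cardinal.{u} :=
  sInf {c | ∃ B : Set (Set X), TopologicalSpace.IsTopologicalBasis B ∧ Cardinal.mk B = c}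

/-- `F` preserves the weight of infinite compacta. -/
def PreservesWeight (F : CompHaus.{u} ⥤ CompHaus.{u}) : Prop :=
  ∀ X : CompHaus.{u}, Infinite X → weight (F.obj X) = weight X

/-- A commutative square `f' : X' → Y'`, `f : X → Y`, `p : X' → X`, `q : Y' → Y` is
bicommutative if `f' (p⁻¹ x) = q⁻¹ (f x)` for every `x ∈ X`. -/
def Bicommutative {X' Y' X Y : CompHaus.{u}} (f' : X' ⟶ Y') (f : X ⟶ Y) (p : X' ⟶ X)
    (q : Y' ⟶ Y) : Prop :=
  p ≫ f = f' ≫ q ∧ ∀ x : X, fn f' '' (fn p ⁻¹' {x}) = fn q ⁻¹' {fn f x}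

/-- `F` preserves preimages: it preserves the bicommutative squares whose two horizontal maps
`f'` and `f` are injective. -/
def PreservesPreimages (F : CompHaus.{u} ⥤ CompHaus.{u}) : Prop :=
  ∀ ⦃X' Y' X Y : CompHaus.{u}⦄ (f' : X' ⟶ Y') (f : X ⟶ Y) (p : X' ⟶ X) (q : Y' ⟶ Y),
    Function.Injective (fn f') → Function.Injective (fn f) → Bicommutative f' f p q →
    Bicommutative (F.map f') (F.map f) (F.map p) (F.map q)

/-- `F` preserves preimages, in terms of subsets: `(F f)⁻¹ (F Z) = F (f⁻¹ Z)` for every closed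
`Z`. -/
def PreservesPreimages' (F : CompHaus.{u} ⥤ CompHaus.{u}) : Prop :=
  ∀ ⦃X Y : CompHaus.{u}⦄ (f : X ⟶ Y) (Z : Set Y) (hZ : IsClosed Z),
    fn (F.map f) ⁻¹' im F Y Z hZ =
      im F X (fn f ⁻¹' Z) (hZ.preimage (ConcreteCategory.hom f).continuous)

/-- Normal functors in the sense of Shchepin. -/
structure IsNormal (F : CompHaus.{u} ⥤ CompHaus.{u}) : Prop where
  mono : Monomorphic F
  epi : Epimorphic F
  cont : ContinuousFunctor F
  inter : PreservesIntersections F
  empty : PreservesEmpty F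
  point : PreservesPoint F
  weight : PreservesWeight F
  preimages : PreservesPreimages F
  preimages' : PreservesPreimages' F

/-- A map is skeletal if preimages of nowhere dense sets are nowhere dense. -/
def SkeletalMap {X Y : CompHaus.{u}} (f : X ⟶ Y) : Prop :=
  ∀ A : Set Y, IsNowhereDense A → IsNowhereDense (fn f ⁻¹' A)

/-- `F` is skeletal: `F f` is skeletal for every open surjection `f` of compacta. -/
def SkeletalFunctor (F : CompHaus.{u} ⥤ CompHaus.{u}) : Prop :=
  ∀ ⦃X Y : CompHaus.{u}⦄ (f : X ⟶ Y), IsOpenMap (fn f) → Function.Surjective (fn f) →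
    SkeletalMap (F.map f)

/-- `F` is open: `F f` is open for every open surjection `f` of compacta. -/
def OpenFunctor (F : CompHaus.{u} ⥤ CompHaus.{u}) : Prop :=
  ∀ ⦃X Y : CompHaus.{u}⦄ (f : X ⟶ Y), IsOpenMap (fn f) → Function.Surjective (fn f) →
    IsOpenMap (fn (F.map f))

/-- `F` is finitary: it preserves finite spaces. -/
def Finitary (F : CompHaus.{u} ⥤ CompHaus.{u}) : Prop :=
  ∀ X : CompHaus.{u}, Finite X → Finite (F.obj X)

/-- A commutative square is skeletal if for every `x ∈ X` and every neighbourhood `U` of `x` there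
is a nonempty open `V ⊆ Y` with `V ⊆ f (U)` and `q⁻¹ (V) ⊆ f' (p⁻¹ (U))`. -/
def SkeletalSquare {X' Y' X Y : CompHaus.{u}} (f' : X' ⟶ Y') (f : X ⟶ Y) (p : X' ⟶ X)
    (q : Y' ⟶ Y) : Prop :=
  p ≫ f = f' ≫ q ∧ ∀ (x : X) (U : Set X), U ∈ 𝓝 x → ∃ V : Set Y, IsOpen V ∧ V.Nonempty ∧
    V ⊆ fn f '' U ∧ fn q ⁻¹' V ⊆ fn f' '' (fn p ⁻¹' U)

/-- A map is skeletal as soon as images of nonempty open sets contain nonempty open sets. -/
theorem skeletalMap_of_open {X Y : CompHaus.{u}} (f : X ⟶ Y)
    (h : ∀ U : Set X, IsOpen U → U.Nonempty → ∃ V : Set Y, IsOpen V ∧ V.Nonempty ∧ V ⊆ fn f '' U) :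
    SkeletalMap f := by
  intro A hA
  rw [IsNowhereDense, ← not_nonempty_iff_eq_empty]
  intro hne
  obtain ⟨V, hV, hVne, hVU⟩ := h _ isOpen_interior hne
  have hA' : interior (closure A) = ∅ := hA
  have hdense : (V ∩ (closure A)ᶜ).Nonempty := by
    by_contra hempty
    rw [not_nonempty_iff_eq_empty] at hempty
    have hsub : V ⊆ closure A := by
      intro v hv
      by_contra hvA
      have : v ∈ V ∩ (closure A)ᶜ := ⟨hv, hvA⟩
      rw [hempty] at this
      exact this
    have h1 : V ⊆ interior (closure A) := interior_maximal hsub hV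
    rw [hA'] at h1
    obtain ⟨v, hv⟩ := hVne
    exact h1 hv
  obtain ⟨v, hvV, hvA⟩ := hdense
  obtain ⟨x, hx, rfl⟩ := hVU hvV
  have hx2 : x ∈ closure (fn f ⁻¹' A) := interior_subset hx
  have h2 : closure (fn f ⁻¹' A) ⊆ fn f ⁻¹' closure A :=
    (ConcreteCategory.hom f).continuous.closure_preimage_subset A
  exact hvA (h2 hx2)

end Pool.Agent.X197.NF
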