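import Pool.Agent.X197.NF

/-!
# The functor `X ↦ {(x, y, z) ∈ X³ : z ∈ {x, y}}`
-/

set_option autoImplicit false
set_option linter.unusedVariables false

open CategoryTheory CategoryTheory.Limits Topology Set

universe u

namespace Pool.Agent.X197.NF

/-- The set of triples whose third entry is one of the first two. -/
def triSet (X : Type u) : Set (X × X × X) := {p | p.2.2 = p.1 ∨ p.2.2 = p.2.1}

theorem isClosed_triSet (X : Type u) [TopologicalSpace X] [T2Space X] : IsClosed (triSet X) :=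
  (isClosed_eq (continuous_snd.comp continuous_snd) continuous_fst).union
    (isClosed_eq (continuous_snd.comp continuous_snd) (continuous_fst.comp continuous_snd))

instance (X : Type u) [TopologicalSpace X] [CompactSpace X] [T2Space X] :
    CompactSpace (triSet X) :=
  isCompact_iff_compactSpace.mp (isClosed_triSet X).isCompact

/-- The action of the functor on maps. -/
def triMap {X Y : Type u} [TopologicalSpace X] [TopologicalSpace Y] (f : C(X, Y)) :
    C(triSet X, triSet Y) where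
  toFun p := ⟨(f p.1.1, f p.1.2.1, f p.1.2.2), p.2.imp (fun h => by
    show f p.1.2.2 = f p.1.1
    rw [h]) (fun h => by
    show f p.1.2.2 = f p.1.2.1
    rw [h])⟩
  continuous_toFun := by
    refine Continuous.subtype_mk ?_ _
    fun_prop

/-- The functor `X ↦ {(x, y, z) ∈ X³ : z ∈ {x, y}}`. -/
def Tri : CompHaus.{u} ⥤ CompHaus.{u} where
  obj X := CompHaus.of (triSet X)
  map {X Y} f := CompHausLike.ofHom _ (triMap (ConcreteCategory.hom f : C(X, Y)))
  map_id X := rfl
  map_comp f g := rfl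

/-- The first, second and third entries. -/
def c1 {X : CompHaus.{u}} (p : (Tri.obj X : CompHaus.{u})) : X := (show triSet X from p).1.1
def c2 {X : CompHaus.{u}} (p : (Tri.obj X : CompHaus.{u})) : X := (show triSet X from p).1.2.1
def c3 {X : CompHaus.{u}} (p : (Tri.obj X : CompHaus.{u})) : X := (show triSet X from p).1.2.2

/-- Building an element. -/
def mk3 {X : CompHaus.{u}} (x y z : X) (h : z = x ∨ z = y) : (Tri.obj X : CompHaus.{u}) :=
  (show triSet X from ⟨(x, y, z), h⟩)

@[simp] theorem c1_mk3 {X : CompHaus.{u}} (x y z : X) (h : z = x ∨ z = y) :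
    c1 (mk3 x y z h) = x := rfl
@[simp] theorem c2_mk3 {X : CompHaus.{u}} (x y z : X) (h : z = x ∨ z = y) :
    c2 (mk3 x y z h) = y := rfl
@[simp] theorem c3_mk3 {X : CompHaus.{u}} (x y z : X) (h : z = x ∨ z = y) :
    c3 (mk3 x y z h) = z := rfl

theorem c3_eq {X : CompHaus.{u}} (p : (Tri.obj X : CompHaus.{u})) : c3 p = c1 p ∨ c3 p = c2 p :=
  (show triSet X from p).2

theorem tri_ext {X : CompHaus.{u}} {p q : (Tri.obj X : CompHaus.{u})} (h1 : c1 p = c1 q)
    (h2 : c2 p = c2 q) (h3 : c3 p = c3 q) : p = q :=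
  Subtype.ext (Prod.ext h1 (Prod.ext h2 h3))

theorem c1_map {X Y : CompHaus.{u}} (f : X ⟶ Y) (p : (Tri.obj X : CompHaus.{u})) :
    c1 (fn (Tri.map f) p) = fn f (c1 p) := rfl
theorem c2_map {X Y : CompHaus.{u}} (f : X ⟶ Y) (p : (Tri.obj X : CompHaus.{u})) :
    c2 (fn (Tri.map f) p) = fn f (c2 p) := rfl
theorem c3_map {X Y : CompHaus.{u}} (f : X ⟶ Y) (p : (Tri.obj X : CompHaus.{u})) :
    c3 (fn (Tri.map f) p) = fn f (c3 p) := rfl

theorem continuous_c1 {X : CompHaus.{u}} : Continuous (fun p : (Tri.obj X : CompHaus.{u}) => c1 p) :=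
  continuous_fst.comp continuous_subtype_val
theorem continuous_c2 {X : CompHaus.{u}} : Continuous (fun p : (Tri.obj X : CompHaus.{u}) => c2 p) :=
  continuous_fst.comp (continuous_snd.comp continuous_subtype_val)
theorem continuous_c3 {X : CompHaus.{u}} : Continuous (fun p : (Tri.obj X : CompHaus.{u}) => c3 p) :=
  continuous_snd.comp (continuous_snd.comp continuous_subtype_val)

/-- Neighbourhoods in the functor: an open set around `p` contains all the triples whose entries are
close to those of `p`. -/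
theorem exists_box {X : CompHaus.{u}} {U : Set (Tri.obj X : CompHaus.{u})} (hU : IsOpen U)
    {p : (Tri.obj X : CompHaus.{u})} (hp : p ∈ U) :
    ∃ A B C : Set X, IsOpen A ∧ IsOpen B ∧ IsOpen C ∧ c1 p ∈ A ∧ c2 p ∈ B ∧ c3 p ∈ C ∧
      ∀ q : (Tri.obj X : CompHaus.{u}), c1 q ∈ A → c2 q ∈ B → c3 q ∈ C → q ∈ U := by
  obtain ⟨O, hO, hOU⟩ := isOpen_induced_iff.mp hU
  have hpO : ((c1 p, c2 p, c3 p) : X × X × X) ∈ O := (Set.ext_iff.mp hOU p).mpr hp
  obtain ⟨A, D, hA, hD, hpA, hpD, hAD⟩ := isOpen_prod_iff.mp hO _ _ hpO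
  obtain ⟨B, C, hB, hC, hpB, hpC, hBC⟩ := isOpen_prod_iff.mp hD _ _ hpD
  refine ⟨A, B, C, hA, hB, hC, hpA, hpB, hpC, fun q h1 h2 h3 => ?_⟩
  exact (Set.ext_iff.mp hOU q).mp (hAD ⟨h1, hBC ⟨h2, h3⟩⟩)

theorem tri_mono : Monomorphic Tri.{u} := by
  intro X Y f hf p q h
  have h1 := congrArg c1 h
  have h2 := congrArg c2 h
  have h3 := congrArg c3 h
  rw [c1_map, c1_map] at h1
  rw [c2_map, c2_map] at h2
  rw [c3_map, c3_map] at h3
  exact tri_ext (hf h1) (hf h2) (hf h3)

theorem tri_epi : Epimorphic Tri.{u} := by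
  intro X Y f hf q
  obtain ⟨x, hx⟩ := hf (c1 q)
  obtain ⟨y, hy⟩ := hf (c2 q)
  rcases c3_eq q with h | h
  · exact ⟨mk3 x y x (Or.inl rfl), tri_ext hx hy (hx.trans h.symm)⟩
  · exact ⟨mk3 x y y (Or.inr rfl), tri_ext hx hy (hy.trans h.symm)⟩

theorem mem_im_tri {Y : CompHaus.{u}} {Z : Set Y} (hZ : IsClosed Z)
    (p : (Tri.obj Y : CompHaus.{u})) : p ∈ im Tri Y Z hZ ↔ c1 p ∈ Z ∧ c2 p ∈ Z := by
  constructor
  · rintro ⟨q, rfl⟩
    exact ⟨(show Z from c1 q).2, (show Z from c2 q).2⟩
  · rintro ⟨h1, h2⟩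
    rcases c3_eq p with h | h
    · refine ⟨mk3 (X := sub Y Z hZ) (show Z from ⟨c1 p, h1⟩) (show Z from ⟨c2 p, h2⟩)
        (show Z from ⟨c1 p, h1⟩) (Or.inl rfl), tri_ext rfl rfl h.symm⟩
    · refine ⟨mk3 (X := sub Y Z hZ) (show Z from ⟨c1 p, h1⟩) (show Z from ⟨c2 p, h2⟩)
        (show Z from ⟨c2 p, h2⟩) (Or.inr rfl), tri_ext rfl rfl h.symm⟩

theorem tri_inter : PreservesIntersections Tri.{u} := by
  intro Y ι _ Z hZ
  ext p
  rw [mem_im_tri]
  simp only [mem_iInter, mem_im_tri]
  exact ⟨fun h i => ⟨h.1 i, h.2 i⟩, fun h => ⟨fun i => (h i).1, fun i => (h i).2⟩⟩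

theorem tri_empty : PreservesEmpty Tri.{u} := by
  intro X hX
  exact ⟨fun p => hX.false (c1 p)⟩

theorem tri_point : PreservesPoint Tri.{u} := by
  rintro X ⟨hX⟩
  exact ⟨{ default := mk3 default default default (Or.inl rfl)
           uniq := fun p => tri_ext (Unique.eq_default _) (Unique.eq_default _)
             (Unique.eq_default _) }⟩

theorem tri_preimages' : PreservesPreimages' Tri.{u} := by
  intro X Y f Z hZ
  ext p
  rw [mem_preimage, mem_im_tri, mem_im_tri]
  rfl

theorem tri_preimages : PreservesPreimages Tri.{u} := by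
  intro X' Y' X Y f' f p q hf' hf h
  refine ⟨by rw [← Tri.map_comp, ← Tri.map_comp, h.1], fun a => ?_⟩
  have hcomm : ∀ x', fn q (fn f' x') = fn f (fn p x') := fun x' =>
    (congrArg (fun g => fn g x') h.1).symm
  apply Subset.antisymm
  · rintro _ ⟨b, hb, rfl⟩
    have hb' : fn (Tri.map p) b = a := hb
    show fn (Tri.map q) (fn (Tri.map f') b) = fn (Tri.map f) a
    rw [← hb']
    exact tri_ext (hcomm _) (hcomm _) (hcomm _)
  · intro b hb
    have hb' : fn (Tri.map q) b = fn (Tri.map f) a := hb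
    have key : ∀ (y : Y') (x : X), fn q y = fn f x → ∃ x' : X', fn p x' = x ∧ fn f' x' = y := by
      intro y x hyx
      have h1 : y ∈ fn q ⁻¹' {fn f x} := hyx
      rw [← h.2 x] at h1
      obtain ⟨x', hx', rfl⟩ := h1
      exact ⟨x', hx', rfl⟩
    obtain ⟨x1, hx1, hx1'⟩ := key (c1 b) (c1 a) (congrArg c1 hb')
    obtain ⟨x2, hx2, hx2'⟩ := key (c2 b) (c2 a) (congrArg c2 hb')
    have h3 : fn q (c3 b) = fn f (c3 a) := congrArg c3 hb'
    rcases c3_eq b with h4 | h4
    · refine ⟨mk3 x1 x2 x1 (Or.inl rfl), ?_, tri_ext hx1' hx2' (hx1'.trans h4.symm)⟩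
      refine tri_ext hx1 hx2 ?_
      show fn p x1 = c3 a
      apply hf
      rw [← h3, h4, ← hx1', hcomm]
    · refine ⟨mk3 x1 x2 x2 (Or.inr rfl), ?_, tri_ext hx1' hx2' (hx2'.trans h4.symm)⟩
      refine tri_ext hx1 hx2 ?_
      show fn p x2 = c3 a
      apply hf
      rw [← h3, h4, ← hx2', hcomm]

theorem tri_finitary : Finitary Tri.{u} := by
  intro X hX
  exact Finite.of_injective (fun p : (Tri.obj X : CompHaus.{u}) => (c1 p, c2 p, c3 p))
    (fun p q h => tri_ext (congrArg Prod.fst h) (congrArg (fun a => a.2.1) h)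
      (congrArg (fun a => a.2.2) h))

theorem tri_cont : ContinuousFunctor Tri.{u} := by
  intro J _ _ _
  refine ⟨fun {K} => ⟨fun {c} hc => ?_⟩⟩
  have hcof : IsCofiltered J := isCofiltered_of_directed_ge_nonempty J
  -- the limit in types
  have hc1 : IsLimit ((forget CompHaus.{u}).mapCone c) := isLimitOfPreserves _ hc
  have hc2 := (Types.isLimit_iff _).mp ⟨hc1⟩
  have hr : IsLimit ((forget CompHaus.{u}).mapCone (Tri.mapCone c)) := by
    refine Classical.choice ((Types.isLimit_iff _).mpr ?_)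
    intro s hs
    have hs' : ∀ {i j : J} (f : i ⟶ j), fn (Tri.map (K.map f)) (s i) = s j := fun f => hs f
    obtain ⟨x, hx, hxu⟩ := hc2 (fun j => c1 (X := K.obj j) (s j)) (fun {i j} f => by
      exact congrArg (c1 (X := K.obj j)) (hs' f))
    obtain ⟨y, hy, hyu⟩ := hc2 (fun j => c2 (X := K.obj j) (s j)) (fun {i j} f => by
      exact congrArg (c2 (X := K.obj j)) (hs' f))
    obtain ⟨z, hz, hzu⟩ := hc2 (fun j => c3 (X := K.obj j) (s j)) (fun {i j} f => by
      exact congrArg (c3 (X := K.obj j)) (hs' f))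
    have hx' : ∀ j, fn (c.π.app j) x = c1 (X := K.obj j) (s j) := hx
    have hy' : ∀ j, fn (c.π.app j) y = c2 (X := K.obj j) (s j) := hy
    have hz' : ∀ j, fn (c.π.app j) z = c3 (X := K.obj j) (s j) := hz
    have hmem : z = x ∨ z = y := by
      by_contra hno
      rw [not_or] at hno
      have h1 : ∃ i, fn (c.π.app i) z ≠ fn (c.π.app i) x := by
        by_contra hcon
        push Not at hcon
        exact hno.1 (hxu z (fun j => (hcon j).trans (hx' j)))
      have h2 : ∃ j, fn (c.π.app j) z ≠ fn (c.π.app j) y := by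
        by_contra hcon
        push Not at hcon
        exact hno.2 (hyu z (fun j => (hcon j).trans (hy' j)))
      obtain ⟨i, hi⟩ := h1
      obtain ⟨j, hj⟩ := h2
      obtain ⟨k, hki, hkj⟩ := exists_le_le i j
      have ei : ∀ w : c.pt, fn (c.π.app i) w = fn (K.map (homOfLE hki)) (fn (c.π.app k) w) := by
        intro w
        have := c.w (homOfLE hki)
        exact (congrArg (fun g => fn g w) this).symm
      have ej : ∀ w : c.pt, fn (c.π.app j) w = fn (K.map (homOfLE hkj)) (fn (c.π.app k) w) := by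
        intro w
        have := c.w (homOfLE hkj)
        exact (congrArg (fun g => fn g w) this).symm
      rcases c3_eq (X := K.obj k) (s k) with h | h
      · apply hi
        rw [ei, ei, hz', hx', h]
      · apply hj
        rw [ej, ej, hz', hy', h]
    refine ⟨mk3 x y z hmem, fun j => tri_ext (hx' j) (hy' j) (hz' j), ?_⟩
    intro w hw
    have hw' : ∀ j, fn (Tri.map (c.π.app j)) w = s j := hw
    refine tri_ext ?_ ?_ ?_
    · exact hxu _ (fun j => congrArg (c1 (X := K.obj j)) (hw' j))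
    · exact hyu _ (fun j => congrArg (c2 (X := K.obj j)) (hw' j))
    · exact hzu _ (fun j => congrArg (c3 (X := K.obj j)) (hw' j))
  exact ⟨isLimitOfReflects (forget CompHaus.{u}) hr⟩

end Pool.Agent.X197.NF
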