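import Pool.Agent.X197.NFTri

/-!
# The functor `X ↦ {(x, y, z) ∈ X³ : z ∈ {x, y}}` is normal and skeletal
-/

set_option autoImplicit false
set_option linter.unusedVariables false

open CategoryTheory CategoryTheory.Limits Topology Set

universe u

namespace Pool.Agent.X197.NF

theorem weight_le_of {X Y : Type u} [TopologicalSpace X] [TopologicalSpace Y]
    (h : ∀ B : Set (Set Y), TopologicalSpace.IsTopologicalBasis B →
      ∃ B' : Set (Set X), TopologicalSpace.IsTopologicalBasis B' ∧
        Cardinal.mk B' ≤ Cardinal.mk B) : weight X ≤ weight Y := by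
  refine le_csInf ⟨_, _, TopologicalSpace.isTopologicalBasis_opens, rfl⟩ ?_
  rintro _ ⟨B, hB, rfl⟩
  obtain ⟨B', hB', hle⟩ := h B hB
  have h1 : sInf {c | ∃ B : Set (Set X), TopologicalSpace.IsTopologicalBasis B ∧
      Cardinal.mk B = c} ≤ Cardinal.mk B' := csInf_le' ⟨B', hB', rfl⟩
  exact h1.trans hle

theorem basis_infinite {X : Type u} [TopologicalSpace X] [T2Space X] [Infinite X]
    {B : Set (Set X)} (hB : TopologicalSpace.IsTopologicalBasis B) :
    Cardinal.aleph0 ≤ Cardinal.mk B := by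
  rw [Cardinal.aleph0_le_mk_iff]
  by_contra hfin
  rw [not_infinite_iff_finite] at hfin
  have hinj : Function.Injective (fun x : X => {b : B | x ∈ (b : Set X)}) := by
    intro x y hxy
    rw [← inseparable_iff_eq]
    rw [hB.inseparable_iff]
    intro s hs
    have h1 := Set.ext_iff.mp hxy ⟨s, hs⟩
    exact h1
  exact not_finite_iff_infinite.mpr ‹Infinite X› (Finite.of_injective _ hinj)

theorem tri_weight : PreservesWeight Tri.{u} := by
  intro X hX
  apply le_antisymm
  · apply weight_le_of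
    intro B hB
    have h3 := (hB.prod (hB.prod hB)).isInducing
      (show IsInducing (Subtype.val : triSet X → X × X × X) from IsInducing.subtypeVal)
    refine ⟨_, h3, ?_⟩
    refine Cardinal.mk_image_le.trans ?_
    have hT2 : T2Space X := inferInstance
    have hinf := basis_infinite hB
    refine (Cardinal.mk_image2_le).trans ?_
    refine (mul_le_mul_right (Cardinal.mk_image2_le) _).trans ?_
    rw [Cardinal.mul_eq_self hinf, Cardinal.mul_eq_self hinf]
  · apply weight_le_of
    intro B hB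
    have hind : IsInducing (fun x : X => (mk3 x x x (Or.inl rfl) : (Tri.obj X : CompHaus.{u}))) := by
      have hcont : Continuous (fun x : X =>
          (mk3 x x x (Or.inl rfl) : (Tri.obj X : CompHaus.{u}))) :=
        Continuous.subtype_mk (continuous_id.prodMk (continuous_id.prodMk continuous_id)) _
      have hid : IsInducing (c1 ∘ fun x : X =>
          (mk3 x x x (Or.inl rfl) : (Tri.obj X : CompHaus.{u}))) := IsInducing.id
      exact IsInducing.of_comp hcont continuous_c1 hid
    exact ⟨_, hB.isInducing hind, Cardinal.mk_image_le⟩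

theorem tri_normal : IsNormal Tri.{u} where
  mono := tri_mono
  epi := tri_epi
  cont := tri_cont
  inter := tri_inter
  empty := tri_empty
  point := tri_point
  weight := tri_weight
  preimages := tri_preimages
  preimages' := tri_preimages'

/-- If the images of two disjoint open sets are never separated, they are an isolated point. -/
theorem image_open {X Y : CompHaus.{u}} (f : X ⟶ Y) (hf : IsOpenMap (fn f))
    {U : Set (Tri.obj X : CompHaus.{u})} (hU : IsOpen U) {A B : Set X} (hA : IsOpen A)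
    (hB : IsOpen B) (hAne : A.Nonempty) (hBne : B.Nonempty)
    (hsub : ∀ q : (Tri.obj X : CompHaus.{u}), c1 q ∈ A → c2 q ∈ B → c3 q = c1 q → q ∈ U) :
    ∃ V : Set (Tri.obj Y : CompHaus.{u}), IsOpen V ∧ V.Nonempty ∧ V ⊆ fn (Tri.map f) '' U := by
  by_cases hex : ∃ u ∈ A, ∃ v ∈ B, fn f u ≠ fn f v
  · obtain ⟨u, hu, v, hv, huv⟩ := hex
    obtain ⟨P, Q, hP, hQ, huP, hvQ, hPQ⟩ := t2_separation huv
    -- open images
    set P' := fn f '' (A ∩ fn f ⁻¹' P) with hP'
    set Q' := fn f '' (B ∩ fn f ⁻¹' Q) with hQ'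
    have hP'o : IsOpen P' := hf _ (hA.inter (hP.preimage (ConcreteCategory.hom f).continuous))
    have hQ'o : IsOpen Q' := hf _ (hB.inter (hQ.preimage (ConcreteCategory.hom f).continuous))
    have hP'P : P' ⊆ P := by
      rintro _ ⟨a, ha, rfl⟩
      exact ha.2
    have hQ'Q : Q' ⊆ Q := by
      rintro _ ⟨a, ha, rfl⟩
      exact ha.2
    refine ⟨{q | c1 q ∈ P' ∧ c2 q ∈ Q' ∧ c3 q ∈ P'}, ?_, ?_, ?_⟩
    · exact (hP'o.preimage continuous_c1).inter ((hQ'o.preimage continuous_c2).inter
        (hP'o.preimage continuous_c3))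
    · exact ⟨mk3 (fn f u) (fn f v) (fn f u) (Or.inl rfl), ⟨u, ⟨hu, huP⟩, rfl⟩,
        ⟨v, ⟨hv, hvQ⟩, rfl⟩, ⟨u, ⟨hu, huP⟩, rfl⟩⟩
    · rintro q ⟨⟨a, ha, ha'⟩, ⟨b, hb, hb'⟩, h3⟩
      have h4 : c3 q = c1 q := by
        rcases c3_eq q with h | h
        · exact h
        · exfalso
          have h5 : c2 q ∈ P := hP'P (h ▸ h3)
          have h6 : c2 q ∈ Q := by
            rw [← hb']
            exact hb.2
          exact Set.disjoint_left.mp hPQ h5 h6
      refine ⟨mk3 a b a (Or.inl rfl), hsub _ ha.1 hb.1 rfl, ?_⟩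
      exact tri_ext ha' hb' (ha'.trans h4.symm)
  · push Not at hex
    obtain ⟨a, ha⟩ := hAne
    obtain ⟨b, hb⟩ := hBne
    have himg : fn f '' A = {fn f a} := by
      apply Subset.antisymm
      · rintro _ ⟨u, hu, rfl⟩
        exact (hex u hu b hb).trans (hex a ha b hb).symm
      · rintro _ rfl
        exact ⟨a, ha, rfl⟩
    have hiso : IsOpen ({fn f a} : Set Y) := by
      rw [← himg]
      exact hf _ hA
    refine ⟨{q | c1 q ∈ ({fn f a} : Set Y) ∧ c2 q ∈ ({fn f a} : Set Y) ∧
      c3 q ∈ ({fn f a} : Set Y)}, ?_, ?_, ?_⟩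
    · exact (hiso.preimage continuous_c1).inter ((hiso.preimage continuous_c2).inter
        (hiso.preimage continuous_c3))
    · exact ⟨mk3 (fn f a) (fn f a) (fn f a) (Or.inl rfl), rfl, rfl, rfl⟩
    · rintro q ⟨h1, h2, h3⟩
      have h1' : c1 q = fn f a := h1
      have h2' : c2 q = fn f a := h2
      have h3' : c3 q = fn f a := h3
      refine ⟨mk3 a b a (Or.inl rfl), hsub _ ha hb rfl, ?_⟩
      exact tri_ext h1'.symm ((hex a ha b hb).symm.trans h2'.symm) h3'.symm

/-- The switch of the first two entries. -/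
def sw {X : CompHaus.{u}} (p : (Tri.obj X : CompHaus.{u})) : (Tri.obj X : CompHaus.{u}) :=
  mk3 (c2 p) (c1 p) (c3 p) (c3_eq p).symm

theorem continuous_sw {X : CompHaus.{u}} :
    Continuous (fun p : (Tri.obj X : CompHaus.{u}) => sw p) :=
  Continuous.subtype_mk (continuous_c2.prodMk (continuous_c1.prodMk continuous_c3)) _

theorem sw_sw {X : CompHaus.{u}} (p : (Tri.obj X : CompHaus.{u})) : sw (sw p) = p := rfl

theorem map_sw {X Y : CompHaus.{u}} (f : X ⟶ Y) (p : (Tri.obj X : CompHaus.{u})) :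
    fn (Tri.map f) (sw p) = sw (fn (Tri.map f) p) := rfl

theorem tri_skeletal : SkeletalFunctor Tri.{u} := by
  intro X Y f hf _
  apply skeletalMap_of_open
  -- the case of a point whose last entry is the first one
  have main : ∀ U : Set (Tri.obj X : CompHaus.{u}), IsOpen U → ∀ p ∈ U, c3 p = c1 p →
      ∃ V : Set (Tri.obj Y : CompHaus.{u}), IsOpen V ∧ V.Nonempty ∧
        V ⊆ fn (Tri.map f) '' U := by
    intro U hU p hp h
    obtain ⟨A, B, C, hA, hB, hC, h1, h2, h3, hABC⟩ := exists_box hU hp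
    refine image_open f hf hU (A := A ∩ C) (B := B) (hA.inter hC) hB
      ⟨c1 p, h1, h ▸ h3⟩ ⟨c2 p, h2⟩ ?_
    intro q hq1 hq2 hq3
    exact hABC q hq1.1 hq2 (hq3 ▸ hq1.2)
  intro U hU ⟨p, hp⟩
  rcases c3_eq p with h | h
  · exact main U hU p hp h
  · obtain ⟨V, hV, ⟨v, hv⟩, hVU⟩ := main _ (hU.preimage continuous_sw) (sw p)
      (by show sw (sw p) ∈ U; rwa [sw_sw]) h
    refine ⟨_, hV.preimage continuous_sw, ⟨sw v, by show sw (sw v) ∈ V; rwa [sw_sw]⟩, ?_⟩
    intro q hq
    obtain ⟨r, hr, hrq⟩ := hVU hq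
    refine ⟨sw r, hr, ?_⟩
    rw [map_sw, hrq]
    exact sw_sw q

end Pool.Agent.X197.NF
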