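import Mathlib

namespace Pool.Agent.X197.Osc

open Matrix

/-- The vector `(1, 1, -1)`. -/
def vv : Fin 3 → ℝ := ![1, 1, -1]

/-- The orthogonal projection of `ℝ^3` onto the orthogonal complement of `vv`. -/
noncomputable def q0 : Matrix (Fin 3) (Fin 3) ℝ :=
  fun x y => (if x = y then 1 else 0) - vv x * vv y / 3

/-- A matrix with entries `± 1/3` commuting with `q0`. -/
noncomputable def c0 : Matrix (Fin 3) (Fin 3) ℝ :=
  fun x y => (2 * (if x = y then 1 else 0) - vv x * vv y) / 3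

/-- Tensor powers of a `3 × 3` matrix. -/
noncomputable def tp (k : ℕ) (m : Matrix (Fin 3) (Fin 3) ℝ) :
    Matrix (Fin k → Fin 3) (Fin k → Fin 3) ℝ :=
  fun x y => ∏ i, m (x i) (y i)

theorem tp_mul (k : ℕ) (a b : Matrix (Fin 3) (Fin 3) ℝ) :
    tp k a * tp k b = tp k (a * b) := by
  ext x y
  simp only [tp, Matrix.mul_apply]
  rw [Finset.prod_univ_sum]
  simp [Fintype.piFinset_univ, Finset.prod_mul_distrib]

theorem tp_trace (k : ℕ) (a : Matrix (Fin 3) (Fin 3) ℝ) :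
    (tp k a).trace = (a.trace) ^ k := by
  simp only [Matrix.trace, Matrix.diag_apply, tp]
  rw [Fintype.sum_pow]

theorem tp_mulVec (k : ℕ) (a : Matrix (Fin 3) (Fin 3) ℝ) (p : Fin 3 → ℝ) :
    tp k a *ᵥ (fun x => ∏ i, p (x i)) = fun x => ∏ i, (a *ᵥ p) (x i) := by
  ext x
  simp only [tp, Matrix.mulVec, dotProduct]
  rw [Finset.prod_univ_sum]
  simp [Fintype.piFinset_univ, Finset.prod_mul_distrib]

theorem q0_sq : q0 * q0 = q0 := by
  ext x y
  fin_cases x <;> fin_cases y <;>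
    simp [q0, vv, Matrix.mul_apply, Fin.sum_univ_three] <;> norm_num

theorem q0_c0 : q0 * c0 = c0 * q0 := by
  ext x y
  fin_cases x <;> fin_cases y <;>
    simp [q0, c0, vv, Matrix.mul_apply, Fin.sum_univ_three] <;> norm_num

theorem q0_c0_trace : (q0 * c0).trace = 4 / 3 := by
  simp [q0, c0, vv, Matrix.mul_apply, Fin.sum_univ_three, Matrix.trace]; norm_num

theorem c0_abs (x y : Fin 3) : |c0 x y| = 1 / 3 := by
  fin_cases x <;> fin_cases y <;> simp [c0, vv] <;> norm_num [abs_of_neg, abs_of_pos]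

theorem tp_c0_abs (k : ℕ) (x y : Fin k → Fin 3) : |tp k c0 x y| = (1 / 3) ^ k := by
  simp only [tp, Finset.abs_prod, c0_abs]
  simp

/-- Lower bound for the norm of a projection onto the range of the tensor power of `q0`. -/
theorem proj_bound (k : ℕ) (T : (((Fin k → Fin 3) → ℝ)) →ₗ[ℝ] (((Fin k → Fin 3) → ℝ))) (B : ℝ)
    (h1 : ∀ a, tp k q0 *ᵥ (T a) = T a)
    (h2 : ∀ a, tp k q0 *ᵥ a = a → T a = a)
    (hB : ∀ (a : (Fin k → Fin 3) → ℝ) (A : ℝ), (∀ x, |a x| ≤ A) → ∀ x, |T a x| ≤ B * A) :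
    (4 / 3 : ℝ) ^ k ≤ B := by
  set Q := tp k q0 with hQ
  set C := tp k c0 with hC
  set M := LinearMap.toMatrix' T with hM
  have hMv : ∀ a, M *ᵥ a = T a := by
    intro a
    rw [hM, LinearMap.toMatrix'_mulVec]
  have hQM : Q * M = M := by
    apply Matrix.toLin'.injective
    refine LinearMap.ext fun a => ?_
    rw [Matrix.toLin'_apply, Matrix.toLin'_apply, ← Matrix.mulVec_mulVec, hMv, h1]
  have hQQ : Q * Q = Q := by rw [hQ, tp_mul, q0_sq]
  have hMQ : M * Q = Q := by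
    apply Matrix.toLin'.injective
    refine LinearMap.ext fun a => ?_
    rw [Matrix.toLin'_apply, Matrix.toLin'_apply, ← Matrix.mulVec_mulVec, hMv, h2]
    rw [Matrix.mulVec_mulVec, hQQ]
  have hQC : Q * C = C * Q := by rw [hQ, hC, tp_mul, tp_mul, q0_c0]
  have htr : (M * C).trace = (4 / 3 : ℝ) ^ k := by
    calc (M * C).trace = (Q * (M * C)).trace := by rw [← Matrix.mul_assoc, hQM]
      _ = ((M * C) * Q).trace := by rw [Matrix.trace_mul_comm]
      _ = (M * (Q * C)).trace := by rw [Matrix.mul_assoc, ← hQC]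
      _ = (Q * C).trace := by rw [← Matrix.mul_assoc, hMQ]
      _ = (4 / 3 : ℝ) ^ k := by rw [hQ, hC, tp_mul, tp_trace, q0_c0_trace]
  rw [← htr]
  have hle : ∀ x, (M * C) x x ≤ B * (1 / 3) ^ k := by
    intro x
    have h3 : (M * C) x x = T (fun y => C y x) x := by
      rw [← hMv]
      rfl
    rw [h3]
    refine (le_abs_self _).trans (hB _ _ ?_ x)
    intro y
    rw [hC, tp_c0_abs]
  calc (M * C).trace = ∑ x, (M * C) x x := rfl
    _ ≤ ∑ _x : (Fin k → Fin 3), B * (1 / 3) ^ k := Finset.sum_le_sum (fun x _ => hle x)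
    _ = B := by
      rw [Finset.sum_const, Finset.card_univ, Fintype.card_fun]
      simp only [Fintype.card_fin, nsmul_eq_mul, Nat.cast_pow, Nat.cast_ofNat]
      rw [mul_comm B, ← mul_assoc, ← mul_pow]
      norm_num

/-- The nonnegative vector `(1, 0, 1)`. -/
def pv : Fin 3 → ℝ := ![1, 0, 1]

theorem q0_pv : q0 *ᵥ pv = pv := by
  ext x
  fin_cases x <;>
    simp [q0, vv, pv, Matrix.mulVec, dotProduct, Fin.sum_univ_three] <;> norm_num

theorem tp_pv (k : ℕ) : tp k q0 *ᵥ (fun x => ∏ i, pv (x i)) = fun x => ∏ i, pv (x i) := by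
  rw [tp_mulVec, q0_pv]

theorem pv_nonneg (x : Fin 3) : 0 ≤ pv x := by fin_cases x <;> simp [pv]

theorem pv_le (x : Fin 3) : pv x ≤ 1 := by fin_cases x <;> simp [pv]

end Pool.Agent.X197.Osc
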