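import Pool.Agent.X197.OscA

open Filter Topology Matrix

namespace Pool.Agent.X197.Osc

/-- The closed interval `I(t, d)` of `[0,1]`. -/
def nb (t : unitInterval) (d : ℝ) : Set unitInterval := {s | |(s : ℝ) - t| ≤ d}

/-- The oscillation of `f` on `S`. -/
noncomputable def osc (f : C(unitInterval, ℝ)) (S : Set unitInterval) : ℝ :=
  sSup {r | ∃ s ∈ S, ∃ t ∈ S, r = |f s - f t|}

/-- The function `Γ_X`. -/
noncomputable def Gam (X : Submodule ℝ C(unitInterval, ℝ)) (t : unitInterval) : ℝ :=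
  sSup {a : ℝ | 0 ≤ a ∧ ∀ d > 0, ∃ f ∈ X, ‖f‖ = 1 ∧ a < osc f (nb t d)}

/-- The oscillating spectrum of `X`. -/
noncomputable def Om (X : Submodule ℝ C(unitInterval, ℝ)) : Set unitInterval :=
  {t | 0 < Gam X t}

theorem abs_sub_le_two (f : C(unitInterval, ℝ)) (s t : unitInterval) :
    |f s - f t| ≤ 2 * ‖f‖ := by
  have h1 := f.norm_coe_le_norm s
  have h2 := f.norm_coe_le_norm t
  rw [Real.norm_eq_abs] at h1 h2
  have h3 := abs_sub (f s) (f t)
  linarith

theorem osc_le {f : C(unitInterval, ℝ)} {S : Set unitInterval} {c : ℝ} (hc : 0 ≤ c)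
    (h : ∀ s ∈ S, ∀ t ∈ S, |f s - f t| ≤ c) : osc f S ≤ c := by
  refine Real.sSup_le ?_ hc
  rintro r ⟨s, hs, t, ht, rfl⟩
  exact h s hs t ht

theorem osc_le_two (f : C(unitInterval, ℝ)) (S : Set unitInterval) : osc f S ≤ 2 * ‖f‖ :=
  osc_le (by positivity) (fun s _ t _ => abs_sub_le_two f s t)

theorem le_osc {f : C(unitInterval, ℝ)} {S : Set unitInterval} {s t : unitInterval}
    (hs : s ∈ S) (ht : t ∈ S) : |f s - f t| ≤ osc f S := by
  refine le_csSup ⟨2 * ‖f‖, ?_⟩ ⟨s, hs, t, ht, rfl⟩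
  rintro r ⟨s, hs, t, ht, rfl⟩
  exact abs_sub_le_two f s t

theorem Gam_pos {X : Submodule ℝ C(unitInterval, ℝ)} {t : unitInterval} {a : ℝ} (ha : 0 < a)
    (h : ∀ d > 0, ∃ f ∈ X, ‖f‖ = 1 ∧ a < osc f (nb t d)) : 0 < Gam X t := by
  refine lt_of_lt_of_le ha (le_csSup ⟨2, ?_⟩ ⟨ha.le, h⟩)
  rintro b ⟨_, hb⟩
  obtain ⟨f, _, hf, hlt⟩ := hb 1 one_pos
  have := osc_le_two f (nb t 1)
  rw [hf] at this
  linarith

theorem Gam_le {X : Submodule ℝ C(unitInterval, ℝ)} {t : unitInterval}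
    (h : ∀ a > 0, ∃ d > 0, ∀ f ∈ X, ‖f‖ = 1 → osc f (nb t d) ≤ a) : Gam X t ≤ 0 := by
  refine Real.sSup_le ?_ le_rfl
  rintro b ⟨_, hb⟩
  by_contra hcon
  push Not at hcon
  obtain ⟨d, hd, hf⟩ := h b hcon
  obtain ⟨f, hfX, hf1, hlt⟩ := hb d hd
  exact absurd (hf f hfX hf1) (not_le.mpr hlt)

/-- The hat functions with pairwise disjoint supports accumulating at `0`. -/
noncomputable def hat (j : ℕ) (r : ℝ) : ℝ := max 0 (1 - 16 * 2 ^ j * |r - 1 / 4 * (1 / 2) ^ j|)

theorem hat_nonneg (j : ℕ) (r : ℝ) : 0 ≤ hat j r := le_max_left _ _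

theorem hat_le_one (j : ℕ) (r : ℝ) : hat j r ≤ 1 := by
  refine max_le zero_le_one ?_
  have : 0 ≤ 16 * 2 ^ j * |r - 1 / 4 * (1 / 2) ^ j| := by positivity
  linarith

theorem hat_ne {j : ℕ} {r : ℝ} (h : hat j r ≠ 0) : 3 < 16 * (2 ^ j * r) ∧ 16 * (2 ^ j * r) < 5 := by
  have h1 : 0 < 1 - 16 * 2 ^ j * |r - 1 / 4 * (1 / 2) ^ j| := by
    by_contra hcon
    push Not at hcon
    exact h (max_eq_left hcon)
  have h2 : 16 * 2 ^ j * |r - 1 / 4 * (1 / 2) ^ j| = |16 * (2 ^ j * r) - 4| := by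
    have h3 : (0 : ℝ) ≤ 16 * 2 ^ j := by positivity
    rw [← abs_of_nonneg h3, ← abs_mul]
    congr 1
    have h4 : (2 : ℝ) ^ j * (1 / 2) ^ j = 1 := by rw [← mul_pow]; norm_num
    linear_combination (-4 : ℝ) * h4
  rw [h2] at h1
  have h5 := abs_lt.mp (show |16 * (2 ^ j * r) - 4| < 1 by linarith)
  constructor <;> linarith [h5.1, h5.2]

theorem hat_disj {j l : ℕ} {r : ℝ} (hj : hat j r ≠ 0) (hl : hat l r ≠ 0) : j = l := by
  have key : ∀ {j l : ℕ}, hat j r ≠ 0 → hat l r ≠ 0 → j < l → False := by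
    intro j l hj hl hlt
    have h1 := hat_ne hj
    have h2 := hat_ne hl
    have hr : 0 < r := by
      have : (0 : ℝ) < 2 ^ j := by positivity
      by_contra hcon
      push Not at hcon
      have : 2 ^ j * r ≤ 0 := mul_nonpos_of_nonneg_of_nonpos this.le hcon
      linarith [h1.1]
    have h3 : (2 : ℝ) ^ (j + 1) ≤ 2 ^ l := pow_le_pow_right₀ (by norm_num) hlt
    have h4 : (2 : ℝ) ^ (j + 1) * r ≤ 2 ^ l * r := mul_le_mul_of_nonneg_right h3 hr.le
    rw [pow_succ] at h4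
    linarith [h1.1, h2.2]
  rcases lt_trichotomy j l with h | h | h
  · exact (key hj hl h).elim
  · exact h
  · exact (key hl hj h).elim

theorem hat_zero (j : ℕ) : hat j 0 = 0 := by
  by_contra h
  have := (hat_ne h).1
  rw [mul_zero, mul_zero] at this
  linarith

theorem hat_peak (j : ℕ) : hat j (1 / 4 * (1 / 2) ^ j) = 1 := by
  simp [hat]

theorem hat_continuous (j : ℕ) : Continuous (hat j) := by
  unfold hat
  fun_prop

/-- The hat function as an element of `C[0,1]`. -/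
noncomputable def hatC (j : ℕ) : C(unitInterval, ℝ) :=
  ⟨fun r => hat j r, (hat_continuous j).comp continuous_subtype_val⟩

/-- The peak of the `j`-th hat. -/
noncomputable def xp (j : ℕ) : unitInterval :=
  ⟨1 / 4 * (1 / 2) ^ j, by positivity, by
    have : (1 / 2 : ℝ) ^ j ≤ 1 := pow_le_one₀ (by norm_num) (by norm_num)
    linarith⟩

/-- Enumeration of all block indices. -/
noncomputable def enc (k : ℕ) (x : Fin k → Fin 3) : ℕ :=
  Encodable.encode (⟨k, x⟩ : Σ k : ℕ, (Fin k → Fin 3))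

theorem enc_inj {k k' : ℕ} {x : Fin k → Fin 3} {x' : Fin k' → Fin 3} (h : enc k x = enc k' x') :
    (⟨k, x⟩ : Σ k : ℕ, (Fin k → Fin 3)) = ⟨k', x'⟩ := Encodable.encode_injective h

theorem enc_inj' {k : ℕ} {x x' : Fin k → Fin 3} (h : enc k x = enc k x') : x = x' := by
  have := enc_inj h
  simpa using this

/-- The extension map of block `k`. -/
noncomputable def EE (k : ℕ) : ((Fin k → Fin 3) → ℝ) →ₗ[ℝ] C(unitInterval, ℝ) :=
  Fintype.linearCombination ℝ (fun x => hatC (enc k x))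

theorem EE_apply (k : ℕ) (a : (Fin k → Fin 3) → ℝ) (r : unitInterval) :
    EE k a r = ∑ x, a x * hat (enc k x) r := by
  simp [EE, Fintype.linearCombination_apply, hatC]

/-- The restriction to the peaks of block `k`. -/
noncomputable def RR (k : ℕ) : C(unitInterval, ℝ) →ₗ[ℝ] ((Fin k → Fin 3) → ℝ) where
  toFun f := fun x => f (xp (enc k x))
  map_add' _ _ := rfl
  map_smul' _ _ := rfl

theorem RR_apply (k : ℕ) (f : C(unitInterval, ℝ)) (x : Fin k → Fin 3) :
    RR k f x = f (xp (enc k x)) := rfl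

theorem EE_eq {k : ℕ} (a : (Fin k → Fin 3) → ℝ) {r : unitInterval} {x0 : Fin k → Fin 3}
    (h : hat (enc k x0) r ≠ 0) : EE k a r = a x0 * hat (enc k x0) r := by
  rw [EE_apply]
  refine Finset.sum_eq_single x0 ?_ (by simp)
  intro x _ hx
  by_contra hcon
  have h1 : hat (enc k x) r ≠ 0 := fun h0 => hcon (by rw [h0, mul_zero])
  exact hx (enc_inj' (hat_disj h1 h))

theorem EE_eq_zero {k : ℕ} (a : (Fin k → Fin 3) → ℝ) {r : unitInterval}
    (h : ∀ x, hat (enc k x) r = 0) : EE k a r = 0 := by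
  rw [EE_apply]
  exact Finset.sum_eq_zero (fun x _ => by rw [h x, mul_zero])

theorem EE_norm {k : ℕ} {a : (Fin k → Fin 3) → ℝ} {A : ℝ} (h : ∀ x, |a x| ≤ A) :
    ‖EE k a‖ ≤ A := by
  have hA : 0 ≤ A := (abs_nonneg _).trans (h (fun _ => 0))
  rw [ContinuousMap.norm_le _ hA]
  intro r
  rw [Real.norm_eq_abs]
  by_cases hr : ∃ x, hat (enc k x) r ≠ 0
  · obtain ⟨x0, hx0⟩ := hr
    rw [EE_eq a hx0, abs_mul, abs_of_nonneg (hat_nonneg _ _)]
    calc |a x0| * hat (enc k x0) r ≤ A * 1 :=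
          mul_le_mul (h x0) (hat_le_one _ _) (hat_nonneg _ _) hA
      _ = A := mul_one A
  · push Not at hr
    rw [EE_eq_zero a hr, abs_zero]
    exact hA

theorem RR_EE (k : ℕ) (a : (Fin k → Fin 3) → ℝ) : RR k (EE k a) = a := by
  ext x
  rw [RR_apply]
  have h1 : hat (enc k x) (xp (enc k x)) = 1 := hat_peak _
  rw [EE_eq a (x0 := x) (by rw [h1]; exact one_ne_zero), h1, mul_one]

theorem RR_EE_ne {k l : ℕ} (hkl : k ≠ l) (a : (Fin k → Fin 3) → ℝ) : RR l (EE k a) = 0 := by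
  ext x
  rw [RR_apply]
  have h1 : hat (enc l x) (xp (enc l x)) = 1 := hat_peak _
  refine EE_eq_zero a ?_
  intro y
  by_contra hcon
  have h2 := hat_disj hcon (by rw [h1]; exact one_ne_zero : hat (enc l x) (xp (enc l x)) ≠ 0)
  have h3 := enc_inj h2
  exact hkl (congrArg Sigma.fst h3)

/-- The submodule of functions satisfying the block relations. -/
noncomputable def Rel : Submodule ℝ C(unitInterval, ℝ) where
  carrier := {f | ∀ k, tp k q0 *ᵥ (RR k f) = RR k f}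
  add_mem' := by
    intro f g hf hg k
    rw [map_add, Matrix.mulVec_add, hf k, hg k]
  zero_mem' := by
    intro k
    rw [map_zero, Matrix.mulVec_zero]
  smul_mem' := by
    intro c f hf k
    rw [map_smul, Matrix.mulVec_smul, hf k]

theorem Rel_closed : IsClosed (Rel : Set C(unitInterval, ℝ)) := by
  have : (Rel : Set C(unitInterval, ℝ)) = ⋂ k, {f | tp k q0 *ᵥ (RR k f) = RR k f} := by
    ext f
    simp [Rel]
  rw [this]
  refine isClosed_iInter (fun k => ?_)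
  have hc : Continuous (fun f : C(unitInterval, ℝ) => RR k f) := by
    refine continuous_pi (fun x => ?_)
    exact continuous_eval_const (xp (enc k x))
  exact isClosed_eq (Continuous.matrix_mulVec continuous_const hc) hc

theorem EE_mem_Rel {k : ℕ} {a : (Fin k → Fin 3) → ℝ} (h : tp k q0 *ᵥ a = a) : EE k a ∈ Rel := by
  intro l
  by_cases hkl : k = l
  · subst hkl
    rw [RR_EE, h]
  · rw [RR_EE_ne hkl, Matrix.mulVec_zero]

end Pool.Agent.X197.Osc
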