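import Pool.Agent.X197.OscB

open Filter Topology Matrix

namespace Pool.Agent.X197.Osc

theorem geom_sum : HasSum (fun n : ℕ => (1 / 4 : ℝ) ^ n) (4 / 3) := by
  have := hasSum_geometric_of_lt_one (r := (1 / 4 : ℝ)) (by norm_num) (by norm_num)
  convert this using 1
  norm_num

theorem JJ_summable {J : ℕ → C(unitInterval, ℝ) →L[ℝ] C(unitInterval, ℝ)}
    (hJn : ∀ n f, ‖J n f‖ ≤ ‖f‖) (f : C(unitInterval, ℝ)) :
    Summable (fun n => ((1 / 4 : ℝ) ^ n) • J n f) := by
  refine Summable.of_norm_bounded (geom_sum.mul_right ‖f‖).summable (fun n => ?_)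
  rw [norm_smul, Real.norm_of_nonneg (by positivity)]
  exact mul_le_mul_of_nonneg_left (hJn n f) (by positivity)

/-- The combined operator. -/
noncomputable def JJ (J : ℕ → C(unitInterval, ℝ) →L[ℝ] C(unitInterval, ℝ))
    (hJn : ∀ n f, ‖J n f‖ ≤ ‖f‖) :
    C(unitInterval, ℝ) →L[ℝ] C(unitInterval, ℝ) :=
  LinearMap.mkContinuous
    { toFun := fun f => ∑' n, ((1 / 4 : ℝ) ^ n) • J n f
      map_add' := fun f g => by
        rw [← (JJ_summable hJn f).tsum_add (JJ_summable hJn g)]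
        congr 1
        ext1 n
        rw [map_add, smul_add]
      map_smul' := fun c f => by
        rw [RingHom.id_apply, ← (JJ_summable hJn f).tsum_const_smul c]
        congr 1
        ext1 n
        rw [map_smul, smul_comm] }
    (4 / 3) (fun f => by
      refine (JJ_summable hJn f).hasSum.norm_le_of_bounded (geom_sum.mul_right ‖f‖) (fun n => ?_)
      rw [norm_smul, Real.norm_of_nonneg (by positivity)]
      exact mul_le_mul_of_nonneg_left (hJn n f) (by positivity))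

theorem JJ_hasSum {J : ℕ → C(unitInterval, ℝ) →L[ℝ] C(unitInterval, ℝ)}
    (hJn : ∀ n f, ‖J n f‖ ≤ ‖f‖) (f : C(unitInterval, ℝ)) :
    HasSum (fun n => ((1 / 4 : ℝ) ^ n) • J n f) (JJ J hJn f) :=
  (JJ_summable hJn f).hasSum

theorem JJ_hasSum_apply {J : ℕ → C(unitInterval, ℝ) →L[ℝ] C(unitInterval, ℝ)}
    (hJn : ∀ n f, ‖J n f‖ ≤ ‖f‖) (f : C(unitInterval, ℝ)) (s : unitInterval) :
    HasSum (fun n => ((1 / 4 : ℝ) ^ n) * J n f s) (JJ J hJn f s) := by
  have := (ContinuousMap.evalCLM ℝ s).hasSum (JJ_hasSum hJn f)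
  exact this

theorem JJ_upper {J : ℕ → C(unitInterval, ℝ) →L[ℝ] C(unitInterval, ℝ)}
    (hJn : ∀ n f, ‖J n f‖ ≤ ‖f‖) (f : C(unitInterval, ℝ)) :
    ‖JJ J hJn f‖ ≤ 4 / 3 * ‖f‖ := by
  refine (JJ_hasSum hJn f).norm_le_of_bounded (geom_sum.mul_right ‖f‖) (fun n => ?_)
  rw [norm_smul, Real.norm_of_nonneg (by positivity)]
  exact mul_le_mul_of_nonneg_left (hJn n f) (by positivity)

theorem JJ_lower {J : ℕ → C(unitInterval, ℝ) →L[ℝ] C(unitInterval, ℝ)}
    (hJn : ∀ n f, ‖J n f‖ ≤ ‖f‖) (f : C(unitInterval, ℝ)) (h0 : ‖f‖ ≤ ‖J 0 f‖) :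
    ‖f‖ ≤ 3 / 2 * ‖JJ J hJn f‖ := by
  have h1 := (hasSum_nat_add_iff' 1).mpr (JJ_hasSum hJn f)
  have h2 := (hasSum_nat_add_iff' 1).mpr (geom_sum.mul_right ‖f‖)
  have h3 := h1.norm_le_of_bounded h2 (fun n => by
    rw [norm_smul, Real.norm_of_nonneg (by positivity)]
    exact mul_le_mul_of_nonneg_left (hJn _ f) (by positivity))
  simp only [Finset.sum_range_one, pow_zero, one_smul, one_mul] at h3
  have h4 : ‖J 0 f‖ ≤ ‖JJ J hJn f‖ + ‖JJ J hJn f - J 0 f‖ := by
    have := norm_sub_le (JJ J hJn f) (JJ J hJn f - J 0 f)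
    simpa using this
  linarith

/-- `X` is complemented: it is the range of a bounded linear projection. -/
def Complemented (X : Submodule ℝ C(unitInterval, ℝ)) : Prop :=
  ∃ P : C(unitInterval, ℝ) →L[ℝ] C(unitInterval, ℝ),
    (∀ f, P (P f) = P f) ∧ Set.range P = (X : Set C(unitInterval, ℝ))

theorem main_abstract (M : Set unitInterval) (W : Submodule ℝ C(unitInterval, ℝ))
    (hW : IsClosed (W : Set C(unitInterval, ℝ)))
    (J : ℕ → C(unitInterval, ℝ) →L[ℝ] C(unitInterval, ℝ))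
    (hJn : ∀ n f, ‖J n f‖ ≤ ‖f‖)
    (hJp : ∀ n (f : C(unitInterval, ℝ)), (∀ s, 0 ≤ f s) → ∀ s, 0 ≤ J n f s)
    (hJ0 : ∀ f ∈ W, ‖f‖ ≤ ‖J 0 f‖)
    (K : ℕ → Set unitInterval) (hKM : ∀ n, K n ⊆ M) (hMK : ∀ t ∈ M, ∃ n, t ∈ K (n + 1))
    (hi : ∀ n, ∀ t ∉ K n, ∀ ε > 0, ∃ δ > 0, ∀ f ∈ W, ‖f‖ ≤ 1 → ∀ s ∈ nb t δ,
      |J n f s - J n f t| ≤ ε)
    (hii : ∀ n, ∀ t ∈ K (n + 1), ∀ d > 0, ∃ w : ℕ → C(unitInterval, ℝ),
      (∀ k, w k ∈ W) ∧ (∀ k s, 0 ≤ w k s) ∧ (∀ k, ‖w k‖ ≤ 1) ∧
      ∃ s' ∈ nb t d, (∀ m, Tendsto (fun k => J m (w k) s') atTop (𝓝 0)) ∧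
        ∀ᶠ k in atTop, ∃ s ∈ nb t d, 1 ≤ J (n + 1) (w k) s)
    (hE : ∀ k (a : (Fin k → Fin 3) → ℝ), tp k q0 *ᵥ a = a → EE k a ∈ W)
    (hR : ∀ k, ∀ f ∈ W, tp k q0 *ᵥ (RR k f) = RR k f) :
    ∃ X : Submodule ℝ C(unitInterval, ℝ), IsClosed (X : Set C(unitInterval, ℝ)) ∧
      ¬ Complemented X ∧ Om X = M := by
  have : CompleteSpace W := hW.completeSpace_coe
  set J' : W →L[ℝ] C(unitInterval, ℝ) := (JJ J hJn).comp W.subtypeL with hJ'
  have hJ'a : ∀ w : W, J' w = JJ J hJn (w : C(unitInterval, ℝ)) := fun w => rfl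
  have hlow : ∀ w : W, ‖w‖ ≤ 3 / 2 * ‖J' w‖ := fun w =>
    JJ_lower hJn _ (hJ0 _ w.2)
  have hanti : AntilipschitzWith (3 / 2) J' := by
    refine AddMonoidHomClass.antilipschitz_of_bound J' (fun w => ?_)
    have := hlow w
    simpa using this
  have hinj : Function.Injective (J' : W →ₗ[ℝ] C(unitInterval, ℝ)) := hanti.injective
  set X : Submodule ℝ C(unitInterval, ℝ) :=
    LinearMap.range (J' : W →ₗ[ℝ] C(unitInterval, ℝ)) with hX
  have hXc : IsClosed (X : Set C(unitInterval, ℝ)) := by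
    have := hanti.isClosed_range J'.uniformContinuous
    exact this
  refine ⟨X, hXc, ?_, ?_⟩
  · -- non complemented
    rintro ⟨P, hPP, hPr⟩
    have hPX : ∀ f, P f ∈ X := fun f => by
      have : P f ∈ Set.range P := ⟨f, rfl⟩
      rw [hPr] at this
      exact this
    have hP : ∀ f ∈ X, P f = f := fun f hf => by
      have : f ∈ Set.range P := by rw [hPr]; exact hf
      obtain ⟨g, rfl⟩ := this
      exact hPP g
    let P1 : C(unitInterval, ℝ) →ₗ[ℝ] X :=
      LinearMap.codRestrict X (P : C(unitInterval, ℝ) →ₗ[ℝ] C(unitInterval, ℝ)) hPX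
    have hP1 : ∀ f, ((P1 f : X) : C(unitInterval, ℝ)) = P f := fun f => rfl
    let e := LinearEquiv.ofInjective (J' : W →ₗ[ℝ] C(unitInterval, ℝ)) hinj
    have he : ∀ w : W, ((e w : X) : C(unitInterval, ℝ)) = JJ J hJn (w : C(unitInterval, ℝ)) :=
      fun w => rfl
    have hes : ∀ g : X, ‖e.symm g‖ ≤ 3 / 2 * ‖g‖ := by
      intro g
      have h1 := hlow (e.symm g)
      have h2 : J' (e.symm g) = (g : C(unitInterval, ℝ)) := by
        have : ((e (e.symm g) : X) : C(unitInterval, ℝ)) = g := by rw [e.apply_symm_apply]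
        exact this
      rw [h2] at h1
      exact h1
    obtain ⟨k, hk⟩ := pow_unbounded_of_one_lt (2 * ‖P‖) (show (1 : ℝ) < 4 / 3 by norm_num)
    let T : (((Fin k → Fin 3) → ℝ)) →ₗ[ℝ] (((Fin k → Fin 3) → ℝ)) :=
      (RR k) ∘ₗ W.subtype ∘ₗ (e.symm : X →ₗ[ℝ] W) ∘ₗ P1 ∘ₗ
        (JJ J hJn : C(unitInterval, ℝ) →ₗ[ℝ] C(unitInterval, ℝ)) ∘ₗ (EE k)
    have hT : ∀ a, T a = RR k ((e.symm (P1 (JJ J hJn (EE k a))) : W) : C(unitInterval, ℝ)) :=
      fun a => rfl
    have := proj_bound k T (2 * ‖P‖) ?_ ?_ ?_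
    · linarith
    · intro a
      rw [hT]
      exact hR k _ (e.symm (P1 (JJ J hJn (EE k a)))).2
    · intro a ha
      rw [hT]
      have h1 : EE k a ∈ W := hE k a ha
      have h2 : P1 (JJ J hJn (EE k a)) = e ⟨EE k a, h1⟩ := by
        apply Subtype.ext
        rw [hP1]
        have : JJ J hJn (EE k a) = ((e ⟨EE k a, h1⟩ : X) : C(unitInterval, ℝ)) := rfl
        rw [this]
        exact hP _ (e ⟨EE k a, h1⟩).2
      rw [h2, e.symm_apply_apply]
      exact RR_EE k a
    · intro a A ha x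
      rw [hT, RR_apply]
      have hA := EE_norm ha
      have h1 := ((e.symm (P1 (JJ J hJn (EE k a))) : W) : C(unitInterval, ℝ)).norm_coe_le_norm
        (xp (enc k x))
      rw [Real.norm_eq_abs] at h1
      have h2 := hes (P1 (JJ J hJn (EE k a)))
      have h2' : ‖P1 (JJ J hJn (EE k a))‖ = ‖P (JJ J hJn (EE k a))‖ := rfl
      rw [h2'] at h2
      have h3 := P.le_opNorm (JJ J hJn (EE k a))
      have h4 := JJ_upper hJn (EE k a)
      have h5 : ‖P‖ * ‖JJ J hJn (EE k a)‖ ≤ ‖P‖ * (4 / 3 * A) :=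
        mul_le_mul_of_nonneg_left (by linarith) (ContinuousLinearMap.opNorm_nonneg P)
      have h6 : ‖((e.symm (P1 (JJ J hJn (EE k a))) : W) : C(unitInterval, ℝ))‖ =
        ‖e.symm (P1 (JJ J hJn (EE k a)))‖ := rfl
      rw [h6] at h1
      nlinarith
  · ext t
    constructor
    · intro ht
      by_contra htM
      refine absurd ht (not_lt.mpr (Gam_le (fun a ha => ?_)))
      have hδ : ∀ N : ℕ, ∃ δ > 0, ∀ n < N, ∀ f ∈ W, ‖f‖ ≤ 1 → ∀ s ∈ nb t δ,
          |J n f s - J n f t| ≤ a / 8 := by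
        intro N
        induction N with
        | zero => exact ⟨1, one_pos, fun n hn => absurd hn (Nat.not_lt_zero n)⟩
        | succ N ih =>
          obtain ⟨δ1, h1, h2⟩ := ih
          obtain ⟨δ2, h3, h4⟩ := hi N t (fun h => htM (hKM N h)) (a / 8) (by positivity)
          refine ⟨min δ1 δ2, lt_min h1 h3, ?_⟩
          intro n hn f hf hf1 s hs
          rcases Nat.lt_succ_iff_lt_or_eq.mp hn with h | h
          · exact h2 n h f hf hf1 s (le_trans (show |(s : ℝ) - t| ≤ _ from hs) (min_le_left _ _))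
          · subst h
            exact h4 f hf hf1 s (le_trans (show |(s : ℝ) - t| ≤ _ from hs) (min_le_right _ _))
      obtain ⟨N, hN⟩ := exists_pow_lt_of_lt_one (show 0 < a / 16 by positivity)
        (show (1 / 4 : ℝ) < 1 by norm_num)
      obtain ⟨δ, hδ0, hδ1⟩ := hδ N
      refine ⟨δ, hδ0, ?_⟩
      rintro f ⟨w, rfl⟩ hf
      have hw : ‖(w : C(unitInterval, ℝ))‖ ≤ 3 / 2 := by
        have := hlow w
        have h2 : ‖J' w‖ = 1 := hf
        rw [h2, mul_one] at this
        exact this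
      have key : ∀ s ∈ nb t δ, |JJ J hJn (w : C(unitInterval, ℝ)) s -
          JJ J hJn (w : C(unitInterval, ℝ)) t| ≤ a / 2 := by
        intro s hs
        have h1 := (JJ_hasSum_apply hJn (w : C(unitInterval, ℝ)) s).sub
          (JJ_hasSum_apply hJn (w : C(unitInterval, ℝ)) t)
        have h2 := (hasSum_nat_add_iff' N).mpr h1
        have h3 : ∀ n, |J n (w : C(unitInterval, ℝ)) s - J n (w : C(unitInterval, ℝ)) t| ≤ 3 := by
          intro n
          have := abs_sub_le_two (J n (w : C(unitInterval, ℝ))) s t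
          have h4 := hJn n (w : C(unitInterval, ℝ))
          linarith
        have h4 : ∀ n < N, |J n (w : C(unitInterval, ℝ)) s - J n (w : C(unitInterval, ℝ)) t| ≤
            3 / 2 * (a / 8) := by
          intro n hn
          have h5 := hδ1 n hn ((2 / 3 : ℝ) • (w : C(unitInterval, ℝ))) (W.smul_mem _ w.2)
            (by rw [norm_smul, Real.norm_of_nonneg (by norm_num)]; linarith) s hs
          rw [map_smul] at h5
          have h6 : ((2 / 3 : ℝ) • J n (w : C(unitInterval, ℝ))) s -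
              ((2 / 3 : ℝ) • J n (w : C(unitInterval, ℝ))) t =
              (2 / 3 : ℝ) * (J n (w : C(unitInterval, ℝ)) s - J n (w : C(unitInterval, ℝ)) t) := by
            simp only [ContinuousMap.smul_apply, smul_eq_mul]
            ring
          rw [h6, abs_mul, abs_of_pos (by norm_num : (0 : ℝ) < 2 / 3)] at h5
          linarith
        have h5 := h2.norm_le_of_bounded ((geom_sum.mul_left ((1 / 4 : ℝ) ^ N)).mul_left 3)
          (fun n => by
            rw [Real.norm_eq_abs, ← mul_sub, abs_mul, abs_of_nonneg (by positivity), pow_add]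
            have h6 := h3 (n + N)
            have h7 : (0 : ℝ) ≤ (1 / 4) ^ n * (1 / 4) ^ N := by positivity
            nlinarith)
        rw [Real.norm_eq_abs] at h5
        have h6 : |∑ i ∈ Finset.range N, ((1 / 4 : ℝ) ^ i * J i (w : C(unitInterval, ℝ)) s -
            (1 / 4 : ℝ) ^ i * J i (w : C(unitInterval, ℝ)) t)| ≤ a / 4 := by
          calc _ ≤ ∑ i ∈ Finset.range N, |((1 / 4 : ℝ) ^ i * J i (w : C(unitInterval, ℝ)) s -
                (1 / 4 : ℝ) ^ i * J i (w : C(unitInterval, ℝ)) t)| := Finset.abs_sum_le_sum_abs _ _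
            _ ≤ ∑ i ∈ Finset.range N, (1 / 4 : ℝ) ^ i * (3 / 2 * (a / 8)) := by
                refine Finset.sum_le_sum (fun i hi => ?_)
                rw [← mul_sub, abs_mul, abs_of_nonneg (by positivity : (0 : ℝ) ≤ (1 / 4) ^ i)]
                exact mul_le_mul_of_nonneg_left (h4 i (Finset.mem_range.mp hi)) (by positivity)
            _ ≤ 4 / 3 * (3 / 2 * (a / 8)) :=
                sum_le_hasSum _ (fun i _ => by positivity) (geom_sum.mul_right _)
            _ = a / 4 := by ring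
        have h7 := abs_add_le (JJ J hJn (w : C(unitInterval, ℝ)) s - JJ J hJn (w : C(unitInterval, ℝ)) t -
          ∑ i ∈ Finset.range N, ((1 / 4 : ℝ) ^ i * J i (w : C(unitInterval, ℝ)) s -
            (1 / 4 : ℝ) ^ i * J i (w : C(unitInterval, ℝ)) t))
          (∑ i ∈ Finset.range N, ((1 / 4 : ℝ) ^ i * J i (w : C(unitInterval, ℝ)) s -
            (1 / 4 : ℝ) ^ i * J i (w : C(unitInterval, ℝ)) t))
        rw [sub_add_cancel] at h7
        linarith
      refine osc_le ha.le (fun s hs s' hs' => ?_)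
      have h1 := key s hs
      have h2 := key s' hs'
      have h3 := abs_sub_le (JJ J hJn (w : C(unitInterval, ℝ)) s) (JJ J hJn (w : C(unitInterval, ℝ)) t)
        (JJ J hJn (w : C(unitInterval, ℝ)) s')
      rw [abs_sub_comm] at h2
      have h4 : |(J' : W →ₗ[ℝ] C(unitInterval, ℝ)) w s - (J' : W →ₗ[ℝ] C(unitInterval, ℝ)) w s'| =
        |JJ J hJn (w : C(unitInterval, ℝ)) s - JJ J hJn (w : C(unitInterval, ℝ)) s'| := rfl
      rw [h4]
      linarith
    · intro ht
      obtain ⟨n, hn⟩ := hMK t ht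
      refine Gam_pos (a := (1 / 4 : ℝ) ^ (n + 1) / 4) (by positivity) (fun d hd => ?_)
      set c : ℝ := (1 / 4 : ℝ) ^ (n + 1) with hc
      have hc0 : 0 < c := by positivity
      obtain ⟨w, hwW, hw0, hw1, s', hs', htend, hev⟩ := hii n t hn d hd
      have h1 : Tendsto (fun k => JJ J hJn (w k) s') atTop (𝓝 0) := by
        have h2 : ∀ k, JJ J hJn (w k) s' = ∑' m, (1 / 4 : ℝ) ^ m * J m (w k) s' := fun k =>
          (JJ_hasSum_apply hJn (w k) s').tsum_eq.symm
        simp only [h2]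
        have h3 : (0 : ℝ) = ∑' _m : ℕ, (0 : ℝ) := tsum_zero.symm
        rw [h3]
        refine tendsto_tsum_of_dominated_convergence (bound := fun m => (1 / 4 : ℝ) ^ m)
          geom_sum.summable ?_ ?_
        · intro m
          have := (htend m).const_mul ((1 / 4 : ℝ) ^ m)
          rwa [mul_zero] at this
        · refine Filter.Eventually.of_forall (fun k m => ?_)
          rw [norm_mul, Real.norm_of_nonneg (by positivity)]
          have h4 := (J m (w k)).norm_coe_le_norm s'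
          have h5 := hJn m (w k)
          have h6 := hw1 k
          calc (1 / 4 : ℝ) ^ m * ‖J m (w k) s'‖ ≤ (1 / 4 : ℝ) ^ m * 1 :=
                mul_le_mul_of_nonneg_left (by linarith) (by positivity)
            _ = (1 / 4 : ℝ) ^ m := mul_one _
      have h2 : ∀ᶠ k in atTop, JJ J hJn (w k) s' < c / 2 :=
        h1.eventually_lt_const (by positivity)
      obtain ⟨k, hk1, s, hs, hk2⟩ := (h2.and hev).exists
      have h3 : c ≤ JJ J hJn (w k) s := by
        have h4 := le_hasSum (JJ_hasSum_apply hJn (w k) s) (n + 1)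
          (fun j _ => mul_nonneg (by positivity) (hJp j _ (hw0 k) s))
        have h5 : c * 1 ≤ c * J (n + 1) (w k) s := mul_le_mul_of_nonneg_left hk2 hc0.le
        linarith
      set g := JJ J hJn (w k) with hg
      have hg1 : ‖g‖ ≤ 4 / 3 := by
        have := JJ_upper hJn (w k)
        have h6 := hw1 k
        linarith
      have hg0 : 0 < ‖g‖ := by
        have := g.norm_coe_le_norm s
        rw [Real.norm_eq_abs] at this
        have h6 := le_abs_self (g s)
        linarith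
      refine ⟨‖g‖⁻¹ • g, X.smul_mem _ ⟨⟨w k, hwW k⟩, rfl⟩, ?_, ?_⟩
      · rw [norm_smul, norm_inv, norm_norm, inv_mul_cancel₀ hg0.ne']
      · refine lt_of_lt_of_le ?_ (le_osc hs hs')
        have h7 : (‖g‖⁻¹ • g) s - (‖g‖⁻¹ • g) s' = ‖g‖⁻¹ * (g s - g s') := by
          simp only [ContinuousMap.smul_apply, smul_eq_mul]
          ring
        rw [h7, abs_mul, abs_of_pos (inv_pos.mpr hg0)]
        have h8 : (3 / 4 : ℝ) ≤ ‖g‖⁻¹ := by
          rw [le_inv_comm₀ (by norm_num) hg0]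
          linarith
        have h9 : c / 2 ≤ |g s - g s'| := by
          have := le_abs_self (g s - g s')
          linarith
        have h10 : (3 / 4 : ℝ) * (c / 2) ≤ ‖g‖⁻¹ * |g s - g s'| :=
          mul_le_mul h8 h9 (by positivity) (by positivity)
        linarith

end Pool.Agent.X197.Osc
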