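import Pool.Agent.X197.OscC

open Filter Topology Matrix

namespace Pool.Agent.X197.Osc

/-- Composition with a continuous self map of `[0,1]`. -/
noncomputable def compOp (g : C(unitInterval, unitInterval)) :
    C(unitInterval, ℝ) →L[ℝ] C(unitInterval, ℝ) :=
  LinearMap.mkContinuous
    { toFun := fun f => f.comp g
      map_add' := fun _ _ => rfl
      map_smul' := fun _ _ => rfl }
    1 (fun f => by
      rw [one_mul]
      exact (ContinuousMap.norm_le _ (norm_nonneg f)).mpr (fun s => f.norm_coe_le_norm (g s)))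

theorem compOp_apply (g : C(unitInterval, unitInterval)) (f : C(unitInterval, ℝ))
    (s : unitInterval) : compOp g f s = f (g s) := rfl

theorem compOp_norm (g : C(unitInterval, unitInterval)) (f : C(unitInterval, ℝ)) :
    ‖compOp g f‖ ≤ ‖f‖ :=
  (ContinuousMap.norm_le _ (norm_nonneg f)).mpr (fun s => f.norm_coe_le_norm (g s))

theorem infDist_le_one (s : unitInterval) (K : Set unitInterval) : Metric.infDist s K ≤ 1 := by
  rcases K.eq_empty_or_nonempty with h | ⟨x, hx⟩
  · rw [h, Metric.infDist_empty]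
    exact zero_le_one
  · refine (Metric.infDist_le_dist_of_mem hx).trans ?_
    rw [Subtype.dist_eq, Real.dist_eq, abs_le]
    constructor <;> linarith [s.2.1, s.2.2, x.2.1, x.2.2]

/-- The distance to `K`. -/
noncomputable def rho (K : Set unitInterval) : C(unitInterval, unitInterval) :=
  ⟨fun s => ⟨Metric.infDist s K, Metric.infDist_nonneg, infDist_le_one s K⟩,
    (Metric.continuous_infDist_pt K).subtype_mk _⟩

theorem rho_coe (K : Set unitInterval) (s : unitInterval) :
    ((rho K s : unitInterval) : ℝ) = Metric.infDist s K := rfl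

/-- Functions of hat form. -/
noncomputable def WA : Submodule ℝ C(unitInterval, ℝ) where
  carrier := {f | ∀ (N : ℕ) (r : unitInterval), 1 / 4 * (1 / 2 : ℝ) ^ N ≤ r →
    f r = ∑ j ∈ Finset.range (N + 1), f (xp j) * hat j r}
  add_mem' := by
    intro f g hf hg N r hr
    simp only [ContinuousMap.add_apply, add_mul, Finset.sum_add_distrib]
    rw [← hf N r hr, ← hg N r hr]
  zero_mem' := by
    intro N r hr
    simp
  smul_mem' := by
    intro c f hf N r hr
    simp only [ContinuousMap.smul_apply, smul_eq_mul, mul_assoc, ← Finset.mul_sum]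
    rw [← hf N r hr]

theorem WA_closed : IsClosed (WA : Set C(unitInterval, ℝ)) := by
  have : (WA : Set C(unitInterval, ℝ)) = ⋂ (N : ℕ), ⋂ (r : unitInterval),
      ⋂ (_ : 1 / 4 * (1 / 2 : ℝ) ^ N ≤ r),
      {f | f r = ∑ j ∈ Finset.range (N + 1), f (xp j) * hat j r} := by
    ext f
    simp only [Set.mem_iInter, Set.mem_ofPred_eq]
    exact Iff.rfl
  rw [this]
  refine isClosed_iInter (fun N => isClosed_iInter (fun r => isClosed_iInter (fun _ => ?_)))
  refine isClosed_eq (continuous_eval_const r) ?_
  refine continuous_finsetSum _ (fun j _ => ?_)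
  exact (continuous_eval_const (xp j)).mul continuous_const

theorem hat_xp_self (j : ℕ) : hat j (xp j) = 1 := hat_peak j

theorem hat_xp_ne {j l : ℕ} (h : j ≠ l) : hat j (xp l) = 0 := by
  by_contra hcon
  exact h (hat_disj hcon (by rw [hat_xp_self]; exact one_ne_zero))

theorem EE_prod {k : ℕ} (a : (Fin k → Fin 3) → ℝ) {r : unitInterval} {j : ℕ}
    (h : hat j r ≠ 0) : EE k a r = EE k a (xp j) * hat j r := by
  rw [EE_apply, EE_apply, Finset.sum_mul]
  refine Finset.sum_congr rfl (fun x _ => ?_)
  by_cases hx : enc k x = j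
  · rw [hx, hat_xp_self]
    ring
  · rw [hat_xp_ne hx]
    have : hat (enc k x) r = 0 := by
      by_contra hcon
      exact hx (hat_disj hcon h)
    rw [this]
    ring

theorem EE_mem_WA {k : ℕ} (a : (Fin k → Fin 3) → ℝ) : EE k a ∈ WA := by
  intro N r hr
  by_cases hj : ∃ j, hat j (r : ℝ) ≠ 0
  · obtain ⟨j, hj⟩ := hj
    have h1 := (hat_ne hj).2
    have hjN : j ∈ Finset.range (N + 1) := by
      rw [Finset.mem_range]
      by_contra hcon
      push Not at hcon
      have h2 : (2 : ℝ) ^ (N + 1) ≤ 2 ^ j := pow_le_pow_right₀ (by norm_num) hcon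
      have h3 : (2 : ℝ) ^ N * (1 / 2) ^ N = 1 := by rw [← mul_pow]; norm_num
      have h4 : (2 : ℝ) ^ (N + 1) * (1 / 4 * (1 / 2) ^ N) ≤ 2 ^ j * r :=
        mul_le_mul h2 hr (by positivity) (by positivity)
      have h5 : (2 : ℝ) ^ (N + 1) * (1 / 4 * (1 / 2) ^ N) = 1 / 2 := by
        rw [pow_succ]
        linear_combination (1 / 2 : ℝ) * h3
      linarith
    rw [Finset.sum_eq_single j, EE_prod a hj]
    · intro l _ hl
      have : hat l (r : ℝ) = 0 := by
        by_contra hcon
        exact hl (hat_disj hcon hj)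
      rw [this, mul_zero]
    · intro h
      exact absurd hjN h
  · push Not at hj
    rw [EE_eq_zero a (fun x => hj _)]
    symm
    exact Finset.sum_eq_zero (fun j _ => by rw [hj j, mul_zero])

/-- The nonnegative elements of block `k`. -/
noncomputable def pk (k : ℕ) : (Fin k → Fin 3) → ℝ := fun x => ∏ i, pv (x i)

theorem pk_nonneg (k : ℕ) (x : Fin k → Fin 3) : 0 ≤ pk k x :=
  Finset.prod_nonneg (fun _ _ => pv_nonneg _)

theorem pk_le (k : ℕ) (x : Fin k → Fin 3) : pk k x ≤ 1 :=
  Finset.prod_le_one (fun _ _ => pv_nonneg _) (fun _ _ => pv_le _)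

theorem EE_pk_tendsto (r : unitInterval) : Tendsto (fun k => EE k (pk k) r) atTop (𝓝 0) := by
  have hsub : Set.Subsingleton {k | EE k (pk k) r ≠ 0} := by
    intro k hk l hl
    have h1 : ∃ x, hat (enc k x) (r : ℝ) ≠ 0 := by
      by_contra hcon
      push Not at hcon
      exact hk (EE_eq_zero _ hcon)
    have h2 : ∃ x, hat (enc l x) (r : ℝ) ≠ 0 := by
      by_contra hcon
      push Not at hcon
      exact hl (EE_eq_zero _ hcon)
    obtain ⟨x, hx⟩ := h1
    obtain ⟨y, hy⟩ := h2
    exact congrArg Sigma.fst (enc_inj (hat_disj hx hy))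
  have hev : ∀ᶠ k in atTop, EE k (pk k) r = 0 := by
    have := hsub.finite.eventually_cofinite_notMem
    rw [Nat.cofinite_eq_atTop] at this
    filter_upwards [this] with k hk
    by_contra hcon
    exact hk hcon
  exact tendsto_const_nhds.congr' (hev.mono (fun k hk => hk.symm))

theorem enc_tendsto : Tendsto (fun k => enc k (fun _ => 0)) atTop atTop := by
  apply Function.Injective.nat_tendsto_atTop
  intro k l h
  exact congrArg Sigma.fst (enc_inj h)

theorem exists_dist {t s0 : unitInterval} {K : Set unitInterval} (ht : t ∈ K) {x d : ℝ}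
    (hx0 : 0 ≤ x) (hx : x ≤ Metric.infDist s0 K) (hs0 : s0 ∈ nb t d) :
    ∃ s ∈ nb t d, Metric.infDist s K = x := by
  let g : ℝ → ℝ := fun u => Metric.infDist (Set.projIcc (0 : ℝ) 1 zero_le_one u) K
  have hg : Continuous g := (Metric.continuous_infDist_pt K).comp continuous_projIcc
  have h1 : g t = 0 := by
    simp only [g]
    rw [Set.projIcc_val]
    exact Metric.infDist_zero_of_mem ht
  have h2 : g s0 = Metric.infDist s0 K := by
    simp only [g]
    rw [Set.projIcc_val]
  have h3 := intermediate_value_uIcc (f := g) (a := (t : ℝ)) (b := (s0 : ℝ)) hg.continuousOn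
  have h4 : x ∈ Set.uIcc (g t) (g s0) := by
    rw [h1, h2, Set.mem_uIcc]
    exact Or.inl ⟨hx0, hx⟩
  obtain ⟨u, hu, hux⟩ := h3 h4
  have hu01 : 0 ≤ u ∧ u ≤ 1 := by
    rcases Set.mem_uIcc.mp hu with h | h
    · exact ⟨t.2.1.trans h.1, h.2.trans s0.2.2⟩
    · exact ⟨s0.2.1.trans h.1, h.2.trans t.2.2⟩
  refine ⟨⟨u, hu01⟩, ?_, ?_⟩
  · have hs0' : |(s0 : ℝ) - t| ≤ d := hs0
    show |u - t| ≤ d
    rcases Set.mem_uIcc.mp hu with h | h
    · rw [abs_le] at hs0' ⊢
      constructor <;> linarith [h.1, h.2]
    · rw [abs_le] at hs0' ⊢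
      constructor <;> linarith [h.1, h.2]
  · have : Set.projIcc (0 : ℝ) 1 zero_le_one u = ⟨u, hu01⟩ :=
      Set.projIcc_of_mem zero_le_one hu01
    rw [← this]
    exact hux

theorem case_A (M : Set unitInterval) (hM : interior M = ∅) (t0 : unitInterval) (ht0 : t0 ∈ M)
    (C : ℕ → Set unitInterval) (hC : ∀ n, IsClosed (C n)) (hCM : M = ⋃ n, C n) :
    ∃ X : Submodule ℝ C(unitInterval, ℝ), IsClosed (X : Set C(unitInterval, ℝ)) ∧
      ¬ Complemented X ∧ Om X = M := by
  let K : ℕ → Set unitInterval := fun n => match n with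
    | 0 => {t0}
    | n + 1 => C n ∪ {t0}
  have hK0 : K 0 = {t0} := rfl
  have hKs : ∀ n, K (n + 1) = C n ∪ {t0} := fun n => rfl
  have hKt0 : ∀ n, t0 ∈ K n := by
    intro n
    cases n with
    | zero => exact rfl
    | succ n => exact Or.inr rfl
  have hKc : ∀ n, IsClosed (K n) := by
    intro n
    cases n with
    | zero => exact isClosed_singleton
    | succ n => exact (hC n).union isClosed_singleton
  have hKM : ∀ n, K n ⊆ M := by
    intro n
    cases n with
    | zero => rw [hK0]; exact Set.singleton_subset_iff.mpr ht0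
    | succ n =>
      rw [hKs]
      refine Set.union_subset ?_ (Set.singleton_subset_iff.mpr ht0)
      rw [hCM]
      exact Set.subset_iUnion C n
  refine main_abstract M (WA ⊓ Rel) (WA_closed.inter Rel_closed) (fun n => compOp (rho (K n)))
    (fun n f => compOp_norm _ f) (fun n f hf s => hf _) ?_ K hKM ?_ ?_ ?_ ?_ ?_
  · -- lower bound
    rintro f ⟨hf, -⟩
    rw [ContinuousMap.norm_le _ (norm_nonneg _)]
    intro r
    by_cases hr : (r : ℝ) ≤ 1 / 2
    · have : ∃ s : unitInterval, rho (K 0) s = r := by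
        rw [hK0]
        by_cases h0 : (t0 : ℝ) ≤ 1 / 2
        · refine ⟨⟨t0 + r, by linarith [t0.2.1, r.2.1], by linarith⟩, ?_⟩
          apply Subtype.ext
          rw [rho_coe, Metric.infDist_singleton, Subtype.dist_eq, Real.dist_eq]
          simp only [add_sub_cancel_left]
          exact abs_of_nonneg r.2.1
        · push Not at h0
          refine ⟨⟨t0 - r, by linarith, by linarith [t0.2.2, r.2.1]⟩, ?_⟩
          apply Subtype.ext
          rw [rho_coe, Metric.infDist_singleton, Subtype.dist_eq, Real.dist_eq]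
          simp only [sub_sub_cancel_left, abs_neg]
          exact abs_of_nonneg r.2.1
      obtain ⟨s, hs⟩ := this
      have h1 := (compOp (rho (K 0)) f).norm_coe_le_norm s
      rw [compOp_apply, hs] at h1
      exact h1
    · push Not at hr
      have h1 := hf 0 r (by rw [pow_zero]; linarith)
      have h2 : hat 0 (r : ℝ) = 0 := by
        by_contra hcon
        have := (hat_ne hcon).2
        rw [pow_zero, one_mul] at this
        linarith
      rw [h1]
      simp only [zero_add, Finset.sum_range_one, h2, mul_zero, norm_zero]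
      exact norm_nonneg _
  · -- covering
    intro t ht
    rw [hCM, Set.mem_iUnion] at ht
    obtain ⟨n, hn⟩ := ht
    exact ⟨n, Or.inl hn⟩
  · -- equicontinuity off K n
    intro n t ht ε hε
    have hρ : 0 < Metric.infDist t (K n) :=
      ((hKc n).notMem_iff_infDist_pos ⟨t0, hKt0 n⟩).mp ht
    obtain ⟨N, hN⟩ := exists_pow_lt_of_lt_one (show 0 < Metric.infDist t (K n) / 2 by positivity)
      (show (1 / 2 : ℝ) < 1 by norm_num)
    let φ : unitInterval → ℝ := fun s => ∑ j ∈ Finset.range (N + 1),
      |hat j (rho (K n) s) - hat j (rho (K n) t)|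
    have hφ : Continuous φ := by
      refine continuous_finsetSum _ (fun j _ => ?_)
      refine Continuous.abs (Continuous.sub ?_ continuous_const)
      exact (hat_continuous j).comp (continuous_subtype_val.comp (rho (K n)).continuous)
    have hφt : φ t = 0 := by
      simp [φ]
    obtain ⟨δ1, hδ1, h1⟩ := Metric.continuousAt_iff.mp hφ.continuousAt ε hε
    refine ⟨min (δ1 / 2) (Metric.infDist t (K n) / 2), by positivity, ?_⟩
    rintro f ⟨hf, -⟩ hf1 s hs
    have hs' : |(s : ℝ) - t| ≤ min (δ1 / 2) (Metric.infDist t (K n) / 2) := hs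
    have hs1 := hs'.trans (min_le_left _ _)
    have hs2 := hs'.trans (min_le_right _ _)
    have hst : dist s t = |(s : ℝ) - t| := by rw [Subtype.dist_eq, Real.dist_eq]
    have h2 := h1 (show dist s t < δ1 by rw [hst]; linarith)
    rw [hφt, Real.dist_eq, sub_zero] at h2
    have h3 : Metric.infDist t (K n) ≤ Metric.infDist s (K n) + dist t s :=
      Metric.infDist_le_infDist_add_dist
    rw [dist_comm, hst] at h3
    have hp : (1 / 4 : ℝ) * (1 / 2) ^ N ≤ Metric.infDist t (K n) / 2 := by
      have : (0 : ℝ) ≤ (1 / 2) ^ N := by positivity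
      linarith
    have h4 := hf N (rho (K n) s) (by rw [rho_coe]; linarith)
    have h5 := hf N (rho (K n) t) (by rw [rho_coe]; linarith)
    show |f (rho (K n) s) - f (rho (K n) t)| ≤ ε
    rw [h4, h5, ← Finset.sum_sub_distrib]
    refine (Finset.abs_sum_le_sum_abs _ _).trans ?_
    have h6 : ∑ j ∈ Finset.range (N + 1), |f (xp j) * hat j (rho (K n) s) -
        f (xp j) * hat j (rho (K n) t)| ≤ φ s := by
      refine Finset.sum_le_sum (fun j _ => ?_)
      rw [← mul_sub, abs_mul]
      have h7 : |f (xp j)| ≤ 1 := (f.norm_coe_le_norm (xp j)).trans hf1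
      exact mul_le_of_le_one_left (abs_nonneg _) h7
    exact h6.trans ((le_abs_self _).trans h2.le)
  · -- non-equicontinuity on K (n+1)
    intro n t ht d hd
    refine ⟨fun k => EE k (pk k), fun k => ⟨EE_mem_WA _, EE_mem_Rel (tp_pv k)⟩, ?_, ?_, t, ?_, ?_, ?_⟩
    · intro k s
      rw [EE_apply]
      exact Finset.sum_nonneg (fun x _ => mul_nonneg (pk_nonneg k x) (hat_nonneg _ _))
    · intro k
      exact EE_norm (fun x => by rw [abs_of_nonneg (pk_nonneg k x)]; exact pk_le k x)
    · show |(t : ℝ) - t| ≤ d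
      rw [sub_self, abs_zero]
      exact hd.le
    · intro m
      exact EE_pk_tendsto _
    · -- find a point of nb t d off K (n+1)
      have : ∃ s0 ∈ nb t d, s0 ∉ K (n + 1) := by
        by_contra hcon
        push Not at hcon
        have h1 : Metric.ball t d ⊆ M := by
          intro s hs
          refine hKM (n + 1) (hcon s ?_)
          rw [Metric.mem_ball, Subtype.dist_eq, Real.dist_eq] at hs
          exact hs.le
        have h2 : t ∈ interior M :=
          mem_interior.mpr ⟨_, h1, Metric.isOpen_ball, Metric.mem_ball_self hd⟩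
        rw [hM] at h2
        exact h2
      obtain ⟨s0, hs0, hs0K⟩ := this
      have hρ : 0 < Metric.infDist s0 (K (n + 1)) :=
        ((hKc (n + 1)).notMem_iff_infDist_pos ⟨t0, hKt0 (n + 1)⟩).mp hs0K
      have htend : Tendsto (fun k => 1 / 4 * (1 / 2 : ℝ) ^ (enc k (fun _ => 0))) atTop (𝓝 0) := by
        have h1 : Tendsto (fun j : ℕ => (1 / 4 : ℝ) * (1 / 2 : ℝ) ^ j) atTop (𝓝 0) := by
          have := (tendsto_pow_atTop_nhds_zero_of_lt_one (r := (1 / 2 : ℝ)) (by norm_num)
            (by norm_num)).const_mul (1 / 4 : ℝ)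
          rwa [mul_zero] at this
        exact h1.comp enc_tendsto
      filter_upwards [htend.eventually_lt_const hρ] with k hk
      obtain ⟨s, hs, hsx⟩ := exists_dist ht (by positivity) hk.le hs0
      refine ⟨s, hs, ?_⟩
      show 1 ≤ EE k (pk k) (rho (K (n + 1)) s)
      have h1 : rho (K (n + 1)) s = xp (enc k (fun _ => 0)) := by
        apply Subtype.ext
        rw [rho_coe, hsx]
        rfl
      rw [h1, ← RR_apply, RR_EE]
      simp [pk, pv]
  · intro k a ha
    exact ⟨EE_mem_WA a, EE_mem_Rel ha⟩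
  · rintro k f ⟨-, hf⟩
    exact hf k

end Pool.Agent.X197.Osc
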