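import Pool.Agent.X197.OscD

open Filter Topology Matrix MeasureTheory

namespace Pool.Agent.X197.Osc

/-- Extension of `f` to the real line. -/
noncomputable def ext (f : C(unitInterval, ℝ)) (x : ℝ) : ℝ :=
  f (Set.projIcc (0 : ℝ) 1 zero_le_one x)

theorem ext_continuous (f : C(unitInterval, ℝ)) : Continuous (ext f) :=
  f.continuous.comp continuous_projIcc

theorem ext_abs (f : C(unitInterval, ℝ)) (x : ℝ) : ‖ext f x‖ ≤ ‖f‖ := f.norm_coe_le_norm _

theorem inner_continuous (f : C(unitInterval, ℝ)) (K : Set unitInterval) :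
    Continuous (Function.uncurry (fun (s : unitInterval) (u : ℝ) =>
      ext f ((2 + s + u * Metric.infDist s K) / 4))) := by
  refine (ext_continuous f).comp ?_
  refine Continuous.div_const ?_ _
  refine Continuous.add (continuous_const.add (continuous_subtype_val.comp continuous_fst)) ?_
  exact continuous_snd.mul ((Metric.continuous_infDist_pt K).comp continuous_fst)

theorem inner_continuous' (f : C(unitInterval, ℝ)) (K : Set unitInterval) (s : unitInterval) :
    Continuous (fun u : ℝ => ext f ((2 + s + u * Metric.infDist s K) / 4)) := by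
  refine (ext_continuous f).comp ?_
  fun_prop

/-- Averages of `f` over intervals of length proportional to the distance to `K`. -/
noncomputable def avg (K : Set unitInterval) (f : C(unitInterval, ℝ)) : C(unitInterval, ℝ) :=
  ⟨fun s => ∫ u in (0 : ℝ)..1, ext f ((2 + s + u * Metric.infDist s K) / 4),
    intervalIntegral.continuous_parametric_intervalIntegral_of_continuous'
      (inner_continuous f K) 0 1⟩

theorem avg_apply (K : Set unitInterval) (f : C(unitInterval, ℝ)) (s : unitInterval) :
    avg K f s = ∫ u in (0 : ℝ)..1, ext f ((2 + s + u * Metric.infDist s K) / 4) := rfl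

theorem avg_norm (K : Set unitInterval) (f : C(unitInterval, ℝ)) : ‖avg K f‖ ≤ ‖f‖ := by
  refine (ContinuousMap.norm_le _ (norm_nonneg f)).mpr (fun s => ?_)
  rw [avg_apply]
  have := intervalIntegral.norm_integral_le_of_norm_le_const (a := (0 : ℝ)) (b := 1)
    (C := ‖f‖) (f := fun u => ext f ((2 + s + u * Metric.infDist s K) / 4))
    (fun u _ => ext_abs f _)
  simpa using this

/-- The averaging operator. -/
noncomputable def avgOp (K : Set unitInterval) : C(unitInterval, ℝ) →L[ℝ] C(unitInterval, ℝ) :=
  LinearMap.mkContinuous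
    { toFun := avg K
      map_add' := fun f g => by
        ext s
        rw [ContinuousMap.add_apply, avg_apply, avg_apply, avg_apply,
          ← intervalIntegral.integral_add ((inner_continuous' f K s).intervalIntegrable _ _)
            ((inner_continuous' g K s).intervalIntegrable _ _)]
        rfl
      map_smul' := fun c f => by
        ext s
        rw [RingHom.id_apply, ContinuousMap.smul_apply, avg_apply, avg_apply,
          ← intervalIntegral.integral_smul]
        rfl }
    1 (fun f => by
      rw [one_mul]
      exact avg_norm K f)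

theorem avgOp_apply (K : Set unitInterval) (f : C(unitInterval, ℝ)) (s : unitInterval) :
    avgOp K f s = ∫ u in (0 : ℝ)..1, ext f ((2 + s + u * Metric.infDist s K) / 4) := rfl

theorem avgOp_norm (K : Set unitInterval) (f : C(unitInterval, ℝ)) : ‖avgOp K f‖ ≤ ‖f‖ :=
  avg_norm K f

theorem avgOp_nonneg (K : Set unitInterval) (f : C(unitInterval, ℝ)) (hf : ∀ s, 0 ≤ f s)
    (s : unitInterval) : 0 ≤ avgOp K f s := by
  rw [avgOp_apply]
  exact intervalIntegral.integral_nonneg zero_le_one (fun u _ => hf _)

theorem avgOp_eq (K : Set unitInterval) (f : C(unitInterval, ℝ)) (s : unitInterval)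
    (hr : Metric.infDist s K ≠ 0) :
    avgOp K f s = (4 / Metric.infDist s K) *
      ∫ x in ((2 + (s : ℝ)) / 4)..((2 + s + Metric.infDist s K) / 4), ext f x := by
  rw [avgOp_apply]
  have h1 : (Metric.infDist s K / 4) ≠ 0 := by positivity
  have := intervalIntegral.integral_comp_mul_add (a := (0 : ℝ)) (b := 1) (ext f) h1
    ((2 + (s : ℝ)) / 4)
  rw [smul_eq_mul] at this
  have h2 : (fun u : ℝ => ext f ((2 + s + u * Metric.infDist s K) / 4)) =
      fun u => ext f (Metric.infDist s K / 4 * u + (2 + (s : ℝ)) / 4) := by
    ext1 u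
    congr 1
    ring
  rw [h2, this]
  congr 1
  · rw [inv_div]
  · congr 1
    · ring
    · ring

theorem integral_abs_le (f : C(unitInterval, ℝ)) (hf : ‖f‖ ≤ 1) (a b : ℝ) :
    |∫ x in a..b, ext f x| ≤ |b - a| := by
  have := intervalIntegral.norm_integral_le_of_norm_le_const (a := a) (b := b)
    (C := 1) (f := ext f) (fun u _ => (ext_abs f u).trans hf)
  simpa using this

theorem avg_equicont (K : Set unitInterval) (t : unitInterval) (hr : 0 < Metric.infDist t K)
    (ε : ℝ) (hε : 0 < ε) :
    ∃ δ > 0, ∀ f : C(unitInterval, ℝ), ‖f‖ ≤ 1 → ∀ s ∈ nb t δ,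
      |avgOp K f s - avgOp K f t| ≤ ε := by
  let r : unitInterval → ℝ := fun s => Metric.infDist s K
  have hrc : Continuous r := Metric.continuous_infDist_pt K
  let η : unitInterval → ℝ := fun s => |4 / r s - 4 / r t| * |(2 + s + r s) / 4 - (2 + (s : ℝ)) / 4| +
    (4 / r t) * (|(2 + (t : ℝ)) / 4 - (2 + (s : ℝ)) / 4| +
      |(2 + t + r t) / 4 - (2 + s + r s) / 4|)
  have hηc : ContinuousAt η t := by
    have h1 : ContinuousAt (fun s => 4 / r s) t :=
      continuousAt_const.div hrc.continuousAt hr.ne'
    have h2 : Continuous (fun s : unitInterval => (s : ℝ)) := continuous_subtype_val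
    refine ContinuousAt.add ?_ ?_
    · refine ContinuousAt.mul (ContinuousAt.abs (h1.sub continuousAt_const)) ?_
      refine Continuous.continuousAt ?_
      fun_prop
    · refine Continuous.continuousAt ?_
      fun_prop
  have hηt : η t = 0 := by
    simp [η]
  obtain ⟨δ1, hδ1, h1⟩ := Metric.continuousAt_iff.mp hηc ε hε
  refine ⟨min (δ1 / 2) (r t / 2), lt_min (by positivity) (half_pos hr), ?_⟩
  intro f hf s hs
  have hs' : |(s : ℝ) - t| ≤ min (δ1 / 2) (r t / 2) := hs
  have hs1 := hs'.trans (min_le_left _ _)
  have hs2 := hs'.trans (min_le_right _ _)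
  have hst : dist s t = |(s : ℝ) - t| := by rw [Subtype.dist_eq, Real.dist_eq]
  have h2 := h1 (show dist s t < δ1 by rw [hst]; linarith)
  rw [hηt, Real.dist_eq, sub_zero] at h2
  have h3 : Metric.infDist t K ≤ Metric.infDist s K + dist t s :=
    Metric.infDist_le_infDist_add_dist
  rw [dist_comm, hst] at h3
  have hrs : 0 < r s := by
    have : r t = Metric.infDist t K := rfl
    have h4 : r s = Metric.infDist s K := rfl
    linarith
  have e1 := avgOp_eq K f s hrs.ne'
  have e2 := avgOp_eq K f t hr.ne'
  rw [e1, e2]
  set Is := ∫ x in ((2 + (s : ℝ)) / 4)..((2 + s + Metric.infDist s K) / 4), ext f x with hIs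
  set It := ∫ x in ((2 + (t : ℝ)) / 4)..((2 + t + Metric.infDist t K) / 4), ext f x with hIt
  have h5 : |Is| ≤ |(2 + s + r s) / 4 - (2 + (s : ℝ)) / 4| := integral_abs_le f hf _ _
  have h6 : |Is - It| ≤ |(2 + (t : ℝ)) / 4 - (2 + (s : ℝ)) / 4| +
      |(2 + t + r t) / 4 - (2 + s + r s) / 4| := by
    have hint : ∀ a b : ℝ, IntervalIntegrable (ext f) volume a b := fun a b =>
      (ext_continuous f).intervalIntegrable a b
    have h7 : Is - It = (∫ x in ((2 + (s : ℝ)) / 4)..((2 + (t : ℝ)) / 4), ext f x) -
        ∫ x in ((2 + s + Metric.infDist s K) / 4)..((2 + t + Metric.infDist t K) / 4), ext f x :=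
      intervalIntegral.integral_interval_sub_interval_comm (hint _ _) (hint _ _) (hint _ _)
    rw [h7]
    refine (abs_sub _ _).trans ?_
    exact add_le_add (integral_abs_le f hf _ _) (integral_abs_le f hf _ _)
  have h8 : 4 / Metric.infDist s K * Is - 4 / Metric.infDist t K * It =
      (4 / r s - 4 / r t) * Is + (4 / r t) * (Is - It) := by
    show 4 / r s * Is - 4 / r t * It = _
    ring
  rw [h8]
  have h9 : |(4 / r s - 4 / r t) * Is + (4 / r t) * (Is - It)| ≤ η s := by
    refine (abs_add_le _ _).trans ?_
    rw [abs_mul, abs_mul, abs_of_pos (show 0 < 4 / r t by positivity)]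
    exact add_le_add (mul_le_mul_of_nonneg_left h5 (abs_nonneg _))
      (mul_le_mul_of_nonneg_left h6 (by positivity))
  exact h9.trans ((le_abs_self _).trans h2.le)

/-- Narrow tent functions. -/
noncomputable def tent (c : ℝ) (k : ℕ) : C(unitInterval, ℝ) :=
  ⟨fun x => max 0 (1 - (k + 20) * |(x : ℝ) - c|), by fun_prop⟩

theorem tent_apply (c : ℝ) (k : ℕ) (x : unitInterval) :
    tent c k x = max 0 (1 - (k + 20) * |(x : ℝ) - c|) := rfl

theorem tent_nonneg (c : ℝ) (k : ℕ) (x : unitInterval) : 0 ≤ tent c k x := le_max_left _ _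

theorem tent_le (c : ℝ) (k : ℕ) (x : unitInterval) : tent c k x ≤ 1 := by
  refine max_le zero_le_one ?_
  have : 0 ≤ ((k : ℝ) + 20) * |(x : ℝ) - c| := by positivity
  linarith

theorem tent_norm (c : ℝ) (k : ℕ) : ‖tent c k‖ ≤ 1 := by
  refine (ContinuousMap.norm_le _ zero_le_one).mpr (fun x => ?_)
  rw [Real.norm_of_nonneg (tent_nonneg c k x)]
  exact tent_le c k x

theorem tent_tendsto (c : ℝ) (x : unitInterval) (hx : (x : ℝ) ≠ c) :
    Tendsto (fun k => tent c k x) atTop (𝓝 0) := by
  have h0 : 0 < |(x : ℝ) - c| := abs_pos.mpr (sub_ne_zero.mpr hx)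
  have hev : ∀ᶠ k : ℕ in atTop, tent c k x = 0 := by
    obtain ⟨N, hN⟩ := exists_nat_gt (1 / |(x : ℝ) - c|)
    filter_upwards [eventually_ge_atTop N] with k hk
    rw [tent_apply]
    refine max_eq_left ?_
    have h1 : (N : ℝ) ≤ k := by exact_mod_cast hk
    have h2 : 1 / |(x : ℝ) - c| ≤ (k : ℝ) + 20 := by linarith
    have h3 := mul_le_mul_of_nonneg_right h2 h0.le
    rw [one_div, inv_mul_cancel₀ h0.ne'] at h3
    linarith
  exact tendsto_const_nhds.congr' (hev.mono (fun k hk => hk.symm))

theorem proj_ne {c x : ℝ} (hc0 : 0 < c) (hc1 : c < 1) (hx : x ≠ c) :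
    ((Set.projIcc (0 : ℝ) 1 zero_le_one x : unitInterval) : ℝ) ≠ c := by
  rw [Set.coe_projIcc]
  intro h
  rcases le_total x 0 with h0 | h0
  · rw [min_eq_right (by linarith), max_eq_left h0] at h
    linarith
  · rcases le_total x 1 with h1 | h1
    · rw [min_eq_right h1, max_eq_right h0] at h
      exact hx h
    · rw [min_eq_left h1, max_eq_right zero_le_one] at h
      linarith

theorem case_B (M : Set unitInterval) (al be : unitInterval) (hab : (al : ℝ) < be)
    (hD : ∀ s : unitInterval, (al : ℝ) ≤ s → (s : ℝ) ≤ be → s ∈ M)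
    (C : ℕ → Set unitInterval) (hC : ∀ n, IsClosed (C n)) (hCM : M = ⋃ n, C n) :
    ∃ X : Submodule ℝ C(unitInterval, ℝ), IsClosed (X : Set C(unitInterval, ℝ)) ∧
      ¬ Complemented X ∧ Om X = M := by
  have halM : al ∈ M := hD al le_rfl hab.le
  let K : ℕ → Set unitInterval := fun n => match n with
    | 0 => {s : unitInterval | (al : ℝ) ≤ s ∧ (s : ℝ) ≤ be}
    | n + 1 => C n ∪ {al}
  have hK0 : K 0 = {s : unitInterval | (al : ℝ) ≤ s ∧ (s : ℝ) ≤ be} := rfl
  have hKs : ∀ n, K (n + 1) = C n ∪ {al} := fun n => rfl
  have hKal : ∀ n, al ∈ K (n + 1) := fun n => Or.inr rfl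
  have hKc : ∀ n, IsClosed (K (n + 1)) := fun n => (hC n).union isClosed_singleton
  have hKM : ∀ n, K n ⊆ M := by
    intro n
    cases n with
    | zero => exact fun s hs => hD s hs.1 hs.2
    | succ n =>
      rw [hKs]
      refine Set.union_subset ?_ (Set.singleton_subset_iff.mpr halM)
      rw [hCM]
      exact Set.subset_iUnion C n
  let sg : C(unitInterval, unitInterval) :=
    ⟨fun s => Set.projIcc (0 : ℝ) 1 zero_le_one (((s : ℝ) - al) / (be - al)), by
      refine continuous_projIcc.comp ?_
      fun_prop⟩
  have hsg : ∀ s, sg s = Set.projIcc (0 : ℝ) 1 zero_le_one (((s : ℝ) - al) / (be - al)) :=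
    fun s => rfl
  have hba : (0 : ℝ) < be - al := by linarith
  let J : ℕ → C(unitInterval, ℝ) →L[ℝ] C(unitInterval, ℝ) := fun n => match n with
    | 0 => compOp sg
    | n + 1 => avgOp (K (n + 1))
  have hJ0 : J 0 = compOp sg := rfl
  have hJs : ∀ n, J (n + 1) = avgOp (K (n + 1)) := fun n => rfl
  refine main_abstract M Rel Rel_closed J ?_ ?_ ?_ K hKM ?_ ?_ ?_ ?_ ?_
  · intro n f
    cases n with
    | zero => exact compOp_norm _ f
    | succ n => exact avgOp_norm _ f
  · intro n f hf s
    cases n with
    | zero => exact hf _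
    | succ n => exact avgOp_nonneg _ f hf s
  · intro f _
    rw [ContinuousMap.norm_le _ (norm_nonneg _)]
    intro r
    have h1 : (0 : ℝ) ≤ al + r * (be - al) := by
      have := mul_nonneg r.2.1 hba.le
      linarith [al.2.1]
    have h2 : (al : ℝ) + r * (be - al) ≤ 1 := by
      have := mul_le_mul_of_nonneg_right r.2.2 hba.le
      linarith [be.2.2]
    have h3 : sg ⟨al + r * (be - al), h1, h2⟩ = r := by
      rw [hsg]
      have h4 : ((al : ℝ) + r * (be - al) - al) / (be - al) = r := by
        rw [add_sub_cancel_left, mul_div_assoc, div_self hba.ne', mul_one]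
      simp only [h4]
      exact Set.projIcc_val _ r
    have h4 := (J 0 f).norm_coe_le_norm ⟨al + r * (be - al), h1, h2⟩
    have h5 : J 0 f ⟨al + r * (be - al), h1, h2⟩ = f r := by
      rw [hJ0, compOp_apply, h3]
    rw [h5] at h4
    exact h4
  · intro t ht
    rw [hCM, Set.mem_iUnion] at ht
    obtain ⟨n, hn⟩ := ht
    exact ⟨n, Or.inl hn⟩
  · intro n t ht ε hε
    cases n with
    | zero =>
      by_cases h1 : (al : ℝ) ≤ t
      · have h2 : (be : ℝ) < t := by
          by_contra hcon
          push Not at hcon
          exact ht ⟨h1, hcon⟩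
        refine ⟨((t : ℝ) - be) / 2, by linarith, ?_⟩
        intro f _ _ s hs
        have hs' : |(s : ℝ) - t| ≤ ((t : ℝ) - be) / 2 := hs
        have h3 : ∀ s : unitInterval, (be : ℝ) ≤ s → sg s = 1 := by
          intro s hs
          rw [hsg]
          exact Set.projIcc_of_right_le _ (by rw [le_div_iff₀ hba]; linarith)
        have h4 := (abs_le.mp hs').1
        rw [hJ0, compOp_apply, compOp_apply, h3 s (by linarith), h3 t h2.le, sub_self, abs_zero]
        exact hε.le
      · push Not at h1
        refine ⟨((al : ℝ) - t) / 2, by linarith, ?_⟩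
        intro f _ _ s hs
        have hs' : |(s : ℝ) - t| ≤ ((al : ℝ) - t) / 2 := hs
        have h3 : ∀ s : unitInterval, (s : ℝ) ≤ al → sg s = 0 := by
          intro s hs
          rw [hsg]
          exact Set.projIcc_of_le_left _ (div_nonpos_of_nonpos_of_nonneg (by linarith) hba.le)
        have h4 := (abs_le.mp hs').2
        rw [hJ0, compOp_apply, compOp_apply, h3 s (by linarith), h3 t h1.le, sub_self, abs_zero]
        exact hε.le
    | succ n =>
      have hρ : 0 < Metric.infDist t (K (n + 1)) :=
        ((hKc n).notMem_iff_infDist_pos ⟨al, hKal n⟩).mp ht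
      obtain ⟨δ, hδ, h⟩ := avg_equicont (K (n + 1)) t hρ ε hε
      exact ⟨δ, hδ, fun f _ hf s hs => h f hf s hs⟩
  · intro n t ht d hd
    set c : ℝ := (2 + (t : ℝ)) / 4 with hc
    have hc0 : 1 / 2 ≤ c := by
      have := t.2.1
      rw [hc]
      linarith
    have hc1 : c ≤ 3 / 4 := by
      have := t.2.2
      rw [hc]
      linarith
    refine ⟨tent c, ?_, fun k s => tent_nonneg c k s, fun k => tent_norm c k, ?_⟩
    · intro k l
      have h1 : RR l (tent c k) = 0 := by
        ext x
        rw [RR_apply, tent_apply]
        refine max_eq_left ?_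
        have h2 : ((xp (enc l x) : unitInterval) : ℝ) ≤ 1 / 4 := by
          show 1 / 4 * (1 / 2 : ℝ) ^ (enc l x) ≤ 1 / 4
          have : (1 / 2 : ℝ) ^ (enc l x) ≤ 1 := pow_le_one₀ (by norm_num) (by norm_num)
          linarith
        have h3 : 1 / 4 ≤ |((xp (enc l x) : unitInterval) : ℝ) - c| := by
          rw [abs_sub_comm]
          exact le_trans (by linarith) (le_abs_self _)
        have h4 : (0 : ℝ) ≤ k := Nat.cast_nonneg k
        nlinarith
      rw [h1, Matrix.mulVec_zero]
    · -- the point s'
      have hs' : ∃ s' ∈ nb t d, (s' : ℝ) ≠ t ∧ ((sg s' : unitInterval) : ℝ) ≠ c := by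
        have huniq : ∀ p q : unitInterval, ((sg p : unitInterval) : ℝ) = c →
            ((sg q : unitInterval) : ℝ) = c → (p : ℝ) = q := by
          have h1 : ∀ p : unitInterval, ((sg p : unitInterval) : ℝ) = c →
              ((p : ℝ) - al) / (be - al) = c := by
            intro p hp
            by_contra hne
            exact proj_ne (by linarith) (by linarith) hne hp
          intro p q hp hq
          have h2 := h1 p hp
          have h3 := h1 q hq
          rw [div_eq_iff hba.ne'] at h2 h3
          linarith
        have hpair : ∃ p ∈ nb t d, ∃ q ∈ nb t d, (p : ℝ) ≠ t ∧ (q : ℝ) ≠ t ∧ (p : ℝ) ≠ q := by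
          set l : ℝ := min d (1 / 2) with hl
          have hl0 : 0 < l := lt_min hd (by norm_num)
          have hld : l ≤ d := min_le_left _ _
          have hl2 : l ≤ 1 / 2 := min_le_right _ _
          by_cases ht2 : (t : ℝ) ≤ 1 / 2
          · refine ⟨⟨t + l, by linarith [t.2.1], by linarith⟩, ?_,
              ⟨t + l / 2, by linarith [t.2.1], by linarith⟩, ?_, ?_, ?_, ?_⟩
            · show |(t : ℝ) + l - t| ≤ d
              rw [add_sub_cancel_left, abs_of_pos hl0]
              exact hld
            · show |(t : ℝ) + l / 2 - t| ≤ d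
              rw [add_sub_cancel_left, abs_of_pos (half_pos hl0)]
              linarith
            · show (t : ℝ) + l ≠ t
              intro h
              linarith
            · show (t : ℝ) + l / 2 ≠ t
              intro h
              linarith
            · show (t : ℝ) + l ≠ t + l / 2
              intro h
              linarith
          · push Not at ht2
            refine ⟨⟨t - l, by linarith, by linarith [t.2.2]⟩, ?_,
              ⟨t - l / 2, by linarith, by linarith [t.2.2]⟩, ?_, ?_, ?_, ?_⟩
            · show |(t : ℝ) - l - t| ≤ d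
              rw [sub_sub_cancel_left, abs_neg, abs_of_pos hl0]
              exact hld
            · show |(t : ℝ) - l / 2 - t| ≤ d
              rw [sub_sub_cancel_left, abs_neg, abs_of_pos (half_pos hl0)]
              linarith
            · show (t : ℝ) - l ≠ t
              intro h
              linarith
            · show (t : ℝ) - l / 2 ≠ t
              intro h
              linarith
            · show (t : ℝ) - l ≠ t - l / 2
              intro h
              linarith
        obtain ⟨p, hp, q, hq, hpt, hqt, hpq⟩ := hpair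
        by_cases hpc : ((sg p : unitInterval) : ℝ) = c
        · exact ⟨q, hq, hqt, fun h => hpq (huniq p q hpc h)⟩
        · exact ⟨p, hp, hpt, hpc⟩
      obtain ⟨s', hs'1, hs't, hs'c⟩ := hs'
      refine ⟨s', hs'1, ?_, ?_⟩
      · intro m
        cases m with
        | zero =>
          show Tendsto (fun k => tent c k (sg s')) atTop (𝓝 0)
          exact tent_tendsto c _ hs'c
        | succ m =>
          set r := Metric.infDist s' (K (m + 1)) with hr
          show Tendsto (fun k => ∫ u in (0 : ℝ)..1, ext (tent c k) ((2 + s' + u * r) / 4))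
            atTop (𝓝 0)
          have h0 : (∫ _u in (0 : ℝ)..1, (0 : ℝ)) = 0 := by simp
          suffices key : Tendsto (fun k : ℕ => ∫ u in (0 : ℝ)..1,
              ext (tent c k) ((2 + (s' : ℝ) + u * r) / 4)) atTop
              (𝓝 (∫ _u in (0 : ℝ)..1, (0 : ℝ))) by
            rwa [h0] at key
          refine intervalIntegral.tendsto_integral_filter_of_dominated_convergence
            (fun _ => (1 : ℝ)) ?_ ?_ ?_ ?_
          · exact Filter.Eventually.of_forall (fun k =>
              ((inner_continuous' (tent c k) (K (m + 1)) s').aestronglyMeasurable))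
          · exact Filter.Eventually.of_forall (fun k =>
              Filter.Eventually.of_forall (fun u _ => (ext_abs _ _).trans (tent_norm c k)))
          · exact intervalIntegrable_const
          · have hae : ∀ᵐ u : ℝ, u ∉ ({((t : ℝ) - s') / r} : Set ℝ) :=
              (Set.countable_singleton _).ae_notMem volume
            filter_upwards [hae] with u hu _
            refine tent_tendsto c _ (proj_ne (by linarith) (by linarith) ?_)
            intro h
            rw [hc] at h
            have h1 : u * r = (t : ℝ) - s' := by linarith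
            by_cases hr0 : r = 0
            · rw [hr0, mul_zero] at h1
              exact hs't (by linarith)
            · exact hu (by rw [Set.mem_singleton_iff, eq_div_iff hr0, h1])
      · refine Filter.Eventually.of_forall (fun k => ⟨t, ?_, ?_⟩)
        · show |(t : ℝ) - t| ≤ d
          rw [sub_self, abs_zero]
          exact hd.le
        · rw [hJs, avgOp_apply, Metric.infDist_zero_of_mem ht]
          have h1 : ∀ u : ℝ, ext (tent c k) ((2 + (t : ℝ) + u * 0) / 4) = 1 := by
            intro u
            have h2 : (2 + (t : ℝ) + u * 0) / 4 = c := by rw [hc, mul_zero, add_zero]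
            rw [h2]
            have h3 : Set.projIcc (0 : ℝ) 1 zero_le_one c = ⟨c, by linarith, by linarith⟩ :=
              Set.projIcc_of_mem zero_le_one ⟨by linarith, by linarith⟩
            show tent c k (Set.projIcc (0 : ℝ) 1 zero_le_one c) = 1
            rw [h3, tent_apply]
            simp
          simp only [h1]
          simp
  · intro k a ha
    exact EE_mem_Rel ha
  · intro k f hf
    exact hf k

end Pool.Agent.X197.Osc
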