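import Mathlib

/-!
# Compact subspaces of spaces of separately continuous functions

The cross-open and the cross-uniform topology on the set of separately continuous functions, and
the reason why compact subspaces are metrizable when `X` and `Y` are separable.
-/

open Set Topology TopologicalSpace Filter

namespace Pool.Agent.X197.SepCont

variable (X : Type*) (Y : Type*) [TopologicalSpace X] [TopologicalSpace Y]

/-- The set `S(X × Y)` of all separately continuous real-valued functions on `X × Y`. -/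
def SepCont : Type _ :=
  {f : X × Y → ℝ // (∀ x, Continuous fun y => f (x, y)) ∧ (∀ y, Continuous fun x => f (x, y))}

variable {X Y}

/-- The cross `cr{c} = (X × {b}) ∪ ({a} × Y)` of the point `c = (a, b)`. -/
def cross (c : X × Y) : Set (X × Y) := (univ ×ˢ {c.2}) ∪ ({c.1} ×ˢ univ)

/-- The family `Cro(P)` of all sets `closure G ∩ C` where `C` is a cross and `G` is a relatively
open subset of `C`. -/
def IsCro (A : Set (X × Y)) : Prop :=
  ∃ c : X × Y, ∃ U : Set (X × Y), IsOpen U ∧ A = closure (U ∩ cross c) ∩ cross c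

variable (X Y)

/-- The cross-open topology: it is generated by the subbase of all sets `{s : s(A) ⊆ W}`,
`A ∈ Cro(P)`, `W ⊆ ℝ` open. -/
def croTopology : TopologicalSpace (SepCont X Y) :=
  generateFrom {S | ∃ A : Set (X × Y), IsCro A ∧ ∃ W : Set ℝ, IsOpen W ∧
    S = {s : SepCont X Y | s.1 '' A ⊆ W}}

variable {X Y}

/-- The extended pseudometric `d_c(s, t) = sup_{p ∈ cr{c}} |s(p) - t(p)|`. -/
noncomputable def crossEDist (c : X × Y) (s t : SepCont X Y) : ENNReal :=
  ⨆ p ∈ cross c, ENNReal.ofReal |s.1 p - t.1 p|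

variable (X Y)

/-- The cross-uniform topology: it is generated by the extended pseudometrics `d_c`, that is,
by all open balls of all of these pseudometrics. -/
noncomputable def cruTopology : TopologicalSpace (SepCont X Y) :=
  generateFrom {S | ∃ (c : X × Y) (s : SepCont X Y) (ε : ENNReal), 0 < ε ∧
    S = {t : SepCont X Y | crossEDist c s t < ε}}

variable {X Y}

theorem mem_cross_self (c : X × Y) : c ∈ cross c := Or.inl ⟨trivial, rfl⟩

/-- Evaluation at a point is continuous in the cross-open topology. -/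
theorem continuous_eval_cro (p : X × Y) :
    @Continuous _ _ (croTopology X Y) _ (fun s : SepCont X Y => s.1 p) := by
  letI := croTopology X Y
  rw [continuous_def]
  intro W hW
  rw [isOpen_iff_forall_mem_open]
  intro s hs
  have hs' : s.1 p ∈ W := hs
  obtain ⟨K, hK, hKc, hKW⟩ := exists_mem_nhds_isClosed_subset (hW.mem_nhds hs')
  obtain ⟨O, hOK, hOo, hpO⟩ := mem_nhds_iff.1 hK
  set U1 : Set X := {x | s.1 (x, p.2) ∈ O} with hU1
  set V1 : Set Y := {y | s.1 (p.1, y) ∈ O} with hV1
  have hU1o : IsOpen U1 := hOo.preimage (s.2.2 p.2)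
  have hV1o : IsOpen V1 := hOo.preimage (s.2.1 p.1)
  have hpU : p.1 ∈ U1 := hpO
  have hpV : p.2 ∈ V1 := hpO
  refine ⟨{t : SepCont X Y | t.1 '' (closure ((U1 ×ˢ V1) ∩ cross p) ∩ cross p) ⊆ W}, ?_, ?_, ?_⟩
  · intro t ht
    exact ht ⟨p, ⟨subset_closure ⟨⟨hpU, hpV⟩, mem_cross_self p⟩, mem_cross_self p⟩, rfl⟩
  · exact isOpen_generateFrom_of_mem ⟨_, ⟨p, _, hU1o.prod hV1o, rfl⟩, W, hW, rfl⟩
  · rintro _ ⟨⟨x, y⟩, ⟨hcl, hc⟩, rfl⟩
    apply hKW
    rcases hc with ⟨-, hc⟩ | ⟨hc, -⟩
    · have hc' : y = p.2 := hc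
      subst hc'
      have hx : x ∈ closure U1 := by
        rw [mem_closure_iff]
        intro N hN hxN
        obtain ⟨⟨x', y'⟩, ⟨hx'N, -⟩, ⟨hx'U, -⟩, hx'c⟩ :=
          mem_closure_iff.1 hcl (N ×ˢ univ) (hN.prod isOpen_univ) ⟨hxN, trivial⟩
        exact ⟨x', hx'N, hx'U⟩
      have : MapsTo (fun x => s.1 (x, p.2)) U1 O := fun z hz => hz
      have h2 := map_mem_closure (s.2.2 p.2) hx this
      exact closure_minimal hOK hKc h2
    · have hc' : x = p.1 := hc
      subst hc'
      have hy : y ∈ closure V1 := by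
        rw [mem_closure_iff]
        intro N hN hyN
        obtain ⟨⟨x', y'⟩, ⟨-, hy'N⟩, ⟨-, hy'V⟩, -⟩ :=
          mem_closure_iff.1 hcl (univ ×ˢ N) (isOpen_univ.prod hN) ⟨trivial, hyN⟩
        exact ⟨y', hy'N, hy'V⟩
      have : MapsTo (fun y => s.1 (p.1, y)) V1 O := fun z hz => hz
      have h2 := map_mem_closure (s.2.1 p.1) hy this
      exact closure_minimal hOK hKc h2

/-- Evaluation at a point is continuous in the cross-uniform topology. -/
theorem continuous_eval_cru (p : X × Y) :
    @Continuous _ _ (cruTopology X Y) _ (fun s : SepCont X Y => s.1 p) := by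
  letI := cruTopology X Y
  rw [continuous_def]
  intro W hW
  rw [isOpen_iff_forall_mem_open]
  intro s hs
  have hs' : s.1 p ∈ W := hs
  obtain ⟨ε, hε, hball⟩ := Metric.isOpen_iff.1 hW _ hs'
  refine ⟨{t : SepCont X Y | crossEDist p s t < ENNReal.ofReal ε}, ?_, ?_, ?_⟩
  · intro t ht
    apply hball
    have h1 : ENNReal.ofReal |s.1 p - t.1 p| < ENNReal.ofReal ε :=
      lt_of_le_of_lt (le_iSup₂_of_le p (mem_cross_self p) le_rfl) ht
    rw [Metric.mem_ball, Real.dist_eq, abs_sub_comm]
    exact (ENNReal.ofReal_lt_ofReal_iff hε).1 h1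
  · exact isOpen_generateFrom_of_mem ⟨p, s, _, ENNReal.ofReal_pos.2 hε, rfl⟩
  · show crossEDist p s s < _
    have : crossEDist p s s = 0 := by
      simp [crossEDist]
    rw [this]
    exact ENNReal.ofReal_pos.2 hε

/-- A separately continuous function is determined by its values on the product of two dense
sets. -/
theorem eq_of_dense {D : Set X} {E : Set Y} (hD : Dense D) (hE : Dense E) {s t : SepCont X Y}
    (h : ∀ x ∈ D, ∀ y ∈ E, s.1 (x, y) = t.1 (x, y)) : s = t := by
  apply Subtype.ext
  have h1 : ∀ x ∈ D, ∀ y, s.1 (x, y) = t.1 (x, y) := by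
    intro x hx y
    exact congrFun (Continuous.ext_on hE (s.2.1 x) (t.2.1 x) (fun y hy => h x hx y hy)) y
  funext ⟨x, y⟩
  exact congrFun (Continuous.ext_on hD (s.2.2 y) (t.2.2 y) (fun x hx => h1 x hx y)) x

theorem metrizable_of_eval [SeparableSpace X] [SeparableSpace Y] (τ : TopologicalSpace (SepCont X Y))
    (hτ : ∀ p : X × Y, @Continuous _ _ τ _ (fun s : SepCont X Y => s.1 p))
    (K : Set (SepCont X Y)) (hK : IsCompact K) : MetrizableSpace K := by
  obtain ⟨D, hDc, hD⟩ := exists_countable_dense X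
  obtain ⟨E, hEc, hE⟩ := exists_countable_dense Y
  haveI : CompactSpace K := isCompact_iff_compactSpace.1 hK
  haveI := hDc.to_subtype
  haveI := hEc.to_subtype
  let e : K → (D × E → ℝ) := fun s q => s.1.1 (q.1, q.2)
  have he : Continuous e := continuous_pi fun q => (hτ _).comp continuous_subtype_val
  have hinj : Function.Injective e := by
    intro s t hst
    apply Subtype.ext
    exact eq_of_dense hD hE fun x hx y hy => congrFun hst (⟨x, hx⟩, ⟨y, hy⟩)
  haveI : MetrizableSpace (D × E → ℝ) := by
    infer_instance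
  exact (he.isClosedEmbedding hinj).isEmbedding.metrizableSpace

theorem metrizable_of_embedding [SeparableSpace X] [SeparableSpace Y]
    (τ : TopologicalSpace (SepCont X Y))
    (hτ : ∀ p : X × Y, @Continuous _ _ τ _ (fun s : SepCont X Y => s.1 p))
    {K : Type*} [TopologicalSpace K] [CompactSpace K] (e : K → SepCont X Y)
    (he : @IsEmbedding _ _ _ τ e) : MetrizableSpace K := by
  obtain ⟨D, hDc, hD⟩ := exists_countable_dense X
  obtain ⟨E, hEc, hE⟩ := exists_countable_dense Y
  haveI := hDc.to_subtype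
  haveI := hEc.to_subtype
  let g : K → (D × E → ℝ) := fun k q => (e k).1 (q.1, q.2)
  have hec : @Continuous _ _ _ τ e := @IsEmbedding.continuous _ _ _ _ τ he
  have hg : Continuous g := continuous_pi fun q =>
    @Continuous.comp _ _ _ _ τ _ _ _ (hτ _) hec
  have hinj : Function.Injective g := by
    intro s t hst
    have hinj' : Function.Injective e := he.injective
    apply hinj'
    exact eq_of_dense hD hE fun x hx y hy => congrFun hst (⟨x, hx⟩, ⟨y, hy⟩)
  haveI : MetrizableSpace (D × E → ℝ) := by infer_instance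
  exact (hg.isClosedEmbedding hinj).isEmbedding.metrizableSpace

end Pool.Agent.X197.SepCont
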