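import Mathlib

/-!
# Sick compact spaces: products of two infinite factors are metrizable
-/

open Set Topology Filter

namespace Pool.Agent.X197.Sick

universe u v w

/-- The compact space `K` is sick: there are a separable Banach lattice `E`, an element `x ≥ 0` of
`E` and an injective linear map `T : C(K) → E` preserving the lattice operations whose range is the
principal ideal `E_x = {y : |y| ≤ c x for some c > 0}`. -/
def IsSick (K : Type u) [TopologicalSpace K] [CompactSpace K] : Prop :=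
  ∃ (E : Type w) (_ : NormedAddCommGroup E) (_ : NormedSpace ℝ E) (_ : Lattice E)
    (_ : IsOrderedAddMonoid E) (_ : PosSMulMono ℝ E) (_ : HasSolidNorm E) (_ : CompleteSpace E)
    (_ : TopologicalSpace.SeparableSpace E) (x : E) (T : C(K, ℝ) →ₗ[ℝ] E),
    0 ≤ x ∧ Function.Injective T ∧ (∀ f g, T (f ⊔ g) = T f ⊔ T g) ∧
    (∀ f g, T (f ⊓ g) = T f ⊓ T g) ∧ range T = {y : E | ∃ c : ℝ, 0 < c ∧ |y| ≤ c • x}

theorem IsSick.congr {K : Type u} {K' : Type v} [TopologicalSpace K] [CompactSpace K]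
    [TopologicalSpace K'] [CompactSpace K'] (e : K ≃ₜ K') (h : IsSick.{u, w} K) :
    IsSick.{v, w} K' := by
  obtain ⟨E, i1, i2, i3, i4, i5, i6, i7, i8, x, T, hx, hinj, hsup, hinf, hr⟩ := h
  let c : C(K', ℝ) →ₗ[ℝ] C(K, ℝ) :=
    { toFun := fun f => f.comp (e : C(K, K'))
      map_add' := fun f g => rfl
      map_smul' := fun r f => rfl }
  have hc : ∀ f x, c f x = f (e x) := fun f x => rfl
  refine ⟨E, i1, i2, i3, i4, i5, i6, i7, i8, x, T.comp c, hx, ?_, ?_, ?_, ?_⟩
  · intro f g h
    have h1 : c f = c g := hinj h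
    ext y
    have := congrArg (fun q : C(K, ℝ) => q (e.symm y)) h1
    simpa [hc] using this
  · intro f g
    exact hsup (c f) (c g)
  · intro f g
    exact hinf (c f) (c g)
  · rw [← hr]
    ext y
    constructor
    · rintro ⟨f, rfl⟩
      exact ⟨c f, rfl⟩
    · rintro ⟨f, rfl⟩
      refine ⟨f.comp (e.symm : C(K', K)), ?_⟩
      show T (c _) = T f
      congr 1
      ext y
      rw [hc]
      simp

section main

variable {E : Type w} [NormedAddCommGroup E] [NormedSpace ℝ E] [Lattice E] [IsOrderedAddMonoid E]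
  [HasSolidNorm E]

section one

variable {M : Type u} [TopologicalSpace M] [CompactSpace M] (T : C(M, ℝ) →ₗ[ℝ] E)
  (hsup : ∀ f g, T (f ⊔ g) = T f ⊔ T g)

include hsup

theorem T_mono {f g : C(M, ℝ)} (h : f ≤ g) : T f ≤ T g := by
  have h1 : f ⊔ g = g := sup_eq_right.2 h
  have h2 := hsup f g
  rw [h1] at h2
  rw [h2]
  exact le_sup_left

theorem T_nonneg {f : C(M, ℝ)} (h : 0 ≤ f) : 0 ≤ T f := by
  have := T_mono T hsup h
  rwa [map_zero] at this

theorem T_abs (f : C(M, ℝ)) : |T f| = T |f| := by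
  have h1 : |f| = f ⊔ -f := rfl
  have h2 : |T f| = T f ⊔ -(T f) := rfl
  rw [h1, h2, hsup, map_neg]

theorem norm_T_le_of_le {f g : C(M, ℝ)} (h0 : 0 ≤ f) (h : f ≤ g) : ‖T f‖ ≤ ‖T g‖ := by
  apply norm_le_norm_of_abs_le_abs
  rw [abs_of_nonneg (T_nonneg T hsup h0), abs_of_nonneg (T_nonneg T hsup (h0.trans h))]
  exact T_mono T hsup h

theorem norm_T_le (f : C(M, ℝ)) : ‖T f‖ ≤ ‖T 1‖ * ‖f‖ := by
  have h1 : |f| ≤ ‖f‖ • (1 : C(M, ℝ)) := by
    intro x
    show |f x| ≤ ‖f‖ * 1
    rw [mul_one]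
    exact f.norm_coe_le_norm x
  have h2 : ‖T |f|‖ ≤ ‖T (‖f‖ • (1 : C(M, ℝ)))‖ :=
    norm_T_le_of_le T hsup (abs_nonneg f) h1
  rw [← T_abs T hsup, norm_abs_eq_norm] at h2
  rw [map_smul, norm_smul, norm_norm] at h2
  linarith [mul_comm ‖f‖ ‖T 1‖]

end one

variable {K : Type u} {L : Type v} [TopologicalSpace K] [CompactSpace K] [TopologicalSpace L]
  [CompactSpace L]

/-- `1 ⊗ f` -/
def one (f : C(L, ℝ)) : C(K × L, ℝ) := f.comp ⟨Prod.snd, continuous_snd⟩

/-- `g ⊗ 1` -/
def one' (g : C(K, ℝ)) : C(K × L, ℝ) := g.comp ⟨Prod.fst, continuous_fst⟩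

theorem key [T2Space K] [Infinite K] [CompleteSpace E] (x : E)
    (T : C(K × L, ℝ) →ₗ[ℝ] E) (hinj : Function.Injective T)
    (hsup : ∀ f g, T (f ⊔ g) = T f ⊔ T g) (hinf : ∀ f g, T (f ⊓ g) = T f ⊓ T g)
    (hr : range T = {y : E | ∃ c : ℝ, 0 < c ∧ |y| ≤ c • x}) :
    ∃ δ : ℝ, 0 < δ ∧ ∀ f : C(L, ℝ), 0 ≤ f → δ * ‖f‖ ≤ ‖T (one f)‖ := by
  by_contra hcon
  push Not at hcon
  -- normalised small functions
  have hex : ∀ n : ℕ, ∃ f : C(L, ℝ), 0 ≤ f ∧ ‖f‖ = 1 ∧ ‖T (one f)‖ < (1 / 2 : ℝ) ^ n := by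
    intro n
    obtain ⟨f, hf0, hf⟩ := hcon ((1 / 2 : ℝ) ^ n) (by positivity)
    have hpos : 0 < ‖f‖ := by
      by_contra h
      have h1 : ‖f‖ = 0 := le_antisymm (not_lt.1 h) (norm_nonneg f)
      rw [h1, mul_zero] at hf
      exact absurd hf (not_lt.2 (norm_nonneg _))
    refine ⟨‖f‖⁻¹ • f, ?_, ?_, ?_⟩
    · intro y
      show 0 ≤ ‖f‖⁻¹ * f y
      exact mul_nonneg (inv_nonneg.2 hpos.le) (hf0 y)
    · rw [norm_smul, norm_inv, norm_norm, inv_mul_cancel₀ hpos.ne']
    · have h1 : (one (‖f‖⁻¹ • f) : C(K × L, ℝ)) = ‖f‖⁻¹ • one f := rfl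
      rw [h1, map_smul, norm_smul, norm_inv, norm_norm, inv_mul_lt_iff₀ hpos]
      linarith [mul_comm ‖f‖ ((1 / 2 : ℝ) ^ n)]
  choose f hf0 hf1 hfT using hex
  have hfle : ∀ n y, f n y ≤ 1 := fun n y =>
    (le_abs_self _).trans (((f n).norm_coe_le_norm y).trans (hf1 n).le)
  -- disjoint bumps
  obtain ⟨U, hUi, hUo, hUd⟩ := exists_seq_infinite_isOpen_pairwise_disjoint K
  choose a ha using fun n => (hUi n).nonempty
  have hg : ∀ n, ∃ g : C(K, ℝ), (∀ z, z ∉ U n → g z = 0) ∧ g (a n) = 1 ∧ ∀ z, g z ∈ Icc (0 : ℝ) 1 := by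
    intro n
    obtain ⟨g, h0, h1, h2⟩ := exists_continuous_zero_one_of_isClosed
      (s := (U n)ᶜ) (t := {a n}) (hUo n).isClosed_compl isClosed_singleton
      (by rw [disjoint_singleton_right]; exact fun h => h (ha n))
    exact ⟨g, fun z hz => h0 hz, h1 rfl, h2⟩
  choose g hg0 hga hg01 using hg
  -- the products
  let h : ℕ → C(K × L, ℝ) := fun n => one' (g n) * one (f n)
  have hh : ∀ n p, h n p = g n p.1 * f n p.2 := fun _ _ => rfl
  have hh0 : ∀ n, 0 ≤ h n := fun n p => mul_nonneg (hg01 n p.1).1 (hf0 n p.2)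
  have hhle : ∀ n, h n ≤ one (f n) := fun n p =>
    mul_le_of_le_one_left (hf0 n p.2) (hg01 n p.1).2
  have hsum : Summable fun n => T (h n) := by
    refine Summable.of_norm_bounded (g := fun n => (1 / 2 : ℝ) ^ n) ?_ ?_
    · exact summable_geometric_of_lt_one (by norm_num) (by norm_num)
    · intro n
      exact (norm_T_le_of_le T hsup (hh0 n) (hhle n)).trans (hfT n).le
  let y : ℕ → C(K × L, ℝ) := fun n => ∑ k ∈ Finset.range n, h k
  have hyT : Tendsto (fun n => T (y n)) atTop (𝓝 (∑' n, T (h n))) := by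
    have := hsum.hasSum.tendsto_sum_nat
    simpa [y, map_sum] using this
  set z := ∑' n, T (h n) with hz
  -- values of the partial sums
  have hzero : ∀ n m p, n ≠ m → p.1 ∈ U n → h m p = 0 := by
    intro n m p hnm hp
    rw [hh, hg0 m p.1 (fun hm => disjoint_left.1 (hUd hnm) hp hm), zero_mul]
  have hyval : ∀ n k p, p.1 ∈ U k → y n p = if k < n then h k p else 0 := by
    intro n k p hp
    have h1 : y n p = ∑ j ∈ Finset.range n, h j p := by
      simp [y]
    rw [h1]
    split_ifs with hkn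
    · rw [Finset.sum_eq_single k]
      · intro j _ hj
        exact hzero k j p (Ne.symm hj) hp
      · intro hk
        exact absurd (Finset.mem_range.2 hkn) hk
    · apply Finset.sum_eq_zero
      intro j hj
      apply hzero k j p _ hp
      rintro rfl
      exact hkn (Finset.mem_range.1 hj)
  have hyval' : ∀ n p, (∀ k, p.1 ∉ U k) → y n p = 0 := by
    intro n p hp
    have h1 : y n p = ∑ j ∈ Finset.range n, h j p := by
      simp [y]
    rw [h1]
    apply Finset.sum_eq_zero
    intro j _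
    rw [hh, hg0 j p.1 (hp j), zero_mul]
  have hh1 : ∀ n p, h n p ≤ 1 := fun n p =>
    (hhle n p).trans (hfle n p.2)
  have hy0 : ∀ n, 0 ≤ y n := fun n => Finset.sum_nonneg fun k _ => hh0 k
  have hy1 : ∀ n, y n ≤ 1 := by
    intro n p
    show y n p ≤ 1
    by_cases hp : ∃ k, p.1 ∈ U k
    · obtain ⟨k, hk⟩ := hp
      rw [hyval n k p hk]
      split_ifs
      · exact hh1 k p
      · exact zero_le_one
    · push Not at hp
      rw [hyval' n p hp]
      exact zero_le_one
  have hz0 : 0 ≤ z := ge_of_tendsto' hyT fun n => T_nonneg T hsup (hy0 n)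
  have hz1 : z ≤ T 1 := le_of_tendsto' hyT fun n => T_mono T hsup (hy1 n)
  obtain ⟨Y, hY⟩ : z ∈ range T := by
    rw [hr]
    have h1 : T 1 ∈ range T := ⟨1, rfl⟩
    rw [hr] at h1
    obtain ⟨c, hc, hc1⟩ := h1
    refine ⟨c, hc, ?_⟩
    rw [abs_of_nonneg hz0]
    exact hz1.trans ((le_abs_self _).trans hc1)
  -- identification
  have hident : ∀ k, Y ⊓ one' (g k) = h k := by
    intro k
    apply hinj
    rw [hinf, hY]
    have h1 : Tendsto (fun n => T (y n) ⊓ T (one' (g k))) atTop (𝓝 (z ⊓ T (one' (g k)))) :=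
      hyT.inf_nhds tendsto_const_nhds
    refine tendsto_nhds_unique h1 ?_
    refine tendsto_const_nhds.congr' ?_
    filter_upwards [eventually_gt_atTop k] with n hn
    rw [← hinf]
    congr 1
    ext p
    show h k p = min (y n p) (g k p.1)
    by_cases hp : p.1 ∈ U k
    · rw [hyval n k p hp, if_pos hn, hh]
      rw [min_eq_left]
      exact mul_le_of_le_one_right (hg01 k p.1).1 (hfle k p.2)
    · rw [hh, hg0 k p.1 hp, zero_mul]
      rw [min_eq_right]
      exact hy0 n p
  let Φ : C(K, C(L, ℝ)) := ContinuousMap.curry (Y ⊓ 1)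
  have hΦ : ∀ k, Φ (a k) = f k := by
    intro k
    ext l
    show min (Y (a k, l)) 1 = f k l
    have := congrArg (fun q : C(K × L, ℝ) => q (a k, l)) (hident k)
    simp only [hh, hga, one_mul] at this
    have h2 : min (Y (a k, l)) (g k (a k)) = f k l := this
    rw [hga] at h2
    exact h2
  obtain ⟨b, -, φ, hφ, hlim⟩ := (isCompact_range Φ.continuous).tendsto_subseq
    (x := f) (fun k => ⟨a k, hΦ k⟩)
  have hb1 : ‖b‖ = 1 := by
    have h1 : Tendsto (fun n => ‖(f ∘ φ) n‖) atTop (𝓝 ‖b‖) := hlim.norm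
    have h2 : (fun n => ‖(f ∘ φ) n‖) = fun _ => (1 : ℝ) := by funext n; exact hf1 _
    rw [h2] at h1
    exact tendsto_nhds_unique h1 tendsto_const_nhds |>.symm ▸ rfl
  have hTb : T (one b) = 0 := by
    have h1 : Tendsto (fun n => T (one ((f ∘ φ) n)) - T (one b)) atTop (𝓝 0) := by
      rw [tendsto_zero_iff_norm_tendsto_zero]
      have h3 : Tendsto (fun n => ‖T 1‖ * ‖(f ∘ φ) n - b‖) atTop (𝓝 0) := by
        have h4 : Tendsto (fun n => ‖(f ∘ φ) n - b‖) atTop (𝓝 0) :=
          tendsto_iff_norm_sub_tendsto_zero.1 hlim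
        simpa using h4.const_mul ‖T 1‖
      refine squeeze_zero (fun n => norm_nonneg _) (fun n => ?_) h3
      rw [← map_sub]
      have h5 : (one ((f ∘ φ) n) - one b : C(K × L, ℝ)) = one ((f ∘ φ) n - b) := rfl
      rw [h5]
      refine (norm_T_le T hsup _).trans ?_
      apply mul_le_mul_of_nonneg_left _ (norm_nonneg _)
      rw [ContinuousMap.norm_le _ (norm_nonneg _)]
      intro p
      exact ((f ∘ φ) n - b).norm_coe_le_norm p.2
    have h2 : Tendsto (fun n => T (one ((f ∘ φ) n))) atTop (𝓝 0) := by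
      rw [tendsto_zero_iff_norm_tendsto_zero]
      have h3 : Tendsto (fun n : ℕ => (1 / 2 : ℝ) ^ n) atTop (𝓝 0) :=
        tendsto_pow_atTop_nhds_zero_of_lt_one (by norm_num) (by norm_num)
      exact squeeze_zero (fun n => norm_nonneg _) (fun n => (hfT _).le) (h3.comp hφ.tendsto_atTop)
    have h3 := h2.sub h1
    have h4 : Tendsto (fun _ : ℕ => T (one b)) atTop (𝓝 (0 - 0)) := by
      refine h3.congr fun n => ?_
      abel
    rw [sub_zero] at h4
    exact tendsto_nhds_unique tendsto_const_nhds h4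
  have hb0 : b = 0 := by
    have h1 : (one b : C(K × L, ℝ)) = 0 := hinj (by rw [hTb, map_zero])
    ext l
    have := congrArg (fun q : C(K × L, ℝ) => q (a 0, l)) h1
    exact this
  rw [hb0, norm_zero] at hb1
  exact zero_ne_one hb1

/-- If `C(L)` is separable then `L` is metrizable. -/
theorem metrizable_of_separable [T2Space L] [TopologicalSpace.SeparableSpace C(L, ℝ)] :
    TopologicalSpace.MetrizableSpace L := by
  obtain ⟨D, hDc, hD⟩ := TopologicalSpace.exists_countable_dense C(L, ℝ)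
  haveI := hDc.to_subtype
  let e : L → (D → ℝ) := fun l f => f.1 l
  have he : Continuous e := continuous_pi fun f => f.1.continuous
  have hinj : Function.Injective e := by
    intro l l' hll
    by_contra hne
    obtain ⟨f, h0, h1, -⟩ := exists_continuous_zero_one_of_isClosed
      (s := {l}) (t := {l'}) isClosed_singleton isClosed_singleton
      (by rw [disjoint_singleton]; exact hne)
    obtain ⟨g, hg, hgf⟩ := Metric.dense_iff.1 hD f (1 / 2) (by norm_num)
    have hd : dist g f < 1 / 2 := hg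
    have e1 : dist (g l) (f l) ≤ dist g f := ContinuousMap.dist_apply_le_dist l
    have e2 : dist (g l') (f l') ≤ dist g f := ContinuousMap.dist_apply_le_dist l'
    have e3 : g l = g l' := congrFun hll ⟨g, hgf⟩
    rw [h0 (mem_singleton l)] at e1
    rw [h1 (mem_singleton l')] at e2
    rw [Real.dist_eq] at e1 e2
    simp only [Pi.zero_apply, Pi.one_apply] at e1 e2
    have e4 := abs_le.1 (e1.trans hd.le)
    have e5 := abs_le.1 (e2.trans hd.le)
    have e6 : g l < 1 / 2 := by
      have := (abs_lt.1 (e1.trans_lt hd)).2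
      linarith
    have e7 : 1 / 2 < g l' := by
      have := (abs_lt.1 (e2.trans_lt hd)).1
      linarith
    linarith
  haveI : TopologicalSpace.MetrizableSpace (D → ℝ) := by infer_instance
  exact (he.isClosedEmbedding hinj).isEmbedding.metrizableSpace

end main

theorem norm_abs_C {L : Type v} [TopologicalSpace L] [CompactSpace L] (f : C(L, ℝ)) :
    ‖|f|‖ = ‖f‖ := by
  have h : ∀ l, |f| l = |f l| := fun l => rfl
  apply le_antisymm
  · rw [ContinuousMap.norm_le _ (norm_nonneg _)]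
    intro l
    rw [h, Real.norm_eq_abs, abs_abs]
    exact f.norm_coe_le_norm l
  · rw [ContinuousMap.norm_le _ (norm_nonneg _)]
    intro l
    have := (|f|).norm_coe_le_norm l
    rwa [h, Real.norm_eq_abs, abs_abs] at this

/-- If `K` is infinite and `K × L` is sick, then `L` is metrizable. -/
theorem metrizable_right {K : Type u} {L : Type v} [TopologicalSpace K] [CompactSpace K]
    [T2Space K] [Infinite K] [TopologicalSpace L] [CompactSpace L] [T2Space L]
    (h : IsSick.{max u v, w} (K × L)) : TopologicalSpace.MetrizableSpace L := by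
  obtain ⟨E, i1, i2, i3, i4, i5, i6, i7, i8, x, T, hx, hinj, hsup, hinf, hr⟩ := h
  obtain ⟨δ, hδ, hkey⟩ := key x T hinj hsup hinf hr
  -- the map `f ↦ T (1 ⊗ f)`
  let J : C(L, ℝ) →ₗ[ℝ] E :=
    { toFun := fun f => T (one f)
      map_add' := fun f g => T.map_add (one f) (one g)
      map_smul' := fun r f => T.map_smul r (one f) }
  have hJ : ∀ f, J f = T (one f) := fun _ => rfl
  have hlow : ∀ f : C(L, ℝ), δ * ‖f‖ ≤ ‖J f‖ := by
    intro f
    have h1 := hkey |f| (abs_nonneg f)
    have h2 : (one |f| : C(K × L, ℝ)) = |one f| := rfl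
    rw [h2, ← T_abs T hsup, norm_abs_C, norm_abs_eq_norm] at h1
    exact h1
  have hanti : AntilipschitzWith ⟨δ⁻¹, inv_nonneg.2 hδ.le⟩ J := by
    apply AddMonoidHomClass.antilipschitz_of_bound
    intro f
    show ‖f‖ ≤ δ⁻¹ * ‖J f‖
    rw [← div_eq_inv_mul, le_div_iff₀ hδ]
    linarith [hlow f]
  have hcont : UniformContinuous J := by
    have : ∀ f : C(L, ℝ), ‖J f‖ ≤ ‖T 1‖ * ‖f‖ := by
      intro f
      refine (norm_T_le T hsup _).trans ?_
      apply mul_le_mul_of_nonneg_left _ (norm_nonneg _)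
      rw [ContinuousMap.norm_le _ (norm_nonneg _)]
      intro p
      exact f.norm_coe_le_norm p.2
    exact (J.mkContinuous ‖T 1‖ this).uniformContinuous
  have hind : IsUniformInducing J := hanti.isUniformInducing hcont
  haveI : SecondCountableTopology E := UniformSpace.secondCountable_of_separable E
  haveI : SecondCountableTopology C(L, ℝ) := hind.isInducing.secondCountableTopology
  exact metrizable_of_separable

/-- If `K` and `L` are infinite and `K × L` is sick, then `K` and `L` are metrizable. -/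
theorem metrizable_both {K : Type u} {L : Type v} [TopologicalSpace K] [CompactSpace K]
    [T2Space K] [Infinite K] [TopologicalSpace L] [CompactSpace L] [T2Space L] [Infinite L]
    (h : IsSick.{max u v, w} (K × L)) :
    TopologicalSpace.MetrizableSpace K ∧ TopologicalSpace.MetrizableSpace L :=
  ⟨metrizable_right (K := L) (L := K) (h.congr (Homeomorph.prodComm K L)), metrizable_right h⟩

end Pool.Agent.X197.Sick
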