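import Mathlib

/-!
# A Vietoris-Rips shadow of a countable compact set which is not locally connected
-/

open Set Topology Filter Metric

namespace Pool.Agent.X197.VRShadow

/-- The simplices of the Vietoris-Rips complex `R_β(M)`: the nonempty finite subsets of `M` of
diameter less than `β`. -/
def VR {E : Type*} [PseudoMetricSpace E] (β : ℝ) (M : Set E) : Set (Set E) :=
  {σ | σ.Nonempty ∧ σ.Finite ∧ σ ⊆ M ∧ Metric.diam σ < β}

/-- The shadow of the Vietoris-Rips complex: the union of the convex hulls of its simplices. -/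
def Shadow {E : Type*} [SeminormedAddCommGroup E] [NormedSpace ℝ E] (β : ℝ) (M : Set E) : Set E :=
  ⋃ σ ∈ VR β M, convexHull ℝ σ

/-- Absolute neighbourhood retracts (for metrizable spaces). -/
def IsANR (Y : Type) [TopologicalSpace Y] : Prop :=
  TopologicalSpace.MetrizableSpace Y ∧
    ∀ (Z : Type) [TopologicalSpace Z] [TopologicalSpace.MetrizableSpace Z] (e : Y → Z),
      IsClosedEmbedding e → ∃ U : Set Z, IsOpen U ∧ range e ⊆ U ∧
        ∃ r : C(U, Y), ∀ (y : Y) (h : e y ∈ U), r ⟨e y, h⟩ = y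

/-! ### The scales -/

/-- zero and the powers of two -/
def S : Set ℝ := insert 0 (range fun k : ℕ => (1 / 2 : ℝ) ^ (k + 2))

theorem zero_mem_S : (0 : ℝ) ∈ S := Set.mem_insert _ _

theorem tendsto_pow : Tendsto (fun k : ℕ => (1 / 2 : ℝ) ^ (k + 2)) atTop (𝓝 0) :=
  (tendsto_add_atTop_iff_nat 2).2
    (tendsto_pow_atTop_nhds_zero_of_lt_one (by norm_num) (by norm_num))

theorem isCompact_S : IsCompact S := tendsto_pow.isCompact_insert_range

theorem countable_S : S.Countable := (countable_range _).insert 0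

theorem S_bounds {s : ℝ} (hs : s ∈ S) : 0 ≤ s ∧ s ≤ 1 / 4 := by
  rcases hs with rfl | ⟨k, rfl⟩
  · norm_num
  · refine ⟨by positivity, ?_⟩
    show (1 / 2 : ℝ) ^ (k + 2) ≤ 1 / 4
    have h : (1 / 2 : ℝ) ^ k ≤ 1 := pow_le_one₀ (by norm_num) (by norm_num)
    rw [pow_add]
    nlinarith

theorem half_le {s t : ℝ} (hs : s ∈ S) (ht : t ∈ S) (h : t < s) : t ≤ s / 2 := by
  rcases hs with rfl | ⟨j, rfl⟩
  · exact absurd h (not_lt.2 (S_bounds ht).1)
  · rcases ht with rfl | ⟨k, rfl⟩
    · positivity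
    · have hjk : j + 1 ≤ k := by
        by_contra hc
        have h1 : k + 2 ≤ j + 2 := by omega
        have h2 : (1 / 2 : ℝ) ^ (j + 2) ≤ (1 / 2 : ℝ) ^ (k + 2) :=
          pow_le_pow_of_le_one (by norm_num) (by norm_num) h1
        exact absurd h (not_lt.2 h2)
      have h3 : (1 / 2 : ℝ) ^ (k + 2) ≤ (1 / 2 : ℝ) ^ (j + 1 + 2) :=
        pow_le_pow_of_le_one (by norm_num) (by norm_num) (by omega)
      have h4 : (1 / 2 : ℝ) ^ (j + 1 + 2) = (1 / 2 : ℝ) ^ (j + 2) / 2 := by
        rw [show j + 1 + 2 = (j + 2) + 1 by ring, pow_succ]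
        ring
      show (1 / 2 : ℝ) ^ (k + 2) ≤ (1 / 2 : ℝ) ^ (j + 2) / 2
      rw [← h4]
      exact h3

theorem sep {s t : ℝ} (hs : s ∈ S) (ht : t ∈ S) (h : s ≠ t) :
    (s ^ 2 + t ^ 2) / 8 ≤ (s - t) ^ 2 := by
  have hs0 := (S_bounds hs).1
  have ht0 := (S_bounds ht).1
  rcases lt_or_gt_of_ne h with h1 | h1
  · have := half_le ht hs h1
    nlinarith
  · have := half_le hs ht h1
    nlinarith

theorem three_quarters {s : ℝ} (hs : s ∈ S) (h0 : 0 < s) : 3 / 4 * s ∉ S := by
  intro h
  have := half_le hs h (by linarith)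
  linarith

/-! ### The points -/

section points

variable (n : ℕ) (β : ℝ)

/-- the ambient space -/
abbrev E : Type := EuclideanSpace ℝ (Fin (n + 3))

/-- the point with the coordinates `2 β x`, `2 β y`, `2 β z`, `0`, … -/
noncomputable def P (x y z : ℝ) : E n :=
  WithLp.toLp 2 (Fin.cons (2 * β * x) (Fin.cons (2 * β * y) (Fin.cons (2 * β * z) (fun _ => 0))))

theorem dist_P (x y z x' y' z' : ℝ) : dist (P n β x y z) (P n β x' y' z') =
    √((2 * β) ^ 2 * ((x - x') ^ 2 + (y - y') ^ 2 + (z - z') ^ 2)) := by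
  rw [EuclideanSpace.dist_eq]
  congr 1
  simp only [P, Fin.sum_univ_succ, Fin.cons_zero, Fin.cons_succ, Real.dist_eq, sq_abs, sub_self,
    zero_pow (two_ne_zero), Finset.sum_const_zero]
  ring

theorem dist_lt_iff (hβ : 0 < β) (x y z x' y' z' : ℝ) :
    dist (P n β x y z) (P n β x' y' z') < β ↔
      (x - x') ^ 2 + (y - y') ^ 2 + (z - z') ^ 2 < 1 / 4 := by
  rw [dist_P, Real.sqrt_lt' hβ]
  constructor
  · intro h
    have h1 : 0 < β ^ 2 := by positivity
    nlinarith
  · intro h
    have h1 : 0 < β ^ 2 := by positivity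
    nlinarith

/-- first coordinate -/
noncomputable def X (v : E n) : ℝ := v 0 / (2 * β)
/-- second coordinate -/
noncomputable def Y (v : E n) : ℝ := v 1 / (2 * β)
/-- third coordinate -/
noncomputable def Z (v : E n) : ℝ := v 2 / (2 * β)

theorem X_P (hβ : 0 < β) (x y z : ℝ) : X n β (P n β x y z) = x := by
  simp only [X, P]
  simp
  field_simp

theorem Y_P (hβ : 0 < β) (x y z : ℝ) : Y n β (P n β x y z) = y := by
  simp only [Y, P]
  show (2 * β * y) / (2 * β) = y
  field_simp

theorem Z_P (hβ : 0 < β) (x y z : ℝ) : Z n β (P n β x y z) = z := by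
  simp only [Z, P]
  show (2 * β * z) / (2 * β) = z
  field_simp

theorem continuous_X : Continuous (X n β) := by unfold X; fun_prop
theorem continuous_Y : Continuous (Y n β) := by unfold Y; fun_prop
theorem continuous_Z : Continuous (Z n β) := by unfold Z; fun_prop

theorem continuous_P : Continuous (fun p : ℝ × ℝ × ℝ => P n β p.1 p.2.1 p.2.2) := by
  unfold P
  refine (PiLp.continuous_toLp 2 _).comp ?_
  refine continuous_pi fun i => ?_
  refine Fin.cases ?_ (fun i => ?_) i
  · simp only [Fin.cons_zero]; fun_prop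
  · simp only [Fin.cons_succ]
    refine Fin.cases ?_ (fun i => ?_) i
    · simp only [Fin.cons_zero]; fun_prop
    · simp only [Fin.cons_succ]
      refine Fin.cases ?_ (fun i => ?_) i
      · simp only [Fin.cons_zero]; fun_prop
      · simp only [Fin.cons_succ]; fun_prop

/-- the points near one end -/
noncomputable def pa (s : ℝ) : E n := P n β (-1 / 4 + s ^ 2 / 8) 0 s
/-- the points near the other end -/
noncomputable def pb (s : ℝ) : E n := P n β (1 / 4 - s ^ 2 / 8) 0 s
/-- the far point -/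
noncomputable def pc : E n := P n β 0 (9 / 20) 0
/-- the near point -/
noncomputable def pd : E n := P n β 0 (-1 / 25) 0

/-- the compact set -/
def M : Set (E n) := {pc n β, pd n β} ∪ (pa n β '' S ∪ pb n β '' S)

theorem continuous_pa : Continuous (pa n β) :=
  (continuous_P n β).comp (f := fun s : ℝ => (-1 / 4 + s ^ 2 / 8, (0 : ℝ), s)) (by fun_prop)

theorem continuous_pb : Continuous (pb n β) :=
  (continuous_P n β).comp (f := fun s : ℝ => (1 / 4 - s ^ 2 / 8, (0 : ℝ), s)) (by fun_prop)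

theorem isCompact_M : IsCompact (M n β) :=
  ((Set.finite_singleton _).insert _).isCompact.union
    ((isCompact_S.image (continuous_pa n β)).union (isCompact_S.image (continuous_pb n β)))

theorem countable_M : (M n β).Countable :=
  ((Set.finite_singleton _).insert _).countable.union
    ((countable_S.image _).union (countable_S.image _))

theorem nonempty_M : (M n β).Nonempty := ⟨pc n β, Or.inl (Set.mem_insert _ _)⟩

variable {n β}

theorem far_ca (hβ : 0 < β) {s : ℝ} (hs : s ∈ S) : ¬ dist (pc n β) (pa n β s) < β := by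
  rw [pc, pa, dist_lt_iff n β hβ]
  obtain ⟨h0, h1⟩ := S_bounds hs
  have : 0 ≤ s ^ 2 ∧ s ^ 2 ≤ 1 / 16 := ⟨by positivity, by nlinarith⟩
  nlinarith

theorem far_cb (hβ : 0 < β) {s : ℝ} (hs : s ∈ S) : ¬ dist (pc n β) (pb n β s) < β := by
  rw [pc, pb, dist_lt_iff n β hβ]
  obtain ⟨h0, h1⟩ := S_bounds hs
  have : 0 ≤ s ^ 2 ∧ s ^ 2 ≤ 1 / 16 := ⟨by positivity, by nlinarith⟩
  nlinarith

theorem ab_eq (hβ : 0 < β) {s t : ℝ} (hs : s ∈ S) (ht : t ∈ S)
    (h : dist (pa n β s) (pb n β t) < β) : s = t := by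
  by_contra hne
  rw [pa, pb, dist_lt_iff n β hβ] at h
  have := sep hs ht hne
  nlinarith [sq_nonneg ((s ^ 2 + t ^ 2) / 8)]

/-- the affine relation -/
def Rel (s : ℝ) (v : E n) : Prop := Z n β v * (1 / 25) = s * (Y n β v + 1 / 25)

theorem convex_Rel (s : ℝ) : Convex ℝ {v : E n | Rel (β := β) s v} := by
  intro v hv w hw a b ha hb hab
  simp only [Rel, mem_setOf_eq, Z, Y, PiLp.add_apply, PiLp.smul_apply, smul_eq_mul] at *
  have hb' : b = 1 - a := by linarith
  subst hb'
  have e1 : (a * v 2 + (1 - a) * w 2) / (2 * β) * (1 / 25) =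
      a * (v 2 / (2 * β) * (1 / 25)) + (1 - a) * (w 2 / (2 * β) * (1 / 25)) := by ring
  have e2 : s * ((a * v 1 + (1 - a) * w 1) / (2 * β) + 1 / 25) =
      a * (s * (v 1 / (2 * β) + 1 / 25)) + (1 - a) * (s * (w 1 / (2 * β) + 1 / 25)) := by ring
  rw [e1, e2, hv, hw]

theorem convex_left (κ : ℝ) : Convex ℝ {v : E n | 1 / 5 ≤ κ * X n β v - 6 * Y n β v} := by
  intro v hv w hw a b ha hb hab
  simp only [mem_setOf_eq, X, Y, PiLp.add_apply, PiLp.smul_apply, smul_eq_mul] at *
  have e1 : κ * ((a * v 0 + b * w 0) / (2 * β)) - 6 * ((a * v 1 + b * w 1) / (2 * β)) =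
      a * (κ * (v 0 / (2 * β)) - 6 * (v 1 / (2 * β))) +
        b * (κ * (w 0 / (2 * β)) - 6 * (w 1 / (2 * β))) := by ring
  rw [e1]
  nlinarith

/-- The local structure of the shadow. -/
theorem local_structure (hβ : 0 < β) {v : E n} (hv : v ∈ Shadow β (M n β))
    (hX : |X n β v| < 1 / 100) (hY : |Y n β v| < 1 / 100) : ∃ s ∈ S, Rel (β := β) s v := by
  simp only [Shadow, mem_iUnion, exists_prop] at hv
  obtain ⟨σ, ⟨-, hfin, hσM, hdiam⟩, hvσ⟩ := hv
  have hd : ∀ p ∈ σ, ∀ q ∈ σ, dist p q < β := fun p hp q hq =>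
    (dist_le_diam_of_mem hfin.isBounded hp hq).trans_lt hdiam
  obtain ⟨hX1, hX2⟩ := abs_lt.1 hX
  obtain ⟨hY1, hY2⟩ := abs_lt.1 hY
  by_cases hc : pc n β ∈ σ
  · refine ⟨0, zero_mem_S, ?_⟩
    refine convexHull_min (s := σ) ?_ (convex_Rel 0) hvσ
    intro w hw
    rcases hσM hw with h | ⟨s, hs, rfl⟩ | ⟨s, hs, rfl⟩
    · rcases h with rfl | h
      · simp only [mem_setOf_eq, Rel, pc, Z_P n β hβ]; ring
      · rw [mem_singleton_iff] at h
        subst h
        simp only [mem_setOf_eq, Rel, pd, Z_P n β hβ]; ring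
    · exact absurd (hd _ hc _ hw) (far_ca hβ hs)
    · exact absurd (hd _ hc _ hw) (far_cb hβ hs)
  by_cases ha : ∃ s ∈ S, pa n β s ∈ σ
  · obtain ⟨s, hs, hsa⟩ := ha
    by_cases hb : ∃ t ∈ S, pb n β t ∈ σ
    · obtain ⟨t, ht, htb⟩ := hb
      have hst := ab_eq hβ hs ht (hd _ hsa _ htb)
      subst hst
      refine ⟨s, hs, ?_⟩
      refine convexHull_min (s := σ) ?_ (convex_Rel s) hvσ
      intro w hw
      rcases hσM hw with h | ⟨s', hs', rfl⟩ | ⟨s', hs', rfl⟩
      · rcases h with rfl | h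
        · exact absurd hw hc
        · rw [mem_singleton_iff] at h
          subst h
          simp only [mem_setOf_eq, Rel, pd, Z_P n β hβ, Y_P n β hβ]; ring
      · have := ab_eq hβ hs' hs (hd _ hw _ htb)
        subst this
        simp only [mem_setOf_eq, Rel, pa, Z_P n β hβ, Y_P n β hβ]; ring
      · have := ab_eq hβ hs hs' (hd _ hsa _ hw)
        subst this
        simp only [mem_setOf_eq, Rel, pb, Z_P n β hβ, Y_P n β hβ]; ring
    · exfalso
      have : v ∈ {v : E n | 1 / 5 ≤ (-1) * X n β v - 6 * Y n β v} := by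
        refine convexHull_min (s := σ) ?_ (convex_left (-1)) hvσ
        intro w hw
        rcases hσM hw with h | ⟨s', hs', rfl⟩ | ⟨s', hs', rfl⟩
        · rcases h with rfl | h
          · exact absurd hw hc
          · rw [mem_singleton_iff] at h
            subst h
            simp only [mem_setOf_eq, pd, X_P n β hβ, Y_P n β hβ]; norm_num
        · obtain ⟨h0, h1⟩ := S_bounds hs'
          simp only [mem_setOf_eq, pa, X_P n β hβ, Y_P n β hβ]
          nlinarith
        · exact absurd ⟨s', hs', hw⟩ hb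
      simp only [mem_setOf_eq] at this
      linarith
  · exfalso
    have : v ∈ {v : E n | 1 / 5 ≤ 1 * X n β v - 6 * Y n β v} := by
      refine convexHull_min (s := σ) ?_ (convex_left 1) hvσ
      intro w hw
      rcases hσM hw with h | ⟨s', hs', rfl⟩ | ⟨s', hs', rfl⟩
      · rcases h with rfl | h
        · exact absurd hw hc
        · rw [mem_singleton_iff] at h
          subst h
          simp only [mem_setOf_eq, pd, X_P n β hβ, Y_P n β hβ]; norm_num
      · exact absurd ⟨s', hs', hw⟩ ha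
      · obtain ⟨h0, h1⟩ := S_bounds hs'
        simp only [mem_setOf_eq, pb, X_P n β hβ, Y_P n β hβ]
        nlinarith
    simp only [mem_setOf_eq] at this
    linarith

/-- the points on the axis -/
noncomputable def pz (n : ℕ) (β s : ℝ) : E n := P n β 0 0 s

theorem diam_pair_lt {p q : E n} (hβ : 0 < β) (h : dist p q < β) : Metric.diam ({p, q} : Set (E n)) < β := by
  rw [Metric.diam_pair]
  exact h

theorem pz_mem (hβ : 0 < β) {s : ℝ} (hs : s ∈ S) : pz n β s ∈ Shadow β (M n β) := by
  simp only [Shadow, mem_iUnion, exists_prop]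
  by_cases h0 : s = 0
  · subst h0
    refine ⟨{pc n β, pd n β}, ⟨⟨pc n β, Set.mem_insert _ _⟩, (Set.finite_singleton _).insert _,
      Set.subset_union_left, diam_pair_lt hβ ?_⟩, ?_⟩
    · rw [pc, pd, dist_lt_iff n β hβ]; norm_num
    · rw [convexHull_pair]
      refine ⟨4 / 49, 45 / 49, by norm_num, by norm_num, by norm_num, ?_⟩
      ext i
      simp only [pc, pd, pz, P, PiLp.add_apply, PiLp.smul_apply, smul_eq_mul]
      refine Fin.cases ?_ (fun i => ?_) i
      · simp
      · simp only [Fin.cons_succ]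
        refine Fin.cases ?_ (fun i => ?_) i
        · simp; ring
        · simp only [Fin.cons_succ]
          refine Fin.cases ?_ (fun i => ?_) i
          · simp
          · simp
  · obtain ⟨h1, h2⟩ := S_bounds hs
    refine ⟨{pa n β s, pb n β s}, ⟨⟨pa n β s, Set.mem_insert _ _⟩, (Set.finite_singleton _).insert _,
      ?_, diam_pair_lt hβ ?_⟩, ?_⟩
    · rintro w (rfl | hw)
      · exact Or.inr (Or.inl ⟨s, hs, rfl⟩)
      · rw [mem_singleton_iff] at hw
        subst hw
        exact Or.inr (Or.inr ⟨s, hs, rfl⟩)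
    · rw [pa, pb, dist_lt_iff n β hβ]
      have : 0 < s ^ 2 := by positivity
      have h3 : s ^ 2 ≤ 1 / 16 := by nlinarith
      nlinarith
    · rw [convexHull_pair]
      refine ⟨1 / 2, 1 / 2, by norm_num, by norm_num, by norm_num, ?_⟩
      ext i
      simp only [pa, pb, pz, P, PiLp.add_apply, PiLp.smul_apply, smul_eq_mul]
      refine Fin.cases ?_ (fun i => ?_) i
      · simp; ring
      · simp only [Fin.cons_succ]
        refine Fin.cases ?_ (fun i => ?_) i
        · simp
        · simp only [Fin.cons_succ]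
          refine Fin.cases ?_ (fun i => ?_) i
          · simp; ring
          · simp

/-- No small connected part of the shadow contains the base point and another axis point. -/
theorem no_connected (hβ : 0 < β) {T : Type*} [TopologicalSpace T] [PreconnectedSpace T]
    {F : T → E n} (hF : Continuous F) (hS : ∀ t, F t ∈ Shadow β (M n β))
    (hX : ∀ t, |X n β (F t)| < 1 / 100) (hY : ∀ t, |Y n β (F t)| < 1 / 100) {s : ℝ} (hs : s ∈ S)
    (h0 : 0 < s) {t₀ t₁ : T} (e₀ : F t₀ = pz n β 0) (e₁ : F t₁ = pz n β s) : False := by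
  set g : T → ℝ := fun t => Z n β (F t) * (1 / 25) / (Y n β (F t) + 1 / 25) with hg
  have hpos : ∀ t, 0 < Y n β (F t) + 1 / 25 := fun t => by
    have := (abs_lt.1 (hY t)).1
    linarith
  have hgc : Continuous g :=
    (((continuous_Z n β).comp hF).mul continuous_const).div
      (((continuous_Y n β).comp hF).add continuous_const) (fun t => (hpos t).ne')
  have hgS : ∀ t, g t ∈ S := by
    intro t
    obtain ⟨s', hs', h⟩ := local_structure hβ (hS t) (hX t) (hY t)
    have : g t = s' := by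
      rw [hg]
      simp only
      rw [div_eq_iff (hpos t).ne']
      exact h
    rw [this]
    exact hs'
  have hg0 : g t₀ = 0 := by
    simp only [hg, e₀, pz, Z_P n β hβ, Y_P n β hβ]; norm_num
  have hg1 : g t₁ = s := by
    simp only [hg, e₁, pz, Z_P n β hβ, Y_P n β hβ]; field_simp; ring
  have hmem : 3 / 4 * s ∈ Icc (g t₀) (g t₁) := by
    rw [hg0, hg1]
    constructor <;> linarith
  obtain ⟨t, ht⟩ := intermediate_value_univ t₀ t₁ hgc hmem
  have := hgS t
  rw [ht] at this
  exact three_quarters hs h0 this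

theorem pz_tendsto : Tendsto (fun k : ℕ => pz n β ((1 / 2 : ℝ) ^ (k + 2))) atTop (𝓝 (pz n β 0)) := by
  have : Continuous (pz n β) :=
    (continuous_P n β).comp (f := fun s : ℝ => ((0 : ℝ), (0 : ℝ), s)) (by fun_prop)
  exact (this.tendsto 0).comp tendsto_pow

theorem pz_small (hβ : 0 < β) : ∀ᶠ v in 𝓝 (pz n β 0), |X n β v| < 1 / 100 ∧ |Y n β v| < 1 / 100 := by
  have h1 : Tendsto (fun v => |X n β v|) (𝓝 (pz n β 0)) (𝓝 0) := by
    have := ((continuous_X n β).abs.tendsto (pz n β 0))
    rwa [pz, X_P n β hβ, abs_zero] at this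
  have h2 : Tendsto (fun v => |Y n β v|) (𝓝 (pz n β 0)) (𝓝 0) := by
    have := ((continuous_Y n β).abs.tendsto (pz n β 0))
    rwa [pz, Y_P n β hβ, abs_zero] at this
  exact (h1.eventually_lt_const (by norm_num)).and (h2.eventually_lt_const (by norm_num))

/-- The shadow is not locally connected. -/
theorem not_locallyConnected (hβ : 0 < β) : ¬ LocallyConnectedSpace (Shadow β (M n β)) := by
  intro hlc
  set x₀ : Shadow β (M n β) := ⟨pz n β 0, pz_mem hβ zero_mem_S⟩ with hx₀
  have hU : {v : Shadow β (M n β) | |X n β v.1| < 1 / 100 ∧ |Y n β v.1| < 1 / 100} ∈ 𝓝 x₀ :=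
    (continuous_subtype_val.tendsto x₀).eventually (pz_small hβ)
  obtain ⟨V, ⟨hVo, hxV, hVc⟩, hVU⟩ := (LocallyConnectedSpace.open_connected_basis x₀).mem_iff.1 hU
  have h2 : Tendsto (fun k : ℕ => (⟨pz n β ((1 / 2 : ℝ) ^ (k + 2)),
      pz_mem hβ (Or.inr ⟨k, rfl⟩)⟩ : Shadow β (M n β))) atTop (𝓝 x₀) :=
    tendsto_subtype_rng.2 pz_tendsto
  obtain ⟨k, hk⟩ := (h2.eventually (hVo.mem_nhds hxV)).exists
  have : PreconnectedSpace V := isPreconnected_iff_preconnectedSpace.1 hVc.isPreconnected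
  exact no_connected hβ (F := fun t : V => (t.1 : E n)) (by fun_prop) (fun t => t.1.2)
    (fun t => (hVU t.2).1) (fun t => (hVU t.2).2) (s := (1 / 2 : ℝ) ^ (k + 2)) (Or.inr ⟨k, rfl⟩)
    (by positivity) (t₀ := ⟨x₀, hxV⟩) (t₁ := ⟨_, hk⟩) rfl rfl

/-! ### The shadow is not an absolute neighbourhood retract -/

variable (n β) in
/-- the ambient space of the retraction: an open half-space with the shadow added at its boundary -/
def A : Set (E n × ℝ) := {p | 0 < p.2 ∨ (p.2 = 0 ∧ p.1 ∈ Shadow β (M n β))}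

/-- the embedding -/
def emb (v : Shadow β (M n β)) : A n β := ⟨(v.1, 0), Or.inr ⟨rfl, v.2⟩⟩

theorem continuous_emb : Continuous (emb (n := n) (β := β)) :=
  Continuous.subtype_mk (by fun_prop) _

theorem isClosedEmbedding_emb : IsClosedEmbedding (emb (n := n) (β := β)) := by
  refine ⟨⟨⟨?_⟩, ?_⟩, ?_⟩
  · apply le_antisymm
    · exact continuous_iff_le_induced.1 continuous_emb
    · have h1 : Continuous (fun p : A n β => p.1.1) := by fun_prop
      calc TopologicalSpace.induced emb inferInstance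
          ≤ TopologicalSpace.induced emb (TopologicalSpace.induced (fun p : A n β => p.1.1)
              inferInstance) := induced_mono (continuous_iff_le_induced.1 h1)
        _ = _ := by rw [induced_compose]; rfl
  · intro v w h
    have := congrArg (fun p : A n β => p.1.1) h
    exact Subtype.ext this
  · have : range (emb (n := n) (β := β)) = {p : A n β | p.1.2 = 0} := by
      ext p
      constructor
      · rintro ⟨v, rfl⟩; rfl
      · intro hp
        rcases p.2 with h | h
        · exact absurd hp h.ne'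
        · exact ⟨⟨p.1.1, h.2⟩, Subtype.ext (Prod.ext rfl hp.symm)⟩
    rw [this]
    exact isClosed_eq (by fun_prop) continuous_const

theorem not_isANR (hβ : 0 < β) : ¬ IsANR (Shadow β (M n β)) := by
  rintro ⟨-, h⟩
  obtain ⟨U, hUo, hU, r, hr⟩ := h (A n β) emb isClosedEmbedding_emb
  set x₀ : Shadow β (M n β) := ⟨pz n β 0, pz_mem hβ zero_mem_S⟩ with hx₀
  have hz₀ : emb x₀ ∈ U := hU ⟨x₀, rfl⟩
  -- a small neighbourhood
  have h1 : ∀ᶠ u : U in 𝓝 ⟨emb x₀, hz₀⟩, |X n β (r u).1| < 1 / 100 ∧ |Y n β (r u).1| < 1 / 100 := by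
    have h2 : Tendsto (fun u : U => (r u).1) (𝓝 ⟨emb x₀, hz₀⟩) (𝓝 (pz n β 0)) := by
      have := (continuous_subtype_val.comp r.continuous).tendsto (⟨emb x₀, hz₀⟩ : U)
      simp only [Function.comp_apply, hr x₀ hz₀] at this
      exact this
    exact h2.eventually (pz_small hβ)
  have h3 : ∀ᶠ p : A n β in 𝓝 (emb x₀), ∃ hp : p ∈ U, |X n β (r ⟨p, hp⟩).1| < 1 / 100 ∧
      |Y n β (r ⟨p, hp⟩).1| < 1 / 100 := by
    rw [nhds_subtype_eq_comap] at h1
    obtain ⟨W, hW, hWU⟩ := Filter.eventually_comap.1 h1 |>.exists_mem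
    filter_upwards [hW, hUo.mem_nhds hz₀] with p hp hpU
    exact ⟨hpU, hWU p hp ⟨p, hpU⟩ rfl⟩
  obtain ⟨δ, hδ, hball⟩ := Metric.eventually_nhds_iff.1 h3
  -- a close point
  have h4 : ∀ᶠ k : ℕ in atTop, dist (pz n β ((1 / 2 : ℝ) ^ (k + 2))) (pz n β 0) < δ / 2 :=
    pz_tendsto.eventually (Metric.ball_mem_nhds _ (by positivity))
  obtain ⟨k, hk⟩ := h4.exists
  set s : ℝ := (1 / 2 : ℝ) ^ (k + 2) with hsdef
  have hs : s ∈ S := Or.inr ⟨k, rfl⟩
  have hs0 : 0 < s := by positivity
  -- the path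
  have hpz0 : pz n β 0 = 0 := by
    ext i
    simp only [pz, P]
    refine Fin.cases ?_ (fun i => ?_) i
    · simp
    · simp only [Fin.cons_succ]
      refine Fin.cases ?_ (fun i => ?_) i
      · simp
      · simp only [Fin.cons_succ]
        refine Fin.cases ?_ (fun i => ?_) i <;> simp
  have hmem : ∀ t : unitInterval, ((t : ℝ) • pz n β s, δ / 2 * ((t : ℝ) * (1 - t))) ∈ A n β := by
    intro t
    rcases eq_or_lt_of_le t.2.1 with h0 | h0
    · right
      rw [← h0]
      refine ⟨by simp, ?_⟩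
      simp only [zero_smul]
      rw [← hpz0]
      exact pz_mem hβ zero_mem_S
    · rcases eq_or_lt_of_le t.2.2 with h1 | h1
      · right
        rw [h1]
        refine ⟨by simp, ?_⟩
        simp only [one_smul]
        exact pz_mem hβ hs
      · left
        have : 0 < 1 - (t : ℝ) := by linarith
        positivity
  set p : unitInterval → A n β := fun t => ⟨_, hmem t⟩ with hp
  have hpc : Continuous p := Continuous.subtype_mk (by fun_prop) _
  have hclose : ∀ t, dist (p t) (emb x₀) < δ := by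
    intro t
    rw [Subtype.dist_eq, Prod.dist_eq, max_lt_iff]
    have ht0 := t.2.1
    have ht1 := t.2.2
    constructor
    · show dist ((t : ℝ) • pz n β s) (pz n β 0) < δ
      rw [hpz0, dist_zero_right] at hk ⊢
      rw [norm_smul, Real.norm_eq_abs, abs_of_nonneg ht0]
      nlinarith [norm_nonneg (pz n β s)]
    · show dist (δ / 2 * ((t : ℝ) * (1 - t))) 0 < δ
      rw [dist_zero_right, Real.norm_eq_abs, abs_of_nonneg
        (mul_nonneg (by positivity) (mul_nonneg ht0 (by linarith)))]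
      have h5 : (t : ℝ) * (1 - t) ≤ 1 := by nlinarith
      have h6 : δ / 2 * ((t : ℝ) * (1 - t)) ≤ δ / 2 * 1 :=
        mul_le_mul_of_nonneg_left h5 (by positivity)
      linarith
  have hpU : ∀ t, p t ∈ U := fun t => (hball (hclose t)).1
  have hFc : Continuous (fun t => (r ⟨p t, hpU t⟩ : E n)) :=
    continuous_subtype_val.comp (r.continuous.comp (Continuous.subtype_mk hpc _))
  refine no_connected hβ (T := unitInterval) hFc (fun t => (r ⟨p t, hpU t⟩).2)
    (fun t => (hball (hclose t)).2.1) (fun t => (hball (hclose t)).2.2) hs hs0 (t₀ := 0) (t₁ := 1)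
    ?_ ?_
  · have e : p 0 = emb x₀ := by
      apply Subtype.ext
      simp [hp, emb, hx₀, hpz0]
    have h5 : ∀ q : A n β, ∀ hq : q ∈ U, q = emb x₀ → ((r ⟨q, hq⟩ : Shadow β (M n β)) : E n) = pz n β 0 := by
      intro q hq hqe
      subst hqe
      exact congrArg Subtype.val (hr x₀ hq)
    exact h5 _ _ e
  · have e : p 1 = emb ⟨pz n β s, pz_mem hβ hs⟩ := by
      apply Subtype.ext
      simp [hp, emb]
    have h5 : ∀ q : A n β, ∀ hq : q ∈ U, q = emb ⟨pz n β s, pz_mem hβ hs⟩ →
        ((r ⟨q, hq⟩ : Shadow β (M n β)) : E n) = pz n β s := by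
      intro q hq hqe
      subst hqe
      exact congrArg Subtype.val (hr ⟨pz n β s, pz_mem hβ hs⟩ hq)
    exact h5 _ _ e

end points

end Pool.Agent.X197.VRShadow
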