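import Mathlib

/-!
# Surfaces generated by varisolvent functions on a finite set

If `g` is varisolvent on a finite set and its surface `G` is connected, then `G` is not closed.
-/

set_option autoImplicit false

namespace Pool.Agent.X197.Varisolvent

open Set Topology Filter

/-- `g` is locally solvent of degree `m` at `α₀`. -/
def LocallySolvent {A Q : Type*} (g : A → Q → ℝ) (m : ℕ) (α₀ : A) : Prop :=
  ∀ t : Fin m → Q, Function.Injective t → ∀ ε : ℝ, 0 < ε → ∃ δ : ℝ, 0 < δ ∧
    ∀ γ : Fin m → ℝ, (∀ i, |g α₀ (t i) - γ i| < δ) →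
      ∃ α : A, (∀ i, g α (t i) = γ i) ∧ ∀ s : Q, |g α s - g α₀ s| < ε

/-- `g` is varisolvent: there is a non-constant function `p`, with values in `{1, …, k}`,
`k = |Q|`, such that for every `α₀` the function `g` is locally solvent of degree `p α₀` at `α₀`
and `g α₀ - g α` has at most `p α₀ - 1` zeros for every `α ≠ α₀`. -/
def Varisolvent {A Q : Type*} (g : A → Q → ℝ) : Prop :=
  ∃ p : A → ℕ, (∀ α, 1 ≤ p α ∧ p α ≤ Nat.card Q) ∧ (∃ α β, p α ≠ p β) ∧
    (∀ α₀, LocallySolvent g (p α₀) α₀) ∧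
    ∀ α₀ α, α ≠ α₀ → {q : Q | g α₀ q - g α q = 0}.ncard ≤ p α₀ - 1

variable {A Q : Type*} [Fintype Q] {g : A → Q → ℝ} {p : A → ℕ}

theorem LocallySolvent.finset {m : ℕ} {α₀ : A} (h : LocallySolvent g m α₀) (T : Finset Q)
    (hT : T.card = m) {ε : ℝ} (hε : 0 < ε) : ∃ δ : ℝ, 0 < δ ∧
    ∀ γ : Q → ℝ, (∀ t ∈ T, |g α₀ t - γ t| < δ) →
      ∃ α : A, (∀ t ∈ T, g α t = γ t) ∧ ∀ s : Q, |g α s - g α₀ s| < ε := by
  let e : Fin m ≃ T := (T.equivFinOfCardEq hT).symm
  obtain ⟨δ, hδ, h1⟩ := h (fun i => (e i : Q)) (fun i j hij => e.injective (Subtype.ext hij)) ε hε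
  refine ⟨δ, hδ, fun γ hγ => ?_⟩
  obtain ⟨α, hα, hα'⟩ := h1 (fun i => γ (e i)) fun i => hγ _ (e i).2
  refine ⟨α, fun t ht => ?_, hα'⟩
  have := hα (e.symm ⟨t, ht⟩)
  simpa using this

theorem share (hz : ∀ α₀ α, α ≠ α₀ → {q : Q | g α₀ q - g α q = 0}.ncard ≤ p α₀ - 1)
    (hp : ∀ α, 1 ≤ p α) {α β : A} (hne : β ≠ α) (S : Finset Q)
    (hS : ∀ t ∈ S, g α t = g β t) : S.card + 1 ≤ p α := by
  have h1 : S.card ≤ {q : Q | g α q - g β q = 0}.ncard := by
    rw [← Set.ncard_coe_finset]
    exact Set.ncard_le_ncard (fun t ht => sub_eq_zero.2 (hS t ht)) (Set.toFinite _)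
  have h2 := hz α β hne
  have h3 := hp α
  omega

/-- The main step: points of a closed surface with larger degree near `g α₀` are connected to
points at distance one. -/
theorem far (hp : ∀ α, 1 ≤ p α ∧ p α ≤ Fintype.card Q)
    (hs : ∀ α₀, LocallySolvent g (p α₀) α₀)
    (hz : ∀ α₀ α, α ≠ α₀ → {q : Q | g α₀ q - g α q = 0}.ncard ≤ p α₀ - 1)
    (hcl : IsClosed (range g)) (α₀ w : A) (hw : dist (g w) (g α₀) < 1) {m : ℕ}
    (hm : m + 1 ≤ p w) (I : Finset Q) (hI : I.card = m) :
    ∃ v : A, (∀ i ∈ I, g v i = g w i) ∧ dist (g v) (g α₀) = 1 := by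
  classical
  by_contra hcon
  push Not at hcon
  obtain ⟨j, hj⟩ : ∃ j : Q, j ∉ I := by
    by_contra h
    push Not at h
    have h1 : I = Finset.univ := Finset.eq_univ_iff_forall.2 h
    have h2 := (hp w).2
    rw [h1, Finset.card_univ] at hI
    omega
  let S : Set (Q → ℝ) := {z | z ∈ range g ∧ (∀ i ∈ I, z i = g w i) ∧ dist z (g α₀) ≤ 1}
  have hScl : IsClosed S := by
    refine hcl.inter (IsClosed.inter ?_ ?_)
    · have : {z : Q → ℝ | ∀ i ∈ I, z i = g w i} = ⋂ i ∈ I, {z | z i = g w i} := by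
        ext z
        simp
      change IsClosed {z : Q → ℝ | ∀ i ∈ I, z i = g w i}
      rw [this]
      exact isClosed_biInter fun i _ => isClosed_eq (continuous_apply i) continuous_const
    · exact isClosed_le (continuous_id.dist continuous_const) continuous_const
  have hSc : IsCompact S :=
    (isCompact_closedBall (g α₀) 1).of_isClosed_subset hScl fun z hz => hz.2.2
  have hSne : S.Nonempty := ⟨g w, ⟨w, rfl⟩, fun _ _ => rfl, hw.le⟩
  obtain ⟨z, ⟨⟨β, rfl⟩, hβI, hβd⟩, hmax⟩ := hSc.exists_isMaxOn hSne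
    (f := fun z => z j) (continuous_apply j).continuousOn
  have hβd' : dist (g β) (g α₀) < 1 := lt_of_le_of_ne hβd (hcon β hβI)
  have hpβ : m + 1 ≤ p β := by
    rcases eq_or_ne w β with rfl | hne
    · exact hm
    · rw [← hI]
      exact share hz (fun α => (hp α).1) hne I hβI
  obtain ⟨T, hT, hTc⟩ := Finset.exists_superset_card_eq (s := insert j I) (n := p β) (by
    rw [Finset.card_insert_of_notMem hj, hI]
    exact hpβ) (hp β).2
  have hjT : j ∈ T := hT (Finset.mem_insert_self _ _)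
  have hIT : ∀ i ∈ I, i ∈ T := fun i hi => hT (Finset.mem_insert_of_mem hi)
  obtain ⟨δ, hδ, h1⟩ := (hs β).finset T hTc (sub_pos.2 hβd')
  obtain ⟨α, hα, hα'⟩ := h1 (Function.update (g β) j (g β j + δ / 2)) (by
    intro t _
    rcases eq_or_ne t j with rfl | hne
    · rw [Function.update_self, show g β t - (g β t + δ / 2) = -(δ / 2) by ring, abs_neg,
        abs_of_pos (half_pos hδ)]
      exact half_lt_self hδ
    · rw [Function.update_of_ne hne, sub_self, abs_zero]
      exact hδ)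
  have h2 : g α ∈ S := by
    refine ⟨⟨α, rfl⟩, fun i hi => ?_, ?_⟩
    · have hij : i ≠ j := fun h => hj (h ▸ hi)
      rw [hα i (hIT i hi), Function.update_of_ne hij, hβI i hi]
    · have h3 : dist (g α) (g β) ≤ 1 - dist (g β) (g α₀) := by
        refine (dist_pi_le_iff (sub_nonneg.2 hβd)).2 fun s => ?_
        rw [Real.dist_eq]
        exact (hα' s).le
      have := dist_triangle (g α) (g β) (g α₀)
      linarith
  have h4 : g α j ≤ g β j := hmax h2
  rw [hα j hjT, Function.update_self] at h4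
  linarith

theorem locConst (hp : ∀ α, 1 ≤ p α ∧ p α ≤ Fintype.card Q)
    (hs : ∀ α₀, LocallySolvent g (p α₀) α₀)
    (hz : ∀ α₀ α, α ≠ α₀ → {q : Q | g α₀ q - g α q = 0}.ncard ≤ p α₀ - 1)
    (hcl : IsClosed (range g)) (α₀ : A) :
    ∃ ε : ℝ, 0 < ε ∧ ∀ α, dist (g α) (g α₀) < ε → p α = p α₀ := by
  classical
  obtain ⟨I, -, hI⟩ := Finset.exists_superset_card_eq (s := (∅ : Finset Q)) (n := p α₀)
    (Nat.zero_le _) (hp α₀).2
  -- lower bound
  obtain ⟨δ, hδ, hlow⟩ : ∃ δ : ℝ, 0 < δ ∧ ∀ α, dist (g α) (g α₀) < δ → p α₀ ≤ p α := by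
    obtain ⟨δ, hδ, h1⟩ := (hs α₀).finset I hI one_pos
    refine ⟨δ / 2, half_pos hδ, fun α hα => ?_⟩
    have hIne : I.Nonempty := by
      rw [← Finset.card_pos, hI]
      exact (hp α₀).1
    obtain ⟨j, hj⟩ := hIne
    have hd : ∀ s, |g α₀ s - g α s| < δ / 2 := fun s => by
      rw [abs_sub_comm, ← Real.dist_eq]
      exact (dist_le_pi_dist _ _ s).trans_lt hα
    obtain ⟨β, hβ, -⟩ := h1 (Function.update (g α) j (g α j + δ / 2)) (by
      intro t _
      rcases eq_or_ne t j with rfl | hne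
      · rw [Function.update_self]
        have h2 := abs_lt.1 (hd t)
        rw [abs_lt]
        constructor <;> linarith
      · rw [Function.update_of_ne hne]
        have h2 := hd t
        linarith)
    have hne : β ≠ α := by
      rintro rfl
      have := hβ j hj
      rw [Function.update_self] at this
      linarith
    have h3 := share hz (fun α => (hp α).1) hne (I.erase j) (by
      intro t ht
      have ht1 := Finset.mem_erase.1 ht
      rw [hβ t ht1.2, Function.update_of_ne ht1.1])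
    rw [Finset.card_erase_of_mem hj, hI] at h3
    have h4 := (hp α₀).1
    omega
  -- upper bound
  obtain ⟨η, hη, hup⟩ : ∃ η : ℝ, 0 < η ∧ ∀ α, dist (g α) (g α₀) < η → p α ≤ p α₀ := by
    by_contra hcon
    push Not at hcon
    have hw : ∀ n : ℕ, ∃ w : A, dist (g w) (g α₀) < 1 / ((n : ℝ) + 1) ∧ p α₀ < p w := fun n =>
      hcon _ (by positivity)
    choose w hw1 hw2 using hw
    have hv : ∀ n : ℕ, ∃ v : A, (∀ i ∈ I, g v i = g (w n) i) ∧ dist (g v) (g α₀) = 1 := by
      intro n
      refine far hp hs hz hcl α₀ (w n) ((hw1 n).trans_le ?_) (hw2 n) I hI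
      rw [div_le_one (by positivity)]
      have : (0 : ℝ) ≤ n := Nat.cast_nonneg n
      linarith
    choose v hv1 hv2 using hv
    obtain ⟨z, hz1, φ, hφ, hlim⟩ := (isCompact_sphere (g α₀) 1).tendsto_subseq
      (x := fun n => g (v n)) fun n => hv2 n
    have hzr : z ∈ range g := hcl.mem_of_tendsto hlim (Eventually.of_forall fun n => ⟨_, rfl⟩)
    obtain ⟨β, rfl⟩ := hzr
    have hβI : ∀ i ∈ I, g α₀ i = g β i := by
      intro i hi
      have h1 : Tendsto (fun n => g (v (φ n)) i) atTop (𝓝 (g β i)) :=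
        (tendsto_pi_nhds.1 hlim i)
      have h2 : Tendsto (fun n => g (w n) i) atTop (𝓝 (g α₀ i)) := by
        rw [tendsto_iff_dist_tendsto_zero]
        refine squeeze_zero (fun _ => dist_nonneg) (fun n => ?_)
          tendsto_one_div_add_atTop_nhds_zero_nat
        exact (dist_le_pi_dist _ _ i).trans (hw1 n).le
      have h3 := h2.comp hφ.tendsto_atTop
      refine tendsto_nhds_unique (h3.congr fun n => ?_) h1
      exact (hv1 (φ n) i hi).symm
    have hne : β ≠ α₀ := by
      rintro rfl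
      have : dist (g β) (g β) = 1 := hz1
      rw [dist_self] at this
      exact zero_ne_one this
    have h4 := share hz (fun α => (hp α).1) hne I hβI
    omega
  refine ⟨min δ η, lt_min hδ hη, fun α hα => le_antisymm ?_ ?_⟩
  · exact hup α (hα.trans_le (min_le_right _ _))
  · exact hlow α (hα.trans_le (min_le_left _ _))

omit [Fintype Q] in
theorem main [Finite Q] (hg : Varisolvent g) (hc : IsPreconnected (range g)) :
    ¬ IsClosed (range g) := by
  intro hcl
  haveI := Fintype.ofFinite Q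
  obtain ⟨p, hp, ⟨a, b, hab⟩, hs, hz⟩ := hg
  rw [Nat.card_eq_fintype_card] at hp
  apply hab
  have hloc := locConst hp hs hz hcl
  haveI : PreconnectedSpace (range g) := Subtype.preconnectedSpace hc
  choose c hc' using fun z : range g => z.2
  have hpc : ∀ α : A, p (c ⟨g α, α, rfl⟩) = p α := by
    intro α
    obtain ⟨ε, hε, h⟩ := hloc α
    refine h _ ?_
    rw [hc' ⟨g α, α, rfl⟩, dist_self]
    exact hε
  have hlc : IsLocallyConstant fun z : range g => p (c z) := by
    rw [IsLocallyConstant.iff_eventually_eq]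
    intro z
    obtain ⟨ε, hε, h⟩ := hloc (c z)
    filter_upwards [Metric.ball_mem_nhds z hε] with y hy
    refine h _ ?_
    rw [hc' z, hc' y]
    exact hy
  have h1 := hlc.apply_eq_of_preconnectedSpace ⟨g a, a, rfl⟩ ⟨g b, b, rfl⟩
  rw [← hpc a, ← hpc b]
  exact h1

end Pool.Agent.X197.Varisolvent
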