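import Mathlib

/-!
# A weakly pseudocompact, ℝ-factorizable group which is not precompact
-/

open Set Topology Filter

namespace Pool.Agent.X197.WeakPs

/-- `X` has a Hausdorff compactification in which it is `G_δ`-dense. -/
def WeaklyPseudocompact (X : Type) [TopologicalSpace X] : Prop :=
  ∃ (b : Type) (_ : TopologicalSpace b), CompactSpace b ∧ T2Space b ∧ ∃ e : X → b,
    IsEmbedding e ∧ DenseRange e ∧ ∀ W : Set b, IsGδ W → W.Nonempty → (W ∩ range e).Nonempty

/-- Every continuous real-valued function on `G` factors through a continuous homomorphism onto a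
second-countable (Hausdorff) topological group. -/
def RFactorizable (G : Type) [Group G] [TopologicalSpace G] : Prop :=
  ∀ f : G → ℝ, Continuous f → ∃ (H : Type) (_ : Group H) (_ : TopologicalSpace H),
    IsTopologicalGroup H ∧ T2Space H ∧ SecondCountableTopology H ∧
      ∃ (π : G →* H) (h : H → ℝ), Continuous π ∧ Function.Surjective π ∧ Continuous h ∧
        ∀ x, f x = h (π x)

/-- Every neighbourhood `U` of the identity satisfies `G = F U` for a finite set `F`. -/
def Precompact (G : Type) [Group G] [TopologicalSpace G] : Prop :=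
  ∀ U ∈ 𝓝 (1 : G), ∃ F : Set G, F.Finite ∧ ∀ g : G, ∃ a ∈ F, ∃ u ∈ U, g = a * u

/-! ### The Σ-product -/

/-- the full power -/
abbrev P : Type := ℝ → ℤˣ

/-- the Σ-product: functions of countable support -/
def Sig : Subgroup P where
  carrier := {x | {i | x i ≠ 1}.Countable}
  one_mem' := by simp
  mul_mem' := by
    intro x y hx hy
    refine (hx.union hy).mono ?_
    intro i hi
    by_contra hc
    rw [mem_union, not_or] at hc
    obtain ⟨h1, h2⟩ := hc
    simp only [mem_ofPred_eq, not_not] at h1 h2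
    exact hi (by simp [h1, h2])
  inv_mem' := by
    intro x hx
    simpa using hx

theorem mem_Sig {x : P} : x ∈ Sig ↔ {i | x i ≠ 1}.Countable := Iff.rfl

/-- the constant function `-1`, a point outside the Σ-product -/
def q : P := fun _ => -1

theorem q_notMem : q ∉ Sig := by
  rw [mem_Sig]
  have : {i : ℝ | q i ≠ 1} = univ := by
    ext i
    simp [q]
  rw [this]
  exact Cardinal.not_countable_real

theorem ne_q {x : P} (hx : x ∈ Sig) : x ≠ q := fun h => q_notMem (h ▸ hx)

/-- restrict to a set and extend by one -/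
noncomputable def cut (A : Set ℝ) (x : P) : P := by
  classical exact fun i => if i ∈ A then x i else 1

theorem cut_mem {A : Set ℝ} {x : P} {i : ℝ} (h : i ∈ A) : cut A x i = x i := by
  simp [cut, h]

theorem cut_notMem {A : Set ℝ} {x : P} {i : ℝ} (h : i ∉ A) : cut A x i = 1 := by
  simp [cut, h]

theorem cut_Sig {A : Set ℝ} (hA : A.Countable) (x : P) : cut A x ∈ Sig := by
  rw [mem_Sig]
  refine hA.mono ?_
  intro i hi
  by_contra hc
  exact hi (cut_notMem hc)

/-- the Σ-product is `G_δ`-dense in the full power -/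
theorem gdense {W : Set P} (hW : IsGδ W) (hne : W.Nonempty) : (W ∩ Sig).Nonempty := by
  obtain ⟨y, hy⟩ := hne
  obtain ⟨T, hTo, hTc, rfl⟩ := hW
  have h1 : ∀ t : Set P, ∃ F : Finset ℝ, t ∈ T → ∀ x : P, (∀ i ∈ F, x i = y i) → x ∈ t := by
    intro t
    by_cases ht : t ∈ T
    · obtain ⟨F, u, hu, hsub⟩ := isOpen_pi_iff.1 (hTo t ht) y (hy t ht)
      refine ⟨F, fun _ x hx => hsub ?_⟩
      intro i hi
      rw [hx i hi]
      exact (hu i hi).2
    · exact ⟨∅, fun h => absurd h ht⟩
  choose F hF using h1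
  set A : Set ℝ := ⋃ t ∈ T, (F t : Set ℝ) with hA
  have hAc : A.Countable := hTc.biUnion fun t _ => (F t).countable_toSet
  refine ⟨cut A y, ?_, cut_Sig hAc y⟩
  intro t ht
  refine hF t ht _ fun i hi => cut_mem ?_
  exact mem_biUnion ht hi

/-! ### Weak pseudocompactness of `ℤ × Σ` -/

/-- the group -/
abbrev G : Type := Multiplicative ℤ × Sig

/-- a locally compact space containing it -/
abbrev L : Type := Multiplicative ℤ × {x : P // x ≠ q}

theorem isOpen_ne_q : IsOpen {x : P | x ≠ q} := _root_.isOpen_ne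

instance : LocallyCompactSpace {x : P // x ≠ q} := isOpen_ne_q.locallyCompactSpace

/-- the embedding in the compactification -/
def e (g : G) : OnePoint L := ((g.1, ⟨g.2.1, ne_q g.2.2⟩) : L)

theorem isEmbedding_e : IsEmbedding e := by
  refine OnePoint.isOpenEmbedding_coe.isEmbedding.comp ?_
  refine IsEmbedding.id.prodMap (f := id)
    (g := fun x : Sig => (⟨x.1, ne_q x.2⟩ : {x : P // x ≠ q})) ?_
  have h : IsEmbedding ((Subtype.val : {x : P // x ≠ q} → P) ∘
      (fun x : Sig => (⟨x.1, ne_q x.2⟩ : {x : P // x ≠ q}))) := IsEmbedding.subtypeVal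
  exact IsEmbedding.of_comp (by fun_prop) (by fun_prop) h

/-- the full power as a subspace of the compactification -/
noncomputable def j (n : Multiplicative ℤ) (x : P) : OnePoint L := by
  classical exact if h : x ≠ q then ((n, ⟨x, h⟩) : L) else OnePoint.infty

theorem j_ne {n : Multiplicative ℤ} {x : P} (h : x ≠ q) : j n x = ((n, ⟨x, h⟩) : L) := by
  simp [j, h]

theorem j_q {n : Multiplicative ℤ} : j n q = OnePoint.infty := by
  simp [j]

theorem continuous_j (n : Multiplicative ℤ) : Continuous (j n) := by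
  rw [continuous_def]
  intro t ht
  have hpre : (j n ⁻¹' t) = (fun x : {x : P // x ≠ q} => x.1) ''
      ((fun x : {x : P // x ≠ q} => ((n, x) : L)) ⁻¹' (OnePoint.some ⁻¹' t)) ∪ (j n ⁻¹' t ∩ {q}) := by
    ext x
    constructor
    · intro hx
      by_cases h : x ≠ q
      · left
        refine ⟨⟨x, h⟩, ?_, rfl⟩
        have : j n x ∈ t := hx
        rwa [j_ne h] at this
      · right
        exact ⟨hx, not_not.1 h⟩
    · rintro (⟨y, hy, rfl⟩ | ⟨hx, -⟩)
      · show j n y.1 ∈ t
        rw [j_ne y.2]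
        exact hy
      · exact hx
  by_cases hinf : OnePoint.infty ∈ t
  · obtain ⟨-, hcomp⟩ := (OnePoint.isOpen_iff_of_mem hinf).1 ht
    have hcl : IsClosed (j n ⁻¹' t)ᶜ := by
      have h1 : IsCompact ((OnePoint.some ⁻¹' t)ᶜ ∩ {p : L | p.1 = n}) :=
        hcomp.inter_right (isClosed_eq continuous_fst continuous_const)
      have h2 : IsCompact ((fun p : L => p.2.1) '' ((OnePoint.some ⁻¹' t)ᶜ ∩ {p : L | p.1 = n})) :=
        h1.image (by fun_prop)
      convert h2.isClosed using 1
      ext x
      constructor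
      · intro hx
        have hxq : x ≠ q := by
          rintro rfl
          apply hx
          show j n q ∈ t
          rwa [j_q]
        refine ⟨(n, ⟨x, hxq⟩), ⟨?_, rfl⟩, rfl⟩
        intro h
        apply hx
        show j n x ∈ t
        rw [j_ne hxq]
        exact h
      · rintro ⟨⟨m, y⟩, ⟨h3, h4⟩, rfl⟩ hx
        have h5 : m = n := h4
        subst h5
        apply h3
        have h6 : j m y.1 ∈ t := hx
        rw [j_ne y.2] at h6
        exact h6
    exact isClosed_compl_iff.1 hcl
  · have h3 : j n ⁻¹' t ∩ {q} = ∅ := by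
      ext x
      simp only [mem_inter_iff, mem_preimage, mem_singleton_iff, mem_empty_iff_false, iff_false,
        not_and]
      rintro hx rfl
      rw [j_q] at hx
      exact hinf hx
    rw [hpre, h3, union_empty]
    refine isOpen_ne_q.isOpenMap_subtype_val _ ?_
    exact ((ht.preimage OnePoint.continuous_coe).preimage (by fun_prop))

theorem weaklyPseudocompact : WeaklyPseudocompact G := by
  have hG : ∀ W : Set (OnePoint L), IsGδ W → W.Nonempty → (W ∩ range e).Nonempty := by
    intro W hW hne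
    obtain ⟨n, hn⟩ : ∃ n : Multiplicative ℤ, (j n ⁻¹' W).Nonempty := by
      obtain ⟨y, hy⟩ := hne
      induction y using OnePoint.rec with
      | infty => exact ⟨1, q, by show j 1 q ∈ W; rwa [j_q]⟩
      | coe y =>
        refine ⟨y.1, y.2.1, ?_⟩
        show j y.1 y.2.1 ∈ W
        rwa [j_ne y.2.2]
    obtain ⟨x, hx, hxS⟩ := gdense (hW.preimage (continuous_j n)) hn
    refine ⟨j n x, hx, ⟨(n, ⟨x, hxS⟩), ?_⟩⟩
    rw [j_ne (ne_q hxS)]
    rfl
  refine ⟨OnePoint L, inferInstance, inferInstance, inferInstance, e, isEmbedding_e, ?_, hG⟩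
  rw [DenseRange, dense_iff_inter_open]
  intro U hU hne
  exact hG U hU.isGδ hne

/-! ### ℝ-factorizability -/

theorem depends (f : Sig → ℝ) (hf : Continuous f) : ∃ A : Set ℝ, A.Countable ∧
    ∀ x y : Sig, (∀ i ∈ A, x.1 i = y.1 i) → f x = f y := by
  have h1 : ∀ (x : Sig) (k : ℕ), ∃ F : Finset ℝ, ∀ y : Sig, (∀ i ∈ F, y.1 i = x.1 i) →
      |f y - f x| < 1 / (k + 1) := by
    intro x k
    have h2 : IsOpen (f ⁻¹' Metric.ball (f x) (1 / (k + 1))) := Metric.isOpen_ball.preimage hf
    obtain ⟨V, hV, hVe⟩ := isOpen_induced_iff.1 h2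
    have hxV : x.1 ∈ V := by
      have : x ∈ f ⁻¹' Metric.ball (f x) (1 / (k + 1)) := Metric.mem_ball_self (by positivity)
      rw [← hVe] at this
      exact this
    obtain ⟨F, u, hu, hsub⟩ := isOpen_pi_iff.1 hV x.1 hxV
    refine ⟨F, fun y hy => ?_⟩
    have h3 : y ∈ f ⁻¹' Metric.ball (f x) (1 / (k + 1)) := by
      rw [← hVe]
      refine hsub ?_
      intro i hi
      rw [hy i hi]
      exact (hu i hi).2
    exact h3
  choose F hF using h1
  set pt : Set ℝ → P := fun t => cut t q with hpt
  set N : Set ℝ → ℕ → Set ℝ := fun t k => {i | ∃ ht : t.Countable, i ∈ F ⟨pt t, cut_Sig ht q⟩ k}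
    with hN
  have hNc : ∀ t k, (N t k).Countable := by
    intro t k
    by_cases ht : t.Countable
    · refine (F ⟨pt t, cut_Sig ht q⟩ k).countable_toSet.mono ?_
      rintro i ⟨_, hi⟩
      exact hi
    · refine Set.countable_empty.mono ?_
      rintro i ⟨h, _⟩
      exact ht h
  set step : Set ℝ → Set ℝ := fun A => A ∪ ⋃ t ∈ {t : Set ℝ | t.Finite ∧ t ⊆ A}, ⋃ k, N t k with hstep
  set A : ℕ → Set ℝ := fun n => step^[n] ∅ with hAdef
  have hA1 : ∀ n, A (n + 1) = step (A n) := fun n => Function.iterate_succ_apply' _ _ _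
  have hAc : ∀ n, (A n).Countable := by
    intro n
    induction n with
    | zero => exact Set.countable_empty
    | succ n ih =>
      rw [hA1]
      exact ih.union ((Set.countable_ofPred_finite_subset ih).biUnion
        fun t _ => Set.countable_iUnion fun k => hNc t k)
  have hmono : Monotone A := monotone_nat_of_le_succ fun n => by
    rw [hA1]
    exact subset_union_left
  refine ⟨⋃ n, A n, Set.countable_iUnion hAc, ?_⟩
  -- closing off
  have key : ∀ (x y : Sig) (k : ℕ), (∀ i ∈ ⋃ n, A n, x.1 i = y.1 i) →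
      |f x - f y| < 4 * (1 / ((k : ℝ) + 1)) := by
    intro x y k hxy
    classical
    set s : Set ℝ := {i | i ∈ (↑(F x k) ∪ ↑(F y k) : Set ℝ) ∧ i ∈ ⋃ n, A n ∧ x.1 i ≠ 1} with hs
    have hsfin : s.Finite := ((F x k).finite_toSet.union (F y k).finite_toSet).subset
      fun i hi => hi.1
    have hsc : s.Countable := hsfin.countable
    obtain ⟨n, hn⟩ : ∃ n, s ⊆ A n := by
      have h2 : ∀ i ∈ s, ∃ n, i ∈ A n := fun i hi => mem_iUnion.1 hi.2.1
      choose! m hm using h2
      obtain ⟨b, hb⟩ := (hsfin.image m).bddAbove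
      exact ⟨b, fun i hi => hmono (hb ⟨i, hi, rfl⟩) (hm i hi)⟩
    set z : Sig := ⟨pt s, cut_Sig hsc q⟩ with hz
    have hzF : (↑(F z k) : Set ℝ) ⊆ ⋃ n, A n := by
      intro i hi
      refine mem_iUnion.2 ⟨n + 1, ?_⟩
      rw [hA1]
      refine Or.inr ?_
      refine mem_biUnion (x := s) ⟨hsfin, hn⟩ ?_
      exact mem_iUnion.2 ⟨k, hsc, hi⟩
    have hzval : ∀ i ∈ (↑(F x k) ∪ ↑(F y k) : Set ℝ), i ∈ ⋃ n, A n → z.1 i = x.1 i := by
      intro i hi hiA
      by_cases h : x.1 i = 1
      · rw [h]
        exact cut_notMem fun h' => h'.2.2 h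
      · have h2 : x.1 i = -1 := (Int.units_eq_one_or _).resolve_left h
        rw [h2]
        exact cut_mem (x := q) (A := s) ⟨hi, hiA, h⟩
    -- the comparison of `z` with `w` for `w ∈ {x, y}`
    have cmp : ∀ w : Sig, (↑(F w k) ⊆ (↑(F x k) ∪ ↑(F y k) : Set ℝ)) →
        (∀ i ∈ ⋃ n, A n, w.1 i = x.1 i) → |f w - f z| < 2 * (1 / ((k : ℝ) + 1)) := by
      intro w hw hwx
      set B : Set ℝ := ↑(F w k) with hB
      set v : P := fun i => if i ∈ B then w.1 i else if i ∈ F z k then z.1 i else 1 with hv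
      have hvS : v ∈ Sig := by
        rw [mem_Sig]
        refine ((F w k).countable_toSet.union (F z k).countable_toSet).mono ?_
        intro i hi
        by_contra hc
        rw [mem_union, not_or] at hc
        apply hi
        simp only [hv]
        have hc2 : i ∉ F z k := fun h => hc.2 h
        rw [if_neg hc.1, if_neg hc2]
      have h3 := hF w k ⟨v, hvS⟩ (by
        intro i hi
        simp only [hv]
        rw [if_pos (show i ∈ B from hi)])
      have h4 := hF z k ⟨v, hvS⟩ (by
        intro i hi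
        simp only [hv]
        by_cases hiB : i ∈ B
        · rw [if_pos hiB, hwx i (hzF hi), hzval i (hw hiB) (hzF hi)]
        · rw [if_neg hiB, if_pos hi])
      rw [abs_lt] at h3 h4 ⊢
      constructor <;> linarith [h3.1, h3.2, h4.1, h4.2]
    have h5 := cmp x subset_union_left (fun i _ => rfl)
    have h6 := cmp y subset_union_right (fun i hi => (hxy i hi).symm)
    rw [abs_lt] at h5 h6 ⊢
    constructor <;> linarith [h5.1, h5.2, h6.1, h6.2]
  intro x y hxy
  have h7 : |f x - f y| ≤ 0 := by
    refine ge_of_tendsto' (x := atTop) (f := fun k : ℕ => 4 * (1 / ((k : ℝ) + 1))) ?_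
      (fun k => (key x y k hxy).le)
    have := (tendsto_one_div_add_atTop_nhds_zero_nat (𝕜 := ℝ)).const_mul 4
    simpa using this
  have h8 : f x - f y = 0 := abs_eq_zero.1 (le_antisymm h7 (abs_nonneg _))
  linarith

theorem rFactorizable : RFactorizable G := by
  intro f hf
  have h1 : ∀ n : Multiplicative ℤ, ∃ A : Set ℝ, A.Countable ∧
      ∀ x y : Sig, (∀ i ∈ A, x.1 i = y.1 i) → f (n, x) = f (n, y) :=
    fun n => depends (fun x => f (n, x)) (by fun_prop)
  choose A' hA'c hA' using h1
  set A : Set ℝ := ⋃ n, A' n with hA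
  have hAc : A.Countable := Set.countable_iUnion hA'c
  have : Countable A := hAc.to_subtype
  have hdep : ∀ (n : Multiplicative ℤ) (x y : Sig), (∀ i ∈ A, x.1 i = y.1 i) →
      f (n, x) = f (n, y) := fun n x y h => hA' n x y fun i hi => h i (mem_iUnion.2 ⟨n, hi⟩)
  classical
  -- extension by one
  set ext : (A → ℤˣ) → P := fun a i => if h : i ∈ A then a ⟨i, h⟩ else 1 with hext
  have hextS : ∀ a, ext a ∈ Sig := by
    intro a
    rw [mem_Sig]
    refine hAc.mono ?_
    intro i hi
    by_contra hc
    apply hi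
    simp only [hext]
    rw [dif_neg hc]
  have hextc : Continuous ext := by
    refine continuous_pi fun i => ?_
    by_cases h : i ∈ A
    · simp only [hext, dif_pos h]
      fun_prop
    · simp only [hext, dif_neg h]
      fun_prop
  have hextval : ∀ (a : A → ℤˣ) (i : ℝ) (h : i ∈ A), ext a i = a ⟨i, h⟩ := by
    intro a i h
    simp only [hext]
    rw [dif_pos h]
  refine ⟨Multiplicative ℤ × (A → ℤˣ), inferInstance, inferInstance, inferInstance, inferInstance,
    inferInstance, ?_⟩
  refine ⟨{ toFun := fun g => (g.1, fun a => g.2.1 a.1), map_one' := rfl, map_mul' := fun _ _ => rfl },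
    fun p => f (p.1, ⟨ext p.2, hextS p.2⟩), ?_, ?_, ?_, ?_⟩
  · show Continuous fun g : G => ((g.1, fun a => g.2.1 a.1) : Multiplicative ℤ × (A → ℤˣ))
    refine continuous_fst.prodMk (continuous_pi fun a => ?_)
    exact (continuous_apply a.1).comp (continuous_subtype_val.comp continuous_snd)
  · rintro ⟨n, a⟩
    refine ⟨(n, ⟨ext a, hextS a⟩), ?_⟩
    show ((n, fun b : A => ext a b.1) : Multiplicative ℤ × (A → ℤˣ)) = (n, a)
    congr 1
    funext b
    exact hextval a b.1 b.2
  · refine hf.comp (continuous_fst.prodMk ?_)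
    exact Continuous.subtype_mk (hextc.comp continuous_snd) _
  · rintro ⟨n, x⟩
    refine hdep n _ _ fun i hi => ?_
    exact (hextval (fun a : A => x.1 a.1) i hi).symm

/-! ### Not precompact -/

theorem not_precompact : ¬ Precompact G := by
  intro h
  have hU : {g : G | g.1 = 1} ∈ 𝓝 (1 : G) := by
    have h1 : IsOpen {g : G | g.1 = 1} :=
      (isOpen_discrete ({1} : Set (Multiplicative ℤ))).preimage continuous_fst
    exact h1.mem_nhds rfl
  obtain ⟨F, hF, hcov⟩ := h _ hU
  have h2 : (Prod.fst '' F : Set (Multiplicative ℤ)) = univ := by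
    rw [eq_univ_iff_forall]
    intro n
    obtain ⟨a, ha, u, hu, hg⟩ := hcov (n, 1)
    refine ⟨a, ha, ?_⟩
    have h3 := congrArg Prod.fst hg
    have h4 : u.1 = 1 := hu
    simp only [Prod.fst_mul, h4, mul_one] at h3
    exact h3.symm
  have h5 : (univ : Set (Multiplicative ℤ)).Finite := h2 ▸ hF.image _
  exact Set.infinite_univ h5

end Pool.Agent.X197.WeakPs
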